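import Pool.Agent.Helper611.UInv

set_option autoImplicit false
set_option linter.unusedSectionVars false
set_option linter.unnecessarySimpa false

/-! Simplicial complexes whose realisation has charts. -/

namespace Pool.Agent.Helper611.UMan

open Pool.Agent.Helper611.ZBase Pool.Agent.Helper611.UTop Pool.Agent.Helper611.UInv

section charts
variable {V : Type} [Fintype V] [LinearOrder V] {n : ℕ} {H : Type} [TopologicalSpace H]

lemma chart_data (Δ : Cx V) (ι : H → EE n) (hι : Topology.IsEmbedding ι)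
    (c : OpenPartialHomeomorph (realization Δ) H) (x : realization Δ) (hx : x ∈ c.source) :
    ∃ (R : ℝ) (e : EE n → (V → ℝ)), 0 < R ∧
      ContinuousOn e (Metric.ball (ι (c x)) R ∩ Set.range ι) ∧
      Set.InjOn e (Metric.ball (ι (c x)) R ∩ Set.range ι) ∧
      (∀ w ∈ Metric.ball (ι (c x)) R ∩ Set.range ι, e w ∈ realization Δ) ∧
      e (ι (c x)) = x ∧
      ∀ U : Set (EE n), IsOpen U → U ∩ Set.range ι ⊆ Metric.ball (ι (c x)) R →
        ∃ O : Set (V → ℝ), IsOpen O ∧
          ∀ u ∈ realization Δ, u ∈ O ↔ ∃ w ∈ U ∩ Set.range ι, e w = u := by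
  classical
  haveI : Nonempty H := ⟨c x⟩
  obtain ⟨T, hT, hTc⟩ := hι.isInducing.isOpen_iff.1 c.open_target
  have hyT : ι (c x) ∈ T := by
    have : c x ∈ ι ⁻¹' T := by rw [hTc]; exact c.map_source hx
    exact this
  obtain ⟨R, hR, hRT⟩ := Metric.isOpen_iff.1 hT _ hyT
  let g : EE n → H := Function.invFun ι
  have hgι : ∀ a, g (ι a) = a := fun a => Function.leftInverse_invFun hι.injective a
  let e : EE n → (V → ℝ) := fun w => (c.symm (g w)).1
  have heι : ∀ a, e (ι a) = (c.symm a).1 := fun a => by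
    show (c.symm (g (ι a))).1 = _
    rw [hgι]
  have htar : ∀ a, ι a ∈ Metric.ball (ι (c x)) R → a ∈ c.target := by
    intro a ha
    rw [← hTc]
    exact hRT ha
  have hgc : ContinuousOn g (Metric.ball (ι (c x)) R ∩ Set.range ι) := by
    rw [hι.isInducing.continuousOn_iff]
    refine continuousOn_id.congr ?_
    rintro w ⟨_, a, rfl⟩
    show ι (g (ι a)) = ι a
    rw [hgι]
  refine ⟨R, e, hR, ?_, ?_, ?_, ?_, ?_⟩
  · have h1 : ContinuousOn (fun w => c.symm (g w)) (Metric.ball (ι (c x)) R ∩ Set.range ι) := by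
      refine c.symm.continuousOn.comp hgc ?_
      rintro w ⟨hw, a, rfl⟩
      show g (ι a) ∈ c.target
      rw [hgι]
      exact htar a hw
    exact continuous_subtype_val.comp_continuousOn h1
  · rintro w ⟨hw, a, rfl⟩ w' ⟨hw', a', rfl⟩ h
    rw [heι, heι] at h
    have h1 := c.symm.injOn (htar a hw) (htar a' hw') (Subtype.ext h)
    rw [h1]
  · rintro w _
    exact (c.symm (g w)).2
  · rw [heι, c.left_inv hx]
  · intro U hU hUR
    obtain ⟨O, hO, hOc⟩ := isOpen_induced_iff.1 (c.isOpen_inter_preimage (hU.preimage hι.continuous))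
    refine ⟨O, hO, fun u hu => ?_⟩
    have h1 : u ∈ O ↔ (⟨u, hu⟩ : realization Δ) ∈ c.source ∩ c ⁻¹' (ι ⁻¹' U) := by
      rw [← hOc]
      rfl
    rw [h1]
    constructor
    · rintro ⟨h2, h3⟩
      refine ⟨ι (c ⟨u, hu⟩), ⟨h3, _, rfl⟩, ?_⟩
      rw [heι, c.left_inv h2]
    · rintro ⟨w, ⟨hw, a, rfl⟩, hwu⟩
      rw [heι] at hwu
      have h2 : a ∈ c.target := htar a (hUR ⟨hw, a, rfl⟩)
      have h3 : c.symm a = ⟨u, hu⟩ := Subtype.ext hwu
      rw [← h3]
      refine ⟨c.map_target h2, ?_⟩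
      show ι (c (c.symm a)) ∈ U
      rw [c.right_inv h2]
      exact hw

/-- a positive point of a face -/
lemma exists_bary (τ : Finset V) (hne : τ.Nonempty) :
    ∃ x : V → ℝ, x ∈ cell τ ∧ ∀ v ∈ τ, 0 < x v := by
  classical
  have hc : (0 : ℝ) < τ.card := by exact_mod_cast Finset.card_pos.2 hne
  let x : V → ℝ := fun v => if v ∈ τ then (τ.card : ℝ)⁻¹ else 0
  have hxp : ∀ v ∈ τ, 0 < x v := by
    intro v hv
    show 0 < (if v ∈ τ then (τ.card : ℝ)⁻¹ else 0)
    rw [if_pos hv]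
    exact inv_pos.2 hc
  have hx0 : ∀ v, v ∉ τ → x v = 0 := fun v hv => if_neg hv
  have hxn : ∀ v, 0 ≤ x v := by
    intro v
    by_cases hv : v ∈ τ
    · exact (hxp v hv).le
    · exact (hx0 v hv).ge
  have hxτ : ∑ v ∈ τ, x v = 1 := by
    have : ∑ v ∈ τ, x v = ∑ v ∈ τ, (τ.card : ℝ)⁻¹ := Finset.sum_congr rfl fun v hv => if_pos hv
    rw [this, Finset.sum_const, nsmul_eq_mul, mul_inv_cancel₀ (ne_of_gt hc)]
  have hx1 : ∑ v, x v = 1 := by
    rw [← hxτ]
    exact (Finset.sum_subset (Finset.subset_univ _) fun w _ hw => hx0 w hw).symm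
  exact ⟨x, ⟨hxn, hx1, hx0⟩, hxp⟩

/-- Local acyclicity when the range of the model contains a ball around the image. -/
lemma acy_chart_int (Δ : Cx V) (ι : H → EE n) (hι : Topology.IsEmbedding ι)
    (c : OpenPartialHomeomorph (realization Δ) H) (hn : 1 ≤ n) (τ : Finset V)
    (hτ : τ ∈ Δ.faces) (hne : τ.Nonempty) (x : V → ℝ) (hx : x ∈ cell τ)
    (hxp : ∀ v ∈ τ, 0 < x v) (hxs : ⟨x, cell_sub Δ τ hτ hx⟩ ∈ c.source)
    (ρ : ℝ) (hρ : 0 < ρ)
    (hρr : Metric.closedBall (ι (c ⟨x, cell_sub Δ τ hτ hx⟩)) ρ ⊆ Set.range ι)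
    (k : ℕ) (hk : k ≤ n) : Acy Δ ℤ τ k := by
  obtain ⟨R, e, hR, h1, h2, h3, h4, h5⟩ := chart_data Δ ι hι c ⟨x, cell_sub Δ τ hτ hx⟩ hxs
  let y := ι (c ⟨x, cell_sub Δ τ hτ hx⟩)
  let r : ℝ := min (R / 2) ρ
  have hr : 0 < r := lt_min (by positivity) hρ
  have hrR : r < R := lt_of_le_of_lt (min_le_left _ _) (by linarith)
  have hsub : Metric.closedBall y r ⊆ Metric.ball y R ∩ Set.range ι := by
    intro w hw
    exact ⟨Metric.mem_ball.2 (lt_of_le_of_lt (Metric.mem_closedBall.1 hw) hrR),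
      hρr (Metric.closedBall_subset_closedBall (min_le_right _ _) hw)⟩
  have hbsub : Metric.ball y r ⊆ Set.range ι := fun w hw =>
    (hsub (Metric.ball_subset_closedBall hw)).2
  obtain ⟨O, hO, hO2⟩ := h5 (Metric.ball y r) Metric.isOpen_ball
    (fun w hw => (hsub (Metric.ball_subset_closedBall hw.1)).1)
  refine acy_int Δ hn τ hτ hne x hx hxp y r hr e (h1.mono hsub) (h2.mono hsub)
    (fun w hw => h3 w (hsub hw)) h4 O hO ?_ k hk
  intro u hu
  rw [hO2 u hu, Set.inter_eq_left.2 hbsub]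

/-- Euclidean charts. -/
lemma acy_E (Δ : Cx V) (hch : ∀ x : realization Δ,
      ∃ c : OpenPartialHomeomorph (realization Δ) (EE n), x ∈ c.source)
    (τ : Finset V) (hne : τ.Nonempty) (k : ℕ) (hk : k ≤ n) : Acy Δ ℤ τ k := by
  by_cases hτ : τ ∈ Δ.faces
  · rcases Nat.eq_zero_or_pos n with hn | hn
    · refine acy_trivial Δ τ k fun σ _ h1 h2 => ?_
      have h3 := Finset.card_le_card h1
      have h4 := Finset.card_pos.2 hne
      omega
    · obtain ⟨x, hx, hxp⟩ := exists_bary τ hne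
      obtain ⟨c, hc⟩ := hch ⟨x, cell_sub Δ τ hτ hx⟩
      exact acy_chart_int Δ id Topology.IsEmbedding.id c hn τ hτ hne x hx hxp hc 1 one_pos
        (by rw [Set.range_id]; exact Set.subset_univ _) k hk
  · exact acy_trivial Δ τ k fun σ hσ h1 _ => hτ (Δ.down σ hσ _ h1)

/-- Half-space charts. -/
lemma acy_H (Δ : Cx V) (i0 : Fin n) (hch : ∀ x : realization Δ,
      ∃ c : OpenPartialHomeomorph (realization Δ) {w : EE n // 0 ≤ w i0}, x ∈ c.source)
    (τ : Finset V) (hne : τ.Nonempty) (k : ℕ) (hk : k ≤ n) : Acy Δ ℤ τ k := by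
  by_cases hτ : τ ∈ Δ.faces
  · have hn : 1 ≤ n := by
      have := i0.2
      omega
    obtain ⟨x, hx, hxp⟩ := exists_bary τ hne
    obtain ⟨c, hc⟩ := hch ⟨x, cell_sub Δ τ hτ hx⟩
    have hrange : Set.range (Subtype.val : {w : EE n // 0 ≤ w i0} → EE n) = {w | 0 ≤ w i0} :=
      Subtype.range_coe
    have hy := (c ⟨x, cell_sub Δ τ hτ hx⟩).2
    rcases eq_or_lt_of_le hy with h0 | h0
    · obtain ⟨R, e, hR, h1, h2, h3, h4, h5⟩ := chart_data Δ Subtype.val
        Topology.IsEmbedding.subtypeVal c ⟨x, cell_sub Δ τ hτ hx⟩ hc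
      rw [hrange] at h1 h2 h3
      let y : EE n := (c ⟨x, cell_sub Δ τ hτ hx⟩).1
      have hrR : R / 2 < R := by linarith
      have hsub : Metric.closedBall y (R / 2) ∩ {w : EE n | 0 ≤ w i0} ⊆
          Metric.ball y R ∩ {w : EE n | 0 ≤ w i0} := by
        rintro w ⟨hw, hw2⟩
        exact ⟨Metric.mem_ball.2 (lt_of_le_of_lt (Metric.mem_closedBall.1 hw) hrR), hw2⟩
      obtain ⟨O, hO, hO2⟩ := h5 (Metric.ball y (R / 2)) Metric.isOpen_ball (by
        rintro w ⟨hw, _⟩
        exact Metric.ball_subset_ball hrR.le hw)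
      rw [hrange] at hO2
      exact acy_bdr Δ i0 τ hτ hne x hx hxp y h0.symm (R / 2) (by positivity) e (h1.mono hsub)
        (h2.mono hsub) (fun w hw => h3 w (hsub hw)) h4 O hO hO2 k
    · refine acy_chart_int Δ Subtype.val Topology.IsEmbedding.subtypeVal c hn τ hτ hne x hx hxp hc
        ((c ⟨x, cell_sub Δ τ hτ hx⟩).1 i0) h0 ?_ k hk
      rw [hrange]
      intro w hw
      rw [Metric.mem_closedBall, dist_eq_norm] at hw
      have h1 := PiLp.norm_apply_le (w - (c ⟨x, cell_sub Δ τ hτ hx⟩).1) i0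
      rw [Real.norm_eq_abs, PiLp.sub_apply] at h1
      have h2 := (abs_le.1 (h1.trans hw)).1
      show 0 ≤ w i0
      linarith
  · exact acy_trivial Δ τ k fun σ hσ h1 _ => hτ (Δ.down σ hσ _ h1)

/-- The dimension of the complex is at most that of the charts. -/
lemma dim_le (Δ : Cx V) (ι : H → EE n) (hι : Topology.IsEmbedding ι) (Z : Set (EE n))
    (hZ : IsOpen Z) (hZr : Z ⊆ Set.range ι)
    (hdense : ∀ U : Set H, IsOpen U → U.Nonempty → ∃ a ∈ U, ι a ∈ Z)
    (hch : ∀ x : realization Δ, ∃ c : OpenPartialHomeomorph (realization Δ) H, x ∈ c.source) :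
    ∀ σ ∈ Δ.faces, σ.card ≤ n + 1 := by
  classical
  by_contra hcon
  push Not at hcon
  obtain ⟨σ0, hσ0, hσ01⟩ := hcon
  obtain ⟨σ, hσ, hmax⟩ := Finset.exists_max_image Δ.faces Finset.card ⟨σ0, hσ0⟩
  have hcard : n + 1 < σ.card := lt_of_lt_of_le hσ01 (hmax σ0 hσ0)
  obtain ⟨a, ha⟩ : ∃ a, σ.card = a + 1 := ⟨σ.card - 1, by omega⟩
  obtain ⟨v1, hv1⟩ : σ.Nonempty := Finset.card_pos.1 (by omega)
  have hcard1 : (σ.erase v1).card = a := by rw [Finset.card_erase_of_mem hv1]; omega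
  let kk : Fin a ≃ (σ.erase v1) := (finCongr hcard1.symm).trans (σ.erase v1).equivFin.symm
  let k : Fin a → V := fun i => (kk i).1
  have hk1 : ∀ i, k i ∈ σ.erase v1 := fun i => (kk i).2
  have hkinj : Function.Injective k := Subtype.val_injective.comp kk.injective
  have hksurj : ∀ v ∈ σ.erase v1, ∃ i, k i = v := by
    intro v hv
    refine ⟨kk.symm ⟨v, hv⟩, ?_⟩
    show (kk (kk.symm ⟨v, hv⟩)).1 = v
    rw [Equiv.apply_symm_apply]
  -- the parametrisation of the simplex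
  let P : EE a → (V → ℝ) := fun w v =>
    ∑ i, w i * (if k i = v then 1 else 0) + (1 - ∑ i, w i) * (if v1 = v then 1 else 0)
  have hPk : ∀ w i, P w (k i) = w i := by
    intro w i
    show ∑ j, w j * (if k j = k i then 1 else 0) + (1 - ∑ i, w i) * (if v1 = k i then 1 else 0) = _
    rw [if_neg (fun h : v1 = k i => (Finset.mem_erase.1 (hk1 i)).1 h.symm), mul_zero, add_zero,
      Finset.sum_eq_single i]
    · rw [if_pos rfl, mul_one]
    · intro j _ hj
      rw [if_neg (fun h => hj (hkinj h)), mul_zero]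
    · intro h
      exact absurd (Finset.mem_univ _) h
  have hP1 : ∀ w, P w v1 = 1 - ∑ i, w i := by
    intro w
    show ∑ j, w j * (if k j = v1 then 1 else 0) + (1 - ∑ i, w i) * (if v1 = v1 then 1 else 0) = _
    rw [if_pos rfl, mul_one, Finset.sum_eq_zero, zero_add]
    intro j _
    rw [if_neg (fun h : k j = v1 => (Finset.mem_erase.1 (hk1 j)).1 h), mul_zero]
  have hP0 : ∀ w v, v ∉ σ → P w v = 0 := by
    intro w v hv
    show ∑ j, w j * (if k j = v then 1 else 0) + (1 - ∑ i, w i) * (if v1 = v then 1 else 0) = _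
    rw [if_neg (fun h : v1 = v => hv (h ▸ hv1)), mul_zero, add_zero]
    refine Finset.sum_eq_zero fun j _ => ?_
    rw [if_neg (fun h : k j = v => hv (h ▸ Finset.mem_of_mem_erase (hk1 j))), mul_zero]
  have hPsum : ∀ w, ∑ v, P w v = 1 := by
    intro w
    have e1 : ∑ v, P w v = ∑ v ∈ σ, P w v :=
      (Finset.sum_subset (Finset.subset_univ _) fun v _ hv => hP0 w v hv).symm
    rw [e1, ← Finset.add_sum_erase _ _ hv1, hP1]
    have e2 : ∑ v ∈ σ.erase v1, P w v = ∑ i, w i := by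
      rw [← Finset.sum_coe_sort (σ.erase v1) (fun v => P w v)]
      rw [← Equiv.sum_comp kk (fun v : σ.erase v1 => P w v.1)]
      exact Finset.sum_congr rfl fun i _ => hPk w i
    rw [e2]
    ring
  have hPc : Continuous P := by
    refine continuous_pi fun v => ?_
    show Continuous fun w : EE a =>
      ∑ i, w i * (if k i = v then 1 else 0) + (1 - ∑ i, w i) * (if v1 = v then 1 else 0)
    fun_prop
  -- the open simplex
  let I : Set (EE a) := {w | (∀ i, 0 < w i) ∧ ∑ i, w i < 1}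
  have hI : IsOpen I := by
    have : I = (⋂ i, {w : EE a | 0 < w i}) ∩ {w | ∑ i, w i < 1} := by
      ext w
      simp only [I, Set.mem_ofPred_eq, Set.mem_inter_iff, Set.mem_iInter]
    rw [this]
    refine (isOpen_iInter_of_finite fun i => ?_).inter ?_
    · exact isOpen_lt continuous_const (by fun_prop)
    · exact isOpen_lt (by fun_prop) continuous_const
  have hPpos : ∀ w ∈ I, ∀ v ∈ σ, 0 < P w v := by
    intro w hw v hv
    by_cases h : v = v1
    · rw [h, hP1]
      linarith [hw.2]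
    · obtain ⟨i, rfl⟩ := hksurj v (Finset.mem_erase.2 ⟨h, hv⟩)
      rw [hPk]
      exact hw.1 i
  have hPcell : ∀ w ∈ I, P w ∈ cell σ := by
    intro w hw
    refine ⟨fun v => ?_, hPsum w, hP0 w⟩
    by_cases hv : v ∈ σ
    · exact (hPpos w hw v hv).le
    · exact (hP0 w v hv).ge
  have hPX : ∀ w ∈ I, P w ∈ realization Δ := fun w hw => cell_sub Δ σ hσ (hPcell w hw)
  -- points of the realisation that are positive on `σ`
  let Q : (V → ℝ) → EE a := fun u => WithLp.toLp 2 (fun i => u (k i))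
  have hQc : Continuous Q := by
    refine (PiLp.continuous_toLp 2 _).comp ?_
    exact continuous_pi fun i => continuous_apply _
  have hQP : ∀ w, Q (P w) = w := by
    intro w
    ext i
    exact hPk w i
  have hPQ : ∀ u ∈ realization Δ, (∀ v ∈ σ, 0 < u v) → Q u ∈ I ∧ P (Q u) = u := by
    rintro u ⟨hu0, hu1, π, hπ, hπ0⟩ hpos
    have h1 : σ ⊆ π := by
      intro v hv
      by_contra h
      exact absurd (hπ0 v h) (ne_of_gt (hpos v hv))
    have h2 : σ = π := Finset.eq_of_subset_of_card_le h1 (hmax π hπ)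
    subst h2
    have hsum : ∑ i, u (k i) = 1 - u v1 := by
      have e1 : ∑ v, u v = ∑ v ∈ σ, u v :=
        (Finset.sum_subset (Finset.subset_univ _) fun v _ hv => hπ0 v hv).symm
      rw [← Finset.add_sum_erase _ _ hv1] at e1
      have e2 : ∑ v ∈ σ.erase v1, u v = ∑ i, u (k i) := by
        rw [← Finset.sum_coe_sort (σ.erase v1) (fun v => u v)]
        rw [← Equiv.sum_comp kk (fun v : σ.erase v1 => u v.1)]
      rw [← e2]
      linarith
    refine ⟨⟨fun i => hpos _ (Finset.mem_of_mem_erase (hk1 i)), ?_⟩, ?_⟩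
    · show ∑ i, u (k i) < 1
      rw [hsum]
      linarith [hpos v1 hv1]
    · funext v
      by_cases hv : v ∈ σ
      · by_cases h : v = v1
        · rw [h, hP1]
          show 1 - ∑ i, u (k i) = u v1
          rw [hsum]
          ring
        · obtain ⟨i, rfl⟩ := hksurj v (Finset.mem_erase.2 ⟨h, hv⟩)
          rw [hPk]
      · rw [hP0 _ v hv, hπ0 v hv]
  -- the start point
  obtain ⟨x, hx, hxp⟩ := exists_bary σ ⟨v1, hv1⟩
  obtain ⟨c, hc⟩ := hch ⟨x, cell_sub Δ σ hσ hx⟩
  obtain ⟨hQx, hPQx⟩ := hPQ x (cell_sub Δ σ hσ hx) hxp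
  -- openness of `P`
  have hPopen : ∀ O ⊆ I, IsOpen O → IsOpen {u : realization Δ | ∃ w ∈ O, P w = u.1} := by
    intro O hOI hO
    have h1 : {u : realization Δ | ∃ w ∈ O, P w = u.1} =
        {u : realization Δ | (∀ v ∈ σ, 0 < u.1 v) ∧ Q u.1 ∈ O} := by
      ext u
      constructor
      · rintro ⟨w, hw, hwu⟩
        rw [Set.mem_ofPred_eq, ← hwu, hQP]
        exact ⟨hPpos w (hOI hw), hw⟩
      · rintro ⟨h2, h3⟩
        exact ⟨Q u.1, h3, (hPQ u.1 u.2 h2).2⟩
    rw [h1]
    have h2 : {u : realization Δ | (∀ v ∈ σ, 0 < u.1 v) ∧ Q u.1 ∈ O} =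
        (⋂ v ∈ σ, {u : realization Δ | 0 < u.1 v}) ∩ {u : realization Δ | Q u.1 ∈ O} := by
      ext u
      simp only [Set.mem_ofPred_eq, Set.mem_inter_iff, Set.mem_iInter]
    rw [h2]
    refine IsOpen.inter ?_ ?_
    · refine isOpen_biInter_finset fun v _ => ?_
      exact isOpen_lt continuous_const ((continuous_apply v).comp continuous_subtype_val)
    · exact hO.preimage (hQc.comp continuous_subtype_val)
  -- the composite
  let F : EE a → realization Δ := fun w => if h : w ∈ I then ⟨P w, hPX w h⟩ else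
    ⟨x, cell_sub Δ σ hσ hx⟩
  have hF : ∀ w (h : w ∈ I), F w = ⟨P w, hPX w h⟩ := fun w h => dif_pos h
  have hFc : ContinuousOn F I := by
    rw [Topology.IsInducing.subtypeVal.continuousOn_iff]
    refine hPc.continuousOn.congr fun w hw => ?_
    show (F w).1 = P w
    rw [hF w hw]
  have hFinj : ∀ w ∈ I, ∀ w' ∈ I, F w = F w' → w = w' := by
    intro w hw w' hw' h
    rw [hF w hw, hF w' hw'] at h
    have h1 : P w = P w' := congrArg Subtype.val h
    rw [← hQP w, h1, hQP]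
  have hFim : ∀ O ⊆ I, F '' O = {u : realization Δ | ∃ w ∈ O, P w = u.1} := by
    intro O hO
    ext u
    constructor
    · rintro ⟨w, hw, rfl⟩
      exact ⟨w, hw, by rw [hF w (hO hw)]⟩
    · rintro ⟨w, hw, hwu⟩
      exact ⟨w, hw, by rw [hF w (hO hw)]; exact Subtype.ext hwu⟩
  let W0 : Set (EE a) := I ∩ F ⁻¹' c.source
  have hW0 : IsOpen W0 := hFc.isOpen_inter_preimage hI c.open_source
  have hW0I : W0 ⊆ I := Set.inter_subset_left
  let g : EE a → EE n := fun w => ι (c (F w))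
  have hcF : ContinuousOn (fun w => c (F w)) W0 :=
    c.continuousOn.comp (hFc.mono hW0I) fun w hw => hw.2
  have hgc : ContinuousOn g W0 := hι.continuous.comp_continuousOn hcF
  let W : Set (EE a) := W0 ∩ g ⁻¹' Z
  have hW : IsOpen W := hgc.isOpen_inter_preimage hW0 hZ
  have hWW0 : W ⊆ W0 := Set.inter_subset_left
  have hcopen : ∀ O ⊆ W0, IsOpen O → IsOpen ((fun w => c (F w)) '' O) := by
    intro O hO hO2
    have h1 : (fun w => c (F w)) '' O = c '' (F '' O) := (Set.image_image _ _ _).symm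
    rw [h1]
    refine c.isOpen_image_of_subset_source ?_ ?_
    · rw [hFim O (hO.trans hW0I)]
      exact hPopen O (hO.trans hW0I) hO2
    · rintro u ⟨w, hw, rfl⟩
      exact (hO hw).2
  have hne : W.Nonempty := by
    have h1 : Q x ∈ W0 := by
      refine ⟨hQx, ?_⟩
      show F (Q x) ∈ c.source
      rw [hF _ hQx]
      have : (⟨P (Q x), hPX _ hQx⟩ : realization Δ) = ⟨x, cell_sub Δ σ hσ hx⟩ :=
        Subtype.ext hPQx
      rw [this]
      exact hc
    obtain ⟨b, ⟨w, hw, rfl⟩, hb⟩ := hdense _ (hcopen W0 (Set.Subset.refl _) hW0) ⟨_, Q x, h1, rfl⟩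
    exact ⟨w, hw, hb⟩
  obtain ⟨w0, hw0⟩ := hne
  refine inv_dim n a (by omega) W hW w0 hw0 g (hgc.mono hWW0) ?_ ?_
  · intro w hw w' hw' h
    have h1 := hι.injective h
    have h2 := c.injOn (hWW0 hw).2 (hWW0 hw').2 h1
    exact hFinj w (hW0I (hWW0 hw)) w' (hW0I (hWW0 hw')) h2
  · intro O hO hO2
    have h1 : g '' O = ι '' ((fun w => c (F w)) '' O) := (Set.image_image _ _ _).symm
    obtain ⟨T, hT, hTU⟩ := hι.isInducing.isOpen_iff.1 (hcopen O (hO.trans hWW0) hO2)
    have h2 : g '' O = T ∩ Z := by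
      rw [h1, ← hTU]
      ext z
      constructor
      · rintro ⟨b, hb, rfl⟩
        refine ⟨hb, ?_⟩
        rw [hTU] at hb
        obtain ⟨w, hw, rfl⟩ := hb
        exact (hO hw).2
      · rintro ⟨hz, hz2⟩
        obtain ⟨b, rfl⟩ := hZr hz2
        exact ⟨b, hz, rfl⟩
    rw [h2]
    exact hT.inter hZ

end charts

end Pool.Agent.Helper611.UMan
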