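import Pool.Agent.Helper611.KMap

set_option autoImplicit false
set_option linter.unusedSectionVars false
set_option linter.unnecessarySimpa false

namespace Pool.Agent.Helper611.KFam

open ExteriorAlgebra Pool.Agent.Helper611.ZBase Pool.Agent.Helper611.KRel
  Pool.Agent.Helper611.KTop Pool.Agent.Helper611.KVal Pool.Agent.Helper611.KMap

section theta
variable {K : Type} [Field K] {d : ℕ}

/-- the functional of a polynomial -/
noncomputable def ev (d : ℕ) (g : Polynomial K) : Module.Dual K (Fin d → K) :=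
  ∑ i : Fin d, g.coeff i • LinearMap.proj i

lemma ev_apply (g : Polynomial K) (u : Fin d → K) : ev d g u = ∑ i : Fin d, g.coeff i * u i := by
  unfold ev
  rw [LinearMap.sum_apply]
  rfl

lemma ev_add (g g' : Polynomial K) : ev d (g + g') = ev d g + ev d g' := by
  ext u
  simp [ev_apply, add_mul, Finset.sum_add_distrib]

lemma ev_smul (r : K) (g : Polynomial K) : ev d (r • g) = r • ev d g := by
  refine LinearMap.ext fun u => ?_
  rw [LinearMap.smul_apply, ev_apply, ev_apply, smul_eq_mul, Finset.mul_sum]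
  exact Finset.sum_congr rfl fun i _ => by rw [Polynomial.coeff_smul, smul_eq_mul, mul_assoc]

lemma ev_sum {ι : Type*} (s : Finset ι) (g : ι → Polynomial K) :
    ev d (∑ i ∈ s, g i) = ∑ i ∈ s, ev d (g i) := by
  classical
  induction s using Finset.induction_on with
  | empty =>
    rw [Finset.sum_empty, Finset.sum_empty]
    ext u
    simp [ev_apply]
  | insert i s hi ih => rw [Finset.sum_insert hi, Finset.sum_insert hi, ev_add, ih]

variable {V : Type}

/-- points of the moment curve -/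
def mom (d : ℕ) (a : V → K) (x : V) : Fin d → K := fun i => a x ^ (i : ℕ)

lemma ev_mom (a : V → K) (x : V) (g : Polynomial K) (hg : g.natDegree < d) :
    ev d g (mom d a x) = g.eval (a x) := by
  rw [ev_apply, Polynomial.eval_eq_sum_range' hg, Finset.sum_range]
  rfl

lemma ctr_addf (f g : Module.Dual K (Fin d → K)) (ω : ExteriorAlgebra K (Fin d → K)) :
    ctr (f + g) ω = ctr f ω + ctr g ω := by
  simp [ctr]

lemma ctr_smulf (r : K) (f : Module.Dual K (Fin d → K)) (ω : ExteriorAlgebra K (Fin d → K)) :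
    ctr (r • f) ω = r • ctr f ω := by
  simp [ctr]

lemma ctr_sumf {ι : Type*} (s : Finset ι) (f : ι → Module.Dual K (Fin d → K))
    (ω : ExteriorAlgebra K (Fin d → K)) : ctr (∑ i ∈ s, f i) ω = ∑ i ∈ s, ctr (f i) ω := by
  simp [ctr]

lemma ctr_ctr (f : Module.Dual K (Fin d → K)) (ω : ExteriorAlgebra K (Fin d → K)) :
    ctr f (ctr f ω) = 0 :=
  CliffordAlgebra.contractRight_contractRight _ _

lemma ctr_comm (f g : Module.Dual K (Fin d → K)) (ω : ExteriorAlgebra K (Fin d → K)) :
    ctr f (ctr g ω) = - ctr g (ctr f ω) :=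
  CliffordAlgebra.contractRight_comm _ _ _

/-- the leading functional in degree `i` -/
noncomputable def θ (d : ℕ) : ℕ → (ExteriorAlgebra K (Fin d → K) →ₗ[K] K)
  | 0 => ExteriorAlgebra.algebraMapInv.toLinearMap
  | (i + 1) => (θ d i) ∘ₗ
      ((CliffordAlgebra.contractRight (Q := (0 : QuadraticForm K (Fin d → K)))).flip
        (ev d (Polynomial.X ^ i)))

lemma θ_zero (ω : ExteriorAlgebra K (Fin d → K)) :
    θ d 0 ω = ExteriorAlgebra.algebraMapInv ω := rfl

lemma θ_succ (i : ℕ) (ω : ExteriorAlgebra K (Fin d → K)) :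
    θ d (i + 1) ω = θ d i (ctr (ev d (Polynomial.X ^ i)) ω) := rfl

lemma θ_low (i : ℕ) : ∀ (j : ℕ), j < i → ∀ ω : ExteriorAlgebra K (Fin d → K),
    θ d i (ctr (ev d (Polynomial.X ^ j)) ω) = 0 := by
  induction i with
  | zero => intro j hj; exact absurd hj (Nat.not_lt_zero _)
  | succ i ih =>
    intro j hj ω
    rw [θ_succ]
    rcases Nat.lt_or_ge j i with h | h
    · rw [ctr_comm, map_neg, ih j h, neg_zero]
    · have : j = i := by omega
      subst this
      rw [ctr_ctr, map_zero]

lemma θ_monic (i : ℕ) (g : Polynomial K) (hg : g.Monic) (hd : g.natDegree = i)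
    (ω : ExteriorAlgebra K (Fin d → K)) : θ d i (ctr (ev d g) ω) = θ d (i + 1) ω := by
  have h1 : g = ∑ j ∈ Finset.range (i + 1), g.coeff j • (Polynomial.X ^ j : Polynomial K) := by
    conv_lhs => rw [g.as_sum_range' (i + 1) (by omega)]
    exact Finset.sum_congr rfl fun j _ => by rw [Polynomial.smul_X_eq_monomial]
  have h2 : ev d g = ∑ j ∈ Finset.range (i + 1), g.coeff j • ev d (Polynomial.X ^ j) := by
    conv_lhs => rw [h1]
    rw [ev_sum]
    exact Finset.sum_congr rfl fun j _ => ev_smul _ _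
  rw [h2, ctr_sumf, map_sum, Finset.sum_range_succ]
  have h3 : ∑ j ∈ Finset.range i, θ d i (ctr (g.coeff j • ev d (Polynomial.X ^ j)) ω) = 0 := by
    refine Finset.sum_eq_zero fun j hj => ?_
    rw [ctr_smulf, map_smul, θ_low i j (Finset.mem_range.1 hj), smul_zero]
  have h4 : g.coeff i = 1 := by
    rw [← hd]
    exact hg
  rw [h3, zero_add, h4, one_smul, θ_succ]

/-- the polynomial vanishing on the nodes -/
noncomputable def chiP (a : V → K) (ρ : Finset V) : Polynomial K :=
  ∏ x ∈ ρ, (Polynomial.X - Polynomial.C (a x))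

lemma chiP_monic (a : V → K) (ρ : Finset V) : (chiP a ρ).Monic :=
  Polynomial.monic_prod_of_monic _ _ fun _ _ => Polynomial.monic_X_sub_C _

lemma chiP_deg (a : V → K) (ρ : Finset V) : (chiP a ρ).natDegree = ρ.card := by
  unfold chiP
  rw [Polynomial.natDegree_prod_of_monic _ _ fun x _ => Polynomial.monic_X_sub_C _]
  simp

lemma chiP_eval (a : V → K) (ρ : Finset V) (t : K) :
    (chiP a ρ).eval t = ∏ x ∈ ρ, (t - a x) := by
  unfold chiP
  rw [Polynomial.eval_prod]
  simp

lemma ctr_kill (a : V → K) (g : Polynomial K) (hg : g.natDegree < d) (x : V)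
    (hx : g.eval (a x) = 0) (ω : ExteriorAlgebra K (Fin d → K))
    (h : ω * ι K (mom d a x) = 0) : ctr (ev d g) ω * ι K (mom d a x) = 0 := by
  have h1 := ctr_mul_ι (ev d g) ω (mom d a x)
  rw [h, ctr_zero, ev_mom a x g hg, hx, zero_smul, zero_sub] at h1
  exact neg_eq_zero.1 h1.symm

variable [DecidableEq V]

lemma dual_mom' (a : V → K) (ha : Function.Injective a) (σ : Finset V) (hσ : σ.card ≤ d) (v : V)
    (hv : v ∈ σ) : ∃ φ : Module.Dual K (Fin d → K), φ (mom d a v) = 1 ∧
      ∀ x ∈ σ, x ≠ v → φ (mom d a x) = 0 := by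
  have hc := Finset.card_erase_of_mem hv
  have hpos := Finset.card_pos.2 ⟨v, hv⟩
  have hdeg : (chiP a (σ.erase v)).natDegree < d := by
    rw [chiP_deg]; omega
  have hne : ∏ x ∈ σ.erase v, (a v - a x) ≠ 0 := by
    rw [Finset.prod_ne_zero_iff]
    intro x hx h
    exact (Finset.mem_erase.1 hx).1 (ha (sub_eq_zero.1 h)).symm
  refine ⟨(∏ x ∈ σ.erase v, (a v - a x))⁻¹ • ev d (chiP a (σ.erase v)), ?_, ?_⟩
  · rw [LinearMap.smul_apply, ev_mom a v _ hdeg, chiP_eval, smul_eq_mul, inv_mul_cancel₀ hne]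
  · intro x hx hxv
    have h0 : ∏ y ∈ σ.erase v, (a x - a y) = 0 :=
      Finset.prod_eq_zero (Finset.mem_erase.2 ⟨hxv, hx⟩) (sub_self _)
    rw [LinearMap.smul_apply, ev_mom a x _ hdeg, chiP_eval, h0, smul_zero]

lemma θ_inj (a : V → K) (ha : Function.Injective a) : ∀ (s : ℕ) (σ : Finset V), σ.card = s →
    s ≤ d → ∀ ω : ExteriorAlgebra K (Fin d → K), ω ∈ ⋀[K]^s (Fin d → K) →
    (∀ x ∈ σ, ω * ι K (mom d a x) = 0) → θ d s ω = 0 → ω = 0 := by
  intro s
  induction s with
  | zero =>
    intro σ _ _ ω hω _ h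
    rw [exteriorPower, pow_zero] at hω
    obtain ⟨r, rfl⟩ := Submodule.mem_one.1 hω
    rw [θ_zero, ExteriorAlgebra.algebraMap_leftInverse] at h
    rw [h, map_zero]
  | succ s ih =>
    intro σ hσ hs ω hω hk h
    obtain ⟨x, hx⟩ : σ.Nonempty := Finset.card_pos.1 (by omega)
    have hc : (σ.erase x).card = s := by
      rw [Finset.card_erase_of_mem hx]; omega
    have hdeg : (chiP a (σ.erase x)).natDegree < d := by
      rw [chiP_deg]; omega
    have h1 : ctr (ev d (chiP a (σ.erase x))) ω = 0 := by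
      refine ih (σ.erase x) hc (by omega) _ (ctr_mem _ s ω hω) ?_ ?_
      · intro y hy
        refine ctr_kill a _ hdeg y ?_ ω (hk y (Finset.mem_of_mem_erase hy))
        rw [chiP_eval, Finset.prod_eq_zero hy (sub_self _)]
      · rw [θ_monic s _ (chiP_monic _ _) (by rw [chiP_deg, hc]), h]
    have h2 := ctr_mul_ι (ev d (chiP a (σ.erase x))) ω (mom d a x)
    rw [hk x hx, ctr_zero, h1, zero_mul, sub_zero, ev_mom a x _ hdeg, chiP_eval] at h2
    have hne : ∏ y ∈ σ.erase x, (a x - a y) ≠ 0 := by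
      rw [Finset.prod_ne_zero_iff]
      intro y hy h
      exact (Finset.mem_erase.1 hy).1 (ha (sub_eq_zero.1 h)).symm
    exact (smul_eq_zero.1 h2.symm).resolve_left hne

end theta

section piece
variable {V : Type} [Fintype V] [LinearOrder V] {K : Type} [Field K] {d : ℕ}

lemma dual_mom (P : Finset V → Prop) (a : V → K) (ha : Function.Injective a) :
    Dual P (mom d a) := fun σ _ hc v hv => dual_mom' a ha σ hc v hv

lemma ctr_ev_zero (a : V → K) (ha : Function.Injective a) (s : ℕ) (ρ : Finset V)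
    (hρ : ρ.card = s) (hs : s < d) (α : ExteriorAlgebra K (Fin d → K))
    (hα : α ∈ ⋀[K]^s (Fin d → K)) (hk : ∀ x ∈ ρ, α * ι K (mom d a x) = 0)
    : ctr (ev d (chiP a ρ)) α = 0 := by
  have hdeg : (chiP a ρ).natDegree < d := by
    rw [chiP_deg]; omega
  rcases Nat.eq_zero_or_pos s with rfl | hpos
  · rw [exteriorPower, pow_zero] at hα
    obtain ⟨r, rfl⟩ := Submodule.mem_one.1 hα
    exact CliffordAlgebra.contractRight_algebraMap _ _ _
  · obtain ⟨t, rfl⟩ : ∃ t, s = t + 1 := ⟨s - 1, by omega⟩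
    refine MA_big (mom d a) (fun _ => True) (dual_mom _ a ha) t ρ trivial (by omega) (by omega) _ ?_
    refine ⟨ctr_mem _ t α hα, fun x hx _ => ctr_kill a _ hdeg x ?_ α (hk x hx)⟩
    rw [chiP_eval, Finset.prod_eq_zero hx (sub_self _)]

/-- division of scalars -/
noncomputable def Rf (a : V → K) (f : V) (c : Finset V → K) (σ : Finset V) : K :=
  if f ∈ σ then c σ * (∏ x ∈ σ.erase f, (a f - a x))⁻¹ else 0

lemma θ_mul (a : V → K) (ha : Function.Injective a) (s : ℕ) (ρ : Finset V)
    (hρ : ρ.card = s) (hs : s < d) (α : ExteriorAlgebra K (Fin d → K))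
    (hα : α ∈ ⋀[K]^s (Fin d → K)) (hk : ∀ x ∈ ρ, α * ι K (mom d a x) = 0) (f : V) :
    θ d (s + 1) (α * ι K (mom d a f)) = (∏ x ∈ ρ, (a f - a x)) * θ d s α := by
  have hdeg : (chiP a ρ).natDegree < d := by
    rw [chiP_deg]; omega
  rw [← θ_monic s (chiP a ρ) (chiP_monic a ρ) (by rw [chiP_deg, hρ]), ctr_mul_ι,
    ctr_ev_zero a ha s ρ hρ hs α hα hk, zero_mul, sub_zero, map_smul, ev_mom a f _ hdeg, chiP_eval,
    smul_eq_mul]

lemma piece_theta (P : Finset V → Prop) (a : V → K) (ha : Function.Injective a) (s : ℕ)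
    (hs : s < d) (τ : Finset V) (v : V) (α : Finset V → ExteriorAlgebra K (Fin d → K))
    (h : Piece P (mom d a) s τ v α) (σ : Finset V) :
    θ d s (α σ) = Rf a v (fun σ => θ d (s + 1) (α σ * ι K (mom d a v))) σ := by
  by_cases h0 : α σ = 0
  · unfold Rf
    rw [h0, map_zero]
    by_cases hv : v ∈ σ
    · rw [if_pos hv]
      show (0 : K) = θ d (s + 1) (α σ * ι K (mom d a v)) * _
      rw [h0, zero_mul, map_zero, zero_mul]
    · rw [if_neg hv]
  · obtain ⟨_, h2, h3⟩ := h.supp σ h0
    have hv : v ∈ σ := h2 (Finset.mem_insert_self _ _)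
    have hc : (σ.erase v).card = s := by
      rw [Finset.card_erase_of_mem hv]; omega
    have hne : ∏ y ∈ σ.erase v, (a v - a y) ≠ 0 := by
      rw [Finset.prod_ne_zero_iff]
      intro y hy h
      exact (Finset.mem_erase.1 hy).1 (ha (sub_eq_zero.1 h)).symm
    unfold Rf
    rw [if_pos hv]
    show θ d s (α σ) = θ d (s + 1) (α σ * ι K (mom d a v)) * (∏ x ∈ σ.erase v, (a v - a x))⁻¹
    rw [θ_mul a ha s (σ.erase v) hc hs (α σ) (h.deg σ)
      (fun x hx => h.kil σ x (Finset.mem_of_mem_erase hx) (Finset.mem_erase.1 hx).1) v,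
      mul_comm (∏ y ∈ σ.erase v, (a v - a y)), mul_assoc, mul_inv_cancel₀ hne, mul_one]

lemma bd_theta (s : ℕ) (α : Finset V → ExteriorAlgebra K (Fin d → K)) (ρ : Finset V) :
    θ d s (bd α ρ) = bd (fun σ => θ d s (α σ)) ρ :=
  (bd_map (θ d s).toAddMonoidHom α ρ).symm

end piece

section iter
variable {V : Type} [Fintype V] [LinearOrder V] {R : Type*} [CommRing R]

/-- `∂_0 ∂_1 ⋯ ∂_{r-1}` -/
def DD (a : V → R) : ℕ → (Finset V → R) → (Finset V → R)
  | 0, y => y
  | (r + 1), y => DD a r (dop (fun x => a x ^ r) y)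

lemma DD_succ (a : V → R) (r : ℕ) (y : Finset V → R) :
    DD a (r + 1) y = DD a r (dop (fun x => a x ^ r) y) := rfl

lemma DD_zero (a : V → R) (r : ℕ) : DD a r (0 : Finset V → R) = 0 := by
  induction r with
  | zero => rfl
  | succ r ih => rw [DD_succ, dop_zero, ih]

lemma DD_add (a : V → R) (r : ℕ) (y y' : Finset V → R) :
    DD a r (y + y') = DD a r y + DD a r y' := by
  induction r generalizing y y' with
  | zero => rfl
  | succ r ih => rw [DD_succ, dop_add, ih]; rfl

lemma DD_smul (a : V → R) (r : ℕ) (t : R) (y : Finset V → R) :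
    DD a r (t • y) = t • DD a r y := by
  induction r generalizing y with
  | zero => rfl
  | succ r ih => rw [DD_succ, dop_smul, ih]; rfl

lemma DD_sum {ι : Type*} (a : V → R) (r : ℕ) (s : Finset ι) (y : ι → Finset V → R) :
    DD a r (∑ i ∈ s, y i) = ∑ i ∈ s, DD a r (y i) := by
  classical
  induction s using Finset.induction_on with
  | empty => rw [Finset.sum_empty, Finset.sum_empty, DD_zero]
  | insert i s hi ih => rw [Finset.sum_insert hi, Finset.sum_insert hi, DD_add, ih]

lemma DD_supp (a : V → R) (r : ℕ) (y : Finset V → R) (σ : Finset V) (h : DD a r y σ ≠ 0) :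
    ∃ G, σ ⊆ G ∧ y G ≠ 0 := by
  induction r generalizing y with
  | zero => exact ⟨σ, Finset.Subset.refl _, h⟩
  | succ r ih =>
    obtain ⟨G, hG, hG2⟩ := ih _ h
    obtain ⟨x, hx, hx2⟩ := dop_ne _ _ _ hG2
    exact ⟨insert x G, hG.trans (Finset.subset_insert _ _), hx2⟩

/-- the twisted iterate -/
def DG (a : V → R) (c : R) : ℕ → (Finset V → R) → (Finset V → R)
  | 0, y => y
  | (r + 1), y => DG a c r (dop (fun x => (c - a x) * a x ^ r) y)

lemma DG_succ (a : V → R) (c : R) (r : ℕ) (y : Finset V → R) :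
    DG a c (r + 1) y = DG a c r (dop (fun x => (c - a x) * a x ^ r) y) := rfl

lemma bd_DG (a : V → R) (c : R) (r : ℕ) (y : Finset V → R) :
    bd (DG a c r y) = (-1 : R) ^ r • DD a (r + 1) y := by
  induction r generalizing y with
  | zero =>
    show bd y = (-1 : R) ^ 0 • DD a 0 (dop (fun x => a x ^ 0) y)
    rw [pow_zero, one_smul]
    show bd y = dop (fun x => a x ^ 0) y
    rw [← dop_one (R := R) y]
    simp only [pow_zero]
  | succ r ih =>
    rw [DG_succ, ih]
    have h1 : dop (fun x => (c - a x) * a x ^ r) y =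
        c • dop (fun x => a x ^ r) y + (-1 : R) • dop (fun x => a x ^ (r + 1)) y := by
      rw [← dop_lin c (-1) (fun x => a x ^ r) (fun x => a x ^ (r + 1)) y]
      congr 1
      funext x
      ring
    rw [h1, DD_add, DD_smul, DD_smul]
    have h2 : DD a (r + 1) (dop (fun x => a x ^ r) y) = 0 := by
      rw [DD_succ, dop_self, DD_zero]
    rw [h2, smul_zero, zero_add, smul_smul, pow_succ]
    rfl

end iter

section Rfs
variable {V : Type} [Fintype V] [LinearOrder V] {K : Type} [Field K]

lemma Rf_dop (a : V → K) (ha : Function.Injective a) (f : V) (g : V → K) (w : Finset V → K) :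
    Rf a f (dop g w) = dop (fun x => (a f - a x) * g x) (Rf a f w) := by
  funext σ
  by_cases hf : f ∈ σ
  · unfold Rf
    rw [if_pos hf]
    unfold dop
    rw [Finset.sum_mul]
    refine Finset.sum_congr rfl fun x hx => ?_
    have hx' := Finset.mem_compl.1 hx
    have hfx : f ≠ x := by
      rintro rfl
      exact hx' hf
    have hne : a f - a x ≠ 0 := fun h => hfx (ha (sub_eq_zero.1 h))
    have e1 : (insert x σ).erase f = insert x (σ.erase f) := Finset.erase_insert_of_ne hfx.symm
    have e2 : x ∉ σ.erase f := fun h => hx' (Finset.mem_of_mem_erase h)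
    show (sgn x σ • g x • w (insert x σ)) * (∏ x ∈ σ.erase f, (a f - a x))⁻¹ =
      sgn x σ • ((a f - a x) * g x) • (if f ∈ insert x σ then
        w (insert x σ) * (∏ y ∈ (insert x σ).erase f, (a f - a y))⁻¹ else 0)
    rw [if_pos (Finset.mem_insert_of_mem hf), e1, Finset.prod_insert e2, mul_inv]
    simp only [smul_eq_mul, zsmul_eq_mul]
    field_simp
  · have h1 : Rf a f (dop g w) σ = 0 := if_neg hf
    rw [h1]
    symm
    refine dop_eq_zero _ _ _ fun x hx => ?_
    by_cases hxf : x = f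
    · rw [hxf, sub_self, zero_mul, zero_smul]
    · have : Rf a f w (insert x σ) = 0 := if_neg fun h => by
        rcases Finset.mem_insert.1 h with h | h
        · exact hxf h.symm
        · exact hf h
      rw [this, smul_zero]

lemma Rf_DD (a : V → K) (ha : Function.Injective a) (f : V) (r : ℕ) (w : Finset V → K) :
    Rf a f (DD a r w) = DG a (a f) r (Rf a f w) := by
  induction r generalizing w with
  | zero => rfl
  | succ r ih => rw [DD_succ, ih, DG_succ, Rf_dop a ha]

lemma bd_Rf_DD (a : V → K) (ha : Function.Injective a) (f : V) (r : ℕ) (w : Finset V → K) :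
    bd (Rf a f (DD a r w)) = (-1 : K) ^ r • DD a (r + 1) (Rf a f w) := by
  rw [Rf_DD a ha, bd_DG]

/-- the top chain of a family -/
noncomputable def yT (a : V → K) (T : Finset V) (z : Finset V → K) (G : Finset V) : K :=
  z G * ∏ v ∈ T, (∏ x ∈ G.erase v, (a v - a x))⁻¹

lemma Rf_yT (a : V → K) (T : Finset V) (f : V) (hf : f ∉ T) (z : Finset V → K)
    (hz : ∀ G, z G ≠ 0 → f ∈ G) : Rf a f (yT a T z) = yT a (insert f T) z := by
  funext G
  unfold Rf yT
  by_cases h : f ∈ G
  · rw [if_pos h, Finset.prod_insert hf, mul_assoc, mul_comm (∏ v ∈ T, _)]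
  · rw [if_neg h]
    have : z G = 0 := by
      by_contra h2
      exact h (hz G h2)
    rw [this, zero_mul]

lemma yT_add (a : V → K) (T : Finset V) (z z' : Finset V → K) :
    yT a T (z + z') = yT a T z + yT a T z' := by
  funext G
  unfold yT
  rw [Pi.add_apply, Pi.add_apply, add_mul]

lemma yT_smul (a : V → K) (T : Finset V) (t : K) (z : Finset V → K) :
    yT a T (t • z) = t • yT a T z := by
  funext G
  unfold yT
  rw [Pi.smul_apply, Pi.smul_apply, smul_mul_assoc]

lemma yT_zero (a : V → K) (T : Finset V) : yT a T (0 : Finset V → K) = 0 := by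
  funext G
  unfold yT
  rw [Pi.zero_apply, zero_mul]

lemma yT_sum {ι : Type*} (a : V → K) (T : Finset V) (s : Finset ι) (z : ι → Finset V → K) :
    yT a T (∑ i ∈ s, z i) = ∑ i ∈ s, yT a T (z i) := by
  classical
  induction s using Finset.induction_on with
  | empty => rw [Finset.sum_empty, Finset.sum_empty, yT_zero]
  | insert i s hi ih => rw [Finset.sum_insert hi, Finset.sum_insert hi, yT_add, ih]

end Rfs


section family
variable {V : Type} [Fintype V] [LinearOrder V] {K : Type} [Field K] {d : ℕ}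

lemma decomp' (P : Finset V → Prop) (hP : Cvx P) (p : V → (Fin d → K)) (i : ℕ) (hi : i < d)
    (hsmall : ∀ σ, P σ → σ.card ≤ d)
    (hdual : Dual P p)
    (hacy : ∀ (s' : ℕ) (A τ : Finset V) (k : ℕ), s' ≤ d → τ.Nonempty → k < s' →
      AcyV P p s' A τ k)
    (τ : Finset V)
    (e : Finset V → ExteriorAlgebra K (Fin d → K))
    (he : ∀ σ, e σ ≠ 0 → P σ ∧ τ ⊆ σ ∧ σ.card = i + 1)
    (he1 : ∀ σ, Val p i τ σ (e σ))
    (he2 : ∀ ρ, τ ⊆ ρ → P ρ → ∀ x ∈ ρ, bd e ρ * ι K (p x) = 0) :
    ∃ α : V → Finset V → ExteriorAlgebra K (Fin d → K), (∀ v, Piece P p i τ v (α v)) ∧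
      (∀ v ∈ τ, α v = 0) ∧ ∀ ρ, τ ⊆ ρ → P ρ → bd e ρ = ∑ v, bd (α v) ρ := by
  classical
  have key : ∀ A : Finset V, ∃ (α : V → Finset V → ExteriorAlgebra K (Fin d → K))
      (e' : Finset V → ExteriorAlgebra K (Fin d → K)), (∀ v, Piece P p i τ v (α v)) ∧
      (∀ v ∈ τ, α v = 0) ∧
      (∀ σ, e' σ ≠ 0 → P σ ∧ τ ⊆ σ ∧ σ.card = i + 1) ∧ (∀ σ, Val p i (τ ∪ A) σ (e' σ)) ∧
      ∀ ρ, τ ⊆ ρ → P ρ → bd e ρ = bd e' ρ + ∑ v ∈ A, bd (α v) ρ := by
    intro A
    induction A using Finset.induction_on with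
    | empty =>
      exact ⟨fun _ => 0, e, fun v => piece_zero P p i τ v, fun _ _ => rfl, he,
        fun σ => by rw [Finset.union_empty]; exact he1 σ,
        fun ρ _ _ => by rw [Finset.sum_empty, add_zero]⟩
    | insert v A hvA ih =>
      obtain ⟨α, e', h1, h0, h2, h3, h4⟩ := ih
      by_cases hvτ : v ∈ τ
      · refine ⟨α, e', h1, h0, h2, fun σ => ?_, fun ρ hρ hPρ => ?_⟩
        · rw [Finset.union_insert, Finset.insert_eq_self.2 (Finset.mem_union_left _ hvτ)]
          exact h3 σ
        · rw [Finset.sum_insert hvA, h0 v hvτ, bd_zero, zero_add]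
          exact h4 ρ hρ hPρ
      obtain ⟨α', e'', g1, g2, g3, g4⟩ := decomp_step P hP p i hi hsmall hdual hacy (τ ∪ A) v
        (fun h => by
          rcases Finset.mem_union.1 h with h | h
          · exact hvτ h
          · exact hvA h) τ e'
        h2 h3 (by
          intro ρ hρ hPρ x hx
          have h5 : bd e' ρ = bd e ρ - ∑ v ∈ A, bd (α v) ρ := by
            rw [h4 ρ hρ hPρ]; abel
          rw [h5, sub_mul, he2 ρ hρ hPρ x hx, Finset.sum_mul, zero_sub, neg_eq_zero]
          exact Finset.sum_eq_zero fun v _ => piece_bd P p i τ v (α v) (h1 v) ρ hρ hPρ x hx)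
      refine ⟨Function.update α v α', e'', ?_, ?_, g2, fun σ => ?_, ?_⟩
      · intro w
        by_cases hw : w = v
        · subst hw
          rw [Function.update_self]
          exact g1
        · rw [Function.update_of_ne hw]
          exact h1 w
      · intro w hw
        rw [Function.update_of_ne]
        · exact h0 w hw
        · rintro rfl
          exact hvτ hw
      · rw [Finset.union_insert]
        exact g3 σ
      · intro ρ hρ hPρ
        rw [h4 ρ hρ hPρ, g4 ρ hρ hPρ, Finset.sum_insert hvA, Function.update_self]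
        have : ∑ w ∈ A, bd (Function.update α v α' w) ρ = ∑ w ∈ A, bd (α w) ρ := by
          refine Finset.sum_congr rfl fun w hw => ?_
          rw [Function.update_of_ne]
          rintro rfl
          exact hvA hw
        rw [this]
        abel
  obtain ⟨α, e', h1, h0, h2, h3, h4⟩ := key Finset.univ
  refine ⟨α, h1, h0, fun ρ hρ hPρ => ?_⟩
  have h5 : ∀ σ, e' σ = 0 := by
    intro σ
    by_contra hne
    obtain ⟨a1, a2, a3⟩ := h2 σ hne
    have h6 := h3 σ
    rw [Finset.union_eq_right.2 (Finset.subset_univ _)] at h6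
    exact hne (MA_big p P hdual i σ a1 (hsmall σ a1) (by omega) (e' σ) h6)
  rw [h4 ρ hρ hPρ, bd_eq_zero e' ρ fun x _ => h5 _, zero_add]

lemma exists_vol : ∃ ω : ExteriorAlgebra K (Fin d → K), ω ∈ ⋀[K]^d (Fin d → K) ∧ θ d d ω = 1 := by
  have key : ∀ s : ℕ, s ≤ d → ∃ ω : ExteriorAlgebra K (Fin d → K), ω ∈ ⋀[K]^s (Fin d → K) ∧
      θ d s ω = 1 ∧ ∀ j, s ≤ j → ctr (ev d (Polynomial.X ^ j)) ω = 0 := by
    intro s
    induction s with
    | zero =>
      intro _
      refine ⟨1, ?_, ?_, fun j _ => CliffordAlgebra.contractRight_one _ _⟩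
      · rw [exteriorPower, pow_zero]
        exact Submodule.one_le.1 le_rfl
      · rw [θ_zero, map_one]
    | succ s ih =>
      intro hs
      obtain ⟨ω, h1, h2, h3⟩ := ih (by omega)
      refine ⟨ω * ι K (Pi.single (⟨s, by omega⟩ : Fin d) 1), mul_ι_mem s _ h1 _, ?_, fun j hj => ?_⟩
      · have e1 : ev d (Polynomial.X ^ s) (Pi.single (⟨s, by omega⟩ : Fin d) (1 : K)) = 1 := by
          rw [ev_apply, Finset.sum_eq_single (⟨s, by omega⟩ : Fin d)]
          · simp
          · intro i _ hi
            rw [Pi.single_eq_of_ne hi, mul_zero]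
          · intro h
            exact absurd (Finset.mem_univ _) h
        rw [θ_succ, ctr_mul_ι, h3 s le_rfl, zero_mul, sub_zero, e1, one_smul, h2]
      · have e1 : ev d (Polynomial.X ^ j) (Pi.single (⟨s, by omega⟩ : Fin d) (1 : K)) = 0 := by
          rw [ev_apply]
          refine Finset.sum_eq_zero fun i _ => ?_
          by_cases hi : i = (⟨s, by omega⟩ : Fin d)
          · rw [hi, Polynomial.coeff_X_pow, if_neg, zero_mul]
            show ¬ s = j
            omega
          · rw [Pi.single_eq_of_ne hi, mul_zero]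
        rw [ctr_mul_ι, h3 j (by omega), zero_mul, sub_zero, e1, zero_smul]
  obtain ⟨ω, h1, h2, _⟩ := key d le_rfl
  exact ⟨ω, h1, h2⟩

/-- the scalars of a piece -/
lemma piece_scalar (P : Finset V → Prop) (a : V → K)
    (ha : Function.Injective a) (s : ℕ)
    (hs : s < d) (τ : Finset V) (v : V) (α : Finset V → ExteriorAlgebra K (Fin d → K))
    (h : Piece P (mom d a) s τ v α) (w : Finset V → K) (hw : ∀ G, w G ≠ 0 → P G)
    (hw2 : ∀ ρ, insert v τ ⊆ ρ → P ρ → θ d (s + 1) (α ρ * ι K (mom d a v)) = w ρ)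
    (ρ : Finset V) (hρ : τ ⊆ ρ) : θ d s (bd α ρ) = bd (Rf a v w) ρ := by
  rw [bd_theta]
  refine bd_ext _ _ _ fun x _ => ?_
  rw [piece_theta P a ha s hs τ v α h]
  unfold Rf
  by_cases hv : v ∈ insert x ρ
  · rw [if_pos hv, if_pos hv]
    congr 1
    by_cases hP : P (insert x ρ)
    · exact hw2 _ (Finset.insert_subset hv (hρ.trans (Finset.subset_insert _ _))) hP
    · have h1 : w (insert x ρ) = 0 := by
        by_contra h2
        exact hP (hw _ h2)
      have h2 : α (insert x ρ) = 0 := by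
        by_contra h3
        exact hP (h.supp _ h3).1
      show θ d (s + 1) (α (insert x ρ) * ι K (mom d a v)) = _
      rw [h1, h2, zero_mul, map_zero]
  · rw [if_neg hv, if_neg hv]

/-- every family is realised -/
lemma fam_real (P : Finset V → Prop) (hD : ∀ G H, H ⊆ G → P G → P H) (a : V → K)
    (ha : Function.Injective a) : ∀ (r s : ℕ), s + r = d → ∀ τ T : Finset V, T.card = r →
    Disjoint T τ → ∀ z : Finset V → K, (∀ G, z G ≠ 0 → P G ∧ τ ∪ T ⊆ G ∧ G.card = d) →
    (∀ ρ, τ ∪ T ⊆ ρ → P ρ → bd z ρ = 0) →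
    ∃ c : Finset V → ExteriorAlgebra K (Fin d → K),
      (∀ σ, c σ ≠ 0 → P σ ∧ τ ⊆ σ ∧ σ.card = s) ∧ (∀ σ, Val (mom d a) s Finset.univ σ (c σ)) ∧
      (∀ ρ, τ ⊆ ρ → P ρ → bd c ρ = 0) ∧
      (∀ ρ, τ ⊆ ρ → P ρ → θ d s (c ρ) = DD a r (yT a T z) ρ) ∧
      (0 < r → ∃ e : Finset V → ExteriorAlgebra K (Fin d → K),
        (∀ σ, e σ ≠ 0 → P σ ∧ τ ⊆ σ ∧ σ.card = s + 1) ∧ (∀ σ, e σ ∈ ⋀[K]^s (Fin d → K)) ∧
        ∀ ρ, τ ⊆ ρ → P ρ → c ρ = bd e ρ) := by
  have hP : Cvx P := fun _ ρ π _ h2 _ h4 => hD π ρ h2 h4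
  intro r
  induction r with
  | zero =>
    intro s hs τ T hT _ z hz hz2
    have hs' : s = d := by omega
    subst hs'
    have hT0 : T = ∅ := Finset.card_eq_zero.1 hT
    subst hT0
    rw [Finset.union_empty] at hz hz2
    obtain ⟨ω, hω, hω2⟩ := exists_vol (K := K) (d := s)
    refine ⟨fun G => z G • ω, ?_, ?_, ?_, ?_, fun h => absurd h (lt_irrefl 0)⟩
    · intro σ hσ
      exact hz σ fun h0 => hσ (by show z σ • ω = 0; rw [h0, zero_smul])
    · intro σ
      refine ⟨Submodule.smul_mem _ _ hω, fun x _ _ => ?_⟩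
      exact ext_top (s + 1) (by rw [frk]; omega) _
        (mul_ι_mem s _ (Submodule.smul_mem _ _ hω) _)
    · intro ρ hρ hPρ
      have e1 : bd (fun G => z G • ω) ρ = bd z ρ • ω := by
        unfold bd
        rw [Finset.sum_smul]
        exact Finset.sum_congr rfl fun x _ => (smul_assoc _ _ _).symm
      rw [e1, hz2 ρ hρ hPρ, zero_smul]
    · intro ρ _ _
      show θ s s (z ρ • ω) = yT a ∅ z ρ
      unfold yT
      rw [map_smul, hω2, Finset.prod_empty, smul_eq_mul]
  | succ r ih =>
    intro s hs τ T hT hTτ z hz hz2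
    obtain ⟨f, hf⟩ : T.Nonempty := Finset.card_pos.1 (by omega)
    have hfτ : f ∉ τ := Finset.disjoint_left.1 hTτ hf
    have hun : insert f τ ∪ T.erase f = τ ∪ T := by
      ext x
      simp only [Finset.mem_union, Finset.mem_insert, Finset.mem_erase]
      constructor
      · rintro ((h | h) | h)
        · exact Or.inr (h ▸ hf)
        · exact Or.inl h
        · exact Or.inr h.2
      · rintro (h | h)
        · exact Or.inl (Or.inr h)
        · by_cases hx : x = f
          · exact Or.inl (Or.inl hx)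
          · exact Or.inr ⟨hx, h⟩
    obtain ⟨cp, h1, h2, h3, h4, _⟩ := ih (s + 1) (by omega) (insert f τ) (T.erase f)
      (by rw [Finset.card_erase_of_mem hf]; omega)
      (by
        rw [Finset.disjoint_left]
        intro x hx hx2
        rcases Finset.mem_insert.1 hx2 with h | h
        · exact (Finset.mem_erase.1 hx).1 h
        · exact Finset.disjoint_left.1 hTτ (Finset.mem_of_mem_erase hx) h)
      z (by rw [hun]; exact hz) (by rw [hun]; exact hz2)
    obtain ⟨α, hα, hα1, hα2⟩ := lift_chain P (mom d a) s (dual_mom P a ha) (Finset.univ.erase f) τ f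
      (Finset.notMem_erase _ _) (s + 1) (by omega) cp h1 (fun σ => (h2 σ).1)
      (fun σ hσ => (h2 σ).2 f hσ (Finset.mem_univ _))
      (fun σ x hx _ => (h2 σ).2 x hx (Finset.mem_univ _))
    have hpiece : Piece P (mom d a) s τ f α := by
      refine ⟨hα, fun σ => (hα1 σ).1, fun σ x hx hxv => (hα1 σ).2 x hx
        (Finset.mem_erase.2 ⟨hxv, Finset.mem_univ _⟩), ?_⟩
      intro ρ hρ hPρ
      rw [bd_mul, show (fun ρ => α ρ * ι K (mom d a f)) = cp from funext hα2]
      exact h3 ρ hρ hPρ
    have hz3 : ∀ G, yT a (T.erase f) z G ≠ 0 → z G ≠ 0 := fun G h h0 => h (by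
      unfold yT
      rw [h0, zero_mul])
    have hDDP : ∀ G, DD a r (yT a (T.erase f) z) G ≠ 0 → P G := by
      intro G hG
      obtain ⟨H, hH, hH2⟩ := DD_supp a r _ G hG
      exact hD H G hH (hz H (hz3 H hH2)).1
    have hθ : ∀ ρ, τ ⊆ ρ → θ d s (bd α ρ) = (-1 : K) ^ r * DD a (r + 1) (yT a T z) ρ := by
      intro ρ hρ
      rw [piece_scalar P a ha s (by omega) τ f α hpiece (DD a r (yT a (T.erase f) z)) hDDP
        (fun ρ hρ hPρ => by rw [hα2, h4 ρ hρ hPρ]) ρ hρ, bd_Rf_DD a ha,
        Rf_yT a (T.erase f) f (Finset.notMem_erase _ _) z (fun G hG =>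
          (hz G hG).2.1 (Finset.mem_union_right _ hf)), Finset.insert_erase hf]
      rfl
    have hrs : ∀ (u : Finset V → ExteriorAlgebra K (Fin d → K)) (ρ : Finset V), τ ⊆ ρ → P ρ →
        rs P τ u ρ = u ρ := fun u ρ h1 h2 => rs_pos P τ u ρ h1 h2
    have hsq : ((-1 : K) ^ r) * ((-1 : K) ^ r) = 1 := by
      rw [← mul_pow]; simp
    refine ⟨rs P τ (fun ρ => (-1 : K) ^ r • bd α ρ), ?_, ?_, ?_, ?_, fun _ => ?_⟩
    · intro σ hσ
      obtain ⟨a1, a2, a3⟩ := rs_ne P τ _ σ hσ
      refine ⟨a2, a1, ?_⟩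
      obtain ⟨x, hx, hx2⟩ := bd_ne α σ fun h0 => a3 (by rw [h0, smul_zero])
      have h5 := (hα _ hx2).2.2
      rw [Finset.card_insert_of_notMem hx] at h5
      omega
    · intro σ
      by_cases h : τ ⊆ σ ∧ P σ
      · rw [hrs _ σ h.1 h.2]
        refine ⟨Submodule.smul_mem _ _ (bd_deg s α σ fun σ => (hα1 σ).1), fun x hx _ => ?_⟩
        rw [smul_mul_assoc, piece_bd P (mom d a) s τ f α hpiece σ h.1 h.2 x hx, smul_zero]
      · have : rs P τ (fun ρ => (-1 : K) ^ r • bd α ρ) σ = 0 := if_neg h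
        rw [this]
        exact ⟨Submodule.zero_mem _, fun x _ _ => zero_mul _⟩
    · intro ρ hρ hPρ
      have e1 : bd (rs P τ (fun ρ => (-1 : K) ^ r • bd α ρ)) ρ =
          bd (fun ρ => (-1 : K) ^ r • bd α ρ) ρ := by
        refine bd_ext _ _ _ fun x _ => ?_
        by_cases h : P (insert x ρ)
        · exact hrs _ _ (hρ.trans (Finset.subset_insert _ _)) h
        · have h5 : rs P τ (fun ρ => (-1 : K) ^ r • bd α ρ) (insert x ρ) = 0 :=
            if_neg fun h6 => h h6.2
          rw [h5]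
          have h6 : bd α (insert x ρ) = 0 := by
            by_contra h7
            obtain ⟨y, _, hy⟩ := bd_ne α _ h7
            exact h (hD _ _ (Finset.subset_insert _ _) (hα _ hy).1)
          rw [h6, smul_zero]
      have e2 : bd (fun ρ => (-1 : K) ^ r • bd α ρ) ρ = (-1 : K) ^ r • bd (bd α) ρ := by
        unfold bd
        rw [Finset.smul_sum]
        exact Finset.sum_congr rfl fun x _ => smul_comm _ _ _
      rw [e1, e2, bd_bd, smul_zero]
    · intro ρ hρ hPρ
      rw [hrs _ ρ hρ hPρ, map_smul, hθ ρ hρ, smul_eq_mul, ← mul_assoc, hsq, one_mul]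
    · refine ⟨fun σ => (-1 : K) ^ r • α σ, ?_, fun σ => Submodule.smul_mem _ _ (hα1 σ).1, ?_⟩
      · intro σ hσ
        obtain ⟨a1, a2, a3⟩ := hα σ fun h0 => hσ (by
          show (-1 : K) ^ r • α σ = 0
          rw [h0, smul_zero])
        exact ⟨a1, (Finset.subset_insert _ _).trans a2, a3⟩
      · intro ρ hρ hPρ
        rw [hrs _ ρ hρ hPρ]
        unfold bd
        rw [Finset.smul_sum]
        exact Finset.sum_congr rfl fun x _ => smul_comm _ _ _


lemma reidx' {B : Type*} [AddCommMonoid B] (F : V → Finset V → B) :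
    ∑ v, ∑ T : Finset V, (if v ∈ T then 0 else F v T) =
      ∑ T : Finset V, ∑ v ∈ T, F v (T.erase v) := by
  rw [Finset.sum_comm]
  have h1 : ∀ T : Finset V, ∑ v, (if v ∈ T then 0 else F v T) = ∑ v ∈ Tᶜ, F v T := by
    intro T
    rw [← Finset.sum_subset (Finset.subset_univ Tᶜ)]
    · exact Finset.sum_congr rfl fun v hv => if_neg (Finset.mem_compl.1 hv)
    · intro v _ hv
      exact if_pos (by simpa using hv)
  rw [Finset.sum_congr rfl (fun T _ => h1 T), Finset.sum_sigma', Finset.sum_sigma']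
  refine Finset.sum_bij' (fun z _ => ⟨insert z.2 z.1, z.2⟩) (fun z _ => ⟨z.1.erase z.2, z.2⟩)
    ?_ ?_ ?_ ?_ ?_
  · rintro ⟨T, v⟩ hz
    simp only [Finset.mem_sigma, Finset.mem_univ, true_and] at hz ⊢
    exact Finset.mem_insert_self _ _
  · rintro ⟨T, v⟩ hz
    simp only [Finset.mem_sigma, Finset.mem_univ, true_and, Finset.mem_compl] at hz ⊢
    exact Finset.notMem_erase _ _
  · rintro ⟨T, v⟩ hz
    simp only [Finset.mem_sigma, Finset.mem_univ, true_and, Finset.mem_compl] at hz
    simp only [Finset.erase_insert hz]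
  · rintro ⟨T, v⟩ hz
    simp only [Finset.mem_sigma, Finset.mem_univ, true_and] at hz
    simp only [Finset.insert_erase hz]
  · rintro ⟨T, v⟩ hz
    simp only [Finset.mem_sigma, Finset.mem_univ, true_and, Finset.mem_compl] at hz
    simp only [Finset.erase_insert hz]

/-- **every null-homologous stress is a sum of families** -/
lemma fam_span (P : Finset V → Prop) (hD : ∀ G H, H ⊆ G → P G → P H)
    (hsmall : ∀ σ, P σ → σ.card ≤ d) (a : V → K) (ha : Function.Injective a)
    (hcm : ∀ (M : Type) [AddCommGroup M] [Module K M] (τ : Finset V) (k : ℕ), τ.Nonempty →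
      k < d → AcyP P M τ k) :
    ∀ (r s : ℕ), s + r = d → ∀ (τ : Finset V) (c : Finset V → ExteriorAlgebra K (Fin d → K)),
    (∀ σ, c σ ≠ 0 → P σ ∧ τ ⊆ σ ∧ σ.card = s) → (∀ σ, Val (mom d a) s Finset.univ σ (c σ)) →
    (∀ ρ, τ ⊆ ρ → P ρ → bd c ρ = 0) →
    (0 < r → ∃ e : Finset V → ExteriorAlgebra K (Fin d → K),
        (∀ σ, e σ ≠ 0 → P σ ∧ τ ⊆ σ ∧ σ.card = s + 1) ∧ (∀ σ, Val (mom d a) s τ σ (e σ)) ∧
        ∀ ρ, τ ⊆ ρ → P ρ → c ρ = bd e ρ) →
    ∃ z : Finset V → (Finset V → K),
      (∀ T G, z T G ≠ 0 → P G ∧ τ ∪ T ⊆ G ∧ G.card = d ∧ T.card = r ∧ Disjoint T τ) ∧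
      (∀ T ρ, τ ∪ T ⊆ ρ → P ρ → bd (z T) ρ = 0) ∧
      ∀ ρ, τ ⊆ ρ → P ρ → θ d s (c ρ) = ∑ T, DD a r (yT a T (z T)) ρ := by
  classical
  have hP : Cvx P := fun _ ρ π _ h2 _ h4 => hD π ρ h2 h4
  have hdual := dual_mom (d := d) P a ha
  have hacy : ∀ (s' : ℕ) (A τ : Finset V) (k : ℕ), s' ≤ d → τ.Nonempty → k < s' →
      AcyV P (mom d a) s' A τ k := by
    intro s' A τ k h1 h2 h3
    exact acyV_ne P hP (mom d a) hdual (fun τ k s hτ hk => hcm _ τ k hτ hk) (d - s') s' (by omega)
      A τ k h2 h3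
  intro r
  induction r with
  | zero =>
    intro s hs τ c hc hc1 hc2 _
    have hs' : s = d := by omega
    subst hs'
    let z0 : Finset V → (Finset V → K) := fun T => if T = ∅ then (fun G => θ s s (c G)) else 0
    have hz0 : z0 ∅ = fun G => θ s s (c G) := if_pos rfl
    have hz0n : ∀ T, T ≠ ∅ → z0 T = 0 := fun T h => if_neg h
    refine ⟨z0, ?_, ?_, ?_⟩
    · intro T G hG
      by_cases hT : T = ∅
      · subst hT
        rw [hz0] at hG
        obtain ⟨a1, a2, a3⟩ := hc G fun h0 => hG (by show θ s s (c G) = 0; rw [h0, map_zero])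
        exact ⟨a1, by rw [Finset.union_empty]; exact a2, a3, rfl, Finset.disjoint_empty_left _⟩
      · rw [hz0n T hT] at hG
        exact absurd rfl hG
    · intro T ρ hρ hPρ
      by_cases hT : T = ∅
      · subst hT
        rw [hz0]
        have : bd (fun G => θ s s (c G)) ρ = θ s s (bd c ρ) := (bd_theta s c ρ).symm
        rw [this, hc2 ρ (Finset.subset_union_left.trans hρ) hPρ, map_zero]
      · rw [hz0n T hT, bd_zero]
    · intro ρ _ _
      rw [Finset.sum_eq_single ∅]
      · rw [hz0]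
        show θ s s (c ρ) = yT a ∅ _ ρ
        unfold yT
        rw [Finset.prod_empty, mul_one]
      · intro T _ hT
        rw [hz0n T hT, yT_zero, DD_zero, Pi.zero_apply]
      · intro h
        exact absurd (Finset.mem_univ _) h
  | succ r ih =>
    intro s hs τ c hc hc1 hc2 he
    obtain ⟨e, he, he1, he2⟩ := he (Nat.succ_pos r)
    obtain ⟨α, hα, hα0, hα2⟩ := decomp' P hP (mom d a) s (by omega) hsmall hdual hacy τ e he he1
      (fun ρ hρ hPρ x hx => by
        rw [← he2 ρ hρ hPρ]
        exact (hc1 ρ).2 x hx (Finset.mem_univ _))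
    -- the pieces
    have step : ∀ v : V, ∃ z : Finset V → (Finset V → K),
        (∀ T G, z T G ≠ 0 → P G ∧ insert v τ ∪ T ⊆ G ∧ G.card = d ∧ T.card = r ∧
          Disjoint T (insert v τ) ∧ v ∉ τ) ∧
        (∀ T ρ, insert v τ ∪ T ⊆ ρ → P ρ → bd (z T) ρ = 0) ∧
        ∀ ρ, τ ⊆ ρ → P ρ → θ d s (bd (α v) ρ) =
          ∑ T, (if v ∈ T then 0 else DD a (r + 1) (yT a (insert v T) ((-1 : K) ^ r • z T)) ρ) := by
      intro v
      by_cases hv : v ∈ τ
      · refine ⟨fun _ => 0, fun T G h => absurd rfl h, fun T ρ _ _ => bd_zero ρ, fun ρ _ _ => ?_⟩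
        rw [hα0 v hv, bd_zero, map_zero]
        symm
        refine Finset.sum_eq_zero fun T _ => ?_
        by_cases h : v ∈ T
        · exact if_pos h
        · rw [if_neg h, smul_zero, yT_zero, DD_zero, Pi.zero_apply]
      · have hp := hα v
        have hcp : ∀ σ, α v σ * ι K (mom d a v) ≠ 0 → α v σ ≠ 0 := fun σ h h0 => h (by
          rw [h0, zero_mul])
        have hVal : ∀ σ, Val (mom d a) (s + 1) Finset.univ σ (α v σ * ι K (mom d a v)) := by
          intro σ
          refine ⟨mul_ι_mem s _ (hp.deg σ) _, fun x hx _ => ?_⟩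
          by_cases hxv : x = v
          · rw [hxv, mul_assoc, ι_sq_zero, mul_zero]
          · rw [ι_anti, hp.kil σ x hx hxv, zero_mul, neg_zero]
        have hbd : ∀ ρ, insert v τ ⊆ ρ → P ρ → bd (fun σ => α v σ * ι K (mom d a v)) ρ = 0 := by
          intro ρ hρ hPρ
          rw [← bd_mul]
          exact hp.cyc ρ hρ hPρ
        obtain ⟨z, hz1, hz2, hz3⟩ := ih (s + 1) (by omega) (insert v τ)
          (fun σ => α v σ * ι K (mom d a v))
          (fun σ hσ => hp.supp σ (hcp σ hσ)) hVal hbd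
          (by
            intro hr
            let M : Submodule K (ExteriorAlgebra K (Fin d → K)) := MA (mom d a) (s + 1) (insert v τ)
            have hmem : ∀ σ, α v σ * ι K (mom d a v) ∈ M := by
              intro σ
              by_cases h0 : α v σ * ι K (mom d a v) = 0
              · rw [h0]; exact Submodule.zero_mem _
              · exact ⟨(hVal σ).1, fun x hx => (hVal σ).2 x ((hp.supp σ (hcp σ h0)).2.1 hx)
                  (Finset.mem_univ _)⟩
            obtain ⟨b, hb, hb2⟩ := hcm M (insert v τ) (s + 1) (Finset.insert_nonempty _ _)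
              (by omega) (fun σ => ⟨α v σ * ι K (mom d a v), hmem σ⟩)
              (fun σ hσ => hp.supp σ (hcp σ fun h0 => hσ (Subtype.ext h0)))
              (fun ρ hρ hPρ => by
                apply Subtype.ext
                have e1 : ((bd (fun σ => (⟨α v σ * ι K (mom d a v), hmem σ⟩ : M)) ρ : M) :
                    ExteriorAlgebra K (Fin d → K)) = bd (fun σ => α v σ * ι K (mom d a v)) ρ :=
                  (bd_map M.subtype.toAddMonoidHom _ ρ).symm
                rw [e1]
                exact hbd ρ hρ hPρ)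
            refine ⟨fun σ => (b σ : ExteriorAlgebra K (Fin d → K)), fun σ hσ => hb σ fun h0 =>
              hσ (by
                show ((b σ : M) : ExteriorAlgebra K (Fin d → K)) = 0
                rw [h0]; rfl), fun σ => ⟨(b σ).2.1, fun x _ hx => (b σ).2.2 x hx⟩,
              fun ρ hρ hPρ => ?_⟩
            have e1 : bd (fun σ => (b σ : ExteriorAlgebra K (Fin d → K))) ρ =
                ((bd b ρ : M) : ExteriorAlgebra K (Fin d → K)) :=
              bd_map M.subtype.toAddMonoidHom _ ρ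
            rw [e1, hb2 ρ hρ hPρ])
        refine ⟨z, fun T G h => ?_, hz2, fun ρ hρ hPρ => ?_⟩
        · obtain ⟨a1, a2, a3, a4, a5⟩ := hz1 T G h
          exact ⟨a1, a2, a3, a4, a5, hv⟩
        · have hyP : ∀ T G, yT a T (z T) G ≠ 0 → P G := by
            intro T G h
            refine (hz1 T G fun h0 => h ?_).1
            unfold yT
            rw [h0, zero_mul]
          have hwP : ∀ G, (∑ T, DD a r (yT a T (z T))) G ≠ 0 → P G := by
            intro G hG
            rw [Finset.sum_apply] at hG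
            obtain ⟨T, _, hT⟩ := Finset.exists_ne_zero_of_sum_ne_zero hG
            obtain ⟨H, hH, hH2⟩ := DD_supp a r _ G hT
            exact hD H G hH (hyP T H hH2)
          rw [piece_scalar P a ha s (by omega) τ v (α v) hp (∑ T, DD a r (yT a T (z T))) hwP
            (fun ρ hρ hPρ => by rw [hz3 ρ hρ hPρ, Finset.sum_apply]) ρ hρ]
          have e1 : ∑ T, DD a r (yT a T (z T)) = DD a r (∑ T, yT a T (z T)) := (DD_sum _ _ _ _).symm
          rw [e1, bd_Rf_DD a ha]
          have e2 : Rf a v (∑ T, yT a T (z T)) =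
              ∑ T, (if v ∈ T then 0 else yT a (insert v T) (z T)) := by
            funext G
            rw [Finset.sum_apply]
            have : Rf a v (∑ T, yT a T (z T)) G = ∑ T, Rf a v (yT a T (z T)) G := by
              unfold Rf
              by_cases h : v ∈ G
              · simp only [if_pos h, Finset.sum_apply, Finset.sum_mul]
              · simp only [if_neg h]
                exact Finset.sum_const_zero.symm
            rw [this]
            refine Finset.sum_congr rfl fun T _ => ?_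
            by_cases h : v ∈ T
            · rw [if_pos h]
              have hz0 : z T = 0 := by
                funext G
                by_contra h0
                exact Finset.disjoint_left.1 (hz1 T G h0).2.2.2.2 h (Finset.mem_insert_self _ _)
              rw [hz0, yT_zero]
              unfold Rf
              by_cases h2 : v ∈ G
              · rw [if_pos h2, Pi.zero_apply, zero_mul]
              · rw [if_neg h2, Pi.zero_apply]
            · rw [if_neg h, Rf_yT a T v h (z T) fun G hG =>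
                (hz1 T G hG).2.1 (Finset.mem_union_left _ (Finset.mem_insert_self _ _))]
          rw [e2, DD_sum, Pi.smul_apply, Finset.sum_apply, Finset.smul_sum]
          refine Finset.sum_congr rfl fun T _ => ?_
          by_cases h : v ∈ T
          · rw [if_pos h, if_pos h, DD_zero, Pi.zero_apply, smul_zero]
          · rw [if_neg h, if_neg h, yT_smul, DD_smul, Pi.smul_apply]
    choose z hz1 hz2 hz3 using step
    refine ⟨fun T => ∑ v ∈ T, (-1 : K) ^ r • z v (T.erase v), ?_, ?_, ?_⟩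
    · intro T G hG0
      have hG : (∑ v ∈ T, (-1 : K) ^ r • z v (T.erase v)) G ≠ 0 := hG0
      rw [Finset.sum_apply] at hG
      obtain ⟨v, hv, hvG⟩ := Finset.exists_ne_zero_of_sum_ne_zero hG
      have h1 : z v (T.erase v) G ≠ 0 := fun h0 => hvG (by rw [Pi.smul_apply, h0, smul_zero])
      obtain ⟨a1, a2, a3, a4, a5, a6⟩ := hz1 v _ G h1
      refine ⟨a1, ?_, a3, ?_, ?_⟩
      · intro x hx
        apply a2
        rcases Finset.mem_union.1 hx with h | h
        · exact Finset.mem_union_left _ (Finset.mem_insert_of_mem h)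
        · by_cases hxv : x = v
          · exact Finset.mem_union_left _ (hxv ▸ Finset.mem_insert_self _ _)
          · exact Finset.mem_union_right _ (Finset.mem_erase.2 ⟨hxv, h⟩)
      · have := Finset.card_erase_add_one hv
        omega
      · rw [Finset.disjoint_left]
        intro x hx hxτ
        by_cases hxv : x = v
        · exact a6 (hxv ▸ hxτ)
        · exact Finset.disjoint_left.1 a5 (Finset.mem_erase.2 ⟨hxv, hx⟩)
            (Finset.mem_insert_of_mem hxτ)
    · intro T ρ hρ hPρ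
      have e1 : ∀ s : Finset V, s ⊆ T →
          bd (∑ v ∈ s, (-1 : K) ^ r • z v (T.erase v)) ρ = 0 := by
        intro s
        induction s using Finset.induction_on with
        | empty => intro _; rw [Finset.sum_empty, bd_zero]
        | insert v s hv ih2 =>
          intro hs
          rw [Finset.sum_insert hv, bd_add, ih2 ((Finset.subset_insert _ _).trans hs), add_zero]
          have h3 : bd ((-1 : K) ^ r • z v (T.erase v)) ρ = (-1 : K) ^ r • bd (z v (T.erase v)) ρ := by
            unfold bd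
            rw [Finset.smul_sum]
            exact Finset.sum_congr rfl fun x _ => by rw [Pi.smul_apply, smul_comm]
          rw [h3, hz2 v _ ρ _ hPρ, smul_zero]
          intro x hx
          apply hρ
          have hvT := hs (Finset.mem_insert_self _ _)
          rcases Finset.mem_union.1 hx with h | h
          · rcases Finset.mem_insert.1 h with h | h
            · exact Finset.mem_union_right _ (h ▸ hvT)
            · exact Finset.mem_union_left _ h
          · exact Finset.mem_union_right _ (Finset.mem_of_mem_erase h)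
      exact e1 T (Finset.Subset.refl _)
    · intro ρ hρ hPρ
      rw [he2 ρ hρ hPρ, hα2 ρ hρ hPρ, map_sum, Finset.sum_congr rfl (fun v _ => hz3 v ρ hρ hPρ),
        reidx' (fun v T => DD a (r + 1) (yT a (insert v T) ((-1 : K) ^ r • z v T)) ρ)]
      refine Finset.sum_congr rfl fun T _ => ?_
      show _ = DD a (r + 1) (yT a T (∑ v ∈ T, (-1 : K) ^ r • z v (T.erase v))) ρ
      rw [yT_sum, DD_sum, Finset.sum_apply]
      refine Finset.sum_congr rfl fun v hv => ?_
      rw [Finset.insert_erase hv]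

end family

end Pool.Agent.Helper611.KFam
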