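import Pool.Agent.Helper611.UVal

set_option autoImplicit false
set_option linter.unusedSectionVars false
set_option linter.unnecessarySimpa false

/-! The upper bound inequality for the h-numbers of a Buchsbaum complex. -/

namespace Pool.Agent.Helper611.UNum

open ExteriorAlgebra Pool.Agent.Helper611.ZBase Pool.Agent.Helper611.KRel
  Pool.Agent.Helper611.KVal Pool.Agent.Helper611.KDim Pool.Agent.Helper611.KTop
  Pool.Agent.Helper611.UStr Pool.Agent.Helper611.ULead Pool.Agent.Helper611.UVal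

section dims
variable {V : Type} [Fintype V] [LinearOrder V] {K : Type} [Field K] {d : ℕ}

lemma exists_coord (Γ : Cx V) (p : V → (Fin d → K)) (hsmall : ∀ σ ∈ Γ.faces, σ.card ≤ d)
    (hdual : Dual (fun σ => σ ∈ Γ.faces) p) :
    ∃ φ : Finset V → V → Module.Dual K (Fin d → K), Coord Γ p φ := by
  classical
  have h1 : ∀ (σ : Finset V) (v : V), ∃ f : Module.Dual K (Fin d → K),
      σ ∈ Γ.faces → v ∈ σ → f (p v) = 1 ∧ ∀ x ∈ σ, x ≠ v → f (p x) = 0 := by
    intro σ v
    by_cases h : σ ∈ Γ.faces ∧ v ∈ σ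
    · obtain ⟨f, hf⟩ := hdual σ h.1 (hsmall σ h.1) v h.2
      exact ⟨f, fun _ _ => hf⟩
    · exact ⟨0, fun h2 h3 => absurd ⟨h2, h3⟩ h⟩
  choose φ hφ using h1
  exact ⟨φ, fun σ hσ x hx => (hφ σ x hσ hx).1, fun σ hσ x hx y hy hyx => (hφ σ x hσ hx).2 y hy hyx⟩

/-- growth -/
lemma growth_ineq (Γ : Cx V) (p : V → (Fin d → K)) (hsmall : ∀ σ ∈ Γ.faces, σ.card ≤ d)
    (hdual : Dual (fun σ => σ ∈ Γ.faces) p) (B : Finset V) (hB : B ∈ Γ.faces) (s : ℕ) :
    (s + 1) * Module.finrank K (ZZ (fun σ => σ ∈ Γ.faces) p (s + 1) (s + 1)) ≤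
      (Bᶜ.card + s) * Module.finrank K (ZN (fun σ => σ ∈ Γ.faces) p s) := by
  obtain ⟨φ, hφ⟩ := exists_coord Γ p hsmall hdual
  have h1 : Module.finrank K (ZZ (fun σ => σ ∈ Γ.faces) p (s + 1) (s + 1)) ≤
      Module.finrank K (St Γ p (s + 1)) := by
    have := CC_fin (V := V) (K := K) (d := d)
    exact (Submodule.finrank_mono (ZZ_le hφ (s + 1))).trans (Submodule.finrank_map_le _ _)
  have h2 := Nu_finrank hφ s
  have h3 := growth (D Γ p φ) (fun s => St Γ p s) (fun s t ht x => D_mem hφ s t ht x)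
    (fun s t ht x y => D_comm hφ s t ht x y) (LinearMap.proj (∅ : Finset V)) Bᶜ
    (fun s t ht h => D_inj' hφ s t ht B hB fun x hx => h x (Finset.mem_compl.2 hx))
    (by
      intro t ht h
      funext σ
      by_contra h2
      have h3 := Finset.card_eq_zero.1 (ht.1 σ h2).2
      rw [h3] at h2
      exact h2 h) s (Nu Γ p s) (fun t ht x _ => D_Nu hφ s t ht x)
  calc _ ≤ (s + 1) * Module.finrank K (St Γ p (s + 1)) := Nat.mul_le_mul_left _ h1
    _ ≤ (Bᶜ.card + s) * Module.finrank K (Nu Γ p s) := h3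
    _ ≤ _ := Nat.mul_le_mul_left _ h2

lemma ZZ0_finrank (Γ : Cx V) (s : ℕ) :
    Module.finrank K (ZZ (fun σ => σ ∈ Γ.faces) (0 : V → (Fin d → K)) s s) =
      d.choose s * Module.finrank K (ZS K Γ s) := by
  classical
  have hf : ∀ j : ℕ, Module.finrank K (CC (fun σ => σ ∈ Γ.faces) (0 : V → (Fin d → K)) s j) =
      d.choose s * Module.finrank K (CS K Γ j) := by
    intro j
    rw [CC0_finrank _ (0 : V → (Fin d → K)) s j, CS_finrank, mul_comm]
    congr 2
    ext σ
    simp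
  rcases Nat.eq_zero_or_pos s with rfl | hs
  · rw [ZZ_zero, CS_zero, hf]
  · obtain ⟨r, rfl⟩ : ∃ r, s = r + 1 := ⟨s - 1, by omega⟩
    have h1 := CC_step (fun σ => σ ∈ Γ.faces) (0 : V → (Fin d → K)) (r + 1) r
    rw [hf, BB0_finrank Γ (0 : V → (Fin d → K)) (r + 1) r, CS_step K Γ r, mul_add] at h1
    omega

lemma ZZ_ZN (Γ : Cx V) (p : V → (Fin d → K)) (s : ℕ) (hs : s ≤ d)
    (hdual : Dual (fun σ => σ ∈ Γ.faces) p)
    (hacy : ∀ (s' : ℕ) (A τ : Finset V) (k : ℕ), s' ≤ d → τ.Nonempty → k < s' →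
      AcyV (fun σ => σ ∈ Γ.faces) p s' A τ k) :
    Module.finrank K (ZZ (fun σ => σ ∈ Γ.faces) p s s) + d.choose s * Module.finrank K (BS K Γ s) =
      Module.finrank K (ZN (fun σ => σ ∈ Γ.faces) p s) +
        d.choose s * Module.finrank K (ZS K Γ s) := by
  have := CC_fin (V := V) (K := K) (d := d)
  have h3 := Submodule.finrank_sup_add_finrank_inf_eq (ZZ (fun σ => σ ∈ Γ.faces) p s s)
    (BB (fun σ => σ ∈ Γ.faces) (0 : V → (Fin d → K)) s s)
  rw [sup_eq (fun σ => σ ∈ Γ.faces) (fun _ ρ π _ h2 _ h4 => Γ.down π h4 ρ h2) p s hs hdual hacy s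
    le_rfl, BB0_finrank Γ (0 : V → (Fin d → K)) s s, ZZ0_finrank] at h3
  have h4 : Module.finrank K (ZN (fun σ => σ ∈ Γ.faces) p s) =
    Module.finrank K (ZZ (fun σ => σ ∈ Γ.faces) p s s ⊓
      BB (fun σ => σ ∈ Γ.faces) (0 : V → (Fin d → K)) s s : Submodule K _) := rfl
  rw [← h4] at h3
  omega

lemma BS_le (Γ : Cx V) (s : ℕ) : BS K Γ s ≤ ZS K Γ s := by
  rintro c ⟨b, hb, rfl⟩
  refine ⟨fun σ hσ => ?_, ?_⟩
  · rw [bdS_apply] at hσ
    obtain ⟨x, hx, h2⟩ := bd_ne b σ hσ
    have h3 := hb _ h2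
    refine ⟨Γ.down _ h3.1 _ (Finset.subset_insert _ _), ?_⟩
    have h4 := Finset.card_insert_of_notMem hx
    omega
  · show bd (bd b) = 0
    funext ρ
    exact bd_bd b ρ

lemma beta_zero (Γ : Cx V) (v : V) (hv : {v} ∈ Γ.faces) :
    Module.finrank K (ZS K Γ 0) = 1 ∧ Module.finrank K (BS K Γ 0) = 1 := by
  classical
  have h1 : Module.finrank K (ZS K Γ 0) = 1 := by
    rw [CS_zero, CS_finrank]
    have : Γ.faces.filter (fun σ => σ.card = 0) = {∅} := by
      ext σ
      rw [Finset.mem_filter, Finset.mem_singleton, Finset.card_eq_zero]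
      exact ⟨fun h => h.2, fun h => ⟨h ▸ Γ.empty_mem, h⟩⟩
    rw [this, Finset.card_singleton]
  refine ⟨h1, le_antisymm ?_ ?_⟩
  · rw [← h1]
    exact Submodule.finrank_mono (BS_le Γ 0)
  · rw [Nat.one_le_iff_ne_zero]
    intro h
    have h2 : BS K Γ 0 = ⊥ := Submodule.finrank_eq_zero.1 h
    have h3 : bdS K (Pi.single {v} (1 : K)) ∈ BS K Γ 0 := by
      refine ⟨_, ?_, rfl⟩
      intro σ hσ
      have : σ = {v} := by
        by_contra hne
        exact hσ (Pi.single_eq_of_ne hne _)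
      subst this
      exact ⟨hv, by rw [Finset.card_singleton]⟩
    rw [h2, Submodule.mem_bot] at h3
    have h4 : bd (Pi.single {v} (1 : K) : Finset V → K) ∅ = 0 := congrFun h3 ∅
    unfold bd at h4
    rw [Finset.sum_eq_single_of_mem v (by simp)] at h4
    · rw [sgn_empty, one_smul] at h4
      have h5 : (Pi.single {v} (1 : K) : Finset V → K) (insert v ∅) = 1 := Pi.single_eq_same _ _
      rw [h5] at h4
      exact one_ne_zero h4
    · intro x _ hx
      rw [Pi.single_eq_of_ne, smul_zero]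
      intro h
      have : x ∈ ({v} : Finset V) := h ▸ Finset.mem_insert_self _ _
      exact hx (Finset.mem_singleton.1 this)

end dims

section numeric

lemma M_step (m s : ℕ) : (s + 1) * (m + (s + 1) - 1).choose (s + 1) =
    (m + s) * (m + s - 1).choose s := by
  rcases Nat.eq_zero_or_pos (m + s) with h | h
  · have h1 : m = 0 := by omega
    have h2 : s = 0 := by omega
    subst h1 h2
    rfl
  · obtain ⟨n, hn⟩ : ∃ n, m + s = n + 1 := ⟨m + s - 1, by omega⟩
    have e1 : m + (s + 1) - 1 = n + 1 := by omega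
    have e2 : m + s - 1 = n := by omega
    rw [e1, e2, hn, Nat.add_one_mul_choose_eq, mul_comm]

lemma choose_lt (a b k : ℕ) (h : a < b) (hk : k ≤ b) (hk0 : 1 ≤ k) : a.choose k < b.choose k := by
  obtain ⟨c, rfl⟩ : ∃ c, b = c + 1 := ⟨b - 1, by omega⟩
  obtain ⟨j, rfl⟩ : ∃ j, k = j + 1 := ⟨k - 1, by omega⟩
  rw [Nat.choose_succ_succ']
  have h1 : a.choose (j + 1) ≤ c.choose (j + 1) := Nat.choose_le_choose _ (by omega)
  have h2 : 0 < c.choose j := Nat.choose_pos (by omega)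
  omega

lemma numeric (d m : ℕ) (hd : 1 ≤ d) (z Z β χ : ℕ → ℤ) (hz : ∀ s, 0 ≤ z s) (hβ : ∀ s, 0 ≤ β s)
    (h1 : ∀ s, s ≤ d → Z s = z s + (d.choose s : ℤ) * β s)
    (h2 : ∀ s, s + 1 ≤ d → ((s : ℤ) + 1) * Z (s + 1) ≤ ((m : ℤ) + s) * z s)
    (h3 : χ 0 = β 0) (h4 : ∀ s, χ (s + 1) = β (s + 1) - χ s) (h5 : β 0 = 0) (h6 : Z 0 ≤ 1) :
    ∀ s, s ≤ d → z s + (d.choose s : ℤ) * χ s ≤ ((m + s - 1).choose s : ℤ) := by
  let A : ℕ → ℤ := fun s => ∑ j ∈ Finset.range (s + 1), β j
  have hA0 : A 0 = 0 := by simp [A, h5]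
  have hAs : ∀ s, A (s + 1) = A s + β (s + 1) := fun s => Finset.sum_range_succ _ _
  have hχ : ∀ s, χ s ≤ A s ∧ - A s ≤ χ s := by
    intro s
    induction s with
    | zero => rw [hA0, h3, h5]; simp
    | succ s ih =>
      rw [h4, hAs]
      have := hβ (s + 1)
      constructor <;> linarith
  have hA : ∀ s, 0 ≤ A s := fun s => Finset.sum_nonneg fun j _ => hβ j
  have key : ∀ s, s ≤ d → z s + (d.choose s : ℤ) * A s ≤ ((m + s - 1).choose s : ℤ) ∧
      (A s ≠ 0 → d ≤ m + s) := by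
    intro s
    induction s with
    | zero =>
      intro _
      rw [hA0]
      refine ⟨?_, fun h => absurd rfl h⟩
      have h7 := h1 0 (Nat.zero_le _)
      rw [h5, mul_zero, add_zero] at h7
      rw [mul_zero, add_zero, Nat.choose_zero_right]
      push_cast
      linarith
    | succ s ih =>
      intro hs
      obtain ⟨i1, i2⟩ := ih (by omega)
      have e1 := h1 (s + 1) hs
      have e2 := h2 s hs
      have e3 : ((s : ℤ) + 1) * ((m + (s + 1) - 1).choose (s + 1) : ℤ) =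
          ((m : ℤ) + s) * ((m + s - 1).choose s : ℤ) := by exact_mod_cast M_step m s
      have e4 : ((s : ℤ) + 1) * (d.choose (s + 1) : ℤ) = ((d : ℤ) - s) * (d.choose s : ℤ) := by
        have := Nat.choose_succ_right_eq d s
        have h7 : ((d.choose (s + 1) * (s + 1) : ℕ) : ℤ) = ((d.choose s * (d - s) : ℕ) : ℤ) := by
          rw [this]
        rw [Nat.cast_mul, Nat.cast_mul, Nat.cast_sub (by omega)] at h7
        push_cast at h7
        linarith
      have e5 : ((d : ℤ) - s) * A s ≤ ((m : ℤ) + s) * A s := by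
        by_cases h0 : A s = 0
        · rw [h0, mul_zero, mul_zero]
        · refine mul_le_mul_of_nonneg_right ?_ (hA s)
          have := i2 h0
          have h7 : (d : ℤ) ≤ m + s := by exact_mod_cast this
          have h8 : (0 : ℤ) ≤ s := Nat.cast_nonneg _
          linarith
      have hc : (0 : ℤ) ≤ (d.choose s : ℤ) := Nat.cast_nonneg _
      have first : z (s + 1) + (d.choose (s + 1) : ℤ) * A (s + 1) ≤
          ((m + (s + 1) - 1).choose (s + 1) : ℤ) := by
        have hpos : (0 : ℤ) < (s : ℤ) + 1 := by positivity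
        refine le_of_mul_le_mul_left ?_ hpos
        rw [e3]
        have hm : (0 : ℤ) ≤ (m : ℤ) + s := by positivity
        have e6 := mul_le_mul_of_nonneg_left i1 hm
        have e7 := mul_le_mul_of_nonneg_left e5 hc
        have e8 : ((s : ℤ) + 1) * (z (s + 1) + (d.choose (s + 1) : ℤ) * A (s + 1)) =
            ((s : ℤ) + 1) * Z (s + 1) + (((d : ℤ) - s) * (d.choose s : ℤ)) * A s := by
          rw [hAs, e1, ← e4]
          ring
        rw [e8]
        nlinarith
      refine ⟨first, fun hne => ?_⟩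
      by_cases h0 : A s = 0
      · have h7 : β (s + 1) = A (s + 1) := by rw [hAs, h0, zero_add]
        have h8 : 1 ≤ A (s + 1) := by
          have := hA (s + 1)
          omega
        by_contra hcon
        have h9 : (m + (s + 1) - 1).choose (s + 1) < d.choose (s + 1) :=
          choose_lt _ _ _ (by omega) hs (by omega)
        have h10 : ((m + (s + 1) - 1).choose (s + 1) : ℤ) < (d.choose (s + 1) : ℤ) := by
          exact_mod_cast h9
        have h11 : (0 : ℤ) ≤ (d.choose (s + 1) : ℤ) := Nat.cast_nonneg _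
        have h12 := hz (s + 1)
        nlinarith
      · have := i2 h0
        omega
  intro s hs
  have h7 := (key s hs).1
  have h8 := mul_le_mul_of_nonneg_left (hχ s).1 (Nat.cast_nonneg (d.choose s) : (0 : ℤ) ≤ _)
  linarith

end numeric

section main
variable {V : Type} [Fintype V] [LinearOrder V] {K : Type} [Field K] {d : ℕ}

theorem ubc_alg (Γ : Cx V) (p : V → (Fin d → K)) (hsmall : ∀ σ ∈ Γ.faces, σ.card ≤ d)
    (hd : 1 ≤ d) (B : Finset V) (hB : B ∈ Γ.faces) (hBd : B.card = d)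
    (hdual : Dual (fun σ => σ ∈ Γ.faces) p)
    (hacy : ∀ (s' : ℕ) (A τ : Finset V) (k : ℕ), s' ≤ d → τ.Nonempty → k < s' →
      AcyV (fun σ => σ ∈ Γ.faces) p s' A τ k) (s : ℕ) (hs : s ≤ d) :
    ∑ j ∈ Finset.range (s + 1), (-1 : ℤ) ^ (s - j) * ((((d - j).choose (s - j) : ℕ) : ℤ) *
        ((Γ.faces.filter fun σ => σ.card = j).card : ℤ)) ≤
      ((Fintype.card V - d + s - 1).choose s : ℤ) := by
  rw [h_formula Γ p s hs hdual hacy]
  have hBc : Bᶜ.card = Fintype.card V - d := by rw [Finset.card_compl, hBd]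
  obtain ⟨v, hv⟩ : B.Nonempty := Finset.card_pos.1 (by omega)
  have hv' : {v} ∈ Γ.faces := Γ.down B hB _ (Finset.singleton_subset_iff.2 hv)
  obtain ⟨b1, b2⟩ := beta_zero (K := K) Γ v hv'
  refine numeric d (Fintype.card V - d) hd
    (fun s => (Module.finrank K (ZN (fun σ => σ ∈ Γ.faces) p s) : ℤ))
    (fun s => (Module.finrank K (ZZ (fun σ => σ ∈ Γ.faces) p s s) : ℤ))
    (fun s => (Module.finrank K (ZS K Γ s) : ℤ) - (Module.finrank K (BS K Γ s) : ℤ))
    (fun s => chi K Γ s) (fun s => Nat.cast_nonneg _) ?_ ?_ ?_ (chi_zero K Γ)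
    (fun s => chi_step K Γ s) (by simp [b1, b2]) ?_ s hs
  · intro s
    have := Submodule.finrank_mono (BS_le (K := K) Γ s)
    have h2 : (Module.finrank K (BS K Γ s) : ℤ) ≤ (Module.finrank K (ZS K Γ s) : ℤ) := by
      exact_mod_cast this
    linarith
  · intro s hs
    have := ZZ_ZN Γ p s hs hdual hacy
    have h2 := congrArg (fun t : ℕ => (t : ℤ)) this
    push_cast at h2
    show (Module.finrank K (ZZ (fun σ => σ ∈ Γ.faces) p s s) : ℤ) = _
    linarith
  · intro s hs
    have := growth_ineq Γ p hsmall hdual B hB s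
    rw [hBc] at this
    exact_mod_cast this
  · show (Module.finrank K (ZZ (fun σ => σ ∈ Γ.faces) p 0 0) : ℤ) ≤ 1
    have := ZZ_ZN Γ p 0 (Nat.zero_le _) hdual hacy
    have h7 : Module.finrank K (ZZ (fun σ => σ ∈ Γ.faces) p 0 0) ≤ 1 := by
      classical
      rw [ZZ_zero, CC_finrank (fun σ => σ ∈ Γ.faces) p d 0 0 frk (Nat.zero_le _) hdual
        (Nat.zero_le _), Nat.sub_zero, Nat.sub_zero, Nat.choose_zero_right, mul_one]
      have h8 : (Finset.univ.filter fun σ : Finset V => σ ∈ Γ.faces ∧ σ.card = 0) ⊆ {∅} := by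
        intro σ hσ
        rw [Finset.mem_filter] at hσ
        rw [Finset.mem_singleton]
        exact Finset.card_eq_zero.1 hσ.2.2
      have h9 := Finset.card_le_card h8
      rw [Finset.card_singleton] at h9
      convert h9
    exact_mod_cast h7

end main

end Pool.Agent.Helper611.UNum
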