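import Pool.Agent.Helper611.UMan
import Pool.Agent.Helper611.UNum
import Pool.Agent.Helper611.KFam

set_option autoImplicit false
set_option linter.unusedSectionVars false
set_option linter.unnecessarySimpa false

/-! Geometric simplicial complexes; the final inequality. -/

namespace Pool.Agent.Helper611.UGeo

open ExteriorAlgebra Pool.Agent.Helper611.ZBase Pool.Agent.Helper611.KRel
  Pool.Agent.Helper611.KVal Pool.Agent.Helper611.KDim Pool.Agent.Helper611.KFam
  Pool.Agent.Helper611.UNum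
  Pool.Agent.Helper611.UTop Pool.Agent.Helper611.UInv Pool.Agent.Helper611.UMan

section abstract_part
variable {V : Type} [Fintype V] [LinearOrder V]

theorem ubc_abs (Γ : Cx V) (m d : ℕ) (hacy : ∀ (τ : Finset V) (k : ℕ), τ.Nonempty → k ≤ m →
      Acy Γ ℤ τ k) (hdim : ∀ σ ∈ Γ.faces, σ.card ≤ m + 1) (hsmall : ∀ σ ∈ Γ.faces, σ.card ≤ d)
    (hd : 1 ≤ d) (B : Finset V) (hB : B ∈ Γ.faces) (hBd : B.card = d) (s : ℕ) (hs : s ≤ d) :
    ∑ j ∈ Finset.range (s + 1), (-1 : ℤ) ^ (s - j) * ((((d - j).choose (s - j) : ℕ) : ℤ) *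
        ((Γ.faces.filter fun σ => σ.card = j).card : ℤ)) ≤
      ((Fintype.card V - d + s - 1).choose s : ℤ) := by
  have hdm : d ≤ m + 1 := by rw [← hBd]; exact hdim B hB
  have hP : Cvx (fun σ => σ ∈ Γ.faces) := fun _ ρ π _ h2 _ h4 => Γ.down π h4 ρ h2
  obtain ⟨a, ha⟩ : ∃ a : V → ℚ, Function.Injective a :=
    ⟨_, (Infinite.natEmbedding ℚ).injective.comp
      (Fin.val_injective.comp (Fintype.equivFin V).injective)⟩
  refine ubc_alg Γ (mom d a) hsmall hd B hB hBd (dual_mom _ a ha) ?_ s hs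
  intro s' A τ i h1 h2 h3
  refine acyV_ne _ hP (mom d a) (dual_mom _ a ha) ?_ (d - s') s' (by omega) A τ i h2 h3
  intro τ k r hτ hk
  exact acyP_of_acy Γ τ k (acy_change (R := ℤ) Γ τ k
    (fun k' hk' => hacy τ k' hτ (by omega)) k le_rfl)

end abstract_part

section geometric
variable {E : Type} [NormedAddCommGroup E] [NormedSpace ℝ E] [T2Space E]

structure Lab (K : Geometry.SimplicialComplex ℝ E) (n : ℕ) (ι : Fin n → E) : Prop where
  inj : Function.Injective ι
  range : ∀ v, v ∈ K.vertices ↔ ∃ i, ι i = v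

lemma exists_lab (K : Geometry.SimplicialComplex ℝ E) (hfin : K.faces.Finite) :
    ∃ ι : Fin K.vertices.ncard → E, Lab K K.vertices.ncard ι := by
  classical
  have hv : K.vertices.Finite := by
    refine Set.Finite.of_finite_image (f := fun v : E => ({v} : Finset E)) (hfin.subset ?_) ?_
    · rintro _ ⟨v, hv, rfl⟩
      exact hv
    · intro v _ w _ h
      exact Finset.singleton_injective h
  have hc : K.vertices.ncard = hv.toFinset.card := Set.ncard_eq_toFinset_card _ hv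
  rw [hc]
  refine ⟨fun i => (hv.toFinset.equivFin.symm i).1, ?_, ?_⟩
  · exact Subtype.val_injective.comp (Equiv.injective _)
  · intro v
    constructor
    · intro h
      have h' : v ∈ hv.toFinset := hv.mem_toFinset.2 h
      refine ⟨hv.toFinset.equivFin ⟨v, h'⟩, ?_⟩
      show (hv.toFinset.equivFin.symm (hv.toFinset.equivFin ⟨v, h'⟩)).1 = v
      rw [Equiv.symm_apply_apply]
    · rintro ⟨i, rfl⟩
      exact hv.mem_toFinset.1 (hv.toFinset.equivFin.symm i).2

variable {K : Geometry.SimplicialComplex ℝ E} {n : ℕ} {ι : Fin n → E}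

open Classical in
/-- the abstract complex -/
noncomputable def cx (h : Lab K n ι) : Cx (Fin n) where
  faces := Finset.univ.filter fun σ => σ = ∅ ∨ σ.map ⟨ι, h.inj⟩ ∈ K.faces
  empty_mem := by simp
  down := by
    intro σ hσ τ hτ
    rw [Finset.mem_filter] at hσ ⊢
    refine ⟨Finset.mem_univ _, ?_⟩
    rcases Finset.eq_empty_or_nonempty τ with h1 | h1
    · exact Or.inl h1
    · right
      have h2 : σ ≠ ∅ := by
        rintro rfl
        obtain ⟨x, hx⟩ := h1
        exact absurd (hτ hx) (Finset.notMem_empty x)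
      have h3 := hσ.2.resolve_left h2
      exact K.down_closed h3 (Finset.map_subset_map.2 hτ) (h1.map)

lemma mem_cx (h : Lab K n ι) (σ : Finset (Fin n)) :
    σ ∈ (cx h).faces ↔ σ = ∅ ∨ σ.map ⟨ι, h.inj⟩ ∈ K.faces := by
  unfold cx
  simp only [Finset.mem_filter, Finset.mem_univ, true_and]

lemma mem_cx' (h : Lab K n ι) (σ : Finset (Fin n)) (hne : σ ≠ ∅) (hσ : σ ∈ (cx h).faces) :
    σ.map ⟨ι, h.inj⟩ ∈ K.faces := ((mem_cx h σ).1 hσ).resolve_left hne

lemma face_lift (h : Lab K n ι) (s : Finset E) (hs : s ∈ K.faces) :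
    ∃ σ ∈ (cx h).faces, σ ≠ ∅ ∧ σ.map ⟨ι, h.inj⟩ = s := by
  classical
  have h1 : ∀ v ∈ s, ∃ i, ι i = v := by
    intro v hv
    refine (h.range v).1 ?_
    exact K.down_closed hs (Finset.singleton_subset_iff.2 hv) (Finset.singleton_nonempty _)
  let σ : Finset (Fin n) := Finset.univ.filter fun i => ι i ∈ s
  have h2 : σ.map ⟨ι, h.inj⟩ = s := by
    ext v
    rw [Finset.mem_map]
    constructor
    · rintro ⟨i, hi, rfl⟩
      exact (Finset.mem_filter.1 hi).2
    · intro hv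
      obtain ⟨i, rfl⟩ := h1 v hv
      exact ⟨i, Finset.mem_filter.2 ⟨Finset.mem_univ _, hv⟩, rfl⟩
  refine ⟨σ, (mem_cx h σ).2 (Or.inr (h2 ▸ hs)), ?_, h2⟩
  intro h3
  rw [h3, Finset.map_empty] at h2
  exact K.empty_notMem (h2 ▸ hs)

lemma card_faces (h : Lab K n ι) (j : ℕ) (hj : j ≠ 0) :
    ({σ | σ ∈ K.faces ∧ σ.card = j} : Set (Finset E)).ncard =
      ((cx h).faces.filter fun σ => σ.card = j).card := by
  classical
  have h1 : ({σ | σ ∈ K.faces ∧ σ.card = j} : Set (Finset E)) =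
      (fun σ : Finset (Fin n) => σ.map ⟨ι, h.inj⟩) ''
        (((cx h).faces.filter fun σ => σ.card = j : Finset (Finset (Fin n))) :
          Set (Finset (Fin n))) := by
    ext s
    constructor
    · rintro ⟨hs, hc⟩
      obtain ⟨σ, hσ, _, rfl⟩ := face_lift h s hs
      refine ⟨σ, ?_, rfl⟩
      rw [Finset.card_map] at hc
      exact Finset.mem_coe.2 (Finset.mem_filter.2 ⟨hσ, hc⟩)
    · rintro ⟨σ, hσ, rfl⟩
      obtain ⟨h2, h3⟩ := Finset.mem_filter.1 (Finset.mem_coe.1 hσ)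
      refine ⟨mem_cx' h σ ?_ h2, by rw [Finset.card_map]; exact h3⟩
      rintro rfl
      rw [Finset.card_empty] at h3
      exact hj h3.symm
  rw [h1, Set.ncard_image_of_injective _ (Finset.map_injective _), Set.ncard_coe_finset]

/-- the barycentric map -/
noncomputable def bar (ι : Fin n → E) (x : Fin n → ℝ) : E := ∑ i, x i • ι i

lemma bar_cont (ι : Fin n → E) : Continuous (bar ι) := by
  unfold bar
  exact continuous_finsetSum _ fun i _ => (continuous_apply i).smul continuous_const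

lemma bar_supp (ι : Fin n → E) (x : Fin n → ℝ) (σ : Finset (Fin n)) (hx : ∀ i, i ∉ σ → x i = 0) :
    bar ι x = ∑ i ∈ σ, x i • ι i := by
  unfold bar
  exact (Finset.sum_subset (Finset.subset_univ _) fun i _ hi => by rw [hx i hi, zero_smul]).symm

lemma sum_supp (x : Fin n → ℝ) (σ : Finset (Fin n)) (hx : ∀ i, i ∉ σ → x i = 0) :
    ∑ i ∈ σ, x i = ∑ i, x i :=
  Finset.sum_subset (Finset.subset_univ _) fun i _ hi => hx i hi

lemma ne_of_sum (x : Fin n → ℝ) (hx1 : ∑ i, x i = 1) (σ : Finset (Fin n))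
    (hx : ∀ i, i ∉ σ → x i = 0) : σ ≠ ∅ := by
  rintro rfl
  rw [← sum_supp x ∅ hx, Finset.sum_empty] at hx1
  exact zero_ne_one hx1

lemma bar_hull (h : Lab K n ι) (x : Fin n → ℝ) (hx0 : ∀ i, 0 ≤ x i) (hx1 : ∑ i, x i = 1)
    (σ : Finset (Fin n)) (hx : ∀ i, i ∉ σ → x i = 0) :
    bar ι x ∈ convexHull ℝ ((σ.map ⟨ι, h.inj⟩ : Finset E) : Set E) := by
  rw [bar_supp ι x σ hx]
  refine (convex_convexHull ℝ _).sum_mem (fun i _ => hx0 i) (by rw [sum_supp x σ hx, hx1]) ?_
  intro i hi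
  exact subset_convexHull ℝ _ (Finset.mem_coe.2 (Finset.mem_map.2 ⟨i, hi, rfl⟩))

lemma aff_uniq (h : Lab K n ι) (σ : Finset (Fin n)) (hσ : σ.map ⟨ι, h.inj⟩ ∈ K.faces)
    (x x' : Fin n → ℝ) (hx1 : ∑ i, x i = 1) (hx1' : ∑ i, x' i = 1)
    (hx : ∀ i, i ∉ σ → x i = 0) (hx' : ∀ i, i ∉ σ → x' i = 0) (hb : bar ι x = bar ι x') :
    x = x' := by
  have h1 := K.indep hσ
  let emb : σ ↪ ((σ.map ⟨ι, h.inj⟩ : Finset E) : Type) :=
    ⟨fun i => ⟨ι i.1, Finset.mem_map.2 ⟨i.1, i.2, rfl⟩⟩, fun i j hij =>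
      Subtype.ext (h.inj (congrArg Subtype.val hij))⟩
  have h2 := (affineIndependent_iff.1 (h1.comp_embedding emb)) Finset.univ
    (fun i => x i.1 - x' i.1) (by
      rw [Finset.sum_sub_distrib, Finset.sum_coe_sort σ x, Finset.sum_coe_sort σ x',
        sum_supp x σ hx, sum_supp x' σ hx', hx1, hx1', sub_self]) (by
      have e1 : ∑ i : σ, (x i.1 - x' i.1) • ((Subtype.val : _ → E) ∘ emb) i =
          ∑ i ∈ σ, (x i - x' i) • ι i :=
        Finset.sum_coe_sort σ (fun i => (x i - x' i) • ι i)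
      rw [e1]
      rw [Finset.sum_congr rfl (fun i _ => sub_smul (x i) (x' i) (ι i)), Finset.sum_sub_distrib,
        ← bar_supp ι x σ hx, ← bar_supp ι x' σ hx', hb, sub_self])
  funext i
  by_cases hi : i ∈ σ
  · exact sub_eq_zero.1 (h2 ⟨i, hi⟩ (Finset.mem_univ _))
  · rw [hx i hi, hx' i hi]

lemma hull_point (h : Lab K n ι) (σ : Finset (Fin n)) (z : E)
    (hz : z ∈ convexHull ℝ ((σ.map ⟨ι, h.inj⟩ : Finset E) : Set E)) :
    ∃ x : Fin n → ℝ, (∀ i, 0 ≤ x i) ∧ ∑ i, x i = 1 ∧ (∀ i, i ∉ σ → x i = 0) ∧ bar ι x = z := by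
  classical
  obtain ⟨w, hw0, hw1, hwz⟩ := Finset.mem_convexHull'.1 hz
  rw [Finset.sum_map] at hw1 hwz
  let x : Fin n → ℝ := fun i => if i ∈ σ then w (ι i) else 0
  have hx : ∀ i, i ∉ σ → x i = 0 := fun i hi => if_neg hi
  have hx2 : ∀ i ∈ σ, x i = w (ι i) := fun i hi => if_pos hi
  refine ⟨x, fun i => ?_, ?_, hx, ?_⟩
  · by_cases hi : i ∈ σ
    · rw [hx2 i hi]
      exact hw0 _ (Finset.mem_map.2 ⟨i, hi, rfl⟩)
    · rw [hx i hi]
  · rw [← sum_supp x σ hx, Finset.sum_congr rfl hx2]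
    exact hw1
  · rw [bar_supp ι x σ hx, Finset.sum_congr rfl fun i hi => by rw [hx2 i hi]]
    exact hwz

lemma exists_homeo (h : Lab K n ι) : Nonempty (realization (cx h) ≃ₜ K.space) := by
  classical
  have hmap : ∀ x ∈ realization (cx h), bar ι x ∈ K.space := by
    rintro x ⟨hx0, hx1, σ, hσ, hx⟩
    exact K.convexHull_subset_space (mem_cx' h σ (ne_of_sum x hx1 σ hx) hσ)
      (bar_hull h x hx0 hx1 σ hx)
  let F : realization (cx h) → K.space := fun x => ⟨bar ι x.1, hmap x.1 x.2⟩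
  have hF : Continuous F :=
    Continuous.subtype_mk ((bar_cont ι).comp continuous_subtype_val) _
  have hinj : Function.Injective F := by
    rintro ⟨x, hx0, hx1, σ, hσ, hx⟩ ⟨x', hx0', hx1', σ', hσ', hx'⟩ hxx
    have hb : bar ι x = bar ι x' := congrArg Subtype.val hxx
    have h1 := mem_cx' h σ (ne_of_sum x hx1 σ hx) hσ
    have h2 := mem_cx' h σ' (ne_of_sum x' hx1' σ' hx') hσ'
    have h3 : bar ι x ∈ convexHull ℝ (((σ.map ⟨ι, h.inj⟩ : Finset E) : Set E) ∩
        ((σ'.map ⟨ι, h.inj⟩ : Finset E) : Set E)) :=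
      K.inter_subset_convexHull h1 h2 ⟨bar_hull h x hx0 hx1 σ hx, by
        rw [hb]; exact bar_hull h x' hx0' hx1' σ' hx'⟩
    have h4 : (((σ.map ⟨ι, h.inj⟩ : Finset E) : Set E) ∩
        ((σ'.map ⟨ι, h.inj⟩ : Finset E) : Set E)) =
        (((σ ∩ σ').map ⟨ι, h.inj⟩ : Finset E) : Set E) := by
      rw [Finset.map_inter, Finset.coe_inter]
    rw [h4] at h3
    obtain ⟨x'', _, hx1'', hx'', hb''⟩ := hull_point h (σ ∩ σ') _ h3
    have e1 : x = x'' := aff_uniq h σ h1 x x'' hx1 hx1'' hx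
      (fun i hi => hx'' i fun hh => hi (Finset.mem_inter.1 hh).1) hb''.symm
    have e2 : x' = x'' := aff_uniq h σ' h2 x' x'' hx1' hx1'' hx'
      (fun i hi => hx'' i fun hh => hi (Finset.mem_inter.1 hh).2) (by rw [hb'', hb])
    exact Subtype.ext (e1.trans e2.symm)
  have hsurj : Function.Surjective F := by
    rintro ⟨z, hz⟩
    obtain ⟨s, hs, hzs⟩ := Geometry.SimplicialComplex.mem_space_iff.1 hz
    obtain ⟨σ, hσ, _, rfl⟩ := face_lift h s hs
    obtain ⟨x, hx0, hx1, hx, hxz⟩ := hull_point h σ z hzs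
    exact ⟨⟨x, hx0, hx1, σ, hσ, hx⟩, Subtype.ext hxz⟩
  haveI : CompactSpace (realization (cx h)) :=
    isCompact_iff_compactSpace.1 (realization_compact (cx h))
  exact ⟨Continuous.homeoOfEquivCompactToT2 (f := Equiv.ofBijective F ⟨hinj, hsurj⟩) hF⟩

lemma charts {H : Type} [TopologicalSpace H] (h : Lab K n ι) [ChartedSpace H K.space]
    (x : realization (cx h)) :
    ∃ c : OpenPartialHomeomorph (realization (cx h)) H, x ∈ c.source := by
  obtain ⟨φ⟩ := exists_homeo h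
  refine ⟨φ.transOpenPartialHomeomorph (chartAt H (φ x)), ?_⟩
  show φ x ∈ (chartAt H (φ x)).source
  exact mem_chart_source H (φ x)

lemma half_dense (m : ℕ) (U : Set {w : EE (m + 1) // 0 ≤ w 0}) (hU : IsOpen U)
    (hne : U.Nonempty) : ∃ a ∈ U, a.1 ∈ {w : EE (m + 1) | 0 < w 0} := by
  obtain ⟨a, ha⟩ := hne
  obtain ⟨T, hT, hTU⟩ := isOpen_induced_iff.1 hU
  have haT : a.1 ∈ T := by
    rw [← hTU] at ha
    exact ha
  obtain ⟨δ, hδ, hb⟩ := Metric.isOpen_iff.1 hT a.1 haT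
  let b : EE (m + 1) := EuclideanSpace.single 0 1
  have hb0 : b 0 = 1 := by simp [b]
  have hbn : ‖b‖ = 1 := by simp [b]
  have h1 : 0 < (a.1 + (δ / 2) • b) 0 := by
    rw [PiLp.add_apply, PiLp.smul_apply, hb0, smul_eq_mul, mul_one]
    have := a.2
    linarith
  refine ⟨⟨a.1 + (δ / 2) • b, h1.le⟩, ?_, h1⟩
  rw [← hTU]
  show a.1 + (δ / 2) • b ∈ T
  apply hb
  rw [Metric.mem_ball, dist_eq_norm, add_sub_cancel_left, norm_smul, hbn, mul_one,
    Real.norm_eq_abs, abs_of_pos (by positivity)]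
  linarith

/-- The two properties of the abstract complex of a triangulated manifold. -/
lemma man_data (h : Lab K n ι)
    (hm : ∃ m : ℕ, Nonempty (ChartedSpace (EuclideanSpace ℝ (Fin m)) K.space) ∨
        Nonempty (ChartedSpace (EuclideanHalfSpace (m + 1)) K.space)) :
    ∃ m : ℕ, (∀ (τ : Finset (Fin n)) (k : ℕ), τ.Nonempty → k ≤ m → Acy (cx h) ℤ τ k) ∧
      ∀ σ ∈ (cx h).faces, σ.card ≤ m + 1 := by
  obtain ⟨m, hm | hm⟩ := hm
  · obtain ⟨hm⟩ := hm
    have hch : ∀ x : realization (cx h), ∃ c : OpenPartialHomeomorph (realization (cx h))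
        (EE m), x ∈ c.source := fun x => charts h x
    refine ⟨m, fun τ k hne hk => acy_E (cx h) hch τ hne k hk, ?_⟩
    refine dim_le (cx h) (H := EE m) id Topology.IsEmbedding.id Set.univ isOpen_univ ?_ ?_ hch
    · rw [Set.range_id]
    · intro U _ hne
      obtain ⟨a, ha⟩ := hne
      exact ⟨a, ha, Set.mem_univ _⟩
  · obtain ⟨hm⟩ := hm
    have hch : ∀ x : realization (cx h), ∃ c : OpenPartialHomeomorph (realization (cx h))
        {w : EE (m + 1) // 0 ≤ w 0}, x ∈ c.source :=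
      fun x => charts (H := EuclideanHalfSpace (m + 1)) h x
    refine ⟨m + 1, fun τ k hne hk => acy_H (cx h) 0 hch τ hne k hk, ?_⟩
    refine dim_le (cx h) (H := {w : EE (m + 1) // 0 ≤ w 0}) Subtype.val
      Topology.IsEmbedding.subtypeVal {w | 0 < w 0} ?_ ?_ ?_ hch
    · exact isOpen_lt continuous_const (by fun_prop)
    · intro w hw
      exact ⟨⟨w, le_of_lt hw⟩, rfl⟩
    · exact half_dense m

/-- **The upper bound inequality for triangulated manifolds.** -/
theorem ubc_geo (K : Geometry.SimplicialComplex ℝ E) (hfin : K.faces.Finite)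
    (hm : ∃ m : ℕ, Nonempty (ChartedSpace (EuclideanSpace ℝ (Fin m)) K.space) ∨
        Nonempty (ChartedSpace (EuclideanHalfSpace (m + 1)) K.space))
    (d : ℕ) (hd1 : ∃ σ ∈ K.faces, σ.card = d) (hd2 : ∀ σ ∈ K.faces, σ.card ≤ d)
    (i : ℕ) (hi : i ≤ d) :
    ∑ j ∈ Finset.range (i + 1), (-1 : ℤ) ^ (i - j) * ((Nat.choose (d - j) (i - j) : ℕ) : ℤ) *
        (if j = 0 then (1 : ℤ) else
          ((({σ | σ ∈ K.faces ∧ σ.card = j} : Set (Finset E)).ncard : ℕ) : ℤ)) ≤
      ((Nat.choose (K.vertices.ncard - d + i - 1) i : ℕ) : ℤ) := by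
  classical
  obtain ⟨ι, h⟩ := exists_lab K hfin
  obtain ⟨m, h1, h2⟩ := man_data h hm
  obtain ⟨s, hs, hsd⟩ := hd1
  obtain ⟨B, hB, hBne, hBs⟩ := face_lift h s hs
  have hBd : B.card = d := by rw [← hsd, ← hBs, Finset.card_map]
  have hd : 1 ≤ d := by
    rw [← hBd]
    exact Finset.card_pos.2 (Finset.nonempty_iff_ne_empty.2 hBne)
  have hsmall : ∀ σ ∈ (cx h).faces, σ.card ≤ d := by
    intro σ hσ
    by_cases hne : σ = ∅
    · rw [hne, Finset.card_empty]
      exact Nat.zero_le _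
    · have := hd2 _ (mem_cx' h σ hne hσ)
      rwa [Finset.card_map] at this
  have key := ubc_abs (cx h) m d h1 h2 hsmall hd B hB hBd i hi
  rw [Fintype.card_fin] at key
  refine le_trans (le_of_eq ?_) key
  refine Finset.sum_congr rfl fun j _ => ?_
  rw [mul_assoc]
  congr 2
  by_cases hj : j = 0
  · subst hj
    rw [if_pos rfl]
    have : (cx h).faces.filter (fun σ => σ.card = 0) = {∅} := by
      ext σ
      rw [Finset.mem_filter, Finset.mem_singleton, Finset.card_eq_zero]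
      exact ⟨fun h => h.2, fun hh => ⟨hh ▸ (cx h).empty_mem, hh⟩⟩
    rw [this, Finset.card_singleton]
    rfl
  · rw [if_neg hj, card_faces h j hj]

end geometric

end Pool.Agent.Helper611.UGeo
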