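import Mathlib

set_option autoImplicit false
set_option linter.unusedSectionVars false
set_option linter.unnecessarySimpa false

namespace Pool.Agent.Helper611.Base

open ExteriorAlgebra

/-- A finite simplicial complex with vertices in `V`; the empty face is a face. -/
structure Cx (V : Type) where
  faces : Finset (Finset V)
  empty_mem : ∅ ∈ faces
  down : ∀ σ ∈ faces, ∀ τ, τ ⊆ σ → τ ∈ faces

section definitions
variable {V : Type} [Fintype V] [LinearOrder V]

/-- The sign `(-1)^(number of elements of ρ smaller than x)`. -/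
def sgn (x : V) (ρ : Finset V) : ℤ := (-1) ^ (ρ.filter (· < x)).card

/-- The geometric realisation of `Δ`. -/
def realization (Δ : Cx V) : Set (V → ℝ) :=
  {x | (∀ v, 0 ≤ x v) ∧ ∑ v, x v = 1 ∧ ∃ σ ∈ Δ.faces, ∀ v, v ∉ σ → x v = 0}

/-- Simplicial `n`-balls. -/
def IsBall (Δ : Cx V) (n : ℕ) : Prop :=
  Nonempty (realization Δ ≃ₜ Metric.closedBall (0 : EuclideanSpace ℝ (Fin n)) 1)

end definitions

section signs
variable {V : Type} [Fintype V] [LinearOrder V]

lemma sgn_mul_self (x : V) (ρ : Finset V) : sgn x ρ * sgn x ρ = 1 := by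
  unfold sgn
  rw [← mul_pow]; simp

lemma sgn_insert_lt (x y : V) (ρ : Finset V) (hy : y ∉ ρ) (h : y < x) :
    sgn x (insert y ρ) = - sgn x ρ := by
  unfold sgn
  rw [Finset.filter_insert, if_pos h, Finset.card_insert_of_notMem, pow_succ]
  · ring
  · intro h2; exact hy (Finset.mem_of_mem_filter _ h2)

lemma sgn_insert_gt (x y : V) (ρ : Finset V) (h : ¬ y < x) :
    sgn x (insert y ρ) = sgn x ρ := by
  unfold sgn
  rw [Finset.filter_insert, if_neg h]

lemma sgn_swap (x y : V) (ρ : Finset V) (hxy : x ≠ y) (hx : x ∉ ρ) (hy : y ∉ ρ) :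
    sgn x ρ * sgn y (insert x ρ) = -(sgn y ρ * sgn x (insert y ρ)) := by
  rcases lt_or_gt_of_ne hxy with h | h
  · rw [sgn_insert_lt y x ρ hx h, sgn_insert_gt x y ρ (not_lt.2 h.le)]; ring
  · rw [sgn_insert_lt x y ρ hy h, sgn_insert_gt y x ρ (not_lt.2 h.le)]; ring

lemma sgn_swap' (x y : V) (ρ : Finset V) (hxy : x ≠ y) (hx : x ∉ ρ) (hy : y ∉ ρ) :
    sgn x (insert y ρ) * sgn y ρ = -(sgn y (insert x ρ) * sgn x ρ) := by
  rw [mul_comm, sgn_swap y x ρ hxy.symm hy hx, mul_comm]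

variable {M : Type*} [AddCommGroup M]

lemma sum_anti (s : Finset V) (a : V → V → M)
    (h : ∀ x ∈ s, ∀ y ∈ s, x ≠ y → a x y = - a y x) :
    ∑ x ∈ s, ∑ y ∈ s.erase x, a x y = 0 := by
  have h1 : ∑ x ∈ s, ∑ y ∈ s.erase x, a x y = ∑ z ∈ s.offDiag, a z.1 z.2 := by
    rw [Finset.sum_sigma']
    refine Finset.sum_bij' (fun z _ => (z.1, z.2)) (fun z _ => ⟨z.1, z.2⟩) ?_ ?_ ?_ ?_ ?_
    · rintro ⟨x, y⟩ hz
      simp only [Finset.mem_sigma, Finset.mem_erase] at hz
      exact Finset.mem_offDiag.2 ⟨hz.1, hz.2.2, fun h => hz.2.1 h.symm⟩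
    · rintro ⟨x, y⟩ hz
      have := Finset.mem_offDiag.1 hz
      simp only [Finset.mem_sigma, Finset.mem_erase]
      exact ⟨this.1, fun h => this.2.2 h.symm, this.2.1⟩
    · rintro ⟨x, y⟩ _; rfl
    · rintro ⟨x, y⟩ _; rfl
    · rintro ⟨x, y⟩ _; rfl
  rw [h1]
  refine Finset.sum_involution (fun z _ => (z.2, z.1)) ?_ ?_ ?_ ?_
  · rintro ⟨x, y⟩ hz
    have := Finset.mem_offDiag.1 hz
    show a x y + a y x = 0
    rw [h x this.1 y this.2.1 this.2.2]; simp
  · rintro ⟨x, y⟩ hz _ h2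
    have := Finset.mem_offDiag.1 hz
    exact this.2.2 (congrArg Prod.snd h2)
  · rintro ⟨x, y⟩ hz
    have := Finset.mem_offDiag.1 hz
    exact Finset.mem_offDiag.2 ⟨this.2.1, this.1, this.2.2.symm⟩
  · rintro ⟨x, y⟩ _; rfl

/-- boundary of a chain given as a function on all finite sets of vertices -/
def bd (c : Finset V → M) (ρ : Finset V) : M := ∑ x ∈ ρᶜ, sgn x ρ • c (insert x ρ)

lemma bd_bd (c : Finset V → M) (ρ : Finset V) : bd (bd c) ρ = 0 := by
  unfold bd
  have h1 : ∀ x ∈ ρᶜ, sgn x ρ • ∑ y ∈ (insert x ρ)ᶜ, sgn y (insert x ρ) • c (insert y (insert x ρ))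
      = ∑ y ∈ (ρᶜ).erase x, (sgn x ρ * sgn y (insert x ρ)) • c (insert y (insert x ρ)) := by
    intro x _
    rw [Finset.smul_sum, Finset.compl_insert]
    exact Finset.sum_congr rfl fun y _ => smul_smul _ _ _
  rw [Finset.sum_congr rfl h1]
  apply sum_anti
  intro x hx y hy hxy
  rw [sgn_swap x y ρ hxy (Finset.mem_compl.1 hx) (Finset.mem_compl.1 hy),
    Finset.insert_comm, neg_smul]

lemma bd_add (c c' : Finset V → M) (ρ : Finset V) : bd (c + c') ρ = bd c ρ + bd c' ρ := by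
  simp [bd, Finset.sum_add_distrib]

lemma bd_sub (c c' : Finset V → M) (ρ : Finset V) : bd (c - c') ρ = bd c ρ - bd c' ρ := by
  simp [bd, Finset.sum_sub_distrib, smul_sub]

lemma bd_congr (c c' : Finset V → M) (ρ : Finset V) (h : ∀ σ, ρ ⊆ σ → c σ = c' σ) :
    bd c ρ = bd c' ρ := by
  unfold bd
  exact Finset.sum_congr rfl fun x _ => by rw [h _ (Finset.subset_insert _ _)]

lemma bd_zero (ρ : Finset V) : bd (0 : Finset V → M) ρ = 0 := by
  simp [bd]

/-- Construction of chain maps and homotopies with prescribed carriers. -/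
lemma carrier_lemma {Q : Type*} [AddCommGroup Q] (dd : Q →+ Q)
    (F : Set (Finset V)) (τ : Finset V) (S Z : Finset V → AddSubgroup Q) (κ : ℤ)
    (e : Finset V → Q)
    (hF : ∀ σ ∈ F, ∀ x ∈ σ \ τ, σ.erase x ∈ F)
    (h1 : ∀ σ ∈ F, ∀ x ∈ σ \ τ, S (σ.erase x) ≤ Z σ)
    (h2 : ∀ σ ∈ F, e σ ∈ Z σ)
    (h3 : ∀ σ ∈ F, ∀ z ∈ Z σ, dd z = 0 → ∃ w ∈ S σ, dd w = z)
    (h4 : ∀ σ ∈ F, dd (e σ) = -(κ • ∑ x ∈ σ \ τ, sgn x (σ.erase x) • e (σ.erase x))) :
    ∃ D : Finset V → Q, ∀ σ ∈ F, D σ ∈ S σ ∧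
      dd (D σ) = e σ + κ • ∑ x ∈ σ \ τ, sgn x (σ.erase x) • D (σ.erase x) := by
  have key : ∀ K : ℕ, ∃ D : Finset V → Q, ∀ σ ∈ F, σ.card < K → D σ ∈ S σ ∧
      dd (D σ) = e σ + κ • ∑ x ∈ σ \ τ, sgn x (σ.erase x) • D (σ.erase x) := by
    intro K
    induction K with
    | zero => exact ⟨fun _ => 0, fun σ _ h => absurd h (Nat.not_lt_zero _)⟩
    | succ K ih =>
      obtain ⟨D, hD⟩ := ih
      have step : ∀ σ ∈ F, σ.card = K → ∃ w ∈ S σ,
          dd w = e σ + κ • ∑ x ∈ σ \ τ, sgn x (σ.erase x) • D (σ.erase x) := by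
        intro σ hσ hc
        have hlt : ∀ x ∈ σ \ τ, (σ.erase x).card < K := by
          intro x hx
          rw [← hc]
          exact Finset.card_erase_lt_of_mem (Finset.mem_sdiff.1 hx).1
        refine h3 σ hσ _ ?_ ?_
        · refine AddSubgroup.add_mem _ (h2 σ hσ) (AddSubgroup.zsmul_mem _ ?_ _)
          refine AddSubgroup.sum_mem _ fun x hx => AddSubgroup.zsmul_mem _ ?_ _
          exact h1 σ hσ x hx (hD _ (hF σ hσ x hx) (hlt x hx)).1
        · rw [map_add, map_zsmul, map_sum, h4 σ hσ]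
          have h5 : ∀ x ∈ σ \ τ, dd (sgn x (σ.erase x) • D (σ.erase x)) =
              sgn x (σ.erase x) • e (σ.erase x) +
              κ • ∑ y ∈ (σ \ τ).erase x, (sgn x (σ.erase x) * sgn y ((σ.erase x).erase y)) •
                D ((σ.erase x).erase y) := by
            intro x hx
            rw [map_zsmul, (hD _ (hF σ hσ x hx) (hlt x hx)).2, smul_add, smul_comm _ κ,
              Finset.smul_sum, Finset.erase_sdiff_comm]
            congr 2
            exact Finset.sum_congr rfl fun y _ => smul_smul _ _ _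
          rw [Finset.sum_congr rfl h5, Finset.sum_add_distrib, smul_add, ← Finset.smul_sum,
            sum_anti, smul_zero, smul_zero, add_zero, neg_add_cancel]
          intro x hx y hy hxy
          have hx' := (Finset.mem_sdiff.1 hx).1
          have hy' := (Finset.mem_sdiff.1 hy).1
          have e1 : σ.erase x = insert y ((σ.erase x).erase y) := by
            rw [Finset.insert_erase]
            exact Finset.mem_erase.2 ⟨hxy.symm, hy'⟩
          have e2 : σ.erase y = insert x ((σ.erase x).erase y) := by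
            rw [Finset.erase_right_comm, Finset.insert_erase]
            exact Finset.mem_erase.2 ⟨hxy, hx'⟩
          have e3 : (σ.erase y).erase x = (σ.erase x).erase y := Finset.erase_right_comm
          rw [e3, ← neg_smul]
          congr 1
          have := sgn_swap' x y ((σ.erase x).erase y) hxy (by simp) (by simp)
          rw [← e1, ← e2] at this
          exact this
      choose! w hw using step
      classical
      refine ⟨fun σ => if σ.card = K then w σ else D σ, ?_⟩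
      intro σ hσ hc
      have hne : ∀ x ∈ σ \ τ, (σ.erase x).card ≠ K := by
        intro x hx
        have := Finset.card_erase_lt_of_mem (Finset.mem_sdiff.1 hx).1
        omega
      have hs : ∑ x ∈ σ \ τ, sgn x (σ.erase x) •
          (if (σ.erase x).card = K then w (σ.erase x) else D (σ.erase x)) =
          ∑ x ∈ σ \ τ, sgn x (σ.erase x) • D (σ.erase x) :=
        Finset.sum_congr rfl fun x hx => by rw [if_neg (hne x hx)]
      simp only []
      rw [hs]
      by_cases h : σ.card = K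
      · rw [if_pos h]; exact hw σ hσ h
      · rw [if_neg h]; exact hD σ hσ (by omega)
  obtain ⟨D, hD⟩ := key (Fintype.card V + 1)
  exact ⟨D, fun σ hσ => hD σ hσ (Nat.lt_succ_of_le (Finset.card_le_univ σ))⟩


lemma reidx (τ : Finset V) (f : V → Finset V → Finset V → M) :
    ∑ σ ∈ Finset.univ.filter (fun σ => τ ⊆ σ), ∑ x ∈ σ \ τ, f x (σ.erase x) σ =
    ∑ π ∈ Finset.univ.filter (fun π => τ ⊆ π), ∑ x ∈ πᶜ, f x π (insert x π) := by
  rw [Finset.sum_sigma', Finset.sum_sigma']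
  refine Finset.sum_bij' (fun z _ => ⟨z.1.erase z.2, z.2⟩) (fun z _ => ⟨insert z.2 z.1, z.2⟩)
    ?_ ?_ ?_ ?_ ?_
  · rintro ⟨σ, x⟩ hz
    simp only [Finset.mem_sigma, Finset.mem_filter, Finset.mem_univ, true_and, Finset.mem_sdiff,
      Finset.mem_compl] at hz ⊢
    refine ⟨fun y hy => Finset.mem_erase.2 ⟨?_, hz.1 hy⟩, Finset.notMem_erase _ _⟩
    rintro rfl
    exact hz.2.2 hy
  · rintro ⟨π, x⟩ hz
    simp only [Finset.mem_sigma, Finset.mem_filter, Finset.mem_univ, true_and, Finset.mem_sdiff,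
      Finset.mem_compl] at hz ⊢
    exact ⟨hz.1.trans (Finset.subset_insert _ _), Finset.mem_insert_self _ _,
      fun h => hz.2 (hz.1 h)⟩
  · rintro ⟨σ, x⟩ hz
    simp only [Finset.mem_sigma, Finset.mem_filter, Finset.mem_univ, true_and,
      Finset.mem_sdiff] at hz
    simp only [Finset.insert_erase hz.2.1]
  · rintro ⟨π, x⟩ hz
    simp only [Finset.mem_sigma, Finset.mem_filter, Finset.mem_univ, true_and,
      Finset.mem_compl] at hz
    simp only [Finset.erase_insert hz.2]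
  · rintro ⟨σ, x⟩ hz
    simp only [Finset.mem_sigma, Finset.mem_filter, Finset.mem_univ, true_and,
      Finset.mem_sdiff] at hz
    simp only [Finset.insert_erase hz.2.1]

/-- Exactness, in the degree of the faces with `k` vertices, of the chain complex of the faces
containing `τ`, with coefficients in `M`. -/
def Acy (Δ : Cx V) (M : Type*) [AddCommGroup M] (τ : Finset V) (k : ℕ) : Prop :=
  ∀ c : Finset V → M, (∀ σ, c σ ≠ 0 → σ ∈ Δ.faces ∧ τ ⊆ σ ∧ σ.card = k) →
   (∀ ρ, τ ⊆ ρ → bd c ρ = 0) →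
   ∃ b : Finset V → M, (∀ σ, b σ ≠ 0 → σ ∈ Δ.faces ∧ τ ⊆ σ ∧ σ.card = k + 1) ∧
     ∀ ρ, τ ⊆ ρ → bd b ρ = c ρ

lemma bd_single {R : Type*} [CommRing R] (τ σ ρ : Finset V) (hρ : τ ⊆ ρ) :
    bd (Pi.single σ (1 : R)) ρ =
      ∑ x ∈ σ \ τ, sgn x (σ.erase x) • (Pi.single (σ.erase x) (1 : R) : Finset V → R) ρ := by
  unfold bd
  have h1 : ∑ x ∈ ρᶜ, sgn x ρ • (Pi.single σ (1 : R) : Finset V → R) (insert x ρ) =
      ∑ x : V, if x ∉ ρ ∧ insert x ρ = σ then sgn x ρ • (1 : R) else 0 := by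
    rw [← Finset.sum_filter_add_sum_filter_not Finset.univ (fun x => x ∈ ρᶜ)]
    rw [Finset.sum_eq_zero (s := Finset.univ.filter (fun x => ¬ x ∈ ρᶜ)), add_zero]
    · rw [Finset.filter_univ_mem]
      refine Finset.sum_congr rfl fun x hx => ?_
      have hx' := Finset.mem_compl.1 hx
      by_cases h : insert x ρ = σ
      · rw [if_pos ⟨hx', h⟩, h, Pi.single_eq_same]
      · rw [if_neg (fun h2 => h h2.2), Pi.single_eq_of_ne h, smul_zero]
    · intro x hx
      have hx' : x ∈ ρ := by simpa using hx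
      rw [if_neg (fun h => h.1 hx')]
  have h2 : ∑ x ∈ σ \ τ, sgn x (σ.erase x) • (Pi.single (σ.erase x) (1 : R) : Finset V → R) ρ =
      ∑ x : V, if x ∉ ρ ∧ insert x ρ = σ then sgn x ρ • (1 : R) else 0 := by
    rw [← Finset.sum_filter_add_sum_filter_not Finset.univ (fun x => x ∈ σ \ τ)]
    rw [Finset.sum_eq_zero (s := Finset.univ.filter (fun x => ¬ x ∈ σ \ τ)), add_zero]
    · rw [Finset.filter_univ_mem]
      refine Finset.sum_congr rfl fun x hx => ?_
      have hx' := Finset.mem_sdiff.1 hx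
      by_cases h : x ∉ ρ ∧ insert x ρ = σ
      · rw [if_pos h]
        have : σ.erase x = ρ := by rw [← h.2, Finset.erase_insert h.1]
        rw [this, Pi.single_eq_same]
      · rw [if_neg h, Pi.single_eq_of_ne, smul_zero]
        rintro rfl
        exact h ⟨Finset.notMem_erase _ _, Finset.insert_erase hx'.1⟩
    · intro x hx
      have hx' : ¬ x ∈ σ \ τ := (Finset.mem_filter.1 hx).2
      rw [if_neg]
      rintro ⟨h3, h4⟩
      exact hx' (Finset.mem_sdiff.2 ⟨h4 ▸ Finset.mem_insert_self _ _, fun h => h3 (hρ h)⟩)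
  rw [h1, h2]

lemma acy_change {R : Type*} [CommRing R] {M : Type*} [AddCommGroup M] [Module R M]
    (Δ : Cx V) (τ : Finset V) (K : ℕ)
    (h : ∀ k, k ≤ K → Acy Δ R τ k) : ∀ k, k ≤ K → Acy Δ M τ k := by
  classical
  let supp : (Finset V → Prop) → AddSubgroup (Finset V → R) := fun P =>
    { carrier := {c | ∀ σ, c σ ≠ 0 → P σ}
      add_mem' := by
        intro a b ha hb σ hσ
        by_cases h1 : a σ = 0
        · refine hb σ fun h2 => hσ ?_
          show a σ + b σ = 0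
          rw [h1, h2, add_zero]
        · exact ha σ h1
      zero_mem' := fun σ hσ => absurd rfl hσ
      neg_mem' := by
        intro a ha σ hσ
        exact ha σ fun h => hσ (by show - a σ = 0; rw [h, neg_zero]) }
  let dd : (Finset V → R) →+ (Finset V → R) :=
    { toFun := fun c ρ => if τ ⊆ ρ then bd c ρ else 0
      map_zero' := by funext ρ; simp [bd]
      map_add' := by
        intro a b
        funext ρ
        by_cases hρ : τ ⊆ ρ
        · simp only [if_pos hρ, Pi.add_apply, bd_add]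
        · simp only [if_neg hρ, Pi.add_apply, add_zero] }
  obtain ⟨D, hD⟩ := carrier_lemma dd {σ | σ ∈ Δ.faces ∧ τ ⊆ σ ∧ σ.card ≤ K} τ
    (fun σ => supp fun π => π ∈ Δ.faces ∧ τ ⊆ π ∧ π.card = σ.card + 1)
    (fun σ => supp fun π => π ∈ Δ.faces ∧ τ ⊆ π ∧ π.card = σ.card) (-1)
    (fun σ => Pi.single σ 1)
    (by
      rintro σ ⟨h1, h2, h3⟩ x hx
      have hx' := Finset.mem_sdiff.1 hx
      refine ⟨Δ.down σ h1 _ (Finset.erase_subset _ _), fun y hy => Finset.mem_erase.2
        ⟨?_, h2 hy⟩, (Finset.card_le_card (Finset.erase_subset _ _)).trans h3⟩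
      rintro rfl
      exact hx'.2 hy)
    (by
      rintro σ - x hx
      have hx' := Finset.mem_sdiff.1 hx
      have : (σ.erase x).card + 1 = σ.card := Finset.card_erase_add_one hx'.1
      intro c hc π hπ
      have := hc π hπ
      exact ⟨this.1, this.2.1, by omega⟩)
    (by
      rintro σ ⟨h1, h2, h3⟩ π hπ
      have : π = σ := by
        by_contra h
        exact hπ (Pi.single_eq_of_ne h _)
      subst this
      exact ⟨h1, h2, rfl⟩)
    (by
      rintro σ ⟨h1, h2, h3⟩ z hz hdz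
      obtain ⟨b, hb, hb2⟩ := h σ.card h3 z hz (fun ρ hρ => by
        have := congrFun hdz ρ
        simpa [dd, if_pos hρ] using this)
      refine ⟨b, hb, ?_⟩
      funext ρ
      show (if τ ⊆ ρ then bd b ρ else 0) = z ρ
      by_cases hρ : τ ⊆ ρ
      · rw [if_pos hρ, hb2 ρ hρ]
      · rw [if_neg hρ]
        by_contra h4
        exact hρ (hz ρ (Ne.symm h4)).2.1)
    (by
      rintro σ ⟨h1, h2, h3⟩
      funext ρ
      show (if τ ⊆ ρ then bd (Pi.single σ (1 : R)) ρ else 0) = _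
      rw [neg_smul, neg_neg, one_smul, Finset.sum_apply]
      by_cases hρ : τ ⊆ ρ
      · rw [if_pos hρ, bd_single τ σ ρ hρ]
        rfl
      · rw [if_neg hρ]
        symm
        refine Finset.sum_eq_zero fun x hx => ?_
        have hx' := Finset.mem_sdiff.1 hx
        show sgn x (σ.erase x) • (Pi.single (σ.erase x) (1 : R) : Finset V → R) ρ = 0
        rw [Pi.single_eq_of_ne, smul_zero]
        rintro rfl
        refine hρ fun y hy => Finset.mem_erase.2 ⟨?_, h2 hy⟩
        rintro rfl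
        exact hx'.2 hy)
  intro k hk z hz hdz
  have hzF : ∀ σ, z σ ≠ 0 → σ ∈ {σ | σ ∈ Δ.faces ∧ τ ⊆ σ ∧ σ.card ≤ K} := by
    intro σ hσ
    have := hz σ hσ
    exact ⟨this.1, this.2.1, by omega⟩
  let T : Finset (Finset V) := Finset.univ.filter (fun σ => τ ⊆ σ)
  refine ⟨fun σ' => ∑ σ ∈ T, (D σ σ') • z σ, ?_, ?_⟩
  · intro σ' hσ'
    obtain ⟨σ, hσT, hσ⟩ := Finset.exists_ne_zero_of_sum_ne_zero hσ'
    have hz0 : z σ ≠ 0 := fun h0 => hσ (by rw [h0, smul_zero])
    have hD0 : D σ σ' ≠ 0 := fun h0 => hσ (by rw [h0, zero_smul])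
    have := (hD σ (hzF σ hz0)).1 σ' hD0
    exact ⟨this.1, this.2.1, by rw [this.2.2, (hz σ hz0).2.2]⟩
  · intro ρ hρ
    have e1 : bd (fun σ' => ∑ σ ∈ T, (D σ σ') • z σ) ρ = ∑ σ ∈ T, (bd (D σ) ρ) • z σ := by
      unfold bd
      rw [Finset.sum_congr rfl (fun x _ => Finset.smul_sum), Finset.sum_comm]
      refine Finset.sum_congr rfl fun σ _ => ?_
      rw [Finset.sum_smul]
      refine Finset.sum_congr rfl fun x _ => ?_
      rw [smul_assoc]
    rw [e1]
    have e2 : ∀ σ ∈ T, (bd (D σ) ρ) • z σ = (Pi.single σ (1 : R) : Finset V → R) ρ • z σ -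
        ∑ x ∈ σ \ τ, sgn x (σ.erase x) • (D (σ.erase x) ρ) • z σ := by
      intro σ hσ
      by_cases h0 : z σ = 0
      · simp [h0]
      · have h5 := congrFun (hD σ (hzF σ h0)).2 ρ
        have h6 : (if τ ⊆ ρ then bd (D σ) ρ else 0) = _ := h5
        rw [if_pos hρ] at h6
        rw [h6]
        rw [neg_smul, one_smul, ← sub_eq_add_neg, Pi.sub_apply, sub_smul, Finset.sum_apply,
          Finset.sum_smul]
        congr 1
        refine Finset.sum_congr rfl fun x _ => ?_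
        rw [Pi.smul_apply, smul_assoc]
    rw [Finset.sum_congr rfl e2, Finset.sum_sub_distrib]
    have e3 : ∑ σ ∈ T, (Pi.single σ (1 : R) : Finset V → R) ρ • z σ = z ρ := by
      rw [Finset.sum_eq_single ρ]
      · rw [Pi.single_eq_same, one_smul]
      · intro σ _ hσ
        rw [Pi.single_eq_of_ne (Ne.symm hσ), zero_smul]
      · intro h7
        exact absurd (Finset.mem_filter.2 ⟨Finset.mem_univ _, hρ⟩) h7
    have e4 : ∑ σ ∈ T, ∑ x ∈ σ \ τ, sgn x (σ.erase x) • (D (σ.erase x) ρ) • z σ = 0 := by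
      rw [reidx τ (fun x π σ => sgn x π • (D π ρ) • z σ)]
      refine Finset.sum_eq_zero fun π hπ => ?_
      have hπ' := (Finset.mem_filter.1 hπ).2
      have h8 := hdz π hπ'
      unfold bd at h8
      have : ∑ x ∈ πᶜ, sgn x π • D π ρ • z (insert x π) =
          D π ρ • ∑ x ∈ πᶜ, sgn x π • z (insert x π) := by
        rw [Finset.smul_sum]
        exact Finset.sum_congr rfl fun x _ => smul_comm _ _ _
      rw [this, h8, smul_zero]
    rw [e3, e4, sub_zero]


lemma bd_map {M' : Type*} [AddCommGroup M'] (f : M →+ M') (c : Finset V → M) (ρ : Finset V) :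
    bd (fun σ => f (c σ)) ρ = f (bd c ρ) := by
  unfold bd
  rw [map_sum]
  exact Finset.sum_congr rfl fun x _ => (map_zsmul f _ _).symm

end signs

section algebra
variable {E : Type} [AddCommGroup E] [Module ℝ E]

/-- right contraction by a functional -/
noncomputable def ctr (f : Module.Dual ℝ E) (a : ExteriorAlgebra ℝ E) : ExteriorAlgebra ℝ E :=
  CliffordAlgebra.contractRight (Q := (0 : QuadraticForm ℝ E)) a f

lemma ctr_mul_ι (f : Module.Dual ℝ E) (a : ExteriorAlgebra ℝ E) (v : E) :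
    ctr f (a * ι ℝ v) = f v • a - ctr f a * ι ℝ v :=
  CliffordAlgebra.contractRight_mul_ι (Q := (0 : QuadraticForm ℝ E)) f v a

lemma ctr_add (f : Module.Dual ℝ E) (a b : ExteriorAlgebra ℝ E) :
    ctr f (a + b) = ctr f a + ctr f b := by
  simp [ctr]

lemma ctr_zero (f : Module.Dual ℝ E) : ctr f 0 = 0 := by
  simp [ctr]

lemma ctr_mem (f : Module.Dual ℝ E) : ∀ (n : ℕ) (a : ExteriorAlgebra ℝ E),
    a ∈ ⋀[ℝ]^(n + 1) E → ctr f a ∈ ⋀[ℝ]^n E := by
  intro n
  induction n with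
  | zero =>
    intro a ha
    rw [exteriorPower, zero_add, pow_one] at ha
    obtain ⟨v, rfl⟩ := ha
    have : ctr f (ι ℝ v) = algebraMap ℝ _ (f v) :=
      CliffordAlgebra.contractRight_ι (Q := (0 : QuadraticForm ℝ E)) f v
    rw [this, exteriorPower, pow_zero]
    exact Submodule.algebraMap_mem _
  | succ n ih =>
    intro a ha
    rw [exteriorPower, pow_succ] at ha
    refine Submodule.mul_induction_on ha ?_ ?_
    · rintro b hb _ ⟨v, rfl⟩
      rw [ctr_mul_ι]
      refine Submodule.sub_mem _ (Submodule.smul_mem _ _ hb) ?_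
      rw [exteriorPower, pow_succ]
      exact Submodule.mul_mem_mul (ih b hb) ⟨v, rfl⟩
    · intro x y hx hy
      rw [ctr_add]
      exact Submodule.add_mem _ hx hy

lemma ι_anti (a : ExteriorAlgebra ℝ E) (x y : E) :
    a * ι ℝ x * ι ℝ y = - (a * ι ℝ y * ι ℝ x) := by
  have h := ι_add_mul_swap (R := ℝ) x y
  have h2 : ι ℝ x * ι ℝ y = - (ι ℝ y * ι ℝ x) := eq_neg_of_add_eq_zero_left h
  rw [mul_assoc, h2, mul_neg, mul_assoc]

lemma mul_ι_mem (s : ℕ) (a : ExteriorAlgebra ℝ E) (ha : a ∈ ⋀[ℝ]^s E) (v : E) :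
    a * ι ℝ v ∈ ⋀[ℝ]^(s + 1) E := by
  rw [exteriorPower, pow_succ]
  exact Submodule.mul_mem_mul ha ⟨v, rfl⟩

/-- division by a vector -/
lemma div_one (s : ℕ) (a : ExteriorAlgebra ℝ E) (ha : a ∈ ⋀[ℝ]^(s + 1) E) (v : E)
    (f : Module.Dual ℝ E) (hf : f v = 1) (hv : a * ι ℝ v = 0) :
    ctr f a ∈ ⋀[ℝ]^s E ∧ ctr f a * ι ℝ v = a ∧
      ∀ x, f x = 0 → a * ι ℝ x = 0 → ctr f a * ι ℝ x = 0 := by
  refine ⟨ctr_mem f s a ha, ?_, ?_⟩
  · have h := ctr_mul_ι f a v
    rw [hv, ctr_zero, hf, one_smul] at h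
    exact (sub_eq_zero.mp h.symm).symm
  · intro x hx hx2
    have h := ctr_mul_ι f a x
    rw [hx2, ctr_zero, hx, zero_smul, zero_sub] at h
    exact neg_eq_zero.mp h.symm

lemma ext_top [FiniteDimensional ℝ E] (s : ℕ) (hs : Module.finrank ℝ E < s)
    (a : ExteriorAlgebra ℝ E) (ha : a ∈ ⋀[ℝ]^s E) : a = 0 := by
  have h : Module.finrank ℝ (⋀[ℝ]^s E) = 0 := by
    rw [exteriorPower.finrank_eq, Nat.choose_eq_zero_of_lt hs]
  have h2 : Subsingleton (⋀[ℝ]^s E) := Module.finrank_zero_iff.1 h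
  have := congrArg Subtype.val (Subsingleton.elim (⟨a, ha⟩ : ⋀[ℝ]^s E) 0)
  exact this

end algebra

section ordered
variable {Y Y' : Type}

/-- put a point in front of every list -/
noncomputable def cns (y : Y) : (List Y →₀ ℝ) →ₗ[ℝ] (List Y →₀ ℝ) :=
  Finsupp.lmapDomain ℝ ℝ (List.cons y)

/-- the ordered boundary of a list -/
noncomputable def dl : List Y → (List Y →₀ ℝ)
  | [] => 0
  | y :: l => Finsupp.single l 1 - cns y (dl l)

/-- the ordered boundary -/
noncomputable def dd : (List Y →₀ ℝ) →ₗ[ℝ] (List Y →₀ ℝ) := Finsupp.linearCombination ℝ dl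

lemma dd_single (l : List Y) : dd (Finsupp.single l 1) = dl l := by
  simp [dd]

lemma cns_single (y : Y) (l : List Y) (a : ℝ) :
    cns y (Finsupp.single l a) = Finsupp.single (y :: l) a := by
  simp [cns]

lemma lin_ext {M : Type*} [AddCommGroup M] [Module ℝ M] (f g : (List Y →₀ ℝ) →ₗ[ℝ] M)
    (h : ∀ l, f (Finsupp.single l 1) = g (Finsupp.single l 1)) (c : List Y →₀ ℝ) : f c = g c := by
  have : f = g := by
    apply Finsupp.lhom_ext
    intro l a
    have h1 : (Finsupp.single l a : List Y →₀ ℝ) = a • Finsupp.single l 1 := by simp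
    rw [h1, map_smul, map_smul, h l]
  rw [this]

lemma dd_cns (y : Y) (c : List Y →₀ ℝ) : dd (cns y c) = c - cns y (dd c) := by
  refine lin_ext (dd ∘ₗ cns y) (LinearMap.id - cns y ∘ₗ dd) (fun l => ?_) c
  simp only [LinearMap.comp_apply, LinearMap.sub_apply, LinearMap.id_apply, cns_single, dd_single]
  rfl

lemma dd_dl (l : List Y) : dd (dl l) = 0 := by
  induction l with
  | nil => simp [dl]
  | cons y l ih =>
    show dd (Finsupp.single l 1 - cns y (dl l)) = 0
    rw [map_sub, dd_cns, ih, map_zero, sub_zero, dd_single, sub_self]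

lemma dd_dd (c : List Y →₀ ℝ) : dd (dd c) = 0 := by
  refine lin_ext (dd ∘ₗ dd) 0 (fun l => ?_) c
  rw [LinearMap.comp_apply, dd_single, dd_dl]; rfl

/-- the map induced by a map of points -/
noncomputable def mp (f : Y → Y') : (List Y →₀ ℝ) →ₗ[ℝ] (List Y' →₀ ℝ) :=
  Finsupp.lmapDomain ℝ ℝ (List.map f)

lemma mp_single (f : Y → Y') (l : List Y) (a : ℝ) :
    mp f (Finsupp.single l a) = Finsupp.single (l.map f) a := by
  simp [mp]

lemma mp_cns (f : Y → Y') (y : Y) (c : List Y →₀ ℝ) : mp f (cns y c) = cns (f y) (mp f c) := by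
  refine lin_ext (mp f ∘ₗ cns y) (cns (f y) ∘ₗ mp f) (fun l => ?_) c
  simp only [LinearMap.comp_apply, cns_single, mp_single, List.map_cons]

lemma dl_map (f : Y → Y') (l : List Y) : dl (l.map f) = mp f (dl l) := by
  induction l with
  | nil => simp [dl]
  | cons y l ih =>
    show Finsupp.single (l.map f) 1 - cns (f y) (dl (l.map f)) =
      mp f (Finsupp.single l 1 - cns y (dl l))
    rw [map_sub, mp_cns, mp_single, ih]

lemma dd_mp (f : Y → Y') (c : List Y →₀ ℝ) : dd (mp f c) = mp f (dd c) := by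
  refine lin_ext (dd ∘ₗ mp f) (mp f ∘ₗ dd) (fun l => ?_) c
  simp only [LinearMap.comp_apply, mp_single, dd_single, dl_map]

lemma mp_id (c : List Y →₀ ℝ) : mp (fun y => y) c = c := by
  refine lin_ext (mp (fun y => y)) LinearMap.id (fun l => ?_) c
  rw [mp_single]; simp

/-- the prism on a list -/
noncomputable def prl (f g : Y → Y') : List Y → (List Y' →₀ ℝ)
  | [] => 0
  | y :: l => Finsupp.single (f y :: g y :: l.map g) 1 - cns (f y) (prl f g l)

/-- the prism operator -/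
noncomputable def pr (f g : Y → Y') : (List Y →₀ ℝ) →ₗ[ℝ] (List Y' →₀ ℝ) :=
  Finsupp.linearCombination ℝ (prl f g)

lemma pr_single (f g : Y → Y') (l : List Y) : pr f g (Finsupp.single l 1) = prl f g l := by
  simp [pr]

lemma pr_cns (f g : Y → Y') (y : Y) (c : List Y →₀ ℝ) :
    pr f g (cns y c) = cns (f y) (cns (g y) (mp g c)) - cns (f y) (pr f g c) := by
  refine lin_ext (pr f g ∘ₗ cns y)
    (cns (f y) ∘ₗ cns (g y) ∘ₗ mp g - cns (f y) ∘ₗ pr f g) (fun l => ?_) c
  simp only [LinearMap.comp_apply, LinearMap.sub_apply, cns_single, pr_single, mp_single]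
  rfl

lemma prism_l (f g : Y → Y') (l : List Y) : dd (prl f g l) + pr f g (dl l) =
    Finsupp.single (l.map g) 1 - Finsupp.single (l.map f) 1 := by
  induction l with
  | nil => simp [prl, dl]
  | cons y l ih =>
    show dd (Finsupp.single (f y :: g y :: l.map g) 1 - cns (f y) (prl f g l)) +
      pr f g (Finsupp.single l 1 - cns y (dl l)) = _
    have h1 : dd (Finsupp.single (f y :: g y :: l.map g) (1 : ℝ)) =
        Finsupp.single (g y :: l.map g) 1 -
          (Finsupp.single (f y :: l.map g) 1 - cns (f y) (cns (g y) (mp g (dl l)))) := by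
      rw [dd_single]
      show Finsupp.single (g y :: l.map g) 1 - cns (f y) (Finsupp.single (l.map g) 1 -
        cns (g y) (dl (l.map g))) = _
      rw [map_sub, cns_single, dl_map]
    rw [map_sub, map_sub, h1, dd_cns, pr_cns, pr_single]
    have h2 : cns (f y) (dd (prl f g l)) + cns (f y) (pr f g (dl l)) =
        Finsupp.single (f y :: l.map g) 1 - Finsupp.single (f y :: l.map f) 1 := by
      rw [← map_add, ih, map_sub, cns_single, cns_single]
    rw [List.map_cons, List.map_cons]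
    have h3 : cns (f y) (dd (prl f g l)) =
        Finsupp.single (f y :: l.map g) 1 - Finsupp.single (f y :: l.map f) 1 -
          cns (f y) (pr f g (dl l)) := by rw [← h2]; abel
    rw [h3]
    abel

lemma prism (f g : Y → Y') (c : List Y →₀ ℝ) :
    dd (pr f g c) = mp g c - mp f c - pr f g (dd c) := by
  refine lin_ext (dd ∘ₗ pr f g) (mp g - mp f - pr f g ∘ₗ dd) (fun l => ?_) c
  simp only [LinearMap.comp_apply, LinearMap.sub_apply, pr_single, mp_single, dd_single]
  rw [← prism_l]; abel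

/-- chains supported on a set of lists -/
noncomputable abbrev SC (S : Set (List Y)) : Submodule ℝ (List Y →₀ ℝ) := Finsupp.supported ℝ ℝ S

lemma lin_mem {M : Type*} [AddCommGroup M] [Module ℝ M] (f : (List Y →₀ ℝ) →ₗ[ℝ] M)
    (S : Set (List Y)) (P : Submodule ℝ M) (h : ∀ l ∈ S, f (Finsupp.single l 1) ∈ P)
    (c : List Y →₀ ℝ) (hc : c ∈ SC S) : f c ∈ P := by
  have h2 : SC S ≤ P.comap f := by
    unfold SC
    rw [Finsupp.supported_eq_span_single]
    refine Submodule.span_le.2 ?_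
    rintro _ ⟨l, hl, rfl⟩
    exact h l hl
  exact h2 hc

lemma SC_single (S : Set (List Y)) (l : List Y) (h : l ∈ S) :
    (Finsupp.single l (1 : ℝ)) ∈ SC S := Finsupp.single_mem_supported ℝ 1 h

lemma SC_mono {S T : Set (List Y)} (h : S ⊆ T) {c : List Y →₀ ℝ} (hc : c ∈ SC S) : c ∈ SC T :=
  Finsupp.supported_mono h hc

lemma cns_mem (S T : Set (List Y)) (y : Y) (h : ∀ l ∈ S, y :: l ∈ T) (c : List Y →₀ ℝ)
    (hc : c ∈ SC S) : cns y c ∈ SC T :=
  lin_mem (cns y) S (SC T) (fun l hl => by rw [cns_single]; exact SC_single _ _ (h l hl)) c hc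

lemma mp_mem (S : Set (List Y)) (T : Set (List Y')) (f : Y → Y') (h : ∀ l ∈ S, l.map f ∈ T)
    (c : List Y →₀ ℝ) (hc : c ∈ SC S) : mp f c ∈ SC T :=
  lin_mem (mp f) S (SC T) (fun l hl => by rw [mp_single]; exact SC_single _ _ (h l hl)) c hc

lemma dl_supp (l : List Y) : dl l ∈ SC {l' : List Y | l' ⊆ l} := by
  induction l with
  | nil => exact Submodule.zero_mem _
  | cons y l ih =>
    refine Submodule.sub_mem _ (SC_single _ _ (List.subset_cons_self y l)) ?_
    refine cns_mem _ _ y (fun l' hl' => ?_) _ ih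
    exact List.cons_subset_cons y hl'

lemma prl_supp (f g : Y → Y') (l : List Y) :
    prl f g l ∈ SC {l' : List Y' | ∀ y ∈ l', ∃ x ∈ l, y = f x ∨ y = g x} := by
  induction l with
  | nil => exact Submodule.zero_mem _
  | cons y l ih =>
    refine Submodule.sub_mem _ (SC_single _ _ ?_) ?_
    · intro z hz
      rcases List.mem_cons.1 hz with rfl | hz
      · exact ⟨y, List.mem_cons_self, Or.inl rfl⟩
      · rcases List.mem_cons.1 hz with rfl | hz
        · exact ⟨y, List.mem_cons_self, Or.inr rfl⟩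
        · obtain ⟨x, hx, rfl⟩ := List.mem_map.1 hz
          exact ⟨x, List.mem_cons_of_mem _ hx, Or.inr rfl⟩
    · refine cns_mem _ _ (f y) (fun l' hl' => ?_) _ ih
      intro z hz
      rcases List.mem_cons.1 hz with rfl | hz
      · exact ⟨y, List.mem_cons_self, Or.inl rfl⟩
      · obtain ⟨x, hx, h⟩ := hl' z hz
        exact ⟨x, List.mem_cons_of_mem _ hx, h⟩

lemma dd_mem (S : Set (List Y)) (hS : ∀ l ∈ S, ∀ l', l' ⊆ l → l' ∈ S) (c : List Y →₀ ℝ)
    (hc : c ∈ SC S) : dd c ∈ SC S :=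
  lin_mem dd S (SC S) (fun l hl => by
    rw [dd_single]; exact SC_mono (fun l' hl' => hS l hl l' hl') (dl_supp l)) c hc

end ordered

section rips
variable {F : Type} [NormedAddCommGroup F] [NormedSpace ℝ F]

/-- lists of pairwise close points of `K` -/
def Sm (δ : ℝ) (K : Set F) : Set (List F) :=
  {l | (∀ a ∈ l, a ∈ K) ∧ ∀ a ∈ l, ∀ b ∈ l, dist a b < δ}

lemma Sm_sub (δ : ℝ) (K : Set F) : ∀ l ∈ Sm δ K, ∀ l', l' ⊆ l → l' ∈ Sm δ K := by
  intro l hl l' h
  exact ⟨fun a ha => hl.1 a (h ha), fun a ha b hb => hl.2 a (h ha) b (h hb)⟩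

lemma Sm_mono (δ : ℝ) {K K' : Set F} (h : K ⊆ K') : Sm δ K ⊆ Sm δ K' :=
  fun _ hl => ⟨fun a ha => h (hl.1 a ha), hl.2⟩

lemma gap (δ : ℝ) (P : Finset (F × F)) (h : ∀ q ∈ P, dist q.1 q.2 < δ) :
    ∃ ε > 0, ∀ q ∈ P, dist q.1 q.2 + ε < δ := by
  classical
  induction P using Finset.induction_on with
  | empty => exact ⟨1, one_pos, fun q hq => absurd hq (Finset.notMem_empty q)⟩
  | insert a P _ ih =>
    obtain ⟨ε, hε, h1⟩ := ih (fun q hq => h q (Finset.mem_insert_of_mem hq))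
    have h2 := h a (Finset.mem_insert_self _ _)
    refine ⟨min ε ((δ - dist a.1 a.2) / 2), lt_min hε (by linarith), ?_⟩
    intro q hq
    rcases Finset.mem_insert.1 hq with rfl | hq
    · have := min_le_right ε ((δ - dist q.1 q.2) / 2)
      linarith
    · have := min_le_left ε ((δ - dist a.1 a.2) / 2)
      have := h1 q hq
      linarith

lemma bnd (P : Finset (F × F)) : ∃ D > 0, ∀ q ∈ P, dist q.1 q.2 ≤ D := by
  classical
  induction P using Finset.induction_on with
  | empty => exact ⟨1, one_pos, fun q hq => absurd hq (Finset.notMem_empty q)⟩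
  | insert a P _ ih =>
    obtain ⟨D, hD, h1⟩ := ih
    refine ⟨max D (dist a.1 a.2), lt_max_of_lt_left hD, ?_⟩
    intro q hq
    rcases Finset.mem_insert.1 hq with rfl | hq
    · exact le_max_right _ _
    · exact (h1 q hq).trans (le_max_left _ _)

/-- move towards `q` -/
def mv (q : F) (t : ℝ) (y : F) : F := y + t • (q - y)

lemma mv_dist (q : F) (t t' : ℝ) (h0 : 0 ≤ t) (h1 : t ≤ 1) (a b : F) :
    dist (mv q t a) (mv q t' b) ≤ dist a b + |t' - t| * dist b q := by
  have h2 : mv q t a - mv q t' b = (1 - t) • (a - b) + (t' - t) • (b - q) := by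
    unfold mv; module
  rw [dist_eq_norm, h2]
  refine (norm_add_le _ _).trans ?_
  rw [norm_smul, norm_smul, dist_eq_norm, dist_eq_norm]
  have h3 : ‖(1 - t)‖ ≤ 1 := by
    rw [Real.norm_eq_abs, abs_le]; constructor <;> linarith
  have h4 := mul_le_mul_of_nonneg_right h3 (norm_nonneg (a - b))
  rw [one_mul] at h4
  rw [Real.norm_eq_abs (t' - t)]
  linarith

lemma mv_mem (K : Set F) (hK : Convex ℝ K) (q : F) (hq : q ∈ K) (t : ℝ) (h0 : 0 ≤ t) (h1 : t ≤ 1)
    (a : F) (ha : a ∈ K) : mv q t a ∈ K := by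
  have : mv q t a = (1 - t) • a + t • q := by unfold mv; module
  rw [this]
  exact hK ha hq (by linarith) h0 (by ring)

lemma rips_acyclic (δ : ℝ) (hδ : 0 < δ) (K : Set F) (hK : Convex ℝ K) (q : F) (hq : q ∈ K)
    (z : List F →₀ ℝ) (hz : z ∈ SC (Sm δ K)) (hdz : dd z = 0) :
    ∃ w ∈ SC (Sm δ K), dd w = z := by
  classical
  let P : Finset (F × F) := z.support.biUnion fun l => l.toFinset ×ˢ l.toFinset
  have hzl : ∀ l ∈ z.support, l ∈ Sm δ K := fun l hl => hz hl
  have hP : ∀ l ∈ z.support, ∀ a ∈ l, ∀ b ∈ l, (a, b) ∈ P := by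
    intro l hl a ha b hb
    exact Finset.mem_biUnion.2 ⟨l, hl, Finset.mem_product.2
      ⟨List.mem_toFinset.2 ha, List.mem_toFinset.2 hb⟩⟩
  obtain ⟨ε, hε, hgap⟩ := gap δ P (by
    intro x hx
    obtain ⟨l, hl, h⟩ := Finset.mem_biUnion.1 hx
    have h1 := Finset.mem_product.1 h
    exact (hzl l hl).2 _ (List.mem_toFinset.1 h1.1) _ (List.mem_toFinset.1 h1.2))
  obtain ⟨D, hD, hbnd⟩ := bnd (P.image fun x => (x.1, q))
  obtain ⟨N, hN⟩ := exists_nat_gt (D / ε)
  have hN0 : 0 < (N : ℝ) := lt_of_le_of_lt (div_nonneg hD.le hε.le) hN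
  have hDN : D / N < ε := by
    rw [div_lt_iff₀ hε] at hN
    rw [div_lt_iff₀ hN0]
    linarith
  have hzs : z ∈ SC (z.support : Set (List F)) := fun _ h => h
  have hclose : ∀ l ∈ z.support, ∀ a ∈ l, ∀ b ∈ l, ∀ t t' : ℝ, 0 ≤ t → t ≤ 1 → |t' - t| ≤ 1 / N →
      dist (mv q t a) (mv q t' b) < δ := by
    intro l hl a ha b hb t t' h0 h1 h2
    have h3 := mv_dist q t t' h0 h1 a b
    have h4 := hgap (a, b) (hP l hl a ha b hb)
    have h5 : dist b q ≤ D := hbnd (b, q) (Finset.mem_image.2 ⟨(b, a), hP l hl b hb a ha, rfl⟩)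
    have h6 : |t' - t| * dist b q ≤ 1 / N * D :=
      mul_le_mul h2 h5 dist_nonneg (by positivity)
    have h7 : 1 / N * D = D / N := by ring
    simp only at h4
    linarith
  have key : ∀ j : ℕ, j ≤ N → ∃ w ∈ SC (Sm δ K), dd w = mp (mv q ((j : ℝ) / N)) z - z := by
    intro j
    induction j with
    | zero =>
      intro _
      refine ⟨0, Submodule.zero_mem _, ?_⟩
      have h1 : (mv q (((0 : ℕ) : ℝ) / N)) = fun y => y := by
        funext y; simp [mv]
      rw [h1, mp_id, map_zero, sub_self]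
    | succ j ih =>
      intro hj
      obtain ⟨w, hw, hw2⟩ := ih (by omega)
      have hjN : (j : ℝ) + 1 ≤ N := by exact_mod_cast hj
      have t0 : (0 : ℝ) ≤ (j : ℝ) / N := by positivity
      have t1 : (j : ℝ) / N ≤ 1 := by rw [div_le_one hN0]; linarith
      have t0' : (0 : ℝ) ≤ ((j + 1 : ℕ) : ℝ) / N := by positivity
      have t1' : ((j + 1 : ℕ) : ℝ) / N ≤ 1 := by
        rw [div_le_one hN0]; push_cast; linarith
      have hd : |((j + 1 : ℕ) : ℝ) / N - (j : ℝ) / N| ≤ 1 / N := by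
        rw [← sub_div]; push_cast
        rw [add_sub_cancel_left, abs_of_nonneg (by positivity)]
      have hd' : |(j : ℝ) / N - ((j + 1 : ℕ) : ℝ) / N| ≤ 1 / N := by
        rw [abs_sub_comm]; exact hd
      have hz0 : |(j : ℝ) / N - (j : ℝ) / N| ≤ 1 / N := by
        rw [sub_self, abs_zero]; positivity
      have hz1 : |((j + 1 : ℕ) : ℝ) / N - ((j + 1 : ℕ) : ℝ) / N| ≤ 1 / N := by
        rw [sub_self, abs_zero]; positivity
      refine ⟨pr (mv q ((j : ℝ) / N)) (mv q (((j + 1 : ℕ) : ℝ) / N)) z + w,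
        Submodule.add_mem _ ?_ hw, ?_⟩
      · refine lin_mem _ (z.support : Set (List F)) _ (fun l hl => ?_) z hzs
        rw [pr_single]
        refine SC_mono ?_ (prl_supp _ _ l)
        intro l' hl'
        have hlS := hzl l hl
        refine ⟨?_, ?_⟩
        · intro y hy
          obtain ⟨x, hx, rfl | rfl⟩ := hl' y hy
          · exact mv_mem K hK q hq _ t0 t1 x (hlS.1 x hx)
          · exact mv_mem K hK q hq _ t0' t1' x (hlS.1 x hx)
        · intro a ha b hb
          obtain ⟨x, hx, rfl | rfl⟩ := hl' a ha <;> obtain ⟨y, hy, rfl | rfl⟩ := hl' b hb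
          · exact hclose l hl x hx y hy _ _ t0 t1 hz0
          · exact hclose l hl x hx y hy _ _ t0 t1 hd
          · exact hclose l hl x hx y hy _ _ t0' t1' hd'
          · exact hclose l hl x hx y hy _ _ t0' t1' hz1
      · rw [map_add, prism, hw2, hdz, map_zero]
        abel
  obtain ⟨w, hw, hw2⟩ := key N le_rfl
  have h1 : ((N : ℕ) : ℝ) / N = 1 := div_self (ne_of_gt hN0)
  rw [h1] at hw2
  have h2 : ∀ l ∈ (z.support : Set (List F)), l.map (mv q 1) ∈ {l : List F | ∀ a ∈ l, a = q} := by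
    intro l _ a ha
    obtain ⟨x, _, rfl⟩ := List.mem_map.1 ha
    simp [mv]
  have h3 := mp_mem _ _ (mv q 1) h2 z hzs
  refine ⟨cns q (mp (mv q 1) z) - w, Submodule.sub_mem _ ?_ hw, ?_⟩
  · refine cns_mem _ _ q (fun l hl => ?_) _ h3
    have h4 : ∀ a ∈ q :: l, a = q := by
      intro a ha
      rcases List.mem_cons.1 ha with h | h
      · exact h
      · exact hl a h
    refine ⟨fun a ha => by rw [h4 a ha]; exact hq, fun a ha b hb => ?_⟩
    rw [h4 a ha, h4 b hb, dist_self]; exact hδ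
  · rw [map_sub, dd_cns, dd_mp, hdz, map_zero, map_zero, sub_zero, hw2]
    abel

end rips

section alternate
variable {V : Type} [Fintype V] [LinearOrder V]

/-- put a vertex in front of an alternating chain -/
def wdg (x : V) (c : Finset V → ℝ) (σ : Finset V) : ℝ :=
  if x ∈ σ then sgn x (σ.erase x) • c (σ.erase x) else 0

lemma sgn_empty (x : V) : sgn x ∅ = 1 := by simp [sgn]

lemma sgn_smul_smul (x : V) (ρ : Finset V) (a : ℝ) : sgn x ρ • sgn x ρ • a = a := by
  rw [smul_smul, sgn_mul_self, one_smul]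

lemma bd_wdg (x : V) (c : Finset V → ℝ) (ρ : Finset V) :
    bd (wdg x c) ρ = c ρ - wdg x (bd c) ρ := by
  by_cases hx : x ∈ ρ
  · obtain ⟨π, hπ, rfl⟩ : ∃ π, x ∉ π ∧ insert x π = ρ :=
      ⟨ρ.erase x, Finset.notMem_erase _ _, Finset.insert_erase hx⟩
    have h1 : wdg x (bd c) (insert x π) = c (insert x π) +
        ∑ y ∈ (insert x π)ᶜ, (sgn x π * sgn y π) • c (insert y π) := by
      unfold wdg
      rw [if_pos (Finset.mem_insert_self _ _), Finset.erase_insert hπ]
      unfold bd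
      rw [← Finset.add_sum_erase _ _ (Finset.mem_compl.2 hπ), smul_add, sgn_smul_smul,
        Finset.compl_insert, Finset.smul_sum]
      congr 1
      exact Finset.sum_congr rfl fun y _ => smul_smul _ _ _
    have h2 : bd (wdg x c) (insert x π) =
        - ∑ y ∈ (insert x π)ᶜ, (sgn x π * sgn y π) • c (insert y π) := by
      unfold bd
      rw [← Finset.sum_neg_distrib]
      refine Finset.sum_congr rfl fun y hy => ?_
      have hy' := Finset.mem_compl.1 hy
      have hyx : y ≠ x := fun h => hy' (h ▸ Finset.mem_insert_self _ _)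
      have hyπ : y ∉ π := fun h => hy' (Finset.mem_insert_of_mem h)
      unfold wdg
      have h3 : (insert y (insert x π)).erase x = insert y π := by
        rw [Finset.insert_comm, Finset.erase_insert]
        intro h
        rcases Finset.mem_insert.1 h with h | h
        · exact hyx h.symm
        · exact hπ h
      rw [if_pos (by simp), h3, smul_smul]
      have h4 := sgn_swap x y π hyx.symm hπ hyπ
      have h5 := sgn_mul_self x π
      have h6 := sgn_mul_self y π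
      have h7 : sgn y (insert x π) * sgn x (insert y π) = -(sgn x π * sgn y π) := by
        have e1 : sgn y (insert x π) = -(sgn x π * sgn y π * sgn x (insert y π)) := by
          calc sgn y (insert x π) = (sgn x π * sgn x π) * sgn y (insert x π) := by rw [h5, one_mul]
            _ = sgn x π * (sgn x π * sgn y (insert x π)) := by ring
            _ = _ := by rw [h4]; ring
        rw [e1]
        have h8 := sgn_mul_self x (insert y π)
        calc -(sgn x π * sgn y π * sgn x (insert y π)) * sgn x (insert y π)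
            = -(sgn x π * sgn y π * (sgn x (insert y π) * sgn x (insert y π))) := by ring
          _ = _ := by rw [h8, mul_one]
      rw [h7, neg_smul]
    rw [h1, h2]
    ring
  · have h1 : wdg x (bd c) ρ = 0 := if_neg hx
    rw [h1, sub_zero]
    unfold bd
    rw [Finset.sum_eq_single_of_mem x (Finset.mem_compl.2 hx)]
    · unfold wdg
      rw [if_pos (Finset.mem_insert_self _ _), Finset.erase_insert hx, sgn_smul_smul]
    · intro y _ hyx
      unfold wdg
      rw [if_neg, smul_zero]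
      intro h
      rcases Finset.mem_insert.1 h with h | h
      · exact hyx h.symm
      · exact hx h

/-- the alternating chain of a list -/
noncomputable def altl : List V → (Finset V → ℝ)
  | [] => Pi.single ∅ 1
  | x :: l => wdg x (altl l)

/-- from ordered chains to alternating chains -/
noncomputable def alt : (List V →₀ ℝ) →ₗ[ℝ] (Finset V → ℝ) := Finsupp.linearCombination ℝ altl

lemma alt_single (l : List V) : alt (Finsupp.single l 1) = altl l := by
  simp [alt]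

/-- `wdg` as a linear map -/
def wdgL (x : V) : (Finset V → ℝ) →ₗ[ℝ] (Finset V → ℝ) where
  toFun := wdg x
  map_add' := by
    intro a b
    funext σ
    unfold wdg
    by_cases h : x ∈ σ
    · simp only [if_pos h, Pi.add_apply, smul_add]
    · simp only [if_neg h, Pi.add_apply, add_zero]
  map_smul' := by
    intro r a
    funext σ
    unfold wdg
    by_cases h : x ∈ σ
    · simp only [if_pos h, Pi.smul_apply, RingHom.id_apply, smul_comm r]
    · simp only [if_neg h, Pi.smul_apply, RingHom.id_apply, smul_zero]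

/-- `bd` as a linear map -/
def bdL : (Finset V → ℝ) →ₗ[ℝ] (Finset V → ℝ) where
  toFun := bd
  map_add' := fun a b => funext fun σ => bd_add a b σ
  map_smul' := by
    intro r a
    funext σ
    unfold bd
    rw [RingHom.id_apply, Pi.smul_apply, Finset.smul_sum]
    exact Finset.sum_congr rfl fun x _ => by rw [Pi.smul_apply, smul_comm]

lemma alt_cns (x : V) (c : List V →₀ ℝ) : alt (cns x c) = wdg x (alt c) := by
  refine lin_ext (alt ∘ₗ cns x) (wdgL x ∘ₗ alt) (fun l => ?_) c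
  simp only [LinearMap.comp_apply, cns_single, alt_single]
  rfl

lemma bd_altl (l : List V) : bd (altl l) = alt (dl l) := by
  induction l with
  | nil =>
    funext ρ
    show bd (Pi.single ∅ 1) ρ = alt 0 ρ
    rw [map_zero]
    unfold bd
    refine Finset.sum_eq_zero fun x _ => ?_
    rw [Pi.single_eq_of_ne (Finset.insert_ne_empty _ _), smul_zero]
  | cons x l ih =>
    funext ρ
    show bd (wdg x (altl l)) ρ = alt (Finsupp.single l 1 - cns x (dl l)) ρ
    rw [bd_wdg, map_sub, alt_single, alt_cns, ih]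
    rfl

lemma bd_alt (c : List V →₀ ℝ) : bd (alt c) = alt (dd c) := by
  refine lin_ext (bdL ∘ₗ alt) (alt ∘ₗ dd) (fun l => ?_) c
  simp only [LinearMap.comp_apply, alt_single, dd_single]
  exact bd_altl l

lemma altl_supp (l : List V) (σ : Finset V) (h : altl l σ ≠ 0) : σ = l.toFinset := by
  induction l generalizing σ with
  | nil =>
    by_contra h1
    exact h (Pi.single_eq_of_ne (by simpa using h1) _)
  | cons x l ih =>
    have h1 : wdg x (altl l) σ ≠ 0 := h
    unfold wdg at h1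
    by_cases hx : x ∈ σ
    · rw [if_pos hx] at h1
      have h2 := ih (σ.erase x) fun h3 => h1 (by rw [h3, smul_zero])
      rw [List.toFinset_cons, ← h2, Finset.insert_erase hx]
    · rw [if_neg hx] at h1
      exact absurd rfl h1

lemma alt_supp (T : Set (List V)) (c : List V →₀ ℝ) (hc : c ∈ SC T) (σ : Finset V)
    (h : alt c σ ≠ 0) : ∃ l ∈ T, σ = l.toFinset := by
  by_contra h1
  push Not at h1
  apply h
  have : alt c ∈ LinearMap.ker (LinearMap.proj (R := ℝ) (φ := fun _ : Finset V => ℝ) σ) := by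
    refine lin_mem alt T _ (fun l hl => ?_) c hc
    rw [LinearMap.mem_ker, LinearMap.proj_apply, alt_single]
    by_contra h2
    exact h1 l hl (altl_supp l σ h2)
  exact this

lemma alt_mp_supp {Y : Type} (S : Set (List Y)) (f : Y → V) (c : List Y →₀ ℝ) (hc : c ∈ SC S)
    (ρ : Finset V) (h : alt (mp f c) ρ ≠ 0) : ∃ l ∈ S, ρ = (l.map f).toFinset := by
  have h1 : mp f c ∈ SC {l : List V | ∃ l' ∈ S, l = l'.map f} :=
    mp_mem S {l : List V | ∃ l' ∈ S, l = l'.map f} f (fun l hl => ⟨l, hl, rfl⟩) c hc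
  obtain ⟨l, hl, rfl⟩ := alt_supp _ _ h1 ρ h
  obtain ⟨l', hl', rfl⟩ := hl
  exact ⟨l', hl', rfl⟩

end alternate

section final
variable {V : Type} [Fintype V] [LinearOrder V]

lemma core (Δ : Cx V) (τ : Finset V) (Φ0 Φ1 Θ : Finset V → Finset V → ℝ)
    (h0s : ∀ σ ∈ Δ.faces, ∀ ρ, Φ0 σ ρ ≠ 0 → ρ ⊆ σ) (h0e : Φ0 ∅ ∅ = 1)
    (h0b : ∀ σ ∈ Δ.faces, σ ≠ ∅ → ∀ ρ, bd (Φ0 σ) ρ =
      ∑ x ∈ σ, sgn x (σ.erase x) • Φ0 (σ.erase x) ρ)
    (hΘs : ∀ σ ∈ Δ.faces, ∀ ρ, Θ σ ρ ≠ 0 → ρ ∈ Δ.faces)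
    (hΘτ : ∀ σ ∈ Δ.faces, ¬ τ ⊆ σ → ∀ ρ, τ ⊆ ρ → Θ σ ρ = 0)
    (hΘb : ∀ σ ∈ Δ.faces, ∀ ρ, bd (Θ σ) ρ = Φ1 σ ρ - Φ0 σ ρ -
      ∑ x ∈ σ, sgn x (σ.erase x) • Θ (σ.erase x) ρ)
    (z : Finset V → ℝ) (k : ℕ) (hz : ∀ σ, z σ ≠ 0 → σ ∈ Δ.faces ∧ τ ⊆ σ ∧ σ.card = k)
    (hd : ∀ ρ, τ ⊆ ρ → bd z ρ = 0)
    (h1 : ∀ ρ, τ ⊆ ρ → ρ.card = k → ∑ σ, z σ * Φ1 σ ρ = 0) :
    ∃ b : Finset V → ℝ, (∀ σ, b σ ≠ 0 → σ ∈ Δ.faces ∧ τ ⊆ σ ∧ σ.card = k + 1) ∧
      ∀ ρ, τ ⊆ ρ → bd b ρ = z ρ := by
  classical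
  have hone : ∀ m : ℕ, ∀ σ ∈ Δ.faces, σ.card = m → Φ0 σ σ = 1 := by
    intro m
    induction m with
    | zero =>
      intro σ _ hc
      rw [Finset.card_eq_zero.1 hc]; exact h0e
    | succ m ih =>
      intro σ hσ hc
      obtain ⟨x, hx⟩ : σ.Nonempty := Finset.card_pos.1 (by omega)
      have hne : σ ≠ ∅ := Finset.nonempty_iff_ne_empty.1 ⟨x, hx⟩
      have e1 := h0b σ hσ hne (σ.erase x)
      have e2 : bd (Φ0 σ) (σ.erase x) = sgn x (σ.erase x) • Φ0 σ σ := by
        unfold bd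
        rw [Finset.sum_eq_single_of_mem x (Finset.mem_compl.2 (Finset.notMem_erase _ _)),
          Finset.insert_erase hx]
        intro y hy hyx
        have : Φ0 σ (insert y (σ.erase x)) = 0 := by
          by_contra h2
          have h3 := h0s σ hσ _ h2 (Finset.mem_insert_self _ _)
          exact (Finset.mem_compl.1 hy) (Finset.mem_erase.2 ⟨hyx, h3⟩)
        rw [this, smul_zero]
      have e3 : ∑ y ∈ σ, sgn y (σ.erase y) • Φ0 (σ.erase y) (σ.erase x) =
          sgn x (σ.erase x) • (1 : ℝ) := by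
        rw [Finset.sum_eq_single_of_mem x hx]
        · rw [ih (σ.erase x) (Δ.down σ hσ _ (Finset.erase_subset _ _))
            (by rw [Finset.card_erase_of_mem hx]; omega)]
        · intro y hy hyx
          have : Φ0 (σ.erase y) (σ.erase x) = 0 := by
            by_contra h2
            have h3 := h0s _ (Δ.down σ hσ _ (Finset.erase_subset _ _)) _ h2
              (Finset.mem_erase.2 ⟨hyx, hy⟩)
            exact Finset.notMem_erase y σ h3
          rw [this, smul_zero]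
      rw [e2, e3] at e1
      have e4 := congrArg (fun t => sgn x (σ.erase x) • t) e1
      simpa only [sgn_smul_smul] using e4
  refine ⟨fun ρ => if ρ ∈ Δ.faces ∧ τ ⊆ ρ ∧ ρ.card = k + 1 then - ∑ σ, z σ * Θ σ ρ else 0,
    ?_, ?_⟩
  · intro σ hσ
    by_contra h2
    exact hσ (if_neg h2)
  · intro ρ hρ
    by_cases hc : ρ.card = k
    · have e1 : bd (fun ρ => if ρ ∈ Δ.faces ∧ τ ⊆ ρ ∧ ρ.card = k + 1 then - ∑ σ, z σ * Θ σ ρ
          else 0) ρ = - ∑ σ, z σ * bd (Θ σ) ρ := by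
        have e2 : ∀ x ∈ ρᶜ, sgn x ρ • (if insert x ρ ∈ Δ.faces ∧ τ ⊆ insert x ρ ∧
            (insert x ρ).card = k + 1 then - ∑ σ, z σ * Θ σ (insert x ρ) else 0) =
            - ∑ σ, z σ * (sgn x ρ • Θ σ (insert x ρ)) := by
          intro x hx
          have hx' := Finset.mem_compl.1 hx
          have hcard := Finset.card_insert_of_notMem hx'
          by_cases h2 : insert x ρ ∈ Δ.faces
          · rw [if_pos ⟨h2, hρ.trans (Finset.subset_insert _ _), by omega⟩, smul_neg,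
              Finset.smul_sum]
            congr 1
            exact Finset.sum_congr rfl fun σ _ => by rw [mul_smul_comm]
          · rw [if_neg (fun h => h2 h.1), smul_zero]
            symm
            rw [neg_eq_zero]
            refine Finset.sum_eq_zero fun σ _ => ?_
            by_cases h3 : z σ = 0
            · rw [h3, zero_mul]
            · have h4 : Θ σ (insert x ρ) = 0 := by
                by_contra h5
                exact h2 (hΘs σ (hz σ h3).1 _ h5)
              rw [h4, smul_zero, mul_zero]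
        unfold bd
        rw [Finset.sum_congr rfl e2, Finset.sum_neg_distrib, Finset.sum_comm]
        congr 1
        refine Finset.sum_congr rfl fun σ _ => ?_
        rw [Finset.mul_sum]
      rw [e1]
      have e3 : ∀ σ, z σ * bd (Θ σ) ρ = z σ * Φ1 σ ρ - z σ * Φ0 σ ρ -
          ∑ x ∈ σ, z σ * (sgn x (σ.erase x) • Θ (σ.erase x) ρ) := by
        intro σ
        by_cases h3 : z σ = 0
        · simp [h3]
        · rw [hΘb σ (hz σ h3).1 ρ, mul_sub, mul_sub, Finset.mul_sum]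
      rw [Finset.sum_congr rfl (fun σ _ => e3 σ), Finset.sum_sub_distrib, Finset.sum_sub_distrib,
        h1 ρ hρ hc]
      have e4 : ∑ σ, z σ * Φ0 σ ρ = z ρ := by
        rw [Finset.sum_eq_single ρ]
        · by_cases h3 : z ρ = 0
          · rw [h3, zero_mul]
          · rw [hone _ ρ (hz ρ h3).1 rfl, mul_one]
        · intro σ _ hne
          by_cases h3 : z σ = 0
          · rw [h3, zero_mul]
          · have h4 : Φ0 σ ρ = 0 := by
              by_contra h5
              have h6 := h0s σ (hz σ h3).1 ρ h5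
              exact hne (Finset.eq_of_subset_of_card_le h6
                (by rw [(hz σ h3).2.2, hc])).symm
            rw [h4, mul_zero]
        · intro h; exact absurd (Finset.mem_univ _) h
      have e5 : ∑ σ, ∑ x ∈ σ, z σ * (sgn x (σ.erase x) • Θ (σ.erase x) ρ) = 0 := by
        have e6 := reidx (∅ : Finset V) (fun x π σ => z σ * (sgn x π • Θ π ρ))
        simp only [Finset.empty_subset, Finset.filter_true, Finset.sdiff_empty] at e6
        rw [e6]
        refine Finset.sum_eq_zero fun π _ => ?_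
        have e7 : ∑ x ∈ πᶜ, z (insert x π) * (sgn x π • Θ π ρ) = bd z π * Θ π ρ := by
          unfold bd
          rw [Finset.sum_mul]
          refine Finset.sum_congr rfl fun x _ => ?_
          rw [zsmul_eq_mul, zsmul_eq_mul]; ring
        rw [e7]
        by_cases h3 : τ ⊆ π
        · rw [hd π h3, zero_mul]
        · by_cases h4 : π ∈ Δ.faces
          · rw [hΘτ π h4 h3 ρ hρ, mul_zero]
          · have : bd z π = 0 := by
              unfold bd
              refine Finset.sum_eq_zero fun x _ => ?_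
              have h5 : z (insert x π) = 0 := by
                by_contra h6
                exact h4 (Δ.down _ (hz _ h6).1 _ (Finset.subset_insert _ _))
              rw [h5, smul_zero]
            rw [this, zero_mul]
      rw [e4, e5]
      ring
    · have h3 : z ρ = 0 := by
        by_contra h4
        exact hc (hz ρ h4).2.2
      rw [h3]
      unfold bd
      refine Finset.sum_eq_zero fun x hx => ?_
      have hcard := Finset.card_insert_of_notMem (Finset.mem_compl.1 hx)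
      beta_reduce
      rw [if_neg (fun h => hc (by omega)), smul_zero]

/-- The closed cell of a set of vertices. -/
def cell (σ : Finset V) : Set (V → ℝ) :=
  {x | (∀ v, 0 ≤ x v) ∧ ∑ v, x v = 1 ∧ ∀ v, v ∉ σ → x v = 0}

lemma cell_convex (σ : Finset V) : Convex ℝ (cell σ) := by
  intro x hx y hy a b ha hb hab
  refine ⟨fun v => ?_, ?_, fun v hv => ?_⟩
  · have := mul_nonneg ha (hx.1 v)
    have := mul_nonneg hb (hy.1 v)
    simp only [Pi.add_apply, Pi.smul_apply, smul_eq_mul]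
    linarith
  · simp only [Pi.add_apply, Pi.smul_apply, smul_eq_mul, Finset.sum_add_distrib, ← Finset.mul_sum,
      hx.2.1, hy.2.1, mul_one]
    exact hab
  · simp only [Pi.add_apply, Pi.smul_apply, smul_eq_mul, hx.2.2 v hv, hy.2.2 v hv]
    ring

lemma cell_nonempty (σ : Finset V) (h : σ.Nonempty) : (cell σ).Nonempty := by
  obtain ⟨v, hv⟩ := h
  refine ⟨Pi.single v 1, fun w => ?_, ?_, fun w hw => ?_⟩
  · by_cases h : w = v
    · rw [h, Pi.single_eq_same]; exact zero_le_one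
    · rw [Pi.single_eq_of_ne h]
  · simp
  · rw [Pi.single_eq_of_ne]
    rintro rfl
    exact hw hv

lemma cell_mono {σ τ : Finset V} (h : σ ⊆ τ) : cell σ ⊆ cell τ :=
  fun _ hx => ⟨hx.1, hx.2.1, fun v hv => hx.2.2 v fun h2 => hv (h h2)⟩

/-- carriers -/
noncomputable def car (δ : ℝ) (I : Set ℝ) (σ : Finset V) :
    AddSubgroup (List ((V → ℝ) × ℝ) →₀ ℝ) :=
  if σ = ∅ then ⊥ else (SC (Sm δ (cell σ ×ˢ I))).toAddSubgroup

lemma car_mono (δ : ℝ) (I : Set ℝ) (σ : Finset V) (x : V) (hx : x ∈ σ) :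
    car δ I (σ.erase x) ≤ car δ I σ := by
  have hne : σ ≠ ∅ := Finset.nonempty_iff_ne_empty.1 ⟨x, hx⟩
  unfold car
  rw [if_neg hne]
  by_cases h : σ.erase x = ∅
  · rw [if_pos h]; exact bot_le
  · rw [if_neg h]
    intro c hc
    exact SC_mono (Sm_mono δ (Set.prod_mono (cell_mono (Finset.erase_subset _ _))
      (Set.Subset.refl _))) hc

lemma car_exact (δ : ℝ) (hδ : 0 < δ) (I : Set ℝ) (hI : Convex ℝ I) (hIn : I.Nonempty)
    (σ : Finset V) (z : List ((V → ℝ) × ℝ) →₀ ℝ) (hz : z ∈ car δ I σ) (hdz : dd z = 0) :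
    ∃ w ∈ car δ I σ, dd w = z := by
  unfold car at hz ⊢
  by_cases h : σ = ∅
  · rw [if_pos h] at hz ⊢
    rw [AddSubgroup.mem_bot.1 hz]
    exact ⟨0, AddSubgroup.zero_mem _, map_zero _⟩
  · rw [if_neg h] at hz ⊢
    obtain ⟨x, hx⟩ := cell_nonempty σ (Finset.nonempty_iff_ne_empty.2 h)
    obtain ⟨t, ht⟩ := hIn
    obtain ⟨w, hw, hw2⟩ := rips_acyclic δ hδ (cell σ ×ˢ I) ((cell_convex σ).prod hI) (x, t)
      ⟨hx, ht⟩ z hz hdz
    exact ⟨w, hw, hw2⟩

lemma car_sub (δ : ℝ) (I : Set ℝ) (σ : Finset V) (z : List ((V → ℝ) × ℝ) →₀ ℝ)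
    (hz : z ∈ car δ I σ) : z ∈ SC (Sm δ (cell σ ×ˢ I)) := by
  unfold car at hz
  by_cases h : σ = ∅
  · rw [if_pos h] at hz
    rw [AddSubgroup.mem_bot.1 hz]
    exact Submodule.zero_mem _
  · rw [if_neg h] at hz
    exact hz

lemma chainmap (Δ : Cx V) (δ : ℝ) (hδ : 0 < δ) (I : Set ℝ) (hI : Convex ℝ I) (hIn : I.Nonempty) :
    ∃ lam : Finset V → (List ((V → ℝ) × ℝ) →₀ ℝ), lam ∅ = Finsupp.single [] 1 ∧
      (∀ σ ∈ Δ.faces, lam σ ∈ SC (Sm δ (cell σ ×ˢ I))) ∧
      ∀ σ ∈ Δ.faces, σ ≠ ∅ → dd (lam σ) = ∑ x ∈ σ, sgn x (σ.erase x) • lam (σ.erase x) := by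
  classical
  obtain ⟨D, hD⟩ := carrier_lemma (dd (Y := (V → ℝ) × ℝ)).toAddMonoidHom
    {σ | σ ∈ Δ.faces} ∅ (car δ I) (car δ I) 1
    (fun σ => if σ.card = 1 then Finsupp.single [] 1 else 0)
    (fun σ hσ x _ => Δ.down σ hσ _ (Finset.erase_subset _ _))
    (fun σ _ x hx => car_mono δ I σ x (by simpa using hx))
    (by
      intro σ _
      by_cases h : σ.card = 1
      · simp only [if_pos h]
        unfold car
        rw [if_neg]
        · exact SC_single _ _ ⟨fun a ha => absurd ha List.not_mem_nil,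
            fun a ha => absurd ha List.not_mem_nil⟩
        · rintro rfl
          simp at h
      · simp only [if_neg h]
        exact AddSubgroup.zero_mem _)
    (fun σ _ z hz hdz => car_exact δ hδ I hI hIn σ z hz hdz)
    (by
      intro σ _
      have e1 : (dd (Y := (V → ℝ) × ℝ)).toAddMonoidHom
          (if σ.card = 1 then Finsupp.single [] 1 else 0) = 0 := by
        by_cases h : σ.card = 1
        · rw [if_pos h]
          show dd (Finsupp.single [] 1) = 0
          rw [dd_single]; rfl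
        · rw [if_neg h, map_zero]
      rw [e1, one_smul, Finset.sdiff_empty]
      symm
      rw [neg_eq_zero]
      by_cases h2 : σ.card = 2
      · obtain ⟨a, b, hab, rfl⟩ := Finset.card_eq_two.1 h2
        have e2 : ({a, b} : Finset V).erase a = {b} := by
          ext x; simp only [Finset.mem_erase, Finset.mem_insert, Finset.mem_singleton]
          constructor
          · rintro ⟨h1, h | h⟩
            · exact absurd h h1
            · exact h
          · rintro rfl; exact ⟨hab.symm, Or.inr rfl⟩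
        have e3 : ({a, b} : Finset V).erase b = {a} := by
          ext x; simp only [Finset.mem_erase, Finset.mem_insert, Finset.mem_singleton]
          constructor
          · rintro ⟨h1, h | h⟩
            · exact h
            · exact absurd h h1
          · rintro rfl; exact ⟨hab, Or.inl rfl⟩
        rw [Finset.sum_pair hab, e2, e3, if_pos (Finset.card_singleton _),
          if_pos (Finset.card_singleton _), ← add_zsmul]
        have e4 := sgn_swap' a b ∅ hab (Finset.notMem_empty _) (Finset.notMem_empty _)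
        rw [sgn_empty, sgn_empty, mul_one, mul_one] at e4
        have e5 : insert b (∅ : Finset V) = {b} := rfl
        have e6 : insert a (∅ : Finset V) = {a} := rfl
        rw [e5, e6] at e4
        rw [e4, neg_add_cancel, zero_zsmul]
      · refine Finset.sum_eq_zero fun x hx => ?_
        rw [if_neg, smul_zero]
        rw [Finset.card_erase_of_mem hx]
        omega)
  refine ⟨fun σ => if σ = ∅ then Finsupp.single [] 1 else D σ, if_pos rfl, ?_, ?_⟩
  · intro σ hσ
    by_cases h : σ = ∅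
    · simp only [if_pos h]
      exact SC_single _ _ ⟨fun a ha => absurd ha List.not_mem_nil,
            fun a ha => absurd ha List.not_mem_nil⟩
    · simp only [if_neg h]
      exact car_sub δ I σ _ (hD σ hσ).1
  · intro σ hσ hne
    have h1 := (hD σ hσ).2
    have h2 : dd (D σ) = _ := h1
    simp only [if_neg hne]
    rw [h2, one_smul, Finset.sdiff_empty]
    by_cases h : σ.card = 1
    · obtain ⟨v, rfl⟩ := Finset.card_eq_one.1 h
      have e1 : ({v} : Finset V).erase v = ∅ := by simp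
      rw [if_pos h, Finset.sum_singleton, Finset.sum_singleton, e1, if_pos rfl, sgn_empty,
        one_smul, one_smul]
      have h3 : D ∅ = 0 := by
        have h4 := (hD ∅ Δ.empty_mem).1
        unfold car at h4
        rw [if_pos rfl] at h4
        exact AddSubgroup.mem_bot.1 h4
      rw [h3, add_zero]
    · rw [if_neg h, zero_add]
      refine Finset.sum_congr rfl fun x hx => ?_
      rw [if_neg]
      intro h3
      have h4 := Finset.card_erase_of_mem hx
      rw [h3, Finset.card_empty] at h4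
      have h5 := Finset.card_pos.2 ⟨x, hx⟩
      omega

lemma homot (Δ : Cx V) (δ : ℝ) (hδ : 0 < δ) (I0 I1 J : Set ℝ) (hJ : Convex ℝ J)
    (hJn : J.Nonempty) (h0J : I0 ⊆ J) (h1J : I1 ⊆ J)
    (lam0 lam1 : Finset V → (List ((V → ℝ) × ℝ) →₀ ℝ))
    (h00 : lam0 ∅ = Finsupp.single [] 1) (h10 : lam1 ∅ = Finsupp.single [] 1)
    (h01 : ∀ σ ∈ Δ.faces, lam0 σ ∈ SC (Sm δ (cell σ ×ˢ I0)))
    (h11 : ∀ σ ∈ Δ.faces, lam1 σ ∈ SC (Sm δ (cell σ ×ˢ I1)))
    (h02 : ∀ σ ∈ Δ.faces, σ ≠ ∅ → dd (lam0 σ) =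
      ∑ x ∈ σ, sgn x (σ.erase x) • lam0 (σ.erase x))
    (h12 : ∀ σ ∈ Δ.faces, σ ≠ ∅ → dd (lam1 σ) =
      ∑ x ∈ σ, sgn x (σ.erase x) • lam1 (σ.erase x)) :
    ∃ D : Finset V → (List ((V → ℝ) × ℝ) →₀ ℝ),
      ∀ σ ∈ Δ.faces, D σ ∈ SC (Sm δ (cell σ ×ˢ J)) ∧
        dd (D σ) = lam1 σ - lam0 σ - ∑ x ∈ σ, sgn x (σ.erase x) • D (σ.erase x) := by
  obtain ⟨D, hD⟩ := carrier_lemma (dd (Y := (V → ℝ) × ℝ)).toAddMonoidHom
    {σ | σ ∈ Δ.faces} ∅ (car δ J) (car δ J) (-1)
    (fun σ => lam1 σ - lam0 σ)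
    (fun σ hσ x _ => Δ.down σ hσ _ (Finset.erase_subset _ _))
    (fun σ _ x hx => car_mono δ J σ x (by simpa using hx))
    (by
      intro σ hσ
      unfold car
      by_cases h : σ = ∅
      · rw [if_pos h, h, h00, h10, sub_self]
        exact AddSubgroup.zero_mem _
      · rw [if_neg h]
        exact Submodule.sub_mem _
          (SC_mono (Sm_mono δ (Set.prod_mono (Set.Subset.refl _) h1J)) (h11 σ hσ))
          (SC_mono (Sm_mono δ (Set.prod_mono (Set.Subset.refl _) h0J)) (h01 σ hσ)))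
    (fun σ _ z hz hdz => car_exact δ hδ J hJ hJn σ z hz hdz)
    (by
      intro σ hσ
      show dd (lam1 σ - lam0 σ) = _
      rw [neg_smul, one_smul, neg_neg, Finset.sdiff_empty]
      by_cases h : σ = ∅
      · subst h
        rw [h00, h10, sub_self, map_zero, Finset.sum_empty]
      · rw [map_sub, h02 σ hσ h, h12 σ hσ h, ← Finset.sum_sub_distrib]
        exact Finset.sum_congr rfl fun x _ => (smul_sub _ _ _).symm)
  refine ⟨D, fun σ hσ => ⟨car_sub δ J σ _ (hD σ hσ).1, ?_⟩⟩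
  have h1 : dd (D σ) = _ := (hD σ hσ).2
  rw [h1, neg_smul, one_smul, Finset.sdiff_empty, ← sub_eq_add_neg]

end final

section assemble
variable {V : Type} [Fintype V] [LinearOrder V]

lemma top_setup (Δ : Cx V) (τ : Finset V) (δ : ℝ) (hδ : 0 < δ) (Ψ : (V → ℝ) × ℝ → V)
    (T1 : ∀ σ ∈ Δ.faces, ∀ l ∈ Sm δ (cell σ ×ˢ Set.Icc (0 : ℝ) 1),
      (l.map Ψ).toFinset ∈ Δ.faces)
    (T2 : ∀ σ ∈ Δ.faces, ∀ l ∈ Sm δ (cell σ ×ˢ ({0} : Set ℝ)), (l.map Ψ).toFinset ⊆ σ)
    (T3 : ∀ σ ∈ Δ.faces, ¬ τ ⊆ σ → ∀ l ∈ Sm δ (cell σ ×ˢ Set.Icc (0 : ℝ) 1),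
      ¬ τ ⊆ (l.map Ψ).toFinset) :
    ∃ lam : Finset V → (List ((V → ℝ) × ℝ) →₀ ℝ), lam ∅ = Finsupp.single [] 1 ∧
      (∀ σ ∈ Δ.faces, lam σ ∈ SC (Sm δ (cell σ ×ˢ ({1} : Set ℝ)))) ∧
      (∀ σ ∈ Δ.faces, σ ≠ ∅ → dd (lam σ) = ∑ x ∈ σ, sgn x (σ.erase x) • lam (σ.erase x)) ∧
      ∀ (z : Finset V → ℝ) (k : ℕ), (∀ σ, z σ ≠ 0 → σ ∈ Δ.faces ∧ τ ⊆ σ ∧ σ.card = k) →
        (∀ ρ, τ ⊆ ρ → bd z ρ = 0) →
        (∀ ρ, τ ⊆ ρ → ρ.card = k → ∑ σ, z σ * alt (mp Ψ (lam σ)) ρ = 0) →
        ∃ b : Finset V → ℝ, (∀ σ, b σ ≠ 0 → σ ∈ Δ.faces ∧ τ ⊆ σ ∧ σ.card = k + 1) ∧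
          ∀ ρ, τ ⊆ ρ → bd b ρ = z ρ := by
  obtain ⟨lam0, a1, a2, a3⟩ := chainmap Δ δ hδ {0} (convex_singleton 0) (Set.singleton_nonempty 0)
  obtain ⟨lam1, b1, b2, b3⟩ := chainmap Δ δ hδ {1} (convex_singleton 1) (Set.singleton_nonempty 1)
  obtain ⟨D, hD⟩ := homot Δ δ hδ {0} {1} (Set.Icc (0 : ℝ) 1) (convex_Icc 0 1)
    ⟨0, by simp⟩ (by simp) (by simp) lam0 lam1 a1 b1 a2 b2 a3 b3
  refine ⟨lam1, b1, b2, b3, ?_⟩
  intro z k hz hd h1
  refine core Δ τ (fun σ => alt (mp Ψ (lam0 σ))) (fun σ => alt (mp Ψ (lam1 σ)))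
    (fun σ => alt (mp Ψ (D σ))) ?_ ?_ ?_ ?_ ?_ ?_ z k hz hd h1
  · intro σ hσ ρ hρ
    obtain ⟨l', hl', rfl⟩ := alt_mp_supp _ Ψ _ (a2 σ hσ) ρ hρ
    exact T2 σ hσ l' hl'
  · show alt (mp Ψ (lam0 ∅)) ∅ = 1
    rw [a1, mp_single, alt_single]
    exact Pi.single_eq_same _ _
  · intro σ hσ hne ρ
    show bd (alt (mp Ψ (lam0 σ))) ρ = _
    rw [bd_alt, dd_mp, a3 σ hσ hne, map_sum, map_sum, Finset.sum_apply]
    refine Finset.sum_congr rfl fun x _ => ?_
    rw [map_zsmul, map_zsmul]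
    rfl
  · intro σ hσ ρ hρ
    obtain ⟨l', hl', rfl⟩ := alt_mp_supp _ Ψ _ (hD σ hσ).1 ρ hρ
    exact T1 σ hσ l' hl'
  · intro σ hσ hτ ρ hρ
    by_contra hne
    obtain ⟨l', hl', rfl⟩ := alt_mp_supp _ Ψ _ (hD σ hσ).1 ρ hne
    exact T3 σ hσ hτ l' hl' hρ
  · intro σ hσ ρ
    show bd (alt (mp Ψ (D σ))) ρ = _
    rw [bd_alt, dd_mp, (hD σ hσ).2, map_sub, map_sub, map_sub, map_sub, map_sum, map_sum]
    rw [Pi.sub_apply, Pi.sub_apply, Finset.sum_apply]
    congr 1
    refine Finset.sum_congr rfl fun x _ => ?_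
    rw [map_zsmul, map_zsmul]
    rfl

lemma acy_local (Δ : Cx V) (τ : Finset V) (n : ℕ) (δ : ℝ) (hδ : 0 < δ) (Ψ : (V → ℝ) × ℝ → V)
    (T1 : ∀ σ ∈ Δ.faces, ∀ l ∈ Sm δ (cell σ ×ˢ Set.Icc (0 : ℝ) 1),
      (l.map Ψ).toFinset ∈ Δ.faces)
    (T2 : ∀ σ ∈ Δ.faces, ∀ l ∈ Sm δ (cell σ ×ˢ ({0} : Set ℝ)), (l.map Ψ).toFinset ⊆ σ)
    (T3 : ∀ σ ∈ Δ.faces, ¬ τ ⊆ σ → ∀ l ∈ Sm δ (cell σ ×ˢ Set.Icc (0 : ℝ) 1),
      ¬ τ ⊆ (l.map Ψ).toFinset)
    (T4 : ∀ σ ∈ Δ.faces, σ.card ≤ n → ∀ l ∈ Sm δ (cell σ ×ˢ ({1} : Set ℝ)),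
      ¬ τ ⊆ (l.map Ψ).toFinset) (k : ℕ) (hk : k ≤ n) : Acy Δ ℝ τ k := by
  obtain ⟨lam, _, h2, _, h4⟩ := top_setup Δ τ δ hδ Ψ T1 T2 T3
  intro z hz hd
  refine h4 z k hz hd ?_
  intro ρ hρ _
  refine Finset.sum_eq_zero fun σ _ => ?_
  by_cases h0 : z σ = 0
  · rw [h0, zero_mul]
  · have h5 := hz σ h0
    have : alt (mp Ψ (lam σ)) ρ = 0 := by
      by_contra hne
      obtain ⟨l', hl', rfl⟩ := alt_mp_supp _ Ψ _ (h2 σ h5.1) ρ hne
      exact T4 σ h5.1 (by rw [h5.2.2]; exact hk) l' hl' hρ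
    rw [this, mul_zero]

lemma acy_global (Δ : Cx V) (δ : ℝ) (hδ : 0 < δ) (Ψ : (V → ℝ) × ℝ → V)
    (T1 : ∀ σ ∈ Δ.faces, ∀ l ∈ Sm δ (cell σ ×ˢ Set.Icc (0 : ℝ) 1),
      (l.map Ψ).toFinset ∈ Δ.faces)
    (T2 : ∀ σ ∈ Δ.faces, ∀ l ∈ Sm δ (cell σ ×ˢ ({0} : Set ℝ)), (l.map Ψ).toFinset ⊆ σ)
    (v1 : V) (T4 : ∀ σ ∈ Δ.faces, ∀ p ∈ (cell σ ×ˢ ({1} : Set ℝ)), Ψ p = v1)
    (k : ℕ) (hk : 1 ≤ k) : Acy Δ ℝ ∅ k := by
  obtain ⟨lam, h1, h2, h3, h4⟩ := top_setup Δ ∅ δ hδ Ψ T1 T2
    (fun σ _ h => absurd (Finset.empty_subset _) h)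
  intro z hz hd
  refine h4 z k hz hd ?_
  intro ρ _ hρk
  let W : List V →₀ ℝ := ∑ σ, z σ • mp Ψ (lam σ)
  have hW : ∑ σ, z σ * alt (mp Ψ (lam σ)) ρ = alt W ρ := by
    show _ = alt (∑ σ, z σ • mp Ψ (lam σ)) ρ
    rw [map_sum, Finset.sum_apply]
    refine Finset.sum_congr rfl fun σ _ => ?_
    rw [map_smul]; rfl
  have hdW : dd W = 0 := by
    show dd (∑ σ, z σ • mp Ψ (lam σ)) = 0
    rw [map_sum]
    have e1 : ∀ σ, dd (z σ • mp Ψ (lam σ)) =
        ∑ x ∈ σ, (sgn x (σ.erase x) • z σ) • mp Ψ (lam (σ.erase x)) := by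
      intro σ
      rw [map_smul, dd_mp]
      by_cases h0 : z σ = 0
      · rw [h0, zero_smul]
        symm
        refine Finset.sum_eq_zero fun x _ => by rw [smul_zero, zero_smul]
      · have h5 := hz σ h0
        rw [h3 σ h5.1 (by rintro rfl; rw [Finset.card_empty] at h5; omega), map_sum,
          Finset.smul_sum]
        refine Finset.sum_congr rfl fun x _ => ?_
        rw [map_zsmul, smul_comm (z σ), smul_assoc]
    rw [Finset.sum_congr rfl (fun σ _ => e1 σ)]
    have e6 := reidx (∅ : Finset V) (fun x π σ => (sgn x π • z σ) • mp Ψ (lam π))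
    simp only [Finset.empty_subset, Finset.filter_true, Finset.sdiff_empty] at e6
    rw [e6]
    refine Finset.sum_eq_zero fun π _ => ?_
    rw [← Finset.sum_smul]
    have := hd π (Finset.empty_subset _)
    unfold bd at this
    rw [this, zero_smul]
  have hWs : W ∈ SC {l : List V | ∀ v ∈ l, v = v1} := by
    refine Submodule.sum_mem _ fun σ _ => ?_
    by_cases h0 : z σ = 0
    · rw [h0, zero_smul]; exact Submodule.zero_mem _
    · refine Submodule.smul_mem _ _ (mp_mem _ _ Ψ (fun l hl => ?_) _ (h2 σ (hz σ h0).1))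
      intro v hv
      obtain ⟨p, hp, rfl⟩ := List.mem_map.1 hv
      exact T4 σ (hz σ h0).1 p (hl.1 p hp)
  have hsub : ∀ π, alt W π ≠ 0 → π ⊆ {v1} := by
    intro π hπ
    obtain ⟨l, hl, rfl⟩ := alt_supp _ W hWs π hπ
    intro v hv
    rw [Finset.mem_singleton]
    exact hl v (List.mem_toFinset.1 hv)
  have hv1 : alt W {v1} = 0 := by
    have e1 : bd (alt W) ∅ = 0 := by rw [bd_alt, hdW, map_zero]; rfl
    unfold bd at e1
    rw [Finset.sum_eq_single_of_mem v1 (by simp)] at e1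
    · rw [sgn_empty, one_smul] at e1
      exact e1
    · intro x _ hx
      have : alt W (insert x ∅) = 0 := by
        by_contra h
        have := hsub _ h (Finset.mem_insert_self _ _)
        exact hx (Finset.mem_singleton.1 this)
      rw [this, smul_zero]
  rw [hW]
  by_contra hne
  have h5 := hsub ρ hne
  rcases Finset.subset_singleton_iff.1 h5 with h6 | h6
  · rw [h6, Finset.card_empty] at hρk; omega
  · rw [h6] at hne
    exact hne hv1

lemma acy_zero (Δ : Cx V) (v : V) (hv : {v} ∈ Δ.faces) : Acy Δ ℝ ∅ 0 := by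
  intro z hz _
  refine ⟨Pi.single {v} (z ∅), ?_, ?_⟩
  · intro σ hσ
    have : σ = {v} := by
      by_contra h
      exact hσ (Pi.single_eq_of_ne h _)
    subst this
    exact ⟨hv, Finset.empty_subset _, Finset.card_singleton _⟩
  · intro ρ _
    unfold bd
    by_cases hρ : ρ = ∅
    · subst hρ
      rw [Finset.sum_eq_single_of_mem v (by simp)]
      · rw [sgn_empty, one_smul]
        exact Pi.single_eq_same _ _
      · intro x _ hx
        rw [Pi.single_eq_of_ne, smul_zero]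
        intro h
        have : x ∈ ({v} : Finset V) := h ▸ Finset.mem_insert_self _ _
        exact hx (Finset.mem_singleton.1 this)
    · have : z ρ = 0 := by
        by_contra h
        exact hρ (Finset.card_eq_zero.1 (hz ρ h).2.2)
      rw [this]
      refine Finset.sum_eq_zero fun x hx => ?_
      rw [Pi.single_eq_of_ne, smul_zero]
      intro h
      apply hρ
      have h1 := congrArg Finset.card h
      rw [Finset.card_insert_of_notMem (Finset.mem_compl.1 hx), Finset.card_singleton] at h1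
      exact Finset.card_eq_zero.1 (by omega)

end assemble

section trivial
variable {V : Type} [Fintype V] [LinearOrder V]

lemma acy_trivial (Δ : Cx V) {M : Type*} [AddCommGroup M] (τ : Finset V) (k : ℕ)
    (h : ∀ σ ∈ Δ.faces, τ ⊆ σ → σ.card ≠ k) : Acy Δ M τ k := by
  intro c hc _
  have h0 : ∀ σ, c σ = 0 := by
    intro σ
    by_contra h1
    exact h σ (hc σ h1).1 (hc σ h1).2.1 (hc σ h1).2.2
  exact ⟨0, fun σ hσ => absurd rfl hσ, fun ρ _ => by rw [h0, bd_zero]⟩

end trivial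

section topology
variable {V : Type} [Fintype V] [LinearOrder V]

lemma cell_sub (Δ : Cx V) (σ : Finset V) (hσ : σ ∈ Δ.faces) : cell σ ⊆ realization Δ :=
  fun _ hx => ⟨hx.1, hx.2.1, σ, hσ, hx.2.2⟩

lemma cell_compact (σ : Finset V) : IsCompact (cell σ) := by
  refine IsCompact.of_isClosed_subset (isCompact_Icc (a := (0 : V → ℝ)) (b := 1)) ?_ ?_
  · have : cell σ = (⋂ v, {x : V → ℝ | 0 ≤ x v}) ∩ {x | ∑ v, x v = 1} ∩
        ⋂ v, {x | v ∉ σ → x v = 0} := by
      ext x
      simp only [cell, Set.mem_ofPred_eq, Set.mem_inter_iff, Set.mem_iInter]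
      tauto
    rw [this]
    refine (IsClosed.inter (isClosed_iInter fun v => ?_) ?_).inter (isClosed_iInter fun v => ?_)
    · exact isClosed_le continuous_const (continuous_apply v)
    · exact isClosed_eq (continuous_finsetSum _ fun v _ => continuous_apply v) continuous_const
    · by_cases hv : v ∈ σ
      · simp [hv]
      · simp only [hv, not_false_eq_true, forall_const]
        exact isClosed_eq (continuous_apply v) continuous_const
  · intro x hx
    refine ⟨fun v => hx.1 v, fun v => ?_⟩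
    have := Finset.single_le_sum (f := x) (fun w _ => hx.1 w) (Finset.mem_univ v)
    rw [hx.2.1] at this
    exact this

lemma realization_compact (Δ : Cx V) : IsCompact (realization Δ) := by
  have : realization Δ = ⋃ σ ∈ Δ.faces, cell σ := by
    ext x
    simp only [realization, cell, Set.mem_ofPred_eq, Set.mem_iUnion]
    constructor
    · rintro ⟨h1, h2, σ, hσ, h3⟩
      exact ⟨σ, hσ, h1, h2, h3⟩
    · rintro ⟨σ, hσ, h1, h2, h3⟩
      exact ⟨h1, h2, σ, hσ, h3⟩
  rw [this]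
  exact Δ.faces.isCompact_biUnion fun σ _ => cell_compact σ

lemma dev (x y : V → ℝ) (hx : ∑ v, x v = 1) (hy : ∑ v, y v = 1) (η : ℝ) (hη : 0 < η)
    (h : ∀ v, y v - x v < η) (v : V) : -((Fintype.card V : ℝ) * η) ≤ y v - x v := by
  have h1 : ∑ w, (y w - x w) = 0 := by rw [Finset.sum_sub_distrib, hx, hy, sub_self]
  rw [← Finset.add_sum_erase _ _ (Finset.mem_univ v)] at h1
  have h2 : ∑ w ∈ Finset.univ.erase v, (y w - x w) ≤ ∑ w ∈ Finset.univ.erase v, η :=
    Finset.sum_le_sum fun w _ => (h w).le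
  rw [Finset.sum_const, nsmul_eq_mul] at h2
  have h3 : ((Finset.univ.erase v).card : ℝ) ≤ Fintype.card V := by
    exact_mod_cast Finset.card_le_univ _
  have h4 := mul_le_mul_of_nonneg_right h3 hη.le
  linarith

lemma sel (Δ : Cx V) (x : V → ℝ) (hx0 : ∀ v, 0 ≤ x v) (hx1 : ∑ v, x v = 1) (v0 : V)
    (hv0 : 0 < x v0) (G : (V → ℝ) × ℝ → (V → ℝ))
    (hG : ContinuousOn G (realization Δ ×ˢ Set.Icc (0 : ℝ) 1))
    (hm : ∀ p ∈ realization Δ ×ˢ Set.Icc (0 : ℝ) 1, G p ∈ realization Δ)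
    (Bad : Set ((V → ℝ) × ℝ)) (ε : ℝ) (hε : 0 < ε) (hBad : ∀ p ∈ Bad, ε ≤ dist (G p) x) :
    ∃ δ > 0, ∃ Ψ : (V → ℝ) × ℝ → V, (∀ p q, p ∈ realization Δ ×ˢ Set.Icc (0 : ℝ) 1 →
      q ∈ realization Δ ×ˢ Set.Icc (0 : ℝ) 1 → dist p q < δ →
      0 < G q (Ψ p) ∧ (p ∈ Bad → x (Ψ p) < G q (Ψ p))) ∧ ∀ p q, G p = G q → Ψ p = Ψ q := by
  classical
  let K : Set ((V → ℝ) × ℝ) := realization Δ ×ˢ Set.Icc (0 : ℝ) 1
  have hK : IsCompact K := (realization_compact Δ).prod isCompact_Icc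
  let N : ℝ := Fintype.card V
  have hN : 0 ≤ N := Nat.cast_nonneg _
  let m : ℝ := min (x v0) ε
  have hm0 : 0 < m := lt_min hv0 hε
  let η : ℝ := m / (2 * (N + 1))
  have hη : 0 < η := by positivity
  have hηm : (N + 1) * η = m / 2 := by
    show (N + 1) * (m / (2 * (N + 1))) = m / 2
    field_simp
  have hu := hK.uniformContinuousOn_of_continuous hG
  rw [Metric.uniformContinuousOn_iff] at hu
  obtain ⟨δ, hδ, hu⟩ := hu (η / 2) (half_pos hη)
  let ψ : (V → ℝ) → V := fun y => if h : ∃ v, η ≤ y v - x v then h.choose else v0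
  refine ⟨δ, hδ, fun p => ψ (G p), ?_, fun p q h => by simp only [h]⟩
  intro p q hp hq hpq
  have hd := hu p hp q hq hpq
  have hd' : ∀ v, |G p v - G q v| < η / 2 := by
    intro v
    have := dist_le_pi_dist (G p) (G q) v
    rw [Real.dist_eq] at this
    linarith
  have hmx : m ≤ x v0 := min_le_left _ _
  have hmε : m ≤ ε := min_le_right _ _
  by_cases h : ∃ v, η ≤ G p v - x v
  · have e1 : ψ (G p) = h.choose := dif_pos h
    have e2 := h.choose_spec
    rw [← e1] at e2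
    have e3 := abs_lt.1 (hd' (ψ (G p)))
    have e4 := hx0 (ψ (G p))
    exact ⟨by linarith, fun _ => by linarith⟩
  · have e1 : ψ (G p) = v0 := dif_neg h
    push Not at h
    have hsum : ∑ v, G p v = 1 := (hm p hp).2.1
    have e2 := dev x (G p) hx1 hsum η hη h
    have e3 := abs_lt.1 (hd' v0)
    have e4 : -(N * η) ≤ G p v0 - x v0 := e2 v0
    refine ⟨?_, ?_⟩
    · show 0 < G q (ψ (G p))
      rw [e1]
      nlinarith
    · intro hb
      exfalso
      have h5 := hBad p hb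
      have h6 : dist (G p) x ≤ N * η + η := by
        rw [dist_pi_le_iff (by positivity)]
        intro v
        rw [Real.dist_eq, abs_le]
        have h7 : -(N * η) ≤ G p v - x v := e2 v
        have h8 := h v
        constructor
        · linarith
        · have : 0 ≤ N * η := by positivity
          linarith
      nlinarith


lemma ball_data (Δ : Cx V) (n : ℕ) (h : IsBall Δ n) :
    ∃ (f : (V → ℝ) → EuclideanSpace ℝ (Fin n)) (e : EuclideanSpace ℝ (Fin n) → (V → ℝ)),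
      Continuous f ∧ ContinuousOn e (Metric.closedBall 0 1) ∧
      (∀ u ∈ realization Δ, f u ∈ Metric.closedBall (0 : EuclideanSpace ℝ (Fin n)) 1) ∧
      (∀ w ∈ Metric.closedBall (0 : EuclideanSpace ℝ (Fin n)) 1, e w ∈ realization Δ) ∧
      (∀ u ∈ realization Δ, e (f u) = u) ∧
      (∀ w ∈ Metric.closedBall (0 : EuclideanSpace ℝ (Fin n)) 1, f (e w) = w) := by
  classical
  obtain ⟨φ⟩ := h
  have hcl : IsClosed (realization Δ) := (realization_compact Δ).isClosed
  let g : C(realization Δ, EuclideanSpace ℝ (Fin n)) :=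
    ⟨fun u => (φ u).1, continuous_subtype_val.comp φ.continuous⟩
  obtain ⟨F, hF⟩ := ContinuousMap.exists_restrict_eq hcl g
  have hFu : ∀ u (hu : u ∈ realization Δ), F u = (φ ⟨u, hu⟩).1 := by
    intro u hu
    have := congrArg (fun G : C(realization Δ, EuclideanSpace ℝ (Fin n)) => G ⟨u, hu⟩) hF
    exact this
  let e : EuclideanSpace ℝ (Fin n) → (V → ℝ) := fun w =>
    if hw : w ∈ Metric.closedBall (0 : EuclideanSpace ℝ (Fin n)) 1 then (φ.symm ⟨w, hw⟩).1 else 0
  have he : ∀ w (hw : w ∈ Metric.closedBall (0 : EuclideanSpace ℝ (Fin n)) 1),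
      e w = (φ.symm ⟨w, hw⟩).1 := fun w hw => dif_pos hw
  refine ⟨F, e, F.continuous, ?_, ?_, ?_, ?_, ?_⟩
  · rw [continuousOn_iff_continuous_domRestrict]
    have : (Metric.closedBall (0 : EuclideanSpace ℝ (Fin n)) 1).domRestrict e =
        fun w => (φ.symm w).1 := by
      funext w
      exact he w.1 w.2
    rw [this]
    exact continuous_subtype_val.comp φ.symm.continuous
  · intro u hu
    rw [hFu u hu]
    exact (φ ⟨u, hu⟩).2
  · intro w hw
    rw [he w hw]
    exact (φ.symm ⟨w, hw⟩).2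
  · intro u hu
    have h1 : F u ∈ Metric.closedBall (0 : EuclideanSpace ℝ (Fin n)) 1 := by
      rw [hFu u hu]
      exact (φ ⟨u, hu⟩).2
    rw [he _ h1]
    have h2 : (⟨F u, h1⟩ : Metric.closedBall (0 : EuclideanSpace ℝ (Fin n)) 1) = φ ⟨u, hu⟩ :=
      Subtype.ext (hFu u hu)
    rw [h2, φ.symm_apply_apply]
  · intro w hw
    have h1 : e w ∈ realization Δ := by
      rw [he w hw]
      exact (φ.symm ⟨w, hw⟩).2
    rw [hFu _ h1]
    have h2 : (⟨e w, h1⟩ : realization Δ) = φ.symm ⟨w, hw⟩ := Subtype.ext (he w hw)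
    rw [h2, φ.apply_symm_apply]

lemma cell_dim (σ : Finset V) : dimH (cell σ) ≤ ((σ.card - 1 : ℕ) : ENNReal) := by
  by_cases hσ : σ.Nonempty
  · obtain ⟨v1, hv1⟩ := hσ
    let P : (↥(σ.erase v1) → ℝ) → (V → ℝ) := fun a v =>
      if h : v ∈ σ.erase v1 then a ⟨v, h⟩ else if v = v1 then 1 - ∑ w, a w else 0
    have hP : ContDiff ℝ 1 P := by
      rw [contDiff_pi]
      intro v
      by_cases h : v ∈ σ.erase v1
      · have : (fun a => P a v) = fun a => a ⟨v, h⟩ := by
          funext a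
          exact dif_pos h
        rw [this]
        exact contDiff_apply ℝ ℝ _
      · by_cases h2 : v = v1
        · have : (fun a => P a v) = fun a => 1 - ∑ w, a w := by
            funext a
            exact (dif_neg h).trans (if_pos h2)
          rw [this]
          exact contDiff_const.sub (ContDiff.sum fun w _ => contDiff_apply ℝ ℝ w)
        · have : (fun a => P a v) = fun _ => 0 := by
            funext a
            exact (dif_neg h).trans (if_neg h2)
          rw [this]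
          exact contDiff_const
    have hsub : cell σ ⊆ Set.range P := by
      intro x hx
      refine ⟨fun w => x w.1, ?_⟩
      funext v
      by_cases h : v ∈ σ.erase v1
      · exact dif_pos h
      · by_cases h2 : v = v1
        · have e0 : P (fun w => x w.1) v = 1 - ∑ w : ↥(σ.erase v1), x w.1 :=
            (dif_neg h).trans (if_pos h2)
          rw [e0]
          have e1 : ∑ w : ↥(σ.erase v1), x w.1 = ∑ w ∈ σ.erase v1, x w :=
            Finset.sum_coe_sort (σ.erase v1) x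
          have e2 : ∑ w ∈ σ, x w = 1 := by
            rw [← hx.2.1]
            exact Finset.sum_subset (Finset.subset_univ _) fun w _ hw => hx.2.2 w hw
          rw [← Finset.add_sum_erase _ _ hv1] at e2
          rw [e1, h2]
          linarith
        · have e0 : P (fun w => x w.1) v = 0 := (dif_neg h).trans (if_neg h2)
          rw [e0]
          refine (hx.2.2 v fun h3 => h ?_).symm
          exact Finset.mem_erase.2 ⟨h2, h3⟩
    refine (dimH_mono hsub).trans ?_
    refine hP.dimH_range_le.trans ?_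
    rw [Module.finrank_fintype_fun_eq_card, Fintype.card_coe, Finset.card_erase_of_mem hv1]
  · rw [Finset.not_nonempty_iff_eq_empty] at hσ
    have : cell σ = ∅ := by
      rw [Set.eq_empty_iff_forall_notMem]
      intro x hx
      have h1 : ∑ v, x v = 0 := Finset.sum_eq_zero fun v _ => hx.2.2 v (by simp [hσ])
      rw [hx.2.1] at h1
      exact one_ne_zero h1
    rw [this, dimH_empty]
    exact zero_le

lemma image_dense (Δ : Cx V) (n : ℕ) (hn : 1 ≤ n) (P : (V → ℝ) → EuclideanSpace ℝ (Fin n))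
    (hP : ContDiff ℝ 1 P) :
    Dense (P '' (⋃ σ ∈ Δ.faces.filter (fun σ => σ.card ≤ n), cell σ))ᶜ := by
  refine ContDiffOn.dense_compl_image_of_dimH_lt_finrank (s := Set.univ) hP.contDiffOn
    convex_univ (Set.subset_univ _) ?_
  have h1 : dimH (⋃ σ ∈ Δ.faces.filter (fun σ => σ.card ≤ n), cell σ) ≤
      ((n - 1 : ℕ) : ENNReal) := by
    have h2 := dimH_bUnion (s := ((Δ.faces.filter (fun σ => σ.card ≤ n) : Finset (Finset V)) :
      Set (Finset V))) (Finset.countable_toSet _) (fun σ => cell σ)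
    refine (le_of_eq h2).trans ?_
    refine iSup₂_le fun σ hσ => ?_
    refine (cell_dim σ).trans ?_
    have h3 := (Finset.mem_filter.1 (Finset.mem_coe.1 hσ)).2
    exact_mod_cast (by omega : σ.card - 1 ≤ n - 1)
  refine lt_of_le_of_lt h1 ?_
  rw [finrank_euclideanSpace_fin]
  exact_mod_cast (by omega : n - 1 < n)

/-- radial retraction to the unit ball -/
noncomputable def ret {n : ℕ} (w : EuclideanSpace ℝ (Fin n)) : EuclideanSpace ℝ (Fin n) :=
  (max 1 ‖w‖)⁻¹ • w

lemma ret_cont {n : ℕ} : Continuous (ret (n := n)) := by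
  unfold ret
  refine Continuous.smul (Continuous.inv₀ (continuous_const.max continuous_norm) fun w => ?_)
    continuous_id
  have : (0 : ℝ) < max 1 ‖w‖ := lt_max_of_lt_left one_pos
  exact ne_of_gt this

lemma ret_norm {n : ℕ} (w : EuclideanSpace ℝ (Fin n)) : ‖ret w‖ = (max 1 ‖w‖)⁻¹ * ‖w‖ := by
  have : (0 : ℝ) < max 1 ‖w‖ := lt_max_of_lt_left one_pos
  unfold ret
  rw [norm_smul, Real.norm_eq_abs, abs_of_pos (inv_pos.2 this)]

lemma ret_small {n : ℕ} (w : EuclideanSpace ℝ (Fin n)) (h : ‖w‖ ≤ 1) : ret w = w := by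
  unfold ret
  rw [max_eq_left h, inv_one, one_smul]

lemma ret_big {n : ℕ} (w : EuclideanSpace ℝ (Fin n)) (h : 1 < ‖w‖) : ‖ret w‖ = 1 := by
  rw [ret_norm, max_eq_right h.le, inv_mul_cancel₀ (by linarith)]

lemma ret_le {n : ℕ} (w : EuclideanSpace ℝ (Fin n)) : ‖ret w‖ ≤ 1 := by
  by_cases h : ‖w‖ ≤ 1
  · rw [ret_small w h]; exact h
  · exact (ret_big w (not_le.1 h)).le

lemma ret_dist {n : ℕ} (w b : EuclideanSpace ℝ (Fin n)) (hb : ‖b‖ ≤ 1) :
    ‖ret w - w‖ ≤ ‖w - b‖ := by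
  by_cases h : ‖w‖ ≤ 1
  · rw [ret_small w h, sub_self, norm_zero]; exact norm_nonneg _
  · have h' := not_le.1 h
    have h0 : (0 : ℝ) < ‖w‖ := by linarith
    have e1 : ret w - w = -((1 - ‖w‖⁻¹) • w) := by
      unfold ret
      rw [max_eq_right h'.le]
      module
    have e2 : 0 ≤ 1 - ‖w‖⁻¹ := by
      have := inv_le_one_of_one_le₀ h'.le
      linarith
    rw [e1, norm_neg, norm_smul, Real.norm_eq_abs, abs_of_nonneg e2]
    have e3 : (1 - ‖w‖⁻¹) * ‖w‖ = ‖w‖ - 1 := by field_simp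
    rw [e3]
    have := norm_sub_norm_le w b
    linarith

lemma push_off (Δ : Cx V) (n : ℕ) (hn : 1 ≤ n) (f : (V → ℝ) → EuclideanSpace ℝ (Fin n))
    (hf : Continuous f)
    (hfB : ∀ u ∈ realization Δ, f u ∈ Metric.closedBall (0 : EuclideanSpace ℝ (Fin n)) 1)
    (y : EuclideanSpace ℝ (Fin n)) (ε : ℝ) (hε : 0 < ε) :
    ∃ g : (V → ℝ) → EuclideanSpace ℝ (Fin n), Continuous g ∧
      (∀ u ∈ realization Δ, g u ∈ Metric.closedBall (0 : EuclideanSpace ℝ (Fin n)) 1) ∧
      (∀ u ∈ realization Δ, ‖g u - f u‖ < ε) ∧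
      ∀ σ ∈ Δ.faces, σ.card ≤ n → ∀ u ∈ cell σ, g u ≠ y := by
  have hfB' : ∀ u ∈ realization Δ, ‖f u‖ ≤ 1 := fun u hu => by simpa using hfB u hu
  by_cases hy : ‖y‖ < 1
  · obtain ⟨P, hP, hPf, _⟩ := Continuous.exists_contDiff_approx (f := f) (ε := fun _ => ε / 4) 1 hf
      continuous_const (fun _ => by positivity)
    obtain ⟨y', hy', hyy⟩ := (image_dense Δ n hn P hP).exists_dist_lt y (ε := ε / 4) (by positivity)
    refine ⟨fun u => ret (P u + (y - y')), ?_, ?_, ?_, ?_⟩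
    · exact ret_cont.comp ((hP.continuous).add continuous_const)
    · intro u _
      simpa using ret_le (P u + (y - y'))
    · intro u hu
      have h1 := ret_dist (P u + (y - y')) (f u) (hfB' u hu)
      have h2 : ‖P u + (y - y') - f u‖ < ε / 2 := by
        have h3 : P u + (y - y') - f u = (P u - f u) + (y - y') := by abel
        rw [h3]
        have h4 := norm_add_le (P u - f u) (y - y')
        have h5 := hPf u
        rw [dist_eq_norm] at h5 hyy
        linarith
      have h6 : ret (P u + (y - y')) - f u =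
          (ret (P u + (y - y')) - (P u + (y - y'))) + (P u + (y - y') - f u) := by abel
      show ‖ret (P u + (y - y')) - f u‖ < ε
      rw [h6]
      have h7 := norm_add_le (ret (P u + (y - y')) - (P u + (y - y'))) (P u + (y - y') - f u)
      linarith
    · intro σ hσ hc u hu h
      have h1 : ret (P u + (y - y')) = y := h
      have h2 : ‖P u + (y - y')‖ ≤ 1 := by
        by_contra h3
        have h4 := ret_big _ (not_le.1 h3)
        rw [h1] at h4
        linarith
      rw [ret_small _ h2] at h1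
      apply hy'
      refine ⟨u, Set.mem_biUnion (Finset.mem_coe.2 (Finset.mem_filter.2 ⟨hσ, hc⟩)) hu, ?_⟩
      have h5 : P u = P u + (y - y') - y + y' := by abel
      rw [h5, h1]; abel
  · let s : ℝ := min (ε / 2) (1 / 2)
    have hs : 0 < s := lt_min (by positivity) (by norm_num)
    have hs1 : s ≤ 1 / 2 := min_le_right _ _
    have hs2 : s ≤ ε / 2 := min_le_left _ _
    have hnorm : ∀ u ∈ realization Δ, ‖(1 - s) • f u‖ ≤ 1 - s := by
      intro u hu
      rw [norm_smul, Real.norm_eq_abs, abs_of_nonneg (by linarith)]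
      have := mul_le_mul_of_nonneg_left (hfB' u hu) (by linarith : 0 ≤ 1 - s)
      linarith
    refine ⟨fun u => (1 - s) • f u, hf.const_smul (1 - s), ?_, ?_, ?_⟩
    · intro u hu
      have := hnorm u hu
      simp only [Metric.mem_closedBall, dist_zero_right]
      linarith
    · intro u hu
      have h1 : (1 - s) • f u - f u = -(s • f u) := by module
      show ‖(1 - s) • f u - f u‖ < ε
      rw [h1, norm_neg, norm_smul, Real.norm_eq_abs, abs_of_pos hs]
      have := mul_le_mul_of_nonneg_left (hfB' u hu) hs.le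
      linarith
    · intro σ hσ _ u hu h
      have h1 := hnorm u (cell_sub Δ σ hσ hu)
      have h2 : (1 - s) • f u = y := h
      rw [h2] at h1
      linarith


lemma local_map (Δ : Cx V) (n : ℕ) (hn : 1 ≤ n) (h : IsBall Δ n) (τ : Finset V)
    (hτ : τ ∈ Δ.faces) (x : V → ℝ) (hx : x ∈ cell τ) (hxp : ∀ v ∈ τ, 0 < x v) :
    ∃ G : (V → ℝ) × ℝ → (V → ℝ),
      ContinuousOn G (realization Δ ×ˢ Set.Icc (0 : ℝ) 1) ∧
      (∀ p ∈ realization Δ ×ˢ Set.Icc (0 : ℝ) 1, G p ∈ realization Δ) ∧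
      (∀ u ∈ realization Δ, G (u, 0) = u) ∧
      (∀ σ ∈ Δ.faces, ¬ τ ⊆ σ → ∀ u ∈ cell σ, ∀ t ∈ Set.Icc (0 : ℝ) 1, G (u, t) ≠ x) ∧
      (∀ σ ∈ Δ.faces, σ.card ≤ n → ∀ u ∈ cell σ, G (u, 1) ≠ x) := by
  classical
  obtain ⟨f, e, hf, he, hfB, heX, hef, hfe⟩ := ball_data Δ n h
  have hxX := cell_sub Δ τ hτ hx
  -- the faces that do not contain `τ`
  let A : Set (V → ℝ) := ⋃ σ ∈ Δ.faces.filter (fun σ => ¬ τ ⊆ σ), cell σ
  have hA : IsCompact A := (Δ.faces.filter (fun σ => ¬ τ ⊆ σ)).isCompact_biUnion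
    fun σ _ => cell_compact σ
  have hAX : A ⊆ realization Δ := by
    refine Set.iUnion₂_subset fun σ hσ => ?_
    exact cell_sub Δ σ (Finset.mem_filter.1 hσ).1
  have hfA : IsClosed (f '' A) := (hA.image hf).isClosed
  have hyA : f x ∉ f '' A := by
    rintro ⟨u, hu, hux⟩
    have h1 := hef u (hAX hu)
    rw [hux, hef x hxX] at h1
    obtain ⟨σ, hσ, hus⟩ := Set.mem_iUnion₂.1 hu
    have h2 := (Finset.mem_filter.1 hσ).2
    apply h2
    intro v hv
    by_contra h3
    have h4 := hus.2.2 v h3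
    rw [← h1] at h4
    exact absurd h4 (ne_of_gt (hxp v hv))
  obtain ⟨ε, hε, hball⟩ := Metric.isOpen_iff.1 hfA.isOpen_compl (f x) hyA
  obtain ⟨g, hg, hgB, hgf, hgx⟩ := push_off Δ n hn f hf hfB (f x) ε hε
  have hmix : ∀ u ∈ realization Δ, ∀ t ∈ Set.Icc (0 : ℝ) 1,
      (1 - t) • f u + t • g u ∈ Metric.closedBall (0 : EuclideanSpace ℝ (Fin n)) 1 := by
    intro u hu t ht
    exact (convex_closedBall _ _) (hfB u hu) (hgB u hu) (by linarith [ht.2]) ht.1 (by ring)
  refine ⟨fun p => e ((1 - p.2) • f p.1 + p.2 • g p.1), ?_, ?_, ?_, ?_, ?_⟩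
  · refine he.comp (t := Metric.closedBall (0 : EuclideanSpace ℝ (Fin n)) 1)
      (f := fun p : (V → ℝ) × ℝ => (1 - p.2) • f p.1 + p.2 • g p.1) ?_ ?_
    · apply Continuous.continuousOn
      exact ((continuous_const.sub continuous_snd).smul (hf.comp continuous_fst)).add
        (continuous_snd.smul (hg.comp continuous_fst))
    · intro p hp
      exact hmix p.1 hp.1 p.2 hp.2
  · intro p hp
    exact heX _ (hmix p.1 hp.1 p.2 hp.2)
  · intro u hu
    show e ((1 - (0 : ℝ)) • f u + (0 : ℝ) • g u) = u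
    rw [sub_zero, one_smul, zero_smul, add_zero, hef u hu]
  · intro σ hσ hτσ u hu t ht hG
    have hG' : e ((1 - t) • f u + t • g u) = x := hG
    have huX := cell_sub Δ σ hσ hu
    have h1 := hfe _ (hmix u huX t ht)
    rw [hG'] at h1
    have huA : u ∈ A := Set.mem_biUnion (Finset.mem_coe.2 (Finset.mem_filter.2 ⟨hσ, hτσ⟩)) hu
    have h2 : f u ∈ Metric.ball (f x) ε := by
      rw [Metric.mem_ball, dist_eq_norm]
      have h3 : f u - f x = -(t • (g u - f u)) := by
        rw [h1]; module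
      rw [h3, norm_neg, norm_smul, Real.norm_eq_abs, abs_of_nonneg ht.1]
      have h4 := hgf u huX
      have h5 := mul_le_mul_of_nonneg_right ht.2 (norm_nonneg (g u - f u))
      linarith
    exact hball h2 ⟨u, huA, rfl⟩
  · intro σ hσ hc u hu hG
    have hG' : e ((1 - (1 : ℝ)) • f u + (1 : ℝ) • g u) = x := hG
    have huX := cell_sub Δ σ hσ hu
    have h1 := hfe _ (hmix u huX 1 ⟨zero_le_one, le_rfl⟩)
    rw [hG', sub_self, zero_smul, zero_add, one_smul] at h1
    exact hgx σ hσ hc u hu h1.symm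

lemma acy_ball_local (Δ : Cx V) (n : ℕ) (hn : 1 ≤ n) (h : IsBall Δ n) (τ : Finset V)
    (hτ : τ ∈ Δ.faces) (hne : τ.Nonempty) (k : ℕ) (hk : k ≤ n) : Acy Δ ℝ τ k := by
  classical
  -- the barycentre of `τ`
  have hc : (0 : ℝ) < τ.card := by exact_mod_cast Finset.card_pos.2 hne
  let x : V → ℝ := fun v => if v ∈ τ then (τ.card : ℝ)⁻¹ else 0
  have hxp : ∀ v ∈ τ, 0 < x v := by
    intro v hv
    show 0 < (if v ∈ τ then (τ.card : ℝ)⁻¹ else 0)
    rw [if_pos hv]
    exact inv_pos.2 hc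
  have hx0 : ∀ v, v ∉ τ → x v = 0 := fun v hv => if_neg hv
  have hxn : ∀ v, 0 ≤ x v := by
    intro v
    by_cases hv : v ∈ τ
    · exact (hxp v hv).le
    · exact (hx0 v hv).ge
  have hxτ : ∑ v ∈ τ, x v = 1 := by
    have : ∑ v ∈ τ, x v = ∑ v ∈ τ, (τ.card : ℝ)⁻¹ := Finset.sum_congr rfl fun v hv => if_pos hv
    rw [this, Finset.sum_const, nsmul_eq_mul, mul_inv_cancel₀ (ne_of_gt hc)]
  have hx1 : ∑ v, x v = 1 := by
    rw [← hxτ]
    exact (Finset.sum_subset (Finset.subset_univ _) fun w _ hw => hx0 w hw).symm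
  have hx : x ∈ cell τ := ⟨hxn, hx1, hx0⟩
  obtain ⟨G, hG, hm, hG0, hG3, hG4⟩ := local_map Δ n hn h τ hτ x hx hxp
  obtain ⟨v0, hv0⟩ := hne
  -- the bad set
  let B : Finset V → Set ((V → ℝ) × ℝ) := fun σ =>
    (if ¬ τ ⊆ σ then cell σ ×ˢ Set.Icc (0 : ℝ) 1 else ∅) ∪
      (if σ.card ≤ n then cell σ ×ˢ ({1} : Set ℝ) else ∅)
  have hBc : ∀ σ, IsCompact (B σ) := by
    intro σ
    refine IsCompact.union ?_ ?_
    · split_ifs
      · exact isCompact_empty
      · exact (cell_compact σ).prod isCompact_Icc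
    · split_ifs
      · exact (cell_compact σ).prod isCompact_singleton
      · exact isCompact_empty
  let Bad : Set ((V → ℝ) × ℝ) := ⋃ σ ∈ Δ.faces, B σ
  have hBadc : IsCompact Bad := Δ.faces.isCompact_biUnion fun σ _ => hBc σ
  have hBadX : Bad ⊆ realization Δ ×ˢ Set.Icc (0 : ℝ) 1 := by
    refine Set.iUnion₂_subset fun σ hσ => Set.union_subset ?_ ?_
    · split_ifs
      · exact Set.empty_subset _
      · exact Set.prod_mono (cell_sub Δ σ hσ) (Set.Subset.refl _)
    · split_ifs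
      · refine Set.prod_mono (cell_sub Δ σ hσ) ?_
        rw [Set.singleton_subset_iff]
        exact ⟨zero_le_one, le_rfl⟩
      · exact Set.empty_subset _
  have hBad1 : ∀ σ ∈ Δ.faces, ¬ τ ⊆ σ → ∀ p ∈ cell σ ×ˢ Set.Icc (0 : ℝ) 1, p ∈ Bad := by
    intro σ hσ hτσ p hp
    refine Set.mem_iUnion₂.2 ⟨σ, hσ, Or.inl ?_⟩
    rw [if_pos hτσ]
    exact hp
  have hBad2 : ∀ σ ∈ Δ.faces, σ.card ≤ n → ∀ p ∈ cell σ ×ˢ ({1} : Set ℝ), p ∈ Bad := by
    intro σ hσ hc p hp
    refine Set.mem_iUnion₂.2 ⟨σ, hσ, Or.inr ?_⟩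
    rw [if_pos hc]
    exact hp
  have hBadx : ∀ p ∈ Bad, G p ≠ x := by
    intro p hp
    obtain ⟨σ, hσ, hp⟩ := Set.mem_iUnion₂.1 hp
    rcases hp with hp | hp
    · by_cases hτσ : τ ⊆ σ
      · rw [if_neg (not_not.2 hτσ)] at hp
        exact absurd hp (Set.notMem_empty p)
      · rw [if_pos hτσ] at hp
        exact hG3 σ hσ hτσ p.1 hp.1 p.2 hp.2
    · by_cases hc : σ.card ≤ n
      · rw [if_pos hc] at hp
        have h1 : p = (p.1, 1) := Prod.ext rfl hp.2
        rw [h1]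
        exact hG4 σ hσ hc p.1 hp.1
      · rw [if_neg hc] at hp
        exact absurd hp (Set.notMem_empty p)
  obtain ⟨ε, hε, hεB⟩ : ∃ ε > 0, ∀ p ∈ Bad, ε ≤ dist (G p) x := by
    have h1 : IsClosed (G '' Bad) := (hBadc.image_of_continuousOn (hG.mono hBadX)).isClosed
    have h2 : x ∉ G '' Bad := by
      rintro ⟨p, hp, hpx⟩
      exact hBadx p hp hpx
    obtain ⟨ε, hε, hb⟩ := Metric.isOpen_iff.1 h1.isOpen_compl x h2
    refine ⟨ε, hε, fun p hp => ?_⟩
    by_contra h3
    exact hb (Metric.mem_ball.2 (not_le.1 h3)) ⟨p, hp, rfl⟩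
  obtain ⟨δ, hδ, Ψ, hΨ, _⟩ := sel Δ x hxn hx1 v0 (hxp v0 hv0) G hG hm Bad ε hε hεB
  -- the four properties
  have hsub : ∀ σ ∈ Δ.faces, cell σ ×ˢ Set.Icc (0 : ℝ) 1 ⊆ realization Δ ×ˢ Set.Icc (0 : ℝ) 1 :=
    fun σ hσ => Set.prod_mono (cell_sub Δ σ hσ) (Set.Subset.refl _)
  have hbadl : ∀ l : List ((V → ℝ) × ℝ), (∀ p ∈ l, p ∈ Bad) →
      (∀ p ∈ l, ∀ q ∈ l, dist p q < δ) → ¬ τ ⊆ (l.map Ψ).toFinset := by
    intro l hl hd hτl
    have hcov : ∀ v ∈ τ, ∃ p ∈ l, Ψ p = v := by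
      intro v hv
      exact List.mem_map.1 (List.mem_toFinset.1 (hτl hv))
    obtain ⟨q, hq, _⟩ := hcov v0 hv0
    have hqX := hBadX (hl q hq)
    have h1 : ∀ v ∈ τ, x v < G q v := by
      intro v hv
      obtain ⟨p, hp, rfl⟩ := hcov v hv
      exact (hΨ p q (hBadX (hl p hp)) hqX (hd p hp q hq)).2 (hl p hp)
    have h2 := Finset.sum_lt_sum_of_nonempty ⟨v0, hv0⟩ h1
    rw [hxτ] at h2
    have h3 := hm q hqX
    have h4 : ∑ v ∈ τ, G q v ≤ ∑ v, G q v :=
      Finset.sum_le_sum_of_subset_of_nonneg (Finset.subset_univ _) fun v _ _ => h3.1 v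
    rw [h3.2.1] at h4
    linarith
  refine acy_local Δ τ n δ hδ Ψ ?_ ?_ ?_ ?_ k hk
  · intro σ hσ l hl
    by_cases hl0 : l = []
    · rw [hl0]; exact Δ.empty_mem
    · obtain ⟨q, hq⟩ := List.exists_mem_of_ne_nil l hl0
      have hqX := hsub σ hσ (hl.1 q hq)
      obtain ⟨_, _, ρ, hρ, hρ0⟩ := hm q hqX
      refine Δ.down ρ hρ _ ?_
      intro v hv
      obtain ⟨p, hp, rfl⟩ := List.mem_map.1 (List.mem_toFinset.1 hv)
      have h1 := (hΨ p q (hsub σ hσ (hl.1 p hp)) hqX (hl.2 p hp q hq)).1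
      by_contra h2
      rw [hρ0 _ h2] at h1
      exact lt_irrefl _ h1
  · intro σ hσ l hl v hv
    obtain ⟨p, hp, rfl⟩ := List.mem_map.1 (List.mem_toFinset.1 hv)
    have hpm := hl.1 p hp
    have hpX : p ∈ realization Δ ×ˢ Set.Icc (0 : ℝ) 1 := by
      refine ⟨cell_sub Δ σ hσ hpm.1, ?_⟩
      rw [Set.mem_singleton_iff.1 hpm.2]
      exact ⟨le_rfl, zero_le_one⟩
    have h1 := (hΨ p p hpX hpX (by rw [dist_self]; exact hδ)).1
    have h2 : G p = p.1 := by
      have h3 : p = (p.1, 0) := Prod.ext rfl hpm.2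
      rw [h3]
      exact hG0 p.1 (cell_sub Δ σ hσ hpm.1)
    rw [h2] at h1
    by_contra h4
    rw [hpm.1.2.2 _ h4] at h1
    exact lt_irrefl _ h1
  · intro σ hσ hτσ l hl
    exact hbadl l (fun p hp => hBad1 σ hσ hτσ p (hl.1 p hp)) hl.2
  · intro σ hσ hc l hl
    exact hbadl l (fun p hp => hBad2 σ hσ hc p (hl.1 p hp)) hl.2

lemma acy_ball_global (Δ : Cx V) (n : ℕ) (h : IsBall Δ n) (k : ℕ) : Acy Δ ℝ ∅ k := by
  classical
  obtain ⟨f, e, hf, he, hfB, heX, hef, hfe⟩ := ball_data Δ n h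
  have h0B : (0 : EuclideanSpace ℝ (Fin n)) ∈
      Metric.closedBall (0 : EuclideanSpace ℝ (Fin n)) 1 := by simp
  obtain ⟨hz0, hz1, ρ, hρ, hρ0⟩ := heX 0 h0B
  obtain ⟨v0, hv0⟩ : ∃ v, e 0 v ≠ 0 := by
    by_contra hcon
    push Not at hcon
    rw [Finset.sum_eq_zero fun v _ => hcon v] at hz1
    exact zero_ne_one hz1
  have hv0f : {v0} ∈ Δ.faces := by
    refine Δ.down ρ hρ _ ?_
    rw [Finset.singleton_subset_iff]
    by_contra hcon
    exact hv0 (hρ0 v0 hcon)
  rcases Nat.eq_zero_or_pos k with rfl | hk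
  · exact acy_zero Δ v0 hv0f
  have hmix : ∀ u ∈ realization Δ, ∀ t ∈ Set.Icc (0 : ℝ) 1,
      (1 - t) • f u ∈ Metric.closedBall (0 : EuclideanSpace ℝ (Fin n)) 1 := by
    intro u hu t ht
    have h1 : ‖f u‖ ≤ 1 := by simpa using hfB u hu
    rw [Metric.mem_closedBall, dist_zero_right, norm_smul, Real.norm_eq_abs,
      abs_of_nonneg (by linarith [ht.2])]
    have h2 := mul_le_mul_of_nonneg_left h1 (by linarith [ht.2] : 0 ≤ 1 - t)
    linarith [ht.1]
  let G : (V → ℝ) × ℝ → (V → ℝ) := fun p => e ((1 - p.2) • f p.1)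
  have hG : ContinuousOn G (realization Δ ×ˢ Set.Icc (0 : ℝ) 1) := by
    refine he.comp (t := Metric.closedBall (0 : EuclideanSpace ℝ (Fin n)) 1)
      (f := fun p : (V → ℝ) × ℝ => (1 - p.2) • f p.1) ?_ ?_
    · apply Continuous.continuousOn
      exact (continuous_const.sub continuous_snd).smul (hf.comp continuous_fst)
    · intro p hp
      exact hmix p.1 hp.1 p.2 hp.2
  have hm : ∀ p ∈ realization Δ ×ˢ Set.Icc (0 : ℝ) 1, G p ∈ realization Δ :=
    fun p hp => heX _ (hmix p.1 hp.1 p.2 hp.2)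
  have hxn : ∀ v, 0 ≤ (Pi.single v0 1 : V → ℝ) v := by
    intro v
    by_cases hv : v = v0
    · rw [hv, Pi.single_eq_same]; exact zero_le_one
    · rw [Pi.single_eq_of_ne hv]
  obtain ⟨δ, hδ, Ψ, hΨ, hΨc⟩ := sel Δ (Pi.single v0 1) hxn (by simp) v0 (by simp) G hG hm ∅ 1
    one_pos (fun p hp => absurd hp (Set.notMem_empty p))
  have hsub : ∀ σ ∈ Δ.faces, cell σ ×ˢ Set.Icc (0 : ℝ) 1 ⊆ realization Δ ×ˢ Set.Icc (0 : ℝ) 1 :=
    fun σ hσ => Set.prod_mono (cell_sub Δ σ hσ) (Set.Subset.refl _)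
  refine acy_global Δ δ hδ Ψ ?_ ?_ (Ψ (0, 1)) ?_ k hk
  · intro σ hσ l hl
    by_cases hl0 : l = []
    · rw [hl0]; exact Δ.empty_mem
    · obtain ⟨q, hq⟩ := List.exists_mem_of_ne_nil l hl0
      have hqX := hsub σ hσ (hl.1 q hq)
      obtain ⟨_, _, ρ, hρ, hρ0⟩ := hm q hqX
      refine Δ.down ρ hρ _ ?_
      intro v hv
      obtain ⟨p, hp, rfl⟩ := List.mem_map.1 (List.mem_toFinset.1 hv)
      have h1 := (hΨ p q (hsub σ hσ (hl.1 p hp)) hqX (hl.2 p hp q hq)).1
      by_contra h2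
      rw [hρ0 _ h2] at h1
      exact lt_irrefl _ h1
  · intro σ hσ l hl v hv
    obtain ⟨p, hp, rfl⟩ := List.mem_map.1 (List.mem_toFinset.1 hv)
    have hpm := hl.1 p hp
    have hpX : p ∈ realization Δ ×ˢ Set.Icc (0 : ℝ) 1 := by
      refine ⟨cell_sub Δ σ hσ hpm.1, ?_⟩
      rw [Set.mem_singleton_iff.1 hpm.2]
      exact ⟨le_rfl, zero_le_one⟩
    have h1 := (hΨ p p hpX hpX (by rw [dist_self]; exact hδ)).1
    have h2 : G p = p.1 := by
      show e ((1 - p.2) • f p.1) = p.1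
      rw [Set.mem_singleton_iff.1 hpm.2, sub_zero, one_smul]
      exact hef _ (cell_sub Δ σ hσ hpm.1)
    rw [h2] at h1
    by_contra h4
    rw [hpm.1.2.2 _ h4] at h1
    exact lt_irrefl _ h1
  · intro σ hσ p hp
    apply hΨc
    show e ((1 - p.2) • f p.1) = e ((1 - (1 : ℝ)) • f 0)
    rw [Set.mem_singleton_iff.1 hp.2, sub_self, zero_smul, zero_smul]

lemma acy_ball (Δ : Cx V) (n : ℕ) (h : IsBall Δ n) (τ : Finset V) (k : ℕ) (hk : k ≤ n) :
    Acy Δ ℝ τ k := by
  rcases Finset.eq_empty_or_nonempty τ with rfl | hne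
  · exact acy_ball_global Δ n h k
  · rcases Nat.eq_zero_or_pos n with hn | hn
    · refine acy_trivial Δ τ k fun σ _ h1 h2 => ?_
      have h3 := Finset.card_le_card h1
      have h4 := Finset.card_pos.2 hne
      omega
    · by_cases hτ : τ ∈ Δ.faces
      · exact acy_ball_local Δ n hn h τ hτ hne k hk
      · exact acy_trivial Δ τ k fun σ hσ h1 _ => hτ (Δ.down σ hσ _ h1)

end topology


end Pool.Agent.Helper611.Base
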