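import Pool.Agent.Helper611.KVal

set_option autoImplicit false
set_option linter.unusedSectionVars false
set_option linter.unnecessarySimpa false

namespace Pool.Agent.Helper611.KDim

open ExteriorAlgebra Pool.Agent.Helper611.ZBase Pool.Agent.Helper611.KRel
  Pool.Agent.Helper611.KVal

section scalar
variable {V : Type} [Fintype V] [LinearOrder V] (F : Type) [Field F]

/-- scalar chains -/
def CS (Γ : Cx V) (k : ℕ) : Submodule F (Finset V → F) where
  carrier := {c | ∀ σ, c σ ≠ 0 → σ ∈ Γ.faces ∧ σ.card = k}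
  add_mem' := by
    intro a b ha hb σ hσ
    by_cases h : a σ = 0
    · exact hb σ fun h2 => hσ (by rw [Pi.add_apply, h, h2, add_zero])
    · exact ha σ h
  zero_mem' := fun σ hσ => absurd rfl hσ
  smul_mem' := by
    intro r a ha σ hσ
    exact ha σ fun h2 => hσ (by rw [Pi.smul_apply, h2, smul_zero])

/-- the boundary as a linear map -/
def bdS : (Finset V → F) →ₗ[F] (Finset V → F) where
  toFun := fun c => bd c
  map_add' := fun a b => funext fun ρ => bd_add a b ρ
  map_smul' := by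
    intro r a
    funext ρ
    simp only [Pi.smul_apply, RingHom.id_apply]
    unfold bd
    rw [Finset.smul_sum]
    exact Finset.sum_congr rfl fun x _ => by rw [Pi.smul_apply, smul_comm]

lemma bdS_apply (c : Finset V → F) : bdS F c = bd c := rfl

/-- scalar cycles -/
def ZS (Γ : Cx V) (k : ℕ) : Submodule F (Finset V → F) := CS F Γ k ⊓ LinearMap.ker (bdS F)

/-- scalar boundaries -/
def BS (Γ : Cx V) (k : ℕ) : Submodule F (Finset V → F) := (CS F Γ (k + 1)).map (bdS F)

/-- rank and nullity -/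
lemma fr_map {A B : Type*} [AddCommGroup A] [Module F A] [AddCommGroup B] [Module F B]
    [FiniteDimensional F A] (f : A →ₗ[F] B) (S : Submodule F A) :
    Module.finrank F (S.map f) + Module.finrank F (S ⊓ LinearMap.ker f : Submodule F A) =
      Module.finrank F S := by
  have h1 := LinearMap.finrank_range_add_finrank_ker (f.domRestrict S)
  have h2 : LinearMap.range (f.domRestrict S) = S.map f := by
    ext c
    constructor
    · rintro ⟨b, rfl⟩
      exact ⟨b.1, b.2, rfl⟩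
    · rintro ⟨b, hb, rfl⟩
      exact ⟨⟨b, hb⟩, rfl⟩
  have h3 : (LinearMap.ker (f.domRestrict S)).map S.subtype = S ⊓ LinearMap.ker f := by
    ext c
    constructor
    · rintro ⟨b, hb, rfl⟩
      exact ⟨b.2, hb⟩
    · rintro ⟨hc, hc2⟩
      exact ⟨⟨c, hc⟩, hc2, rfl⟩
  rw [← h1, h2, ← h3, Submodule.finrank_map_subtype_eq]

lemma CS_step (Γ : Cx V) (k : ℕ) : Module.finrank F (CS F Γ (k + 1)) =
    Module.finrank F (BS F Γ k) + Module.finrank F (ZS F Γ (k + 1)) :=
  (fr_map F (bdS F) (CS F Γ (k + 1))).symm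

lemma CS_zero (Γ : Cx V) : ZS F Γ 0 = CS F Γ 0 := by
  refine le_antisymm inf_le_left (le_inf le_rfl ?_)
  intro c hc
  show bd c = 0
  funext ρ
  refine bd_eq_zero _ _ fun x _ => ?_
  by_contra h2
  exact Finset.insert_ne_empty _ _ (Finset.card_eq_zero.1 (hc _ h2).2)

lemma CS_finrank (Γ : Cx V) (k : ℕ) : Module.finrank F (CS F Γ k) =
    (Γ.faces.filter fun σ => σ.card = k).card := by
  classical
  let T : Finset (Finset V) := Γ.faces.filter fun σ => σ.card = k
  have hT : ∀ σ, σ ∈ T ↔ σ ∈ Γ.faces ∧ σ.card = k := fun σ => by simp [T]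
  let e : (CS F Γ k) ≃ₗ[F] ((σ : T) → F) :=
    { toFun := fun c σ => c.1 σ.1
      map_add' := fun a b => rfl
      map_smul' := fun r a => rfl
      invFun := fun f => ⟨fun σ => if h : σ ∈ T then f ⟨σ, h⟩ else 0, by
        intro σ hσ
        by_cases h : σ ∈ T
        · exact (hT σ).1 h
        · simp only [dif_neg h] at hσ
          exact absurd rfl hσ⟩
      left_inv := by
        intro c
        apply Subtype.ext
        funext σ
        by_cases h : σ ∈ T
        · exact dif_pos h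
        · refine (dif_neg h).trans ?_
          by_contra h2
          exact h ((hT σ).2 (c.2 σ (Ne.symm h2)))
      right_inv := by
        intro f
        funext σ
        exact dif_pos σ.2 }
  rw [e.finrank_eq, Module.finrank_fintype_fun_eq_card, Fintype.card_coe]

/-- partial Euler characteristic -/
noncomputable def chi (Γ : Cx V) (s : ℕ) : ℤ :=
  (∑ j ∈ Finset.range (s + 1), (-1 : ℤ) ^ (s - j) *
    ((Γ.faces.filter fun σ => σ.card = j).card : ℤ)) - (Module.finrank F (BS F Γ s) : ℤ)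

lemma alt_step (f : ℕ → ℤ) (s : ℕ) :
    ∑ j ∈ Finset.range (s + 1 + 1), (-1 : ℤ) ^ (s + 1 - j) * f j =
      f (s + 1) - ∑ j ∈ Finset.range (s + 1), (-1 : ℤ) ^ (s - j) * f j := by
  rw [Finset.sum_range_succ]
  have h3 : ∑ j ∈ Finset.range (s + 1), (-1 : ℤ) ^ (s + 1 - j) * f j =
      - ∑ j ∈ Finset.range (s + 1), (-1 : ℤ) ^ (s - j) * f j := by
    rw [← Finset.sum_neg_distrib]
    refine Finset.sum_congr rfl fun j hj => ?_
    have h4 : s + 1 - j = s - j + 1 := by
      have := Finset.mem_range.1 hj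
      omega
    rw [h4, pow_succ]; ring
  rw [h3, Nat.sub_self, pow_zero, one_mul]
  ring

lemma chi_zero (Γ : Cx V) : chi F Γ 0 = (Module.finrank F (ZS F Γ 0) : ℤ) -
    (Module.finrank F (BS F Γ 0) : ℤ) := by
  unfold chi
  rw [CS_zero, CS_finrank]
  simp

lemma chi_step (Γ : Cx V) (s : ℕ) : chi F Γ (s + 1) = (Module.finrank F (ZS F Γ (s + 1)) : ℤ) -
    (Module.finrank F (BS F Γ (s + 1)) : ℤ) - chi F Γ s := by
  unfold chi
  rw [alt_step (fun j => ((Γ.faces.filter fun σ => σ.card = j).card : ℤ)) s]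
  have h1 := CS_step F Γ s
  rw [CS_finrank] at h1
  have h2 := congrArg (fun t : ℕ => (t : ℤ)) h1
  push_cast at h2
  linarith

end scalar

section compare
variable {U V : Type} [Fintype U] [LinearOrder U] [Fintype V] [LinearOrder V] (F : Type) [Field F]

lemma chi_eq (Γ : Cx V) (Γ' : Cx U)
    (h : ∀ k, Module.finrank F (ZS F Γ' k) + Module.finrank F (BS F Γ k) =
      Module.finrank F (ZS F Γ k) + Module.finrank F (BS F Γ' k)) (s : ℕ) :
    chi F Γ' s = chi F Γ s := by
  induction s with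
  | zero =>
    rw [chi_zero, chi_zero]
    have h2 := congrArg (fun t : ℕ => (t : ℤ)) (h 0)
    push_cast at h2
    linarith
  | succ s ih =>
    rw [chi_step, chi_step, ih]
    have h2 := congrArg (fun t : ℕ => (t : ℤ)) (h (s + 1))
    push_cast at h2
    linarith

/-- comparison of homology -/
lemma hom_eq (Γ : Cx V) (Γ' : Cx U) (k : ℕ) (ψ : (Finset U → F) →ₗ[F] (Finset V → F))
    (φ : (Finset V → F) → (Finset U → F))
    (hψC : ∀ k, ∀ c ∈ CS F Γ' k, ψ c ∈ CS F Γ k) (hψb : ∀ k, ∀ c ∈ CS F Γ' k, ψ (bd c) = bd (ψ c))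
    (hφC : ∀ k, ∀ c ∈ CS F Γ k, φ c ∈ CS F Γ' k) (hφb : ∀ k, ∀ c ∈ CS F Γ k, φ (bd c) = bd (φ c))
    (hφ0 : φ 0 = 0)
    (hψφ : ∀ k, ∀ c ∈ CS F Γ k, ψ (φ c) = c)
    (hN : ∀ c ∈ ZS F Γ' k, ∃ b ∈ CS F Γ' (k + 1), c - φ (ψ c) = bd b) :
    Module.finrank F (ZS F Γ' k) + Module.finrank F (BS F Γ k) =
      Module.finrank F (ZS F Γ k) + Module.finrank F (BS F Γ' k) := by
  have h1 := fr_map F ψ (ZS F Γ' k)
  have h2 := fr_map F ψ (BS F Γ' k)
  have e1 : (ZS F Γ' k).map ψ = ZS F Γ k := by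
    ext c
    constructor
    · rintro ⟨b, ⟨hb, hb2⟩, rfl⟩
      refine ⟨hψC k b hb, ?_⟩
      show bd (ψ b) = 0
      rw [← hψb k b hb]
      have : bd b = 0 := hb2
      rw [this, map_zero]
    · rintro ⟨hc, hc2⟩
      refine ⟨φ c, ⟨hφC k c hc, ?_⟩, hψφ k c hc⟩
      show bd (φ c) = 0
      rw [← hφb k c hc]
      have : bd c = 0 := hc2
      rw [this, hφ0]
  have e2 : (BS F Γ' k).map ψ = BS F Γ k := by
    ext c
    constructor
    · rintro ⟨b, ⟨a, ha, rfl⟩, rfl⟩
      exact ⟨ψ a, hψC _ a ha, (hψb _ a ha).symm⟩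
    · rintro ⟨a, ha, rfl⟩
      refine ⟨bd (φ a), ⟨φ a, hφC _ a ha, rfl⟩, ?_⟩
      rw [hψb _ _ (hφC _ a ha), hψφ _ a ha]
      rfl
  have e3 : ZS F Γ' k ⊓ LinearMap.ker ψ = BS F Γ' k ⊓ LinearMap.ker ψ := by
    refine le_antisymm (le_inf ?_ inf_le_right) (le_inf ?_ inf_le_right)
    · rintro c ⟨hc, hc2⟩
      obtain ⟨b, hb, hb2⟩ := hN c hc
      have h3 : ψ c = 0 := hc2
      rw [h3, hφ0, sub_zero] at hb2
      exact ⟨b, hb, hb2.symm⟩
    · rintro c ⟨⟨b, hb, rfl⟩, _⟩
      refine ⟨?_, funext fun ρ => bd_bd b ρ⟩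
      intro σ hσ
      obtain ⟨x, hx, hx2⟩ := bd_ne b σ hσ
      obtain ⟨h4, h5⟩ := hb _ hx2
      refine ⟨Γ'.down _ h4 _ (Finset.subset_insert _ _), ?_⟩
      rw [Finset.card_insert_of_notMem hx] at h5
      omega
  rw [e1, e3] at h1
  rw [e2] at h2
  omega

end compare

section twist
variable {V : Type} [Fintype V] [LinearOrder V] {K : Type} [Field K] {d : ℕ}

/-- boundaries -/
noncomputable def BB (P : Finset V → Prop) (p : V → (Fin d → K)) (s k : ℕ) :
    Submodule K (Finset V → ExteriorAlgebra K (Fin d → K)) := (CC P p s (k + 1)).map (rbd P)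

lemma CC_step (P : Finset V → Prop) (p : V → (Fin d → K)) (s k : ℕ) :
    Module.finrank K (CC P p s (k + 1)) =
    Module.finrank K (BB P p s k) + Module.finrank K (ZZ P p s (k + 1)) := by
  have := CC_fin (V := V) (K := K) (d := d)
  exact (fr_map K (rbd P) (CC P p s (k + 1))).symm

lemma mem_CC0 (P : Finset V → Prop) (s k : ℕ) (c : Finset V → ExteriorAlgebra K (Fin d → K)) :
    c ∈ CC P (0 : V → (Fin d → K)) s k ↔
      (∀ σ, c σ ≠ 0 → P σ ∧ σ.card = k) ∧ ∀ σ, c σ ∈ ⋀[K]^s (Fin d → K) := by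
  constructor
  · rintro ⟨h1, h2⟩
    exact ⟨h1, fun σ => (h2 σ).1⟩
  · rintro ⟨h1, h2⟩
    refine ⟨h1, fun σ => ⟨h2 σ, fun x _ => ?_⟩⟩
    rw [Pi.zero_apply, map_zero, mul_zero]

lemma CC_le0 (P : Finset V → Prop) (p : V → (Fin d → K)) (s k : ℕ) :
    CC P p s k ≤ CC P 0 s k := by
  rintro c ⟨h1, h2⟩
  exact (mem_CC0 P s k c).2 ⟨h1, fun σ => (h2 σ).1⟩

lemma split_one (P : Finset V → Prop) (hP : Cvx P) (p : V → (Fin d → K)) (s : ℕ) (hs : s ≤ d)
    (hdual : Dual P p)
    (hacy : ∀ (s' : ℕ) (A τ : Finset V) (k : ℕ), s' ≤ d → τ.Nonempty → k < s' →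
      AcyV P p s' A τ k)
    (k : ℕ) (hk : k ≤ s) (w : Finset V → ExteriorAlgebra K (Fin d → K)) (hw : w ∈ CC P 0 s k)
    (hw2 : ∀ ρ, P ρ → ∀ x ∈ ρ, bd w ρ * ι K (p x) = 0) :
    ∃ u ∈ CC P (0 : V → (Fin d → K)) s (k + 1), w - rbd P u ∈ CC P p s k := by
  obtain ⟨hw0, hw1⟩ := (mem_CC0 P s k w).1 hw
  obtain ⟨u, hu, hu1, hu2⟩ := kill_all P hP p s hs hdual hacy ∅ ∅ k hk w
    (fun σ hσ => ⟨(hw0 σ hσ).1, Finset.empty_subset _, (hw0 σ hσ).2⟩)
    (fun σ => ⟨hw1 σ, fun x _ hx => absurd hx (Finset.notMem_empty x)⟩)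
    (fun ρ _ hρ x hx => hw2 ρ hρ x hx) Finset.univ
  have hu3 : u ∈ CC P (0 : V → (Fin d → K)) s (k + 1) :=
    (mem_CC0 P s (k + 1) u).2 ⟨fun σ hσ => ⟨(hu σ hσ).1, (hu σ hσ).2.2⟩, fun σ => (hu1 σ).1⟩
  refine ⟨u, hu3, ?_, ?_⟩
  · intro σ hσ
    by_cases h : w σ = 0
    · have h2 : rbd P u σ ≠ 0 := fun h3 => hσ (by rw [Pi.sub_apply, h, h3, sub_zero])
      exact (rbd_CC P 0 s k u hu3).1 σ h2
    · exact hw0 σ h
  · intro σ
    by_cases h : P σ
    · rw [Pi.sub_apply, rbd_pos P u σ h]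
      have h2 := hu2 σ (Finset.empty_subset _) h
      exact ⟨h2.1, fun x hx => h2.2 x hx (Finset.mem_union_right _ (Finset.mem_univ _))⟩
    · rw [Pi.sub_apply, rbd_neg P u σ h, sub_zero]
      have : w σ = 0 := by
        by_contra h2
        exact h (hw0 σ h2).1
      rw [this]
      exact Submodule.zero_mem _

lemma BB0_le (P : Finset V → Prop) (hP : Cvx P) (p : V → (Fin d → K)) (s k : ℕ) :
    BB P p s k ≤ ZZ P p s k := by
  rintro c ⟨b, hb, rfl⟩
  exact ⟨rbd_CC P p s k b hb, rbd_rbd P hP b fun σ hσ => (hb.1 σ hσ).1⟩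

lemma sup_eq (P : Finset V → Prop) (hP : Cvx P) (p : V → (Fin d → K)) (s : ℕ) (hs : s ≤ d)
    (hdual : Dual P p)
    (hacy : ∀ (s' : ℕ) (A τ : Finset V) (k : ℕ), s' ≤ d → τ.Nonempty → k < s' →
      AcyV P p s' A τ k) (k : ℕ) (hk : k ≤ s) :
    ZZ P p s k ⊔ BB P 0 s k = ZZ P 0 s k := by
  refine le_antisymm (sup_le ?_ (BB0_le P hP 0 s k)) ?_
  · exact inf_le_inf_right _ (CC_le0 P p s k)
  · rintro w ⟨hw, hw2⟩
    have hw3 : rbd P w = 0 := hw2
    obtain ⟨u, hu, hu2⟩ := split_one P hP p s hs hdual hacy k hk w hw (fun ρ hρ x _ => by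
      rw [← rbd_pos P w ρ hρ, hw3, Pi.zero_apply, zero_mul])
    have h3 : rbd P u ∈ BB P (0 : V → (Fin d → K)) s k := ⟨u, hu, rfl⟩
    have h4 : w - rbd P u ∈ ZZ P p s k := by
      refine ⟨hu2, ?_⟩
      show rbd P (w - rbd P u) = 0
      rw [map_sub, hw3, rbd_rbd P hP u fun σ hσ => (hu.1 σ hσ).1, sub_zero]
    have h5 : w = (w - rbd P u) + rbd P u := by abel
    rw [h5]
    exact Submodule.add_mem_sup h4 h3

lemma inf_eq (P : Finset V → Prop) (hP : Cvx P) (p : V → (Fin d → K)) (s : ℕ) (hs : s ≤ d)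
    (hdual : Dual P p)
    (hacy : ∀ (s' : ℕ) (A τ : Finset V) (k : ℕ), s' ≤ d → τ.Nonempty → k < s' →
      AcyV P p s' A τ k) (k : ℕ) (hk : k < s) :
    ZZ P p s k ⊓ BB P 0 s k = BB P p s k := by
  refine le_antisymm ?_ (le_inf (BB0_le P hP p s k) (Submodule.map_mono (CC_le0 P p s (k + 1))))
  rintro w ⟨hw, ⟨u, hu, rfl⟩⟩
  obtain ⟨v, hv, hv2⟩ := split_one P hP p s hs hdual hacy (k + 1) (by omega) u hu
    (fun ρ hρ x hx => by
      rw [← rbd_pos P u ρ hρ]
      exact (hw.1.2 ρ).2 x hx)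
  refine ⟨u - rbd P v, hv2, ?_⟩
  rw [map_sub, rbd_rbd P hP v fun σ hσ => (hv.1 σ hσ).1, sub_zero]

open Classical in
lemma CC0_finrank (P : Finset V → Prop) (p : V → (Fin d → K)) (s k : ℕ) :
    Module.finrank K (CC P (0 : V → (Fin d → K)) s k) =
      (Finset.univ.filter fun σ : Finset V => P σ ∧ σ.card = k).card * d.choose s := by
  have := ext_fin (K := K) (d := d)
  let T : Finset (Finset V) := Finset.univ.filter fun σ : Finset V => P σ ∧ σ.card = k
  have hT : ∀ σ, σ ∈ T ↔ P σ ∧ σ.card = k := fun σ => by simp [T]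
  let e : (CC P (0 : V → (Fin d → K)) s k) ≃ₗ[K] ((σ : T) → MA p s ∅) :=
    { toFun := fun c σ => ⟨c.1 σ.1, (c.2.2 σ.1).1, fun x hx => absurd hx (Finset.notMem_empty x)⟩
      map_add' := fun a b => rfl
      map_smul' := fun r a => rfl
      invFun := fun f => ⟨fun σ => if h : σ ∈ T then (f ⟨σ, h⟩).1 else 0, by
        refine (mem_CC0 P s k _).2 ⟨fun σ hσ => ?_, fun σ => ?_⟩
        · by_cases h : σ ∈ T
          · exact (hT σ).1 h
          · simp only [dif_neg h] at hσ
            exact absurd rfl hσ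
        · by_cases h : σ ∈ T
          · simp only [dif_pos h]
            exact (f ⟨σ, h⟩).2.1
          · simp only [dif_neg h]
            exact Submodule.zero_mem _⟩
      left_inv := by
        intro c
        apply Subtype.ext
        funext σ
        by_cases h : σ ∈ T
        · exact dif_pos h
        · refine (dif_neg h).trans ?_
          by_contra h2
          exact h ((hT σ).2 (c.2.1 σ (Ne.symm h2)))
      right_inv := by
        intro f
        funext σ
        apply Subtype.ext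
        exact dif_pos σ.2 }
  rw [e.finrank_eq, Module.finrank_pi_fintype]
  have h1 : Module.finrank K (MA p s ∅) = d.choose s := by
    rw [MA_finrank p d frk ∅ (Nat.zero_le _) (fun v hv => absurd hv (Finset.notMem_empty v)) s,
      Finset.card_empty, if_pos (Nat.zero_le _), Nat.sub_zero, Nat.sub_zero]
  rw [Finset.sum_congr rfl (fun σ _ => h1), Finset.sum_const, Finset.card_univ,
    Fintype.card_coe, smul_eq_mul]

/-- null-homologous admissible cycles -/
noncomputable def ZN (P : Finset V → Prop) (p : V → (Fin d → K)) (s : ℕ) :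
    Submodule K (Finset V → ExteriorAlgebra K (Fin d → K)) := ZZ P p s s ⊓ BB P 0 s s

open Classical in
lemma dim_formula (P : Finset V → Prop) (hP : Cvx P) (p : V → (Fin d → K)) (s : ℕ) (hs : s ≤ d)
    (hdual : Dual P p)
    (hacy : ∀ (s' : ℕ) (A τ : Finset V) (k : ℕ), s' ≤ d → τ.Nonempty → k < s' →
      AcyV P p s' A τ k) :
    ∑ j ∈ Finset.range (s + 1), (-1 : ℤ) ^ (s - j) * ((((d - j).choose (s - j) : ℕ) : ℤ) *
        ((Finset.univ.filter fun σ : Finset V => P σ ∧ σ.card = j).card : ℤ)) =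
      (Module.finrank K (ZN P p s) : ℤ) - (Module.finrank K (BB P (0 : V → (Fin d → K)) s s) : ℤ) +
      ((d.choose s : ℕ) : ℤ) * ∑ j ∈ Finset.range (s + 1), (-1 : ℤ) ^ (s - j) *
        ((Finset.univ.filter fun σ : Finset V => P σ ∧ σ.card = j).card : ℤ) := by
  have := CC_fin (V := V) (K := K) (d := d)
  let f : ℕ → ℤ := fun j => ((Finset.univ.filter fun σ : Finset V => P σ ∧ σ.card = j).card : ℤ)
  have hc : ∀ k, k ≤ s → (Module.finrank K (CC P p s k) : ℤ) =
      (((d - k).choose (s - k) : ℕ) : ℤ) * f k := by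
    intro k hk
    rw [CC_finrank P p d s k frk hs hdual hk]
    push_cast
    ring
  have hcc : ∀ k, (Module.finrank K (CC P (0 : V → (Fin d → K)) s k) : ℤ) =
      ((d.choose s : ℕ) : ℤ) * f k := by
    intro k
    rw [CC0_finrank P p s k]
    push_cast
    ring
  have key : ∀ k, k ≤ s → (Module.finrank K (ZZ P p s k) : ℤ) -
      (Module.finrank K (ZZ P (0 : V → (Fin d → K)) s k) : ℤ) =
      ∑ j ∈ Finset.range (k + 1), (-1 : ℤ) ^ (k - j) * ((((d - j).choose (s - j) : ℕ) : ℤ) * f j -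
        ((d.choose s : ℕ) : ℤ) * f j) := by
    intro k
    induction k with
    | zero =>
      intro h0
      rw [ZZ_zero, ZZ_zero, hc 0 h0, hcc 0]
      simp
    | succ k ih =>
      intro hk
      rw [alt_step (fun j => (((d - j).choose (s - j) : ℕ) : ℤ) * f j -
        ((d.choose s : ℕ) : ℤ) * f j) k, ← ih (by omega)]
      have h1 := CC_step P p s k
      have h2 := CC_step P (0 : V → (Fin d → K)) s k
      have h3 := Submodule.finrank_sup_add_finrank_inf_eq (ZZ P p s k)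
        (BB P (0 : V → (Fin d → K)) s k)
      rw [sup_eq P hP p s hs hdual hacy k (by omega), inf_eq P hP p s hs hdual hacy k (by omega)]
        at h3
      have h4 := hc (k + 1) hk
      have h5 := hcc (k + 1)
      have h1' := congrArg (fun t : ℕ => (t : ℤ)) h1
      have h2' := congrArg (fun t : ℕ => (t : ℤ)) h2
      have h3' := congrArg (fun t : ℕ => (t : ℤ)) h3
      push_cast at h1' h2' h3'
      linarith
  have h3 := Submodule.finrank_sup_add_finrank_inf_eq (ZZ P p s s) (BB P (0 : V → (Fin d → K)) s s)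
  rw [sup_eq P hP p s hs hdual hacy s le_rfl] at h3
  have h3' := congrArg (fun t : ℕ => (t : ℤ)) h3
  push_cast at h3'
  have h4 := key s le_rfl
  have h5 : ∑ j ∈ Finset.range (s + 1), (-1 : ℤ) ^ (s - j) *
      ((((d - j).choose (s - j) : ℕ) : ℤ) * f j - ((d.choose s : ℕ) : ℤ) * f j) =
      ∑ j ∈ Finset.range (s + 1), (-1 : ℤ) ^ (s - j) * ((((d - j).choose (s - j) : ℕ) : ℤ) * f j) -
      ((d.choose s : ℕ) : ℤ) * ∑ j ∈ Finset.range (s + 1), (-1 : ℤ) ^ (s - j) * f j := by
    rw [Finset.mul_sum, ← Finset.sum_sub_distrib]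
    exact Finset.sum_congr rfl fun j _ => by ring
  rw [h5] at h4
  have h6 : (Module.finrank K (ZN P p s) : ℤ) =
    (Module.finrank K (ZZ P p s s ⊓ BB P (0 : V → (Fin d → K)) s s : Submodule K _) : ℤ) := rfl
  show ∑ j ∈ Finset.range (s + 1), (-1 : ℤ) ^ (s - j) * ((((d - j).choose (s - j) : ℕ) : ℤ) * f j) =
    (Module.finrank K (ZN P p s) : ℤ) - (Module.finrank K (BB P (0 : V → (Fin d → K)) s s) : ℤ) +
      ((d.choose s : ℕ) : ℤ) * ∑ j ∈ Finset.range (s + 1), (-1 : ℤ) ^ (s - j) * f j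
  rw [h6]
  linarith

end twist


section theta
variable {V : Type} [Fintype V] [LinearOrder V] {K : Type} [Field K] {d : ℕ}

lemma rbd_eq_bd (Γ : Cx V) (w : Finset V → ExteriorAlgebra K (Fin d → K))
    (hw : ∀ σ, w σ ≠ 0 → σ ∈ Γ.faces) : rbd (fun σ => σ ∈ Γ.faces) w = bd w := by
  funext ρ
  by_cases h : ρ ∈ Γ.faces
  · exact rbd_pos _ w ρ h
  · rw [rbd_neg _ w ρ h]
    symm
    refine bd_eq_zero _ _ fun x _ => ?_
    by_contra h2
    exact h (Γ.down _ (hw _ h2) _ (Finset.subset_insert _ _))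

lemma BB0_finrank (Γ : Cx V) (p : V → (Fin d → K)) (s k : ℕ) :
    Module.finrank K (BB (fun σ => σ ∈ Γ.faces) (0 : V → (Fin d → K)) s k) =
      d.choose s * Module.finrank K (BS K Γ k) := by
  classical
  have := ext_fin (K := K) (d := d)
  let L : Submodule K (ExteriorAlgebra K (Fin d → K)) := MA p s ∅
  have hLm : ∀ ω, ω ∈ L ↔ ω ∈ ⋀[K]^s (Fin d → K) := fun ω =>
    ⟨fun h => h.1, fun h => ⟨h, fun x hx => absurd hx (Finset.notMem_empty x)⟩⟩
  have hL : Module.finrank K L = d.choose s := by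
    rw [MA_finrank p d frk ∅ (Nat.zero_le _) (fun v hv => absurd hv (Finset.notMem_empty v)) s,
      Finset.card_empty, if_pos (Nat.zero_le _), Nat.sub_zero, Nat.sub_zero]
  let b := Module.finBasis K L
  let m := Module.finrank K L
  let Θ : (Fin m → (Finset V → K)) →ₗ[K] (Finset V → ExteriorAlgebra K (Fin d → K)) :=
    { toFun := fun c σ => ∑ j, c j σ • (b j : ExteriorAlgebra K (Fin d → K))
      map_add' := by
        intro x y
        funext σ
        simp only [Pi.add_apply, add_smul, Finset.sum_add_distrib]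
      map_smul' := by
        intro r x
        funext σ
        simp only [Pi.smul_apply, smul_eq_mul, mul_smul, Finset.smul_sum, RingHom.id_apply] }
  have hΘ : ∀ c σ, Θ c σ = ∑ j, c j σ • (b j : ExteriorAlgebra K (Fin d → K)) := fun c σ => rfl
  have hΘbd : ∀ c, bd (Θ c) = Θ (fun j => bd (c j)) := by
    intro c
    funext ρ
    rw [hΘ]
    unfold bd
    simp only [hΘ, Finset.smul_sum, Finset.sum_smul]
    rw [Finset.sum_comm]
    refine Finset.sum_congr rfl fun j _ => Finset.sum_congr rfl fun x _ => ?_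
    rw [smul_assoc]
  have hinj : ∀ c, Θ c = 0 → ∀ j, c j = 0 := by
    intro c hc j
    funext σ
    have h1 : ∑ j, c j σ • b j = 0 := by
      apply Subtype.ext
      rw [Submodule.coe_sum]
      exact congrFun hc σ
    exact (Fintype.linearIndependent_iff.1 b.linearIndependent) (fun j => c j σ) h1 j
  let Θ' : (Fin m → BS K Γ k) →ₗ[K] (Finset V → ExteriorAlgebra K (Fin d → K)) :=
    Θ ∘ₗ (LinearMap.pi fun j => (BS K Γ k).subtype ∘ₗ LinearMap.proj j)
  have hΘ' : ∀ c, Θ' c = Θ (fun j => (c j : Finset V → K)) := fun c => rfl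
  have hinj' : Function.Injective Θ' := by
    rw [injective_iff_map_eq_zero]
    intro c hc
    funext j
    exact Subtype.ext (hinj _ hc j)
  have hr : LinearMap.range Θ' = BB (fun σ => σ ∈ Γ.faces) (0 : V → (Fin d → K)) s k := by
    ext w
    constructor
    · rintro ⟨c, rfl⟩
      rw [hΘ']
      have hg : ∀ j, ∃ g ∈ CS K Γ (k + 1), bd g = (c j : Finset V → K) := fun j => (c j).2
      choose g hg1 hg2 using hg
      have h1 : Θ g ∈ CC (fun σ => σ ∈ Γ.faces) (0 : V → (Fin d → K)) s (k + 1) := by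
        refine (mem_CC0 _ s (k + 1) _).2 ⟨fun σ hσ => ?_, fun σ => ?_⟩
        · rw [hΘ] at hσ
          obtain ⟨j, _, hj⟩ := Finset.exists_ne_zero_of_sum_ne_zero hσ
          exact hg1 j σ fun h => hj (by rw [h, zero_smul])
        · rw [hΘ]
          exact Submodule.sum_mem _ fun j _ => Submodule.smul_mem _ _ ((hLm _).1 (b j).2)
      refine ⟨Θ g, h1, ?_⟩
      rw [rbd_eq_bd Γ _ fun σ hσ => (h1.1 σ hσ).1, hΘbd]
      congr 1
      funext j
      exact hg2 j
    · rintro ⟨w, hw, rfl⟩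
      obtain ⟨hw1, hw2⟩ := (mem_CC0 _ s (k + 1) w).1 hw
      let g : Fin m → (Finset V → K) := fun j σ => b.repr ⟨w σ, (hLm _).2 (hw2 σ)⟩ j
      have hg : ∀ j, g j ∈ CS K Γ (k + 1) := by
        intro j σ hσ
        refine hw1 σ fun h0 => hσ ?_
        show b.repr ⟨w σ, (hLm _).2 (hw2 σ)⟩ j = 0
        have : (⟨w σ, (hLm _).2 (hw2 σ)⟩ : L) = 0 := Subtype.ext h0
        rw [this, map_zero]
        rfl
      have hgΘ : Θ g = w := by
        funext σ
        rw [hΘ]
        have h1 := b.sum_repr ⟨w σ, (hLm _).2 (hw2 σ)⟩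
        have h2 := congrArg (fun t : L => (t : ExteriorAlgebra K (Fin d → K))) h1
        simp only [Submodule.coe_sum, Submodule.coe_smul] at h2
        exact h2
      refine ⟨fun j => ⟨bd (g j), ⟨g j, hg j, rfl⟩⟩, ?_⟩
      rw [hΘ', rbd_eq_bd Γ w fun σ hσ => (hw1 σ hσ).1]
      show Θ (fun j => bd (g j)) = bd w
      rw [← hΘbd, hgΘ]
  rw [← hr, LinearMap.finrank_range_of_inj hinj', Module.finrank_pi_fintype, Finset.sum_const,
    Finset.card_univ, Fintype.card_fin, smul_eq_mul]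
  show Module.finrank K L * _ = _
  rw [hL]

lemma h_formula (Γ : Cx V) (p : V → (Fin d → K)) (s : ℕ) (hs : s ≤ d)
    (hdual : Dual (fun σ => σ ∈ Γ.faces) p)
    (hacy : ∀ (s' : ℕ) (A τ : Finset V) (k : ℕ), s' ≤ d → τ.Nonempty → k < s' →
      AcyV (fun σ => σ ∈ Γ.faces) p s' A τ k) :
    ∑ j ∈ Finset.range (s + 1), (-1 : ℤ) ^ (s - j) * ((((d - j).choose (s - j) : ℕ) : ℤ) *
        ((Γ.faces.filter fun σ => σ.card = j).card : ℤ)) =
      (Module.finrank K (ZN (fun σ => σ ∈ Γ.faces) p s) : ℤ) +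
      ((d.choose s : ℕ) : ℤ) * chi K Γ s := by
  classical
  have h1 := dim_formula (fun σ => σ ∈ Γ.faces)
    (fun _ ρ π _ h2 _ h4 => Γ.down π h4 ρ h2) p s hs hdual hacy
  rw [BB0_finrank Γ p s s] at h1
  have h2 : ∀ (j : ℕ) (inst : DecidablePred fun σ : Finset V => σ ∈ Γ.faces ∧ σ.card = j),
      (@Finset.filter _ (fun σ : Finset V => σ ∈ Γ.faces ∧ σ.card = j) inst Finset.univ) =
      Γ.faces.filter fun σ => σ.card = j := by
    intro j inst
    ext σ
    simp
  simp only [h2] at h1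
  rw [h1]
  unfold chi
  push_cast
  ring

/-- Extension of the field does not increase the rank of the boundary. -/
lemma BS_ext {L : Type} [Field L] [Algebra K L] (Γ : Cx V) (k : ℕ) :
    Module.finrank L (BS L Γ k) ≤ Module.finrank K (BS K Γ k) := by
  classical
  let b := Module.finBasis K (BS K Γ k)
  let e : Fin (Module.finrank K (BS K Γ k)) → (Finset V → L) :=
    fun j σ => algebraMap K L ((b j : Finset V → K) σ)
  have hle : BS L Γ k ≤ Submodule.span L (Set.range e) := by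
    rintro c ⟨g, hg, rfl⟩
    have hg2 : g = ∑ σ, g σ • (Pi.single σ (1 : L) : Finset V → L) := by
      funext ρ
      rw [Finset.sum_apply, Finset.sum_eq_single ρ]
      · rw [Pi.smul_apply, Pi.single_eq_same, smul_eq_mul, mul_one]
      · intro σ _ hσ
        rw [Pi.smul_apply, Pi.single_eq_of_ne (Ne.symm hσ), smul_zero]
      · intro h
        exact absurd (Finset.mem_univ _) h
    rw [hg2, map_sum]
    refine Submodule.sum_mem _ fun σ _ => ?_
    rw [map_smul]
    by_cases h0 : g σ = 0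
    · rw [h0, zero_smul]
      exact Submodule.zero_mem _
    refine Submodule.smul_mem _ _ ?_
    obtain ⟨h1, h2⟩ := hg σ h0
    have h3 : (Pi.single σ (1 : K) : Finset V → K) ∈ CS K Γ (k + 1) := by
      intro ρ hρ
      have : ρ = σ := by
        by_contra h
        exact hρ (Pi.single_eq_of_ne h _)
      rw [this]
      exact ⟨h1, h2⟩
    let x : BS K Γ k := ⟨bd (Pi.single σ (1 : K)), ⟨_, h3, rfl⟩⟩
    have h4 := b.sum_repr x
    have h5 : bdS L (Pi.single σ (1 : L)) = ∑ j, algebraMap K L (b.repr x j) • e j := by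
      funext ρ
      have h6 := congrArg (fun t : BS K Γ k => algebraMap K L ((t : Finset V → K) ρ)) h4
      simp only [Submodule.coe_sum, Submodule.coe_smul, Finset.sum_apply, Pi.smul_apply, map_sum,
        smul_eq_mul, map_mul] at h6
      rw [Finset.sum_apply]
      simp only [Pi.smul_apply, smul_eq_mul]
      rw [show (∑ j, algebraMap K L (b.repr x j) * e j ρ) = algebraMap K L ((x : Finset V → K) ρ)
        from h6]
      show bd (Pi.single σ (1 : L)) ρ = algebraMap K L (bd (Pi.single σ (1 : K)) ρ)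
      refine Eq.trans ?_ (bd_map (algebraMap K L).toAddMonoidHom (Pi.single σ (1 : K)) ρ)
      refine bd_congr _ _ _ fun π _ => ?_
      show _ = algebraMap K L ((Pi.single σ (1 : K) : Finset V → K) π)
      by_cases hπ : π = σ
      · rw [hπ, Pi.single_eq_same, Pi.single_eq_same, map_one]
      · rw [Pi.single_eq_of_ne hπ, Pi.single_eq_of_ne hπ, map_zero]
    rw [h5]
    exact Submodule.sum_mem _ fun j _ => Submodule.smul_mem _ _
      (Submodule.subset_span ⟨j, rfl⟩)
  calc Module.finrank L (BS L Γ k) ≤ Module.finrank L (Submodule.span L (Set.range e)) :=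
        Submodule.finrank_mono hle
    _ ≤ Fintype.card (Fin (Module.finrank K (BS K Γ k))) := finrank_range_le_card e
    _ = _ := Fintype.card_fin _

lemma chi_ext {L : Type} [Field L] [Algebra K L] (Γ : Cx V) (s : ℕ) :
    chi K Γ s ≤ chi L Γ s := by
  unfold chi
  have := BS_ext (K := K) (L := L) Γ s
  have h2 : (Module.finrank L (BS L Γ s) : ℤ) ≤ (Module.finrank K (BS K Γ s) : ℤ) := by
    exact_mod_cast this
  linarith

end theta

end Pool.Agent.Helper611.KDim
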