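import Pool.Agent.Helper611.KFam

set_option autoImplicit false
set_option linter.unusedSectionVars false
set_option linter.unnecessarySimpa false

namespace Pool.Agent.Helper611.KLim

open ExteriorAlgebra Pool.Agent.Helper611.ZBase Pool.Agent.Helper611.KRel
  Pool.Agent.Helper611.KTop Pool.Agent.Helper611.KVal Pool.Agent.Helper611.KMap
  Pool.Agent.Helper611.KFam Pool.Agent.Helper611.KSub Pool.Agent.Helper611.KDim

section zeta
variable {O : Type} [CommRing O] [IsDomain O] {L : Type} [Field L] [Algebra O L] {ι : Type}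
  [DecidableEq ι]

/-- the sum over a cluster of nodes is regular -/
lemma zeta_exists (D E : Finset ι) (a : ι → O)
    (hinj : Set.InjOn (fun i => algebraMap O L (a i)) D)
    (hu : ∀ u ∈ D, ∀ x ∈ E, IsUnit (a u - a x)) :
    ∃ ζ : O, algebraMap O L ζ = ∑ u ∈ D,
      ((∏ x ∈ D.erase u, (algebraMap O L (a u) - algebraMap O L (a x))) *
        ∏ x ∈ E, (algebraMap O L (a u) - algebraMap O L (a x)))⁻¹ := by
  let N : Polynomial O := ∏ x ∈ E, (Polynomial.X - Polynomial.C (a x))
  let M : Polynomial O := ∏ u ∈ D, (Polynomial.X - Polynomial.C (a u))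
  have hcop : IsCoprime N M := by
    refine IsCoprime.prod_left fun x hx => IsCoprime.prod_right fun u hu' => ?_
    exact (Polynomial.isCoprime_X_sub_C_of_isUnit_sub (hu u hu' x hx)).symm
  obtain ⟨Q, R, hQR⟩ := hcop
  have hMm : M.Monic := Polynomial.monic_prod_of_monic _ _ fun _ _ => Polynomial.monic_X_sub_C _
  have hMe : ∀ u ∈ D, M.eval (a u) = 0 := by
    intro u hu'
    show (∏ u ∈ D, (Polynomial.X - Polynomial.C (a u))).eval (a u) = 0
    rw [Polynomial.eval_prod, Finset.prod_eq_zero hu']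
    simp
  have hNe : ∀ u, N.eval (a u) = ∏ x ∈ E, (a u - a x) := by
    intro u
    show (∏ u ∈ E, (Polynomial.X - Polynomial.C (a u))).eval (a u) = _
    rw [Polynomial.eval_prod]
    simp
  have hQ : ∀ u ∈ D, Q.eval (a u) * ∏ x ∈ E, (a u - a x) = 1 := by
    intro u hu'
    have h := congrArg (Polynomial.eval (a u)) hQR
    rw [Polynomial.eval_add, Polynomial.eval_mul, Polynomial.eval_mul, hMe u hu', mul_zero,
      add_zero, Polynomial.eval_one, hNe] at h
    exact h
  have hdegM : M.degree = D.card := by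
    rw [Polynomial.degree_eq_natDegree hMm.ne_zero, Polynomial.natDegree_prod_of_monic _ _
      fun _ _ => Polynomial.monic_X_sub_C _]
    simp
  have hdeg : ((Q %ₘ M).map (algebraMap O L)).degree < D.card := by
    refine lt_of_le_of_lt Polynomial.degree_map_le ?_
    rw [← hdegM]
    exact Polynomial.degree_modByMonic_lt Q hMm
  refine ⟨(Q %ₘ M).coeff (D.card - 1), ?_⟩
  have h1 := Lagrange.coeff_eq_sum (s := D) (v := fun i => algebraMap O L (a i)) hinj hdeg
  rw [Polynomial.coeff_map] at h1
  rw [h1]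
  refine Finset.sum_congr rfl fun u hu' => ?_
  have h2 : ((Q %ₘ M).map (algebraMap O L)).eval (algebraMap O L (a u)) =
      (∏ x ∈ E, (algebraMap O L (a u) - algebraMap O L (a x)))⁻¹ := by
    rw [Polynomial.eval_map_algebraMap, Polynomial.aeval_algebraMap_apply]
    have h3 : (Q %ₘ M).eval (a u) = Q.eval (a u) := by
      have h4 := congrArg (Polynomial.eval (a u)) (Polynomial.modByMonic_add_div Q M)
      rw [Polynomial.eval_add, Polynomial.eval_mul, hMe u hu', zero_mul, add_zero] at h4
      exact h4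
    rw [Polynomial.coe_aeval_eq_eval, h3]
    have h5 := congrArg (algebraMap O L) (hQ u hu')
    rw [map_mul, map_prod, map_one] at h5
    simp only [map_sub] at h5
    exact eq_inv_of_mul_eq_one_left h5
  show ((Q %ₘ M).map (algebraMap O L)).eval (algebraMap O L (a u)) / _ = _
  rw [h2, mul_inv, mul_comm, div_eq_mul_inv, mul_comm]

end zeta

section indep
variable {K : Type} [Field K]

/-- lifting linear independence -/
lemma lift_indep {L : Type} [Field L] [Algebra (PowerSeries K) L]
    [IsFractionRing (PowerSeries K) L]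
    {X Y : Type} {n : ℕ} (T : (X → K) →ₗ[K] (Y → K)) (s : Fin n → (X → PowerSeries K))
    (hs : LinearIndependent K fun j => T (fun x => PowerSeries.constantCoeff (s j x))) :
    LinearIndependent L fun j => (fun x => algebraMap (PowerSeries K) L (s j x) : X → L) := by
  rw [← LinearIndependent.iff_fractionRing (PowerSeries K) L, Fintype.linearIndependent_iff]
  intro g hg
  have h1 : ∀ x, ∑ j, g j * s j x = 0 := by
    intro x
    have h2 := congrFun hg x
    rw [Finset.sum_apply, Pi.zero_apply] at h2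
    apply IsFractionRing.injective (PowerSeries K) L
    rw [map_sum, map_zero, ← h2]
    refine Finset.sum_congr rfl fun j _ => ?_
    rw [map_mul, Pi.smul_apply, Algebra.smul_def]
  have key : ∀ (m : ℕ) (g : Fin n → PowerSeries K), (∀ x, ∑ j, g j * s j x = 0) →
      ∀ j, (PowerSeries.X : PowerSeries K) ^ m ∣ g j := by
    intro m
    induction m with
    | zero => intro g _ j; rw [pow_zero]; exact one_dvd _
    | succ m ih =>
      intro g hg j
      have h2 := ih g hg
      choose g' hg' using h2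
      have h3 : ∀ x, ∑ j, g' j * s j x = 0 := by
        intro x
        have h4 := hg x
        have h5 : ∑ j, g j * s j x = (PowerSeries.X : PowerSeries K) ^ m * ∑ j, g' j * s j x := by
          rw [Finset.mul_sum]
          exact Finset.sum_congr rfl fun j _ => by rw [hg' j, mul_assoc]
        rw [h5] at h4
        exact (mul_eq_zero.1 h4).resolve_left (pow_ne_zero _ PowerSeries.X_ne_zero)
      have h6 : ∀ j, PowerSeries.constantCoeff (g' j) = 0 := by
        refine Fintype.linearIndependent_iff.1 hs (fun j => PowerSeries.constantCoeff (g' j)) ?_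
        have h7 : ∑ j, PowerSeries.constantCoeff (g' j) •
            (fun x => PowerSeries.constantCoeff (s j x) : X → K) = 0 := by
          funext x
          rw [Finset.sum_apply]
          have h8 := congrArg (PowerSeries.constantCoeff (R := K)) (h3 x)
          rw [map_sum, map_zero] at h8
          rw [Pi.zero_apply, ← h8]
          exact Finset.sum_congr rfl fun j _ => by rw [Pi.smul_apply, smul_eq_mul, map_mul]
        have h9 := congrArg T h7
        rw [map_sum, map_zero] at h9
        rw [← h9]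
        exact Finset.sum_congr rfl fun j _ => (map_smul T _ _).symm
      obtain ⟨q, hq⟩ := PowerSeries.X_dvd_iff.2 (h6 j)
      exact ⟨q, by rw [hg' j, hq, pow_succ, mul_assoc]⟩
  intro j
  ext n
  rw [map_zero]
  exact PowerSeries.X_pow_dvd_iff.1 (key (n + 1) g h1 j) n (Nat.lt_succ_self n)

end indep


section limit
variable {U V : Type} [Fintype U] [LinearOrder U] [Fintype V] [LinearOrder V]
variable {K : Type} [Field K]

lemma DD_map {R S : Type*} [CommRing R] [CommRing S] (f : R →+* S) (a : U → R) (r : ℕ)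
    (y : Finset U → R) :
    DD (fun u => f (a u)) r (fun G => f (y G)) = fun G => f (DD a r y G) := by
  induction r generalizing y with
  | zero => rfl
  | succ r ih =>
    rw [DD_succ, DD_succ, ← ih]
    congr 1
    funext ρ
    have h := dop_map (R := R) (R' := S) (M := R) (M' := S) f f.toAddMonoidHom
      (fun r m => by simp) (fun x => a x ^ r) y ρ
    simp only [map_pow] at h
    exact h

lemma DD_push (lab : U → V) (a : V → K) (r : ℕ) (c : Finset U → K) :
    push (Tl lab) (DD (fun u => a (lab u)) r c) = DD a r (push (Tl lab) c) := by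
  induction r generalizing c with
  | zero => rfl
  | succ r ih =>
    rw [DD_succ, ih, DD_succ, dop_push lab (fun x => a x ^ r) c]

/-- the perturbed nodes -/
noncomputable def nod (lab : U → V) (a : V → K) (b : U → K) (u : U) : PowerSeries K :=
  PowerSeries.C (a (lab u)) + PowerSeries.X * PowerSeries.C (b u)

lemma nod_const (lab : U → V) (a : V → K) (b : U → K) (u : U) :
    PowerSeries.constantCoeff (nod lab a b u) = a (lab u) := by
  unfold nod
  simp

lemma nod_inj (lab : U → V) (a : V → K) (b : U → K) (hb : Function.Injective b) :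
    Function.Injective (nod lab a b) := by
  intro u u' h
  have h0 := congrArg (PowerSeries.constantCoeff (R := K)) h
  rw [nod_const, nod_const] at h0
  have h1 : PowerSeries.X * PowerSeries.C (b u) = PowerSeries.X * PowerSeries.C (b u') := by
    unfold nod at h
    rw [h0] at h
    exact add_left_cancel h
  have h2 := mul_left_cancel₀ PowerSeries.X_ne_zero h1
  have h3 := congrArg (PowerSeries.constantCoeff (R := K)) h2
  simp only [PowerSeries.constantCoeff_C] at h3
  exact hb h3

variable {L : Type} [Field L] [Algebra (PowerSeries K) L] [IsFractionRing (PowerSeries K) L]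

lemma exists_zeta (lab : U → V) (a : V → K) (ha : Function.Injective a) (b : U → K)
    (hb : Function.Injective b) (v : V) (G : Finset U) :
    ∃ ζ : PowerSeries K, algebraMap (PowerSeries K) L ζ = ∑ u ∈ G.filter (fun u => lab u = v),
      (∏ x ∈ G.erase u, (algebraMap (PowerSeries K) L (nod lab a b u) -
        algebraMap (PowerSeries K) L (nod lab a b x)))⁻¹ := by
  classical
  have hL := IsFractionRing.injective (PowerSeries K) L
  obtain ⟨ζ, hζ⟩ := zeta_exists (O := PowerSeries K) (L := L) (G.filter (fun u => lab u = v))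
    (G.filter (fun u => ¬ lab u = v)) (nod lab a b)
    (fun x _ y _ hxy => nod_inj lab a b hb (hL hxy))
    (by
      intro u hu x hx
      rw [PowerSeries.isUnit_iff_constantCoeff, map_sub, nod_const, nod_const]
      have h1 := (Finset.mem_filter.1 hu).2
      have h2 := (Finset.mem_filter.1 hx).2
      rw [h1]
      exact (sub_ne_zero.2 fun h => h2 (ha h).symm).isUnit)
  refine ⟨ζ, hζ.trans (Finset.sum_congr rfl fun u hu => ?_)⟩
  congr 1
  have hu' := Finset.mem_filter.1 hu
  have h1 : G.erase u = (G.filter (fun u => lab u = v)).erase u ∪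
      G.filter (fun u => ¬ lab u = v) := by
    ext x
    simp only [Finset.mem_erase, Finset.mem_union, Finset.mem_filter]
    constructor
    · rintro ⟨h2, h3⟩
      by_cases h4 : lab x = v
      · exact Or.inl ⟨h2, h3, h4⟩
      · exact Or.inr ⟨h3, h4⟩
    · rintro (⟨h2, h3, h4⟩ | ⟨h3, h4⟩)
      · exact ⟨h2, h3⟩
      · refine ⟨?_, h3⟩
        rintro rfl
        exact h4 hu'.2
  rw [h1, Finset.prod_union]
  rw [Finset.disjoint_left]
  intro x hx hx2
  exact (Finset.mem_filter.1 hx2).2 (Finset.mem_filter.1 (Finset.mem_of_mem_erase hx)).2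

/-- value of the cluster sum modulo the uniformiser -/
lemma zeta_const (lab : U → V) (a : V → K) (b : U → K)
    (hb : Function.Injective b) (v : V) (G : Finset U) (hG : Set.InjOn lab G)
    (hv : v ∈ G.image lab) (ζ : PowerSeries K)
    (hζ : algebraMap (PowerSeries K) L ζ = ∑ u ∈ G.filter (fun u => lab u = v),
      (∏ x ∈ G.erase u, (algebraMap (PowerSeries K) L (nod lab a b u) -
        algebraMap (PowerSeries K) L (nod lab a b x)))⁻¹) :
    PowerSeries.constantCoeff ζ = (∏ y ∈ (G.image lab).erase v, (a v - a y))⁻¹ := by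
  classical
  have hL := IsFractionRing.injective (PowerSeries K) L
  obtain ⟨u0, hu0, hu0v⟩ := Finset.mem_image.1 hv
  have hf : G.filter (fun u => lab u = v) = {u0} := by
    ext x
    simp only [Finset.mem_filter, Finset.mem_singleton]
    constructor
    · rintro ⟨h1, h2⟩
      exact hG h1 hu0 (by rw [h2, hu0v])
    · rintro rfl
      exact ⟨hu0, hu0v⟩
  rw [hf, Finset.sum_singleton] at hζ
  have hne : ∏ x ∈ G.erase u0, (algebraMap (PowerSeries K) L (nod lab a b u0) -
      algebraMap (PowerSeries K) L (nod lab a b x)) ≠ 0 := by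
    rw [Finset.prod_ne_zero_iff]
    intro x hx h
    exact (Finset.mem_erase.1 hx).1 (nod_inj lab a b hb (hL (sub_eq_zero.1 h))).symm
  have h1 : ζ * ∏ x ∈ G.erase u0, (nod lab a b u0 - nod lab a b x) = 1 := by
    apply hL
    rw [map_mul, map_prod, map_one, hζ]
    simp only [map_sub]
    exact inv_mul_cancel₀ hne
  have h2 := congrArg (PowerSeries.constantCoeff (R := K)) h1
  rw [map_mul, map_prod, map_one] at h2
  simp only [map_sub, nod_const] at h2
  have h3 : ∏ y ∈ (G.image lab).erase v, (a v - a y) =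
      ∏ x ∈ G.erase u0, (a (lab u0) - a (lab x)) := by
    have h4 : (G.image lab).erase v = (G.erase u0).image lab := by
      ext y
      simp only [Finset.mem_erase, Finset.mem_image]
      constructor
      · rintro ⟨h5, x, h6, rfl⟩
        refine ⟨x, ⟨?_, h6⟩, rfl⟩
        rintro rfl
        exact h5 hu0v
      · rintro ⟨x, ⟨h5, h6⟩, rfl⟩
        refine ⟨?_, x, h6, rfl⟩
        intro h7
        exact h5 (hG h6 hu0 (by rw [h7, hu0v]))
    rw [h4, Finset.prod_image, hu0v]
    intro x hx y hy hxy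
    exact hG (Finset.mem_of_mem_erase hx) (Finset.mem_of_mem_erase hy) hxy
  rw [h3]
  exact eq_inv_of_mul_eq_one_left h2


/-- the lifted top chain -/
noncomputable def YO (ζ : V → Finset U → PowerSeries K) (T : Finset V) (w : Finset U → K)
    (G : Finset U) : PowerSeries K := PowerSeries.C (w G) * ∏ v ∈ T, ζ v G

open Classical in
lemma YO_sum (lab : U → V) (a : V → K) (b : U → K)
    (ζ : V → Finset U → PowerSeries K)
    (hζ : ∀ v G, algebraMap (PowerSeries K) L (ζ v G) = ∑ u ∈ G.filter (fun u => lab u = v),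
      (∏ x ∈ G.erase u, (algebraMap (PowerSeries K) L (nod lab a b u) -
        algebraMap (PowerSeries K) L (nod lab a b x)))⁻¹)
    (T : Finset V) (w : Finset U → K) (G : Finset U) :
    algebraMap (PowerSeries K) L (YO ζ T w G) =
      ∑ p ∈ Finset.univ.filter (fun p : T → U => ∀ v : T, lab (p v) = v),
        yT (fun u => algebraMap (PowerSeries K) L (nod lab a b u)) (Finset.univ.image p)
          (fun G => if Finset.univ.image p ⊆ G then
            algebraMap (PowerSeries K) L (PowerSeries.C (w G)) else 0) G := by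
  unfold YO
  rw [map_mul, map_prod, Finset.prod_congr rfl (fun v _ => hζ v G), ← Finset.prod_coe_sort,
    Finset.prod_univ_sum, Finset.mul_sum]
  let W : U → L := fun u => (∏ x ∈ G.erase u, (algebraMap (PowerSeries K) L (nod lab a b u) -
        algebraMap (PowerSeries K) L (nod lab a b x)))⁻¹
  have h1 : ∀ p ∈ Finset.univ.filter (fun p : T → U => ∀ v : T, lab (p v) = v),
      yT (fun u => algebraMap (PowerSeries K) L (nod lab a b u)) (Finset.univ.image p)
          (fun G => if Finset.univ.image p ⊆ G then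
            algebraMap (PowerSeries K) L (PowerSeries.C (w G)) else 0) G =
      if Finset.univ.image p ⊆ G then
        algebraMap (PowerSeries K) L (PowerSeries.C (w G)) * ∏ v : T, W (p v) else 0 := by
    intro p hp
    have hp' := (Finset.mem_filter.1 hp).2
    have hinj : Function.Injective p := by
      intro v v' h
      apply Subtype.ext
      rw [← hp' v, ← hp' v', h]
    unfold yT
    by_cases h2 : Finset.univ.image p ⊆ G
    · rw [if_pos h2]
      show (if Finset.univ.image p ⊆ G then
        algebraMap (PowerSeries K) L (PowerSeries.C (w G)) else 0) *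
          ∏ v ∈ Finset.univ.image p, W v = _
      rw [if_pos h2, Finset.prod_image fun x _ y _ h => hinj h]
    · rw [if_neg h2]
      show (if Finset.univ.image p ⊆ G then
        algebraMap (PowerSeries K) L (PowerSeries.C (w G)) else 0) *
          ∏ v ∈ Finset.univ.image p, W v = _
      rw [if_neg h2, zero_mul]
  rw [Finset.sum_congr rfl h1, ← Finset.sum_filter, Finset.filter_filter]
  refine Finset.sum_congr ?_ fun p _ => rfl
  ext p
  simp only [Fintype.mem_piFinset, Finset.mem_filter, Finset.mem_univ, true_and]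
  constructor
  · intro h
    refine ⟨fun v => (h v).2, ?_⟩
    intro u hu
    obtain ⟨v, _, rfl⟩ := Finset.mem_image.1 hu
    exact (h v).1
  · rintro ⟨h2, h3⟩ v
    exact ⟨h3 (Finset.mem_image_of_mem _ (Finset.mem_univ _)), h2 v⟩

variable {Δ : Cx V} {Δ' : Cx U} {σ : Finset U → Finset V} {d : ℕ}

/-- the lifted family is realised -/
lemma real_O (h : SD Δ Δ' σ) (lab : U → V) (hlab : ∀ x, {x} ∈ Δ'.faces → lab x ∈ σ {x})
    (φ : Finset V → (Finset U → ℤ))
    (h1 : ∀ F ∈ Δ.faces, ∀ G, φ F G ≠ 0 → G ∈ Δ'.faces ∧ σ G ⊆ F ∧ G.card = F.card)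
    (h2 : ∀ F ∈ Δ.faces, bd (φ F) = ∑ x ∈ F, sgn x (F.erase x) • φ (F.erase x))
    (a : V → K) (b : U → K) (hb : Function.Injective b)
    (ζ : V → Finset U → PowerSeries K)
    (hζ : ∀ v G, algebraMap (PowerSeries K) L (ζ v G) = ∑ u ∈ G.filter (fun u => lab u = v),
      (∏ x ∈ G.erase u, (algebraMap (PowerSeries K) L (nod lab a b u) -
        algebraMap (PowerSeries K) L (nod lab a b x)))⁻¹)
    (s r : ℕ) (hr : 0 < r) (hsr : s + r = d) (T : Finset V) (hT : T.card = r)
    (z : Finset V → K) (hz : ∀ G, z G ≠ 0 → G ∈ Δ.faces ∧ T ⊆ G ∧ G.card = d)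
    (hz2 : ∀ ρ, T ⊆ ρ → ρ ∈ Δ.faces → bd z ρ = 0) :
    ∃ c ∈ ZN (fun G => G ∈ Δ'.faces) (mom d fun u => algebraMap (PowerSeries K) L (nod lab a b u)) s,
      ∀ ρ ∈ Δ'.faces, θ d s (c ρ) =
        algebraMap (PowerSeries K) L (DD (nod lab a b) r (YO ζ T (push φ z)) ρ) := by
  classical
  let aL : U → L := fun u => algebraMap (PowerSeries K) L (nod lab a b u)
  have haL : Function.Injective aL := fun u u' huu =>
    nod_inj lab a b hb (IsFractionRing.injective (PowerSeries K) L huu)
  let J : K →+* L := (algebraMap (PowerSeries K) L).comp PowerSeries.C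
  have hwsupp : ∀ G, push φ z G ≠ 0 → G ∈ Δ'.faces ∧ G.card = d := by
    intro G hG
    obtain ⟨F, _, hF⟩ := Finset.exists_ne_zero_of_sum_ne_zero hG
    have h3 : φ F G ≠ 0 := fun h0 => hF (by rw [h0, zero_smul])
    have h4 : z F ≠ 0 := fun h0 => hF (by rw [h0, smul_zero])
    obtain ⟨a1, a2, a3⟩ := hz F h4
    obtain ⟨b1, b2, b3⟩ := h1 F a1 G h3
    exact ⟨b1, by omega⟩
  have hbdw : bd (push φ z) = push φ (bd z) := bd_push φ z fun F hF => h2 F (hz F hF).1
  have hbdw0 : ∀ ρ ∈ Δ'.faces, T ⊆ ρ.image lab → bd (push φ z) ρ = 0 := by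
    intro ρ hρ hTρ
    rw [hbdw]
    refine Finset.sum_eq_zero fun F _ => ?_
    by_cases h3 : bd z F = 0
    · rw [h3, smul_zero]
    · by_cases h4 : φ F ρ = 0
      · rw [h4, zero_smul]
      · obtain ⟨x, _, hx⟩ := bd_ne z F h3
        have hFΔ : F ∈ Δ.faces := Δ.down _ (hz _ hx).1 _ (Finset.subset_insert _ _)
        obtain ⟨_, b2, _⟩ := h1 F hFΔ ρ h4
        exact absurd (hz2 F (hTρ.trans ((image_lab h lab hlab ρ hρ).trans b2)) hFΔ) h3
  let PP := Finset.univ.filter (fun p : T → U => ∀ v : T, lab (p v) = v)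
  let zp : (T → U) → (Finset U → L) := fun p G => if Finset.univ.image p ⊆ G then
            algebraMap (PowerSeries K) L (PowerSeries.C (push φ z G)) else 0
  have step : ∀ p ∈ PP, ∃ c ∈ ZN (fun G => G ∈ Δ'.faces) (mom d aL) s,
      ∀ ρ ∈ Δ'.faces, θ d s (c ρ) = DD aL r (yT aL (Finset.univ.image p) (zp p)) ρ := by
    intro p hp
    have hp' := (Finset.mem_filter.1 hp).2
    have hinj : Function.Injective p := by
      intro v v' h
      apply Subtype.ext
      rw [← hp' v, ← hp' v', h]
    have hzp : ∀ G, zp p G ≠ 0 → Finset.univ.image p ⊆ G ∧ push φ z G ≠ 0 := by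
      intro G hG
      by_cases h3 : Finset.univ.image p ⊆ G
      · refine ⟨h3, fun h4 => hG ?_⟩
        show (if Finset.univ.image p ⊆ G then
            algebraMap (PowerSeries K) L (PowerSeries.C (push φ z G)) else 0) = 0
        rw [if_pos h3, h4, map_zero, map_zero]
      · exact absurd (if_neg h3) hG
    obtain ⟨c, c1, c2, c3, c4, c5⟩ := fam_real (d := d) (fun G => G ∈ Δ'.faces)
      (fun G H hHG hG => Δ'.down G hG H hHG) aL haL r s hsr ∅ (Finset.univ.image p)
      (by rw [Finset.card_image_of_injective _ hinj, Finset.card_univ, Fintype.card_coe, hT])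
      (Finset.disjoint_empty_right _) (zp p)
      (by
        intro G hG
        obtain ⟨h3, h4⟩ := hzp G hG
        obtain ⟨h5, h6⟩ := hwsupp G h4
        exact ⟨h5, by rw [Finset.empty_union]; exact h3, h6⟩)
      (by
        intro ρ hρ hρ'
        rw [Finset.empty_union] at hρ
        have e1 : bd (zp p) ρ = bd (fun G => J (push φ z G)) ρ := by
          refine bd_ext _ _ _ fun x _ => ?_
          show (if Finset.univ.image p ⊆ insert x ρ then
            algebraMap (PowerSeries K) L (PowerSeries.C (push φ z (insert x ρ))) else 0) = _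
          rw [if_pos (hρ.trans (Finset.subset_insert _ _))]
          rfl
        have e2 : bd (fun G => J (push φ z G)) ρ = J (bd (push φ z) ρ) :=
          bd_map J.toAddMonoidHom _ ρ
        rw [e1, e2, hbdw0 ρ hρ', map_zero]
        intro v hv
        refine Finset.mem_image.2 ⟨p ⟨v, hv⟩, hρ (Finset.mem_image_of_mem _ (Finset.mem_univ _)), ?_⟩
        exact hp' ⟨v, hv⟩)
    obtain ⟨e, e1, e2, e3⟩ := c5 hr
    refine ⟨c, ⟨⟨⟨fun G hG => ⟨(c1 G hG).1, (c1 G hG).2.2⟩, fun G =>
      ⟨(c2 G).1, fun x hx => (c2 G).2 x hx (Finset.mem_univ _)⟩⟩, ?_⟩, ?_⟩, ?_⟩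
    · show rbd (fun G => G ∈ Δ'.faces) c = 0
      funext ρ
      by_cases hρ : ρ ∈ Δ'.faces
      · rw [rbd_pos _ c ρ hρ]
        exact c3 ρ (Finset.empty_subset _) hρ
      · exact rbd_neg _ c ρ hρ
    · refine ⟨e, (mem_CC0 _ _ _ _).2 ⟨fun G hG => ⟨(e1 G hG).1, (e1 G hG).2.2⟩, e2⟩, ?_⟩
      funext ρ
      by_cases hρ : ρ ∈ Δ'.faces
      · rw [rbd_pos _ e ρ hρ]
        exact (e3 ρ (Finset.empty_subset _) hρ).symm
      · rw [rbd_neg _ e ρ hρ]
        by_contra h3
        exact hρ (c1 ρ (Ne.symm h3)).1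
    · intro ρ hρ
      exact c4 ρ (Finset.empty_subset _) hρ
  choose! c hc hc2 using step
  refine ⟨∑ p ∈ PP, c p, Submodule.sum_mem _ fun p hp => hc p hp, fun ρ hρ => ?_⟩
  rw [Finset.sum_apply, map_sum, Finset.sum_congr rfl (fun p hp => hc2 p hp ρ hρ)]
  have e1 := congrFun (DD_map (algebraMap (PowerSeries K) L) (nod lab a b) r
    (YO ζ T (push φ z))) ρ
  rw [← e1]
  have e2 : (fun G => algebraMap (PowerSeries K) L (YO ζ T (push φ z) G)) =
      ∑ p ∈ PP, yT aL (Finset.univ.image p) (zp p) := by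
    funext G
    rw [YO_sum lab a b ζ hζ, Finset.sum_apply]
  rw [e2, DD_sum, Finset.sum_apply]

/-- the lifted family reduces to the family -/
lemma push_YO (h : SD Δ Δ' σ) (lab : U → V) (hlab : ∀ x, {x} ∈ Δ'.faces → lab x ∈ σ {x})
    (φ : Finset V → (Finset U → ℤ))
    (h1 : ∀ F ∈ Δ.faces, ∀ G, φ F G ≠ 0 → G ∈ Δ'.faces ∧ σ G ⊆ F ∧ G.card = F.card)
    (h2 : ∀ F ∈ Δ.faces, bd (φ F) = ∑ x ∈ F, sgn x (F.erase x) • φ (F.erase x))
    (h0 : φ ∅ = Pi.single ∅ 1)
    (a : V → K) (b : U → K) (hb : Function.Injective b)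
    (ζ : V → Finset U → PowerSeries K)
    (hζ : ∀ v G, algebraMap (PowerSeries K) L (ζ v G) = ∑ u ∈ G.filter (fun u => lab u = v),
      (∏ x ∈ G.erase u, (algebraMap (PowerSeries K) L (nod lab a b u) -
        algebraMap (PowerSeries K) L (nod lab a b x)))⁻¹)
    (T : Finset V) (z : Finset V → K) (hz : ∀ G, z G ≠ 0 → G ∈ Δ.faces ∧ T ⊆ G ∧ G.card = d) :
    push (Tl lab) (fun G => PowerSeries.constantCoeff (YO ζ T (push φ z) G)) = yT a T z := by
  classical
  have e0 : push (Tl lab) (push φ z) = z := by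
    rw [push_push, push_congr _ (fun G => Pi.single G (1 : ℤ)) z
      (fun G hG => push_phi h lab hlab φ h1 h2 h0 G (hz G hG).1), push_single]
  funext ρ
  have e1 : yT a T z ρ = push (Tl lab) (push φ z) ρ * ∏ v ∈ T, (∏ x ∈ ρ.erase v, (a v - a x))⁻¹ := by
    rw [e0]
    rfl
  rw [e1]
  unfold push
  rw [Finset.sum_mul]
  refine Finset.sum_congr rfl fun G _ => ?_
  show Tl lab G ρ • PowerSeries.constantCoeff (YO ζ T (push φ z) G) =
    Tl lab G ρ • push φ z G * _
  by_cases hTl : Tl lab G ρ = 0
  · rw [hTl, zero_smul, zero_smul, zero_mul]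
  obtain ⟨b1, b2⟩ := Tl_supp lab G ρ hTl
  rw [smul_mul_assoc]
  congr 1
  unfold YO
  rw [map_mul, PowerSeries.constantCoeff_C, map_prod]
  by_cases hw : push φ z G = 0
  · rw [hw, zero_mul, zero_mul]
  congr 1
  refine Finset.prod_congr rfl fun v hv => ?_
  obtain ⟨F, _, hF⟩ := Finset.exists_ne_zero_of_sum_ne_zero hw
  have h3 : φ F G ≠ 0 := fun h0 => hF (by rw [h0, zero_smul])
  have h4 : z F ≠ 0 := fun h0 => hF (by rw [h0, smul_zero])
  obtain ⟨a1, a2, a3⟩ := hz F h4
  obtain ⟨c1, c2, c3⟩ := h1 F a1 G h3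
  have hρF : ρ = F := by
    refine Finset.eq_of_subset_of_card_le ?_ (by omega)
    rw [b1]
    exact (image_lab h lab hlab G c1).trans c2
  have hinj : Set.InjOn lab G := by
    apply Finset.card_image_iff.1
    rw [← b1, b2]
  rw [zeta_const (L := L) lab a b hb v G hinj (by rw [← b1, hρF]; exact a2 hv) (ζ v G) (hζ v G), b1]

end limit


section final
variable {U V : Type} [Fintype U] [LinearOrder U] [Fintype V] [LinearOrder V]
variable {K : Type} [Field K]
variable {L : Type} [Field L] [Algebra (PowerSeries K) L] [IsFractionRing (PowerSeries K) L]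
variable {Δ : Cx V} {Δ' : Cx U} {σ : Finset U → Finset V} {d : ℕ}

/-- the key inequality -/
lemma ZN_le (h : SD Δ Δ' σ) [Inhabited V] (hsmall : ∀ F ∈ Δ.faces, F.card ≤ d)
    (hcm : ∀ (M : Type) [AddCommGroup M] [Module K M] (τ : Finset V) (k : ℕ), τ.Nonempty →
      k < d → AcyP (fun F => F ∈ Δ.faces) M τ k)
    (a : V → K) (ha : Function.Injective a) (b : U → K) (hb : Function.Injective b)
    (s : ℕ) (hs : s < d) :
    ∃ aL : U → L, Function.Injective aL ∧
      Module.finrank K (ZN (fun F => F ∈ Δ.faces) (mom d a) s) ≤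
      Module.finrank L (ZN (fun G => G ∈ Δ'.faces) (mom d aL) s) := by
  classical
  obtain ⟨lab, hlab⟩ := exists_lab h
  obtain ⟨φ, h1, h2, h0⟩ := exists_phi h
  have hz := exists_zeta (L := L) lab a ha b hb
  choose ζ hζ using hz
  let aL : U → L := fun u => algebraMap (PowerSeries K) L (nod lab a b u)
  have haL : Function.Injective aL := fun u u' huu =>
    nod_inj lab a b hb (IsFractionRing.injective (PowerSeries K) L huu)
  refine ⟨aL, haL, ?_⟩
  have hfinK := CC_fin (V := V) (K := K) (d := d)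
  have hfinL := CC_fin (V := U) (K := L) (d := d)
  obtain ⟨r, hsr⟩ : ∃ r, s + r = d := ⟨d - s, by omega⟩
  have hr : 0 < r := by omega
  let Z := ZN (fun F => F ∈ Δ.faces) (mom d a) s
  let B := Module.finBasis K Z
  have hspan : ∀ j, ∃ z : Finset V → (Finset V → K),
      (∀ T G, z T G ≠ 0 → G ∈ Δ.faces ∧ T ⊆ G ∧ G.card = d ∧ T.card = r) ∧
      (∀ T ρ, T ⊆ ρ → ρ ∈ Δ.faces → bd (z T) ρ = 0) ∧
      ∀ ρ ∈ Δ.faces, θ d s ((B j).1 ρ) = ∑ T, DD a r (yT a T (z T)) ρ := by
    intro j
    obtain ⟨⟨hcc, hcy⟩, ⟨e, he, he2⟩⟩ := (B j).2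
    have hcy' : rbd (fun F => F ∈ Δ.faces) (B j).1 = 0 := hcy
    obtain ⟨he0, he1⟩ := (mem_CC0 _ _ _ _).1 he
    obtain ⟨z, z1, z2, z3⟩ := fam_span (d := d) (fun F => F ∈ Δ.faces)
      (fun G H hHG hG => Δ.down G hG H hHG) hsmall a ha hcm r s hsr ∅ (B j).1
      (fun F hF => ⟨(hcc.1 F hF).1, Finset.empty_subset _, (hcc.1 F hF).2⟩)
      (fun F => ⟨(hcc.2 F).1, fun x hx _ => (hcc.2 F).2 x hx⟩)
      (fun ρ _ hρ => by
        rw [← rbd_pos (fun F => F ∈ Δ.faces) _ ρ hρ, hcy']
        rfl)
      (fun _ => ⟨e, fun F hF => ⟨(he0 F hF).1, Finset.empty_subset _, (he0 F hF).2⟩,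
        fun F => ⟨he1 F, fun x _ hx => absurd hx (Finset.notMem_empty x)⟩, fun ρ _ hρ => by
          rw [← rbd_pos (fun F => F ∈ Δ.faces) e ρ hρ, he2]⟩)
    refine ⟨z, fun T G hG => ?_, fun T ρ hρ hρ' => z2 T ρ (by rw [Finset.empty_union]; exact hρ)
      hρ', fun ρ hρ => z3 ρ (Finset.empty_subset _) hρ⟩
    obtain ⟨a1, a2, a3, a4, _⟩ := z1 T G hG
    rw [Finset.empty_union] at a2
    exact ⟨a1, a2, a3, a4⟩
  choose z z1 z2 z3 using hspan
  let S : Fin (Module.finrank K Z) → (Finset U → PowerSeries K) :=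
    fun j G => ∑ T, DD (nod lab a b) r (YO ζ T (push φ (z j T))) G
  -- reduction
  have hred : ∀ j, pushL K (Tl lab) (fun G => PowerSeries.constantCoeff (S j G)) =
      fun ρ => θ d s ((B j).1 ρ) := by
    intro j
    have e1 : (fun G => PowerSeries.constantCoeff (S j G)) =
        ∑ T, DD (fun u => a (lab u)) r
          (fun G => PowerSeries.constantCoeff (YO ζ T (push φ (z j T)) G)) := by
      funext G
      show PowerSeries.constantCoeff (∑ T, DD (nod lab a b) r (YO ζ T (push φ (z j T))) G) = _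
      rw [map_sum, Finset.sum_apply]
      refine Finset.sum_congr rfl fun T _ => ?_
      have := congrFun (DD_map (PowerSeries.constantCoeff (R := K)) (nod lab a b) r
        (YO ζ T (push φ (z j T)))) G
      simp only [nod_const] at this
      exact this.symm
    rw [e1, map_sum]
    have e2 : ∀ T, pushL K (Tl lab) (DD (fun u => a (lab u)) r
          (fun G => PowerSeries.constantCoeff (YO ζ T (push φ (z j T)) G))) =
        DD a r (yT a T (z j T)) := by
      intro T
      show push (Tl lab) _ = _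
      rw [DD_push, push_YO (d := d) (L := L) h lab hlab φ h1 h2 h0 a b hb ζ hζ T (z j T)
        (fun G hG => ⟨(z1 j T G hG).1, (z1 j T G hG).2.1, (z1 j T G hG).2.2.1⟩)]
    rw [Finset.sum_congr rfl (fun T _ => e2 T)]
    funext ρ
    rw [Finset.sum_apply]
    by_cases hρ : ρ ∈ Δ.faces
    · exact (z3 j ρ hρ).symm
    · have h3 : (B j).1 ρ = 0 := by
        by_contra h4
        exact hρ ((B j).2.1.1.1 ρ h4).1
      rw [h3, map_zero]
      refine Finset.sum_eq_zero fun T _ => ?_
      by_contra h4
      obtain ⟨G, hG, hG2⟩ := DD_supp a r _ ρ h4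
      have h5 : z j T G ≠ 0 := fun h6 => hG2 (by
        unfold yT
        rw [h6, zero_mul])
      exact hρ (Δ.down _ (z1 j T G h5).1 _ hG)
  have hindK : LinearIndependent K fun j =>
      pushL K (Tl lab) (fun G => PowerSeries.constantCoeff (S j G)) := by
    rw [Fintype.linearIndependent_iff]
    intro g hg
    simp only [hred] at hg
    have h3 : ∑ j, g j • B j = 0 := by
      apply Subtype.ext
      funext ρ
      rw [Submodule.coe_sum, Finset.sum_apply]
      let x : Z := ∑ j, g j • B j
      have hx : (x : Finset V → ExteriorAlgebra K (Fin d → K)) ρ =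
          ∑ j, (g j • B j : Z).1 ρ := by
        show ((∑ j, g j • B j : Z) : Finset V → ExteriorAlgebra K (Fin d → K)) ρ = _
        rw [Submodule.coe_sum, Finset.sum_apply]
      rw [← hx]
      by_contra hne
      have hcard := (x.2.1.1.1 ρ hne).2
      apply hne
      refine θ_inj a ha s ρ hcard hs.le _ (x.2.1.1.2 ρ).1 (x.2.1.1.2 ρ).2 ?_
      rw [hx, map_sum]
      have h4 := congrFun hg ρ
      rw [Finset.sum_apply, Pi.zero_apply] at h4
      rw [← h4]
      refine Finset.sum_congr rfl fun j _ => ?_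
      show θ d s (g j • (B j).1 ρ) = g j • θ d s ((B j).1 ρ)
      rw [map_smul]
    exact Fintype.linearIndependent_iff.1 B.linearIndependent g h3
  have hindL := lift_indep (L := L) (pushL K (Tl lab)) S hindK
  -- realisation
  have hreal : ∀ j, ∃ c ∈ ZN (fun G => G ∈ Δ'.faces) (mom d aL) s,
      ∀ ρ, θ d s (c ρ) = algebraMap (PowerSeries K) L (S j ρ) := by
    intro j
    have hT : ∀ T, ∃ c ∈ ZN (fun G => G ∈ Δ'.faces) (mom d aL) s,
        ∀ ρ ∈ Δ'.faces, θ d s (c ρ) =
          algebraMap (PowerSeries K) L (DD (nod lab a b) r (YO ζ T (push φ (z j T))) ρ) := by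
      intro T
      by_cases hTr : T.card = r
      · exact real_O h lab hlab φ h1 h2 a b hb ζ hζ s r hr hsr T hTr (z j T)
          (fun G hG => ⟨(z1 j T G hG).1, (z1 j T G hG).2.1, (z1 j T G hG).2.2.1⟩) (z2 j T)
      · have hz0 : z j T = 0 := by
          funext G
          by_contra h3
          exact hTr (z1 j T G h3).2.2.2
        refine ⟨0, Submodule.zero_mem _, fun ρ _ => ?_⟩
        have hY : YO ζ T (push φ (z j T)) = 0 := by
          funext G
          unfold YO
          rw [hz0, push_zero, Pi.zero_apply, map_zero, zero_mul]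
          rfl
        rw [hY, DD_zero, Pi.zero_apply, Pi.zero_apply, map_zero, map_zero]
    choose c hc hc2 using hT
    refine ⟨∑ T, c T, Submodule.sum_mem _ fun T _ => hc T, fun ρ => ?_⟩
    rw [Finset.sum_apply, map_sum]
    show _ = algebraMap (PowerSeries K) L (∑ T, DD (nod lab a b) r (YO ζ T (push φ (z j T))) ρ)
    rw [map_sum]
    refine Finset.sum_congr rfl fun T _ => ?_
    by_cases hρ : ρ ∈ Δ'.faces
    · exact hc2 T ρ hρ
    · have h3 : c T ρ = 0 := by
        by_contra h4
        exact hρ ((hc T).1.1.1 ρ h4).1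
      have h4 : DD (nod lab a b) r (YO ζ T (push φ (z j T))) ρ = 0 := by
        by_contra h5
        obtain ⟨G, hG, hG2⟩ := DD_supp _ r _ ρ h5
        have h6 : push φ (z j T) G ≠ 0 := fun h7 => hG2 (by
          unfold YO
          rw [h7, map_zero, zero_mul])
        obtain ⟨F, _, hF⟩ := Finset.exists_ne_zero_of_sum_ne_zero h6
        have h8 : φ F G ≠ 0 := fun h0 => hF (by rw [h0, zero_smul])
        have h9 : z j T F ≠ 0 := fun h0 => hF (by rw [h0, smul_zero])
        exact hρ (Δ'.down _ (h1 F (z1 j T F h9).1 G h8).1 _ hG)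
      rw [h3, h4, map_zero, map_zero]
  choose c hc hc2 using hreal
  let Θ : (Finset U → ExteriorAlgebra L (Fin d → L)) →ₗ[L] (Finset U → L) :=
    { toFun := fun x ρ => θ d s (x ρ)
      map_add' := by
        intro x y
        funext ρ
        exact map_add (θ d s) (x ρ) (y ρ)
      map_smul' := by
        intro t x
        funext ρ
        exact map_smul (θ d s) t (x ρ) }
  let ZL := ZN (fun G => G ∈ Δ'.faces) (mom d aL) s
  have hind : LinearIndependent L (fun j => (⟨c j, hc j⟩ : ZL)) := by
    refine LinearIndependent.of_comp (Θ ∘ₗ ZL.subtype) ?_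
    have : (⇑(Θ ∘ₗ ZL.subtype) ∘ fun j => (⟨c j, hc j⟩ : ZL)) =
        fun j => (fun x => algebraMap (PowerSeries K) L (S j x)) := by
      funext j ρ
      exact hc2 j ρ
    rw [this]
    exact hindL
  have := hind.fintype_card_le_finrank
  rw [Fintype.card_fin] at this
  exact this

/-- change of the field of coefficients -/
lemma acy_field {k : Type} [Field k] {F : Type} [Field F] (f : k →+* F) (Δ : Cx V) (τ : Finset V)
    (j : ℕ) (hk : ∀ i, i ≤ j → Acy Δ k τ i) (M : Type*) [AddCommGroup M] [Module F M] :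
    AcyP (fun F => F ∈ Δ.faces) M τ j := by
  letI : Module k M := Module.compHom M f
  exact acyP_of_acy Δ τ j (acy_change (R := k) Δ τ j hk j le_rfl)

/-- **Monotonicity.** -/
theorem main {k : Type} [Field k] (h : SD Δ Δ' σ) [Inhabited V]
    (hsmall : ∀ F ∈ Δ.faces, F.card ≤ d)
    (hk : ∀ (τ : Finset V) (i : ℕ), τ.Nonempty → i < d → Acy Δ k τ i) (s : ℕ) (hs : s ≤ d) :
    ∑ j ∈ Finset.range (s + 1), (-1 : ℤ) ^ (s - j) * ((((d - j).choose (s - j) : ℕ) : ℤ) *
        ((Δ.faces.filter fun F => F.card = j).card : ℤ)) ≤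
    ∑ j ∈ Finset.range (s + 1), (-1 : ℤ) ^ (s - j) * ((((d - j).choose (s - j) : ℕ) : ℤ) *
        ((Δ'.faces.filter fun G => G.card = j).card : ℤ)) := by
  classical
  let K := AlgebraicClosure k
  let L := FractionRing (PowerSeries K)
  let f : k →+* K := algebraMap k K
  have hcm : ∀ (M : Type) [AddCommGroup M] [Module K M] (τ : Finset V) (i : ℕ), τ.Nonempty →
      i < d → AcyP (fun F => F ∈ Δ.faces) M τ i := by
    intro M _ _ τ i hτ hi
    exact acy_field f Δ τ i (fun i' hi' => hk τ i' hτ (by omega)) M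
  have hcmL : ∀ (M : Type) [AddCommGroup M] [Module L M] (τ : Finset V) (i : ℕ), τ.Nonempty →
      i < d → AcyP (fun F => F ∈ Δ.faces) M τ i := by
    intro M _ _ τ i hτ hi
    exact acy_field ((algebraMap K L).comp f) Δ τ i (fun i' hi' => hk τ i' hτ (by omega)) M
  have hcm' : ∀ (M : Type) [AddCommGroup M] [Module L M] (τ : Finset U) (i : ℕ), τ.Nonempty →
      i < d → AcyP (fun G => G ∈ Δ'.faces) M τ i := by
    intro M _ _ τ i hτ hi
    exact sub_exact h d hsmall (fun F hF j hj => hcmL M F j hF hj) τ hτ i hi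
  have hP : Cvx (fun F => F ∈ Δ.faces) := fun _ ρ π _ h2 _ h4 => Δ.down π h4 ρ h2
  have hP' : Cvx (fun G => G ∈ Δ'.faces) := fun _ ρ π _ h2 _ h4 => Δ'.down π h4 ρ h2
  have hacy : ∀ (a : V → K), Function.Injective a →
      ∀ (s' : ℕ) (A τ : Finset V) (i : ℕ), s' ≤ d → τ.Nonempty → i < s' →
      AcyV (fun F => F ∈ Δ.faces) (mom d a) s' A τ i := by
    intro a ha s' A τ i h1 h2 h3
    exact acyV_ne _ hP (mom d a) (dual_mom _ a ha) (fun τ i s hτ hi => hcm _ τ i hτ hi) (d - s') s'
      (by omega) A τ i h2 h3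
  have hacy' : ∀ (a : U → L), Function.Injective a →
      ∀ (s' : ℕ) (A τ : Finset U) (i : ℕ), s' ≤ d → τ.Nonempty → i < s' →
      AcyV (fun G => G ∈ Δ'.faces) (mom d a) s' A τ i := by
    intro a ha s' A τ i h1 h2 h3
    exact acyV_ne _ hP' (mom d a) (dual_mom _ a ha) (fun τ i s hτ hi => hcm' _ τ i hτ hi) (d - s')
      s' (by omega) A τ i h2 h3
  have hinf : Infinite K := IsAlgClosed.instInfinite
  obtain ⟨a, ha⟩ : ∃ a : V → K, Function.Injective a :=
    ⟨_, (Infinite.natEmbedding K).injective.comp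
      (Fin.val_injective.comp (Fintype.equivFin V).injective)⟩
  obtain ⟨b, hb⟩ : ∃ b : U → K, Function.Injective b :=
    ⟨_, (Infinite.natEmbedding K).injective.comp
      (Fin.val_injective.comp (Fintype.equivFin U).injective)⟩
  have hchi1 : chi L Δ' s = chi L Δ s := SD_chi h L s
  have hchi2 : chi K Δ s ≤ chi L Δ s := chi_ext (K := K) (L := L) Δ s
  have hform := h_formula Δ (mom d a) s hs (dual_mom _ a ha) (hacy a ha)
  rcases Nat.lt_or_ge s d with hsd | hsd
  · obtain ⟨aL, haL, hle⟩ := ZN_le (L := L) h hsmall hcm a ha b hb s hsd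
    have hform' := h_formula Δ' (mom d aL) s hs (dual_mom _ aL haL) (hacy' aL haL)
    rw [hform, hform', hchi1]
    have h1 : (Module.finrank K (ZN (fun F => F ∈ Δ.faces) (mom d a) s) : ℤ) ≤
        (Module.finrank L (ZN (fun G => G ∈ Δ'.faces) (mom d aL) s) : ℤ) := by exact_mod_cast hle
    have h2 : (0 : ℤ) ≤ ((d.choose s : ℕ) : ℤ) := Int.natCast_nonneg _
    have h3 := mul_le_mul_of_nonneg_left hchi2 h2
    linarith
  · have hsd' : s = d := by omega
    obtain ⟨aL, haL⟩ : ∃ aL : U → L, Function.Injective aL :=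
      ⟨fun u => algebraMap K L (b u), (algebraMap K L).injective.comp hb⟩
    have hform' := h_formula Δ' (mom d aL) s hs (dual_mom _ aL haL) (hacy' aL haL)
    rw [hform, hform', hchi1]
    have hz : Module.finrank K (ZN (fun F => F ∈ Δ.faces) (mom d a) s) = 0 := by
      have : ZN (fun F => F ∈ Δ.faces) (mom d a) s = ⊥ := by
        rw [eq_bot_iff]
        rintro c ⟨_, ⟨e, he, rfl⟩⟩
        have : e = 0 := by
          funext F
          by_contra hne
          have h1 := he.1 F hne
          have h2 := hsmall F h1.1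
          omega
        rw [this, map_zero]
        exact Submodule.zero_mem _
      rw [this, finrank_bot]
    rw [hz]
    have h2 : (0 : ℤ) ≤ ((d.choose s : ℕ) : ℤ) := Int.natCast_nonneg _
    have h3 := mul_le_mul_of_nonneg_left hchi2 h2
    have h4 : (0 : ℤ) ≤ (Module.finrank L (ZN (fun G => G ∈ Δ'.faces) (mom d aL) s) : ℤ) :=
      Int.natCast_nonneg _
    push_cast
    linarith

end final

end Pool.Agent.Helper611.KLim
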