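import Pool.Agent.Helper611.KSub
import Pool.Agent.Helper611.KDim

set_option autoImplicit false
set_option linter.unusedSectionVars false
set_option linter.unnecessarySimpa false

namespace Pool.Agent.Helper611.KMap

open ExteriorAlgebra Pool.Agent.Helper611.ZBase Pool.Agent.Helper611.KRel
  Pool.Agent.Helper611.KTop Pool.Agent.Helper611.KSub Pool.Agent.Helper611.KDim

section ops
variable {V : Type} [Fintype V] [LinearOrder V] {M : Type*} [AddCommGroup M]

/-- contraction with a vertex -/
def ct (y : V) (c : Finset V → M) (ρ : Finset V) : M :=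
  if y ∈ ρ then 0 else sgn y ρ • c (insert y ρ)

lemma ct_mem (y : V) (c : Finset V → M) (ρ : Finset V) (h : y ∈ ρ) : ct y c ρ = 0 := if_pos h

lemma ct_not (y : V) (c : Finset V → M) (ρ : Finset V) (h : y ∉ ρ) :
    ct y c ρ = sgn y ρ • c (insert y ρ) := if_neg h

lemma bd_eq_ct (c : Finset V → M) (ρ : Finset V) : bd c ρ = ∑ y, ct y c ρ := by
  unfold bd
  refine Finset.sum_subset_zero_on_sdiff (Finset.subset_univ _) ?_ ?_
  · intro y hy
    have : y ∈ ρ := by simpa using hy
    exact ct_mem y c ρ this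
  · intro y hy
    exact (ct_not y c ρ (Finset.mem_compl.1 hy)).symm

lemma ct_ct_self (x : V) (c : Finset V → M) (ρ : Finset V) : ct x (ct x c) ρ = 0 := by
  by_cases h : x ∈ ρ
  · exact ct_mem x _ ρ h
  · rw [ct_not x _ ρ h, ct_mem x c _ (Finset.mem_insert_self _ _), smul_zero]

lemma ct_ct (x y : V) (c : Finset V → M) (ρ : Finset V) : ct x (ct y c) ρ = - ct y (ct x c) ρ := by
  by_cases hxy : x = y
  · subst hxy
    rw [ct_ct_self, neg_zero]
  by_cases hx : x ∈ ρ
  · rw [ct_mem x _ ρ hx]
    by_cases hy : y ∈ ρ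
    · rw [ct_mem y _ ρ hy, neg_zero]
    · rw [ct_not y _ ρ hy, ct_mem x _ _ (Finset.mem_insert_of_mem hx), smul_zero, neg_zero]
  · by_cases hy : y ∈ ρ
    · rw [ct_mem y _ ρ hy, ct_not x _ ρ hx, ct_mem y _ _ (Finset.mem_insert_of_mem hy), smul_zero,
        neg_zero]
    · have h1 : y ∉ insert x ρ := fun h => by
        rcases Finset.mem_insert.1 h with h | h
        · exact hxy h.symm
        · exact hy h
      have h2 : x ∉ insert y ρ := fun h => by
        rcases Finset.mem_insert.1 h with h | h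
        · exact hxy h
        · exact hx h
      rw [ct_not x _ ρ hx, ct_not y _ _ h1, ct_not y _ ρ hy, ct_not x _ _ h2, smul_smul, smul_smul,
        sgn_swap x y ρ hxy hx hy, Finset.insert_comm, neg_smul]

lemma ct_wdgM_self (x : V) (c : Finset V → M) (ρ : Finset V) :
    ct x (wdgM x c) ρ = c ρ - wdgM x (ct x c) ρ := by
  by_cases h : x ∈ ρ
  · rw [ct_mem x _ ρ h]
    unfold wdgM
    rw [if_pos h, ct_not x c _ (Finset.notMem_erase _ _), Finset.insert_erase h, sgn_ss, sub_self]
  · rw [ct_not x _ ρ h]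
    unfold wdgM
    rw [if_pos (Finset.mem_insert_self _ _), if_neg h, Finset.erase_insert h, sgn_ss, sub_zero]

lemma ct_wdgM_ne (x y : V) (hxy : x ≠ y) (c : Finset V → M) (ρ : Finset V) :
    ct y (wdgM x c) ρ = - wdgM x (ct y c) ρ := by
  by_cases hy : y ∈ ρ
  · rw [ct_mem y _ ρ hy]
    unfold wdgM
    by_cases hx : x ∈ ρ
    · rw [if_pos hx, ct_mem y c _ (Finset.mem_erase.2 ⟨hxy.symm, hy⟩), smul_zero, neg_zero]
    · rw [if_neg hx, neg_zero]
  · rw [ct_not y _ ρ hy]
    unfold wdgM
    by_cases hx : x ∈ ρ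
    · have h1 : x ∈ insert y ρ := Finset.mem_insert_of_mem hx
      have h2 : y ∉ ρ.erase x := fun h => hy (Finset.mem_of_mem_erase h)
      rw [if_pos h1, if_pos hx, ct_not y c _ h2, smul_smul, smul_smul]
      have h3 : (insert y ρ).erase x = insert y (ρ.erase x) := Finset.erase_insert_of_ne hxy.symm
      rw [h3, ← neg_smul]
      congr 1
      have h4 := sgn_prod x y (ρ.erase x) hxy (Finset.notMem_erase _ _) h2
      rw [Finset.insert_erase hx] at h4
      exact h4
    · have h1 : x ∉ insert y ρ := fun h => by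
        rcases Finset.mem_insert.1 h with h | h
        · exact hxy h
        · exact hx h
      rw [if_neg h1, if_neg hx, smul_zero, neg_zero]

lemma wdgM_wdgM (x y : V) (c : Finset V → M) (ρ : Finset V) :
    wdgM x (wdgM y c) ρ = - wdgM y (wdgM x c) ρ := by
  unfold wdgM
  by_cases hxy : x = y
  · subst hxy
    by_cases hx : x ∈ ρ
    · rw [if_pos hx, if_neg (Finset.notMem_erase _ _), smul_zero, neg_zero]
    · rw [if_neg hx, neg_zero]
  by_cases hx : x ∈ ρ
  · by_cases hy : y ∈ ρ
    · have h1 : y ∈ ρ.erase x := Finset.mem_erase.2 ⟨fun h => hxy h.symm, hy⟩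
      have h2 : x ∈ ρ.erase y := Finset.mem_erase.2 ⟨hxy, hx⟩
      rw [if_pos hx, if_pos hy, if_pos h1, if_pos h2, smul_smul, smul_smul, ← neg_smul,
        Finset.erase_right_comm]
      congr 1
      have e1 : insert x ((ρ.erase x).erase y) = ρ.erase y := by
        rw [Finset.erase_right_comm, Finset.insert_erase h2]
      have e2 : insert y ((ρ.erase x).erase y) = ρ.erase x := Finset.insert_erase h1
      have h4 := sgn_swap' x y ((ρ.erase x).erase y) hxy (by simp) (by simp)
      rw [e1, e2] at h4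
      rw [Finset.erase_right_comm]
      exact h4
    · have h1 : y ∉ ρ.erase x := fun h => hy (Finset.mem_of_mem_erase h)
      rw [if_pos hx, if_neg hy, if_neg h1, smul_zero, neg_zero]
  · by_cases hy : y ∈ ρ
    · have h2 : x ∉ ρ.erase y := fun h => hx (Finset.mem_of_mem_erase h)
      rw [if_neg hx, if_pos hy, if_neg h2, smul_zero, neg_zero]
    · rw [if_neg hx, if_neg hy, neg_zero]

end ops


section dops
variable {V : Type} [Fintype V] [LinearOrder V] {R : Type*} [CommRing R]
  {M : Type*} [AddCommGroup M] [Module R M]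

/-- weighted boundary -/
def dop (f : V → R) (c : Finset V → M) (ρ : Finset V) : M :=
  ∑ x ∈ ρᶜ, sgn x ρ • f x • c (insert x ρ)

lemma dop_eq_ct (f : V → R) (c : Finset V → M) (ρ : Finset V) :
    dop f c ρ = ∑ y, f y • ct y c ρ := by
  unfold dop
  refine Finset.sum_subset_zero_on_sdiff (Finset.subset_univ _) ?_ ?_
  · intro y hy
    have : y ∈ ρ := by simpa using hy
    rw [ct_mem y c ρ this, smul_zero]
  · intro y hy
    rw [ct_not y c ρ (Finset.mem_compl.1 hy), smul_comm]

lemma dop_one (c : Finset V → M) : dop (fun _ => (1 : R)) c = bd c := by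
  funext ρ
  unfold dop bd
  exact Finset.sum_congr rfl fun x _ => by rw [one_smul]

lemma dop_ext (f : V → R) (c c' : Finset V → M) (ρ : Finset V)
    (h : ∀ x, x ∉ ρ → c (insert x ρ) = c' (insert x ρ)) : dop f c ρ = dop f c' ρ := by
  unfold dop
  exact Finset.sum_congr rfl fun x hx => by rw [h x (Finset.mem_compl.1 hx)]

lemma dop_eq_zero (f : V → R) (c : Finset V → M) (ρ : Finset V)
    (h : ∀ x, x ∉ ρ → f x • c (insert x ρ) = 0) : dop f c ρ = 0 := by
  unfold dop
  exact Finset.sum_eq_zero fun x hx => by rw [h x (Finset.mem_compl.1 hx), smul_zero]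

lemma dop_ne (f : V → R) (c : Finset V → M) (ρ : Finset V) (h : dop f c ρ ≠ 0) :
    ∃ x, x ∉ ρ ∧ c (insert x ρ) ≠ 0 := by
  by_contra hcon
  push Not at hcon
  exact h (dop_eq_zero f c ρ fun x hx => by rw [hcon x hx, smul_zero])

lemma dop_add (f : V → R) (c c' : Finset V → M) : dop f (c + c') = dop f c + dop f c' := by
  funext ρ
  simp [dop, Finset.sum_add_distrib]

lemma dop_zero (f : V → R) : dop f (0 : Finset V → M) = 0 := by
  funext ρ
  simp [dop]

lemma dop_smul (f : V → R) (r : R) (c : Finset V → M) : dop f (r • c) = r • dop f c := by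
  funext ρ
  unfold dop
  rw [Pi.smul_apply, Finset.smul_sum]
  refine Finset.sum_congr rfl fun x _ => ?_
  rw [Pi.smul_apply, smul_comm r (sgn x ρ), smul_comm r (f x)]

lemma dop_sum {ι : Type*} (f : V → R) (s : Finset ι) (c : ι → Finset V → M) :
    dop f (∑ i ∈ s, c i) = ∑ i ∈ s, dop f (c i) := by
  classical
  induction s using Finset.induction_on with
  | empty => rw [Finset.sum_empty, Finset.sum_empty, dop_zero]
  | insert i s hi ih => rw [Finset.sum_insert hi, Finset.sum_insert hi, dop_add, ih]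

/-- `dop` is linear in the weight -/
lemma dop_lin (r t : R) (f g : V → R) (c : Finset V → M) :
    dop (fun x => r * f x + t * g x) c = r • dop f c + t • dop g c := by
  funext ρ
  unfold dop
  rw [Pi.add_apply, Pi.smul_apply, Pi.smul_apply, Finset.smul_sum, Finset.smul_sum,
    ← Finset.sum_add_distrib]
  refine Finset.sum_congr rfl fun x _ => ?_
  rw [add_smul, smul_add, mul_smul, mul_smul, smul_comm r (sgn x ρ), smul_comm t (sgn x ρ)]

lemma dop_anti (f g : V → R) (c : Finset V → M) : dop f (dop g c) = - dop g (dop f c) := by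
  funext ρ
  rw [Pi.neg_apply, dop_eq_ct, dop_eq_ct, ← Finset.sum_neg_distrib]
  have h1 : ∀ (f g : V → R) (x : V), f x • ct x (dop g c) ρ =
      ∑ y, (f x * g y) • ct x (ct y c) ρ := by
    intro f g x
    have : ct x (dop g c) ρ = ∑ y, g y • ct x (ct y c) ρ := by
      by_cases hx : x ∈ ρ
      · rw [ct_mem x _ ρ hx]
        symm
        exact Finset.sum_eq_zero fun y _ => by rw [ct_mem x _ ρ hx, smul_zero]
      · rw [ct_not x _ ρ hx, dop_eq_ct, Finset.smul_sum]
        exact Finset.sum_congr rfl fun y _ => by rw [ct_not x _ ρ hx, smul_comm]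
    rw [this, Finset.smul_sum]
    exact Finset.sum_congr rfl fun y _ => smul_smul _ _ _
  rw [Finset.sum_congr rfl (fun x _ => h1 f g x)]
  have h2 : ∀ x ∈ Finset.univ, - (g x • ct x (dop f c) ρ) = ∑ y, (f y * g x) • ct y (ct x c) ρ := by
    intro x _
    rw [h1 g f x, ← Finset.sum_neg_distrib]
    refine Finset.sum_congr rfl fun y _ => ?_
    rw [ct_ct x y, smul_neg, neg_neg, mul_comm]
  rw [Finset.sum_congr rfl h2, Finset.sum_comm]

lemma dop_self (f : V → R) (c : Finset V → M) : dop f (dop f c) = 0 := by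
  funext ρ
  unfold dop
  have h1 : ∀ x ∈ ρᶜ, sgn x ρ • f x • ∑ y ∈ (insert x ρ)ᶜ,
      sgn y (insert x ρ) • f y • c (insert y (insert x ρ))
      = ∑ y ∈ (ρᶜ).erase x, (sgn x ρ * sgn y (insert x ρ)) • ((f x * f y) •
        c (insert y (insert x ρ))) := by
    intro x _
    rw [Finset.smul_sum, Finset.smul_sum, Finset.compl_insert]
    refine Finset.sum_congr rfl fun y _ => ?_
    rw [smul_comm (f x) (sgn y (insert x ρ)), smul_smul, smul_smul]
  rw [Finset.sum_congr rfl h1]
  apply sum_anti
  intro x hx y hy hxy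
  rw [sgn_swap x y ρ hxy (Finset.mem_compl.1 hx) (Finset.mem_compl.1 hy),
    Finset.insert_comm, neg_smul, mul_comm (f x)]

/-- maps of the coefficients -/
lemma dop_map {M' : Type*} [AddCommGroup M'] {R' : Type*} [CommRing R'] [Module R' M']
    (j : R → R') (F : M →+ M') (hF : ∀ r m, F (r • m) = j r • F m) (f : V → R)
    (c : Finset V → M) (ρ : Finset V) :
    dop (fun x => j (f x)) (fun σ => F (c σ)) ρ = F (dop f c ρ) := by
  unfold dop
  rw [map_sum]
  exact Finset.sum_congr rfl fun x _ => by rw [map_zsmul, hF]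

end dops

section labels
variable {U V : Type} [Fintype U] [LinearOrder U] [Fintype V] [LinearOrder V]

/-- the chain map of a vertex map -/
noncomputable def Tl (lab : U → V) (G : Finset U) : Finset V → ℤ :=
  ((G.sort (· ≤ ·)).map lab).foldr wdgM (Pi.single ∅ 1)

lemma Tl_empty (lab : U → V) : Tl lab ∅ = Pi.single ∅ 1 := by
  unfold Tl
  rw [Finset.sort_empty]
  rfl

lemma Tl_min (lab : U → V) (x : U) (G : Finset U) (h1 : ∀ b ∈ G, x ≤ b) (h2 : x ∉ G) :
    Tl lab (insert x G) = wdgM (lab x) (Tl lab G) := by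
  unfold Tl
  rw [Finset.sort_insert _ h1 h2]
  rfl

lemma wdgM_smul {M : Type*} [AddCommGroup M] (x : V) (n : ℤ) (c : Finset V → M) :
    wdgM x (n • c) = n • wdgM x c := by
  funext ρ
  unfold wdgM
  by_cases h : x ∈ ρ
  · rw [if_pos h, Pi.smul_apply, Pi.smul_apply, if_pos h, smul_comm]
  · rw [if_neg h, Pi.smul_apply, if_neg h, smul_zero]

lemma wdgM_add {M : Type*} [AddCommGroup M] (x : V) (c c' : Finset V → M) :
    wdgM x (c + c') = wdgM x c + wdgM x c' := by
  funext ρ
  unfold wdgM
  by_cases h : x ∈ ρ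
  · rw [if_pos h, Pi.add_apply, Pi.add_apply, if_pos h, if_pos h, smul_add]
  · rw [if_neg h, Pi.add_apply, if_neg h, if_neg h, add_zero]

lemma wdgM_zero {M : Type*} [AddCommGroup M] (x : V) :
    wdgM x (0 : Finset V → M) = 0 := by
  funext ρ
  unfold wdgM
  simp

lemma Tl_insert (lab : U → V) (G : Finset U) (x : U) (hx : x ∉ G) :
    Tl lab (insert x G) = sgn x G • wdgM (lab x) (Tl lab G) := by
  have key : ∀ m : ℕ, ∀ G : Finset U, G.card = m → ∀ x, x ∉ G →
      Tl lab (insert x G) = sgn x G • wdgM (lab x) (Tl lab G) := by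
    intro m
    induction m with
    | zero =>
      intro G hG x hx
      have : G = ∅ := Finset.card_eq_zero.1 hG
      subst this
      rw [Tl_min lab x ∅ (fun b hb => absurd hb (Finset.notMem_empty b)) hx, sgn_empty, one_smul]
    | succ m ih =>
      intro G hG x hx
      have hne : G.Nonempty := Finset.card_pos.1 (by omega)
      have hmin : ∀ b ∈ G, G.min' hne ≤ b := fun b hb => Finset.min'_le _ _ hb
      have hmem := Finset.min'_mem G hne
      rcases le_or_gt x (G.min' hne) with h | h
      · have h1 : ∀ b ∈ G, x ≤ b := fun b hb => h.trans (hmin b hb)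
        rw [Tl_min lab x G h1 hx]
        have : sgn x G = 1 := by
          unfold sgn
          rw [Finset.filter_false_of_mem, Finset.card_empty, pow_zero]
          intro b hb
          exact not_lt.2 (h1 b hb)
        rw [this, one_smul]
      · generalize hy : G.min' hne = y at *
        have hxy : x ≠ y := ne_of_gt h
        have hc : (G.erase y).card = m := by
          rw [Finset.card_erase_of_mem hmem]; omega
        have hG' : G = insert y (G.erase y) := (Finset.insert_erase hmem).symm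
        have hxG : x ∉ G.erase y := fun h => hx (Finset.mem_of_mem_erase h)
        have e1 : insert x G = insert y (insert x (G.erase y)) := by
          rw [Finset.insert_comm, Finset.insert_erase hmem]
        have h2 : y ∉ insert x (G.erase y) := fun h => by
          rcases Finset.mem_insert.1 h with h | h
          · exact hxy h.symm
          · exact Finset.notMem_erase _ _ h
        have h3 : ∀ b ∈ insert x (G.erase y), y ≤ b := by
          intro b hb
          rcases Finset.mem_insert.1 hb with hb | hb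
          · rw [hb]; exact h.le
          · exact hmin b (Finset.mem_of_mem_erase hb)
        rw [e1, Tl_min lab y _ h3 h2, ih _ hc x hxG, wdgM_smul]
        have h4 : Tl lab G = wdgM (lab y) (Tl lab (G.erase y)) := by
          conv_lhs => rw [hG']
          exact Tl_min lab y _ (fun b hb => hmin b (Finset.mem_of_mem_erase hb))
            (Finset.notMem_erase _ _)
        rw [h4]
        have h5 : wdgM (lab y) (wdgM (lab x) (Tl lab (G.erase y))) =
            - wdgM (lab x) (wdgM (lab y) (Tl lab (G.erase y))) := funext fun ρ => wdgM_wdgM _ _ _ _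
        rw [h5, smul_neg, ← neg_smul]
        congr 1
        have h6 := sgn_insert_lt x y (G.erase y) (Finset.notMem_erase _ _) h
        rw [Finset.insert_erase hmem] at h6
        rw [h6]
  exact key _ G rfl x hx

lemma Tl_supp (lab : U → V) (G : Finset U) (ρ : Finset V) (h : Tl lab G ρ ≠ 0) :
    ρ = G.image lab ∧ ρ.card = G.card := by
  classical
  induction G using Finset.induction_on generalizing ρ with
  | empty =>
    rw [Tl_empty] at h
    have : ρ = ∅ := by
      by_contra h2
      exact h (Pi.single_eq_of_ne h2 _)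
    subst this
    simp
  | insert x G hx ih =>
    rw [Tl_insert lab G x hx] at h
    have h1 : wdgM (lab x) (Tl lab G) ρ ≠ 0 := fun h0 => h (by rw [Pi.smul_apply, h0, smul_zero])
    have h2 : lab x ∈ ρ := by
      by_contra h3
      exact h1 (if_neg h3)
    have h3 : Tl lab G (ρ.erase (lab x)) ≠ 0 := by
      intro h0
      apply h1
      unfold wdgM
      rw [if_pos h2, h0, smul_zero]
    obtain ⟨h4, h5⟩ := ih _ h3
    refine ⟨?_, ?_⟩
    · rw [Finset.image_insert, ← h4, Finset.insert_erase h2]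
    · rw [Finset.card_insert_of_notMem hx, ← h5, Finset.card_erase_add_one h2]

lemma Tl_ct (lab : U → V) (G : Finset U) (y : V) :
    ct y (Tl lab G) = ∑ x ∈ G, (if lab x = y then sgn x (G.erase x) else 0) • Tl lab (G.erase x) := by
  classical
  induction G using Finset.induction_on with
  | empty =>
    rw [Finset.sum_empty, Tl_empty]
    funext ρ
    unfold ct
    by_cases h : y ∈ ρ
    · rw [if_pos h]; rfl
    · rw [if_neg h, Pi.single_eq_of_ne (Finset.insert_ne_empty _ _), smul_zero]; rfl
  | insert z G hz ih =>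
    have e1 : ct y (Tl lab (insert z G)) = sgn z G • ct y (wdgM (lab z) (Tl lab G)) := by
      rw [Tl_insert lab G z hz]
      funext ρ
      unfold ct
      by_cases h : y ∈ ρ
      · simp only [if_pos h, Pi.smul_apply, smul_zero]
      · simp only [if_neg h, Pi.smul_apply]
        rw [smul_comm]
    have e2 : ct y (wdgM (lab z) (Tl lab G)) =
        (if lab z = y then (1 : ℤ) else 0) • Tl lab G - wdgM (lab z) (ct y (Tl lab G)) := by
      funext ρ
      by_cases h : lab z = y
      · rw [if_pos h, one_smul, ← h, Pi.sub_apply]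
        exact ct_wdgM_self _ _ _
      · rw [if_neg h, zero_smul, zero_sub, Pi.neg_apply]
        exact ct_wdgM_ne _ _ h _ _
    have e3 : wdgM (lab z) (ct y (Tl lab G)) = ∑ x ∈ G,
        (if lab x = y then sgn x (G.erase x) else 0) • (sgn z (G.erase x) •
          Tl lab (insert z (G.erase x))) := by
      rw [ih]
      have : ∀ s : Finset U, s ⊆ G → wdgM (lab z) (∑ x ∈ s,
          (if lab x = y then sgn x (G.erase x) else 0) • Tl lab (G.erase x)) = ∑ x ∈ s,
        (if lab x = y then sgn x (G.erase x) else 0) • (sgn z (G.erase x) •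
          Tl lab (insert z (G.erase x))) := by
        intro s
        induction s using Finset.induction_on with
        | empty =>
          intro _
          rw [Finset.sum_empty, Finset.sum_empty, wdgM_zero]
        | insert x s hx ih2 =>
          intro hs
          have hxG := hs (Finset.mem_insert_self _ _)
          rw [Finset.sum_insert hx, Finset.sum_insert hx, wdgM_add,
            ih2 ((Finset.subset_insert _ _).trans hs), wdgM_smul]
          congr 2
          have hz' : z ∉ G.erase x := fun h => hz (Finset.mem_of_mem_erase h)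
          rw [Tl_insert lab _ z hz', smul_smul, sgn_mul_self, one_smul]
      exact this G (Finset.Subset.refl _)
    rw [e1, e2, e3, Finset.sum_insert hz, Finset.erase_insert hz, smul_sub, sub_eq_add_neg]
    congr 1
    · by_cases h : lab z = y
      · rw [if_pos h, if_pos h, one_smul]
      · rw [if_neg h, if_neg h, zero_smul, smul_zero]
    · rw [Finset.smul_sum, ← Finset.sum_neg_distrib]
      refine Finset.sum_congr rfl fun x hx => ?_
      have hxz : x ≠ z := by
        rintro rfl
        exact hz hx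
      have h1 : (insert z G).erase x = insert z (G.erase x) := Finset.erase_insert_of_ne hxz.symm
      rw [h1]
      by_cases h : lab x = y
      · rw [if_pos h, if_pos h, smul_smul, smul_smul, ← neg_smul]
        congr 1
        have h2 := sgn_prod x z (G.erase x) hxz (Finset.notMem_erase _ _)
          (fun h => hz (Finset.mem_of_mem_erase h))
        rw [Finset.insert_erase hx] at h2
        have h3 := sgn_mul_self z G
        have h4 := sgn_mul_self x (insert z (G.erase x))
        have h5 : sgn z G * (sgn z G * sgn x (insert z (G.erase x))) =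
            sgn z G * -(sgn x (G.erase x) * sgn z (G.erase x)) := by rw [h2]
        rw [← mul_assoc, h3, one_mul] at h5
        rw [h5]; ring
      · rw [if_neg h, if_neg h, zero_smul, zero_smul, smul_zero, neg_zero]

/-- push forward -/
noncomputable def push {M : Type*} [AddCommGroup M] (A : Finset U → (Finset V → ℤ))
    (c : Finset U → M) (ρ : Finset V) : M := ∑ G, A G ρ • c G

lemma bd_push {M : Type*} [AddCommGroup M] (A : Finset U → (Finset V → ℤ)) (c : Finset U → M)
    (hA : ∀ G, c G ≠ 0 → bd (A G) = ∑ x ∈ G, sgn x (G.erase x) • A (G.erase x)) :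
    bd (push A c) = push A (bd c) := by
  funext ρ
  have e1 : bd (push A c) ρ = ∑ G, (bd (A G) ρ) • c G := by
    unfold bd push
    rw [Finset.sum_congr rfl (fun x _ => Finset.smul_sum), Finset.sum_comm]
    refine Finset.sum_congr rfl fun σ _ => ?_
    rw [Finset.sum_smul]
    refine Finset.sum_congr rfl fun x _ => ?_
    rw [smul_assoc]
  have e2 : ∀ G, (bd (A G) ρ) • c G = ∑ x ∈ G, (sgn x (G.erase x) * A (G.erase x) ρ) • c G := by
    intro G
    by_cases h : c G = 0
    · rw [h, smul_zero]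
      symm
      exact Finset.sum_eq_zero fun x _ => smul_zero _
    · rw [hA G h, Finset.sum_apply, Finset.sum_smul]
      refine Finset.sum_congr rfl fun x _ => ?_
      rw [Pi.smul_apply, smul_eq_mul]
  rw [e1, Finset.sum_congr rfl (fun G _ => e2 G)]
  have a3 := reidx (∅ : Finset U) (fun x π σ => (sgn x π * A π ρ) • c σ)
  simp only [Finset.empty_subset, Finset.filter_true, Finset.sdiff_empty] at a3
  rw [a3]
  unfold push bd
  refine Finset.sum_congr rfl fun π _ => ?_
  rw [Finset.smul_sum]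
  refine Finset.sum_congr rfl fun x _ => ?_
  rw [smul_smul, mul_comm]

/-- naturality of the weighted boundaries -/
lemma dop_push {R : Type*} [CommRing R] {M : Type*} [AddCommGroup M] [Module R M] (lab : U → V)
    (f : V → R) (c : Finset U → M) :
    dop f (push (Tl lab) c) = push (Tl lab) (dop (fun x => f (lab x)) c) := by
  classical
  funext ρ
  rw [dop_eq_ct]
  have e0 : ∀ y, ct y (push (Tl lab) c) ρ = ∑ G, ct y (Tl lab G) ρ • c G := by
    intro y
    by_cases h : y ∈ ρ
    · rw [ct_mem y _ ρ h]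
      symm
      exact Finset.sum_eq_zero fun G _ => by rw [ct_mem y _ ρ h, zero_smul]
    · rw [ct_not y _ ρ h]
      unfold push
      rw [Finset.smul_sum]
      exact Finset.sum_congr rfl fun G _ => by rw [ct_not y _ ρ h, smul_smul, smul_eq_mul]
  have e1 : ∀ y, f y • ct y (push (Tl lab) c) ρ = ∑ G, ∑ x ∈ G,
      (if lab x = y then (sgn x (G.erase x) * Tl lab (G.erase x) ρ) • f (lab x) • c G else 0) := by
    intro y
    rw [e0, Finset.smul_sum]
    refine Finset.sum_congr rfl fun G _ => ?_
    rw [Tl_ct, Finset.sum_apply, Finset.sum_smul, Finset.smul_sum]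
    refine Finset.sum_congr rfl fun x _ => ?_
    rw [Pi.smul_apply, smul_eq_mul]
    by_cases h : lab x = y
    · rw [if_pos h, if_pos h, h, smul_comm]
    · rw [if_neg h, if_neg h, zero_mul, zero_smul, smul_zero]
  rw [Finset.sum_congr rfl (fun y _ => e1 y), Finset.sum_comm]
  have e2 : ∀ G : Finset U, ∑ y, ∑ x ∈ G,
      (if lab x = y then (sgn x (G.erase x) * Tl lab (G.erase x) ρ) • f (lab x) • c G else 0) =
      ∑ x ∈ G, (sgn x (G.erase x) * Tl lab (G.erase x) ρ) • f (lab x) • c G := by
    intro G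
    rw [Finset.sum_comm]
    refine Finset.sum_congr rfl fun x _ => ?_
    rw [Finset.sum_ite_eq]
    exact if_pos (Finset.mem_univ _)
  rw [Finset.sum_congr rfl (fun G _ => e2 G)]
  have a3 := reidx (∅ : Finset U) (fun x π σ => (sgn x π * Tl lab π ρ) • f (lab x) • c σ)
  simp only [Finset.empty_subset, Finset.filter_true, Finset.sdiff_empty] at a3
  rw [a3]
  unfold push dop
  refine Finset.sum_congr rfl fun π _ => ?_
  rw [Finset.smul_sum]
  refine Finset.sum_congr rfl fun x _ => ?_
  rw [smul_smul, mul_comm]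

lemma Tl_bd (lab : U → V) (G : Finset U) :
    bd (Tl lab G) = ∑ x ∈ G, sgn x (G.erase x) • Tl lab (G.erase x) := by
  classical
  funext ρ
  rw [bd_eq_ct]
  have : ∀ y, ct y (Tl lab G) ρ = ∑ x ∈ G,
      (if lab x = y then sgn x (G.erase x) * Tl lab (G.erase x) ρ else 0) := by
    intro y
    rw [Tl_ct, Finset.sum_apply]
    refine Finset.sum_congr rfl fun x _ => ?_
    rw [Pi.smul_apply, smul_eq_mul]
    by_cases h : lab x = y
    · rw [if_pos h, if_pos h]
    · rw [if_neg h, if_neg h, zero_mul]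
  rw [Finset.sum_congr rfl (fun y _ => this y), Finset.sum_comm, Finset.sum_apply]
  refine Finset.sum_congr rfl fun x _ => ?_
  rw [Finset.sum_ite_eq, if_pos (Finset.mem_univ _), Pi.smul_apply, smul_eq_mul]

end labels


section carrier0
variable {V : Type} [Fintype V] [LinearOrder V]

/-- Construction of chain maps and homotopies with prescribed value on the empty face. -/
lemma carrier0 {Q : Type*} [AddCommGroup Q] (dd : Q →+ Q)
    (F : Set (Finset V)) (S Z : Finset V → AddSubgroup Q) (κ : ℤ) (e : Finset V → Q) (g : Q)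
    (hF : ∀ σ ∈ F, ∀ x ∈ σ, σ.erase x ∈ F) (hg : dd g = e ∅)
    (h0 : ∀ σ ∈ F, ∀ x ∈ σ, σ.erase x = ∅ → g ∈ Z σ)
    (h1 : ∀ σ ∈ F, ∀ x ∈ σ, σ.erase x ≠ ∅ → S (σ.erase x) ≤ Z σ)
    (h2 : ∀ σ ∈ F, σ ≠ ∅ → e σ ∈ Z σ)
    (h3 : ∀ σ ∈ F, σ ≠ ∅ → ∀ z ∈ Z σ, dd z = 0 → ∃ w ∈ S σ, dd w = z)
    (h4 : ∀ σ ∈ F, dd (e σ) = -(κ • ∑ x ∈ σ, sgn x (σ.erase x) • e (σ.erase x))) :
    ∃ D : Finset V → Q, D ∅ = g ∧ (∀ σ ∈ F, σ ≠ ∅ → D σ ∈ S σ) ∧
      ∀ σ ∈ F, dd (D σ) = e σ + κ • ∑ x ∈ σ, sgn x (σ.erase x) • D (σ.erase x) := by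
  have key : ∀ K : ℕ, ∃ D : Finset V → Q, D ∅ = g ∧
      ∀ σ ∈ F, σ.card < K → (σ ≠ ∅ → D σ ∈ S σ) ∧
      dd (D σ) = e σ + κ • ∑ x ∈ σ, sgn x (σ.erase x) • D (σ.erase x) := by
    intro K
    induction K with
    | zero => exact ⟨fun _ => g, rfl, fun σ _ h => absurd h (Nat.not_lt_zero _)⟩
    | succ K ih =>
      obtain ⟨D, hD0, hD⟩ := ih
      have step : ∀ σ ∈ F, σ.card = K → ∃ w, (σ = ∅ → w = g) ∧ (σ ≠ ∅ → w ∈ S σ) ∧
          dd w = e σ + κ • ∑ x ∈ σ, sgn x (σ.erase x) • D (σ.erase x) := by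
        intro σ hσ hc
        by_cases hemp : σ = ∅
        · subst hemp
          exact ⟨g, fun _ => rfl, fun h => absurd rfl h, by
            rw [hg, Finset.sum_empty, smul_zero, add_zero]⟩
        have hlt : ∀ x ∈ σ, (σ.erase x).card < K := by
          intro x hx
          rw [← hc]
          exact Finset.card_erase_lt_of_mem hx
        obtain ⟨w, hw1, hw2⟩ := h3 σ hσ hemp
          (e σ + κ • ∑ x ∈ σ, sgn x (σ.erase x) • D (σ.erase x)) (by
            refine AddSubgroup.add_mem _ (h2 σ hσ hemp) (AddSubgroup.zsmul_mem _ ?_ _)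
            refine AddSubgroup.sum_mem _ fun x hx => AddSubgroup.zsmul_mem _ ?_ _
            by_cases hx0 : σ.erase x = ∅
            · rw [hx0, hD0]
              exact h0 σ hσ x hx hx0
            · exact h1 σ hσ x hx hx0 ((hD _ (hF σ hσ x hx) (hlt x hx)).1 hx0))
          (by
            rw [map_add, map_zsmul, map_sum, h4 σ hσ]
            have h5 : ∀ x ∈ σ, dd (sgn x (σ.erase x) • D (σ.erase x)) =
                sgn x (σ.erase x) • e (σ.erase x) +
                κ • ∑ y ∈ σ.erase x, (sgn x (σ.erase x) * sgn y ((σ.erase x).erase y)) •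
                  D ((σ.erase x).erase y) := by
              intro x hx
              rw [map_zsmul, (hD _ (hF σ hσ x hx) (hlt x hx)).2, smul_add, smul_comm _ κ,
                Finset.smul_sum]
              congr 2
              exact Finset.sum_congr rfl fun y _ => smul_smul _ _ _
            rw [Finset.sum_congr rfl h5, Finset.sum_add_distrib, smul_add, ← Finset.smul_sum,
              sum_anti, smul_zero, smul_zero, add_zero, neg_add_cancel]
            intro x hx y hy hxy
            have e1 : σ.erase x = insert y ((σ.erase x).erase y) := by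
              rw [Finset.insert_erase]
              exact Finset.mem_erase.2 ⟨hxy.symm, hy⟩
            have e2 : σ.erase y = insert x ((σ.erase x).erase y) := by
              rw [Finset.erase_right_comm, Finset.insert_erase]
              exact Finset.mem_erase.2 ⟨hxy, hx⟩
            have e3 : (σ.erase y).erase x = (σ.erase x).erase y := Finset.erase_right_comm
            rw [e3, ← neg_smul]
            congr 1
            have := sgn_swap' x y ((σ.erase x).erase y) hxy (by simp) (by simp)
            rw [← e1, ← e2] at this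
            exact this)
        exact ⟨w, fun h => absurd h hemp, fun _ => hw1, hw2⟩
      choose! w hw using step
      classical
      refine ⟨fun σ => if σ.card = K ∧ σ ∈ F then w σ else D σ, ?_, ?_⟩
      · by_cases h : (∅ : Finset V).card = K ∧ ∅ ∈ F
        · simp only [if_pos h]
          exact (hw ∅ h.2 h.1).1 rfl
        · simp only [if_neg h]
          exact hD0
      · intro σ hσ hc
        have hne : ∀ x ∈ σ, ¬ ((σ.erase x).card = K ∧ σ.erase x ∈ F) := by
          rintro x hx ⟨h, _⟩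
          have := Finset.card_erase_lt_of_mem hx
          omega
        have hs : ∑ x ∈ σ, sgn x (σ.erase x) •
            (if (σ.erase x).card = K ∧ σ.erase x ∈ F then w (σ.erase x) else D (σ.erase x)) =
            ∑ x ∈ σ, sgn x (σ.erase x) • D (σ.erase x) :=
          Finset.sum_congr rfl fun x hx => by rw [if_neg (hne x hx)]
        simp only []
        rw [hs]
        by_cases h : σ.card = K ∧ σ ∈ F
        · rw [if_pos h]; exact (hw σ h.2 h.1).2
        · have h6 : σ.card ≠ K := fun h7 => h ⟨h7, hσ⟩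
          rw [if_neg h]; exact hD σ hσ (by omega)
  obtain ⟨D, hD0, hD⟩ := key (Fintype.card V + 1)
  exact ⟨D, hD0, fun σ hσ h => (hD σ hσ (Nat.lt_succ_of_le (Finset.card_le_univ σ))).1 h,
    fun σ hσ => (hD σ hσ (Nat.lt_succ_of_le (Finset.card_le_univ σ))).2⟩

/-- chains supported on `P` -/
def sup (P : Finset V → Prop) : AddSubgroup (Finset V → ℤ) where
  carrier := {c | ∀ σ, c σ ≠ 0 → P σ}
  add_mem' := by
    intro a b ha hb σ hσ
    by_cases h1 : a σ = 0
    · refine hb σ fun h2 => hσ ?_
      show a σ + b σ = 0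
      rw [h1, h2, add_zero]
    · exact ha σ h1
  zero_mem' := fun σ hσ => absurd rfl hσ
  neg_mem' := by
    intro a ha σ hσ
    exact ha σ fun h => hσ (by show - a σ = 0; rw [h, neg_zero])

/-- the boundary as an additive map -/
def bdA : (Finset V → ℤ) →+ (Finset V → ℤ) where
  toFun := fun c => bd c
  map_zero' := funext fun ρ => bd_zero ρ
  map_add' := fun a b => funext fun ρ => bd_add a b ρ

lemma bdA_apply (c : Finset V → ℤ) : bdA c = bd c := rfl

lemma bd_single_empty {M : Type*} [AddCommGroup M] (m : M) :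
    bd (Pi.single (∅ : Finset V) m) = 0 := by
  funext ρ
  unfold bd
  refine Finset.sum_eq_zero fun x _ => ?_
  rw [Pi.single_eq_of_ne (Finset.insert_ne_empty _ _), smul_zero]

end carrier0

section maps
variable {U V : Type} [Fintype U] [LinearOrder U] [Fintype V] [LinearOrder V]
variable {Δ : Cx V} {Δ' : Cx U} {σ : Finset U → Finset V}

/-- the subdivision chain map -/
lemma exists_phi (h : SD Δ Δ' σ) : ∃ φ : Finset V → (Finset U → ℤ),
    (∀ F ∈ Δ.faces, ∀ G, φ F G ≠ 0 → G ∈ Δ'.faces ∧ σ G ⊆ F ∧ G.card = F.card) ∧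
    (∀ F ∈ Δ.faces, bd (φ F) = ∑ x ∈ F, sgn x (F.erase x) • φ (F.erase x)) ∧
    φ ∅ = Pi.single ∅ 1 := by
  obtain ⟨φ, h0, h1, h2⟩ := carrier0 (V := V) (bdA (V := U)) {F | F ∈ Δ.faces}
    (fun F => sup fun G => G ∈ (res Δ' σ F).faces ∧ G.card = F.card)
    (fun F => sup fun G => G ∈ (res Δ' σ F).faces ∧ G.card + 1 = F.card) 1 0 (Pi.single ∅ 1)
    (fun F hF x _ => Δ.down F hF _ (Finset.erase_subset _ _))
    (bd_single_empty _)
    (by
      intro F hF x hx hx0 G hG
      have hG0 : G = ∅ := by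
        by_contra h3
        exact hG (Pi.single_eq_of_ne h3 _)
      subst hG0
      refine ⟨(res Δ' σ F).empty_mem, ?_⟩
      rw [← Finset.card_erase_add_one hx, hx0, Finset.card_empty, Finset.card_empty])
    (by
      intro F hF x hx _ c hc G hG
      obtain ⟨h3, h4⟩ := hc G hG
      obtain ⟨h5, h6⟩ := (mem_res h _ G).1 h3
      exact ⟨(mem_res h _ G).2 ⟨h5, h6.trans (Finset.erase_subset _ _)⟩, by
        rw [h4]; exact Finset.card_erase_add_one hx⟩)
    (fun F _ _ => AddSubgroup.zero_mem _)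
    (by
      intro F hF hne z hz hdz
      obtain ⟨b, hb, hb2⟩ := res_glob h F hF (Finset.nonempty_iff_ne_empty.2 hne) (F.card - 1) z
        (fun G hG => ⟨(hz G hG).1, Finset.empty_subset _, by have := (hz G hG).2; omega⟩)
        (fun ρ _ => congrFun hdz ρ)
      refine ⟨b, fun G hG => ⟨(hb G hG).1, ?_⟩, funext fun ρ => hb2 ρ (Finset.empty_subset _)⟩
      have h3 := (hb G hG).2.2
      have h4 := Finset.card_pos.2 (Finset.nonempty_iff_ne_empty.2 hne)
      omega)
    (by
      intro F _
      rw [Pi.zero_apply, map_zero]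
      simp)
  refine ⟨φ, ?_, ?_, h0⟩
  · intro F hF G hG
    by_cases hF0 : F = ∅
    · subst hF0
      rw [h0] at hG
      have hG0 : G = ∅ := by
        by_contra h3
        exact hG (Pi.single_eq_of_ne h3 _)
      subst hG0
      exact ⟨Δ'.empty_mem, by rw [h.e0], rfl⟩
    · obtain ⟨h3, h4⟩ := h1 F hF hF0 G hG
      obtain ⟨h5, h6⟩ := (mem_res h _ G).1 h3
      exact ⟨h5, h6, h4⟩
  · intro F hF
    have h3 : bd (φ F) = (0 : Finset V → Finset U → ℤ) F +
      (1 : ℤ) • ∑ x ∈ F, sgn x (F.erase x) • φ (F.erase x) := h2 F hF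
    rw [h3, one_smul, Pi.zero_apply, zero_add]

lemma hone (Φ : Finset V → Finset V → ℤ) (hs : ∀ F ∈ Δ.faces, ∀ ρ, Φ F ρ ≠ 0 → ρ ⊆ F)
    (he : Φ ∅ ∅ = 1)
    (hb : ∀ F ∈ Δ.faces, F ≠ ∅ → ∀ ρ, bd (Φ F) ρ = ∑ x ∈ F, sgn x (F.erase x) • Φ (F.erase x) ρ) :
    ∀ F ∈ Δ.faces, Φ F F = 1 := by
  have key : ∀ m : ℕ, ∀ σ ∈ Δ.faces, σ.card = m → Φ σ σ = 1 := by
    intro m
    induction m with
    | zero =>
      intro σ _ hc
      rw [Finset.card_eq_zero.1 hc]; exact he
    | succ m ih =>
      intro σ hσ hc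
      obtain ⟨x, hx⟩ : σ.Nonempty := Finset.card_pos.1 (by omega)
      have hne : σ ≠ ∅ := Finset.nonempty_iff_ne_empty.1 ⟨x, hx⟩
      have e1 := hb σ hσ hne (σ.erase x)
      have e2 : bd (Φ σ) (σ.erase x) = sgn x (σ.erase x) • Φ σ σ := by
        unfold bd
        rw [Finset.sum_eq_single_of_mem x (Finset.mem_compl.2 (Finset.notMem_erase _ _)),
          Finset.insert_erase hx]
        intro y hy hyx
        have : Φ σ (insert y (σ.erase x)) = 0 := by
          by_contra h2
          have h3 := hs σ hσ _ h2 (Finset.mem_insert_self _ _)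
          exact (Finset.mem_compl.1 hy) (Finset.mem_erase.2 ⟨hyx, h3⟩)
        rw [this, smul_zero]
      have e3 : ∑ y ∈ σ, sgn y (σ.erase y) • Φ (σ.erase y) (σ.erase x) =
          sgn x (σ.erase x) • (1 : ℤ) := by
        rw [Finset.sum_eq_single_of_mem x hx]
        · rw [ih (σ.erase x) (Δ.down σ hσ _ (Finset.erase_subset _ _))
            (by rw [Finset.card_erase_of_mem hx]; omega)]
        · intro y hy hyx
          have : Φ (σ.erase y) (σ.erase x) = 0 := by
            by_contra h2
            have h3 := hs _ (Δ.down σ hσ _ (Finset.erase_subset _ _)) _ h2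
              (Finset.mem_erase.2 ⟨hyx, hy⟩)
            exact Finset.notMem_erase y σ h3
          rw [this, smul_zero]
      rw [e2, e3] at e1
      have e4 := congrArg (fun t => sgn x (σ.erase x) • t) e1
      simpa only [sgn_smul_smul] using e4
  intro σ hσ
  exact key _ σ hσ rfl

/-- labels -/
lemma image_lab (h : SD Δ Δ' σ) (lab : U → V) (hlab : ∀ x, {x} ∈ Δ'.faces → lab x ∈ σ {x})
    (G : Finset U) (hG : G ∈ Δ'.faces) : G.image lab ⊆ σ G := by
  intro v hv
  obtain ⟨x, hx, rfl⟩ := Finset.mem_image.1 hv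
  have h1 : ({x} : Finset U) ⊆ G := Finset.singleton_subset_iff.2 hx
  exact h.mono G hG _ h1 (hlab x (Δ'.down G hG _ h1))

lemma exists_lab (h : SD Δ Δ' σ) [Inhabited V] :
    ∃ lab : U → V, ∀ x, {x} ∈ Δ'.faces → lab x ∈ σ {x} := by
  have : ∀ x : U, ∃ v : V, {x} ∈ Δ'.faces → v ∈ σ {x} := by
    intro x
    by_cases hx : {x} ∈ Δ'.faces
    · obtain ⟨v, hv⟩ : (σ {x}).Nonempty := by
        rw [Finset.nonempty_iff_ne_empty]
        intro h0
        exact Finset.singleton_ne_empty x (h.ne _ hx h0)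
      exact ⟨v, fun _ => hv⟩
    · exact ⟨default, fun h => absurd h hx⟩
  choose lab hlab using this
  exact ⟨lab, hlab⟩

/-- the label map is a left inverse of the subdivision chain map -/
lemma push_phi (h : SD Δ Δ' σ) (lab : U → V) (hlab : ∀ x, {x} ∈ Δ'.faces → lab x ∈ σ {x})
    (φ : Finset V → (Finset U → ℤ))
    (h1 : ∀ F ∈ Δ.faces, ∀ G, φ F G ≠ 0 → G ∈ Δ'.faces ∧ σ G ⊆ F ∧ G.card = F.card)
    (h2 : ∀ F ∈ Δ.faces, bd (φ F) = ∑ x ∈ F, sgn x (F.erase x) • φ (F.erase x))
    (h0 : φ ∅ = Pi.single ∅ 1) (F : Finset V) (hF : F ∈ Δ.faces) :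
    push (Tl lab) (φ F) = Pi.single F 1 := by
  classical
  have hsupp : ∀ F ∈ Δ.faces, ∀ ρ, push (Tl lab) (φ F) ρ ≠ 0 → ρ ⊆ F ∧ ρ.card = F.card := by
    intro F hF ρ hρ
    obtain ⟨G, _, hG⟩ := Finset.exists_ne_zero_of_sum_ne_zero hρ
    have h3 : Tl lab G ρ ≠ 0 := fun h0 => hG (by rw [h0, zero_smul])
    have h4 : φ F G ≠ 0 := fun h0 => hG (by rw [h0, smul_zero])
    obtain ⟨a1, a2, a3⟩ := h1 F hF G h4
    obtain ⟨b1, b2⟩ := Tl_supp lab G ρ h3
    exact ⟨by rw [b1]; exact (image_lab h lab hlab G a1).trans a2, by rw [b2, a3]⟩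
  have hone' := hone (Δ := Δ) (fun F => push (Tl lab) (φ F)) (fun F hF ρ hρ => (hsupp F hF ρ hρ).1)
    (by
      show push (Tl lab) (φ ∅) ∅ = 1
      unfold push
      rw [h0, Finset.sum_eq_single ∅, Pi.single_eq_same, Tl_empty, Pi.single_eq_same, smul_eq_mul,
        mul_one]
      · intro G _ hG
        rw [Pi.single_eq_of_ne hG, smul_zero]
      · intro h3
        exact absurd (Finset.mem_univ _) h3)
    (by
      intro F hF _ ρ
      rw [bd_push (Tl lab) (φ F) (fun G _ => Tl_bd lab G), h2 F hF]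
      unfold push
      simp only [Finset.sum_apply, Pi.smul_apply, Finset.smul_sum]
      rw [Finset.sum_comm]
      refine Finset.sum_congr rfl fun x _ => Finset.sum_congr rfl fun G _ => ?_
      rw [smul_comm])
  funext ρ
  by_cases hρ : ρ = F
  · rw [hρ, Pi.single_eq_same]
    exact hone' F hF
  · rw [Pi.single_eq_of_ne hρ]
    by_contra h3
    obtain ⟨h4, h5⟩ := hsupp F hF ρ h3
    exact hρ (Finset.eq_of_subset_of_card_le h4 (by omega))

/-- the homotopy -/
lemma exists_N (h : SD Δ Δ' σ) (lab : U → V) (hlab : ∀ x, {x} ∈ Δ'.faces → lab x ∈ σ {x})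
    (φ : Finset V → (Finset U → ℤ))
    (h1 : ∀ F ∈ Δ.faces, ∀ G, φ F G ≠ 0 → G ∈ Δ'.faces ∧ σ G ⊆ F ∧ G.card = F.card)
    (h2 : ∀ F ∈ Δ.faces, bd (φ F) = ∑ x ∈ F, sgn x (F.erase x) • φ (F.erase x))
    (h0 : φ ∅ = Pi.single ∅ 1) :
    ∃ N : Finset U → (Finset U → ℤ),
      (∀ G ∈ Δ'.faces, ∀ H, N G H ≠ 0 → H ∈ Δ'.faces ∧ H.card = G.card + 1) ∧
      ∀ G ∈ Δ'.faces, bd (N G) = (Pi.single G 1 - push φ (Tl lab G)) -
        ∑ x ∈ G, sgn x (G.erase x) • N (G.erase x) := by
  classical
  have hTface : ∀ G ∈ Δ'.faces, ∀ F, Tl lab G F ≠ 0 → F ∈ Δ.faces ∧ F ⊆ σ G ∧ F.card = G.card := by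
    intro G hG F hF
    obtain ⟨b1, b2⟩ := Tl_supp lab G F hF
    have b3 : F ⊆ σ G := by rw [b1]; exact image_lab h lab hlab G hG
    exact ⟨Δ.down _ (h.carr G hG) _ b3, b3, b2⟩
  have hpush : ∀ G ∈ Δ'.faces, ∀ H, push φ (Tl lab G) H ≠ 0 →
      H ∈ Δ'.faces ∧ σ H ⊆ σ G ∧ H.card = G.card := by
    intro G hG H hH
    obtain ⟨F, _, hF⟩ := Finset.exists_ne_zero_of_sum_ne_zero hH
    have h3 : φ F H ≠ 0 := fun h0 => hF (by rw [h0, zero_smul])
    have h4 : Tl lab G F ≠ 0 := fun h0 => hF (by rw [h0, smul_zero])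
    obtain ⟨b1, b2, b3⟩ := hTface G hG F h4
    obtain ⟨a1, a2, a3⟩ := h1 F b1 H h3
    exact ⟨a1, a2.trans b2, by omega⟩
  have hbdpush : ∀ G ∈ Δ'.faces, bd (push φ (Tl lab G)) =
      ∑ x ∈ G, sgn x (G.erase x) • push φ (Tl lab (G.erase x)) := by
    intro G hG
    rw [bd_push φ (Tl lab G) (fun F hF => h2 F (hTface G hG F hF).1), Tl_bd]
    funext ρ
    unfold push
    simp only [Finset.sum_apply, Pi.smul_apply, Finset.smul_sum]
    rw [Finset.sum_comm]
    refine Finset.sum_congr rfl fun x _ => Finset.sum_congr rfl fun F _ => ?_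
    rw [smul_comm]
  obtain ⟨N, hN0, hN1, hN2⟩ := carrier0 (V := U) (bdA (V := U)) {G | G ∈ Δ'.faces}
    (fun G => sup fun H => H ∈ (res Δ' σ (σ G)).faces ∧ H.card = G.card + 1)
    (fun G => sup fun H => H ∈ (res Δ' σ (σ G)).faces ∧ H.card = G.card) (-1)
    (fun G => Pi.single G 1 - push φ (Tl lab G)) 0
    (fun G hG x _ => Δ'.down G hG _ (Finset.erase_subset _ _))
    (by
      rw [map_zero]
      symm
      show Pi.single ∅ 1 - push φ (Tl lab ∅) = 0
      rw [Tl_empty, sub_eq_zero]
      funext ρ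
      unfold push
      rw [Finset.sum_eq_single ∅, Pi.single_eq_same, smul_eq_mul, mul_one, h0]
      · intro G _ hG
        rw [Pi.single_eq_of_ne hG, smul_zero]
      · intro h3
        exact absurd (Finset.mem_univ _) h3)
    (fun G _ x _ _ => AddSubgroup.zero_mem _)
    (by
      intro G hG x hx _ c hc H hH
      obtain ⟨h3, h4⟩ := hc H hH
      obtain ⟨h5, h6⟩ := (mem_res h _ H).1 h3
      exact ⟨(mem_res h _ H).2 ⟨h5, h6.trans (h.mono G hG _ (Finset.erase_subset _ _))⟩, by
        rw [h4]; exact Finset.card_erase_add_one hx⟩)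
    (by
      intro G hG _ H hH
      by_cases hHG : H = G
      · rw [hHG]
        exact ⟨(mem_res h _ G).2 ⟨hG, Finset.Subset.refl _⟩, rfl⟩
      · have h3 : push φ (Tl lab G) H ≠ 0 := by
          intro h4
          apply hH
          show ((Pi.single G 1 : Finset U → ℤ) - push φ (Tl lab G)) H = 0
          rw [Pi.sub_apply, h4, Pi.single_eq_of_ne hHG, sub_zero]
        obtain ⟨a1, a2, a3⟩ := hpush G hG H h3
        exact ⟨(mem_res h _ H).2 ⟨a1, a2⟩, a3⟩)
    (by
      intro G hG hne z hz hdz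
      have hσ : (σ G).Nonempty := by
        rw [Finset.nonempty_iff_ne_empty]
        exact fun h3 => hne (h.ne G hG h3)
      obtain ⟨b, hb, hb2⟩ := res_glob h (σ G) (h.carr G hG) hσ G.card z
        (fun H hH => ⟨(hz H hH).1, Finset.empty_subset _, (hz H hH).2⟩)
        (fun ρ _ => congrFun hdz ρ)
      exact ⟨b, fun H hH => ⟨(hb H hH).1, (hb H hH).2.2⟩,
        funext fun ρ => hb2 ρ (Finset.empty_subset _)⟩)
    (by
      intro G hG
      rw [neg_smul, neg_neg, one_smul, map_sub, bdA_apply, bdA_apply, hbdpush G hG]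
      have h3 : bd (Pi.single G (1 : ℤ)) = ∑ x ∈ G, sgn x (G.erase x) •
          (Pi.single (G.erase x) (1 : ℤ) : Finset U → ℤ) := by
        funext ρ
        have := bd_single (R := ℤ) ∅ G ρ (Finset.empty_subset _)
        rw [Finset.sdiff_empty] at this
        rw [this, Finset.sum_apply]
        rfl
      rw [h3, ← Finset.sum_sub_distrib]
      exact Finset.sum_congr rfl fun x _ => (smul_sub _ _ _).symm)
  refine ⟨N, ?_, ?_⟩
  · intro G hG H hH
    by_cases hG0 : G = ∅
    · rw [hG0, hN0] at hH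
      exact absurd rfl hH
    · obtain ⟨h3, h4⟩ := hN1 G hG hG0 H hH
      exact ⟨((mem_res h _ H).1 h3).1, h4⟩
  · intro G hG
    have h3 := hN2 G hG
    rw [bdA_apply, neg_smul, one_smul, ← sub_eq_add_neg] at h3
    exact h3

end maps


section homology
variable {U V : Type} [Fintype U] [LinearOrder U] [Fintype V] [LinearOrder V]
variable {Δ : Cx V} {Δ' : Cx U} {σ : Finset U → Finset V}

lemma bd_push2 {M : Type*} [AddCommGroup M] (A E : Finset U → (Finset V → ℤ)) (c : Finset U → M)
    (hA : ∀ G, c G ≠ 0 → bd (A G) = E G - ∑ x ∈ G, sgn x (G.erase x) • A (G.erase x)) :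
    bd (push A c) = push E c - push A (bd c) := by
  funext ρ
  have e1 : bd (push A c) ρ = ∑ G, (bd (A G) ρ) • c G := by
    unfold bd push
    rw [Finset.sum_congr rfl (fun x _ => Finset.smul_sum), Finset.sum_comm]
    refine Finset.sum_congr rfl fun σ _ => ?_
    rw [Finset.sum_smul]
    refine Finset.sum_congr rfl fun x _ => ?_
    rw [smul_assoc]
  have e2 : ∀ G, (bd (A G) ρ) • c G = E G ρ • c G -
      ∑ x ∈ G, (sgn x (G.erase x) * A (G.erase x) ρ) • c G := by
    intro G
    by_cases h : c G = 0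
    · rw [h, smul_zero, smul_zero, zero_sub, eq_comm, neg_eq_zero]
      exact Finset.sum_eq_zero fun x _ => smul_zero _
    · rw [hA G h, Pi.sub_apply, Finset.sum_apply, sub_smul, Finset.sum_smul]
      congr 1
  rw [e1, Finset.sum_congr rfl (fun G _ => e2 G), Finset.sum_sub_distrib]
  have a3 := reidx (∅ : Finset U) (fun x π σ => (sgn x π * A π ρ) • c σ)
  simp only [Finset.empty_subset, Finset.filter_true, Finset.sdiff_empty] at a3
  rw [a3, Pi.sub_apply]
  unfold push bd
  congr 1
  refine Finset.sum_congr rfl fun π _ => ?_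
  rw [Finset.smul_sum]
  refine Finset.sum_congr rfl fun x _ => ?_
  rw [smul_smul, mul_comm]

/-- `push` as a linear map -/
noncomputable def pushL (F : Type) [Field F] (A : Finset U → (Finset V → ℤ)) :
    (Finset U → F) →ₗ[F] (Finset V → F) where
  toFun := push A
  map_add' := by
    intro a b
    funext ρ
    unfold push
    rw [Pi.add_apply, ← Finset.sum_add_distrib]
    exact Finset.sum_congr rfl fun G _ => smul_add _ _ _
  map_smul' := by
    intro r a
    funext ρ
    unfold push
    rw [Pi.smul_apply, RingHom.id_apply, Finset.smul_sum]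
    exact Finset.sum_congr rfl fun G _ => by rw [Pi.smul_apply, smul_comm]

lemma push_push {M : Type*} [AddCommGroup M] {W : Type} [Fintype W] [LinearOrder W]
    (A : Finset U → (Finset V → ℤ)) (B : Finset V → (Finset W → ℤ)) (c : Finset U → M) :
    push B (push A c) = push (fun G => push B (A G)) c := by
  funext ρ
  unfold push
  simp only [Finset.smul_sum, Finset.sum_smul, smul_smul, smul_eq_mul]
  rw [Finset.sum_comm]

lemma push_congr {M : Type*} [AddCommGroup M]
    (A B : Finset U → (Finset V → ℤ)) (c : Finset U → M) (h : ∀ G, c G ≠ 0 → A G = B G) :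
    push A c = push B c := by
  funext ρ
  unfold push
  refine Finset.sum_congr rfl fun G _ => ?_
  by_cases h0 : c G = 0
  · rw [h0, smul_zero, smul_zero]
  · rw [h G h0]

lemma push_single {M : Type*} [AddCommGroup M] (c : Finset U → M) :
    push (fun G => Pi.single G (1 : ℤ)) c = c := by
  funext ρ
  unfold push
  rw [Finset.sum_eq_single ρ]
  · show (Pi.single ρ (1 : ℤ) : Finset U → ℤ) ρ • c ρ = c ρ
    rw [Pi.single_eq_same, one_smul]
  · intro G _ hG
    show (Pi.single G (1 : ℤ) : Finset U → ℤ) ρ • c G = 0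
    rw [Pi.single_eq_of_ne (Ne.symm hG), zero_smul]
  · intro h
    exact absurd (Finset.mem_univ _) h

lemma push_zero {M : Type*} [AddCommGroup M] (A : Finset U → (Finset V → ℤ)) :
    push A (0 : Finset U → M) = 0 := by
  funext ρ
  unfold push
  exact Finset.sum_eq_zero fun G _ => smul_zero _

/-- Homology comparison. -/
lemma SD_chi (h : SD Δ Δ' σ) [Inhabited V] (F : Type) [Field F] (s : ℕ) :
    chi F Δ' s = chi F Δ s := by
  obtain ⟨lab, hlab⟩ := exists_lab h
  obtain ⟨φ, h1, h2, h0⟩ := exists_phi h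
  obtain ⟨N, hN1, hN2⟩ := exists_N h lab hlab φ h1 h2 h0
  refine chi_eq F Δ Δ' (fun k => ?_) s
  refine hom_eq F Δ Δ' k (pushL F (Tl lab)) (push φ) ?_ ?_ ?_ ?_ (push_zero φ) ?_ ?_
  · intro k c hc ρ hρ
    obtain ⟨G, _, hG⟩ := Finset.exists_ne_zero_of_sum_ne_zero hρ
    have h3 : Tl lab G ρ ≠ 0 := fun h0 => hG (by rw [h0, zero_smul])
    have h4 : c G ≠ 0 := fun h0 => hG (by rw [h0, smul_zero])
    obtain ⟨a1, a2⟩ := hc G h4
    obtain ⟨b1, b2⟩ := Tl_supp lab G ρ h3
    exact ⟨Δ.down _ (h.carr G a1) _ (by rw [b1]; exact image_lab h lab hlab G a1), by rw [b2, a2]⟩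
  · intro k c _
    exact (bd_push (Tl lab) c fun G _ => Tl_bd lab G).symm
  · intro k c hc ρ hρ
    obtain ⟨G, _, hG⟩ := Finset.exists_ne_zero_of_sum_ne_zero hρ
    have h3 : φ G ρ ≠ 0 := fun h0 => hG (by rw [h0, zero_smul])
    have h4 : c G ≠ 0 := fun h0 => hG (by rw [h0, smul_zero])
    obtain ⟨a1, a2⟩ := hc G h4
    obtain ⟨b1, b2, b3⟩ := h1 G a1 ρ h3
    exact ⟨b1, by omega⟩
  · intro k c hc
    exact (bd_push φ c fun G hG => h2 G (hc G hG).1).symm
  · intro k c hc
    show push (Tl lab) (push φ c) = c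
    rw [push_push, push_congr _ (fun G => Pi.single G (1 : ℤ)) c
      (fun G hG => push_phi h lab hlab φ h1 h2 h0 G (hc G hG).1), push_single]
  · rintro c ⟨hc, hc2⟩
    have hc3 : bd c = 0 := hc2
    refine ⟨push N c, ?_, ?_⟩
    · intro ρ hρ
      obtain ⟨G, _, hG⟩ := Finset.exists_ne_zero_of_sum_ne_zero hρ
      have h3 : N G ρ ≠ 0 := fun h0 => hG (by rw [h0, zero_smul])
      have h4 : c G ≠ 0 := fun h0 => hG (by rw [h0, smul_zero])
      obtain ⟨a1, a2⟩ := hc G h4
      obtain ⟨b1, b2⟩ := hN1 G a1 ρ h3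
      exact ⟨b1, by omega⟩
    · rw [bd_push2 N (fun G => Pi.single G 1 - push φ (Tl lab G)) c
        (fun G hG => hN2 G (hc G hG).1), hc3, push_zero, sub_zero]
      show c - push φ (push (Tl lab) c) = _
      rw [push_push]
      have e1 : push (fun G => Pi.single G 1 - push φ (Tl lab G)) c =
          push (fun G => Pi.single G (1 : ℤ)) c - push (fun G => push φ (Tl lab G)) c := by
        funext ρ
        unfold push
        rw [Pi.sub_apply, ← Finset.sum_sub_distrib]
        exact Finset.sum_congr rfl fun G _ => sub_smul _ _ _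
      rw [e1, push_single]

end homology

end Pool.Agent.Helper611.KMap
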