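import Pool.Agent.Helper611.ZBase

set_option autoImplicit false
set_option linter.unusedSectionVars false
set_option linter.unnecessarySimpa false

namespace Pool.Agent.Helper611.KRel

open ExteriorAlgebra Pool.Agent.Helper611.ZBase

--BEGIN
section relative
variable {V : Type} [Fintype V] [LinearOrder V]

lemma bd_ext {M : Type*} [AddCommGroup M] (c c' : Finset V → M) (ρ : Finset V)
    (h : ∀ x, x ∉ ρ → c (insert x ρ) = c' (insert x ρ)) : bd c ρ = bd c' ρ := by
  unfold bd
  exact Finset.sum_congr rfl fun x hx => by rw [h x (Finset.mem_compl.1 hx)]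

lemma bd_eq_zero {M : Type*} [AddCommGroup M] (c : Finset V → M) (ρ : Finset V)
    (h : ∀ x, x ∉ ρ → c (insert x ρ) = 0) : bd c ρ = 0 := by
  unfold bd
  exact Finset.sum_eq_zero fun x hx => by rw [h x (Finset.mem_compl.1 hx), smul_zero]

/-- Exactness, in the degree of the faces with `k` vertices, of the relative chain complex of the
faces in `P` containing `τ`, with coefficients in `M`. -/
def AcyP (P : Finset V → Prop) (M : Type*) [AddCommGroup M] (τ : Finset V) (k : ℕ) : Prop :=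
  ∀ c : Finset V → M, (∀ σ, c σ ≠ 0 → P σ ∧ τ ⊆ σ ∧ σ.card = k) →
   (∀ ρ, τ ⊆ ρ → P ρ → bd c ρ = 0) →
   ∃ b : Finset V → M, (∀ σ, b σ ≠ 0 → P σ ∧ τ ⊆ σ ∧ σ.card = k + 1) ∧
     ∀ ρ, τ ⊆ ρ → P ρ → bd b ρ = c ρ

/-- convexity -/
def Cvx (P : Finset V → Prop) : Prop := ∀ σ ρ π, σ ⊆ ρ → ρ ⊆ π → P σ → P π → P ρ

lemma acyP_of_acy (Δ : Cx V) {M : Type*} [AddCommGroup M] (τ : Finset V) (k : ℕ)
    (h : Acy Δ M τ k) : AcyP (fun σ => σ ∈ Δ.faces) M τ k := by
  intro c hc hd
  obtain ⟨b, hb, hb2⟩ := h c hc (fun ρ hρ => by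
    by_cases h1 : ρ ∈ Δ.faces
    · exact hd ρ hρ h1
    · unfold bd
      refine Finset.sum_eq_zero fun x _ => ?_
      have : c (insert x ρ) = 0 := by
        by_contra h2
        exact h1 (Δ.down _ (hc _ h2).1 _ (Finset.subset_insert _ _))
      rw [this, smul_zero])
  exact ⟨b, hb, fun ρ hρ _ => hb2 ρ hρ⟩

lemma acyP_mv (P D : Finset V → Prop) (hP : Cvx P)
    (hD : ∀ σ π, σ ⊆ π → P σ → P π → D π → D σ) {M : Type*} [AddCommGroup M]
    (τ : Finset V) (k : ℕ) (h0 : AcyP P M τ k)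
    (h1 : ∀ k', k' + 1 = k → AcyP (fun σ => P σ ∧ D σ) M τ k') :
    AcyP (fun σ => P σ ∧ ¬ D σ) M τ k := by
  classical
  intro c hc hd
  have hcP : ∀ σ, c σ ≠ 0 → P σ := fun σ hσ => (hc σ hσ).1.1
  obtain ⟨t', ht', hsum⟩ : ∃ t' : Finset V → M,
      (∀ σ, t' σ ≠ 0 → (P σ ∧ D σ) ∧ τ ⊆ σ ∧ σ.card = k) ∧
      ∀ ρ, τ ⊆ ρ → P ρ → D ρ → bd t' ρ = bd c ρ := by
    rcases Nat.eq_zero_or_pos k with hk | hk
    · refine ⟨0, fun σ hσ => absurd rfl hσ, fun ρ _ _ _ => ?_⟩
      rw [bd_zero]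
      symm
      unfold bd
      refine Finset.sum_eq_zero fun x _ => ?_
      have : c (insert x ρ) = 0 := by
        by_contra h2
        have h3 := (hc _ h2).2.2
        rw [hk, Finset.card_eq_zero] at h3
        exact Finset.insert_ne_empty _ _ h3
      rw [this, smul_zero]
    · obtain ⟨k', rfl⟩ : ∃ k', k = k' + 1 := ⟨k - 1, by omega⟩
      obtain ⟨t', ht1, ht2⟩ := h1 k' rfl
        (fun ρ => if τ ⊆ ρ ∧ P ρ ∧ D ρ then bd c ρ else 0)
        (by
          intro σ hσ
          by_cases h2 : τ ⊆ σ ∧ P σ ∧ D σ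
          · simp only [if_pos h2] at hσ
            refine ⟨h2.2, h2.1, ?_⟩
            unfold bd at hσ
            obtain ⟨x, hx, hx2⟩ := Finset.exists_ne_zero_of_sum_ne_zero hσ
            have h3 : c (insert x σ) ≠ 0 := fun h4 => hx2 (by rw [h4, smul_zero])
            have h4 := (hc _ h3).2.2
            have h5 := Finset.card_insert_of_notMem (Finset.mem_compl.1 hx)
            omega
          · simp only [if_neg h2] at hσ
            exact absurd rfl hσ)
        (by
          intro ρ hρ hPρ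
          have e1 : bd (fun ρ => if τ ⊆ ρ ∧ P ρ ∧ D ρ then bd c ρ else 0) ρ = bd (bd c) ρ := by
            refine bd_ext _ _ _ fun x hx => ?_
            by_cases h2 : P (insert x ρ) ∧ D (insert x ρ)
            · rw [if_pos ⟨hρ.trans (Finset.subset_insert _ _), h2.1, h2.2⟩]
            · rw [if_neg fun h3 => h2 h3.2]
              symm
              by_cases h3 : P (insert x ρ)
              · have h4 : ¬ D (insert x ρ) := fun h5 => h2 ⟨h3, h5⟩
                exact hd _ (hρ.trans (Finset.subset_insert _ _)) ⟨h3, h4⟩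
              · refine bd_eq_zero _ _ fun y _ => ?_
                by_contra h5
                exact h3 (hP ρ _ _ (Finset.subset_insert _ _) (Finset.subset_insert _ _)
                    hPρ.1 (hcP _ h5))
          rw [e1, bd_bd])
      refine ⟨t', fun σ hσ => ht1 σ hσ, fun ρ hρ hPρ hDρ => ?_⟩
      rw [ht2 ρ hρ ⟨hPρ, hDρ⟩]
      exact if_pos ⟨hρ, hPρ, hDρ⟩
  have hctP : ∀ σ, (c - t') σ ≠ 0 → P σ ∧ τ ⊆ σ ∧ σ.card = k := by
    intro σ hσ
    by_cases h2 : c σ = 0
    · have h3 : t' σ ≠ 0 := fun h4 => hσ (by rw [Pi.sub_apply, h2, h4, sub_zero])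
      exact ⟨(ht' σ h3).1.1, (ht' σ h3).2⟩
    · exact ⟨hcP σ h2, (hc σ h2).2⟩
  have ht'0 : ∀ ρ, P ρ → ¬ D ρ → bd t' ρ = 0 := by
    intro ρ hPρ hDρ
    unfold bd
    refine Finset.sum_eq_zero fun x _ => ?_
    have : t' (insert x ρ) = 0 := by
      by_contra h2
      exact hDρ (hD ρ _ (Finset.subset_insert _ _) hPρ (ht' _ h2).1.1 (ht' _ h2).1.2)
    rw [this, smul_zero]
  obtain ⟨b, hb, hb2⟩ := h0 (c - t') hctP (by
    intro ρ hρ hPρ
    rw [bd_sub]
    by_cases hDρ : D ρ
    · rw [hsum ρ hρ hPρ hDρ, sub_self]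
    · rw [hd ρ hρ ⟨hPρ, hDρ⟩, ht'0 ρ hPρ hDρ, sub_self])
  refine ⟨fun σ => if D σ then 0 else b σ, ?_, ?_⟩
  · intro σ hσ
    by_cases hDσ : D σ
    · simp only [if_pos hDσ] at hσ
      exact absurd rfl hσ
    · simp only [if_neg hDσ] at hσ
      exact ⟨⟨(hb σ hσ).1, hDσ⟩, (hb σ hσ).2⟩
  · intro ρ hρ hPρ
    have e1 : bd (fun σ => if D σ then 0 else b σ) ρ = bd b ρ := by
      refine bd_ext _ _ _ fun x _ => ?_
      by_cases h2 : D (insert x ρ)
      · rw [if_pos h2]
        by_contra h3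
        have h4 := (hb _ (Ne.symm h3)).1
        exact hPρ.2 (hD ρ _ (Finset.subset_insert _ _) hPρ.1 h4 h2)
      · rw [if_neg h2]
    rw [e1, hb2 ρ hρ hPρ.1, Pi.sub_apply]
    have : t' ρ = 0 := by
      by_contra h3
      exact hPρ.2 (ht' ρ h3).1.2
    rw [this, sub_zero]

lemma acyP_congr (P Q : Finset V → Prop) (h : ∀ σ, P σ ↔ Q σ) {M : Type*} [AddCommGroup M]
    (τ : Finset V) (k : ℕ) (hP : AcyP P M τ k) : AcyP Q M τ k := by
  have : P = Q := funext fun σ => propext (h σ)
  rw [← this]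
  exact hP

end relative

section induction
variable {V : Type} [Fintype V] [LinearOrder V] {K : Type} [Field K] {d : ℕ}

/-- admissible coefficients of degree `s` -/
def Val (p : V → (Fin d → K)) (s : ℕ) (A σ : Finset V) (ω : ExteriorAlgebra K (Fin d → K)) : Prop :=
  ω ∈ ⋀[K]^s (Fin d → K) ∧ ∀ x ∈ σ, x ∈ A → ω * ι K (p x) = 0

/-- exactness with admissible coefficients -/
def AcyV (P : Finset V → Prop) (p : V → (Fin d → K)) (s : ℕ) (A τ : Finset V) (k : ℕ) : Prop :=
  ∀ c : Finset V → ExteriorAlgebra K (Fin d → K),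
   (∀ σ, c σ ≠ 0 → P σ ∧ τ ⊆ σ ∧ σ.card = k) → (∀ σ, Val p s A σ (c σ)) →
   (∀ ρ, τ ⊆ ρ → P ρ → bd c ρ = 0) →
   ∃ b : Finset V → ExteriorAlgebra K (Fin d → K),
     (∀ σ, b σ ≠ 0 → P σ ∧ τ ⊆ σ ∧ σ.card = k + 1) ∧ (∀ σ, Val p s A σ (b σ)) ∧
     ∀ ρ, τ ⊆ ρ → P ρ → bd b ρ = c ρ

lemma const_case (P : Finset V → Prop) (p : V → (Fin d → K)) (s : ℕ) (τ : Finset V) (k : ℕ)
    (h : AcyP P (⋀[K]^s (Fin d → K)) τ k) : AcyV P p s ∅ τ k := by
  intro c hc hv hd
  have hi : ∀ σ, ((⟨c σ, (hv σ).1⟩ : ⋀[K]^s (Fin d → K)) ≠ 0) → c σ ≠ 0 := by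
    intro σ h1 h2
    exact h1 (Subtype.ext h2)
  obtain ⟨b, hb, hb2⟩ := h (fun σ => ⟨c σ, (hv σ).1⟩) (fun σ hσ => hc σ (hi σ hσ))
    (by
      intro ρ hρ hPρ
      apply Subtype.ext
      have := bd_map (Submodule.subtype (⋀[K]^s (Fin d → K))).toAddMonoidHom
        (fun σ => (⟨c σ, (hv σ).1⟩ : ⋀[K]^s (Fin d → K))) ρ
      exact this.symm.trans (hd ρ hρ hPρ))
  refine ⟨fun σ => (b σ : ExteriorAlgebra K (Fin d → K)), ?_, ?_, ?_⟩
  · intro σ hσ
    exact hb σ fun h => hσ (by show (b σ : ExteriorAlgebra K (Fin d → K)) = 0; rw [h]; rfl)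
  · intro σ
    exact ⟨(b σ).2, fun x _ hx => absurd hx (Finset.notMem_empty x)⟩
  · intro ρ hρ hPρ
    have := bd_map (Submodule.subtype (⋀[K]^s (Fin d → K))).toAddMonoidHom b ρ
    refine this.trans ?_
    rw [hb2 ρ hρ hPρ]
    rfl

lemma top_case (P : Finset V → Prop) (p : V → (Fin d → K)) (s : ℕ) (A τ : Finset V) (k : ℕ)
    (ht : ∀ a ∈ ⋀[K]^(s + 1) (Fin d → K), a = 0) (h : AcyV P p s ∅ τ k) : AcyV P p s A τ k := by
  intro c hc hv hd
  obtain ⟨b, hb, hb1, hb2⟩ := h c hc (fun σ => ⟨(hv σ).1, fun x _ hx =>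
    absurd hx (Finset.notMem_empty x)⟩) hd
  exact ⟨b, hb, fun σ => ⟨(hb1 σ).1, fun x _ _ => ht _ (mul_ι_mem s _ (hb1 σ).1 _)⟩, hb2⟩

lemma step_case (P : Finset V → Prop) (hP : Cvx P) (p : V → (Fin d → K)) (s N : ℕ) (hsN : s < N)
    (hdual : ∀ σ, P σ → σ.card ≤ N → ∀ v ∈ σ, ∃ φ : Module.Dual K (Fin d → K), φ (p v) = 1 ∧
      ∀ x ∈ σ, x ≠ v → φ (p x) = 0)
    (A : Finset V) (v : V) (hvA : v ∉ A) (τ : Finset V) (k : ℕ) (hk : k < s)
    (ih1 : AcyV P p s A τ k) (ih2 : AcyV P p (s + 1) (insert v A) (insert v τ) (k + 1)) :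
    AcyV P p s (insert v A) τ k := by
  classical
  intro c hc hv hd
  obtain ⟨w, hw, hw1, hw2⟩ := ih1 c hc (fun σ => ⟨(hv σ).1, fun x hx hxA =>
    (hv σ).2 x hx (Finset.mem_insert_of_mem hxA)⟩) hd
  obtain ⟨u', hu, hu1, hu2⟩ := ih2 (fun σ => if v ∈ σ then w σ * ι K (p v) else 0)
    (by
      intro σ hσ
      by_cases h : v ∈ σ
      · simp only [if_pos h] at hσ
        have h2 := hw σ fun h0 => hσ (by rw [h0, zero_mul])
        exact ⟨h2.1, Finset.insert_subset h h2.2.1, h2.2.2⟩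
      · simp only [if_neg h] at hσ
        exact absurd rfl hσ)
    (by
      intro σ
      by_cases h : v ∈ σ
      · simp only [if_pos h]
        refine ⟨mul_ι_mem s _ (hw1 σ).1 _, ?_⟩
        intro x hx hxA
        rcases Finset.mem_insert.1 hxA with rfl | hxA
        · rw [mul_assoc, ι_sq_zero, mul_zero]
        · rw [ι_anti, (hw1 σ).2 x hx hxA, zero_mul, neg_zero]
      · simp only [if_neg h]
        exact ⟨Submodule.zero_mem _, fun x _ _ => zero_mul _⟩)
    (by
      intro ρ hρ hPρ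
      have hvρ : v ∈ ρ := hρ (Finset.mem_insert_self _ _)
      have hτρ : τ ⊆ ρ := (Finset.subset_insert _ _).trans hρ
      have e1 : bd (fun σ => if v ∈ σ then w σ * ι K (p v) else 0) ρ =
          bd (fun σ => w σ * ι K (p v)) ρ :=
        bd_congr _ _ _ fun σ hσ => by simp only [if_pos (hσ hvρ)]
      rw [e1]
      have e2 := bd_map (AddMonoidHom.mulRight (ι K (p v))) w ρ
      refine e2.trans ?_
      rw [hw2 ρ hτρ hPρ]
      exact (hv ρ).2 v hvρ (Finset.mem_insert_self _ _))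
  have lift : ∀ σ, ∃ η : ExteriorAlgebra K (Fin d → K), (u' σ ≠ 0 → η * ι K (p v) = u' σ) ∧
      (u' σ = 0 → η = 0) ∧ Val p s A σ η := by
    intro σ
    by_cases h0 : u' σ = 0
    · exact ⟨0, fun h => absurd h0 h, fun _ => rfl, Submodule.zero_mem _, fun x _ _ => zero_mul _⟩
    · have h1 := hu σ h0
      have hvσ : v ∈ σ := h1.2.1 (Finset.mem_insert_self _ _)
      obtain ⟨φ, hφ1, hφ2⟩ := hdual σ h1.1 (by omega) v hvσ
      obtain ⟨g1, g2, g3⟩ := div_one s (u' σ) (hu1 σ).1 (p v) φ hφ1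
        ((hu1 σ).2 v hvσ (Finset.mem_insert_self _ _))
      refine ⟨ctr φ (u' σ), fun _ => g2, fun h => absurd h h0, g1, ?_⟩
      intro x hx hxA
      refine g3 (p x) (hφ2 x hx ?_) ((hu1 σ).2 x hx (Finset.mem_insert_of_mem hxA))
      rintro rfl
      exact hvA hxA
  choose u hul hu0 huv using lift
  have hus : ∀ σ, u σ ≠ 0 → P σ ∧ insert v τ ⊆ σ ∧ σ.card = k + 1 + 1 :=
    fun σ hσ => hu σ fun h => hσ (hu0 σ h)
  have hul' : ∀ σ, u σ * ι K (p v) = u' σ := by
    intro σ
    by_cases h0 : u' σ = 0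
    · rw [hu0 σ h0, zero_mul, h0]
    · exact hul σ h0
  refine ⟨fun σ => if τ ⊆ σ ∧ P σ then w σ - bd u σ else 0, ?_, ?_, ?_⟩
  · intro σ hσ
    by_cases h : τ ⊆ σ ∧ P σ
    · simp only [if_pos h] at hσ
      by_cases hwσ : w σ = 0
      · rw [hwσ, zero_sub] at hσ
        have hb : bd u σ ≠ 0 := fun h0 => hσ (by rw [h0, neg_zero])
        unfold bd at hb
        obtain ⟨x, hx, hx2⟩ := Finset.exists_ne_zero_of_sum_ne_zero hb
        have hux : u (insert x σ) ≠ 0 := fun h0 => hx2 (by rw [h0, smul_zero])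
        have h3 := hus _ hux
        have h4 := Finset.card_insert_of_notMem (Finset.mem_compl.1 hx)
        exact ⟨h.2, h.1, by omega⟩
      · exact hw σ hwσ
    · simp only [if_neg h] at hσ
      exact absurd rfl hσ
  · intro σ
    by_cases h : τ ⊆ σ ∧ P σ
    · simp only [if_pos h]
      refine ⟨Submodule.sub_mem _ (hw1 σ).1 ?_, ?_⟩
      · unfold bd
        exact Submodule.sum_mem _ fun x _ => zsmul_mem (huv _).1 _
      · intro x hx hxA
        rw [sub_mul]
        rcases Finset.mem_insert.1 hxA with rfl | hxA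
        · have e2 := bd_map (AddMonoidHom.mulRight (ι K (p x))) u σ
          have e3 : bd (fun σ => AddMonoidHom.mulRight (ι K (p x)) (u σ)) σ = bd u' σ :=
            bd_congr _ _ _ fun σ _ => hul' σ
          have e4 : bd u σ * ι K (p x) = bd u' σ := e2.symm.trans e3
          rw [e4, hu2 σ (Finset.insert_subset hx h.1) h.2, if_pos hx, sub_self]
        · have e2 := bd_map (AddMonoidHom.mulRight (ι K (p x))) u σ
          have e3 : bd (fun σ => AddMonoidHom.mulRight (ι K (p x)) (u σ)) σ =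
              bd (0 : Finset V → ExteriorAlgebra K (Fin d → K)) σ :=
            bd_congr _ _ _ fun σ' hσ' => (huv σ').2 x (hσ' hx) hxA
          have e4 : bd u σ * ι K (p x) = 0 := e2.symm.trans (e3.trans (bd_zero σ))
          rw [e4, (hw1 σ).2 x hx hxA, sub_zero]
    · simp only [if_neg h]
      exact ⟨Submodule.zero_mem _, fun x _ _ => zero_mul _⟩
  · intro ρ hρ hPρ
    have e1 : bd (fun σ => if τ ⊆ σ ∧ P σ then w σ - bd u σ else 0) ρ =
        bd (w - bd u) ρ := by
      refine bd_ext _ _ _ fun x _ => ?_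
      rw [Pi.sub_apply]
      by_cases h : P (insert x ρ)
      · rw [if_pos ⟨hρ.trans (Finset.subset_insert _ _), h⟩]
      · rw [if_neg fun h2 => h h2.2]
        have h3 : w (insert x ρ) = 0 := by
          by_contra h4
          exact h (hw _ h4).1
        have h4 : bd u (insert x ρ) = 0 := by
          refine bd_eq_zero _ _ fun y _ => ?_
          by_contra h5
          exact h (hP ρ _ _ (Finset.subset_insert _ _) (Finset.subset_insert _ _) hPρ
              (hus _ h5).1)
        rw [h3, h4, sub_zero]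
    rw [e1, bd_sub, bd_bd, sub_zero, hw2 ρ hρ hPρ]

lemma acyV_main (P : Finset V → Prop) (hP : Cvx P) (p : V → (Fin d → K)) (N : ℕ)
    (hN : Module.finrank K (Fin d → K) = N)
    (hdual : ∀ σ, P σ → σ.card ≤ N → ∀ v ∈ σ, ∃ φ : Module.Dual K (Fin d → K), φ (p v) = 1 ∧
      ∀ x ∈ σ, x ≠ v → φ (p x) = 0)
    (hcm : ∀ (τ : Finset V) (k s : ℕ), k < N → AcyP P (⋀[K]^s (Fin d → K)) τ k) :
    ∀ m s : ℕ, s + m = N → ∀ (A τ : Finset V) (k : ℕ), k < s → AcyV P p s A τ k := by
  intro m
  induction m with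
  | zero =>
    intro s hs A τ k hk1
    refine top_case P p s A τ k (fun a ha => ext_top (s + 1) (by omega) a ha) ?_
    exact const_case P p s τ k (hcm τ k s (by omega))
  | succ m ihm =>
    intro s hs A
    induction A using Finset.induction_on with
    | empty =>
      intro τ k hk1
      exact const_case P p s τ k (hcm τ k s (by omega))
    | insert v A hvA ihA =>
      intro τ k hk1
      exact step_case P hP p s N (by omega) hdual A v hvA τ k hk1 (ihA τ k hk1)
        (ihm (s + 1) (by omega) (insert v A) (insert v τ) (k + 1) (by omega))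

end induction

section count
variable {V : Type} [Fintype V] [LinearOrder V] {K : Type} [Field K] {d : ℕ}

lemma ext_fin : FiniteDimensional K (ExteriorAlgebra K (Fin d → K)) :=
  Module.Finite.of_basis (Module.finBasis K (Fin d → K)).ExteriorAlgebra

/-- elements of degree `s` killed by the vectors `p x`, `x ∈ A` -/
noncomputable def MA (p : V → (Fin d → K)) (s : ℕ) (A : Finset V) : Submodule K (ExteriorAlgebra K (Fin d → K)) where
  carrier := {ω | ω ∈ ⋀[K]^s (Fin d → K) ∧ ∀ x ∈ A, ω * ι K (p x) = 0}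
  add_mem' := by
    intro a b ha hb
    refine ⟨Submodule.add_mem _ ha.1 hb.1, fun x hx => ?_⟩
    rw [add_mul, ha.2 x hx, hb.2 x hx, add_zero]
  zero_mem' := ⟨Submodule.zero_mem _, fun x _ => zero_mul _⟩
  smul_mem' := by
    intro r a ha
    refine ⟨Submodule.smul_mem _ _ ha.1, fun x hx => ?_⟩
    rw [smul_mul_assoc, ha.2 x hx, smul_zero]

lemma mem_MA (p : V → (Fin d → K)) (s : ℕ) (A : Finset V) (ω : ExteriorAlgebra K (Fin d → K)) :
    ω ∈ MA p s A ↔ ω ∈ ⋀[K]^s (Fin d → K) ∧ ∀ x ∈ A, ω * ι K (p x) = 0 := Iff.rfl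

lemma MA_rec (p : V → (Fin d → K)) (A : Finset V) (v : V) (hv : v ∉ A)
    (hdual : ∃ φ : Module.Dual K (Fin d → K), φ (p v) = 1 ∧ ∀ x ∈ A, φ (p x) = 0) (s : ℕ) :
    Module.finrank K (MA p s A) =
      Module.finrank K (MA p (s + 1) (insert v A)) + Module.finrank K (MA p s (insert v A)) := by
  have := ext_fin (K := K) (d := d)
  let L : (MA p s A) →ₗ[K] ExteriorAlgebra K (Fin d → K) :=
    (LinearMap.mulRight K (ι K (p v))).domRestrict (MA p s A)
  have hL : ∀ ω : MA p s A, L ω = ω.1 * ι K (p v) := fun ω => rfl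
  have h1 := LinearMap.finrank_range_add_finrank_ker L
  have hr : LinearMap.range L = MA p (s + 1) (insert v A) := by
    ext ω
    constructor
    · rintro ⟨η, rfl⟩
      rw [hL]
      refine ⟨mul_ι_mem s _ η.2.1 _, fun x hx => ?_⟩
      rcases Finset.mem_insert.1 hx with rfl | hx
      · rw [mul_assoc, ι_sq_zero, mul_zero]
      · rw [ι_anti, η.2.2 x hx, zero_mul, neg_zero]
    · intro hω
      obtain ⟨φ, h2, h3⟩ := hdual
      obtain ⟨g1, g2, g3⟩ := div_one s ω hω.1 (p v) φ h2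
        (hω.2 v (Finset.mem_insert_self _ _))
      exact ⟨⟨ctr φ ω, g1, fun x hx => g3 (p x) (h3 x hx)
        (hω.2 x (Finset.mem_insert_of_mem hx))⟩, g2⟩
  have hk : (LinearMap.ker L).map (MA p s A).subtype = MA p s (insert v A) := by
    ext ω
    constructor
    · rintro ⟨η, hη, rfl⟩
      refine ⟨η.2.1, fun x hx => ?_⟩
      rcases Finset.mem_insert.1 hx with rfl | hx
      · exact hη
      · exact η.2.2 x hx
    · intro hω
      exact ⟨⟨ω, hω.1, fun x hx => hω.2 x (Finset.mem_insert_of_mem hx)⟩,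
        hω.2 v (Finset.mem_insert_self _ _), rfl⟩
  rw [← h1, hr, ← hk, Submodule.finrank_map_subtype_eq]

lemma MA_top (p : V → (Fin d → K)) (s : ℕ) (A : Finset V)
    (hs : Module.finrank K (Fin d → K) < s) : Module.finrank K (MA p s A) = 0 := by
  have : MA p s A = ⊥ := by
    rw [eq_bot_iff]
    intro ω hω
    exact (Submodule.mem_bot K).2 (ext_top s hs ω hω.1)
  rw [this, finrank_bot]

lemma MA_finrank (p : V → (Fin d → K)) (N : ℕ) (hN : Module.finrank K (Fin d → K) = N)
    (A : Finset V) : A.card ≤ N →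
    (∀ v ∈ A, ∃ φ : Module.Dual K (Fin d → K), φ (p v) = 1 ∧ ∀ x ∈ A, x ≠ v → φ (p x) = 0) →
    ∀ s, Module.finrank K (MA p s A) = if A.card ≤ s then (N - A.card).choose (s - A.card)
      else 0 := by
  induction A using Finset.induction_on with
  | empty =>
    intro _ _ s
    have : MA p s ∅ = ⋀[K]^s (Fin d → K) := by
      ext ω
      exact ⟨fun h => h.1, fun h => ⟨h, fun x hx => absurd hx (Finset.notMem_empty x)⟩⟩
    rw [this, exteriorPower.finrank_eq, hN]
    simp
  | insert v A hv ih =>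
    intro hc hdual
    rw [Finset.card_insert_of_notMem hv] at hc ⊢
    have ih' := ih (by omega) (fun w hw => by
      obtain ⟨φ, h1, h2⟩ := hdual w (Finset.mem_insert_of_mem hw)
      exact ⟨φ, h1, fun x hx => h2 x (Finset.mem_insert_of_mem hx)⟩)
    have hd : ∃ φ : Module.Dual K (Fin d → K), φ (p v) = 1 ∧ ∀ x ∈ A, φ (p x) = 0 := by
      obtain ⟨φ, h1, h2⟩ := hdual v (Finset.mem_insert_self _ _)
      refine ⟨φ, h1, fun x hx => h2 x (Finset.mem_insert_of_mem hx) ?_⟩
      rintro rfl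
      exact hv hx
    have key : ∀ m s, s + m = N + 1 → Module.finrank K (MA p s (insert v A)) =
        if A.card + 1 ≤ s then (N - (A.card + 1)).choose (s - (A.card + 1)) else 0 := by
      intro m
      induction m with
      | zero =>
        intro s hs
        rw [MA_top p s _ (by omega), if_pos (by omega), Nat.choose_eq_zero_of_lt (by omega)]
      | succ m ihm =>
        intro s hs
        have h1 := MA_rec p A v hv hd s
        rw [ih' s, ihm (s + 1) (by omega)] at h1
        by_cases h2 : A.card + 1 ≤ s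
        · rw [if_pos (by omega), if_pos (by omega)] at h1
          rw [if_pos h2]
          obtain ⟨a, ha⟩ : ∃ a, N - A.card = a + 1 := ⟨N - A.card - 1, by omega⟩
          obtain ⟨b, hb⟩ : ∃ b, s - A.card = b + 1 := ⟨s - A.card - 1, by omega⟩
          have e1 : N - (A.card + 1) = a := by omega
          have e2 : s - (A.card + 1) = b := by omega
          have e3 : s + 1 - (A.card + 1) = b + 1 := by omega
          rw [ha, hb, e1, e3, Nat.choose_succ_succ'] at h1
          rw [e1, e2]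
          omega
        · rw [if_neg h2]
          by_cases h3 : A.card = s
          · rw [if_pos (by omega), if_pos (by omega)] at h1
            have e1 : s - A.card = 0 := by omega
            have e2 : s + 1 - (A.card + 1) = 0 := by omega
            rw [e1, e2, Nat.choose_zero_right, Nat.choose_zero_right] at h1
            omega
          · rw [if_neg (by omega)] at h1
            omega
    intro s
    by_cases hs : s ≤ N + 1
    · exact key (N + 1 - s) s (by omega)
    · rw [MA_top p s _ (by omega), if_pos (by omega), Nat.choose_eq_zero_of_lt (by omega)]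

/-- chains with admissible coefficients, supported on the faces in `P` with `k` vertices -/
noncomputable def CC (P : Finset V → Prop) (p : V → (Fin d → K)) (s k : ℕ) :
    Submodule K (Finset V → ExteriorAlgebra K (Fin d → K)) where
  carrier := {c | (∀ σ, c σ ≠ 0 → P σ ∧ σ.card = k) ∧ ∀ σ, c σ ∈ MA p s σ}
  add_mem' := by
    intro a b ha hb
    refine ⟨fun σ hσ => ?_, fun σ => Submodule.add_mem _ (ha.2 σ) (hb.2 σ)⟩
    by_cases h : a σ = 0
    · exact hb.1 σ fun h2 => hσ (by rw [Pi.add_apply, h, h2, add_zero])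
    · exact ha.1 σ h
  zero_mem' := ⟨fun σ hσ => absurd rfl hσ, fun σ => Submodule.zero_mem _⟩
  smul_mem' := by
    intro r a ha
    refine ⟨fun σ hσ => ?_, fun σ => Submodule.smul_mem _ _ (ha.2 σ)⟩
    exact ha.1 σ fun h2 => hσ (by rw [Pi.smul_apply, h2, smul_zero])

open Classical in
/-- relative boundary -/
noncomputable def rbd (P : Finset V → Prop) :
    (Finset V → ExteriorAlgebra K (Fin d → K)) →ₗ[K] (Finset V → ExteriorAlgebra K (Fin d → K)) where
  toFun := fun c ρ => if P ρ then bd c ρ else 0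
  map_add' := by
    intro a b
    funext ρ
    by_cases h : P ρ
    · simp only [if_pos h, Pi.add_apply, bd_add]
    · simp only [if_neg h, Pi.add_apply, add_zero]
  map_smul' := by
    intro r a
    funext ρ
    by_cases h : P ρ
    · simp only [if_pos h, Pi.smul_apply, RingHom.id_apply]
      unfold bd
      rw [Finset.smul_sum]
      exact Finset.sum_congr rfl fun x _ => by rw [Pi.smul_apply, smul_comm]
    · simp only [if_neg h, Pi.smul_apply, smul_zero]

lemma rbd_pos (P : Finset V → Prop) (c : Finset V → ExteriorAlgebra K (Fin d → K)) (ρ : Finset V)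
    (h : P ρ) : rbd P c ρ = bd c ρ := if_pos h

lemma rbd_neg (P : Finset V → Prop) (c : Finset V → ExteriorAlgebra K (Fin d → K)) (ρ : Finset V)
    (h : ¬ P ρ) : rbd P c ρ = 0 := if_neg h

/-- cycles -/
noncomputable def ZZ (P : Finset V → Prop) (p : V → (Fin d → K)) (s k : ℕ) :
    Submodule K (Finset V → ExteriorAlgebra K (Fin d → K)) := CC P p s k ⊓ LinearMap.ker (rbd P)

lemma bd_MA (p : V → (Fin d → K)) (s : ℕ) (c : Finset V → ExteriorAlgebra K (Fin d → K))
    (hc : ∀ σ, c σ ∈ MA p s σ) (ρ : Finset V) : bd c ρ ∈ MA p s ρ := by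
  unfold bd
  refine Submodule.sum_mem _ fun x _ => zsmul_mem ?_ _
  exact ⟨(hc _).1, fun y hy => (hc _).2 y (Finset.mem_insert_of_mem hy)⟩

lemma rbd_CC (P : Finset V → Prop) (p : V → (Fin d → K)) (s k : ℕ) (c : Finset V → ExteriorAlgebra K (Fin d → K))
    (hc : c ∈ CC P p s (k + 1)) : rbd P c ∈ CC P p s k := by
  refine ⟨fun σ hσ => ?_, fun σ => ?_⟩
  · by_cases h : P σ
    · rw [rbd_pos P c σ h] at hσ
      unfold bd at hσ
      obtain ⟨x, hx, hx2⟩ := Finset.exists_ne_zero_of_sum_ne_zero hσ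
      have h3 : c (insert x σ) ≠ 0 := fun h4 => hx2 (by rw [h4, smul_zero])
      have h4 := (hc.1 _ h3).2
      have h5 := Finset.card_insert_of_notMem (Finset.mem_compl.1 hx)
      exact ⟨h, by omega⟩
    · rw [rbd_neg P c σ h] at hσ
      exact absurd rfl hσ
  · by_cases h : P σ
    · rw [rbd_pos P c σ h]
      exact bd_MA p s c hc.2 σ
    · rw [rbd_neg P c σ h]
      exact Submodule.zero_mem _

lemma rbd_rbd (P : Finset V → Prop) (hP : Cvx P) (c : Finset V → ExteriorAlgebra K (Fin d → K))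
    (hc : ∀ σ, c σ ≠ 0 → P σ) : rbd P (rbd P c) = 0 := by
  funext ρ
  by_cases h : P ρ
  · rw [rbd_pos P _ ρ h]
    have e1 : bd (rbd P c) ρ = bd (bd c) ρ := by
      refine bd_ext _ _ _ fun x _ => ?_
      by_cases h2 : P (insert x ρ)
      · exact rbd_pos P c _ h2
      · rw [rbd_neg P c _ h2]
        symm
        refine bd_eq_zero _ _ fun y _ => ?_
        by_contra h3
        exact h2 (hP ρ _ _ (Finset.subset_insert _ _) (Finset.subset_insert _ _) h (hc _ h3))
    rw [e1, bd_bd]; rfl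
  · exact rbd_neg P _ ρ h

lemma CC_fin : FiniteDimensional K (Finset V → ExteriorAlgebra K (Fin d → K)) := by
  have := ext_fin (K := K) (d := d)
  infer_instance

lemma rank_step (P : Finset V → Prop) (hP : Cvx P) (p : V → (Fin d → K)) (s k : ℕ)
    (hex : AcyV P p s Finset.univ ∅ k) :
    Module.finrank K (CC P p s (k + 1)) =
      Module.finrank K (ZZ P p s k) + Module.finrank K (ZZ P p s (k + 1)) := by
  have := CC_fin (V := V) (K := K) (d := d)
  let L : (CC P p s (k + 1)) →ₗ[K] (Finset V → ExteriorAlgebra K (Fin d → K)) :=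
    (rbd P).domRestrict (CC P p s (k + 1))
  have hL : ∀ c : CC P p s (k + 1), L c = rbd P c.1 := fun c => rfl
  have h1 := LinearMap.finrank_range_add_finrank_ker L
  have hr : LinearMap.range L = ZZ P p s k := by
    ext c
    constructor
    · rintro ⟨b, rfl⟩
      rw [hL]
      exact ⟨rbd_CC P p s k b.1 b.2, rbd_rbd P hP b.1 fun σ hσ => (b.2.1 σ hσ).1⟩
    · rintro ⟨hc, hc2⟩
      have hc3 : rbd P c = 0 := hc2
      obtain ⟨b, hb, hb1, hb2⟩ := hex c
        (fun σ hσ => ⟨(hc.1 σ hσ).1, Finset.empty_subset _, (hc.1 σ hσ).2⟩)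
        (fun σ => ⟨(hc.2 σ).1, fun x hx _ => (hc.2 σ).2 x hx⟩)
        (fun ρ _ hρ => by
          rw [← rbd_pos P c ρ hρ, hc3]; rfl)
      refine ⟨⟨b, fun σ hσ => ⟨(hb σ hσ).1, (hb σ hσ).2.2⟩, fun σ =>
        ⟨(hb1 σ).1, fun x hx => (hb1 σ).2 x hx (Finset.mem_univ _)⟩⟩, ?_⟩
      funext ρ
      rw [hL]
      by_cases h : P ρ
      · rw [rbd_pos P b ρ h]
        exact hb2 ρ (Finset.empty_subset _) h
      · rw [rbd_neg P b ρ h]
        by_contra h4
        exact h (hc.1 ρ (Ne.symm h4)).1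
  have hk : (LinearMap.ker L).map (CC P p s (k + 1)).subtype = ZZ P p s (k + 1) := by
    ext c
    constructor
    · rintro ⟨b, hb, rfl⟩
      exact ⟨b.2, hb⟩
    · rintro ⟨hc, hc2⟩
      exact ⟨⟨c, hc⟩, hc2, rfl⟩
  rw [← h1, hr, ← hk, Submodule.finrank_map_subtype_eq]

lemma ZZ_zero (P : Finset V → Prop) (p : V → (Fin d → K)) (s : ℕ) : ZZ P p s 0 = CC P p s 0 := by
  refine le_antisymm inf_le_left (le_inf le_rfl ?_)
  intro c hc
  show rbd P c = 0
  funext ρ
  by_cases h : P ρ
  · rw [rbd_pos P c ρ h]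
    refine bd_eq_zero _ _ fun x _ => ?_
    by_contra h2
    exact Finset.insert_ne_empty _ _ (Finset.card_eq_zero.1 (hc.1 _ h2).2)
  · exact rbd_neg P c ρ h

open Classical in
lemma CC_finrank (P : Finset V → Prop) (p : V → (Fin d → K)) (N s k : ℕ)
    (hN : Module.finrank K (Fin d → K) = N) (hsN : s ≤ N)
    (hdual : ∀ σ, P σ → σ.card ≤ N → ∀ v ∈ σ, ∃ φ : Module.Dual K (Fin d → K), φ (p v) = 1 ∧
      ∀ x ∈ σ, x ≠ v → φ (p x) = 0) (hks : k ≤ s) :
    Module.finrank K (CC P p s k) =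
      (Finset.univ.filter fun σ : Finset V => P σ ∧ σ.card = k).card * (N - k).choose (s - k) := by
  have := ext_fin (K := K) (d := d)
  let T : Finset (Finset V) := Finset.univ.filter fun σ : Finset V => P σ ∧ σ.card = k
  have hT : ∀ σ, σ ∈ T ↔ P σ ∧ σ.card = k := fun σ => by simp [T]
  let e : (CC P p s k) ≃ₗ[K] ((σ : T) → MA p s σ.1) :=
    { toFun := fun c σ => ⟨c.1 σ.1, c.2.2 σ.1⟩
      map_add' := fun a b => rfl
      map_smul' := fun r a => rfl
      invFun := fun f => ⟨fun σ => if h : σ ∈ T then (f ⟨σ, h⟩).1 else 0, by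
        refine ⟨fun σ hσ => ?_, fun σ => ?_⟩
        · by_cases h : σ ∈ T
          · exact (hT σ).1 h
          · simp only [dif_neg h] at hσ
            exact absurd rfl hσ
        · by_cases h : σ ∈ T
          · simp only [dif_pos h]
            exact (f ⟨σ, h⟩).2
          · simp only [dif_neg h]
            exact Submodule.zero_mem _⟩
      left_inv := by
        intro c
        apply Subtype.ext
        funext σ
        by_cases h : σ ∈ T
        · exact dif_pos h
        · refine (dif_neg h).trans ?_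
          by_contra h2
          exact h ((hT σ).2 (c.2.1 σ (Ne.symm h2)))
      right_inv := by
        intro f
        funext σ
        apply Subtype.ext
        exact dif_pos σ.2 }
  rw [e.finrank_eq, Module.finrank_pi_fintype]
  have h1 : ∀ σ : T, Module.finrank K (MA p s σ.1) = (N - k).choose (s - k) := by
    intro σ
    obtain ⟨h2, h3⟩ := (hT σ.1).1 σ.2
    rw [MA_finrank p N hN σ.1 (by omega) (hdual _ h2 (by omega)) s, h3, if_pos hks]
  rw [Finset.sum_congr rfl (fun σ _ => h1 σ), Finset.sum_const, Finset.card_univ,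
    Fintype.card_coe, smul_eq_mul]

open Classical in
lemma euler (P : Finset V → Prop) (hP : Cvx P) (p : V → (Fin d → K)) (N s : ℕ)
    (hN : Module.finrank K (Fin d → K) = N) (hsN : s ≤ N)
    (hdual : ∀ σ, P σ → σ.card ≤ N → ∀ v ∈ σ, ∃ φ : Module.Dual K (Fin d → K), φ (p v) = 1 ∧
      ∀ x ∈ σ, x ≠ v → φ (p x) = 0)
    (hex : ∀ k, k < s → AcyV P p s Finset.univ ∅ k) :
    ∀ k, k ≤ s → (Module.finrank K (ZZ P p s k) : ℤ) =
      ∑ j ∈ Finset.range (k + 1), (-1 : ℤ) ^ (k - j) * (((N - j).choose (s - j) : ℕ) : ℤ) *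
        ((Finset.univ.filter fun σ : Finset V => P σ ∧ σ.card = j).card : ℤ) := by
  intro k
  induction k with
  | zero =>
    intro _
    rw [ZZ_zero, CC_finrank P p N s 0 hN hsN hdual (Nat.zero_le _)]
    simp [mul_comm]
  | succ k ih =>
    intro hk
    have h1 := rank_step P hP p s k (hex k (by omega))
    rw [CC_finrank P p N s (k + 1) hN hsN hdual hk] at h1
    have h2 := ih (by omega)
    rw [Finset.sum_range_succ]
    have h3 : ∑ j ∈ Finset.range (k + 1), (-1 : ℤ) ^ (k + 1 - j) *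
        (((N - j).choose (s - j) : ℕ) : ℤ) *
        ((Finset.univ.filter fun σ : Finset V => P σ ∧ σ.card = j).card : ℤ) =
        - ∑ j ∈ Finset.range (k + 1), (-1 : ℤ) ^ (k - j) *
          (((N - j).choose (s - j) : ℕ) : ℤ) *
        ((Finset.univ.filter fun σ : Finset V => P σ ∧ σ.card = j).card : ℤ) := by
      rw [← Finset.sum_neg_distrib]
      refine Finset.sum_congr rfl fun j hj => ?_
      have h4 : k + 1 - j = k - j + 1 := by
        have := Finset.mem_range.1 hj
        omega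
      rw [h4, pow_succ]; ring
    rw [h3, ← h2, Nat.sub_self, pow_zero, one_mul]
    have h4 := congrArg (fun t : ℕ => (t : ℤ)) h1
    push_cast at h4
    linarith

end count
--END

end Pool.Agent.Helper611.KRel
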