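import Pool.Agent.Helper611.KTop

set_option autoImplicit false
set_option linter.unusedSectionVars false
set_option linter.unnecessarySimpa false

namespace Pool.Agent.Helper611.KSub

open ExteriorAlgebra Pool.Agent.Helper611.ZBase Pool.Agent.Helper611.KRel
  Pool.Agent.Helper611.KTop

section subd
variable {U V : Type} [Fintype U] [LinearOrder U] [Fintype V] [LinearOrder V]

open Classical in
/-- the restriction of a subdivision to a face -/
noncomputable def res (Δ' : Cx U) (σ : Finset U → Finset V) (F : Finset V) : Cx U where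
  faces := Δ'.faces.filter (fun G => G = ∅ ∨ ∀ H, H ⊆ G → σ H ⊆ F)
  empty_mem := Finset.mem_filter.2 ⟨Δ'.empty_mem, Or.inl rfl⟩
  down := by
    intro G hG H hH
    have h1 := Finset.mem_filter.1 hG
    refine Finset.mem_filter.2 ⟨Δ'.down G h1.1 H hH, ?_⟩
    rcases h1.2 with h | h
    · left
      rw [h] at hH
      exact Finset.subset_empty.1 hH
    · right
      exact fun H' hH' => h H' (hH'.trans hH)

/-- the data of a topological subdivision, as used -/
structure SD (Δ : Cx V) (Δ' : Cx U) (σ : Finset U → Finset V) : Prop where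
  carr : ∀ G ∈ Δ'.faces, σ G ∈ Δ.faces
  e0 : σ ∅ = ∅
  ne : ∀ G ∈ Δ'.faces, σ G = ∅ → G = ∅
  mono : ∀ G ∈ Δ'.faces, ∀ H, H ⊆ G → σ H ⊆ σ G
  ball : ∀ F ∈ Δ.faces, F.Nonempty →
    ∃ φ : realization (res Δ' σ F) ≃ₜ Metric.closedBall (0 : EuclideanSpace ℝ (Fin (F.card - 1))) 1,
      ∀ τ ∈ Δ'.faces, τ.Nonempty → σ τ ⊆ F → σ τ ≠ F →
        ∃ y : realization (res Δ' σ F), (∀ v, 0 < (y : U → ℝ) v ↔ v ∈ τ) ∧
          ‖(φ y : EuclideanSpace ℝ (Fin (F.card - 1)))‖ = 1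

variable {Δ : Cx V} {Δ' : Cx U} {σ : Finset U → Finset V}

lemma mem_res (h : SD Δ Δ' σ) (F : Finset V) (G : Finset U) :
    G ∈ (res Δ' σ F).faces ↔ G ∈ Δ'.faces ∧ σ G ⊆ F := by
  constructor
  · intro h1
    have h2 := Finset.mem_filter.1 h1
    refine ⟨h2.1, ?_⟩
    rcases h2.2 with h3 | h3
    · rw [h3, h.e0]
      exact Finset.empty_subset _
    · exact h3 G (Finset.Subset.refl _)
  · rintro ⟨h1, h2⟩
    exact Finset.mem_filter.2 ⟨h1, Or.inr fun H hH => (h.mono G h1 H hH).trans h2⟩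

lemma res_bdry (h : SD Δ Δ' σ) (F : Finset V) (hF : F ∈ Δ.faces) (τ : Finset U) (hne : τ.Nonempty)
    (h1 : σ τ ≠ F) (k : ℕ) : Acy (res Δ' σ F) ℤ τ k := by
  by_cases hτ : τ ∈ (res Δ' σ F).faces
  · obtain ⟨h2, h3⟩ := (mem_res h F τ).1 hτ
    have hFne : F.Nonempty := by
      rw [Finset.nonempty_iff_ne_empty]
      rintro rfl
      exact h1 (Finset.subset_empty.1 h3)
    obtain ⟨φ, hφ⟩ := h.ball F hF hFne
    obtain ⟨y, hy, hy2⟩ := hφ τ h2 hne h3 h1
    have hy0 : ∀ v, v ∉ τ → (y : U → ℝ) v = 0 := fun v hv =>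
      le_antisymm (not_lt.1 fun h4 => hv ((hy v).1 h4)) (y.2.1 v)
    exact acy_ball_bdry (res Δ' σ F) (F.card - 1) φ τ hτ hne y ⟨y.2.1, y.2.2.1, hy0⟩
      (fun v hv => (hy v).2 hv) hy2 k
  · exact acy_trivial _ τ k fun G hG h2 _ => hτ ((res Δ' σ F).down G hG _ h2)

lemma res_int (h : SD Δ Δ' σ) (F : Finset V) (hF : F ∈ Δ.faces) (τ : Finset U) (k : ℕ)
    (hk : k < F.card) : Acy (res Δ' σ F) ℤ τ k := by
  obtain ⟨φ, _⟩ := h.ball F hF (Finset.card_pos.1 (by omega))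
  exact acy_ball (res Δ' σ F) (F.card - 1) ⟨φ⟩ τ k (by omega)

lemma res_glob (h : SD Δ Δ' σ) (F : Finset V) (hF : F ∈ Δ.faces) (hne : F.Nonempty) (k : ℕ) :
    Acy (res Δ' σ F) ℤ ∅ k := by
  obtain ⟨φ, _⟩ := h.ball F hF hne
  exact acy_ball_global (res Δ' σ F) (F.card - 1) ⟨φ⟩ k

open Classical in
/-- star-shaped part of the subdivision -/
noncomputable def star (h : SD Δ Δ' σ) (F : Finset V) (hF : F ∈ Δ.faces) : Cx U where
  faces := Δ'.faces.filter (fun G => F ∪ σ G ∈ Δ.faces)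
  empty_mem := Finset.mem_filter.2 ⟨Δ'.empty_mem, by rw [h.e0, Finset.union_empty]; exact hF⟩
  down := by
    intro G hG H hH
    have h1 := Finset.mem_filter.1 hG
    exact Finset.mem_filter.2 ⟨Δ'.down G h1.1 H hH, Δ.down _ h1.2 _
      (Finset.union_subset_union_right (h.mono G h1.1 H hH))⟩

lemma mem_star (h : SD Δ Δ' σ) (F : Finset V) (hF : F ∈ Δ.faces) (G : Finset U) :
    G ∈ (star h F hF).faces ↔ G ∈ Δ'.faces ∧ F ∪ σ G ∈ Δ.faces := Finset.mem_filter

lemma row_exact (h : SD Δ Δ' σ) {M : Type*} [AddCommGroup M] (F : Finset V)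
    (τ : Finset U) (hne : τ.Nonempty) (h1 : σ τ ⊆ F) (h2 : F ≠ σ τ) (k : ℕ) :
    AcyP (fun G => G ∈ Δ'.faces ∧ F ∪ σ G ∈ Δ.faces) M τ k := by
  by_cases hF : F ∈ Δ.faces
  · refine acyP_congr (fun G => G ∈ (star h F hF).faces) _ (fun G => mem_star h F hF G) τ k ?_
    refine acyP_of_acy (star h F hF) τ k ?_
    refine acy_car (R := ℤ) (star h F hF) (fun G => res Δ' σ (F ∪ σ G)) τ k ?_ ?_ ?_ ?_ k le_rfl
    · intro G hG
      exact (mem_res h _ G).2 ⟨((mem_star h F hF G).1 hG).1, Finset.subset_union_right⟩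
    · intro G hG x hx π hπ
      obtain ⟨a1, a2⟩ := (mem_star h F hF G).1 hG
      obtain ⟨b1, b2⟩ := (mem_res h _ π).1 hπ
      exact (mem_res h _ π).2 ⟨b1, b2.trans (Finset.union_subset_union_right
        (h.mono G a1 _ (Finset.erase_subset _ _)))⟩
    · intro G hG π hπ
      obtain ⟨a1, a2⟩ := (mem_star h F hF G).1 hG
      obtain ⟨b1, b2⟩ := (mem_res h _ π).1 hπ
      exact (mem_star h F hF π).2 ⟨b1, Δ.down _ a2 _
        (Finset.union_subset Finset.subset_union_left b2)⟩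
    · intro G hG _ _
      obtain ⟨a1, a2⟩ := (mem_star h F hF G).1 hG
      refine res_bdry h (F ∪ σ G) a2 τ hne ?_ _
      intro h3
      apply h2
      refine Finset.Subset.antisymm ?_ h1
      rw [h3]
      exact Finset.subset_union_left
  · intro c hc _
    have : ∀ G, c G = 0 := by
      intro G
      by_contra h3
      exact hF (Δ.down _ (hc G h3).1.2 _ Finset.subset_union_left)
    exact ⟨0, fun G h3 => absurd rfl h3, fun ρ _ _ => by rw [bd_zero, this]⟩

/-- **Local exactness of the subdivision.** -/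
lemma sub_exact (h : SD Δ Δ' σ) {M : Type*} [AddCommGroup M] (d : ℕ)
    (hd : ∀ F ∈ Δ.faces, F.card ≤ d)
    (hcol : ∀ F : Finset V, F.Nonempty → ∀ j, j < d → AcyP (fun F => F ∈ Δ.faces) M F j)
    (τ : Finset U) (hne : τ.Nonempty) (k : ℕ) (hk : k < d) :
    AcyP (fun G => G ∈ Δ'.faces) M τ k := by
  by_cases hτ : τ ∈ Δ'.faces
  · have hS : (σ τ).Nonempty := by
      rw [Finset.nonempty_iff_ne_empty]
      intro h1
      exact hne.ne_empty (h.ne τ hτ h1)
    refine local_exact Δ' Δ σ h.carr h.mono τ d hd (hcol (σ τ) hS) ?_ ?_ k hk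
    · intro k' hk'
      refine acyP_congr (fun G => G ∈ (res Δ' σ (σ τ)).faces) _ (fun G => mem_res h _ G) τ k' ?_
      refine acyP_of_acy _ τ k' ?_
      exact acy_change (R := ℤ) (res Δ' σ (σ τ)) τ k'
        (fun j hj => res_int h (σ τ) (h.carr τ hτ) τ j (by omega)) k' le_rfl
    · intro F h1 h2 k'
      exact row_exact h F τ hne h1 h2 k'
  · exact acyP_of_acy Δ' τ k (acy_trivial Δ' τ k fun G hG h1 _ => hτ (Δ'.down G hG _ h1))

end subd

end Pool.Agent.Helper611.KSub
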