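import Pool.Agent.Helper611.KRel

set_option autoImplicit false
set_option linter.unusedSectionVars false
set_option linter.unnecessarySimpa false

namespace Pool.Agent.Helper611.KTop

open ExteriorAlgebra Pool.Agent.Helper611.ZBase Pool.Agent.Helper611.KRel

section carriers
variable {V : Type} [Fintype V] [LinearOrder V]

/-- Exactness from acyclic carriers. -/
lemma acy_car {R : Type*} [CommRing R] {M : Type*} [AddCommGroup M] [Module R M]
    (Δ : Cx V) (X : Finset V → Cx V) (τ : Finset V) (K : ℕ)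
    (hX0 : ∀ σ ∈ Δ.faces, σ ∈ (X σ).faces)
    (hXm : ∀ σ ∈ Δ.faces, ∀ x ∈ σ, ∀ π ∈ (X (σ.erase x)).faces, π ∈ (X σ).faces)
    (hXs : ∀ σ ∈ Δ.faces, ∀ π ∈ (X σ).faces, π ∈ Δ.faces)
    (h : ∀ σ ∈ Δ.faces, τ ⊆ σ → σ.card ≤ K → Acy (X σ) R τ σ.card) :
    ∀ k, k ≤ K → Acy Δ M τ k := by
  classical
  let supp : (Finset V → Prop) → AddSubgroup (Finset V → R) := fun P =>
    { carrier := {c | ∀ σ, c σ ≠ 0 → P σ}
      add_mem' := by
        intro a b ha hb σ hσ
        by_cases h1 : a σ = 0
        · refine hb σ fun h2 => hσ ?_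
          show a σ + b σ = 0
          rw [h1, h2, add_zero]
        · exact ha σ h1
      zero_mem' := fun σ hσ => absurd rfl hσ
      neg_mem' := by
        intro a ha σ hσ
        exact ha σ fun h => hσ (by show - a σ = 0; rw [h, neg_zero]) }
  let dd : (Finset V → R) →+ (Finset V → R) :=
    { toFun := fun c ρ => if τ ⊆ ρ then bd c ρ else 0
      map_zero' := by funext ρ; simp [bd]
      map_add' := by
        intro a b
        funext ρ
        by_cases hρ : τ ⊆ ρ
        · simp only [if_pos hρ, Pi.add_apply, bd_add]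
        · simp only [if_neg hρ, Pi.add_apply, add_zero] }
  obtain ⟨D, hD⟩ := carrier_lemma dd {σ | σ ∈ Δ.faces ∧ τ ⊆ σ ∧ σ.card ≤ K} τ
    (fun σ => supp fun π => π ∈ (X σ).faces ∧ τ ⊆ π ∧ π.card = σ.card + 1)
    (fun σ => supp fun π => π ∈ (X σ).faces ∧ τ ⊆ π ∧ π.card = σ.card) (-1)
    (fun σ => Pi.single σ 1)
    (by
      rintro σ ⟨h1, h2, h3⟩ x hx
      have hx' := Finset.mem_sdiff.1 hx
      refine ⟨Δ.down σ h1 _ (Finset.erase_subset _ _), fun y hy => Finset.mem_erase.2
        ⟨?_, h2 hy⟩, (Finset.card_le_card (Finset.erase_subset _ _)).trans h3⟩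
      rintro rfl
      exact hx'.2 hy)
    (by
      rintro σ ⟨h1, h2, h3⟩ x hx
      have hx' := Finset.mem_sdiff.1 hx
      have : (σ.erase x).card + 1 = σ.card := Finset.card_erase_add_one hx'.1
      intro c hc π hπ
      have := hc π hπ
      exact ⟨hXm σ h1 x hx'.1 π this.1, this.2.1, by omega⟩)
    (by
      rintro σ ⟨h1, h2, h3⟩ π hπ
      have : π = σ := by
        by_contra h
        exact hπ (Pi.single_eq_of_ne h _)
      subst this
      exact ⟨hX0 _ h1, h2, rfl⟩)
    (by
      rintro σ ⟨h1, h2, h3⟩ z hz hdz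
      obtain ⟨b, hb, hb2⟩ := h σ h1 h2 h3 z hz (fun ρ hρ => by
        have := congrFun hdz ρ
        simpa [dd, if_pos hρ] using this)
      refine ⟨b, hb, ?_⟩
      funext ρ
      show (if τ ⊆ ρ then bd b ρ else 0) = z ρ
      by_cases hρ : τ ⊆ ρ
      · rw [if_pos hρ, hb2 ρ hρ]
      · rw [if_neg hρ]
        by_contra h4
        exact hρ (hz ρ (Ne.symm h4)).2.1)
    (by
      rintro σ ⟨h1, h2, h3⟩
      funext ρ
      show (if τ ⊆ ρ then bd (Pi.single σ (1 : R)) ρ else 0) = _
      rw [neg_smul, neg_neg, one_smul, Finset.sum_apply]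
      by_cases hρ : τ ⊆ ρ
      · rw [if_pos hρ, bd_single τ σ ρ hρ]
        rfl
      · rw [if_neg hρ]
        symm
        refine Finset.sum_eq_zero fun x hx => ?_
        have hx' := Finset.mem_sdiff.1 hx
        show sgn x (σ.erase x) • (Pi.single (σ.erase x) (1 : R) : Finset V → R) ρ = 0
        rw [Pi.single_eq_of_ne, smul_zero]
        rintro rfl
        refine hρ fun y hy => Finset.mem_erase.2 ⟨?_, h2 hy⟩
        rintro rfl
        exact hx'.2 hy)
  intro k hk z hz hdz
  have hzF : ∀ σ, z σ ≠ 0 → σ ∈ {σ | σ ∈ Δ.faces ∧ τ ⊆ σ ∧ σ.card ≤ K} := by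
    intro σ hσ
    have := hz σ hσ
    exact ⟨this.1, this.2.1, by omega⟩
  let T : Finset (Finset V) := Finset.univ.filter (fun σ => τ ⊆ σ)
  refine ⟨fun σ' => ∑ σ ∈ T, (D σ σ') • z σ, ?_, ?_⟩
  · intro σ' hσ'
    obtain ⟨σ, hσT, hσ⟩ := Finset.exists_ne_zero_of_sum_ne_zero hσ'
    have hz0 : z σ ≠ 0 := fun h0 => hσ (by rw [h0, smul_zero])
    have hD0 : D σ σ' ≠ 0 := fun h0 => hσ (by rw [h0, zero_smul])
    have := (hD σ (hzF σ hz0)).1 σ' hD0
    exact ⟨hXs σ (hz σ hz0).1 σ' this.1, this.2.1, by rw [this.2.2, (hz σ hz0).2.2]⟩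
  · intro ρ hρ
    have e1 : bd (fun σ' => ∑ σ ∈ T, (D σ σ') • z σ) ρ = ∑ σ ∈ T, (bd (D σ) ρ) • z σ := by
      unfold bd
      rw [Finset.sum_congr rfl (fun x _ => Finset.smul_sum), Finset.sum_comm]
      refine Finset.sum_congr rfl fun σ _ => ?_
      rw [Finset.sum_smul]
      refine Finset.sum_congr rfl fun x _ => ?_
      rw [smul_assoc]
    rw [e1]
    have e2 : ∀ σ ∈ T, (bd (D σ) ρ) • z σ = (Pi.single σ (1 : R) : Finset V → R) ρ • z σ -
        ∑ x ∈ σ \ τ, sgn x (σ.erase x) • (D (σ.erase x) ρ) • z σ := by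
      intro σ hσ
      by_cases h0 : z σ = 0
      · simp [h0]
      · have h5 := congrFun (hD σ (hzF σ h0)).2 ρ
        have h6 : (if τ ⊆ ρ then bd (D σ) ρ else 0) = _ := h5
        rw [if_pos hρ] at h6
        rw [h6]
        rw [neg_smul, one_smul, ← sub_eq_add_neg, Pi.sub_apply, sub_smul, Finset.sum_apply,
          Finset.sum_smul]
        congr 1
        refine Finset.sum_congr rfl fun x _ => ?_
        rw [Pi.smul_apply, smul_assoc]
    rw [Finset.sum_congr rfl e2, Finset.sum_sub_distrib]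
    have e3 : ∑ σ ∈ T, (Pi.single σ (1 : R) : Finset V → R) ρ • z σ = z ρ := by
      rw [Finset.sum_eq_single ρ]
      · rw [Pi.single_eq_same, one_smul]
      · intro σ _ hσ
        rw [Pi.single_eq_of_ne (Ne.symm hσ), zero_smul]
      · intro h7
        exact absurd (Finset.mem_filter.2 ⟨Finset.mem_univ _, hρ⟩) h7
    have e4 : ∑ σ ∈ T, ∑ x ∈ σ \ τ, sgn x (σ.erase x) • (D (σ.erase x) ρ) • z σ = 0 := by
      rw [reidx τ (fun x π σ => sgn x π • (D π ρ) • z σ)]
      refine Finset.sum_eq_zero fun π hπ => ?_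
      have hπ' := (Finset.mem_filter.1 hπ).2
      have h8 := hdz π hπ'
      unfold bd at h8
      have : ∑ x ∈ πᶜ, sgn x π • D π ρ • z (insert x π) =
          D π ρ • ∑ x ∈ πᶜ, sgn x π • z (insert x π) := by
        rw [Finset.smul_sum]
        exact Finset.sum_congr rfl fun x _ => smul_comm _ _ _
      rw [this, h8, smul_zero]
    rw [e3, e4, sub_zero]

end carriers

section double
variable {U V : Type} [Fintype U] [LinearOrder U] [Fintype V] [LinearOrder V]
variable {M : Type*} [AddCommGroup M]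

/-- total differential of the double complex of pairs -/
def DT (τ : Finset U) (S : Finset V) (w : Finset U → Finset V → M) (G : Finset U)
    (F : Finset V) : M :=
  open Classical in
  if τ ⊆ G ∧ S ⊆ F then bd (fun G' => w G' F) G + (-1 : ℤ) ^ G.card • bd (w G) F else 0

lemma DT_pos (τ : Finset U) (S : Finset V) (w : Finset U → Finset V → M) (G : Finset U)
    (F : Finset V) (h1 : τ ⊆ G) (h2 : S ⊆ F) :
    DT τ S w G F = bd (fun G' => w G' F) G + (-1 : ℤ) ^ G.card • bd (w G) F := if_pos ⟨h1, h2⟩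

lemma DT_neg (τ : Finset U) (S : Finset V) (w : Finset U → Finset V → M) (G : Finset U)
    (F : Finset V) (h : ¬ (τ ⊆ G ∧ S ⊆ F)) : DT τ S w G F = 0 := if_neg h

lemma bd_smul (c : Finset V → M) (n : ℤ) (ρ : Finset V) : bd (fun σ => n • c σ) ρ = n • bd c ρ := by
  unfold bd
  rw [Finset.smul_sum]
  exact Finset.sum_congr rfl fun x _ => smul_comm _ _ _

lemma bd_comm (w : Finset U → Finset V → M) (G : Finset U) (F : Finset V) :
    bd (fun G' => bd (w G') F) G = bd (fun F' => bd (fun G' => w G' F') G) F := by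
  unfold bd
  simp only [Finset.smul_sum]
  rw [Finset.sum_comm]
  refine Finset.sum_congr rfl fun x _ => Finset.sum_congr rfl fun y _ => smul_comm _ _ _

lemma DT_DT (τ : Finset U) (S : Finset V) (w : Finset U → Finset V → M) (G : Finset U)
    (F : Finset V) : DT τ S (DT τ S w) G F = 0 := by
  by_cases h : τ ⊆ G ∧ S ⊆ F
  · rw [DT_pos τ S _ G F h.1 h.2]
    have e1 : bd (fun G' => DT τ S w G' F) G =
        bd (fun G' => (-1 : ℤ) ^ G'.card • bd (w G') F) G := by
      have e0 : bd (fun G' => DT τ S w G' F) G =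
          bd ((fun G' => bd (fun G' => w G' F) G') + fun G' => (-1 : ℤ) ^ G'.card • bd (w G') F)
            G := by
        refine bd_ext _ _ _ fun x _ => ?_
        exact DT_pos τ S w _ F (h.1.trans (Finset.subset_insert _ _)) h.2
      rw [e0, bd_add]
      have : bd (fun G' => bd (fun G' => w G' F) G') G = 0 := bd_bd _ _
      rw [this, zero_add]
    have e2 : bd (fun G' => (-1 : ℤ) ^ G'.card • bd (w G') F) G =
        -((-1 : ℤ) ^ G.card • bd (fun G' => bd (w G') F) G) := by
      have : bd (fun G' => (-1 : ℤ) ^ G'.card • bd (w G') F) G =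
          bd (fun G' => (-1 : ℤ) ^ (G.card + 1) • bd (w G') F) G := by
        refine bd_ext _ _ _ fun x hx => ?_
        rw [Finset.card_insert_of_notMem hx]
      rw [this, bd_smul, pow_succ, mul_neg_one, neg_smul]
    have e3 : bd (DT τ S w G) F = bd (fun F' => bd (fun G' => w G' F') G) F := by
      have e0 : bd (DT τ S w G) F =
          bd ((fun F' => bd (fun G' => w G' F') G) + fun F' => (-1 : ℤ) ^ G.card • bd (w G) F')
            F := by
        refine bd_ext _ _ _ fun x _ => ?_
        exact DT_pos τ S w _ _ h.1 (h.2.trans (Finset.subset_insert _ _))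
      rw [e0, bd_add]
      have : bd (fun F' => (-1 : ℤ) ^ G.card • bd (w G) F') F = 0 := by
        rw [bd_smul, bd_bd, smul_zero]
      rw [this, add_zero]
    rw [e1, e2, e3, bd_comm, neg_add_cancel]
  · exact DT_neg τ S _ G F h

lemma DT_sub (τ : Finset U) (S : Finset V) (w u : Finset U → Finset V → M) (G : Finset U)
    (F : Finset V) : DT τ S (fun G F => w G F - u G F) G F = DT τ S w G F - DT τ S u G F := by
  by_cases h : τ ⊆ G ∧ S ⊆ F
  · rw [DT_pos τ S _ G F h.1 h.2, DT_pos τ S w G F h.1 h.2, DT_pos τ S u G F h.1 h.2]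
    have e1 : bd (fun G' => w G' F - u G' F) G = bd (fun G' => w G' F) G - bd (fun G' => u G' F) G :=
      bd_sub _ _ _
    have e2 : bd (fun F => w G F - u G F) F = bd (w G) F - bd (u G) F := bd_sub _ _ _
    rw [e1, e2, smul_sub]
    abel
  · rw [DT_neg τ S _ G F h, DT_neg τ S _ G F h, DT_neg τ S _ G F h, sub_zero]

lemma DT_ne (τ : Finset U) (S : Finset V) (w : Finset U → Finset V → M) (G : Finset U)
    (F : Finset V) (h : DT τ S w G F ≠ 0) : (τ ⊆ G ∧ S ⊆ F) ∧
      ((∃ x, x ∉ G ∧ w (insert x G) F ≠ 0) ∨ (∃ y, y ∉ F ∧ w G (insert y F) ≠ 0)) := by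
  by_cases h1 : τ ⊆ G ∧ S ⊆ F
  · refine ⟨h1, ?_⟩
    rw [DT_pos τ S _ G F h1.1 h1.2] at h
    by_contra hcon
    push Not at hcon
    apply h
    rw [bd_eq_zero _ _ fun x hx => hcon.1 x hx, bd_eq_zero _ _ fun x hx => hcon.2 x hx,
      smul_zero, add_zero]
  · exact absurd (DT_neg τ S _ G F h1) h

end double

section cone
variable {V : Type} [Fintype V] [LinearOrder V] {M : Type*} [AddCommGroup M]

/-- put a vertex in front, general coefficients -/
def wdgM (x : V) (c : Finset V → M) (σ : Finset V) : M :=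
  if x ∈ σ then sgn x (σ.erase x) • c (σ.erase x) else 0

lemma sgn_ss (x : V) (ρ : Finset V) (a : M) : sgn x ρ • sgn x ρ • a = a := by
  rw [smul_smul, sgn_mul_self, one_smul]

lemma sgn_prod (x y : V) (π : Finset V) (hxy : x ≠ y) (hx : x ∉ π) (hy : y ∉ π) :
    sgn y (insert x π) * sgn x (insert y π) = -(sgn x π * sgn y π) := by
  have h4 := sgn_swap x y π hxy hx hy
  have h5 := sgn_mul_self x π
  have e1 : sgn y (insert x π) = -(sgn x π * sgn y π * sgn x (insert y π)) := by
    calc sgn y (insert x π) = (sgn x π * sgn x π) * sgn y (insert x π) := by rw [h5, one_mul]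
      _ = sgn x π * (sgn x π * sgn y (insert x π)) := by ring
      _ = _ := by rw [h4]; ring
  rw [e1]
  have h8 := sgn_mul_self x (insert y π)
  calc -(sgn x π * sgn y π * sgn x (insert y π)) * sgn x (insert y π)
      = -(sgn x π * sgn y π * (sgn x (insert y π) * sgn x (insert y π))) := by ring
    _ = _ := by rw [h8, mul_one]

lemma bd_wdgM (x : V) (c : Finset V → M) (ρ : Finset V) :
    bd (wdgM x c) ρ = c ρ - wdgM x (bd c) ρ := by
  by_cases hx : x ∈ ρ
  · obtain ⟨π, hπ, rfl⟩ : ∃ π, x ∉ π ∧ insert x π = ρ :=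
      ⟨ρ.erase x, Finset.notMem_erase _ _, Finset.insert_erase hx⟩
    have h1 : wdgM x (bd c) (insert x π) = c (insert x π) +
        ∑ y ∈ (insert x π)ᶜ, (sgn x π * sgn y π) • c (insert y π) := by
      unfold wdgM
      rw [if_pos (Finset.mem_insert_self _ _), Finset.erase_insert hπ]
      unfold bd
      rw [← Finset.add_sum_erase _ _ (Finset.mem_compl.2 hπ), smul_add, sgn_ss,
        Finset.compl_insert, Finset.smul_sum]
      congr 1
      exact Finset.sum_congr rfl fun y _ => smul_smul _ _ _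
    have h2 : bd (wdgM x c) (insert x π) =
        - ∑ y ∈ (insert x π)ᶜ, (sgn x π * sgn y π) • c (insert y π) := by
      unfold bd
      rw [← Finset.sum_neg_distrib]
      refine Finset.sum_congr rfl fun y hy => ?_
      have hy' := Finset.mem_compl.1 hy
      have hyx : y ≠ x := fun h => hy' (h ▸ Finset.mem_insert_self _ _)
      have hyπ : y ∉ π := fun h => hy' (Finset.mem_insert_of_mem h)
      unfold wdgM
      have h3 : (insert y (insert x π)).erase x = insert y π := by
        rw [Finset.insert_comm, Finset.erase_insert]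
        intro h
        rcases Finset.mem_insert.1 h with h | h
        · exact hyx h.symm
        · exact hπ h
      rw [if_pos (by simp), h3, smul_smul, sgn_prod x y π hyx.symm hπ hyπ, neg_smul]
    rw [h1, h2]
    abel
  · have h1 : wdgM x (bd c) ρ = 0 := if_neg hx
    rw [h1, sub_zero]
    unfold bd
    rw [Finset.sum_eq_single_of_mem x (Finset.mem_compl.2 hx)]
    · unfold wdgM
      rw [if_pos (Finset.mem_insert_self _ _), Finset.erase_insert hx, sgn_ss]
    · intro y _ hyx
      unfold wdgM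
      rw [if_neg, smul_zero]
      intro h
      rcases Finset.mem_insert.1 h with h | h
      · exact hyx h.symm
      · exact hx h

end cone


section chase
variable {U V : Type} [Fintype U] [LinearOrder U] [Fintype V] [LinearOrder V]

/-- columns are exact -/
lemma col_exact {M : Type*} [AddCommGroup M] (Δ : Cx V) (S S' : Finset V) (hS : S ⊆ S') (d : ℕ)
    (hcol : ∀ j, j < d → AcyP (fun F => F ∈ Δ.faces) M S j) (j : ℕ) (hj : j < d) :
    AcyP (fun F => F ∪ S' ∈ Δ.faces) M S j := by
  by_cases h : S' = S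
  · subst h
    intro c hc hc2
    obtain ⟨b, hb, hb2⟩ := hcol j hj c
      (fun F hF => ⟨by rw [← Finset.union_eq_left.2 (hc F hF).2.1]; exact (hc F hF).1, (hc F hF).2⟩)
      (fun ρ hρ hρ2 => hc2 ρ hρ (by
        show ρ ∪ S' ∈ Δ.faces
        rw [Finset.union_eq_left.2 hρ]; exact hρ2))
    refine ⟨b, fun F hF => ⟨?_, (hb F hF).2⟩, fun ρ hρ hρ2 => hb2 ρ hρ ?_⟩
    · show F ∪ S' ∈ Δ.faces
      rw [Finset.union_eq_left.2 (hb F hF).2.1]
      exact (hb F hF).1
    · have hρ3 : ρ ∪ S' ∈ Δ.faces := hρ2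
      rw [Finset.union_eq_left.2 hρ] at hρ3
      exact hρ3
  · obtain ⟨v, hv, hvS⟩ : ∃ v, v ∈ S' ∧ v ∉ S := by
      by_contra hcon
      push Not at hcon
      exact h (Finset.Subset.antisymm hcon hS)
    intro c hc hc2
    have hbdc : ∀ ρ, S ⊆ ρ → bd c ρ = 0 := by
      intro ρ hρ
      by_cases h1 : ρ ∪ S' ∈ Δ.faces
      · exact hc2 ρ hρ h1
      · refine bd_eq_zero _ _ fun x _ => ?_
        by_contra h2
        exact h1 (Δ.down _ (hc _ h2).1 _ (Finset.union_subset_union_left (Finset.subset_insert _ _)))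
    refine ⟨wdgM v c, ?_, ?_⟩
    · intro F hF
      have hvF : v ∈ F := by
        by_contra h1
        exact hF (if_neg h1)
      have h2 : c (F.erase v) ≠ 0 := by
        intro h0
        apply hF
        unfold wdgM
        rw [if_pos hvF, h0, smul_zero]
      obtain ⟨h3, h4, h5⟩ := hc _ h2
      refine ⟨?_, h4.trans (Finset.erase_subset _ _), ?_⟩
      · show F ∪ S' ∈ Δ.faces
        have : F.erase v ∪ S' = F ∪ S' := by
          ext x
          simp only [Finset.mem_union, Finset.mem_erase]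
          constructor
          · rintro (h | h)
            · exact Or.inl h.2
            · exact Or.inr h
          · rintro (h | h)
            · by_cases hx : x = v
              · exact Or.inr (hx ▸ hv)
              · exact Or.inl ⟨hx, h⟩
            · exact Or.inr h
        rw [← this]
        exact h3
      · have := Finset.card_erase_add_one hvF
        omega
    · intro ρ hρ _
      rw [bd_wdgM]
      have : wdgM v (bd c) ρ = 0 := by
        unfold wdgM
        by_cases h1 : v ∈ ρ
        · rw [if_pos h1, hbdc, smul_zero]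
          intro x hx
          refine Finset.mem_erase.2 ⟨?_, hρ hx⟩
          rintro rfl
          exact hvS hx
        · rw [if_neg h1]
      rw [this, sub_zero]

/-- the top cycles, as coefficients -/
def TopC (Δ : Cx V) (M : Type*) [AddCommGroup M] (S : Finset V) (d : ℕ) :
    AddSubgroup (Finset V → M) where
  carrier := {t | (∀ F, t F ≠ 0 → F ∈ Δ.faces ∧ S ⊆ F ∧ F.card = d) ∧ ∀ ρ, S ⊆ ρ → bd t ρ = 0}
  add_mem' := by
    rintro a b ⟨ha, ha2⟩ ⟨hb, hb2⟩
    refine ⟨fun F hF => ?_, fun ρ hρ => by rw [bd_add, ha2 ρ hρ, hb2 ρ hρ, add_zero]⟩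
    by_cases h : a F = 0
    · exact hb F fun h2 => hF (by rw [Pi.add_apply, h, h2, add_zero])
    · exact ha F h
  zero_mem' := ⟨fun F hF => absurd rfl hF, fun ρ _ => bd_zero ρ⟩
  neg_mem' := by
    rintro a ⟨ha, ha2⟩
    refine ⟨fun F hF => ha F fun h => hF (by rw [Pi.neg_apply, h, neg_zero]), fun ρ hρ => ?_⟩
    have : bd (-a) ρ = bd (fun σ => (-1 : ℤ) • a σ) ρ := by
      congr 1
      funext σ
      rw [Pi.neg_apply, neg_one_smul]
    rw [this, bd_smul, ha2 ρ hρ, smul_zero]

variable {M : Type*} [AddCommGroup M]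

/-- support of a chain of the double complex -/
def SR (Δ' : Cx U) (Δ : Cx V) (σ : Finset U → Finset V) (τ : Finset U) (n : ℕ)
    (w : Finset U → Finset V → M) : Prop :=
  ∀ G F, w G F ≠ 0 → G ∈ Δ'.faces ∧ τ ⊆ G ∧ σ τ ⊆ F ∧ F ∪ σ G ∈ Δ.faces ∧ G.card + F.card = n

lemma SR_sub (Δ' : Cx U) (Δ : Cx V) (σ : Finset U → Finset V) (τ : Finset U) (n : ℕ)
    (w u : Finset U → Finset V → M) (hw : SR Δ' Δ σ τ n w) (hu : SR Δ' Δ σ τ n u) :
    SR Δ' Δ σ τ n (fun G F => w G F - u G F) := by
  intro G F h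
  by_cases h1 : w G F = 0
  · exact hu G F fun h2 => h (by show w G F - u G F = 0; rw [h1, h2, sub_zero])
  · exact hw G F h1

lemma SR_add (Δ' : Cx U) (Δ : Cx V) (σ : Finset U → Finset V) (τ : Finset U) (n : ℕ)
    (w u : Finset U → Finset V → M) (hw : SR Δ' Δ σ τ n w) (hu : SR Δ' Δ σ τ n u) :
    SR Δ' Δ σ τ n (fun G F => w G F + u G F) := by
  intro G F h
  by_cases h1 : w G F = 0
  · exact hu G F fun h2 => h (by show w G F + u G F = 0; rw [h1, h2, add_zero])
  · exact hw G F h1

lemma SR_DT (Δ' : Cx U) (Δ : Cx V) (σ : Finset U → Finset V)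
    (hm : ∀ G ∈ Δ'.faces, ∀ H, H ⊆ G → σ H ⊆ σ G) (τ : Finset U) (n : ℕ)
    (w : Finset U → Finset V → M) (hw : SR Δ' Δ σ τ (n + 1) w) :
    SR Δ' Δ σ τ n (DT τ (σ τ) w) := by
  intro G F h
  obtain ⟨h1, h2 | h2⟩ := DT_ne τ (σ τ) w G F h
  · obtain ⟨x, hx, hx2⟩ := h2
    obtain ⟨a1, a2, a3, a4, a5⟩ := hw _ _ hx2
    refine ⟨Δ'.down _ a1 _ (Finset.subset_insert _ _), h1.1, h1.2, Δ.down _ a4 _
      (Finset.union_subset_union_right (hm _ a1 _ (Finset.subset_insert _ _))), ?_⟩
    rw [Finset.card_insert_of_notMem hx] at a5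
    omega
  · obtain ⟨x, hx, hx2⟩ := h2
    obtain ⟨a1, a2, a3, a4, a5⟩ := hw _ _ hx2
    refine ⟨a1, h1.1, h1.2, Δ.down _ a4 _
      (Finset.union_subset_union_left (Finset.subset_insert _ _)), ?_⟩
    rw [Finset.card_insert_of_notMem hx] at a5
    omega

/-- pushing the second variable up -/
lemma push_up (Δ' : Cx U) (Δ : Cx V) (σ : Finset U → Finset V)
    (hm : ∀ G ∈ Δ'.faces, ∀ H, H ⊆ G → σ H ⊆ σ G) (τ : Finset U) (d n : ℕ)
    (hcol : ∀ j, j < d → AcyP (fun F => F ∈ Δ.faces) M (σ τ) j)
    (w : Finset U → Finset V → M) (hw : SR Δ' Δ σ τ n w) (hw2 : ∀ G F, DT τ (σ τ) w G F = 0)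
    (j : ℕ) (hj : j ≤ d) :
    ∃ u : Finset U → Finset V → M, SR Δ' Δ σ τ (n + 1) u ∧
      ∀ G F, w G F - DT τ (σ τ) u G F ≠ 0 → j ≤ F.card := by
  classical
  induction j with
  | zero =>
    refine ⟨fun _ _ => 0, fun G F h => absurd rfl h, fun G F _ => Nat.zero_le _⟩
  | succ j ih =>
    obtain ⟨u, hu, hu2⟩ := ih (by omega)
    let w1 : Finset U → Finset V → M := fun G F => w G F - DT τ (σ τ) u G F
    have hw1 : SR Δ' Δ σ τ n w1 := SR_sub Δ' Δ σ τ n _ _ hw (SR_DT Δ' Δ σ hm τ n u hu)
    have hw1D : ∀ G F, DT τ (σ τ) w1 G F = 0 := by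
      intro G F
      show DT τ (σ τ) (fun G F => w G F - DT τ (σ τ) u G F) G F = 0
      rw [DT_sub, hw2, DT_DT, sub_zero]
    have hw1j : ∀ G F, F.card < j → w1 G F = 0 := by
      intro G F hF
      by_contra h
      exact absurd (hu2 G F h) (by omega)
    have key : ∀ G : Finset U, ∃ g : Finset V → M,
        (∀ F, g F ≠ 0 → G ∈ Δ'.faces ∧ τ ⊆ G ∧ σ τ ⊆ F ∧ F ∪ σ G ∈ Δ.faces ∧
          G.card + F.card = n + 1 ∧ F.card = j + 1) ∧
        ∀ ρ, σ τ ⊆ ρ → ρ.card = j → bd g ρ = w1 G ρ := by
      intro G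
      by_cases hG : (G ∈ Δ'.faces ∧ τ ⊆ G) ∧ G.card + j = n
      · have hfne : ∀ F, (if F.card = j then w1 G F else 0) ≠ 0 → F.card = j ∧ w1 G F ≠ 0 := by
          intro F hF
          by_cases h : F.card = j
          · rw [if_pos h] at hF
            exact ⟨h, hF⟩
          · rw [if_neg h] at hF
            exact absurd rfl hF
        obtain ⟨g, hg, hg2⟩ := col_exact (M := M) Δ (σ τ) (σ G) (hm G hG.1.1 τ hG.1.2) d hcol j
          (by omega) (fun F => if F.card = j then w1 G F else 0)
          (by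
            intro F hF
            obtain ⟨h1, h2⟩ := hfne F hF
            obtain ⟨a1, a2, a3, a4, a5⟩ := hw1 G F h2
            exact ⟨a4, a3, h1⟩)
          (by
            intro ρ hρ _
            by_cases hρj : ρ.card + 1 = j
            · have e1 : bd (fun F => if F.card = j then w1 G F else 0) ρ = bd (w1 G) ρ := by
                refine bd_ext _ _ _ fun x hx => ?_
                rw [if_pos (by rw [Finset.card_insert_of_notMem hx]; exact hρj)]
              rw [e1]
              have h1 := hw1D G ρ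
              rw [DT_pos τ _ _ G ρ hG.1.2 hρ] at h1
              have h2 : bd (fun G' => w1 G' ρ) G = 0 :=
                bd_eq_zero _ _ fun x _ => hw1j _ _ (by omega)
              rw [h2, zero_add] at h1
              have h3 := congrArg (fun t => (-1 : ℤ) ^ G.card • t) h1
              simp only [smul_smul, smul_zero] at h3
              rw [← pow_add, ← two_mul, pow_mul] at h3
              simpa using h3
            · refine bd_eq_zero _ _ fun x hx => ?_
              rw [if_neg]
              rw [Finset.card_insert_of_notMem hx]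
              exact hρj)
        refine ⟨g, fun F hF => ?_, fun ρ hρ hρj => ?_⟩
        · obtain ⟨h1, h2, h3⟩ := hg F hF
          exact ⟨hG.1.1, hG.1.2, h2, h1, by omega, h3⟩
        · by_cases h1 : ρ ∪ σ G ∈ Δ.faces
          · rw [hg2 ρ hρ h1, if_pos hρj]
          · have h2 : w1 G ρ = 0 := by
              by_contra h3
              exact h1 (hw1 G ρ h3).2.2.2.1
            rw [h2]
            refine bd_eq_zero _ _ fun x _ => ?_
            by_contra h3
            exact h1 (Δ.down _ (hg _ h3).1 _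
              (Finset.union_subset_union_left (Finset.subset_insert _ _)))
      · refine ⟨0, fun F hF => absurd rfl hF, fun ρ hρ hρj => ?_⟩
        rw [bd_zero]
        by_contra h
        obtain ⟨a1, a2, a3, a4, a5⟩ := hw1 G ρ (Ne.symm h)
        exact hG ⟨⟨a1, a2⟩, by omega⟩
    choose g hg hg2 using key
    let u1 : Finset U → Finset V → M := fun G F => (-1 : ℤ) ^ G.card • g G F
    have hu1ne : ∀ G F, u1 G F ≠ 0 → g G F ≠ 0 := fun G F h h2 => h (by
      show (-1 : ℤ) ^ G.card • g G F = 0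
      rw [h2, smul_zero])
    have hu1 : SR Δ' Δ σ τ (n + 1) u1 := by
      intro G F h
      obtain ⟨a1, a2, a3, a4, a5, _⟩ := hg G F (hu1ne G F h)
      exact ⟨a1, a2, a3, a4, a5⟩
    refine ⟨fun G F => u G F + u1 G F, SR_add Δ' Δ σ τ (n + 1) u u1 hu hu1, ?_⟩
    intro G F hGF
    have e1 : DT τ (σ τ) (fun G F => u G F + u1 G F) G F =
        DT τ (σ τ) u G F + DT τ (σ τ) u1 G F := by
      have := DT_sub τ (σ τ) (fun G F => u G F + u1 G F) u1 G F
      have e0 : (fun G F => (fun G F => u G F + u1 G F) G F - u1 G F) = u := by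
        funext G F
        show u G F + u1 G F - u1 G F = u G F
        abel
      rw [e0] at this
      rw [this]
      abel
    rw [e1, ← sub_sub] at hGF
    by_contra hF
    have hF' : F.card ≤ j := by omega
    apply hGF
    show w1 G F - DT τ (σ τ) u1 G F = 0
    by_cases h : τ ⊆ G ∧ σ τ ⊆ F
    · rw [DT_pos τ _ _ G F h.1 h.2]
      have h1 : bd (fun G' => u1 G' F) G = 0 := by
        refine bd_eq_zero _ _ fun x _ => ?_
        by_contra h2
        have := (hg _ _ (hu1ne _ _ h2)).2.2.2.2.2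
        omega
      have h2 : bd (u1 G) F = (-1 : ℤ) ^ G.card • bd (g G) F := bd_smul _ _ _
      rw [h1, zero_add, h2, smul_smul, ← pow_add, ← two_mul, pow_mul]
      rcases Nat.lt_or_ge F.card j with hlt | hge
      · rw [hw1j G F hlt]
        have : bd (g G) F = 0 := by
          refine bd_eq_zero _ _ fun x hx => ?_
          by_contra h2
          have := (hg _ _ h2).2.2.2.2.2
          rw [Finset.card_insert_of_notMem hx] at this
          omega
        rw [this, smul_zero, sub_zero]
      · rw [hg2 G F h.2 (by omega)]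
        simp
    · rw [DT_neg τ _ _ G F h, sub_zero]
      by_contra h2
      obtain ⟨a1, a2, a3, _⟩ := hw1 G F h2
      exact h ⟨a2, a3⟩


/-- the double complex is exact in low degrees -/
lemma dbl_exact (Δ' : Cx U) (Δ : Cx V) (σ : Finset U → Finset V)
    (hm : ∀ G ∈ Δ'.faces, ∀ H, H ⊆ G → σ H ⊆ σ G) (τ : Finset U) (d n : ℕ)
    (hd : ∀ F ∈ Δ.faces, F.card ≤ d)
    (hcol : ∀ j, j < d → AcyP (fun F => F ∈ Δ.faces) M (σ τ) j)
    (hin : ∀ k, k < (σ τ).card →
      AcyP (fun G => G ∈ Δ'.faces ∧ σ G ⊆ σ τ) (TopC Δ M (σ τ) d) τ k)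
    (hn : n < d + (σ τ).card)
    (w : Finset U → Finset V → M) (hw : SR Δ' Δ σ τ n w) (hw2 : ∀ G F, DT τ (σ τ) w G F = 0) :
    ∃ u : Finset U → Finset V → M, SR Δ' Δ σ τ (n + 1) u ∧ ∀ G F, DT τ (σ τ) u G F = w G F := by
  classical
  obtain ⟨u, hu, hu2⟩ := push_up Δ' Δ σ hm τ d n hcol w hw hw2 d le_rfl
  let w1 : Finset U → Finset V → M := fun G F => w G F - DT τ (σ τ) u G F
  have hw1 : SR Δ' Δ σ τ n w1 := SR_sub Δ' Δ σ τ n _ _ hw (SR_DT Δ' Δ σ hm τ n u hu)
  have hw1D : ∀ G F, DT τ (σ τ) w1 G F = 0 := by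
    intro G F
    show DT τ (σ τ) (fun G F => w G F - DT τ (σ τ) u G F) G F = 0
    rw [DT_sub, hw2, DT_DT, sub_zero]
  have hcard : ∀ G F, w1 G F ≠ 0 → F.card = d := by
    intro G F h
    have h1 := hu2 G F h
    have h2 := hd _ (hw1 G F h).2.2.2.1
    have h3 := Finset.card_le_card (Finset.subset_union_left : F ⊆ F ∪ σ G)
    omega
  have hsub : ∀ G F, w1 G F ≠ 0 → σ G ⊆ F := by
    intro G F h
    have h2 := hd _ (hw1 G F h).2.2.2.1
    have h3 : F = F ∪ σ G := Finset.eq_of_subset_of_card_le Finset.subset_union_left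
      (by rw [hcard G F h]; exact h2)
    rw [h3]
    exact Finset.subset_union_right
  have hcyc : ∀ G, τ ⊆ G → ∀ ρ, σ τ ⊆ ρ → bd (w1 G) ρ = 0 := by
    intro G hG ρ hρ
    by_cases hρd : ρ.card + 1 = d
    · have h1 := hw1D G ρ
      rw [DT_pos τ _ _ G ρ hG hρ] at h1
      have h2 : bd (fun G' => w1 G' ρ) G = 0 := by
        refine bd_eq_zero _ _ fun x _ => ?_
        by_contra h3
        have := hcard _ _ h3
        omega
      rw [h2, zero_add] at h1
      have h3 := congrArg (fun t => (-1 : ℤ) ^ G.card • t) h1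
      simp only [smul_smul, smul_zero] at h3
      rw [← pow_add, ← two_mul, pow_mul] at h3
      simpa using h3
    · refine bd_eq_zero _ _ fun x hx => ?_
      by_contra h3
      have := hcard _ _ h3
      rw [Finset.card_insert_of_notMem hx] at this
      exact hρd this
  -- supported on faces with carrier `σ τ`
  have hcar : ∀ G F, w1 G F ≠ 0 → σ G ⊆ σ τ := by
    intro G F h v hv
    by_contra hvS
    have hvF : v ∈ F := hsub G F h hv
    obtain ⟨a1, a2, a3, a4, a5⟩ := hw1 G F h
    have hsubF : σ τ ⊆ F.erase v := by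
      intro x hx
      refine Finset.mem_erase.2 ⟨?_, a3 hx⟩
      rintro rfl
      exact hvS hx
    have h1 := hcyc G a2 (F.erase v) hsubF
    unfold bd at h1
    rw [Finset.sum_eq_single_of_mem v (Finset.mem_compl.2 (Finset.notMem_erase _ _)),
      Finset.insert_erase hvF] at h1
    · have h2 := congrArg (fun t => sgn v (F.erase v) • t) h1
      simp only [sgn_ss, smul_zero] at h2
      exact h h2
    · intro x hx hxv
      have : w1 G (insert x (F.erase v)) = 0 := by
        by_contra h2
        have h3 := hsub G _ h2 hv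
        rcases Finset.mem_insert.1 h3 with h4 | h4
        · exact hxv h4.symm
        · exact Finset.notMem_erase _ _ h4
      rw [this, smul_zero]
  have hmem : ∀ G, τ ⊆ G → w1 G ∈ TopC Δ M (σ τ) d := by
    intro G hG
    refine ⟨fun F hF => ⟨?_, (hw1 G F hF).2.2.1, hcard G F hF⟩, hcyc G hG⟩
    have h1 := (hw1 G F hF).2.2.2.1
    rw [Finset.union_eq_left.2 (hsub G F hF)] at h1
    exact h1
  have hmem' : ∀ G, w1 G ∈ TopC Δ M (σ τ) d := by
    intro G
    by_cases hG : τ ⊆ G
    · exact hmem G hG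
    · have : w1 G = 0 := by
        funext F
        by_contra h
        exact hG (hw1 G F h).2.1
      rw [this]
      exact AddSubgroup.zero_mem _
  by_cases hnd : n < d
  · -- nothing is left
    refine ⟨u, hu, fun G F => ?_⟩
    have : w1 G F = 0 := by
      by_contra h
      have h1 := hcard G F h
      have h2 := (hw1 G F h).2.2.2.2
      omega
    have h2 : w G F - DT τ (σ τ) u G F = 0 := this
    exact (sub_eq_zero.1 h2).symm
  · obtain ⟨k, rfl⟩ : ∃ k, n = k + d := ⟨n - d, by omega⟩
    obtain ⟨b, hb, hb2⟩ := hin k (by omega) (fun G => ⟨w1 G, hmem' G⟩)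
      (by
        intro G hG
        have : w1 G ≠ 0 := fun h => hG (Subtype.ext h)
        obtain ⟨F, hF⟩ := Function.ne_iff.1 this
        obtain ⟨a1, a2, a3, a4, a5⟩ := hw1 G F hF
        have := hcard G F hF
        exact ⟨⟨a1, hcar G F hF⟩, a2, by omega⟩)
      (by
        intro ρ hρ _
        apply Subtype.ext
        funext F
        have e1 : ((bd (fun G => (⟨w1 G, hmem' G⟩ : TopC Δ M (σ τ) d)) ρ : TopC Δ M (σ τ) d) :
            Finset V → M) F = bd (fun G => w1 G F) ρ := by
          unfold bd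
          rw [AddSubgroup.val_finsetSum, Finset.sum_apply]
          rfl
        rw [e1]
        show bd (fun G => w1 G F) ρ = 0
        by_cases hF : σ τ ⊆ F
        · have h1 := hw1D ρ F
          rw [DT_pos τ _ _ ρ F hρ hF, hcyc ρ hρ F hF, smul_zero, add_zero] at h1
          exact h1
        · refine bd_eq_zero _ _ fun x _ => ?_
          by_contra h
          exact hF (hw1 _ _ h).2.2.1)
    let u1 : Finset U → Finset V → M := fun G F => (b G : Finset V → M) F
    have hu1 : SR Δ' Δ σ τ (k + d + 1) u1 := by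
      intro G F h
      have hbG : b G ≠ 0 := fun h0 => h (by show (b G : Finset V → M) F = 0; rw [h0]; rfl)
      obtain ⟨⟨a1, a2⟩, a3, a4⟩ := hb G hbG
      obtain ⟨b1, b2, b3⟩ := (b G).2.1 F h
      exact ⟨a1, a3, b2, by rw [Finset.union_eq_left.2 (a2.trans b2)]; exact b1, by omega⟩
    refine ⟨fun G F => u G F + u1 G F, SR_add Δ' Δ σ τ _ u u1 hu hu1, fun G F => ?_⟩
    have e1 : DT τ (σ τ) (fun G F => u G F + u1 G F) G F =
        DT τ (σ τ) u G F + DT τ (σ τ) u1 G F := by
      have := DT_sub τ (σ τ) (fun G F => u G F + u1 G F) u1 G F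
      have e0 : (fun G F => (fun G F => u G F + u1 G F) G F - u1 G F) = u := by
        funext G F
        show u G F + u1 G F - u1 G F = u G F
        abel
      rw [e0] at this
      rw [this]
      abel
    have e2 : DT τ (σ τ) u1 G F = w1 G F := by
      by_cases h : τ ⊆ G ∧ σ τ ⊆ F
      · rw [DT_pos τ _ _ G F h.1 h.2]
        have h1 : bd (u1 G) F = 0 := (b G).2.2 F h.2
        rw [h1, smul_zero, add_zero]
        by_cases hG : G ∈ Δ'.faces ∧ σ G ⊆ σ τ
        · have h2 := congrArg (fun t : TopC Δ M (σ τ) d => (t : Finset V → M) F) (hb2 G h.1 hG)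
          have e3 : ((bd b G : TopC Δ M (σ τ) d) : Finset V → M) F = bd (fun G' => u1 G' F) G := by
            unfold bd
            rw [AddSubgroup.val_finsetSum, Finset.sum_apply]
            rfl
          have h3 : ((bd b G : TopC Δ M (σ τ) d) : Finset V → M) F = w1 G F := h2
          rw [e3] at h3
          exact h3
        · have h2 : w1 G F = 0 := by
            by_contra h3
            exact hG ⟨(hw1 G F h3).1, hcar G F h3⟩
          rw [h2]
          refine bd_eq_zero _ _ fun x _ => ?_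
          have hb0 : b (insert x G) = 0 := by
            by_contra h3
            obtain ⟨⟨a1, a2⟩, _, _⟩ := hb _ h3
            exact hG ⟨Δ'.down _ a1 _ (Finset.subset_insert _ _),
              (hm _ a1 _ (Finset.subset_insert _ _)).trans a2⟩
          show (b (insert x G) : Finset V → M) F = 0
          rw [hb0]
          rfl
      · rw [DT_neg τ _ _ G F h]
        by_contra h2
        obtain ⟨a1, a2, a3, _⟩ := hw1 G F (Ne.symm h2)
        exact h ⟨a2, a3⟩
    rw [e1, e2]
    show DT τ (σ τ) u G F + (w G F - DT τ (σ τ) u G F) = w G F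
    abel

/-- Local exactness. -/
lemma local_exact (Δ' : Cx U) (Δ : Cx V) (σ : Finset U → Finset V)
    (hσ : ∀ G ∈ Δ'.faces, σ G ∈ Δ.faces)
    (hm : ∀ G ∈ Δ'.faces, ∀ H, H ⊆ G → σ H ⊆ σ G) (τ : Finset U) (d : ℕ)
    (hd : ∀ F ∈ Δ.faces, F.card ≤ d)
    (hcol : ∀ j, j < d → AcyP (fun F => F ∈ Δ.faces) M (σ τ) j)
    (hin : ∀ k, k < (σ τ).card →
      AcyP (fun G => G ∈ Δ'.faces ∧ σ G ⊆ σ τ) (TopC Δ M (σ τ) d) τ k)
    (hrow : ∀ F, σ τ ⊆ F → F ≠ σ τ → ∀ k,
      AcyP (fun G => G ∈ Δ'.faces ∧ F ∪ σ G ∈ Δ.faces) M τ k)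
    (k : ℕ) (hk : k < d) : AcyP (fun G => G ∈ Δ'.faces) M τ k := by
  classical
  intro c hc hc2
  let w0 : Finset U → Finset V → M := fun G F => if F = σ τ then c G else 0
  have hw0p : ∀ G, w0 G (σ τ) = c G := fun G => if_pos rfl
  have hw0n : ∀ G F, F ≠ σ τ → w0 G F = 0 := fun G F h => if_neg h
  have hw0 : SR Δ' Δ σ τ (k + (σ τ).card) w0 := by
    intro G F h
    by_cases hF : F = σ τ
    · subst hF
      rw [hw0p] at h
      obtain ⟨a1, a2, a3⟩ := hc G h
      refine ⟨a1, a2, Finset.Subset.refl _, ?_, by omega⟩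
      rw [Finset.union_eq_right.2 (hm G a1 τ a2)]
      exact hσ G a1
    · exact absurd (hw0n G F hF) h
  have hw0D : ∀ G F, DT τ (σ τ) w0 G F = 0 := by
    intro G F
    by_cases h : τ ⊆ G ∧ σ τ ⊆ F
    · rw [DT_pos τ _ _ G F h.1 h.2]
      have h1 : bd (w0 G) F = 0 := by
        refine bd_eq_zero _ _ fun x hx => hw0n _ _ ?_
        intro h2
        exact hx (h.2 (h2 ▸ Finset.mem_insert_self _ _))
      rw [h1, smul_zero, add_zero]
      by_cases hF : F = σ τ
      · subst hF
        have : (fun G' => w0 G' (σ τ)) = c := funext hw0p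
        rw [this]
        by_cases hG : G ∈ Δ'.faces
        · exact hc2 G h.1 hG
        · refine bd_eq_zero _ _ fun x _ => ?_
          by_contra h2
          exact hG (Δ'.down _ (hc _ h2).1 _ (Finset.subset_insert _ _))
      · exact bd_eq_zero _ _ fun x _ => hw0n _ _ hF
    · exact DT_neg τ _ _ G F h
  obtain ⟨u, hu, hu2⟩ := dbl_exact Δ' Δ σ hm τ d (k + (σ τ).card) hd hcol hin (by omega) w0 hw0 hw0D
  -- clean the rows
  have key : ∀ j : ℕ, ∃ u : Finset U → Finset V → M, SR Δ' Δ σ τ (k + (σ τ).card + 1) u ∧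
      (∀ G F, DT τ (σ τ) u G F = w0 G F) ∧ ∀ G F, u G F ≠ 0 → F.card ≤ (σ τ).card + (d - j) := by
    intro j
    induction j with
    | zero =>
      refine ⟨u, hu, hu2, fun G F h => ?_⟩
      have h2 := hd _ (hu G F h).2.2.2.1
      have h3 := Finset.card_le_card (Finset.subset_union_left : F ⊆ F ∪ σ G)
      omega
    | succ j ih =>
      obtain ⟨u, hu, hu2, hu3⟩ := ih
      rcases Nat.lt_or_ge j d with hj | hj
      · have row : ∀ F : Finset V, ∃ g : Finset U → M,
            (∀ G, g G ≠ 0 → G ∈ Δ'.faces ∧ τ ⊆ G ∧ σ τ ⊆ F ∧ F ∪ σ G ∈ Δ.faces ∧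
              G.card + F.card = k + (σ τ).card + 1 + 1 ∧ F.card = (σ τ).card + (d - j)) ∧
            (F.card = (σ τ).card + (d - j) → σ τ ⊆ F → ∀ ρ, τ ⊆ ρ → bd g ρ = u ρ F) := by
          intro F
          by_cases hF : (F.card = (σ τ).card + (d - j) ∧ σ τ ⊆ F)
          · have hne : F ≠ σ τ := by
              rintro rfl
              omega
            by_cases hz : ∀ G, u G F = 0
            · exact ⟨0, fun G h => absurd rfl h, fun _ _ ρ _ => by rw [bd_zero, hz]⟩
            push Not at hz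
            obtain ⟨G0, hG0⟩ := hz
            have hG0c := (hu G0 F hG0).2.2.2.2
            obtain ⟨g, hg, hg2⟩ := hrow F hF.2 hne G0.card (fun G => u G F)
              (by
                intro G hG
                obtain ⟨a1, a2, a3, a4, a5⟩ := hu G F hG
                exact ⟨⟨a1, a4⟩, a2, by omega⟩)
              (by
                intro ρ hρ _
                have h1 := hu2 ρ F
                rw [DT_pos τ _ _ ρ F hρ hF.2, hw0n ρ F hne] at h1
                have h2 : bd (u ρ) F = 0 := by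
                  refine bd_eq_zero _ _ fun x hx => ?_
                  by_contra h3
                  have := hu3 _ _ h3
                  rw [Finset.card_insert_of_notMem hx] at this
                  omega
                rw [h2, smul_zero, add_zero] at h1
                exact h1)
            refine ⟨g, fun G hG => ?_, fun _ _ ρ hρ => ?_⟩
            · obtain ⟨⟨a1, a2⟩, a3, a4⟩ := hg G hG
              exact ⟨a1, a3, hF.2, a2, by omega, hF.1⟩
            · by_cases h1 : ρ ∈ Δ'.faces ∧ F ∪ σ ρ ∈ Δ.faces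
              · exact hg2 ρ hρ h1
              · have h2 : u ρ F = 0 := by
                  by_contra h3
                  exact h1 ⟨(hu ρ F h3).1, (hu ρ F h3).2.2.2.1⟩
                rw [h2]
                refine bd_eq_zero _ _ fun x _ => ?_
                by_contra h3
                obtain ⟨⟨a1, a2⟩, _, _⟩ := hg _ h3
                exact h1 ⟨Δ'.down _ a1 _ (Finset.subset_insert _ _), Δ.down _ a2 _
                  (Finset.union_subset_union_right (hm _ a1 _ (Finset.subset_insert _ _)))⟩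
          · exact ⟨0, fun G h => absurd rfl h, fun h1 h2 => absurd ⟨h1, h2⟩ hF⟩
        choose g hg hg2 using row
        let u1 : Finset U → Finset V → M := fun G F => g F G
        have hu1 : SR Δ' Δ σ τ (k + (σ τ).card + 1 + 1) u1 := by
          intro G F h
          obtain ⟨a1, a2, a3, a4, a5, _⟩ := hg F G h
          exact ⟨a1, a2, a3, a4, a5⟩
        refine ⟨fun G F => u G F - DT τ (σ τ) u1 G F, SR_sub Δ' Δ σ τ _ _ _ hu
          (SR_DT Δ' Δ σ hm τ _ u1 hu1), ?_, ?_⟩
        · intro G F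
          rw [DT_sub, hu2, DT_DT, sub_zero]
        · intro G F hGF
          by_contra hF
          have hsu : SR Δ' Δ σ τ (k + (σ τ).card + 1) (fun G F => u G F - DT τ (σ τ) u1 G F) :=
            SR_sub Δ' Δ σ τ _ _ _ hu (SR_DT Δ' Δ σ hm τ _ u1 hu1)
          obtain ⟨a1, a2, a3, a4, a5⟩ := hsu G F hGF
          apply hGF
          show u G F - DT τ (σ τ) u1 G F = 0
          rw [DT_pos τ _ _ G F a2 a3]
          have h1 : bd (u1 G) F = 0 := by
            refine bd_eq_zero _ _ fun x hx => ?_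
            by_contra h3
            have h4 := (hg _ _ h3).2.2.2.2.2
            rw [Finset.card_insert_of_notMem hx] at h4
            omega
          rw [h1, smul_zero, add_zero]
          by_cases hFc : F.card = (σ τ).card + (d - j)
          · have : bd (fun G' => u1 G' F) G = u G F := hg2 F hFc a3 G a2
            rw [this, sub_self]
          · have h2 : u G F = 0 := by
              by_contra h3
              have := hu3 G F h3
              omega
            have h3 : bd (fun G' => u1 G' F) G = 0 := by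
              refine bd_eq_zero _ _ fun x _ => ?_
              by_contra h4
              exact hFc (hg _ _ h4).2.2.2.2.2
            rw [h2, h3, sub_zero]
      · refine ⟨u, hu, hu2, fun G F h => ?_⟩
        have := hu3 G F h
        omega
  obtain ⟨v, hv, hv2, hv3⟩ := key d
  have hvF : ∀ G F, v G F ≠ 0 → F = σ τ := by
    intro G F h
    have h1 := hv3 G F h
    exact (Finset.eq_of_subset_of_card_le (hv G F h).2.2.1 (by omega)).symm
  refine ⟨fun G => v G (σ τ), fun G hG => ?_, fun ρ hρ hρ2 => ?_⟩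
  · obtain ⟨a1, a2, a3, a4, a5⟩ := hv G _ hG
    exact ⟨a1, a2, by omega⟩
  · have h1 := hv2 ρ (σ τ)
    rw [DT_pos τ _ _ ρ (σ τ) hρ (Finset.Subset.refl _), hw0p] at h1
    have h2 : bd (v ρ) (σ τ) = 0 := by
      refine bd_eq_zero _ _ fun x hx => ?_
      by_contra h3
      have := hvF _ _ h3
      exact hx (this ▸ Finset.mem_insert_self _ _)
    rw [h2, smul_zero, add_zero] at h1
    exact h1

end chase

end Pool.Agent.Helper611.KTop
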