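import Pool.Agent.Helper611.KRel

set_option autoImplicit false
set_option linter.unusedSectionVars false
set_option linter.unnecessarySimpa false

namespace Pool.Agent.Helper611.KVal

open ExteriorAlgebra Pool.Agent.Helper611.ZBase Pool.Agent.Helper611.KRel

section
variable {V : Type} [Fintype V] [LinearOrder V] {K : Type} [Field K] {d : ℕ}

/-- general position -/
def Dual (P : Finset V → Prop) (p : V → (Fin d → K)) : Prop :=
  ∀ σ, P σ → σ.card ≤ d → ∀ v ∈ σ, ∃ φ : Module.Dual K (Fin d → K), φ (p v) = 1 ∧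
      ∀ x ∈ σ, x ≠ v → φ (p x) = 0

lemma frk : Module.finrank K (Fin d → K) = d := by
  rw [Module.finrank_fintype_fun_eq_card, Fintype.card_fin]

lemma acyV_ne (P : Finset V → Prop) (hP : Cvx P) (p : V → (Fin d → K))
    (hdual : Dual P p)
    (hcm : ∀ (τ : Finset V) (k s : ℕ), τ.Nonempty → k < d → AcyP P (⋀[K]^s (Fin d → K)) τ k) :
    ∀ m s : ℕ, s + m = d → ∀ (A τ : Finset V) (k : ℕ), τ.Nonempty → k < s →
      AcyV P p s A τ k := by
  intro m
  induction m with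
  | zero =>
    intro s hs A τ k hτ hk1
    refine top_case P p s A τ k (fun a ha => ext_top (s + 1) (by rw [frk]; omega) a ha) ?_
    exact const_case P p s τ k (hcm τ k s hτ (by omega))
  | succ m ihm =>
    intro s hs A
    induction A using Finset.induction_on with
    | empty =>
      intro τ k hτ hk1
      exact const_case P p s τ k (hcm τ k s hτ (by omega))
    | insert v A hvA ihA =>
      intro τ k hτ hk1
      exact step_case P hP p s d (by omega) hdual A v hvA τ k hk1 (ihA τ k hτ hk1)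
        (ihm (s + 1) (by omega) (insert v A) (insert v τ) (k + 1)
          (Finset.insert_nonempty _ _) (by omega))

open Classical in
/-- restriction of a chain -/
noncomputable def rs {M : Type*} [Zero M] (P : Finset V → Prop) (τ : Finset V)
    (c : Finset V → M) (σ : Finset V) : M := if τ ⊆ σ ∧ P σ then c σ else 0

lemma rs_pos {M : Type*} [Zero M] (P : Finset V → Prop) (τ : Finset V) (c : Finset V → M)
    (σ : Finset V) (h1 : τ ⊆ σ) (h2 : P σ) : rs P τ c σ = c σ := if_pos ⟨h1, h2⟩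

lemma rs_ne {M : Type*} [Zero M] (P : Finset V → Prop) (τ : Finset V) (c : Finset V → M)
    (σ : Finset V) (h : rs P τ c σ ≠ 0) : τ ⊆ σ ∧ P σ ∧ c σ ≠ 0 := by
  unfold rs at h
  by_cases h1 : τ ⊆ σ ∧ P σ
  · rw [if_pos h1] at h
    exact ⟨h1.1, h1.2, h⟩
  · rw [if_neg h1] at h
    exact absurd rfl h

lemma bd_ne {M : Type*} [AddCommGroup M] (u : Finset V → M) (σ : Finset V) (h : bd u σ ≠ 0) :
    ∃ x, x ∉ σ ∧ u (insert x σ) ≠ 0 := by
  unfold bd at h
  obtain ⟨x, hx, hx2⟩ := Finset.exists_ne_zero_of_sum_ne_zero h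
  exact ⟨x, Finset.mem_compl.1 hx, fun h0 => hx2 (by rw [h0, smul_zero])⟩

lemma bd_rs {M : Type*} [AddCommGroup M] (P : Finset V → Prop) (hP : Cvx P) (τ : Finset V)
    (w u : Finset V → M) (hw : ∀ σ, w σ ≠ 0 → P σ) (hu : ∀ σ, u σ ≠ 0 → P σ)
    (ρ : Finset V) (hρ : τ ⊆ ρ) (hPρ : P ρ) : bd (rs P τ (w - bd u)) ρ = bd w ρ := by
  have e1 : bd (rs P τ (w - bd u)) ρ = bd (w - bd u) ρ := by
    refine bd_ext _ _ _ fun x _ => ?_
    by_cases h : P (insert x ρ)
    · exact rs_pos P τ _ _ (hρ.trans (Finset.subset_insert _ _)) h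
    · have h3 : (w - bd u) (insert x ρ) = 0 := by
        rw [Pi.sub_apply]
        have h4 : w (insert x ρ) = 0 := by
          by_contra h5
          exact h (hw _ h5)
        have h5 : bd u (insert x ρ) = 0 := by
          by_contra h6
          obtain ⟨y, _, hy⟩ := bd_ne u _ h6
          exact h (hP ρ _ _ (Finset.subset_insert _ _) (Finset.subset_insert _ _) hPρ (hu _ hy))
        rw [h4, h5, sub_zero]
      rw [h3]
      exact if_neg fun h2 => h h2.2
  rw [e1, bd_sub, bd_bd, sub_zero]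

lemma bd_mul (u : Finset V → ExteriorAlgebra K (Fin d → K)) (q : Fin d → K) (σ : Finset V) :
    bd u σ * ι K q = bd (fun ρ => u ρ * ι K q) σ :=
  (bd_map (AddMonoidHom.mulRight (ι K q)) u σ).symm

lemma bd_kill (u : Finset V → ExteriorAlgebra K (Fin d → K)) (q : Fin d → K) (σ : Finset V)
    (h : ∀ x, x ∉ σ → u (insert x σ) * ι K q = 0) : bd u σ * ι K q = 0 := by
  rw [bd_mul]
  exact bd_eq_zero _ _ h

lemma bd_deg (s : ℕ) (u : Finset V → ExteriorAlgebra K (Fin d → K)) (σ : Finset V)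
    (h : ∀ σ, u σ ∈ ⋀[K]^s (Fin d → K)) : bd u σ ∈ ⋀[K]^s (Fin d → K) := by
  unfold bd
  exact Submodule.sum_mem _ fun x _ => zsmul_mem (h _) _

/-- division of a chain by a vertex -/
lemma lift_chain (P : Finset V → Prop) (p : V → (Fin d → K)) (s : ℕ)
    (hdual : Dual P p) (A τ : Finset V) (v : V) (hvA : v ∉ A) (k : ℕ) (hk : k ≤ d)
    (u' : Finset V → ExteriorAlgebra K (Fin d → K))
    (hu : ∀ σ, u' σ ≠ 0 → P σ ∧ insert v τ ⊆ σ ∧ σ.card = k)
    (hu1 : ∀ σ, u' σ ∈ ⋀[K]^(s + 1) (Fin d → K)) (hu3 : ∀ σ, v ∈ σ → u' σ * ι K (p v) = 0)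
    (hu2 : ∀ σ, ∀ x ∈ σ, x ∈ A → u' σ * ι K (p x) = 0) :
    ∃ u : Finset V → ExteriorAlgebra K (Fin d → K),
      (∀ σ, u σ ≠ 0 → P σ ∧ insert v τ ⊆ σ ∧ σ.card = k) ∧ (∀ σ, Val p s A σ (u σ)) ∧
      (∀ σ, u σ * ι K (p v) = u' σ) := by
  have lift : ∀ σ, ∃ η : ExteriorAlgebra K (Fin d → K), (u' σ ≠ 0 → η * ι K (p v) = u' σ) ∧
      (u' σ = 0 → η = 0) ∧ Val p s A σ η := by
    intro σ
    by_cases h0 : u' σ = 0
    · exact ⟨0, fun h => absurd h0 h, fun _ => rfl, Submodule.zero_mem _, fun x _ _ => zero_mul _⟩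
    · have h1 := hu σ h0
      have hvσ : v ∈ σ := h1.2.1 (Finset.mem_insert_self _ _)
      obtain ⟨φ, hφ1, hφ2⟩ := hdual σ h1.1 (by omega) v hvσ
      obtain ⟨g1, g2, g3⟩ := div_one s (u' σ) (hu1 σ) (p v) φ hφ1 (hu3 σ hvσ)
      refine ⟨ctr φ (u' σ), fun _ => g2, fun h => absurd h h0, g1, ?_⟩
      intro x hx hxA
      refine g3 (p x) (hφ2 x hx ?_) (hu2 σ x hx hxA)
      rintro rfl
      exact hvA hxA
  choose u hul hu0 huv using lift
  refine ⟨u, fun σ hσ => hu σ fun h => hσ (hu0 σ h), huv, fun σ => ?_⟩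
  by_cases h0 : u' σ = 0
  · rw [hu0 σ h0, zero_mul, h0]
  · exact hul σ h0

lemma kill_step (P : Finset V → Prop) (p : V → (Fin d → K)) (s : ℕ) (hs : s ≤ d)
    (hdual : Dual P p) (A : Finset V) (v : V) (hvA : v ∉ A) (τ : Finset V) (k : ℕ) (hk : k ≤ s)
    (w : Finset V → ExteriorAlgebra K (Fin d → K))
    (hw : ∀ σ, w σ ≠ 0 → P σ ∧ τ ⊆ σ ∧ σ.card = k) (hw1 : ∀ σ, Val p s A σ (w σ))
    (hw2 : ∀ ρ, τ ⊆ ρ → P ρ → v ∈ ρ → bd w ρ * ι K (p v) = 0)
    (ih : s + 1 ≤ d → AcyV P p (s + 1) (insert v A) (insert v τ) k) :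
    ∃ u : Finset V → ExteriorAlgebra K (Fin d → K),
      (∀ σ, u σ ≠ 0 → P σ ∧ τ ⊆ σ ∧ σ.card = k + 1) ∧ (∀ σ, Val p s A σ (u σ)) ∧
      ∀ σ, τ ⊆ σ → P σ → Val p s (insert v A) σ (w σ - bd u σ) := by
  classical
  rcases Nat.lt_or_ge s d with hsd | hsd
  · obtain ⟨u', hu, hu1, hu2⟩ := ih hsd (fun σ => if v ∈ σ then w σ * ι K (p v) else 0)
      (by
        intro σ hσ
        by_cases h : v ∈ σ
        · simp only [if_pos h] at hσ
          have h2 := hw σ fun h0 => hσ (by rw [h0, zero_mul])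
          exact ⟨h2.1, Finset.insert_subset h h2.2.1, h2.2.2⟩
        · simp only [if_neg h] at hσ
          exact absurd rfl hσ)
      (by
        intro σ
        by_cases h : v ∈ σ
        · simp only [if_pos h]
          refine ⟨mul_ι_mem s _ (hw1 σ).1 _, ?_⟩
          intro x hx hxA
          rcases Finset.mem_insert.1 hxA with rfl | hxA
          · rw [mul_assoc, ι_sq_zero, mul_zero]
          · rw [ι_anti, (hw1 σ).2 x hx hxA, zero_mul, neg_zero]
        · simp only [if_neg h]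
          exact ⟨Submodule.zero_mem _, fun x _ _ => zero_mul _⟩)
      (by
        intro ρ hρ hPρ
        have hvρ : v ∈ ρ := hρ (Finset.mem_insert_self _ _)
        have hτρ : τ ⊆ ρ := (Finset.subset_insert _ _).trans hρ
        have e1 : bd (fun σ => if v ∈ σ then w σ * ι K (p v) else 0) ρ =
            bd (fun σ => w σ * ι K (p v)) ρ :=
          bd_congr _ _ _ fun σ hσ => by simp only [if_pos (hσ hvρ)]
        rw [e1, ← bd_mul]
        exact hw2 ρ hτρ hPρ hvρ)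
    obtain ⟨u, hus, huv, hul⟩ := lift_chain P p s hdual A τ v hvA (k + 1) (by omega) u' hu
      (fun σ => (hu1 σ).1) (fun σ hσ => (hu1 σ).2 v hσ (Finset.mem_insert_self _ _))
      (fun σ x hx hxA => (hu1 σ).2 x hx (Finset.mem_insert_of_mem hxA))
    refine ⟨u, fun σ hσ => ?_, huv, ?_⟩
    · have h := hus σ hσ
      exact ⟨h.1, (Finset.subset_insert _ _).trans h.2.1, h.2.2⟩
    · intro σ hτ hPσ
      refine ⟨Submodule.sub_mem _ (hw1 σ).1 (bd_deg s u σ fun σ => (huv σ).1), ?_⟩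
      intro x hx hxA
      rw [sub_mul]
      rcases Finset.mem_insert.1 hxA with rfl | hxA
      · rw [bd_mul, show (fun ρ => u ρ * ι K (p x)) = u' from funext hul,
          hu2 σ (Finset.insert_subset hx hτ) hPσ, if_pos hx, sub_self]
      · rw [bd_kill u (p x) σ fun y _ => (huv _).2 x (Finset.mem_insert_of_mem hx) hxA,
          (hw1 σ).2 x hx hxA, sub_zero]
  · refine ⟨0, fun σ h => absurd rfl h, fun σ => ⟨Submodule.zero_mem _, fun x _ _ => zero_mul _⟩,
      fun σ _ _ => ?_⟩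
    rw [bd_zero, sub_zero]
    exact ⟨(hw1 σ).1, fun x _ _ => ext_top (s + 1) (by rw [frk]; omega) _
      (mul_ι_mem s _ (hw1 σ).1 _)⟩

lemma kill_all (P : Finset V → Prop) (hP : Cvx P) (p : V → (Fin d → K)) (s : ℕ) (hs : s ≤ d)
    (hdual : Dual P p)
    (hacy : ∀ (s' : ℕ) (A τ : Finset V) (k : ℕ), s' ≤ d → τ.Nonempty → k < s' →
      AcyV P p s' A τ k)
    (A0 τ : Finset V) (k : ℕ) (hk : k ≤ s)
    (w : Finset V → ExteriorAlgebra K (Fin d → K))
    (hw : ∀ σ, w σ ≠ 0 → P σ ∧ τ ⊆ σ ∧ σ.card = k) (hw1 : ∀ σ, Val p s A0 σ (w σ))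
    (hw2 : ∀ ρ, τ ⊆ ρ → P ρ → ∀ x ∈ ρ, bd w ρ * ι K (p x) = 0) (B : Finset V) :
    ∃ u : Finset V → ExteriorAlgebra K (Fin d → K),
      (∀ σ, u σ ≠ 0 → P σ ∧ τ ⊆ σ ∧ σ.card = k + 1) ∧ (∀ σ, Val p s A0 σ (u σ)) ∧
      ∀ σ, τ ⊆ σ → P σ → Val p s (A0 ∪ B) σ (w σ - bd u σ) := by
  classical
  induction B using Finset.induction_on with
  | empty =>
    refine ⟨0, fun σ h => absurd rfl h, fun σ => ⟨Submodule.zero_mem _, fun x _ _ => zero_mul _⟩,
      fun σ _ _ => ?_⟩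
    rw [bd_zero, sub_zero, Finset.union_empty]
    exact hw1 σ
  | insert v B _ ih =>
    obtain ⟨u, hu, hu1, hu2⟩ := ih
    by_cases hv : v ∈ A0 ∪ B
    · refine ⟨u, hu, hu1, fun σ h1 h2 => ?_⟩
      rw [Finset.union_insert, Finset.insert_eq_self.2 hv]
      exact hu2 σ h1 h2
    · have hbne : ∀ σ, bd u σ ≠ 0 → ∃ x, x ∉ σ ∧ u (insert x σ) ≠ 0 := fun σ => bd_ne u σ
      obtain ⟨u2, hv1, hv2, hv3⟩ := kill_step P p s hs hdual (A0 ∪ B) v hv τ k hk
        (rs P τ (w - bd u))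
        (by
          intro σ hσ
          obtain ⟨h1, h2, h3⟩ := rs_ne P τ _ σ hσ
          refine ⟨h2, h1, ?_⟩
          by_cases hwσ : w σ = 0
          · rw [Pi.sub_apply, hwσ, zero_sub] at h3
            obtain ⟨x, hx, hx2⟩ := hbne σ fun h0 => h3 (by rw [h0, neg_zero])
            have h4 := (hu _ hx2).2.2
            rw [Finset.card_insert_of_notMem hx] at h4
            omega
          · exact (hw σ hwσ).2.2)
        (by
          intro σ
          by_cases h : τ ⊆ σ ∧ P σ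
          · rw [rs_pos P τ _ σ h.1 h.2]
            exact hu2 σ h.1 h.2
          · have : rs P τ (w - bd u) σ = 0 := if_neg h
            rw [this]
            exact ⟨Submodule.zero_mem _, fun x _ _ => zero_mul _⟩)
        (by
          intro ρ hρ hPρ hvρ
          rw [bd_rs P hP τ w u (fun σ h => (hw σ h).1) (fun σ h => (hu σ h).1) ρ hρ hPρ]
          exact hw2 ρ hρ hPρ v hvρ)
        (fun h => hacy (s + 1) _ _ k h (Finset.insert_nonempty _ _) (by omega))
      refine ⟨u + u2, ?_, ?_, ?_⟩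
      · intro σ hσ
        by_cases h0 : u σ = 0
        · exact hv1 σ fun h => hσ (by rw [Pi.add_apply, h0, h, add_zero])
        · exact hu σ h0
      · intro σ
        refine ⟨Submodule.add_mem _ (hu1 σ).1 (hv2 σ).1, fun x hx hxA => ?_⟩
        rw [Pi.add_apply, add_mul, (hu1 σ).2 x hx hxA,
          (hv2 σ).2 x hx (Finset.mem_union_left _ hxA), add_zero]
      · intro σ h1 h2
        have h3 := hv3 σ h1 h2
        rw [rs_pos P τ _ σ h1 h2, Pi.sub_apply] at h3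
        rw [bd_add, ← sub_sub, Finset.union_insert]
        exact h3

/-- the one-vertex pieces of a null-homologous stress -/
structure Piece (P : Finset V → Prop) (p : V → (Fin d → K)) (i : ℕ) (τ : Finset V) (v : V)
    (α : Finset V → ExteriorAlgebra K (Fin d → K)) : Prop where
  supp : ∀ σ, α σ ≠ 0 → P σ ∧ insert v τ ⊆ σ ∧ σ.card = i + 1
  deg : ∀ σ, α σ ∈ ⋀[K]^i (Fin d → K)
  kil : ∀ σ, ∀ x ∈ σ, x ≠ v → α σ * ι K (p x) = 0
  cyc : ∀ ρ, insert v τ ⊆ ρ → P ρ → bd α ρ * ι K (p v) = 0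

lemma piece_zero (P : Finset V → Prop) (p : V → (Fin d → K)) (i : ℕ) (τ : Finset V) (v : V) :
    Piece P p i τ v 0 :=
  ⟨fun σ h => absurd rfl h, fun σ => Submodule.zero_mem _, fun σ x _ _ => zero_mul _,
    fun ρ _ _ => by rw [bd_zero, zero_mul]⟩

lemma piece_bd (P : Finset V → Prop) (p : V → (Fin d → K)) (i : ℕ) (τ : Finset V) (v : V)
    (α : Finset V → ExteriorAlgebra K (Fin d → K)) (h : Piece P p i τ v α) (ρ : Finset V)
    (hρ : τ ⊆ ρ) (hPρ : P ρ) (x : V) (hx : x ∈ ρ) : bd α ρ * ι K (p x) = 0 := by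
  by_cases hxv : x = v
  · subst hxv
    exact h.cyc ρ (Finset.insert_subset hx hρ) hPρ
  · exact bd_kill α (p x) ρ fun y _ => h.kil _ x (Finset.mem_insert_of_mem hx) hxv

lemma decomp_step (P : Finset V → Prop) (hP : Cvx P) (p : V → (Fin d → K)) (i : ℕ) (hi : i < d)
    (hsmall : ∀ σ, P σ → σ.card ≤ d)
    (hdual : Dual P p)
    (hacy : ∀ (s' : ℕ) (A τ : Finset V) (k : ℕ), s' ≤ d → τ.Nonempty → k < s' →
      AcyV P p s' A τ k)
    (A : Finset V) (v : V) (hvA : v ∉ A) (τ : Finset V)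
    (e : Finset V → ExteriorAlgebra K (Fin d → K))
    (he : ∀ σ, e σ ≠ 0 → P σ ∧ τ ⊆ σ ∧ σ.card = i + 1) (he1 : ∀ σ, Val p i A σ (e σ))
    (he2 : ∀ ρ, τ ⊆ ρ → P ρ → ∀ x ∈ ρ, bd e ρ * ι K (p x) = 0) :
    ∃ α e' : Finset V → ExteriorAlgebra K (Fin d → K), Piece P p i τ v α ∧
      (∀ σ, e' σ ≠ 0 → P σ ∧ τ ⊆ σ ∧ σ.card = i + 1) ∧ (∀ σ, Val p i (insert v A) σ (e' σ)) ∧
      ∀ ρ, τ ⊆ ρ → P ρ → bd e ρ = bd e' ρ + bd α ρ := by
  classical
  let a : Finset V → ExteriorAlgebra K (Fin d → K) :=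
    fun σ => if v ∈ σ then e σ * ι K (p v) else 0
  have ha : ∀ σ, v ∈ σ → a σ = e σ * ι K (p v) := fun σ h => if_pos h
  have ha0 : ∀ σ, v ∉ σ → a σ = 0 := fun σ h => if_neg h
  have has : ∀ σ, a σ ≠ 0 → P σ ∧ insert v τ ⊆ σ ∧ σ.card = i + 1 := by
    intro σ hσ
    by_cases h : v ∈ σ
    · rw [ha σ h] at hσ
      have h2 := he σ fun h0 => hσ (by rw [h0, zero_mul])
      exact ⟨h2.1, Finset.insert_subset h h2.2.1, h2.2.2⟩
    · exact absurd (ha0 σ h) hσ
  have hav : ∀ σ, Val p (i + 1) (insert v A) σ (a σ) := by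
    intro σ
    by_cases h : v ∈ σ
    · rw [ha σ h]
      refine ⟨mul_ι_mem i _ (he1 σ).1 _, ?_⟩
      intro x hx hxA
      rcases Finset.mem_insert.1 hxA with rfl | hxA
      · rw [mul_assoc, ι_sq_zero, mul_zero]
      · rw [ι_anti, (he1 σ).2 x hx hxA, zero_mul, neg_zero]
    · rw [ha0 σ h]
      exact ⟨Submodule.zero_mem _, fun x _ _ => zero_mul _⟩
  have habd : ∀ ρ, insert v τ ⊆ ρ → P ρ → bd a ρ = 0 := by
    intro ρ hρ hPρ
    have hvρ : v ∈ ρ := hρ (Finset.mem_insert_self _ _)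
    have hτρ : τ ⊆ ρ := (Finset.subset_insert _ _).trans hρ
    have e1 : bd a ρ = bd (fun σ => e σ * ι K (p v)) ρ :=
      bd_congr _ _ _ fun σ hσ => ha σ (hσ hvρ)
    rw [e1, ← bd_mul]
    exact he2 ρ hτρ hPρ v hvρ
  obtain ⟨b, hb, hb1, hb2⟩ := kill_all P hP p (i + 1) (by omega) hdual hacy (insert v A)
    (insert v τ) (i + 1) le_rfl a has hav
    (fun ρ h1 h2 x _ => by rw [habd ρ h1 h2, zero_mul]) Finset.univ
  -- divide `b`
  obtain ⟨β, hβ, hβ1, hβ2⟩ : ∃ β : Finset V → ExteriorAlgebra K (Fin d → K),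
      (∀ σ, β σ ≠ 0 → P σ ∧ insert v τ ⊆ σ ∧ σ.card = i + 1 + 1) ∧
      (∀ σ, Val p i A σ (β σ)) ∧ (∀ σ, β σ * ι K (p v) = b σ) := by
    rcases Nat.lt_or_ge (i + 1) d with hd | hd
    · exact lift_chain P p i hdual A τ v hvA (i + 1 + 1) (by omega) b hb (fun σ => (hb1 σ).1)
        (fun σ hσ => (hb1 σ).2 v hσ (Finset.mem_insert_self _ _))
        (fun σ x hx hxA => (hb1 σ).2 x hx (Finset.mem_insert_of_mem hxA))
    · have hb0 : ∀ σ, b σ = 0 := by
        intro σ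
        by_contra h
        have h1 := hb σ h
        have h2 := hsmall σ h1.1
        omega
      exact ⟨0, fun σ h => absurd rfl h, fun σ => ⟨Submodule.zero_mem _, fun x _ _ => zero_mul _⟩,
        fun σ => by rw [hb0 σ]; exact zero_mul _⟩
  -- the fully killed part
  let a0 : Finset V → ExteriorAlgebra K (Fin d → K) := rs P (insert v τ) (a - bd b)
  have ha0s : ∀ σ, a0 σ ≠ 0 → P σ ∧ insert v τ ⊆ σ ∧ σ.card = i + 1 := by
    intro σ hσ
    obtain ⟨h1, h2, h3⟩ := rs_ne P _ _ σ hσ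
    refine ⟨h2, h1, ?_⟩
    by_cases haσ : a σ = 0
    · rw [Pi.sub_apply, haσ, zero_sub] at h3
      obtain ⟨x, hx, hx2⟩ := bd_ne b σ fun h0 => h3 (by rw [h0, neg_zero])
      have h4 := (hb _ hx2).2.2
      rw [Finset.card_insert_of_notMem hx] at h4
      omega
    · exact (has σ haσ).2.2
  have ha0v : ∀ σ, Val p (i + 1) Finset.univ σ (a0 σ) := by
    intro σ
    by_cases h : insert v τ ⊆ σ ∧ P σ
    · have h1 := hb2 σ h.1 h.2
      rw [Finset.union_eq_right.2 (Finset.subset_univ _)] at h1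
      show Val p (i + 1) Finset.univ σ (rs P (insert v τ) (a - bd b) σ)
      rw [rs_pos P _ _ σ h.1 h.2]
      exact h1
    · have : a0 σ = 0 := if_neg h
      rw [this]
      exact ⟨Submodule.zero_mem _, fun x _ _ => zero_mul _⟩
  obtain ⟨α, hα, hα1, hα2⟩ := lift_chain P p i hdual (Finset.univ.erase v) τ v
    (Finset.notMem_erase _ _) (i + 1) (by omega) a0 ha0s (fun σ => (ha0v σ).1)
    (fun σ hσ => (ha0v σ).2 v hσ (Finset.mem_univ _))
    (fun σ x hx _ => (ha0v σ).2 x hx (Finset.mem_univ _))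
  have hαbd : ∀ ρ, insert v τ ⊆ ρ → P ρ → bd α ρ * ι K (p v) = 0 := by
    intro ρ hρ hPρ
    rw [bd_mul, show (fun ρ => α ρ * ι K (p v)) = a0 from funext hα2]
    show bd (rs P (insert v τ) (a - bd b)) ρ = 0
    rw [bd_rs P hP _ a b (fun σ h => (has σ h).1) (fun σ h => (hb σ h).1) ρ hρ hPρ]
    exact habd ρ hρ hPρ
  have hpiece : Piece P p i τ v α :=
    ⟨hα, fun σ => (hα1 σ).1, fun σ x hx hxv => (hα1 σ).2 x hx
      (Finset.mem_erase.2 ⟨hxv, Finset.mem_univ _⟩), hαbd⟩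
  refine ⟨α, rs P τ ((e - α) - bd β), hpiece, ?_, ?_, ?_⟩
  · intro σ hσ
    obtain ⟨h1, h2, h3⟩ := rs_ne P _ _ σ hσ
    refine ⟨h2, h1, ?_⟩
    by_cases heσ : e σ = 0
    · by_cases hασ : α σ = 0
      · rw [Pi.sub_apply, Pi.sub_apply, heσ, hασ, sub_zero, zero_sub] at h3
        obtain ⟨x, hx, hx2⟩ := bd_ne β σ fun h0 => h3 (by rw [h0, neg_zero])
        have h4 := (hβ _ hx2).2.2
        rw [Finset.card_insert_of_notMem hx] at h4
        omega
      · exact (hα σ hασ).2.2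
    · exact (he σ heσ).2.2
  · intro σ
    by_cases h : τ ⊆ σ ∧ P σ
    · rw [rs_pos P τ _ σ h.1 h.2, Pi.sub_apply, Pi.sub_apply]
      refine ⟨Submodule.sub_mem _ (Submodule.sub_mem _ (he1 σ).1 (hα1 σ).1)
        (bd_deg i β σ fun σ => (hβ1 σ).1), ?_⟩
      intro x hx hxA
      rw [sub_mul, sub_mul]
      rcases Finset.mem_insert.1 hxA with rfl | hxA
      · have h1 : insert x τ ⊆ σ := Finset.insert_subset hx h.1
        rw [hα2 σ, bd_mul, show (fun ρ => β ρ * ι K (p x)) = b from funext hβ2]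
        show e σ * ι K (p x) - rs P (insert x τ) (a - bd b) σ - bd b σ = 0
        rw [rs_pos P _ _ σ h1 h.2, Pi.sub_apply, ha σ hx]
        abel
      · have hxv : x ≠ v := by
          intro h0
          rw [h0] at hxA
          exact hvA hxA
        rw [(he1 σ).2 x hx hxA, hpiece.kil σ x hx hxv,
          bd_kill β (p x) σ fun y _ => (hβ1 _).2 x (Finset.mem_insert_of_mem hx) hxA,
          sub_zero, sub_zero]
    · have : rs P τ ((e - α) - bd β) σ = 0 := if_neg h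
      rw [this]
      exact ⟨Submodule.zero_mem _, fun x _ _ => zero_mul _⟩
  · intro ρ hρ hPρ
    rw [bd_rs P hP τ (e - α) β (fun σ h => by
      by_cases h1 : e σ = 0
      · exact (hα σ fun h2 => h (by rw [Pi.sub_apply, h1, h2, sub_zero])).1
      · exact (he σ h1).1) (fun σ h => (hβ σ h).1) ρ hρ hPρ, bd_sub]
    abel

lemma MA_big (p : V → (Fin d → K)) (P : Finset V → Prop) (hdual : Dual P p) (i : ℕ)
    (σ : Finset V) (hσ : P σ) (hc : σ.card ≤ d) (hi : i < σ.card)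
    (ω : ExteriorAlgebra K (Fin d → K)) (h : Val p i Finset.univ σ ω) : ω = 0 := by
  have := ext_fin (K := K) (d := d)
  have h1 := MA_finrank p d frk σ hc (hdual σ hσ hc) i
  rw [if_neg (by omega)] at h1
  have h2 : MA p i σ = ⊥ := Submodule.finrank_eq_zero.1 h1
  have h3 : ω ∈ MA p i σ := ⟨h.1, fun x hx => h.2 x hx (Finset.mem_univ _)⟩
  rw [h2] at h3
  exact (Submodule.mem_bot K).1 h3

lemma decomp (P : Finset V → Prop) (hP : Cvx P) (p : V → (Fin d → K)) (i : ℕ) (hi : i < d)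
    (hsmall : ∀ σ, P σ → σ.card ≤ d)
    (hdual : Dual P p)
    (hacy : ∀ (s' : ℕ) (A τ : Finset V) (k : ℕ), s' ≤ d → τ.Nonempty → k < s' →
      AcyV P p s' A τ k)
    (τ : Finset V)
    (e : Finset V → ExteriorAlgebra K (Fin d → K))
    (he : ∀ σ, e σ ≠ 0 → P σ ∧ τ ⊆ σ ∧ σ.card = i + 1)
    (he1 : ∀ σ, e σ ∈ ⋀[K]^i (Fin d → K))
    (he2 : ∀ ρ, τ ⊆ ρ → P ρ → ∀ x ∈ ρ, bd e ρ * ι K (p x) = 0) :
    ∃ α : V → Finset V → ExteriorAlgebra K (Fin d → K), (∀ v, Piece P p i τ v (α v)) ∧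
      ∀ ρ, τ ⊆ ρ → P ρ → bd e ρ = ∑ v, bd (α v) ρ := by
  classical
  have key : ∀ A : Finset V, ∃ (α : V → Finset V → ExteriorAlgebra K (Fin d → K))
      (e' : Finset V → ExteriorAlgebra K (Fin d → K)), (∀ v, Piece P p i τ v (α v)) ∧
      (∀ σ, e' σ ≠ 0 → P σ ∧ τ ⊆ σ ∧ σ.card = i + 1) ∧ (∀ σ, Val p i A σ (e' σ)) ∧
      ∀ ρ, τ ⊆ ρ → P ρ → bd e ρ = bd e' ρ + ∑ v ∈ A, bd (α v) ρ := by
    intro A
    induction A using Finset.induction_on with
    | empty =>
      exact ⟨fun _ => 0, e, fun v => piece_zero P p i τ v, he,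
        fun σ => ⟨he1 σ, fun x _ hx => absurd hx (Finset.notMem_empty x)⟩,
        fun ρ _ _ => by rw [Finset.sum_empty, add_zero]⟩
    | insert v A hvA ih =>
      obtain ⟨α, e', h1, h2, h3, h4⟩ := ih
      obtain ⟨α', e'', g1, g2, g3, g4⟩ := decomp_step P hP p i hi hsmall hdual hacy A v hvA τ e'
        h2 h3 (by
          intro ρ hρ hPρ x hx
          have h5 : bd e' ρ = bd e ρ - ∑ v ∈ A, bd (α v) ρ := by
            rw [h4 ρ hρ hPρ]; abel
          rw [h5, sub_mul, he2 ρ hρ hPρ x hx, Finset.sum_mul, zero_sub, neg_eq_zero]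
          exact Finset.sum_eq_zero fun v _ => piece_bd P p i τ v (α v) (h1 v) ρ hρ hPρ x hx)
      refine ⟨Function.update α v α', e'', ?_, g2, g3, ?_⟩
      · intro w
        by_cases hw : w = v
        · subst hw
          rw [Function.update_self]
          exact g1
        · rw [Function.update_of_ne hw]
          exact h1 w
      · intro ρ hρ hPρ
        rw [h4 ρ hρ hPρ, g4 ρ hρ hPρ, Finset.sum_insert hvA, Function.update_self]
        have : ∑ w ∈ A, bd (Function.update α v α' w) ρ = ∑ w ∈ A, bd (α w) ρ := by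
          refine Finset.sum_congr rfl fun w hw => ?_
          rw [Function.update_of_ne]
          rintro rfl
          exact hvA hw
        rw [this]
        abel
  obtain ⟨α, e', h1, h2, h3, h4⟩ := key Finset.univ
  refine ⟨α, h1, fun ρ hρ hPρ => ?_⟩
  have h5 : ∀ σ, e' σ = 0 := by
    intro σ
    by_contra hne
    obtain ⟨a1, a2, a3⟩ := h2 σ hne
    exact hne (MA_big p P hdual i σ a1 (hsmall σ a1) (by omega) (e' σ) (h3 σ))
  rw [h4 ρ hρ hPρ, bd_eq_zero e' ρ fun x _ => h5 _, zero_add]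

end

end Pool.Agent.Helper611.KVal
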