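import Mathlib

set_option autoImplicit false

namespace Pool.Agent.Helper611.PcFun

open Module
open scoped commutatorElement

section Basic

variable (K : Type*) [Field K] {X : Type*} [Group X]

/-- The difference operator `f ↦ (x ↦ f (x u) - f x)`. -/
def D (u : X) : (X → K) →ₗ[K] (X → K) :=
  LinearMap.funLeft K K (fun x => x * u) - LinearMap.id

variable {K}

theorem D_apply (u : X) (f : X → K) (x : X) : D K u f x = f (x * u) - f x := rfl

variable (K)

/-- Functions killed by `d` successive differences along `U`. -/
def P (U : Subgroup X) : ℕ → Submodule K (X → K)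
  | 0 => ⊥
  | d + 1 => ⨅ u : U, (P U d).comap (D K (u : X))

variable {K}

theorem mem_P_zero {U : Subgroup X} {f : X → K} : f ∈ P K U 0 ↔ f = 0 := by
  simp [P]

theorem mem_P_succ {U : Subgroup X} {d : ℕ} {f : X → K} :
    f ∈ P K U (d + 1) ↔ ∀ u ∈ U, D K u f ∈ P K U d := by
  simp [P, Submodule.mem_iInf]

theorem P_mono_succ (U : Subgroup X) (d : ℕ) : P K U d ≤ P K U (d + 1) := by
  induction d with
  | zero => intro f hf; rw [mem_P_zero] at hf; subst hf; exact Submodule.zero_mem _
  | succ d ih =>
    intro f hf
    rw [mem_P_succ] at hf ⊢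
    exact fun u hu => ih (hf u hu)

theorem P_mono (U : Subgroup X) {d e : ℕ} (h : d ≤ e) : P K U d ≤ P K U e := by
  induction h with
  | refl => exact le_rfl
  | step _ ih => exact ih.trans (P_mono_succ U _)

theorem mem_P_one {U : Subgroup X} {f : X → K} :
    f ∈ P K U 1 ↔ ∀ u ∈ U, ∀ x, f (x * u) = f x := by
  rw [mem_P_succ]
  constructor
  · intro h u hu x
    have := h u hu
    rw [mem_P_zero] at this
    have := congrFun this x
    rw [D_apply] at this
    exact sub_eq_zero.mp this
  · intro h u hu
    rw [mem_P_zero]
    funext x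
    rw [D_apply, h u hu x]; simp

theorem const_mem_P_one (U : Subgroup X) (c : K) : (fun _ => c) ∈ P K U 1 := by
  rw [mem_P_one]; intro u _ x; rfl

/-- Composition with a map that is equivariant along the subgroups. -/
theorem comp_mem_P {Y : Type*} [Group Y] {U : Subgroup X} {V : Subgroup Y} (m : Y → X) (τ : Y → X)
    (hτ : ∀ v ∈ V, τ v ∈ U) (hm : ∀ y, ∀ v ∈ V, m (y * v) = m y * τ v) {d : ℕ} {f : X → K}
    (hf : f ∈ P K U d) : (fun y => f (m y)) ∈ P K V d := by
  induction d generalizing f with
  | zero => rw [mem_P_zero] at hf ⊢; subst hf; rfl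
  | succ d ih =>
    rw [mem_P_succ] at hf ⊢
    intro v hv
    have h := ih (hf (τ v) (hτ v hv))
    convert h using 1
    funext y
    simp only [D_apply, hm y v hv]

/-- Composition with a map that is equivariant along the subgroups, existential form. -/
theorem comp_mem_P' {Y : Type*} [Group Y] {U : Subgroup X} {V : Subgroup Y} (m : Y → X)
    (hm : ∀ v ∈ V, ∃ w ∈ U, ∀ y, m (y * v) = m y * w) {d : ℕ} {f : X → K}
    (hf : f ∈ P K U d) : (fun y => f (m y)) ∈ P K V d := by
  induction d generalizing f with
  | zero => rw [mem_P_zero] at hf ⊢; subst hf; rfl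
  | succ d ih =>
    rw [mem_P_succ] at hf ⊢
    intro v hv
    obtain ⟨w, hw, hmw⟩ := hm v hv
    have h := ih (hf w hw)
    convert h using 1
    funext y
    simp only [D_apply, hmw y]

theorem left_mem_P {U : Subgroup X} {d : ℕ} {f : X → K} (hf : f ∈ P K U d) (a : X) :
    (fun x => f (a * x)) ∈ P K U d :=
  comp_mem_P (fun x => a * x) id (fun v hv => hv) (fun y v _ => by simp [mul_assoc]) hf

theorem right_mem_P {U : Subgroup X} [hU : U.Normal] {d : ℕ} {f : X → K} (hf : f ∈ P K U d)
    (a : X) : (fun x => f (x * a)) ∈ P K U d :=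
  comp_mem_P (fun x => x * a) (fun v => a⁻¹ * v * a)
    (fun v hv => by simpa using hU.conj_mem v hv a⁻¹) (fun y v _ => by group) hf

theorem D_mul (u v : X) (f : X → K) :
    D K (u * v) f = (fun x => D K v f (x * u)) + D K u f := by
  funext x
  simp only [D_apply, Pi.add_apply, mul_assoc]
  ring

theorem D_inv (u : X) (f : X → K) :
    D K u⁻¹ f = - (fun x => D K u f (x * u⁻¹)) := by
  funext x
  simp only [D_apply, Pi.neg_apply]
  simp

/-- The left difference of a polynomial function along a normal subgroup. -/
theorem leftD_mem_P {U : Subgroup X} [hU : U.Normal] {d : ℕ} {f : X → K}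
    (hf : f ∈ P K U (d + 1)) {u : X} (hu : u ∈ U) :
    (fun x => f (u * x) - f x) ∈ P K U d := by
  induction d generalizing f with
  | zero =>
    rw [mem_P_one] at hf
    rw [mem_P_zero]
    funext x
    have := hf (x⁻¹ * u * x) (by simpa using hU.conj_mem u hu x⁻¹) x
    have h2 : x * (x⁻¹ * u * x) = u * x := by group
    rw [h2] at this
    simp [this]
  | succ d ih =>
    rw [mem_P_succ]
    intro v hv
    rw [mem_P_succ] at hf
    have := ih (hf v hv)
    convert this using 1
    funext x
    simp only [D_apply, mul_assoc]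
    ring

/-- It suffices to check differences along a generating set. -/
theorem mem_P_succ_of_closure {U : Subgroup X} [hU : U.Normal] {S : Set X} {V : Subgroup X}
    (hS : V ≤ Subgroup.closure S) {d : ℕ} {f : X → K}
    (h : ∀ s ∈ S, D K s f ∈ P K U d) : ∀ v ∈ V, D K v f ∈ P K U d := by
  intro v hv
  have hv' := hS hv
  clear hv
  induction hv' using Subgroup.closure_induction with
  | mem s hs => exact h s hs
  | one =>
    have : D K (1 : X) f = 0 := by funext x; simp [D_apply]
    rw [this]; exact Submodule.zero_mem _
  | mul a b _ _ ha hb =>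
    rw [D_mul]
    exact Submodule.add_mem _ (right_mem_P hb a) ha
  | inv a _ ha =>
    rw [D_inv]
    exact Submodule.neg_mem _ (right_mem_P ha a⁻¹)

theorem inv_mem_P {d : ℕ} {f : X → K} (hf : f ∈ P K (⊤ : Subgroup X) d) :
    (fun x => f x⁻¹) ∈ P K (⊤ : Subgroup X) d := by
  induction d generalizing f with
  | zero => rw [mem_P_zero] at hf ⊢; subst hf; rfl
  | succ d ih =>
    rw [mem_P_succ]
    intro u _
    have h := ih (leftD_mem_P hf (u := u⁻¹) trivial)
    convert h using 1
    funext x
    simp [D_apply]

theorem finite_P (hX : Group.FG X) (d : ℕ) : Module.Finite K (P K (⊤ : Subgroup X) d) := by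
  obtain ⟨S', hS, hfin⟩ := Group.fg_iff.mp hX
  obtain ⟨S, rfl⟩ := hfin.exists_finset_coe
  induction d with
  | zero => show Module.Finite K (⊥ : Submodule K (X → K)); infer_instance
  | succ d ih =>
    let L : P K (⊤ : Subgroup X) (d + 1) →ₗ[K] ((S → P K (⊤ : Subgroup X) d) × K) :=
      LinearMap.prod (LinearMap.pi fun s =>
        ((D K (s : X)).comp (Submodule.subtype _)).codRestrict _
          (fun f => mem_P_succ.mp f.2 s trivial))
        ((LinearMap.proj (1 : X)).comp (Submodule.subtype _))
    refine Module.Finite.of_injective L ?_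
    rw [← LinearMap.ker_eq_bot, LinearMap.ker_eq_bot']
    intro f hf
    have h1 : ∀ s ∈ (S : Set X), D K s (f : X → K) ∈ P K (⊤ : Subgroup X) 0 := by
      intro s hs
      have := congrFun (congrArg Prod.fst hf) ⟨s, hs⟩
      have := congrArg Subtype.val this
      rw [mem_P_zero]
      exact this
    have h2 : (f : X → K) ∈ P K (⊤ : Subgroup X) 1 := by
      rw [mem_P_succ]
      exact mem_P_succ_of_closure (V := ⊤) (by rw [hS]) h1
    rw [mem_P_one] at h2
    have h3 : (f : X → K) 1 = 0 := congrArg Prod.snd hf
    apply Subtype.ext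
    funext x
    have := h2 x trivial 1
    rw [one_mul] at this
    rw [this, h3]; rfl

/-- If the functions in `P ⊤ e` separate points then the group is nilpotent. -/
theorem nilpotent_of_separates (e : ℕ)
    (h : ∀ x : X, (∀ f ∈ P K (⊤ : Subgroup X) e, f x = f 1) → x = 1) : Group.IsNilpotent X := by
  rw [Subgroup.nilpotent_iff_lowerCentralSeries]
  have key : ∀ k : ℕ, ∀ x ∈ (⊤ : Subgroup X).lowerCentralSeries k, ∀ i : ℕ,
      ∀ f ∈ P K (⊤ : Subgroup X) i, D K x f ∈ P K (⊤ : Subgroup X) (i - (k + 1)) := by
    intro k
    induction k with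
    | zero =>
      intro x _ i f hf
      cases i with
      | zero => rw [mem_P_zero] at hf; subst hf; rw [map_zero]; exact Submodule.zero_mem _
      | succ i => exact mem_P_succ.mp hf x trivial
    | succ k ih =>
      intro x hx
      rw [Subgroup.lowerCentralSeries_succ, Subgroup.commutator_def] at hx
      induction hx using Subgroup.closure_induction with
      | mem z hz =>
        obtain ⟨a, ha, b, -, rfl⟩ := hz
        intro i f hf
        have e1 : D K ⁅a, b⁆ f = D K a (D K b (fun x => f (x * (b * a)⁻¹)))
            - D K b (D K a (fun x => f (x * (b * a)⁻¹))) := by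
          funext x
          simp only [D_apply, Pi.sub_apply, commutatorElement_def]
          have a1 : x * a * b * (b * a)⁻¹ = x * (a * b * a⁻¹ * b⁻¹) := by group
          have a2 : x * b * a * (b * a)⁻¹ = x := by group
          rw [a1, a2]; ring
        rw [e1]
        have hg : (fun x => f (x * (b * a)⁻¹)) ∈ P K (⊤ : Subgroup X) i := right_mem_P hf _
        generalize (fun x => f (x * (b * a)⁻¹)) = g at hg
        have hb1 : ∀ i : ℕ, ∀ g ∈ P K (⊤ : Subgroup X) i, D K b g ∈ P K (⊤ : Subgroup X) (i - 1) := by
          intro i g hg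
          cases i with
          | zero => rw [mem_P_zero] at hg; subst hg; rw [map_zero]; exact Submodule.zero_mem _
          | succ i => exact mem_P_succ.mp hg b trivial
        apply Submodule.sub_mem
        · have := ih a ha _ _ (hb1 i g hg)
          rwa [show i - 1 - (k + 1) = i - (k + 1 + 1) by omega] at this
        · have := hb1 _ _ (ih a ha i g hg)
          rwa [show i - (k + 1) - 1 = i - (k + 1 + 1) by omega] at this
      | one =>
        intro i f _
        have : D K (1 : X) f = 0 := by funext x; simp [D_apply]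
        rw [this]; exact Submodule.zero_mem _
      | mul a b _ _ ha hb =>
        intro i f hf
        rw [D_mul]
        exact Submodule.add_mem _ (right_mem_P (hb i f hf) a) (ha i f hf)
      | inv a _ ha =>
        intro i f hf
        rw [D_inv]
        exact Submodule.neg_mem _ (right_mem_P (ha i f hf) a⁻¹)
  refine ⟨e, ?_⟩
  rw [eq_bot_iff]
  intro x hx
  rw [Subgroup.mem_bot]
  apply h
  intro f hf
  have := key e x hx e f hf
  rw [show e - (e + 1) = 0 by omega, mem_P_zero] at this
  have := congrFun this 1
  rw [D_apply, one_mul] at this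
  exact sub_eq_zero.mp this

end Basic

end Pool.Agent.Helper611.PcFun
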