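import Mathlib
import Pool.Agent.Helper611.PcFun

set_option autoImplicit false

namespace Pool.Agent.Helper611.PcUni

open Module Pool.Agent.Helper611.PcFun
open scoped commutatorElement

variable (K : Type*) [Field K] {X : Type*} [Group X]

/-- Additive functions on a group. -/
def HomS (X : Type*) [Group X] : Submodule K (X → K) where
  carrier := {f | ∀ x y, f (x * y) = f x + f y}
  add_mem' := by
    intro a b ha hb x y
    simp only [Pi.add_apply, ha x y, hb x y]; ring
  zero_mem' := by intro x y; simp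
  smul_mem' := by
    intro c f hf x y
    simp only [Pi.smul_apply, hf x y, smul_eq_mul]; ring

variable {K}

theorem HomS_le : HomS K X ≤ P K (⊤ : Subgroup X) 2 := by
  intro f hf
  rw [mem_P_succ]
  intro u _
  rw [mem_P_one]
  intro v _ x
  simp only [D_apply, hf _ _]; ring

theorem HomS_one {f : X → K} (hf : f ∈ HomS K X) : f 1 = 0 := by
  have := hf 1 1
  rw [mul_one] at this
  simpa using this

/-- The shift operator of an endomorphism. -/
abbrev sh (K : Type*) [Field K] {X : Type*} [Group X] (σ : X →* X) : (X → K) →ₗ[K] (X → K) :=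
  LinearMap.funLeft K K σ

theorem sh_mem_P (σ : X →* X) {d : ℕ} {f : X → K} (hf : f ∈ P K (⊤ : Subgroup X) d) :
    sh K σ f ∈ P K (⊤ : Subgroup X) d :=
  comp_mem_P (fun x => σ x) (fun x => σ x) (fun _ _ => Subgroup.mem_top _) (fun y v _ => by simp) hf

theorem pow_pres {M : Type*} [AddCommGroup M] [Module K M] (T : M →ₗ[K] M) (S : Submodule K M)
    (h : ∀ v ∈ S, T v ∈ S) (n : ℕ) : ∀ v ∈ S, (T ^ n) v ∈ S := by
  induction n with
  | zero => intro v hv; simpa using hv
  | succ n ih =>
    intro v hv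
    rw [pow_succ']
    exact h _ (ih v hv)

theorem sh_sub_mem_P (σ : X →* X) {d : ℕ} {f : X → K} (hf : f ∈ P K (⊤ : Subgroup X) d) :
    (sh K σ - 1) f ∈ P K (⊤ : Subgroup X) d :=
  Submodule.sub_mem _ (sh_mem_P σ hf) hf

/-- Values in a fixed submodule. -/
def Val (S : Submodule K (X → K)) : Submodule K (X → X → K) where
  carrier := {Ψ | ∀ u, Ψ u ∈ S}
  add_mem' := fun ha hb u => S.add_mem (ha u) (hb u)
  zero_mem' := fun _ => S.zero_mem
  smul_mem' := fun c _ hf u => S.smul_mem c (hf u)

omit [Group X] in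
theorem compLeft_pow (c : (X → K) →ₗ[K] (X → K)) (n : ℕ) (w : X → X → K) (u : X) :
    ((c.compLeft X) ^ n) w u = (c ^ n) (w u) := by
  induction n generalizing w with
  | zero => rfl
  | succ n ih =>
    rw [pow_succ, pow_succ]
    exact ih _

theorem unip_step (σ : X →* X) (n : ℕ) (hn : ∀ ψ ∈ HomS K X, ((sh K σ - 1) ^ n) ψ = 0)
    (d m : ℕ) (hm : ∀ f ∈ P K (⊤ : Subgroup X) (d + 1), ((sh K σ - 1) ^ m) f ∈ P K (⊤ : Subgroup X) d)
    (f : X → K) (hf : f ∈ P K (⊤ : Subgroup X) (d + 1 + 1)) :
    ((sh K σ - 1) ^ (m + n)) f ∈ P K (⊤ : Subgroup X) (d + 1) := by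
  set c := sh K σ with hc
  let A : (X → X → K) →ₗ[K] (X → X → K) := c.compLeft X
  let B : (X → X → K) →ₗ[K] (X → X → K) := LinearMap.funLeft K (X → K) σ
  let Psi : (X → K) →ₗ[K] (X → X → K) := LinearMap.pi fun u => D K u
  have hAB : Commute A B := by
    apply LinearMap.ext; intro w; rfl
  have h1 : ∀ g, Psi (c g) = (A * B) (Psi g) := by
    intro g
    funext u x
    show D K u (c g) x = D K (σ u) g (σ x)
    simp [D_apply, hc]
  have h2 : ∀ (k : ℕ) g, Psi (((c - 1) ^ k) g) = ((A * B - 1) ^ k) (Psi g) := by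
    intro k
    induction k with
    | zero => intro g; rfl
    | succ k ih =>
      intro g
      rw [pow_succ, pow_succ]
      show Psi (((c - 1) ^ k) ((c - 1) g)) = ((A * B - 1) ^ k) ((A * B - 1) (Psi g))
      rw [ih]
      congr 1
      simp only [LinearMap.sub_apply, map_sub, h1]
      rfl
  have hx : A * B - 1 = (A - 1) * B + (B - 1) := by rw [sub_mul, one_mul]; abel
  have hcomm : Commute ((A - 1) * B) (B - 1) := by
    have e1 : Commute (A - 1) B := (hAB.sub_left (Commute.one_left B))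
    have e2 : Commute (A - 1) (B - 1) := e1.sub_right (Commute.one_right _)
    have e3 : Commute B (B - 1) := (Commute.refl B).sub_right (Commute.one_right _)
    exact e2.mul_left e3
  have hcomm2 : Commute (A - 1) B := (hAB.sub_left (Commute.one_left B))
  -- the two submodules
  set S0 := Val (P K (⊤ : Subgroup X) d) with hS0
  set S1 := Val (P K (⊤ : Subgroup X) (d + 1)) with hS1
  have hB : ∀ (S : Submodule K (X → K)), ∀ w ∈ Val S, B w ∈ Val S := fun S w hw u => hw (σ u)
  have hB1 : ∀ (S : Submodule K (X → K)), ∀ w ∈ Val S, (B - 1) w ∈ Val S := fun S w hw =>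
    (Val S).sub_mem (hB S w hw) hw
  have hA1 : ∀ e, ∀ w ∈ Val (P K (⊤ : Subgroup X) e), (A - 1) w ∈ Val (P K (⊤ : Subgroup X) e) :=
    fun e w hw => (Val (P K (⊤ : Subgroup X) e)).sub_mem
      (show A w ∈ Val (P K (⊤ : Subgroup X) e) from fun u => sh_mem_P σ (hw u)) hw
  have hAm : ∀ w ∈ S1, ((A - 1) ^ m) w ∈ S0 := by
    intro w hw u
    have : (A - 1) = (c - 1).compLeft X := by
      apply LinearMap.ext; intro w; rfl
    rw [this, compLeft_pow]
    exact hm _ (hw u)
  have hPsi1 : Psi f ∈ S1 := fun u => mem_P_succ.mp hf u trivial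
  have hPsi2 : ((B - 1) ^ n) (Psi f) ∈ S0 := by
    intro u
    by_contra hcon
    obtain ⟨μ, hμ1, hμ2⟩ := Submodule.exists_le_ker_of_notMem hcon
    apply hμ1
    have hμ3 : ∀ g ∈ P K (⊤ : Subgroup X) d, μ g = 0 := fun g hg => hμ2 hg
    have e1 : ∀ (k : ℕ) (w : X → X → K), (μ.compLeft X) (((B - 1) ^ k) w)
        = ((c - 1) ^ k) ((μ.compLeft X) w) := by
      intro k
      induction k with
      | zero => intro w; rfl
      | succ k ih =>
        intro w
        rw [pow_succ, pow_succ]
        show (μ.compLeft X) (((B - 1) ^ k) ((B - 1) w)) = ((c - 1) ^ k) ((c - 1) ((μ.compLeft X) w))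
        rw [ih]
        congr 1
        simp only [LinearMap.sub_apply, map_sub]
        rfl
    have e2 : (μ.compLeft X) (Psi f) ∈ HomS K X := by
      intro x y
      show μ (D K (x * y) f) = μ (D K x f) + μ (D K y f)
      have : D K (x * y) f = D K x (D K y f) + D K y f + D K x f := by
        rw [D_mul]
        funext z
        simp only [D_apply, Pi.add_apply]; ring
      rw [this, map_add, map_add, hμ3 _ (mem_P_succ.mp (mem_P_succ.mp hf y trivial) x trivial)]
      ring
    have e3 := hn _ e2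
    rw [← e1] at e3
    exact congrFun e3 u
  have key : ((A * B - 1) ^ (m + n)) (Psi f) ∈ S0 := by
    rw [hx, hcomm.add_pow', LinearMap.sum_apply]
    apply Submodule.sum_mem
    rintro ⟨i, j⟩ hij
    have hij : i + j = m + n := Finset.HasAntidiagonal.mem_antidiagonal.mp hij
    rw [LinearMap.smul_apply]
    apply Submodule.smul_of_tower_mem
    show (((A - 1) * B) ^ i) (((B - 1) ^ j) (Psi f)) ∈ S0
    rw [hcomm2.mul_pow]
    show ((A - 1) ^ i) ((B ^ i) (((B - 1) ^ j) (Psi f))) ∈ S0
    by_cases hj : n ≤ j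
    · apply pow_pres _ _ (hA1 d)
      apply pow_pres _ _ (hB _)
      obtain ⟨k, rfl⟩ := Nat.exists_eq_add_of_le hj
      rw [add_comm n k, pow_add]
      exact pow_pres _ _ (hB1 _) k _ hPsi2
    · have hi : m ≤ i := by omega
      obtain ⟨k, rfl⟩ := Nat.exists_eq_add_of_le hi
      rw [add_comm m k, pow_add]
      apply pow_pres _ _ (hA1 d) k
      apply hAm
      apply pow_pres _ _ (hB _)
      exact pow_pres _ _ (hB1 _) j _ hPsi1
  rw [mem_P_succ]
  intro u _
  have := key u
  rw [← h2] at this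
  exact this

theorem unip (σ : X →* X) (n : ℕ) (hn : ∀ ψ ∈ HomS K X, ((sh K σ - 1) ^ n) ψ = 0) (d : ℕ) :
    ∃ m : ℕ, ∀ f ∈ P K (⊤ : Subgroup X) (d + 1), ((sh K σ - 1) ^ m) f ∈ P K (⊤ : Subgroup X) d := by
  induction d with
  | zero =>
    refine ⟨1, fun f hf => ?_⟩
    rw [mem_P_one] at hf
    rw [mem_P_zero]
    funext x
    have a := hf (σ x) trivial 1
    have b := hf x trivial 1
    rw [one_mul] at a b
    show f (σ x) - f x = 0
    rw [a, b, sub_self]
  | succ d ih =>
    obtain ⟨m, hm⟩ := ih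
    exact ⟨m + n, fun f hf => unip_step σ n hn d m hm f hf⟩

/-- Lifting polynomial functions along a retraction. -/
theorem lift_poly {X' : Type*} [Group X'] (ι : X →* X') (t : X') (r : X' → X) (σ : X →* X)
    (hgen : Subgroup.closure (Set.range ι ∪ {t}) = ⊤)
    (hr1 : ∀ x u, r (x * ι u) = r x * u) (hr2 : ∀ x, r (x * t) = σ (r x))
    (n : ℕ) (hn : ∀ ψ ∈ HomS K X, ((sh K σ - 1) ^ n) ψ = 0) (d : ℕ) :
    ∃ e, ∀ f ∈ P K (⊤ : Subgroup X) d, (fun x => f (r x)) ∈ P K (⊤ : Subgroup X') e := by
  induction d with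
  | zero =>
    refine ⟨0, fun f hf => ?_⟩
    rw [mem_P_zero] at hf ⊢
    subst hf; rfl
  | succ d ih =>
    obtain ⟨e, he⟩ := ih
    obtain ⟨m, hm⟩ := unip σ n hn d
    refine ⟨e + m, ?_⟩
    have key : ∀ i : ℕ, ∀ f ∈ P K (⊤ : Subgroup X) (d + 1),
        ((sh K σ - 1) ^ i) f ∈ P K (⊤ : Subgroup X) d →
        (fun x => f (r x)) ∈ P K (⊤ : Subgroup X') (e + i) := by
      intro i
      induction i with
      | zero => intro f _ hf; exact he f (by simpa using hf)
      | succ i ihi =>
        intro f hf1 hf2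
        rw [← add_assoc, mem_P_succ]
        apply mem_P_succ_of_closure (S := Set.range ι ∪ {t}) (by rw [hgen])
        intro s hs
        rcases hs with ⟨u, rfl⟩ | hs
        · have : D K (ι u) (fun x => f (r x)) = fun x => (D K u f) (r x) := by
            funext x
            simp only [D_apply, hr1]
          rw [this]
          exact P_mono _ (Nat.le_add_right e i) (he _ (mem_P_succ.mp hf1 u trivial))
        · rw [Set.mem_singleton_iff] at hs
          subst hs
          have : D K s (fun x => f (r x)) = fun x => ((sh K σ - 1) f) (r x) := by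
            funext x
            simp only [D_apply, hr2]
            rfl
          rw [this]
          apply ihi _ (sh_sub_mem_P σ hf1)
          rw [pow_succ] at hf2
          exact hf2
    intro f hf
    exact key m f hf (hm f hf)

/-- An integer-valued homomorphism as a function to the field. -/
def kf (K : Type*) [Field K] {X : Type*} [Group X] (κ : X →* Multiplicative ℤ) : X → K :=
  fun x => ((Multiplicative.toAdd (κ x) : ℤ) : K)

theorem kf_mem (κ : X →* Multiplicative ℤ) : kf K κ ∈ HomS K X := by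
  intro x y
  simp [kf]

/-- Separation lifts along a retraction. -/
theorem lift_separates [CharZero K] {X' : Type*} [Group X'] (ι : X →* X') (t : X') (r : X' → X)
    (σ : X →* X)
    (hgen : Subgroup.closure (Set.range ι ∪ {t}) = ⊤)
    (hr1 : ∀ x u, r (x * ι u) = r x * u) (hr2 : ∀ x, r (x * t) = σ (r x))
    (hr3 : r 1 = 1)
    (κ : X' →* Multiplicative ℤ) (hκ : ∀ x, κ x = 1 → r x = 1 → x = 1)
    (n : ℕ) (hn : ∀ ψ ∈ HomS K X, ((sh K σ - 1) ^ n) ψ = 0) (d : ℕ)
    (hsep : ∀ x : X, (∀ f ∈ P K (⊤ : Subgroup X) d, f x = f 1) → x = 1) :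
    ∃ e, ∀ x : X', (∀ f ∈ P K (⊤ : Subgroup X') e, f x = f 1) → x = 1 := by
  obtain ⟨e, he⟩ := lift_poly ι t r σ hgen hr1 hr2 n hn d
  refine ⟨e + 2, fun x hx => ?_⟩
  have h1 : r x = 1 := by
    apply hsep
    intro f hf
    have := hx _ (P_mono _ (Nat.le_add_right e 2) (he f hf))
    simpa [hr3] using this
  have h2 : κ x = 1 := by
    have := hx _ (P_mono _ (Nat.le_add_left 2 e) (HomS_le (kf_mem κ)))
    simp only [kf, map_one, toAdd_one, Int.cast_zero, Int.cast_eq_zero] at this
    exact this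
  exact hκ x h2 h1

/-- In a nilpotent group, conjugation is unipotent on additive functions of a normal subgroup. -/
theorem conj_unip {X' : Type*} [Group X'] [hN : Group.IsNilpotent X'] (ι : X →* X') (t : X')
    (hι : Function.Injective ι)
    (σ : X →* X) (hσ : ∀ x, ι (σ x) = t⁻¹ * ι x * t) :
    ∃ n : ℕ, ∀ ψ ∈ HomS K X, ((sh K σ - 1) ^ n) ψ = 0 := by
  obtain ⟨n, hn⟩ := Subgroup.nilpotent_iff_lowerCentralSeries.mp hN
  refine ⟨n, ?_⟩
  have key : ∀ j : ℕ, ∀ ψ ∈ HomS K X, (∀ x, ι x ∈ (⊤ : Subgroup X').lowerCentralSeries j → ψ x = 0) →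
      ((sh K σ - 1) ^ j) ψ = 0 := by
    intro j
    induction j with
    | zero =>
      intro ψ _ h
      funext x
      simpa using h x (by simp)
    | succ j ih =>
      intro ψ hψ h
      rw [pow_succ]
      have hsub : ∀ x, ((sh K σ - 1) ψ) x = ψ (σ x) - ψ x := fun x => rfl
      apply ih
      · intro x y
        rw [hsub, hsub, hsub, map_mul, hψ, hψ]; ring
      · intro x hx
        rw [hsub]
        have e1 : ψ (σ x) = ψ (σ x * x⁻¹) + ψ x := by
          rw [← hψ]; simp
        rw [e1, h (σ x * x⁻¹)]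
        · ring
        · rw [map_mul, hσ, map_inv, Subgroup.lowerCentralSeries_succ]
          have : t⁻¹ * ι x * t * (ι x)⁻¹ = ⁅ι x, t⁻¹⁆⁻¹ := by
            rw [commutatorElement_def]; group
          rw [this]
          exact inv_mem (Subgroup.commutator_mem_commutator hx trivial)
  intro ψ hψ
  apply key n ψ hψ
  intro x hx
  rw [hn, Subgroup.mem_bot] at hx
  have : x = 1 := hι (by rw [hx, map_one])
  rw [this, HomS_one hψ]

end Pool.Agent.Helper611.PcUni
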