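import Mathlib
import Pool.Agent.Helper611.PcUni

set_option autoImplicit false

namespace Pool.Agent.Helper611.PcGen

open Module Pool.Agent.Helper611.PcFun Pool.Agent.Helper611.PcUni
open scoped commutatorElement

section Interp

variable {K : Type*} [Field K] {X : Type*}

/-- Interpolation in a finite dimensional space of functions. -/
theorem interp (F : Submodule K (X → K)) [hF : Module.Finite K F] :
    ∃ (n : ℕ) (y : Fin n → X) (b : Fin n → (X → K)), (∀ i, b i ∈ F) ∧
      ∀ f ∈ F, ∀ x, f x = ∑ i, f (y i) * b i x := by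
  induction hn : finrank K F using Nat.strong_induction_on generalizing F with
  | _ n ih =>
  by_cases hb : F = ⊥
  · refine ⟨0, Fin.elim0, Fin.elim0, fun i => i.elim0, ?_⟩
    intro f hf x
    rw [hb, Submodule.mem_bot] at hf
    subst hf; simp
  · obtain ⟨f0, hf0, hne⟩ := Submodule.exists_mem_ne_zero_of_ne_bot hb
    obtain ⟨y0, hy0⟩ : ∃ y0, f0 y0 ≠ 0 := by
      by_contra hc
      push Not at hc
      exact hne (funext hc)
    let F' : Submodule K (X → K) := F ⊓ LinearMap.ker (LinearMap.proj (R := K) (φ := fun _ : X => K) y0)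
    have hF'F : F' ≤ F := inf_le_left
    have hfin : Module.Finite K F' := Submodule.finiteDimensional_of_le hF'F
    have hlt : finrank K F' < n := by
      rw [← hn]
      apply Submodule.finrank_lt_finrank_of_lt
      refine lt_of_le_of_ne hF'F ?_
      intro he
      have : f0 ∈ F' := by rw [he]; exact hf0
      exact hy0 this.2
    obtain ⟨m, y, b, hb1, hb2⟩ := ih _ hlt F' rfl
    refine ⟨m + 1, Fin.cons y0 y,
      Fin.cons ((f0 y0)⁻¹ • (f0 - ∑ i, f0 (y i) • b i)) b, ?_, ?_⟩
    · intro i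
      refine Fin.cases ?_ ?_ i
      · exact F.smul_mem _ (F.sub_mem hf0 (F.sum_mem fun i _ => F.smul_mem _ (hF'F (hb1 i))))
      · intro i; exact hF'F (hb1 i)
    · intro f hf x
      have h1 : f - (f y0 * (f0 y0)⁻¹) • f0 ∈ F' := by
        refine ⟨F.sub_mem hf (F.smul_mem _ hf0), ?_⟩
        show f y0 - (f y0 * (f0 y0)⁻¹) * f0 y0 = 0
        field_simp
        ring
      have h2 := hb2 _ h1 x
      rw [Fin.sum_univ_succ]
      simp only [Fin.cons_zero, Fin.cons_succ, Pi.smul_apply, Pi.sub_apply, smul_eq_mul,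
        Finset.sum_apply] at h2 ⊢
      have h3 : ∑ i, (f (y i) - f y0 * (f0 y0)⁻¹ * f0 (y i)) * b i x
          = ∑ i, f (y i) * b i x - f y0 * (f0 y0)⁻¹ * ∑ i, f0 (y i) * b i x := by
        rw [Finset.mul_sum, ← Finset.sum_sub_distrib]
        exact Finset.sum_congr rfl fun i _ => by ring
      rw [h3] at h2
      linear_combination h2

end Interp

section Rec

variable {K : Type*} [Field K]

theorem intertwine {M M' : Type*} [AddCommGroup M] [Module K M] [AddCommGroup M'] [Module K M']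
    (L : M →ₗ[K] M') (T : M →ₗ[K] M) (T' : M' →ₗ[K] M') (h : ∀ v, L (T v) = T' (L v))
    (p : Polynomial K) (v : M) :
    L ((Polynomial.aeval T p) v) = (Polynomial.aeval T' p) (L v) := by
  induction p using Polynomial.induction_on' with
  | add p q hp hq => simp only [map_add, LinearMap.add_apply, hp, hq]
  | monomial n c =>
    rw [← Polynomial.C_mul_X_pow_eq_monomial, map_mul, map_mul, Polynomial.aeval_C,
      Polynomial.aeval_C, map_pow, map_pow, Polynomial.aeval_X, Polynomial.aeval_X]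
    have : ∀ n : ℕ, ∀ v, L ((T ^ n) v) = (T' ^ n) (L v) := by
      intro n
      induction n with
      | zero => intro v; rfl
      | succ n ih =>
        intro v
        rw [pow_succ, pow_succ]
        show L ((T ^ n) (T v)) = (T' ^ n) (T' (L v))
        rw [ih, h]
    show L (c • ((T ^ n) v)) = c • ((T' ^ n) (L v))
    rw [map_smul, this]

variable (K)

/-- The shift of two-sided sequences. -/
def Sh : (ℤ → K) →ₗ[K] (ℤ → K) := LinearMap.funLeft K K (fun k => k + 1)

variable {K}

/-- Sequences satisfying a linear recurrence. -/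
noncomputable def Rec (p : Polynomial K) : Submodule K (ℤ → K) := LinearMap.ker (Polynomial.aeval (Sh K) p)

theorem Sh_pow (n : ℕ) (e : ℤ → K) (k : ℤ) : ((Sh K) ^ n) e k = e (k + n) := by
  induction n generalizing e with
  | zero => simp
  | succ n ih =>
    rw [pow_succ]
    show ((Sh K) ^ n) (Sh K e) k = _
    rw [ih]
    show e (k + n + 1) = _
    push_cast; rw [add_assoc]

theorem mem_Rec {p : Polynomial K} {e : ℤ → K} (he : e ∈ Rec p) (k : ℤ) :
    ∑ j ∈ Finset.range (p.natDegree + 1), p.coeff j * e (k + j) = 0 := by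
  have h : (Polynomial.aeval (Sh K) p) e = 0 := he
  have h2 := congrFun h k
  rw [Polynomial.aeval_eq_sum_range, LinearMap.sum_apply, Finset.sum_apply] at h2
  simp only [LinearMap.smul_apply, Pi.smul_apply, Sh_pow, smul_eq_mul, Pi.zero_apply] at h2
  exact h2

theorem finite_Rec (p : Polynomial K) (hp : p ≠ 0) (h0 : p.coeff 0 ≠ 0) :
    Module.Finite K (Rec p) := by
  let L : Rec p →ₗ[K] (Fin p.natDegree → K) :=
    (LinearMap.funLeft K K (fun i : Fin p.natDegree => ((i : ℕ) : ℤ))).comp (Submodule.subtype _)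
  refine Module.Finite.of_injective L ?_
  rw [← LinearMap.ker_eq_bot, LinearMap.ker_eq_bot']
  intro e he
  have hw0 : ∀ j < p.natDegree, (e : ℤ → K) ((0 : ℤ) + j) = 0 := by
    intro j hj
    have := congrFun he ⟨j, hj⟩
    rw [zero_add]
    exact this
  have hlead : p.coeff p.natDegree ≠ 0 := by
    rw [Polynomial.coeff_natDegree]; exact Polynomial.leadingCoeff_ne_zero.mpr hp
  have hall : ∀ k : ℤ, ∀ j < p.natDegree, (e : ℤ → K) (k + j) = 0 := by
    intro k
    induction k using Int.induction_on with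
    | zero => exact hw0
    | succ k ih =>
      intro j hj
      by_cases hj' : j + 1 < p.natDegree
      · have := ih (j + 1) hj'
        rw [← this]; push_cast; ring_nf
      · have hj2 : j + 1 = p.natDegree := by omega
        have h := mem_Rec e.2 k
        rw [Finset.sum_range_succ, Finset.sum_eq_zero, zero_add] at h
        · have := (mul_eq_zero.mp h).resolve_left hlead
          rw [← this]; rw [← hj2]; push_cast; ring_nf
        · intro i hi
          rw [ih i (Finset.mem_range.mp hi), mul_zero]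
    | pred k ih =>
      intro j hj
      rcases Nat.eq_zero_or_pos j with rfl | hj0
      · have h := mem_Rec e.2 (-(k : ℤ) - 1)
        rw [Finset.sum_range_succ', Finset.sum_eq_zero, zero_add] at h
        · have := (mul_eq_zero.mp h).resolve_left h0
          exact this
        · intro i hi
          have := ih i (Finset.mem_range.mp hi)
          have e1 : (-(k : ℤ) - 1 + ((i + 1 : ℕ) : ℤ)) = -(k : ℤ) + i := by push_cast; ring
          rw [e1, this, mul_zero]
      · obtain ⟨i, rfl⟩ : ∃ i, j = i + 1 := ⟨j - 1, by omega⟩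
        have := ih i (by omega)
        rw [← this]; push_cast; ring_nf
  apply Subtype.ext
  funext k
  rcases Nat.eq_zero_or_pos p.natDegree with hn | hn
  · have h := mem_Rec e.2 k
    rw [hn] at h
    simp only [zero_add, Finset.range_one, Finset.sum_singleton, Nat.cast_zero, add_zero] at h
    exact (mul_eq_zero.mp h).resolve_left h0
  · have := hall k 0 hn
    simpa using this

end Rec

section Step

variable {K : Type*} [Field K] {G : Type*} [Group G] (G0 U : Subgroup G)

/-- Automorphisms acting trivially on `G0` modulo `U`. -/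
def Gam : Set (MulAut G) := {θ | ∀ x ∈ G0, x⁻¹ * θ x ∈ U}

variable {G0 U}

theorem Gam_mem {X : Subgroup G} (h1 : U ≤ X) (h2 : X ≤ G0) {θ : MulAut G} (hθ : θ ∈ Gam G0 U)
    {x : G} (hx : x ∈ X) : θ x ∈ X := by
  have := X.mul_mem hx (h1 (hθ x (h2 hx)))
  simpa using this

theorem Gam_mul {θ η : MulAut G} (hU : U ≤ G0) (hθ : θ ∈ Gam G0 U) (hη : η ∈ Gam G0 U) :
    θ * η ∈ Gam G0 U := by
  intro x hx
  have h1 : η x ∈ G0 := Gam_mem hU le_rfl hη hx
  have h2 := hθ (η x) h1
  have h3 := hη x hx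
  have : x⁻¹ * (θ * η) x = (x⁻¹ * η x) * ((η x)⁻¹ * θ (η x)) := by
    simp [MulAut.mul_apply]
  rw [this]
  exact U.mul_mem h3 h2

theorem Gam_conj (hab : ∀ x ∈ G0, ∀ y ∈ G0, x⁻¹ * (y * x * y⁻¹) ∈ U) {y : G} (hy : y ∈ G0) :
    MulAut.conj y ∈ Gam G0 U := fun x hx => by
  rw [MulAut.conj_apply]; exact hab x hx y hy

/-- The transformation `x ↦ a θ(x)`. -/
def tr (X : Subgroup G) (h1 : U ≤ X) (h2 : X ≤ G0) (a : X) (θ : MulAut G) (hθ : θ ∈ Gam G0 U)
    (x : X) : X := ⟨a * θ x, X.mul_mem a.2 (Gam_mem h1 h2 hθ x.2)⟩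

/-- Invariance under all transformations. -/
def Inv (X : Subgroup G) (h1 : U ≤ X) (h2 : X ≤ G0) (F : Submodule K (X → K)) : Prop :=
  ∀ (a : X) (θ : MulAut G) (hθ : θ ∈ Gam G0 U), ∀ f ∈ F, (fun x => f (tr X h1 h2 a θ hθ x)) ∈ F

theorem Inv.right {X : Subgroup G} {h1 : U ≤ X} {h2 : X ≤ G0} {F : Submodule K (X → K)}
    (hab : ∀ x ∈ G0, ∀ y ∈ G0, x⁻¹ * (y * x * y⁻¹) ∈ U)
    (hF : Inv X h1 h2 F) (a : X) {f : X → K} (hf : f ∈ F) : (fun x => f (x * a)) ∈ F := by
  have := hF a (MulAut.conj (a : G)⁻¹) (Gam_conj hab (inv_mem (h2 a.2))) f hf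
  convert this using 3 with x
  apply Subtype.ext
  simp [tr, mul_assoc]

theorem Inv.left {X : Subgroup G} {h1 : U ≤ X} {h2 : X ≤ G0} {F : Submodule K (X → K)}
    (hF : Inv X h1 h2 F) (a : X) {f : X → K} (hf : f ∈ F) : (fun x => f (a * x)) ∈ F := by
  have h1' : (1 : MulAut G) ∈ Gam G0 U := by intro x _; simp
  have := hF a 1 h1' f hf
  convert this using 3 with x
  apply Subtype.ext
  simp [tr]

theorem tr_P {X : Subgroup G} (h1 : U ≤ X) (h2 : X ≤ G0) (a : X) (θ : MulAut G)
    (hθ : θ ∈ Gam G0 U) {d : ℕ} {f : X → K} (hf : f ∈ P K (U.subgroupOf X) d) :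
    (fun x => f (tr X h1 h2 a θ hθ x)) ∈ P K (U.subgroupOf X) d := by
  apply comp_mem_P' _ _ hf
  intro v hv
  rw [Subgroup.mem_subgroupOf] at hv
  have hθU : θ v ∈ U := Gam_mem (X := U) le_rfl (h1.trans h2) hθ hv
  refine ⟨⟨θ v, h1 hθU⟩, hθU, ?_⟩
  intro y
  apply Subtype.ext
  simp [tr, mul_assoc]

theorem gen_step {X X' : Subgroup G} (h1 : U ≤ X) (h2 : X ≤ G0) (hXX' : X ≤ X')
    (h2' : X' ≤ G0)
    (hab : ∀ x ∈ G0, ∀ y ∈ G0, x⁻¹ * (y * x * y⁻¹) ∈ U)
    (κ : ↥X' →* Multiplicative ℤ) (hκ : ∀ x : ↥X', κ x = 1 ↔ (x : G) ∈ X) (t : ↥X')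
    (ht : κ t = Multiplicative.ofAdd 1)
    (F : Submodule K (X → K)) [hfin : Module.Finite K F] (hF : Inv X h1 h2 F)
    (d : ℕ) (hd : F ≤ P K (U.subgroupOf X) d) (hd1 : 1 ≤ d) :
    ∃ (F' : Submodule K (X' → K)) (r : X' → X), Module.Finite K F' ∧
      Inv X' (h1.trans hXX') h2' F' ∧
      F' ≤ P K (U.subgroupOf X') d ∧ kf K κ ∈ F' ∧ (∀ c : K, (fun _ => c) ∈ F') ∧
      (∀ f ∈ F, (fun x => f (r x)) ∈ F') ∧
      (∀ (x : X') (u : G) (hu : u ∈ X), r (x * ⟨u, hXX' hu⟩) = r x * ⟨u, hu⟩) ∧
      (∀ x, κ x = 1 → (r x : G) = x) := by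
  have hUG : U ≤ G0 := h1.trans h2
  -- the coordinate
  let k : ↥X' → ℤ := fun x => Multiplicative.toAdd (κ x)
  have hk1 : ∀ x y, k (x * y) = k x + k y := fun x y => by simp [k]
  have hkt : k t = 1 := by simp [k, ht]
  have hk0 : ∀ x : X', k x = 0 ↔ (x : G) ∈ X := fun x => by
    rw [← hκ x]
    exact toAdd_eq_zero
  have hkz : ∀ (n : ℤ) (x : X'), k (x ^ n) = n * k x := fun n x => by simp [k]
  have hrm : ∀ x : X', (((t ^ (-k x) * x : X')) : G) ∈ X := by
    intro x
    rw [← hk0, hk1, hkz, hkt]; ring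
  let r : X' → X := fun x => ⟨_, hrm x⟩
  have hr : ∀ x : X', (r x : G) = (t : G) ^ (-k x) * x := fun x => by
    simp [r]
  have hxr : ∀ x : X', (x : G) = (t : G) ^ (k x) * r x := fun x => by
    rw [hr, ← mul_assoc, ← zpow_add]; simp
  have hrmul : ∀ (x : X') (u : G) (hu : u ∈ X), r (x * ⟨u, hXX' hu⟩) = r x * ⟨u, hu⟩ := by
    intro x u hu
    apply Subtype.ext
    have : k ⟨u, hXX' hu⟩ = 0 := (hk0 _).mpr hu
    rw [hr, hk1, this, Subgroup.coe_mul, Subgroup.coe_mul, hr, add_zero, mul_assoc]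
  have htG : (t : G) ∈ G0 := h2' t.2
  -- the twisted conjugations
  have hmm : ∀ (u : G), u ∈ U → ∀ y : X, (t : G)⁻¹ * y * ((t : G) * u) ∈ X := by
    intro u hu y
    have : ((t⁻¹ * ⟨y, hXX' y.2⟩ * (t * ⟨u, hXX' (h1 hu)⟩) : X') : G) ∈ X := by
      rw [← hk0, hk1, hk1, hk1, (hk0 ⟨u, _⟩).mpr (h1 hu), (hk0 ⟨(y : G), _⟩).mpr y.2]
      simp [k]
    simpa using this
  let m : (u : G) → u ∈ U → X → X := fun u hu y => ⟨_, hmm u hu y⟩
  let T : (u : G) → u ∈ U → ((X → K) →ₗ[K] (X → K)) := fun u hu => LinearMap.funLeft K K (m u hu)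
  have hTF : ∀ u hu, ∀ f ∈ F, T u hu f ∈ F := by
    intro u hu f hf
    have := hF ⟨u, h1 hu⟩ (MulAut.conj ((t : G) * u)⁻¹)
      (Gam_conj hab (inv_mem (mul_mem htG (hUG hu)))) f hf
    convert this using 1
    funext x
    show f (m u hu x) = f _
    congr 1
    apply Subtype.ext
    simp [tr, m, mul_assoc]
  have hTP : ∀ u hu, ∀ i, ∀ f ∈ P K (U.subgroupOf X) i, T u hu f ∈ P K (U.subgroupOf X) i := by
    intro u hu i f hf
    have := tr_P h1 h2 ⟨u, h1 hu⟩ (MulAut.conj ((t : G) * u)⁻¹)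
      (Gam_conj hab (inv_mem (mul_mem htG (hUG hu)))) hf
    convert this using 1
    funext x
    show f (m u hu x) = f _
    congr 1
    apply Subtype.ext
    simp [tr, m, mul_assoc]
  -- the annihilating polynomial
  have h1U : (1 : G) ∈ U := U.one_mem
  let C := (T 1 h1U).restrict (hTF 1 h1U)
  let p0 := C.charpoly
  have hCinj : Function.Injective C := by
    rw [← LinearMap.ker_eq_bot, LinearMap.ker_eq_bot']
    intro f hf
    apply Subtype.ext
    funext y
    have hy : (t : G) * y * (t : G)⁻¹ ∈ X := by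
      have : ((t * ⟨y, hXX' y.2⟩ * t⁻¹ : X') : G) ∈ X := by
        rw [← hk0, hk1, hk1, (hk0 ⟨(y : G), _⟩).mpr y.2]
        simp [k]
      simpa using this
    have := congrFun (congrArg Subtype.val hf) ⟨_, hy⟩
    have h3 : m 1 h1U ⟨_, hy⟩ = y := by
      apply Subtype.ext; simp [m, mul_assoc]
    have h4 : (f : X → K) (m 1 h1U ⟨_, hy⟩) = 0 := this
    rw [h3] at h4
    exact h4
  have hp0c : p0.coeff 0 ≠ 0 := by
    have hdet : LinearMap.det C ≠ 0 := by
      have : IsUnit C := (LinearMap.isUnit_iff_ker_eq_bot C).mpr (LinearMap.ker_eq_bot.mpr hCinj)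
      exact ((LinearMap.isUnit_iff_isUnit_det C).mp this).ne_zero
    rw [LinearMap.det_eq_sign_charpoly_coeff] at hdet
    exact right_ne_zero_of_mul hdet
  have hp0m : p0.Monic := C.charpoly_monic
  have hC0 : ∀ f ∈ F, (Polynomial.aeval (T 1 h1U) p0) f = 0 := by
    intro f hf
    have e1 := intertwine F.subtype C (T 1 h1U) (fun v => rfl) p0 ⟨f, hf⟩
    have e2 : Polynomial.aeval C p0 = 0 := C.aeval_self_charpoly
    rw [e2] at e1
    exact e1.symm
  have hpow : ∀ u hu (n : ℕ), ∀ f ∈ F, ((T u hu) ^ n) f ∈ F := fun u hu n f hf =>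
    pow_pres (T u hu) F (hTF u hu) n f hf
  have hdiff : ∀ u hu (q : Polynomial K) (i : ℕ), ∀ f ∈ F, f ∈ P K (U.subgroupOf X) (i + 1) →
      (Polynomial.aeval (T u hu) q) f - (Polynomial.aeval (T 1 h1U) q) f ∈
        F ⊓ P K (U.subgroupOf X) i := by
    intro u hu q i f hf hfi
    induction q using Polynomial.induction_on' with
    | add p q hp hq =>
      simp only [map_add, LinearMap.add_apply]
      have := Submodule.add_mem _ hp hq
      convert this using 1
      abel
    | monomial n c =>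
      rw [← Polynomial.C_mul_X_pow_eq_monomial, map_mul, map_mul, Polynomial.aeval_C,
        Polynomial.aeval_C, map_pow, map_pow, Polynomial.aeval_X, Polynomial.aeval_X]
      have hn : ((T u hu) ^ n) f - ((T 1 h1U) ^ n) f ∈ F ⊓ P K (U.subgroupOf X) i := by
        induction n with
        | zero => simp
        | succ n ih =>
          rw [pow_succ', pow_succ']
          have e1 : (T u hu * (T u hu) ^ n) f - (T 1 h1U * (T 1 h1U) ^ n) f
              = T u hu (((T u hu) ^ n) f - ((T 1 h1U) ^ n) f)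
                + (T u hu (((T 1 h1U) ^ n) f) - T 1 h1U (((T 1 h1U) ^ n) f)) := by
            rw [map_sub]
            show T u hu (((T u hu) ^ n) f) - T 1 h1U (((T 1 h1U) ^ n) f) = _
            abel
          rw [e1]
          apply Submodule.add_mem
          · exact ⟨hTF u hu _ ih.1, hTP u hu i _ ih.2⟩
          · set g := ((T 1 h1U) ^ n) f with hg
            have hgF : g ∈ F := hpow 1 h1U n f hf
            have hgP : g ∈ P K (U.subgroupOf X) (i + 1) :=
              pow_pres (T 1 h1U) _ (hTP 1 h1U (i + 1)) n f hfi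
            refine ⟨F.sub_mem (hTF u hu _ hgF) (hTF 1 h1U _ hgF), ?_⟩
            have e2 : T u hu g - T 1 h1U g = T 1 h1U (D K ⟨u, h1 hu⟩ g) := by
              funext y
              have e3 : m u hu y = m 1 h1U y * ⟨u, h1 hu⟩ := by
                apply Subtype.ext; simp [m, mul_assoc]
              show g (m u hu y) - g (m 1 h1U y) = g (m 1 h1U y * ⟨u, h1 hu⟩) - g (m 1 h1U y)
              rw [e3]
            rw [e2]
            exact hTP 1 h1U i _ (mem_P_succ.mp hgP ⟨u, h1 hu⟩ hu)
      have := Submodule.smul_mem (F ⊓ P K (U.subgroupOf X) i) c hn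
      rw [smul_sub] at this
      exact this
  have hann : ∀ u hu, ∀ i : ℕ, ∀ f ∈ F, f ∈ P K (U.subgroupOf X) i →
      ((Polynomial.aeval (T u hu) p0) ^ i) f = 0 := by
    intro u hu i
    induction i with
    | zero => intro f _ hf; rw [mem_P_zero] at hf; subst hf; simp
    | succ i ih =>
      intro f hf hfi
      rw [pow_succ]
      have h5 := hdiff u hu p0 i f hf hfi
      rw [hC0 f hf, sub_zero] at h5
      exact ih _ h5.1 h5.2
  set p := p0 ^ d with hp
  have hpne : p ≠ 0 := (hp0m.pow d).ne_zero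
  have hpc : p.coeff 0 ≠ 0 := by
    rw [hp, Polynomial.coeff_zero_eq_eval_zero, Polynomial.eval_pow,
      ← Polynomial.coeff_zero_eq_eval_zero]
    exact pow_ne_zero _ hp0c
  have hpann : ∀ u hu, ∀ f ∈ F, (Polynomial.aeval (T u hu) p) f = 0 := by
    intro u hu f hf
    rw [hp, map_pow]
    exact hann u hu d f hf (hd hf)
  have hRfin : Module.Finite K (Rec p) := finite_Rec p hpne hpc
  obtain ⟨n, z, b, hbF, hint⟩ := interp F
  -- the big finite dimensional space
  let E1 : Submodule K (X' → K) := F.map (LinearMap.funLeft K K r)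
  let E2 : Submodule K (X' → K) := (Rec p).map (LinearMap.funLeft K K k)
  have hE1 : E1.FG := (Module.Finite.iff_fg.mp hfin).map _
  have hE2 : E2.FG := (Module.Finite.iff_fg.mp hRfin).map _
  have hE : (E1 * E2).FG := hE1.mul hE2
  have h1' : U ≤ X' := h1.trans hXX'
  have hkθ : ∀ θ ∈ Gam G0 U, ∀ (x : X') (h : θ (x : G) ∈ X'), k ⟨θ x, h⟩ = k x := by
    intro θ hθ x h
    have e : (⟨θ x, h⟩ : X') = x * ⟨(x : G)⁻¹ * θ x, h1' (hθ x (h2' x.2))⟩ := by
      apply Subtype.ext; simp
    rw [e, hk1, (hk0 ⟨(x : G)⁻¹ * θ x, _⟩).mpr (h1 (hθ x (h2' x.2))), add_zero]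
  have hPhi : ∀ (a : X') (θ : MulAut G) (hθ : θ ∈ Gam G0 U), ∀ f ∈ F,
      (fun x => f (r (tr X' h1' h2' a θ hθ x))) ∈ E1 * E2 := by
    intro a θ hθ f hf
    set u : G := (t : G)⁻¹ * θ t with hu
    have huU : u ∈ U := hθ t htG
    have htu : θ (t : G) = (t : G) * u := by rw [hu]; group
    have hθtX' : θ (t : G) ∈ X' := Gam_mem h1' h2' hθ t.2
    have hyX : ∀ j : ℤ, (t : G) ^ (-j) * r a * (θ t) ^ j ∈ X := by
      intro j
      have : ((t ^ (-j) * ⟨r a, hXX' (r a).2⟩ * (⟨θ t, hθtX'⟩ : X') ^ j : X') : G) ∈ X := by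
        rw [← hk0, hk1, hk1, hkz, hkz, hkθ θ hθ t, hkt, (hk0 ⟨(r a : G), _⟩).mpr (r a).2]
        ring
      simpa using this
    let y : ℤ → X := fun j => ⟨_, hyX j⟩
    have hy1 : ∀ j, m u huU (y j) = y (j + 1) := by
      intro j
      apply Subtype.ext
      show (t : G)⁻¹ * ((t : G) ^ (-j) * r a * (θ t) ^ j) * ((t : G) * u)
        = (t : G) ^ (-(j + 1)) * r a * (θ t) ^ (j + 1)
      rw [← htu, zpow_add_one, neg_add, add_comm (-j) (-1), zpow_add, zpow_neg_one]
      simp only [mul_assoc]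
    have hyrec : ∀ g ∈ F, (fun j => g (y j)) ∈ Rec p := by
      intro g hg
      have e1 := intertwine (LinearMap.funLeft K K y) (T u huU) (Sh K) (fun v => by
        funext j
        show v (m u huU (y j)) = v (y (j + 1))
        rw [hy1]) p g
      rw [hpann u huU g hg, map_zero] at e1
      exact e1.symm
    have hval : ∀ x : X', r (tr X' h1' h2' a θ hθ x) =
        y (k x) * ⟨θ (r x), Gam_mem h1 h2 hθ (r x).2⟩ := by
      intro x
      apply Subtype.ext
      have e1 : k (tr X' h1' h2' a θ hθ x) = k a + k x := by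
        have : tr X' h1' h2' a θ hθ x = a * ⟨θ x, Gam_mem h1' h2' hθ x.2⟩ := rfl
        rw [this, hk1, hkθ θ hθ]
      rw [hr, e1]
      show (t : G) ^ (-(k a + k x)) * ((a : G) * θ x) =
        (t : G) ^ (-(k x)) * r a * (θ t) ^ (k x) * θ (r x)
      have e2 : θ (x : G) = (θ t) ^ (k x) * θ (r x) := by
        conv_lhs => rw [hxr x]
        rw [map_mul, map_zpow]
      rw [e2, hr a, neg_add, add_comm, zpow_add]
      simp only [mul_assoc]
    have e3 : (fun x => f (r (tr X' h1' h2' a θ hθ x))) =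
        ∑ i, (LinearMap.funLeft K K r (fun h => f (tr X h1 h2 (z i) θ hθ h))) *
          (LinearMap.funLeft K K k (fun j => b i (y j))) := by
      funext x
      rw [Finset.sum_apply]
      have h6 := hint (fun w => f (w * ⟨θ (r x), Gam_mem h1 h2 hθ (r x).2⟩))
        (Inv.right hab hF ⟨θ (r x), Gam_mem h1 h2 hθ (r x).2⟩ hf) (y (k x))
      rw [hval x, h6]
      rfl
    rw [e3]
    apply Submodule.sum_mem
    intro i _
    apply Submodule.mul_mem_mul
    · exact Submodule.mem_map_of_mem (hF (z i) θ hθ f hf)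
    · exact Submodule.mem_map_of_mem (hyrec _ (hbF i))
  -- the new space
  let S : Set (X' → K) := {g | ∃ (a : X') (θ : MulAut G) (hθ : θ ∈ Gam G0 U), ∃ f ∈ F,
    g = fun x => f (r (tr X' h1' h2' a θ hθ x))}
  let F' : Submodule K (X' → K) := Submodule.span K S ⊔ Submodule.span K {kf K κ, fun _ => 1}
  have hone : ∀ c : K, (fun _ => c) ∈ F' := by
    intro c
    have : (fun _ : X' => c) = c • (fun _ : X' => (1 : K)) := by funext x; simp
    rw [this]
    exact F'.smul_mem _ (Submodule.mem_sup_right (Submodule.subset_span (by simp)))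
  have hkF : kf K κ ∈ F' := Submodule.mem_sup_right (Submodule.subset_span (by simp))
  have hEf : Module.Finite K ↥(E1 * E2 : Submodule K (X' → K)) := Module.Finite.iff_fg.mpr hE
  have hS : Submodule.span K S ≤ E1 * E2 := by
    rw [Submodule.span_le]
    rintro g ⟨a, θ, hθ, f, hf, rfl⟩
    exact hPhi a θ hθ f hf
  refine ⟨F', r, ?_, ?_, ?_, hkF, hone, ?_, hrmul, ?_⟩
  · have i1 : Module.Finite K ↥(Submodule.span K S) := Submodule.finiteDimensional_of_le hS
    have i2 : Module.Finite K ↥(Submodule.span K {kf K κ, fun _ : X' => (1 : K)}) :=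
      Module.Finite.span_of_finite K (Set.toFinite _)
    infer_instance
  · intro a θ hθ
    have : F' ≤ F'.comap (LinearMap.funLeft K K (tr X' h1' h2' a θ hθ)) := by
      apply sup_le
      · rw [Submodule.span_le]
        rintro g ⟨a', θ', hθ', f, hf, rfl⟩
        apply Submodule.mem_sup_left
        apply Submodule.subset_span
        refine ⟨a' * ⟨θ' a, Gam_mem h1' h2' hθ' a.2⟩, θ' * θ, Gam_mul hUG hθ' hθ, f, hf, ?_⟩
        funext x
        show f (r _) = f (r _)
        congr 2
        apply Subtype.ext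
        simp [tr, mul_assoc]
      · rw [Submodule.span_le]
        rintro g (rfl | rfl)
        · have : LinearMap.funLeft K K (tr X' h1' h2' a θ hθ) (kf K κ)
              = (fun _ => kf K κ a) + kf K κ := by
            funext x
            show kf K κ (tr X' h1' h2' a θ hθ x) = kf K κ a + kf K κ x
            have e1 : k (tr X' h1' h2' a θ hθ x) = k a + k x := by
              have : tr X' h1' h2' a θ hθ x = a * ⟨θ x, Gam_mem h1' h2' hθ x.2⟩ := rfl
              rw [this, hk1, hkθ θ hθ]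
            show ((k (tr X' h1' h2' a θ hθ x) : ℤ) : K) = ((k a : ℤ) : K) + ((k x : ℤ) : K)
            rw [e1]; push_cast; ring
          show LinearMap.funLeft K K (tr X' h1' h2' a θ hθ) (kf K κ) ∈ F'
          rw [this]
          exact F'.add_mem (hone _) hkF
        · exact hone 1
    intro f hf
    exact this hf
  · apply sup_le
    · rw [Submodule.span_le]
      rintro g ⟨a, θ, hθ, f, hf, rfl⟩
      have hrP : (fun x => f (r x)) ∈ P K (U.subgroupOf X') d := by
        apply comp_mem_P' r _ (hd hf)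
        intro v hv
        rw [Subgroup.mem_subgroupOf] at hv
        exact ⟨⟨v, h1 hv⟩, hv, fun y => hrmul y v (h1 hv)⟩
      exact tr_P h1' h2' a θ hθ hrP
    · rw [Submodule.span_le]
      have : ∀ g : X' → K, g ∈ P K (U.subgroupOf X') 1 → g ∈ P K (U.subgroupOf X') d :=
        fun g hg => P_mono _ hd1 hg
      rintro g (rfl | rfl)
      · apply this
        rw [mem_P_one]
        intro u hu x
        rw [Subgroup.mem_subgroupOf] at hu
        show ((k (x * u) : ℤ) : K) = ((k x : ℤ) : K)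
        rw [hk1, (hk0 u).mpr (h1 hu), add_zero]
      · exact this _ (const_mem_P_one _ _)
  · intro f hf
    apply Submodule.mem_sup_left
    apply Submodule.subset_span
    refine ⟨1, 1, by intro x _; simp, f, hf, ?_⟩
    funext x
    show f (r x) = f (r _)
    congr 2
    apply Subtype.ext
    simp [tr]
  · intro x hx
    have : k x = 0 := by simp [k, hx]
    rw [hr, this]; simp

end Step

end Pool.Agent.Helper611.PcGen
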