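import Mathlib
import Pool.Agent.Helper611.PcGen

set_option autoImplicit false

namespace Pool.Agent.Helper611.PcChain

open Module Pool.Agent.Helper611.PcFun Pool.Agent.Helper611.PcUni Pool.Agent.Helper611.PcGen
open scoped commutatorElement

/-- Chains of subgroups whose steps are kernels of homomorphisms to the integers. -/
inductive Chain {G : Type*} [Group G] : Subgroup G → Subgroup G → Prop
  | refl (L : Subgroup G) : Chain L L
  | step {L R R' : Subgroup G} (h : Chain L R) (hle : R ≤ R') (κ : ↥R' →* Multiplicative ℤ)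
      (hκ : ∀ x : ↥R', κ x = 1 ↔ (x : G) ∈ R) : Chain L R'

variable {G : Type*} [Group G]

theorem Chain.le {L R : Subgroup G} (h : Chain L R) : L ≤ R := by
  induction h with
  | refl => exact le_rfl
  | step _ hle _ _ ih => exact ih.trans hle

theorem Chain.inf {L R : Subgroup G} (h : Chain L R) (S : Subgroup G) :
    Chain (L ⊓ S) (R ⊓ S) := by
  induction h with
  | refl => exact Chain.refl _
  | @step R R' h hle κ hκ ih =>
    refine ih.step (inf_le_inf_right S hle) (κ.comp (Subgroup.inclusion inf_le_left)) ?_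
    intro x
    rw [MonoidHom.comp_apply, hκ]
    constructor
    · intro hx; exact ⟨hx, x.2.2⟩
    · intro hx; exact hx.1

theorem Chain.comap {Q : Type*} [Group Q] (f : G →* Q) {L R : Subgroup Q} (h : Chain L R) :
    Chain (L.comap f) (R.comap f) := by
  induction h with
  | refl => exact Chain.refl _
  | @step R R' h hle κ hκ ih =>
    let g : ↥(R'.comap f) →* ↥R' :=
      { toFun := fun x => ⟨f x, x.2⟩
        map_one' := by apply Subtype.ext; simp
        map_mul' := fun x y => by apply Subtype.ext; simp }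
    refine ih.step (Subgroup.comap_mono hle) (κ.comp g) ?_
    intro x
    rw [MonoidHom.comp_apply, hκ]
    rfl

theorem norm_step {R R' : Subgroup G} (κ : ↥R' →* Multiplicative ℤ)
    (hκ : ∀ x : ↥R', κ x = 1 ↔ (x : G) ∈ R) :
    R' ≤ R ∨ ∃ (κ' : ↥R' →* Multiplicative ℤ) (t : ↥R'), (∀ x : ↥R', κ' x = 1 ↔ (x : G) ∈ R) ∧
      κ' t = Multiplicative.ofAdd 1 := by
  let S : AddSubgroup ℤ := (MonoidHom.toAdditive κ).range.map
    (AddMonoidHom.id ℤ : Additive (Multiplicative ℤ) →+ ℤ)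
  obtain ⟨a, ha⟩ := Int.subgroup_cyclic S
  have hmem : ∀ x : ↥R', Multiplicative.toAdd (κ x) ∈ S := fun x =>
    ⟨_, ⟨x, rfl⟩, rfl⟩
  have hdiv : ∀ x : ↥R', ∃ k : ℤ, Multiplicative.toAdd (κ x) = k * a := by
    intro x
    have := hmem x
    rw [ha, AddSubgroup.mem_closure_singleton] at this
    obtain ⟨k, hk⟩ := this
    exact ⟨k, by rw [← hk]; simp⟩
  by_cases ha0 : a = 0
  · left
    intro x hx
    obtain ⟨k, hk⟩ := hdiv ⟨x, hx⟩
    rw [ha0, mul_zero] at hk
    exact (hκ ⟨x, hx⟩).mp (toAdd_eq_zero.mp hk)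
  · right
    choose k hk using hdiv
    obtain ⟨t, ht⟩ : ∃ t : ↥R', Multiplicative.toAdd (κ t) = a := by
      have : a ∈ S := by rw [ha]; exact AddSubgroup.mem_closure_singleton_self a
      obtain ⟨_, ⟨t, rfl⟩, ht⟩ := this
      exact ⟨Additive.toMul t, ht⟩
    have hkmul : ∀ x y, k (x * y) = k x + k y := by
      intro x y
      have h1 : Multiplicative.toAdd (κ (x * y)) = Multiplicative.toAdd (κ x)
        + Multiplicative.toAdd (κ y) := by rw [map_mul]; rfl
      rw [hk, hk, hk, ← add_mul] at h1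
      exact mul_right_cancel₀ ha0 h1
    refine ⟨MonoidHom.mk' (fun x => Multiplicative.ofAdd (k x)) (fun x y => by
      rw [hkmul]; rfl), t, ?_, ?_⟩
    · intro x
      rw [← hκ x]
      show Multiplicative.ofAdd (k x) = 1 ↔ κ x = 1
      constructor
      · intro h
        have h0 : k x = 0 := h
        have := hk x
        rw [h0, zero_mul] at this
        exact toAdd_eq_zero.mp this
      · intro h
        have := hk x
        rw [h, toAdd_one] at this
        have h0 : k x = 0 := by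
          rcases mul_eq_zero.mp this.symm with h | h
          · exact h
          · exact absurd h ha0
        rw [h0]; rfl
    · show Multiplicative.ofAdd (k t) = Multiplicative.ofAdd 1
      have := hk t
      rw [ht] at this
      have h1 : k t = 1 := by
        have : (k t - 1) * a = 0 := by rw [sub_mul, ← this, one_mul, sub_self]
        rcases mul_eq_zero.mp this with h | h
        · omega
        · exact absurd h ha0
      rw [h1]

/-- Separation of points from the identity. -/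
def Sep {K : Type*} [Field K] {X : Type*} [Group X] (F : Submodule K (X → K)) : Prop :=
  ∀ x : X, (∀ f ∈ F, f x = f 1) → x = 1

section Nil

variable (K : Type*) [Field K] [CharZero K]

theorem step_nil {R R' : Subgroup G} (hle : R ≤ R') (κ : ↥R' →* Multiplicative ℤ) (t : ↥R')
    (hκ : ∀ x : ↥R', κ x = 1 ↔ (x : G) ∈ R) (ht : κ t = Multiplicative.ofAdd 1)
    (n : ℕ) (σ : ↥R →* ↥R) (hσ : ∀ x, (σ x : G) = (t : G)⁻¹ * x * t)
    (hn : ∀ ψ ∈ HomS K ↥R, ((sh K σ - 1) ^ n) ψ = 0) :
    ∃ r : ↥R' → ↥R, (∀ (x : R') (u : G) (hu : u ∈ R), r (x * ⟨u, hle hu⟩) = r x * ⟨u, hu⟩) ∧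
      r 1 = 1 ∧
      (∀ d, ∃ e, ∀ f ∈ P K (⊤ : Subgroup ↥R) d, (fun x => f (r x)) ∈ P K (⊤ : Subgroup ↥R') e) ∧
      ((∃ d, Sep (P K (⊤ : Subgroup ↥R) d)) → ∃ e, Sep (P K (⊤ : Subgroup ↥R') e)) := by
  let k : ↥R' → ℤ := fun x => Multiplicative.toAdd (κ x)
  have hk1 : ∀ x y, k (x * y) = k x + k y := fun x y => by simp [k]
  have hkt : k t = 1 := by simp [k, ht]
  have hk0 : ∀ x : R', k x = 0 ↔ (x : G) ∈ R := fun x => by
    rw [← hκ x]
    exact toAdd_eq_zero
  have hkz : ∀ (n : ℤ) (x : R'), k (x ^ n) = n * k x := fun n x => by simp [k]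
  have hrm : ∀ x : R', (((t ^ (-k x) * x : R')) : G) ∈ R := by
    intro x
    rw [← hk0, hk1, hkz, hkt]; ring
  let r : R' → R := fun x => ⟨_, hrm x⟩
  have hr : ∀ x : R', (r x : G) = (t : G) ^ (-k x) * x := fun x => by
    simp [r]
  have hr1 : ∀ (x : R') (u : G) (hu : u ∈ R), r (x * ⟨u, hle hu⟩) = r x * ⟨u, hu⟩ := by
    intro x u hu
    apply Subtype.ext
    have : k ⟨u, hle hu⟩ = 0 := (hk0 _).mpr hu
    rw [hr, hk1, this, Subgroup.coe_mul, Subgroup.coe_mul, hr, add_zero, mul_assoc]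
  have hr1' : ∀ (x : R') (u : R), r (x * Subgroup.inclusion hle u) = r x * u :=
    fun x u => hr1 x u u.2
  have hr2 : ∀ x : R', r (x * t) = σ (r x) := by
    intro x
    apply Subtype.ext
    rw [hσ, hr, hr, hk1, hkt, neg_add, add_comm, zpow_add, zpow_neg_one, Subgroup.coe_mul]
    simp only [mul_assoc]
  have hr3 : r 1 = 1 := by
    apply Subtype.ext
    rw [hr]; simp [k]
  have hgen : Subgroup.closure (Set.range (Subgroup.inclusion hle) ∪ {t}) = ⊤ := by
    rw [eq_top_iff]
    intro x _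
    have : x = t ^ (k x) * Subgroup.inclusion hle (r x) := by
      apply Subtype.ext
      rw [Subgroup.coe_mul, Subgroup.coe_zpow, Subgroup.coe_inclusion, hr, ← mul_assoc, ← zpow_add]
      simp
    rw [this]
    apply mul_mem
    · apply Subgroup.zpow_mem
      exact Subgroup.subset_closure (Or.inr rfl)
    · exact Subgroup.subset_closure (Or.inl ⟨_, rfl⟩)
  refine ⟨r, hr1, hr3, fun d => lift_poly (Subgroup.inclusion hle) t r σ hgen hr1' hr2 n hn d, ?_⟩
  rintro ⟨d, hd⟩
  refine lift_separates (Subgroup.inclusion hle) t r σ hgen hr1' hr2 hr3 κ ?_ n hn d hd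
  intro x hx hx2
  have h0 : k x = 0 := by simp [k, hx]
  have h1 := congrArg Subtype.val hx2
  rw [hr, h0] at h1
  apply Subtype.ext
  simpa using h1

/-- Conjugation by an element as an endomorphism of a subgroup. -/
def conjHom (R : Subgroup G) (t : G) (h : ∀ x ∈ R, t⁻¹ * x * t ∈ R) : ↥R →* ↥R where
  toFun x := ⟨t⁻¹ * x * t, h x x.2⟩
  map_one' := by apply Subtype.ext; simp
  map_mul' x y := by apply Subtype.ext; simp [mul_assoc]

theorem ker_conj {R R' : Subgroup G} (hle : R ≤ R') (κ : ↥R' →* Multiplicative ℤ)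
    (hκ : ∀ x : ↥R', κ x = 1 ↔ (x : G) ∈ R) (t : ↥R') : ∀ x ∈ R, (t : G)⁻¹ * x * t ∈ R := by
  intro x hx
  have : (((t⁻¹ * ⟨x, hle hx⟩ * t : R')) : G) ∈ R := by
    rw [← hκ, map_mul, map_mul, (hκ ⟨x, hle hx⟩).mpr hx]
    simp
  simpa using this

theorem nil_of_le {R R' : Subgroup G} (hle : R ≤ R') (h : Group.IsNilpotent ↥R') :
    Group.IsNilpotent ↥R := by
  rw [Subgroup.isNilpotent_iff_lowerCentralSeries] at h ⊢
  obtain ⟨n, hn⟩ := h
  exact ⟨n, by rw [eq_bot_iff, ← hn]; exact Subgroup.lowerCentralSeries_mono n hle⟩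

theorem chain_nil {L R : Subgroup G} (h : Chain L R) (hnil : Group.IsNilpotent ↥R) :
    ∃ r : ↥R → ↥L, (∀ (x : R) (u : G) (hu : u ∈ L), r (x * ⟨u, h.le hu⟩) = r x * ⟨u, hu⟩) ∧
      r 1 = 1 ∧
      (∀ d, ∃ e, ∀ f ∈ P K (⊤ : Subgroup ↥L) d, (fun x => f (r x)) ∈ P K (⊤ : Subgroup ↥R) e) ∧
      ((∃ d, Sep (P K (⊤ : Subgroup ↥L) d)) → ∃ e, Sep (P K (⊤ : Subgroup ↥R) e)) := by
  induction h with
  | refl =>
    refine ⟨id, fun x u hu => rfl, rfl, fun d => ⟨d, fun f hf => hf⟩, fun h => h⟩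
  | @step R R' h hle κ hκ ih =>
    have hnilR := nil_of_le hle hnil
    obtain ⟨r, hr1, hr2, hr3, hr4⟩ := ih hnilR
    rcases norm_step κ hκ with hR | ⟨κ', t, hκ', ht⟩
    · obtain rfl : R = R' := le_antisymm hle hR
      exact ⟨r, hr1, hr2, hr3, hr4⟩
    · let σ := conjHom R (t : G) (ker_conj hle κ hκ t)
      obtain ⟨n, hn⟩ := conj_unip (K := K) (Subgroup.inclusion hle) t
        (Subgroup.inclusion_injective hle) σ (fun x => by apply Subtype.ext; rfl)
      obtain ⟨s, hs1, hs2, hs3, hs4⟩ := step_nil K hle κ' t hκ' ht n σ (fun x => rfl) hn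
      refine ⟨fun x => r (s x), ?_, ?_, ?_, fun h => hs4 (hr4 h)⟩
      · intro x u hu
        have := hs1 x u (h.le hu)
        show r (s _) = r (s x) * _
        rw [this]
        exact hr1 _ u hu
      · show r (s 1) = 1
        rw [hs2, hr2]
      · intro d
        obtain ⟨e, he⟩ := hr3 d
        obtain ⟨e', he'⟩ := hs3 e
        exact ⟨e', fun f hf => he' _ (he f hf)⟩

theorem sep_of_chain {R : Subgroup G} (h : Chain ⊥ R) (hnil : Group.IsNilpotent ↥R) :
    ∃ e, Sep (P K (⊤ : Subgroup ↥R) e) := by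
  obtain ⟨r, -, -, -, h4⟩ := chain_nil K h hnil
  refine h4 ⟨0, fun x _ => ?_⟩
  apply Subtype.ext
  exact Subgroup.mem_bot.mp x.2

end Nil

section General

variable (K : Type*) [Field K] [CharZero K]

theorem chain_gen {G0 U X : Subgroup G} (h : Chain U X) (hX : X ≤ G0)
    (hab : ∀ x ∈ G0, ∀ y ∈ G0, x⁻¹ * (y * x * y⁻¹) ∈ U) (hfg : Group.FG ↥U)
    (d : ℕ) (hd : 1 ≤ d) :
    ∃ (F : Submodule K (↥X → K)) (r : ↥X → ↥U), Module.Finite K F ∧ Inv X h.le hX F ∧
      F ≤ P K (U.subgroupOf X) d ∧ (∀ c : K, (fun _ => c) ∈ F) ∧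
      (∀ (x : X) (u : G) (hu : u ∈ U), r (x * ⟨u, h.le hu⟩) = r x * ⟨u, hu⟩) ∧
      (∀ g ∈ P K (⊤ : Subgroup ↥U) d, (fun x => g (r x)) ∈ F) ∧
      (Sep (P K (⊤ : Subgroup ↥U) d) → Sep F) := by
  induction h with
  | refl =>
    have e : U.subgroupOf U = ⊤ := Subgroup.subgroupOf_self U
    refine ⟨P K (U.subgroupOf U) d, id, ?_, ?_, le_rfl, ?_, fun x u hu => rfl, ?_, ?_⟩
    · rw [e]; exact finite_P hfg d
    · intro a θ hθ f hf
      exact tr_P _ _ a θ hθ hf
    · intro c
      exact P_mono _ hd (const_mem_P_one _ c)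
    · intro g hg
      rw [e]; exact hg
    · intro h
      rw [e]; exact h
  | @step X X' h hle κ hκ ih =>
    obtain ⟨F, r, hF1, hF2, hF3, hF4, hF5, hF6, hF7⟩ := ih (hle.trans hX)
    rcases norm_step κ hκ with hR | ⟨κ', t, hκ', ht⟩
    · obtain rfl : X = X' := le_antisymm hle hR
      exact ⟨F, r, hF1, hF2, hF3, hF4, hF5, hF6, hF7⟩
    · obtain ⟨F', s, h1, h2, h3, h4, h5, h6, h7, h8⟩ :=
        gen_step h.le (hle.trans hX) hle hX hab κ' hκ' t ht F hF2 d hF3 hd
      refine ⟨F', fun x => r (s x), h1, h2, h3, h5, ?_, ?_, ?_⟩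
      · intro x u hu
        have := h7 x u (h.le hu)
        show r (s _) = r (s x) * _
        rw [this]
        exact hF5 _ u hu
      · intro g hg
        exact h6 _ (hF6 g hg)
      · intro hsep x hx
        have hk : κ' x = 1 := by
          have := hx _ h4
          simp only [kf, map_one, toAdd_one, Int.cast_zero, Int.cast_eq_zero] at this
          exact this
        have hs1 : s 1 = 1 := by
          apply Subtype.ext
          rw [h8 1 (map_one _)]; rfl
        have := hF7 hsep (s x) (fun f hf => by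
          have := hx _ (h6 f hf)
          simpa [hs1] using this)
        apply Subtype.ext
        rw [← h8 x hk, this]; rfl

end General

end Pool.Agent.Helper611.PcChain
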