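import Mathlib
import Pool.Agent.Helper611.PcChain

set_option autoImplicit false

namespace Pool.Agent.Helper611.PcGrp

open Module Pool.Agent.Helper611.PcChain
open scoped commutatorElement

/-- The maximal condition on subgroups. -/
abbrev MaxC (G : Type*) [Group G] : Prop := ∀ S : Subgroup G, S.FG

variable {G : Type*} [Group G]

theorem MaxC.fg (h : MaxC G) : Group.FG G := Group.fg_def.mpr (h ⊤)

theorem MaxC.sub (h : MaxC G) (S : Subgroup G) : Group.FG ↥S :=
  (Group.fg_iff_subgroup_fg S).mpr (h S)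

theorem MaxC.of_injective {G' : Type*} [Group G'] (h : MaxC G) (f : G' →* G)
    (hf : Function.Injective f) : MaxC G' := by
  intro S
  rw [← Group.fg_iff_subgroup_fg]
  have h1 : Group.FG ↥(S.map f) := h.sub _
  let e := (Subgroup.equivMapOfInjective S f hf).symm
  exact Group.fg_of_surjective (f := e.toMonoidHom) e.surjective

theorem MaxC.of_surjective {G' : Type*} [Group G'] (h : MaxC G) (f : G →* G')
    (hf : Function.Surjective f) : MaxC G' := by
  intro S
  rw [← Group.fg_iff_subgroup_fg]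
  have h1 : Group.FG ↥(S.comap f) := h.sub _
  exact Group.fg_of_surjective (f := f.subgroupComap S)
    (f.subgroupComap_surjective_of_surjective S hf)

theorem MaxC.wf (h : MaxC G) : WellFoundedGT (Subgroup G) := by
  rw [wellFoundedGT_iff_monotone_chain_condition]
  intro a
  obtain ⟨s, hs⟩ := h (⨆ n, a n)
  have hdir : Directed (· ≤ ·) a := a.monotone.directed_le
  have hmem : ∀ x ∈ s, ∃ n, x ∈ a n := by
    intro x hx
    have : x ∈ ⨆ n, a n := by rw [← hs]; exact Subgroup.subset_closure hx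
    exact (Subgroup.mem_iSup_of_directed hdir).mp this
  choose! n hn using hmem
  refine ⟨s.sup n, fun m hm => le_antisymm (a.monotone hm) ?_⟩
  refine (le_iSup a m).trans ?_
  rw [← hs, Subgroup.closure_le]
  intro x hx
  exact a.monotone (Finset.le_sup hx) (hn x hx)

theorem MaxC.exists_max (h : MaxC G) (𝒮 : Set (Subgroup G)) (hne : 𝒮.Nonempty) :
    ∃ M ∈ 𝒮, ∀ S ∈ 𝒮, M ≤ S → S ≤ M := by
  obtain ⟨M, hM, hmax⟩ := h.wf.wf.has_min 𝒮 hne
  refine ⟨M, hM, fun S hS hle => ?_⟩
  by_contra hc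
  exact hmax S hS (lt_of_le_not_ge hle hc)

/-! ### Virtual covering -/

/-- Finitely many translates of `T` cover `P`. -/
def cov (T P : Subgroup G) : Prop := ∃ s : Set G, s.Finite ∧ ∀ g ∈ P, ∃ x ∈ s, x⁻¹ * g ∈ T

theorem cov.mono {T T' P P' : Subgroup G} (h : cov T P) (h1 : T ≤ T') (h2 : P' ≤ P) :
    cov T' P' := by
  obtain ⟨s, hs, h⟩ := h
  exact ⟨s, hs, fun g hg => by
    obtain ⟨x, hx, hxg⟩ := h g (h2 hg)
    exact ⟨x, hx, h1 hxg⟩⟩

theorem cov_of_le {T P : Subgroup G} (h : P ≤ T) : cov T P :=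
  ⟨{1}, Set.finite_singleton 1, fun g hg => ⟨1, rfl, by simpa using h hg⟩⟩

theorem cov.trans {T P Q : Subgroup G} (h1 : cov T P) (h2 : cov P Q) : cov T Q := by
  obtain ⟨s, hs, h1⟩ := h1
  obtain ⟨s', hs', h2⟩ := h2
  refine ⟨Set.image2 (fun x y => x * y) s' s, hs'.image2 _ hs, fun g hg => ?_⟩
  obtain ⟨x, hx, hxg⟩ := h2 g hg
  obtain ⟨y, hy, hyg⟩ := h1 _ hxg
  exact ⟨x * y, ⟨x, hx, y, hy, rfl⟩, by rw [mul_inv_rev, mul_assoc]; exact hyg⟩

theorem cov.inf {T T' P : Subgroup G} (h1 : cov T P) (h2 : cov T' P) : cov (T ⊓ T') P := by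
  obtain ⟨s, hs, h1⟩ := h1
  obtain ⟨s', hs', h2⟩ := h2
  classical
  let c : G × G → G := fun p =>
    if h : ∃ g, p.1⁻¹ * g ∈ T ∧ p.2⁻¹ * g ∈ T' then h.choose else 1
  refine ⟨c '' (s ×ˢ s'), (hs.prod hs').image c, fun g hg => ?_⟩
  obtain ⟨x, hx, hxg⟩ := h1 g hg
  obtain ⟨y, hy, hyg⟩ := h2 g hg
  refine ⟨c (x, y), ⟨(x, y), ⟨hx, hy⟩, rfl⟩, ?_⟩
  have hex : ∃ g, (x, y).1⁻¹ * g ∈ T ∧ (x, y).2⁻¹ * g ∈ T' := ⟨g, hxg, hyg⟩
  have hc : c (x, y) = hex.choose := dif_pos hex
  have hsp := hex.choose_spec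
  rw [hc]
  constructor
  · have := T.mul_mem (T.inv_mem hsp.1) hxg
    simpa [mul_assoc] using this
  · have := T'.mul_mem (T'.inv_mem hsp.2) hyg
    simpa [mul_assoc] using this

theorem cov_iff {T P : Subgroup G} : cov T P ↔ T.relIndex P ≠ 0 := by
  constructor
  · rintro ⟨s, hs, h⟩
    have : Finite s := hs
    have hf : Finite (P ⧸ T.subgroupOf P) := by
      have hx : ∀ q : P ⧸ T.subgroupOf P, ∃ x : s, (x : G)⁻¹ * (q.out : P) ∈ T := by
        intro q
        obtain ⟨x, hx, hxg⟩ := h (q.out : P) (q.out : P).2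
        exact ⟨⟨x, hx⟩, hxg⟩
      choose f hf using hx
      refine Finite.of_injective f ?_
      intro a b hab
      have h1 := hf a
      have h2 := hf b
      rw [hab] at h1
      have h3 := T.mul_mem (T.inv_mem h1) h2
      have h4 : (a.out)⁻¹ * b.out ∈ T.subgroupOf P := by
        rw [Subgroup.mem_subgroupOf]
        simpa [mul_assoc] using h3
      have h5 : (QuotientGroup.mk a.out : P ⧸ T.subgroupOf P) = QuotientGroup.mk b.out :=
        QuotientGroup.eq.mpr h4
      rwa [QuotientGroup.out_eq', QuotientGroup.out_eq'] at h5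
    exact Subgroup.index_ne_zero_of_finite
  · intro h
    have h1 : (T.subgroupOf P).FiniteIndex := ⟨h⟩
    have : Finite (P ⧸ T.subgroupOf P) := Subgroup.finite_quotient_of_finiteIndex
    refine ⟨Set.range (fun q : P ⧸ T.subgroupOf P => ((q.out : P) : G)), Set.finite_range _, ?_⟩
    intro g hg
    refine ⟨_, ⟨QuotientGroup.mk ⟨g, hg⟩, rfl⟩, ?_⟩
    have h4 : (QuotientGroup.mk (QuotientGroup.mk (⟨g, hg⟩ : P) : P ⧸ T.subgroupOf P).out :
        P ⧸ T.subgroupOf P) = QuotientGroup.mk (⟨g, hg⟩ : P) := QuotientGroup.out_eq' _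
    rw [QuotientGroup.eq, Subgroup.mem_subgroupOf] at h4
    simpa using h4

theorem cov_top {T : Subgroup G} : cov T ⊤ ↔ T.FiniteIndex := by
  rw [cov_iff, Subgroup.relIndex_top_right, Subgroup.finiteIndex_iff]

/-! ### Characteristic core -/

theorem finite_hom {R : Type*} [Group R] (hR : Group.FG R) (H : Type*) [Group H] [Finite H] :
    Finite (R →* H) := by
  obtain ⟨S', hS, hfin⟩ := Group.fg_iff.mp hR
  have : Finite S' := hfin
  refine Finite.of_injective (fun (f : R →* H) (s : S') => f s) ?_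
  intro f g hfg
  apply MonoidHom.eq_of_eqOn_dense hS
  intro x hx
  exact congrFun hfg ⟨x, hx⟩

theorem charCore {R : Type*} [Group R] (hR : Group.FG R) (S : Subgroup R) [hS : S.FiniteIndex] :
    ∃ K : Subgroup R, K.Characteristic ∧ K.FiniteIndex ∧ K ≤ S := by
  have hq : Finite (R ⧸ S) := Subgroup.finite_quotient_of_finiteIndex
  let n := Nat.card (R ⧸ S)
  let e : R ⧸ S ≃ Fin n := Finite.equivFin _
  have hfin : Finite (R →* Equiv.Perm (Fin n)) := finite_hom hR _
  refine ⟨⨅ f : R →* Equiv.Perm (Fin n), f.ker, ⟨?_⟩, ?_, ?_⟩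
  · intro φ
    ext x
    simp only [Subgroup.mem_comap, Subgroup.mem_iInf, MonoidHom.mem_ker]
    constructor
    · intro h f
      have := h (f.comp φ.symm.toMonoidHom)
      simpa using this
    · intro h f
      exact h (f.comp φ.toMonoidHom)
  · apply Subgroup.finiteIndex_iInf
    intro f
    infer_instance
  · intro x hx
    rw [Subgroup.mem_iInf] at hx
    have h1 := hx ((e.permCongrHom.toMonoidHom).comp (MulAction.toPermHom R (R ⧸ S)))
    rw [MonoidHom.mem_ker, MonoidHom.comp_apply] at h1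
    have h2 : MulAction.toPermHom R (R ⧸ S) x = 1 :=
      e.permCongrHom.injective (by rw [map_one]; exact h1)
    have h3 := congrArg (fun p => p ((1 : R) : R ⧸ S)) h2
    simp only [MulAction.toPermHom_apply, MulAction.toPerm_apply, Equiv.Perm.one_apply] at h3
    have h4 : ((x * 1 : R) : R ⧸ S) = ((1 : R) : R ⧸ S) := h3
    rw [mul_one, eq_comm, QuotientGroup.eq] at h4
    simpa using h4

/-- Conjugation by an element normalising `R`. -/
def nconj (R : Subgroup G) (g : G) (hg : g ∈ Subgroup.normalizer (R : Set G)) : MulAut ↥R where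
  toFun x := ⟨g * x * g⁻¹, (Subgroup.mem_normalizer_iff.mp hg x).mp x.2⟩
  invFun x := ⟨g⁻¹ * x * g, (Subgroup.mem_normalizer_iff''.mp hg x).mp x.2⟩
  left_inv x := by apply Subtype.ext; simp [mul_assoc]
  right_inv x := by apply Subtype.ext; simp [mul_assoc]
  map_mul' x y := by apply Subtype.ext; simp [mul_assoc]

theorem char_mem {R : Type*} [Group R] {K : Subgroup R} (hK : K.Characteristic) (φ : MulAut R)
    (x : R) : φ x ∈ K ↔ x ∈ K := by
  have := hK.fixed φ
  conv_rhs => rw [← this]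
  rfl

theorem normalizer_map_char {R : Subgroup G} {K : Subgroup ↥R} (hK : K.Characteristic) {g : G}
    (hg : g ∈ Subgroup.normalizer (R : Set G)) :
    g ∈ Subgroup.normalizer ((K.map R.subtype : Subgroup G) : Set G) := by
  rw [Subgroup.mem_normalizer_iff]
  intro h
  constructor
  · rintro ⟨x, hx, rfl⟩
    exact ⟨nconj R g hg x, (char_mem hK _ _).mpr hx, rfl⟩
  · rintro ⟨x, hx, hxe⟩
    refine ⟨(nconj R g hg).symm x, ?_, ?_⟩
    · have := (char_mem hK (nconj R g hg)⁻¹ x).mpr hx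
      exact this
    · show g⁻¹ * x * g = h
      have : (x : G) = g * h * g⁻¹ := hxe
      rw [this]; simp [mul_assoc]

theorem core (hG : MaxC G) {R S : Subgroup G} (hSR : cov S R) :
    ∃ S' : Subgroup G, S' ≤ S ∧ S' ≤ R ∧ cov S' R ∧
      ∀ g ∈ Subgroup.normalizer (R : Set G), g ∈ Subgroup.normalizer (S' : Set G) := by
  have hR : Group.FG ↥R := hG.sub R
  have : (S.subgroupOf R).FiniteIndex := ⟨cov_iff.mp hSR⟩
  obtain ⟨K, hK1, hK2, hK3⟩ := charCore hR (S.subgroupOf R)
  refine ⟨K.map R.subtype, ?_, ?_, ?_, fun g hg => normalizer_map_char hK1 hg⟩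
  · rintro _ ⟨x, hx, rfl⟩
    exact hK3 hx
  · rintro _ ⟨x, hx, rfl⟩
    exact x.2
  · rw [cov_iff]
    have : (K.map R.subtype).subgroupOf R = K := by
      rw [Subgroup.subgroupOf, Subgroup.comap_map_eq_self_of_injective R.subtype_injective]
    rw [Subgroup.relIndex, this]
    exact hK2.index_ne_zero

/-! ### Adjoining an element -/

theorem zpow_conj_mem {S : Subgroup G} {t : G} (ht : t ∈ Subgroup.normalizer (S : Set G)) (k : ℤ)
    {x : G} (hx : x ∈ S) : t ^ k * x * t ^ (-k) ∈ S := by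
  have h := Subgroup.zpow_mem _ ht k
  have := (Subgroup.mem_normalizer_iff.mp h x).mp hx
  rwa [← zpow_neg] at this

theorem zpow_conj_mem' {S : Subgroup G} {t : G} (ht : t ∈ Subgroup.normalizer (S : Set G)) (k : ℤ)
    {x : G} (hx : x ∈ S) : t ^ (-k) * x * t ^ k ∈ S := by
  have := zpow_conj_mem ht (-k) hx
  rwa [neg_neg] at this

/-- The subgroup generated by `S` and an element normalising it. -/
def adj (S : Subgroup G) (t : G) (ht : t ∈ Subgroup.normalizer (S : Set G)) : Subgroup G where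
  carrier := {x | ∃ k : ℤ, t ^ (-k) * x ∈ S}
  one_mem' := ⟨0, by simp⟩
  mul_mem' := by
    rintro x y ⟨k, hk⟩ ⟨l, hl⟩
    refine ⟨k + l, ?_⟩
    have := S.mul_mem (zpow_conj_mem' ht l hk) hl
    convert this using 1
    rw [neg_add, add_comm, zpow_add]
    simp [mul_assoc]
  inv_mem' := by
    rintro x ⟨k, hk⟩
    refine ⟨-k, ?_⟩
    have := zpow_conj_mem ht k (S.inv_mem hk)
    convert this using 1
    simp [mul_assoc]

theorem mem_adj {S : Subgroup G} {t : G} {ht : t ∈ Subgroup.normalizer (S : Set G)} {x : G} :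
    x ∈ adj S t ht ↔ ∃ k : ℤ, t ^ (-k) * x ∈ S := Iff.rfl

theorem le_adj {S : Subgroup G} {t : G} {ht : t ∈ Subgroup.normalizer (S : Set G)} :
    S ≤ adj S t ht := fun x hx => ⟨0, by simpa using hx⟩

theorem self_mem_adj {S : Subgroup G} {t : G} {ht : t ∈ Subgroup.normalizer (S : Set G)} :
    t ∈ adj S t ht := ⟨1, by simp⟩

theorem exists_kappa {S P : Subgroup G} {t : G} (ht : t ∈ Subgroup.normalizer (S : Set G))
    (hP : ∀ x ∈ P, ∃ k : ℤ, t ^ (-k) * x ∈ S)
    (hne : ∀ k : ℤ, t ^ k ∈ S → k = 0) :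
    ∃ κ : ↥P →* Multiplicative ℤ, (∀ x : ↥P, κ x = 1 ↔ (x : G) ∈ S) ∧
      ∀ (x : ↥P) (k : ℤ), t ^ (-k) * x ∈ S → κ x = Multiplicative.ofAdd k := by
  have hu : ∀ (x : G) (k l : ℤ), t ^ (-k) * x ∈ S → t ^ (-l) * x ∈ S → k = l := by
    intro x k l hk hl
    have h1 := S.mul_mem hk (S.inv_mem hl)
    have h2 : t ^ (-k) * x * (t ^ (-l) * x)⁻¹ = t ^ (l - k) := by
      rw [mul_inv_rev, mul_assoc, mul_inv_cancel_left, ← zpow_neg, ← zpow_add]
      congr 1; ring
    rw [h2] at h1
    have := hne _ h1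
    omega
  have hP' : ∀ x : ↥P, ∃ k : ℤ, t ^ (-k) * (x : G) ∈ S := fun x => hP x x.2
  choose k hk using hP'
  have hmul : ∀ x y, k (x * y) = k x + k y := by
    intro x y
    apply hu ((x * y : ↥P) : G) _ _ (hk _)
    have := S.mul_mem (zpow_conj_mem' ht (k y) (hk x)) (hk y)
    convert this using 1
    rw [neg_add, add_comm, zpow_add]
    simp [mul_assoc]
  refine ⟨MonoidHom.mk' (fun x => Multiplicative.ofAdd (k x)) (fun x y => by rw [hmul]; rfl),
    fun x => ?_, fun x l hl => ?_⟩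
  · show Multiplicative.ofAdd (k x) = 1 ↔ _
    constructor
    · intro h
      have h0 : k x = 0 := h
      have := hk x
      rw [h0] at this
      simpa using this
    · intro h
      have h0 : k x = 0 := hu x _ _ (hk x) (by simpa using h)
      rw [h0]; rfl
  · show Multiplicative.ofAdd (k x) = _
    rw [hu x _ _ (hk x) hl]

/-! ### Polycyclic induction -/

theorem polyInd (hG : MaxC G) (hs : Group.IsSolvable G) (Pr : Subgroup G → Prop) (h0 : Pr ⊥)
    (hstep : ∀ (R : Subgroup G) (t : G) (ht : t ∈ Subgroup.normalizer (R : Set G)),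
      Pr R → Pr (adj R t ht)) : Pr ⊤ := by
  obtain ⟨n, hn⟩ := hs.solvable
  have key : ∀ i ≤ n, Pr (derivedSeries G (n - i)) := by
    intro i
    induction i with
    | zero => intro _; rw [Nat.sub_zero, hn]; exact h0
    | succ i ih =>
      intro hi
      have ihi := ih (by omega)
      set j := n - (i + 1) with hj
      have hj1 : n - i = j + 1 := by omega
      rw [hj1] at ihi
      obtain ⟨M, ⟨hM1, hM2, hM3⟩, hmax⟩ := hG.exists_max
        {R | derivedSeries G (j + 1) ≤ R ∧ R ≤ derivedSeries G j ∧ Pr R}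
        ⟨_, le_rfl, derivedSeries_antitone G (Nat.le_succ j), ihi⟩
      by_contra hcon
      have hne : ∃ t ∈ derivedSeries G j, t ∉ M := by
        by_contra hc
        push Not at hc
        exact hcon (le_antisymm hM2 hc ▸ hM3)
      obtain ⟨t, htD, htM⟩ := hne
      have hcomm : ∀ x ∈ derivedSeries G j, ∀ y ∈ derivedSeries G j, x * y * x⁻¹ * y⁻¹ ∈ M := by
        intro x hx y hy
        apply hM1
        rw [derivedSeries_succ]
        exact Subgroup.commutator_mem_commutator hx hy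
      have ht : t ∈ Subgroup.normalizer (M : Set G) := by
        rw [Subgroup.mem_normalizer_iff]
        intro x
        constructor
        · intro hx
          have := M.mul_mem (hcomm t htD x (hM2 hx)) hx
          simpa using this
        · intro hx
          have h1 : x ∈ derivedSeries G j := by
            have := (derivedSeries G j).mul_mem ((derivedSeries G j).mul_mem
              ((derivedSeries G j).inv_mem htD) (hM2 hx)) htD
            simpa [mul_assoc] using this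
          have := M.mul_mem (M.inv_mem (hcomm t htD x h1)) hx
          simpa [mul_assoc] using this
      have h2 := hmax (adj M t ht) ⟨hM1.trans le_adj, ?_, hstep M t ht hM3⟩ le_adj
      · exact htM (h2 self_mem_adj)
      · rintro x ⟨k, hk⟩
        have := (derivedSeries G j).mul_mem ((derivedSeries G j).zpow_mem htD k) (hM2 hk)
        simpa using this
  have := key n le_rfl
  rwa [Nat.sub_self, derivedSeries_zero] at this

/-- Covering in an extension by an infinite cyclic group. -/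
theorem cov_adj {R S : Subgroup G} {t : G} (ht : t ∈ Subgroup.normalizer (R : Set G))
    (hS : cov S R) (m : ℕ) (hm : 0 < m) (htS : t ^ m ∈ Subgroup.normalizer (S : Set G)) :
    cov (adj S (t ^ m) htS) (adj R t ht) := by
  obtain ⟨s, hs, h⟩ := hS
  refine ⟨Set.image2 (fun (j : ℕ) (x : G) => t ^ j * x) (Set.Iio m) s,
    (Set.finite_Iio m).image2 _ hs, ?_⟩
  rintro g ⟨k, hk⟩
  -- write `g = t ^ k r` and `k = j + m q`
  set r := t ^ (-k) * g with hr
  have hmz : (m : ℤ) ≠ 0 := by positivity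
  set j := (k % m).toNat with hj
  have hj0 : 0 ≤ k % (m : ℤ) := Int.emod_nonneg k hmz
  have hjz : (j : ℤ) = k % m := Int.toNat_of_nonneg hj0
  have hjm : j < m := by
    have := Int.emod_lt_of_pos k (by positivity : (0 : ℤ) < m)
    omega
  set q := k / m with hq
  have hkq : k = j + m * q := by
    rw [hjz, hq]; exact (Int.emod_add_mul_ediv k m).symm
  have hr' := zpow_conj_mem ht (m * q) hk
  obtain ⟨x, hx, hxr⟩ := h _ hr'
  refine ⟨t ^ j * x, ⟨j, hjm, x, hx, rfl⟩, q, ?_⟩
  have h1 := zpow_conj_mem' htS q hxr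
  convert h1 using 1
  have e1 : (t ^ m : G) ^ q = t ^ (m * q : ℤ) := by rw [zpow_mul]; simp
  have e2 : (t ^ m : G) ^ (-q) = t ^ (-(m * q) : ℤ) := by rw [zpow_neg, e1, zpow_neg]
  rw [e1, e2]
  have e3 : (t ^ j : G) = t ^ (j : ℤ) := (zpow_natCast t j).symm
  rw [e3]
  have e4 : t ^ (-k) = t ^ (-(m * q) : ℤ) * t ^ (-(j : ℤ)) := by
    rw [← zpow_add]; congr 1; rw [hkq]; ring
  rw [hr, e4]
  simp [mul_assoc]

theorem cov_adj_fin {R : Subgroup G} {t : G} (ht : t ∈ Subgroup.normalizer (R : Set G))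
    (k : ℤ) (hk : k ≠ 0) (hkR : t ^ k ∈ R) : cov R (adj R t ht) := by
  obtain ⟨m, hm, hmR⟩ : ∃ m : ℕ, 0 < m ∧ t ^ m ∈ R := by
    refine ⟨k.natAbs, Int.natAbs_pos.mpr hk, ?_⟩
    rw [← zpow_natCast]
    rcases Int.natAbs_eq k with h | h
    · rwa [← h]
    · have h' : ((k.natAbs : ℕ) : ℤ) = -k := by omega
      rw [h', zpow_neg]
      exact R.inv_mem hkR
  have htm : t ^ m ∈ Subgroup.normalizer (R : Set G) := Subgroup.pow_mem _ ht m
  refine (cov_adj ht (cov_of_le le_rfl) m hm htm).mono ?_ le_rfl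
  rintro x ⟨l, hl⟩
  have := R.mul_mem (R.zpow_mem hmR l) hl
  simpa using this

/-- Virtual polycyclic induction. -/
theorem virtInd (hG : MaxC G) (hs : Group.IsSolvable G) (Qr : Subgroup G → Prop)
    (hered : ∀ S S' : Subgroup G, S' ≤ S → Qr S → Qr S') (h0 : Qr ⊥)
    (hstep : ∀ (R S : Subgroup G) (t : G), S ≤ R → cov S R →
      t ∈ Subgroup.normalizer (R : Set G) → t ∈ Subgroup.normalizer (S : Set G) →
      (∀ k : ℤ, t ^ k ∈ R → k = 0) → Qr S →
      ∃ S' : Subgroup G, cov S' S ∧ ∃ (m : ℕ) (_ : 0 < m)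
        (h : t ^ m ∈ Subgroup.normalizer (S' : Set G)), Qr (adj S' (t ^ m) h)) :
    ∃ T : Subgroup G, T.FiniteIndex ∧ Qr T := by
  have key : ∃ T : Subgroup G, cov T ⊤ ∧ Qr T := by
    apply polyInd hG hs (fun P => ∃ T : Subgroup G, cov T P ∧ Qr T)
    · exact ⟨⊥, cov_of_le le_rfl, h0⟩
    · rintro R t ht ⟨T, hT1, hT2⟩
      by_cases hk : ∃ k : ℤ, k ≠ 0 ∧ t ^ k ∈ R
      · obtain ⟨k, hk, hkR⟩ := hk
        exact ⟨T, hT1.trans (cov_adj_fin ht k hk hkR), hT2⟩
      · push Not at hk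
        obtain ⟨S, hS1, hS2, hS3, hS4⟩ := core hG hT1
        obtain ⟨S', hS', m, hm, htm, hQ⟩ := hstep R S t hS2 hS3 ht (hS4 t ht)
          (fun k hkR => by by_contra hc; exact hk k hc hkR) (hered T S hS1 hT2)
        exact ⟨_, cov_adj ht (hS'.trans hS3) m hm htm, hQ⟩
  obtain ⟨T, hT1, hT2⟩ := key
  exact ⟨T, cov_top.mp hT1, hT2⟩

/-- Every polycyclic group has a subgroup of finite index with an infinite cyclic series. -/
theorem exists_chain (hG : MaxC G) (hs : Group.IsSolvable G) :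
    ∃ T : Subgroup G, T.FiniteIndex ∧ Chain ⊥ T := by
  apply virtInd hG hs (fun S => Chain ⊥ S)
  · intro S S' h hS
    have := hS.inf S'
    rwa [bot_inf_eq, inf_eq_right.mpr h] at this
  · exact Chain.refl _
  · intro R S t hSR _ _ htS hne hS
    have htS' : t ^ 1 ∈ Subgroup.normalizer (S : Set G) := by rwa [pow_one]
    refine ⟨S, cov_of_le le_rfl, 1, one_pos, htS', ?_⟩
    obtain ⟨κ, hκ, -⟩ := exists_kappa (P := adj S (t ^ 1) htS') htS' (fun x hx => hx)
      (fun k hk => hne k (hSR (by simpa using hk)))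
    exact hS.step le_adj κ hκ

/-- Residual finiteness. -/
theorem exists_avoid (hG : MaxC G) (hs : Group.IsSolvable G) (x : G) (hx : x ≠ 1) :
    ∃ T : Subgroup G, T.FiniteIndex ∧ x ∉ T := by
  apply virtInd hG hs (fun S => x ∉ S)
  · intro S S' h hS hx'
    exact hS (h hx')
  · simpa using hx
  · intro R S t hSR _ _ htS hne hS
    by_cases hk : ∃ k : ℤ, t ^ (-k) * x ∈ S
    · obtain ⟨k, hk⟩ := hk
      refine ⟨S, cov_of_le le_rfl, k.natAbs + 1, Nat.succ_pos _, Subgroup.pow_mem _ htS _, ?_⟩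
      rintro ⟨l, hl⟩
      have h1 := S.mul_mem hk (S.inv_mem hl)
      have h2 : t ^ (-k) * x * ((t ^ (k.natAbs + 1)) ^ (-l) * x)⁻¹
          = t ^ (((k.natAbs + 1 : ℕ) : ℤ) * l - k) := by
        rw [mul_inv_rev, mul_assoc, mul_inv_cancel_left, ← zpow_neg, neg_neg,
          ← zpow_natCast t (k.natAbs + 1), ← zpow_mul, ← zpow_add]
        congr 1; ring
      rw [h2] at h1
      have h3 := hne _ (hSR h1)
      have h4 : ((k.natAbs + 1 : ℕ) : ℤ) * l = k := by linarith
      have h5 : l = 0 := by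
        by_contra hl0
        have h6 : k.natAbs = (k.natAbs + 1) * l.natAbs := by
          conv_lhs => rw [← h4]
          rw [Int.natAbs_mul, Int.natAbs_natCast]
        have h7 : 1 ≤ l.natAbs := Int.natAbs_pos.mpr hl0
        have h8 := Nat.le_mul_of_pos_right (k.natAbs + 1) h7
        omega
      rw [h5] at hl
      apply hS
      simpa using hl
    · have htS' : t ^ 1 ∈ Subgroup.normalizer (S : Set G) := by rwa [pow_one]
      refine ⟨S, cov_of_le le_rfl, 1, one_pos, htS', ?_⟩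
      rintro ⟨k, hk'⟩
      exact hk ⟨k, by simpa using hk'⟩

theorem exists_avoid_finite (hG : MaxC G) (hs : Group.IsSolvable G) (s : Set G) (hf : s.Finite)
    (h1 : (1 : G) ∉ s) : ∃ T : Subgroup G, T.FiniteIndex ∧ T.Normal ∧ ∀ x ∈ s, x ∉ T := by
  have : Finite s := hf
  have h : ∀ x : s, ∃ T : Subgroup G, T.FiniteIndex ∧ (x : G) ∉ T := fun x =>
    exists_avoid hG hs x (fun h => h1 (h ▸ x.2))
  choose T hT1 hT2 using h
  have hfi : (⨅ x, T x).FiniteIndex := Subgroup.finiteIndex_iInf hT1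
  refine ⟨(⨅ x, T x).normalCore, inferInstance, inferInstance, fun x hx hxT => ?_⟩
  have := Subgroup.normalCore_le _ hxT
  rw [Subgroup.mem_iInf] at this
  exact hT2 ⟨x, hx⟩ (this ⟨x, hx⟩)

end Pool.Agent.Helper611.PcGrp
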