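import Mathlib
import Pool.Agent.Helper611.PcGrp

set_option autoImplicit false

namespace Pool.Agent.Helper611.PcFit

open Pool.Agent.Helper611.PcGrp Pool.Agent.Helper611.PcChain
open scoped commutatorElement

variable {G : Type*} [Group G]

theorem comm_le_iff (T X L : Subgroup G) [T.Normal] :
    ⁅X, L⁆ ≤ T ↔ X ≤ (Subgroup.centralizer ((L.map (QuotientGroup.mk' T) : Subgroup (G ⧸ T)) :
      Set (G ⧸ T))).comap (QuotientGroup.mk' T) := by
  rw [← Subgroup.map_le_iff_le_comap, ← Subgroup.commutator_eq_bot_iff_le_centralizer,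
    ← Subgroup.map_commutator, Subgroup.map_eq_bot_iff, QuotientGroup.ker_mk']

theorem comm_iSup_le {ι : Type*} (T L : Subgroup G) [T.Normal] (X : ι → Subgroup G)
    (h : ∀ i, ⁅X i, L⁆ ≤ T) : ⁅⨆ i, X i, L⁆ ≤ T := by
  rw [comm_le_iff]
  exact iSup_le fun i => (comm_le_iff T (X i) L).mp (h i)

theorem comm_sup_le (T X L M : Subgroup G) [T.Normal] (h1 : ⁅X, L⁆ ≤ T) (h2 : ⁅X, M⁆ ≤ T) :
    ⁅X, L ⊔ M⁆ ≤ T := by
  rw [Subgroup.commutator_comm] at h1 h2 ⊢
  rw [comm_le_iff] at h1 h2 ⊢
  exact sup_le h1 h2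

/-- The shifted lower central series. -/
def ser (H : Subgroup G) : ℕ → Subgroup G
  | 0 => ⊤
  | n + 1 => H.lowerCentralSeries n

instance ser_normal (H : Subgroup G) [H.Normal] (n : ℕ) : (ser H n).Normal := by
  cases n with
  | zero => exact Subgroup.normal_of_characteristic ⊤
  | succ n => exact Subgroup.lowerCentralSeries_normal H n

theorem ser_comm (H : Subgroup G) [H.Normal] (n : ℕ) : ⁅ser H n, H⁆ ≤ ser H (n + 1) := by
  cases n with
  | zero => exact Subgroup.commutator_le_right ⊤ H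
  | succ n => exact le_rfl

theorem fitting (H K : Subgroup G) [H.Normal] [K.Normal] (h1 : Group.IsNilpotent ↥H)
    (h2 : Group.IsNilpotent ↥K) : Group.IsNilpotent ↥(H ⊔ K) := by
  rw [Subgroup.isNilpotent_iff_lowerCentralSeries] at h1 h2 ⊢
  obtain ⟨c, hc⟩ := h1
  obtain ⟨d, hd⟩ := h2
  have key : ∀ n, (H ⊔ K).lowerCentralSeries n ≤
      ⨆ i : Fin (n + 2), ser H i ⊓ ser K (n + 1 - i) := by
    intro n
    induction n with
    | zero =>
      rw [Subgroup.lowerCentralSeries_zero]
      apply sup_le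
      · refine le_trans ?_ (le_iSup _ (1 : Fin 2))
        exact le_inf le_rfl le_top
      · refine le_trans ?_ (le_iSup _ (0 : Fin 2))
        exact le_inf le_top le_rfl
    | succ n ih =>
      rw [Subgroup.lowerCentralSeries_succ]
      refine (Subgroup.commutator_mono ih le_rfl).trans ?_
      have hT : (⨆ i : Fin (n + 1 + 2), ser H i ⊓ ser K (n + 1 + 1 - i)).Normal := by
        apply Subgroup.iSup_normal
      apply comm_iSup_le
      intro i
      have hi := i.2
      apply comm_sup_le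
      · refine le_trans ?_ (le_iSup _ (⟨i + 1, by omega⟩ : Fin (n + 1 + 2)))
        apply le_inf
        · exact (Subgroup.commutator_mono inf_le_left le_rfl).trans (ser_comm H i)
        · refine (Subgroup.commutator_mono inf_le_right le_rfl).trans ?_
          have : n + 1 + 1 - (i + 1) = n + 1 - i := by omega
          show ⁅ser K (n + 1 - i), H⁆ ≤ ser K (n + 1 + 1 - (i + 1))
          rw [this]
          exact Subgroup.commutator_le_left _ _
      · refine le_trans ?_ (le_iSup _ (⟨i, by omega⟩ : Fin (n + 1 + 2)))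
        apply le_inf
        · refine (Subgroup.commutator_mono inf_le_left le_rfl).trans ?_
          exact Subgroup.commutator_le_left _ _
        · refine (Subgroup.commutator_mono inf_le_right le_rfl).trans ?_
          have : n + 1 + 1 - (i : ℕ) = (n + 1 - i) + 1 := by omega
          show ⁅ser K (n + 1 - i), K⁆ ≤ ser K (n + 1 + 1 - i)
          rw [this]
          exact ser_comm K _
  refine ⟨c + d + 1, ?_⟩
  rw [eq_bot_iff]
  refine (key _).trans (iSup_le fun i => ?_)
  have hi := i.2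
  by_cases h : c + 1 ≤ i
  · obtain ⟨j, hj⟩ := Nat.exists_eq_add_of_le h
    refine inf_le_left.trans ?_
    have : (i : ℕ) = (c + j) + 1 := by omega
    rw [this]
    show H.lowerCentralSeries (c + j) ≤ ⊥
    rw [← hc]
    exact H.lowerCentralSeries_antitone (Nat.le_add_right c j)
  · refine inf_le_right.trans ?_
    have : c + d + 1 + 1 - (i : ℕ) = (d + (c + 1 - i)) + 1 := by omega
    rw [this]
    show K.lowerCentralSeries (d + (c + 1 - i)) ≤ ⊥
    rw [← hd]
    exact K.lowerCentralSeries_antitone (Nat.le_add_right d _)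

/-- Admissible subgroups: nilpotent, normalised by `K`. -/
def Adm (K H : Subgroup G) : Prop :=
  H ≤ K ∧ K ≤ Subgroup.normalizer (H : Set G) ∧ Group.IsNilpotent ↥H

theorem Adm.normal {K H : Subgroup G} (h : Adm K H) : (H.subgroupOf K).Normal := by
  constructor
  intro x hx g
  rw [Subgroup.mem_subgroupOf] at hx ⊢
  exact (Subgroup.mem_normalizer_iff.mp (h.2.1 g.2) _).mp hx

theorem Adm.sup {K H1 H2 : Subgroup G} (h1 : Adm K H1) (h2 : Adm K H2) : Adm K (H1 ⊔ H2) := by
  have i1 := h1.normal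
  have i2 := h2.normal
  refine ⟨sup_le h1.1 h2.1, ?_, ?_⟩
  · have h3 : ((H1 ⊔ H2).subgroupOf K).Normal := by
      rw [Subgroup.subgroupOf_sup h1.1 h2.1]; infer_instance
    intro g hg
    rw [Subgroup.mem_normalizer_iff]
    have hle : H1 ⊔ H2 ≤ K := sup_le h1.1 h2.1
    intro x
    constructor
    · intro hx
      exact h3.conj_mem ⟨x, hle hx⟩ hx ⟨g, hg⟩
    · intro hx
      have hx' := hle hx
      have := h3.conj_mem ⟨_, hx'⟩ hx ⟨g⁻¹, K.inv_mem hg⟩
      rw [Subgroup.mem_subgroupOf] at this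
      simpa [mul_assoc] using this
  · have n1 : Group.IsNilpotent ↥(H1.subgroupOf K) :=
      (Group.isNilpotent_congr (Subgroup.subgroupOfEquivOfLe h1.1)).mpr h1.2.2
    have n2 : Group.IsNilpotent ↥(H2.subgroupOf K) :=
      (Group.isNilpotent_congr (Subgroup.subgroupOfEquivOfLe h2.1)).mpr h2.2.2
    have n3 := fitting _ _ n1 n2
    rw [← Subgroup.subgroupOf_sup h1.1 h2.1] at n3
    exact (Group.isNilpotent_congr (Subgroup.subgroupOfEquivOfLe (sup_le h1.1 h2.1))).mp n3

/-- The Fitting subgroup of `K`, inside `G`. -/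
def fit (K : Subgroup G) : Subgroup G := sSup {H | Adm K H}

theorem le_fit {K H : Subgroup G} (h : Adm K H) : H ≤ fit K := le_sSup h

theorem adm_bot (K : Subgroup G) : Adm K ⊥ := by
  refine ⟨bot_le, ?_, inferInstance⟩
  intro g _
  rw [Subgroup.mem_normalizer_iff]
  intro x
  simp [Subgroup.mem_bot]

theorem fit_adm (hG : MaxC G) (K : Subgroup G) : Adm K (fit K) := by
  obtain ⟨M, hM, hmax⟩ := hG.exists_max {H | Adm K H} ⟨⊥, adm_bot K⟩
  have : fit K = M := by
    apply le_antisymm
    · apply sSup_le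
      intro H hH
      exact le_sup_right.trans (hmax (M ⊔ H) (Adm.sup hM hH) le_sup_left)
    · exact le_fit hM
  rw [this]; exact hM

theorem Adm.map {K H : Subgroup G} (h : Adm K H) (φ : MulAut G) (hK : ∀ x, φ x ∈ K ↔ x ∈ K) :
    Adm K (H.map φ.toMonoidHom) := by
  refine ⟨?_, ?_, ?_⟩
  · rintro _ ⟨x, hx, rfl⟩
    exact (hK x).mpr (h.1 hx)
  · intro g hg
    rw [Subgroup.mem_normalizer_iff]
    have hg' : φ.symm g ∈ K := by rw [← hK]; simpa using hg
    have := Subgroup.mem_normalizer_iff.mp (h.2.1 hg')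
    intro x
    have e1 : ∀ y, y ∈ H.map φ.toMonoidHom ↔ φ.symm y ∈ H := by
      intro y
      constructor
      · rintro ⟨z, hz, rfl⟩
        simpa using hz
      · intro hy; exact ⟨_, hy, by simp⟩
    rw [e1, e1, this]
    simp
  · have := h.2.2
    exact (Group.isNilpotent_congr (H.equivMapOfInjective φ.toMonoidHom φ.injective)).mp this

theorem fit_map {K : Subgroup G} (φ : MulAut G) (hK : ∀ x, φ x ∈ K ↔ x ∈ K) (hG : MaxC G)
    (x : G) : φ x ∈ fit K ↔ x ∈ fit K := by
  have key : ∀ (ψ : MulAut G), (∀ x, ψ x ∈ K ↔ x ∈ K) → ∀ x, x ∈ fit K → ψ x ∈ fit K := by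
    intro ψ hψ x hx
    exact le_fit ((fit_adm hG K).map ψ hψ) ⟨x, hx, rfl⟩
  constructor
  · intro h
    have h2 : ∀ x, (φ⁻¹ : MulAut G) x ∈ K ↔ x ∈ K := by
      intro y
      rw [← hK ((φ⁻¹ : MulAut G) y)]
      simp
    have := key φ⁻¹ h2 _ h
    simpa using this
  · exact key φ hK x

/-- Compatibility of the Fitting subgroups. -/
theorem fit_of_normal (hG : MaxC G) {K K' : Subgroup G} (hle : K' ≤ K)
    (hn : K ≤ Subgroup.normalizer (K' : Set G)) : fit K' = K' ⊓ fit K := by
  apply le_antisymm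
  · have h1 := fit_adm hG K'
    refine le_inf h1.1 (le_fit ⟨h1.1.trans hle, ?_, h1.2.2⟩)
    intro g hg
    rw [Subgroup.mem_normalizer_iff]
    intro x
    have := fit_map (K := K') (MulAut.conj g) (fun y => by
      rw [MulAut.conj_apply]
      exact (Subgroup.mem_normalizer_iff.mp (hn hg) y).symm) hG x
    rw [MulAut.conj_apply] at this
    exact this.symm
  · have h1 := fit_adm hG K
    refine le_fit ⟨inf_le_left, ?_, nil_of_le inf_le_right h1.2.2⟩
    intro g hg
    rw [Subgroup.mem_normalizer_iff]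
    intro x
    rw [Subgroup.mem_inf, Subgroup.mem_inf]
    have a := Subgroup.mem_normalizer_iff.mp (h1.2.1 (hle hg)) x
    have b := Subgroup.mem_normalizer_iff.mp (hn (hle hg)) x
    rw [a, b]

end Pool.Agent.Helper611.PcFit
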