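import Mathlib

set_option autoImplicit false

namespace Pool.Agent.Helper611.PcNil

theorem nil_of_algHom {K : Type*} [Field K] {A : Type*} [CommRing A] [Algebra K A]
    [Module.Finite K A] (b : A) (h : ∀ χ : A →ₐ[K] AlgebraicClosure K, χ b = 0) :
    IsNilpotent b := by
  rw [nilpotent_iff_mem_prime]
  intro J hJ
  have hart : IsArtinianRing A := IsArtinianRing.of_finite K A
  have hmax : J.IsMaximal := IsArtinianRing.isMaximal_of_isPrime J
  have hfin : Module.Finite K (A ⧸ J) := inferInstance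
  have halg : Algebra.IsAlgebraic K (A ⧸ J) := Algebra.IsAlgebraic.of_finite K _
  let χ : (A ⧸ J) →ₐ[K] AlgebraicClosure K := IsAlgClosed.lift
  have h1 := h (χ.comp (Ideal.Quotient.mkₐ K J))
  have h2 : J ≤ RingHom.ker (χ.comp (Ideal.Quotient.mkₐ K J)).toRingHom := by
    intro x hx
    rw [RingHom.mem_ker]
    show χ (Ideal.Quotient.mk J x) = 0
    rw [Ideal.Quotient.eq_zero_iff_mem.mpr hx, map_zero]
  have h3 : RingHom.ker (χ.comp (Ideal.Quotient.mkₐ K J)).toRingHom ≠ ⊤ := RingHom.ker_ne_top _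
  have h4 := hmax.eq_of_le h3 h2
  rw [h4, RingHom.mem_ker]
  exact h1

theorem exists_reps {Γ T : Type*} [Finite T] (F : Γ → T) :
    ∃ Θ : Set Γ, Θ.Finite ∧ ∀ θ, ∃ η ∈ Θ, F η = F θ := by
  refine ⟨Set.range (fun t : Set.range F => t.2.choose), Set.finite_range _, fun θ => ?_⟩
  exact ⟨_, ⟨⟨F θ, ⟨θ, rfl⟩⟩, rfl⟩, (⟨θ, rfl⟩ : ∃ y, F y = F θ).choose_spec⟩

open scoped IsMulCommutative in
theorem abs_fin {K : Type*} [Field K] {E : Type*} [Ring E] [Algebra K E] [Module.Finite K E]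
    {ι Γ : Type*} (c : ι → E) (hc : ∀ x y, c x * c y = c y * c x) (act : Γ → ι → ι)
    (e : Γ → Eˣ) (he : ∀ θ x, c (act θ x) = ↑(e θ)⁻¹ * c x * ↑(e θ)) :
    ∃ Θ : Set Γ, Θ.Finite ∧ ∀ θ, ∃ η ∈ Θ, ∀ x, IsNilpotent (c (act θ x) - c (act η x)) := by
  let R := Algebra.adjoin K (Set.range c)
  have hcR : ∀ x, c x ∈ R := fun x => Algebra.subset_adjoin ⟨x, rfl⟩
  have hcomm : IsMulCommutative R := Algebra.isMulCommutative_adjoin K (by
    rintro _ ⟨x, rfl⟩ _ ⟨y, rfl⟩; exact hc x y)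
  have hRfin : Module.Finite K R := by
    have : Module.Finite K (Subalgebra.toSubmodule R) := inferInstance
    exact this
  let cj : Γ → (E →ₐ[K] E) := fun θ =>
    { toFun := fun a => ↑(e θ)⁻¹ * a * ↑(e θ)
      map_one' := by simp
      map_mul' := fun a b => by simp [mul_assoc]
      map_zero' := by simp
      map_add' := fun a b => by rw [mul_add, add_mul]
      commutes' := fun r => by
        rw [← Algebra.commutes r, mul_assoc]; simp }
  have hcj : ∀ θ, R ≤ R.comap (cj θ) := by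
    intro θ
    apply Algebra.adjoin_le
    rintro _ ⟨x, rfl⟩
    show ↑(e θ)⁻¹ * c x * ↑(e θ) ∈ R
    rw [← he]; exact hcR _
  let Th : Γ → (R →ₐ[K] R) := fun θ => ((cj θ).comp R.val).codRestrict R (fun r => hcj θ r.2)
  let v0 : (R →ₐ[K] AlgebraicClosure K) → (ι → AlgebraicClosure K) := fun χ x => χ ⟨c x, hcR x⟩
  let v : Γ → (R →ₐ[K] AlgebraicClosure K) → (ι → AlgebraicClosure K) :=
    fun θ χ x => χ ⟨c (act θ x), hcR _⟩
  have hv : ∀ θ χ, v θ χ ∈ Set.range v0 := by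
    intro θ χ
    refine ⟨χ.comp (Th θ), ?_⟩
    funext x
    show χ (Th θ ⟨c x, hcR x⟩) = χ ⟨c (act θ x), hcR _⟩
    congr 1
    apply Subtype.ext
    exact (he θ x).symm
  let F : Γ → ((R →ₐ[K] AlgebraicClosure K) → Set.range v0) := fun θ χ => ⟨v θ χ, hv θ χ⟩
  obtain ⟨Θ, hΘ1, hΘ2⟩ := exists_reps F
  refine ⟨Θ, hΘ1, fun θ => ?_⟩
  obtain ⟨η, hη, hF⟩ := hΘ2 θ
  refine ⟨η, hη, fun x => ?_⟩
  have h1 : IsNilpotent ((⟨c (act θ x), hcR _⟩ : R) - ⟨c (act η x), hcR _⟩) := by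
    apply nil_of_algHom (K := K)
    intro χ
    have h2 := congrFun (congrArg Subtype.val (congrFun hF χ)) x
    have h3 : χ ⟨c (act η x), hcR _⟩ = χ ⟨c (act θ x), hcR _⟩ := h2
    rw [map_sub, h3, sub_self]
  have := h1.map R.val
  simpa using this

end Pool.Agent.Helper611.PcNil
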