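import Mathlib
import Pool.Agent.Helper611.PcFit
import Pool.Agent.Helper611.PcNil

set_option autoImplicit false

namespace Pool.Agent.Helper611.PcAut

open Pool.Agent.Helper611.PcGrp Pool.Agent.Helper611.PcChain Pool.Agent.Helper611.PcFit
open Pool.Agent.Helper611.PcFun Pool.Agent.Helper611.PcUni Pool.Agent.Helper611.PcGen
open Pool.Agent.Helper611.PcNil
open scoped commutatorElement

variable {G : Type*} [Group G]

theorem chain_torsion {L R : Subgroup G} (h : Chain L R) {x : G} (hx : x ∈ R) {k : ℤ}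
    (hk : k ≠ 0) (hxk : x ^ k ∈ L) : x ∈ L := by
  induction h with
  | refl => exact hx
  | @step R R' h hle κ hκ ih =>
    apply ih
    rw [← hκ ⟨x, hx⟩]
    have h1 : κ (⟨x, hx⟩ ^ k) = 1 := (hκ _).mpr (by simpa using h.le hxk)
    rw [map_zpow] at h1
    have h2 : k * Multiplicative.toAdd (κ ⟨x, hx⟩) = 0 := by
      have := congrArg Multiplicative.toAdd h1
      simpa using this
    rcases mul_eq_zero.mp h2 with h3 | h3
    · exact absurd h3 hk
    · exact toAdd_eq_zero.mp h3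

theorem normal_conj' {N : Subgroup G} (hN : N.Normal) (y : G) : ∀ x ∈ N, y⁻¹ * x * y ∈ N := by
  intro x hx
  simpa using hN.conj_mem x hx y⁻¹

/-- An element acting unipotently on the nilpotent radical belongs to it. -/
theorem unip_mem {C0 N : Subgroup G} (hNC : N ≤ C0)
    (hab : ∀ x ∈ C0, ∀ y ∈ C0, x⁻¹ * (y * x * y⁻¹) ∈ N) (hN : N.Normal)
    (hchN : Chain ⊥ N) (hch : Chain N C0) (hfit : N = fit C0) (hnil : Group.IsNilpotent ↥N)
    {y : G} (hy : y ∈ C0) (n : ℕ)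
    (hn : ∀ ψ ∈ HomS ℚ ↥N, ((sh ℚ (conjHom N y (normal_conj' hN y)) - 1) ^ n) ψ = 0) : y ∈ N := by
  by_contra hyN
  have ht : y ∈ Subgroup.normalizer (N : Set G) := by
    rw [Subgroup.mem_normalizer_iff]
    intro x
    constructor
    · intro hx; exact hN.conj_mem x hx y
    · intro hx
      have := hN.conj_mem _ hx y⁻¹
      simpa [mul_assoc] using this
  have hne : ∀ k : ℤ, y ^ k ∈ N → k = 0 := by
    intro k hk
    by_contra hk0
    exact hyN (chain_torsion hch hy hk0 hk)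
  obtain ⟨κ, hκ1, hκ2⟩ := exists_kappa (P := adj N y ht) ht (fun x hx => hx) hne
  have hκt : κ ⟨y, self_mem_adj⟩ = Multiplicative.ofAdd 1 := hκ2 _ 1 (by simp)
  obtain ⟨r, -, -, -, h4⟩ := step_nil ℚ le_adj κ ⟨y, self_mem_adj⟩ hκ1 hκt n
    (conjHom N y (normal_conj' hN y)) (fun x => rfl) hn
  obtain ⟨e, he⟩ := h4 (sep_of_chain ℚ hchN hnil)
  have hYnil : Group.IsNilpotent ↥(adj N y ht) := nilpotent_of_separates (K := ℚ) e he
  have hYC : adj N y ht ≤ C0 := by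
    rintro x ⟨k, hk⟩
    have := C0.mul_mem (C0.zpow_mem hy k) (hNC hk)
    simpa using this
  have hcj : ∀ g ∈ C0, ∀ x ∈ adj N y ht, g * x * g⁻¹ ∈ adj N y ht := by
    intro g hg x hx
    have := (adj N y ht).mul_mem hx (le_adj (hab x (hYC hx) g hg))
    simpa using this
  have hadm : Adm C0 (adj N y ht) := by
    refine ⟨hYC, ?_, hYnil⟩
    intro g hg
    rw [Subgroup.mem_normalizer_iff]
    intro x
    constructor
    · exact hcj g hg x
    · intro hx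
      have := hcj g⁻¹ (C0.inv_mem hg) _ hx
      simpa [mul_assoc] using this
  apply hyN
  rw [hfit]
  exact le_fit hadm self_mem_adj

theorem HomS_conj {N : Subgroup G} {ψ : ↥N → ℚ} (hψ : ψ ∈ HomS ℚ ↥N) (w z : ↥N) :
    ψ (z⁻¹ * w * z) = ψ w := by
  have h1 : ψ (z⁻¹ * w * z) = ψ z⁻¹ + ψ w + ψ z := by rw [hψ, hψ]
  have h2 : ψ z⁻¹ + ψ z = 0 := by
    rw [← hψ, inv_mul_cancel, HomS_one hψ]
  rw [h1]; linarith

theorem ring_nil {E : Type*} [Ring E] {a b b' c : E} (h : IsNilpotent (a - b)) (h1 : c = a * b')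
    (h2 : b * b' = 1) (c1 : a * b' = b' * a) (c2 : b * b' = b' * b) : IsNilpotent (c - 1) := by
  have h3 : c - 1 = (a - b) * b' := by rw [sub_mul, h1, h2]
  rw [h3]
  apply Commute.isNilpotent_mul_right _ h
  show (a - b) * b' = b' * (a - b)
  rw [sub_mul, mul_sub, c1, c2]

theorem aut_finite (hG : MaxC G) {C0 N : Subgroup G} (hNC : N ≤ C0)
    (hab : ∀ x ∈ C0, ∀ y ∈ C0, x⁻¹ * (y * x * y⁻¹) ∈ N)
    (hCchar : ∀ (θ : MulAut G) (x : G), θ x ∈ C0 ↔ x ∈ C0)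
    (hNchar : ∀ (θ : MulAut G) (x : G), θ x ∈ N ↔ x ∈ N)
    (hchN : Chain ⊥ N) (hch : Chain N C0) (hfit : N = fit C0) (hnil : Group.IsNilpotent ↥N) :
    ∃ Θ : Set (MulAut G), Θ.Finite ∧ ∀ θ, ∃ η ∈ Θ, θ * η⁻¹ ∈ Gam C0 N := by
  have hN : N.Normal := ⟨fun x hx g => by
    have := (hNchar (MulAut.conj g) x).mpr hx
    rwa [MulAut.conj_apply] at this⟩
  let V := HomS ℚ ↥N
  have hVfin : Module.Finite ℚ V := by
    have := finite_P (K := ℚ) (hG.sub N) 2
    exact Submodule.finiteDimensional_of_le HomS_le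
  let res : MulAut G → (↥N →* ↥N) := fun θ =>
    { toFun := fun n => ⟨θ n, (hNchar θ n).mpr n.2⟩
      map_one' := by apply Subtype.ext; simp
      map_mul' := fun a b => by apply Subtype.ext; simp }
  let E : MulAut G → Module.End ℚ V := fun θ => (sh ℚ (res θ)).restrict (fun ψ hψ => by
    intro x y
    show ψ (res θ (x * y)) = ψ (res θ x) + ψ (res θ y)
    rw [map_mul, hψ])
  have hE : ∀ θ (ψ : V) (n : ↥N), ((E θ ψ : V) : ↥N → ℚ) n = (ψ : ↥N → ℚ) (res θ n) :=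
    fun θ ψ n => rfl
  have hEinv : ∀ θ : MulAut G, E θ * E θ⁻¹ = 1 := by
    intro θ
    apply LinearMap.ext
    intro ψ
    apply Subtype.ext
    funext n
    show (ψ : ↥N → ℚ) (res θ⁻¹ (res θ n)) = (ψ : ↥N → ℚ) n
    refine congrArg (ψ : ↥N → ℚ) (Subtype.ext ?_)
    show (θ⁻¹ : MulAut G) (θ n) = n
    simp
  let e : MulAut G → (Module.End ℚ V)ˣ := fun θ => ⟨E θ, E θ⁻¹, hEinv θ, by
    have := hEinv θ⁻¹
    rwa [inv_inv] at this⟩
  let c : ↥C0 → Module.End ℚ V := fun x => E (MulAut.conj (x : G)⁻¹)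
  have hc : ∀ x y, c x * c y = c y * c x := by
    intro x y
    apply LinearMap.ext
    intro ψ
    apply Subtype.ext
    funext n
    set w : ↥N := res (MulAut.conj (x : G)⁻¹) (res (MulAut.conj (y : G)⁻¹) n) with hw
    have hz : (x : G)⁻¹ * (y : G)⁻¹ * x * y ∈ N := by
      have := hab x x.2 (y : G)⁻¹ (C0.inv_mem y.2)
      simpa [mul_assoc] using this
    show (ψ : ↥N → ℚ) (res (MulAut.conj (y : G)⁻¹) (res (MulAut.conj (x : G)⁻¹) n))
      = (ψ : ↥N → ℚ) w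
    rw [← HomS_conj ψ.2 w ⟨_, hz⟩]
    refine congrArg (ψ : ↥N → ℚ) (Subtype.ext ?_)
    rw [hw]
    simp [res, mul_assoc]
  have he : ∀ (θ : MulAut G) (x : ↥C0), c ⟨θ x, (hCchar θ x).mpr x.2⟩ =
      ↑(e θ)⁻¹ * c x * ↑(e θ) := by
    intro θ x
    apply LinearMap.ext
    intro ψ
    apply Subtype.ext
    funext n
    show (ψ : ↥N → ℚ) (res (MulAut.conj (θ (x : G))⁻¹) n) =
      (ψ : ↥N → ℚ) (res θ (res (MulAut.conj (x : G)⁻¹) (res θ⁻¹ n)))
    refine congrArg (ψ : ↥N → ℚ) (Subtype.ext ?_)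
    simp [res, mul_assoc]
  obtain ⟨Θ, hΘ1, hΘ2⟩ := abs_fin (K := ℚ) c hc
    (fun (θ : MulAut G) x => ⟨θ x, (hCchar θ x).mpr x.2⟩) e he
  refine ⟨Θ, hΘ1, fun θ => ?_⟩
  obtain ⟨η, hη, hnilp⟩ := hΘ2 θ
  refine ⟨η, hη, ?_⟩
  have key : ∀ x ∈ C0, θ x * (η x)⁻¹ ∈ N := by
    intro x hx
    have hθx : θ x ∈ C0 := (hCchar θ x).mpr hx
    have hηx : η x ∈ C0 := (hCchar η x).mpr hx
    have h1 : IsNilpotent (c ⟨θ x, hθx⟩ - c ⟨η x, hηx⟩) := hnilp ⟨x, hx⟩
    have hmul : ∀ a b : ↥C0, c (a * b) = c a * c b := by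
      intro a b
      apply LinearMap.ext
      intro ψ
      apply Subtype.ext
      funext n
      show (ψ : ↥N → ℚ) (res (MulAut.conj ((a * b : ↥C0) : G)⁻¹) n) =
        (ψ : ↥N → ℚ) (res (MulAut.conj (b : G)⁻¹) (res (MulAut.conj (a : G)⁻¹) n))
      refine congrArg (ψ : ↥N → ℚ) (Subtype.ext ?_)
      simp [res, mul_assoc]
    have hone : c 1 = 1 := by
      apply LinearMap.ext
      intro ψ
      apply Subtype.ext
      funext n
      show (ψ : ↥N → ℚ) (res (MulAut.conj ((1 : ↥C0) : G)⁻¹) n) = (ψ : ↥N → ℚ) n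
      refine congrArg (ψ : ↥N → ℚ) (Subtype.ext ?_)
      simp [res]
    set a : ↥C0 := ⟨θ x, hθx⟩ with ha
    set b : ↥C0 := ⟨η x, hηx⟩ with hb
    have h3 : IsNilpotent (c (a * b⁻¹) - 1) :=
      ring_nil (a := c a) (b := c b) (b' := c b⁻¹) h1 (hmul a b⁻¹)
        (by rw [← hmul, mul_inv_cancel, hone]) (hc a b⁻¹) (hc b b⁻¹)
    obtain ⟨n, hn⟩ := h3
    apply unip_mem hNC hab hN hchN hch hfit hnil (y := θ x * (η x)⁻¹)
      (C0.mul_mem hθx (C0.inv_mem hηx)) n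
    intro ψ hψ
    have h4 : ∀ (m : ℕ) (φ : V), (((sh ℚ (conjHom N (θ x * (η x)⁻¹)
        (normal_conj' hN (θ x * (η x)⁻¹))) - 1) ^ m) (φ : ↥N → ℚ)) =
        (((c (a * b⁻¹) - 1) ^ m) φ : V) := by
      intro m
      induction m with
      | zero => intro φ; rfl
      | succ m ih =>
        intro φ
        rw [pow_succ, pow_succ]
        show ((sh ℚ (conjHom N (θ x * (η x)⁻¹)
          (normal_conj' hN (θ x * (η x)⁻¹))) - 1) ^ m) ((sh ℚ (conjHom N (θ x * (η x)⁻¹)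
          (normal_conj' hN (θ x * (η x)⁻¹))) - 1) (φ : ↥N → ℚ)) =
          (((c (a * b⁻¹) - 1) ^ m) ((c (a * b⁻¹) - 1) φ) : V)
        rw [← ih]
        congr 1
        funext z
        show (φ : ↥N → ℚ) (conjHom N (θ x * (η x)⁻¹) (normal_conj' hN _) z) - (φ : ↥N → ℚ) z
          = (φ : ↥N → ℚ) (res (MulAut.conj ((a * b⁻¹ : ↥C0) : G)⁻¹) z) - (φ : ↥N → ℚ) z
        congr 1
        refine congrArg (φ : ↥N → ℚ) (Subtype.ext ?_)
        simp [res, conjHom, ha, hb, MulAut.conj_apply, mul_assoc]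
    have h5 := h4 n ⟨ψ, hψ⟩
    rw [hn] at h5
    exact h5
  intro x hx
  have hx' : (η⁻¹ : MulAut G) x ∈ C0 := (hCchar _ x).mpr hx
  have h1 := key _ hx'
  have h2 : η ((η⁻¹ : MulAut G) x) = x := by simp
  rw [h2] at h1
  have h3 := hN.conj_mem _ h1 x⁻¹
  rw [MulAut.mul_apply]
  simpa [mul_assoc] using h3

end Pool.Agent.Helper611.PcAut
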