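import Mathlib
import Pool.Agent.Helper611.PcAut

set_option autoImplicit false

namespace Pool.Agent.Helper611.PcMal

open Pool.Agent.Helper611.PcGrp Pool.Agent.Helper611.PcChain Pool.Agent.Helper611.PcFit
open Pool.Agent.Helper611.PcFun Pool.Agent.Helper611.PcUni Pool.Agent.Helper611.PcGen
open Pool.Agent.Helper611.PcNil Pool.Agent.Helper611.PcAut
open scoped commutatorElement

variable {G : Type*} [Group G]

theorem nil_map {G' : Type*} [Group G'] (f : G →* G') (hf : Function.Injective f)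
    (S : Subgroup G) : Group.IsNilpotent ↥(S.map f) ↔ Group.IsNilpotent ↥S :=
  (Group.isNilpotent_congr (S.equivMapOfInjective f hf)).symm

theorem char_normal {C : Subgroup G} (hC : ∀ (θ : MulAut G) (x : G), θ x ∈ C ↔ x ∈ C) :
    C.Normal := ⟨fun x hx g => by
  have := (hC (MulAut.conj g) x).mpr hx
  rwa [MulAut.conj_apply] at this⟩

theorem normal_normalizer {C : Subgroup G} (hC : C.Normal) (g : G) :
    g ∈ Subgroup.normalizer (C : Set G) := by
  rw [Subgroup.mem_normalizer_iff]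
  intro x
  constructor
  · intro hx; exact hC.conj_mem x hx g
  · intro hx
    have := hC.conj_mem _ hx g⁻¹
    simpa [mul_assoc] using this

theorem comm_adm {K : Subgroup G} (hnil : Group.IsNilpotent ↥⁅K, K⁆) : Adm K ⁅K, K⁆ := by
  have hle : ⁅K, K⁆ ≤ K := by
    rw [Subgroup.commutator_le]
    intro a ha b hb
    exact K.mul_mem (K.mul_mem (K.mul_mem ha hb) (K.inv_mem ha)) (K.inv_mem hb)
  refine ⟨hle, ?_, hnil⟩
  intro g hg
  have h1 : ∀ g ∈ K, ∀ x ∈ ⁅K, K⁆, g * x * g⁻¹ ∈ ⁅K, K⁆ := by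
    intro g hg x hx
    have := (⁅K, K⁆ : Subgroup G).mul_mem (Subgroup.commutator_mem_commutator hg (hle hx)) hx
    rw [commutatorElement_def] at this
    simpa using this
  rw [Subgroup.mem_normalizer_iff]
  intro x
  constructor
  · exact h1 g hg x
  · intro hx
    have := h1 g⁻¹ (K.inv_mem hg) _ hx
    simpa [mul_assoc] using this

/-- The data of a good characteristic subgroup of finite index. -/
structure Good (C0 N : Subgroup G) : Prop where
  fin : C0.FiniteIndex
  le : N ≤ C0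
  hab : ∀ x ∈ C0, ∀ y ∈ C0, x⁻¹ * (y * x * y⁻¹) ∈ N
  cchar : ∀ (θ : MulAut G) (x : G), θ x ∈ C0 ↔ x ∈ C0
  nchar : ∀ (θ : MulAut G) (x : G), θ x ∈ N ↔ x ∈ N
  ch1 : Chain ⊥ N
  ch2 : Chain N C0
  hfit : N = fit C0
  nil : Group.IsNilpotent ↥N

theorem refine_good (hG : MaxC G) (hs : Group.IsSolvable G) (K1 : Subgroup G) [K1.FiniteIndex]
    (hK1 : Group.IsNilpotent ↥⁅K1, K1⁆) : ∃ C0 N : Subgroup G, C0 ≤ K1 ∧ Good C0 N := by
  obtain ⟨P1, hP1, hchP⟩ := exists_chain hG hs
  have hfi : (K1 ⊓ P1).FiniteIndex := inferInstance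
  obtain ⟨K, hKc, hKf, hKle⟩ := charCore hG.fg (K1 ⊓ P1)
  have hKchar : ∀ (θ : MulAut G) (x : G), θ x ∈ K ↔ x ∈ K := fun θ x => char_mem hKc θ x
  have hKnil : Group.IsNilpotent ↥⁅K, K⁆ :=
    nil_of_le (Subgroup.commutator_mono (hKle.trans inf_le_left) (hKle.trans inf_le_left)) hK1
  have hchK : Chain ⊥ K := by
    have := hchP.inf K
    rwa [bot_inf_eq, inf_eq_right.mpr (hKle.trans inf_le_right)] at this
  set N1 := fit K with hN1
  have hN1adm := fit_adm hG K
  have hN1char : ∀ (θ : MulAut G) (x : G), θ x ∈ N1 ↔ x ∈ N1 := fun θ x =>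
    fit_map θ (hKchar θ) hG x
  have hN1n : N1.Normal := char_normal hN1char
  have hDN : ⁅K, K⁆ ≤ N1 := le_fit (comm_adm hKnil)
  have hQmax : MaxC (G ⧸ N1) := hG.of_surjective (QuotientGroup.mk' N1)
    (QuotientGroup.mk'_surjective N1)
  have hQs : Group.IsSolvable (G ⧸ N1) :=
    Group.isSolvable_of_surjective (QuotientGroup.mk'_surjective N1)
  obtain ⟨T, hT, hchT⟩ := exists_chain hQmax hQs
  have hchL := hchT.comap (QuotientGroup.mk' N1)
  have hbot : (⊥ : Subgroup (G ⧸ N1)).comap (QuotientGroup.mk' N1) = N1 := by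
    rw [MonoidHom.comap_bot, QuotientGroup.ker_mk']
  rw [hbot] at hchL
  have hLf : (T.comap (QuotientGroup.mk' N1)).FiniteIndex := ⟨by
    rw [Subgroup.index_comap_of_surjective T (QuotientGroup.mk'_surjective N1)]
    exact hT.index_ne_zero⟩
  set L := T.comap (QuotientGroup.mk' N1) with hL
  have hfi2 : (K ⊓ L).FiniteIndex := inferInstance
  obtain ⟨C0, hCc, hCf, hCle⟩ := charCore hG.fg (K ⊓ L)
  have hCchar : ∀ (θ : MulAut G) (x : G), θ x ∈ C0 ↔ x ∈ C0 := fun θ x => char_mem hCc θ x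
  have hCn : C0.Normal := char_normal hCchar
  have hCK : C0 ≤ K := hCle.trans inf_le_left
  have hfitC : fit C0 = C0 ⊓ fit K := fit_of_normal hG hCK (fun g _ => normal_normalizer hCn g)
  refine ⟨C0, C0 ⊓ N1, hCK.trans (hKle.trans inf_le_left), ?_⟩
  refine ⟨hCf, inf_le_left, ?_, hCchar, ?_, ?_, ?_, hfitC.symm, nil_of_le inf_le_right hN1adm.2.2⟩
  · intro x hx y hy
    refine ⟨C0.mul_mem (C0.inv_mem hx) (C0.mul_mem (C0.mul_mem hy hx) (C0.inv_mem hy)), hDN ?_⟩
    have := Subgroup.commutator_mem_commutator (K.inv_mem (hCK hx)) (hCK hy)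
    rw [commutatorElement_def, inv_inv] at this
    simpa [mul_assoc] using this
  · intro θ x
    rw [Subgroup.mem_inf, Subgroup.mem_inf, hCchar, hN1char]
  · have := hchK.inf (C0 ⊓ N1)
    rwa [bot_inf_eq, inf_eq_right.mpr (inf_le_left.trans hCK)] at this
  · have := hchL.inf C0
    rwa [inf_comm N1 C0, inf_eq_right.mpr (hCle.trans inf_le_right)] at this

theorem Gam_inv {C0 N : Subgroup G} (hC : ∀ (θ : MulAut G) (x : G), θ x ∈ C0 ↔ x ∈ C0)
    {θ : MulAut G} (hθ : θ ∈ Gam C0 N) : θ⁻¹ ∈ Gam C0 N := by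
  intro x hx
  have hz : (θ⁻¹ : MulAut G) x ∈ C0 := (hC _ x).mpr hx
  have h1 := hθ _ hz
  have h2 : θ ((θ⁻¹ : MulAut G) x) = x := by simp
  rw [h2] at h1
  have := N.inv_mem h1
  simpa using this

theorem malcev (hG : MaxC G) (hs : Group.IsSolvable G) :
    ∃ T : Subgroup G, T.FiniteIndex ∧ Group.IsNilpotent ↥⁅T, T⁆ := by
  apply virtInd hG hs (fun S => Group.IsNilpotent ↥⁅S, S⁆)
  · intro S S' h hS
    exact nil_of_le (Subgroup.commutator_mono h h) hS
  · exact nil_of_le (Subgroup.commutator_le_left ⊥ ⊥) inferInstance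
  · intro R S t hSR hcov htR htS hne hS
    have hmaxS : MaxC ↥S := hG.of_injective S.subtype S.subtype_injective
    have hsS : Group.IsSolvable ↥S := inferInstance
    have h1 : Group.IsNilpotent ↥⁅(⊤ : Subgroup ↥S), (⊤ : Subgroup ↥S)⁆ := by
      rw [← nil_map S.subtype S.subtype_injective, Subgroup.map_commutator]
      have : (⊤ : Subgroup ↥S).map S.subtype = S := by
        rw [← MonoidHom.range_eq_map, Subgroup.range_subtype]
      rw [this]; exact hS
    obtain ⟨C0, N, -, hgood⟩ := refine_good hmaxS hsS ⊤ h1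
    obtain ⟨Θ, hΘ1, hΘ2⟩ := aut_finite hmaxS hgood.le hgood.hab hgood.cchar hgood.nchar
      hgood.ch1 hgood.ch2 hgood.hfit hgood.nil
    set τ : MulAut ↥S := nconj S t htS with hτ
    have hτz : ∀ (m : ℕ) (x : ↥S), (((τ ^ m) x : ↥S) : G) = t ^ m * x * (t ^ m)⁻¹ := by
      intro m
      induction m with
      | zero => intro x; simp
      | succ m ih =>
        intro x
        rw [pow_succ, MulAut.mul_apply, ih]
        show t ^ m * (t * x * t⁻¹) * (t ^ m)⁻¹ = _
        rw [pow_succ]; simp [mul_assoc]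
    have hfinΘ : Finite Θ := hΘ1
    choose η hη using fun j : ℕ => hΘ2 (τ ^ j)
    obtain ⟨i, j, hij, he⟩ := Finite.exists_ne_map_eq_of_infinite
      (fun j : ℕ => (⟨η j, (hη j).1⟩ : Θ))
    have he' : η i = η j := congrArg Subtype.val he
    have hm : ∃ m : ℕ, 0 < m ∧ τ ^ m ∈ Gam C0 N := by
      have key : ∀ i j : ℕ, i < j → η i = η j → ∃ m : ℕ, 0 < m ∧ τ ^ m ∈ Gam C0 N := by
        intro i j hlt he'
        refine ⟨j - i, Nat.sub_pos_of_lt hlt, ?_⟩
        have h2 := Gam_mul hgood.le (hη j).2 (Gam_inv hgood.cchar (hη i).2)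
        rw [he'] at h2
        have h3 : τ ^ j * (η j)⁻¹ * (τ ^ i * (η j)⁻¹)⁻¹ = τ ^ (j - i) := by
          rw [mul_inv_rev, inv_inv, mul_assoc, inv_mul_cancel_left, ← pow_sub τ hlt.le]
        rwa [h3] at h2
      rcases lt_or_gt_of_ne hij with h | h
      · exact key i j h he'
      · exact key j i h he'.symm
    obtain ⟨m, hm0, hmG⟩ := hm
    set u := t ^ m with hu
    have huS : u ∈ Subgroup.normalizer (S : Set G) := Subgroup.pow_mem _ htS m
    set S' := C0.map S.subtype with hS'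
    set N' := N.map S.subtype with hN'
    have huS' : u ∈ Subgroup.normalizer (S' : Set G) :=
      normalizer_map_char ⟨fun φ => by ext x; exact hgood.cchar φ x⟩ huS
    have huN' : u ∈ Subgroup.normalizer (N' : Set G) :=
      normalizer_map_char ⟨fun φ => by ext x; exact hgood.nchar φ x⟩ huS
    refine ⟨S', ?_, m, hm0, huS', ?_⟩
    · rw [cov_iff]
      have : (C0.map S.subtype).subgroupOf S = C0 := by
        rw [Subgroup.subgroupOf, Subgroup.comap_map_eq_self_of_injective S.subtype_injective]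
      rw [Subgroup.relIndex, this]
      exact hgood.fin.index_ne_zero
    · -- the commutator subgroup is in `N'`
      have hN'nil : Group.IsNilpotent ↥N' := (nil_map S.subtype S.subtype_injective N).mpr hgood.nil
      refine nil_of_le ?_ hN'nil
      set T := adj S' u huS' with hT
      have hNn : N.Normal := char_normal hgood.nchar
      have hS'N' : S' ≤ Subgroup.normalizer (N' : Set G) := by
        rintro _ ⟨x, hx, rfl⟩
        rw [Subgroup.mem_normalizer_iff]
        have hk : ∀ y : ↥S, ∀ z ∈ N', (y : G) * z * (y : G)⁻¹ ∈ N' := by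
          rintro y _ ⟨z, hz, rfl⟩
          exact ⟨y * z * y⁻¹, hNn.conj_mem z hz y, by simp⟩
        intro z
        constructor
        · exact hk x z
        · intro hz
          have := hk x⁻¹ _ hz
          simpa [mul_assoc] using this
      have hTn : T ≤ Subgroup.normalizer (N' : Set G) := by
        rintro x ⟨k, hk⟩
        have := Subgroup.mul_mem _ (Subgroup.zpow_mem _ huN' k) (hS'N' hk)
        simpa using this
      have hN'S' : N' ≤ S' := Subgroup.map_mono hgood.le
      have hN'T : N' ≤ T := hN'S'.trans le_adj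
      have hnormal : (N'.subgroupOf T).Normal := by
        constructor
        intro x hx g
        rw [Subgroup.mem_subgroupOf] at hx ⊢
        exact (Subgroup.mem_normalizer_iff.mp (hTn g.2) _).mp hx
      let q : ↥T →* (↥T ⧸ N'.subgroupOf T) := QuotientGroup.mk' _
      have hq : ∀ x y : ↥T, (x : G)⁻¹ * y ∈ N' → q x = q y := by
        intro x y h
        exact QuotientGroup.eq.mpr h
      have hcomm1 : ∀ x y : ↥T, (x : G) ∈ S' → (y : G) ∈ S' → Commute (q x) (q y) := by
        rintro x y ⟨a, ha, hax⟩ ⟨b, hb, hby⟩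
        show q x * q y = q y * q x
        rw [← map_mul, ← map_mul]
        apply hq
        refine ⟨_, hgood.hab b hb a⁻¹ (C0.inv_mem ha), ?_⟩
        rw [Subgroup.coe_mul, Subgroup.coe_mul, ← hax, ← hby]
        simp [mul_assoc]
      have hcomm2 : ∀ (x : ↥T), (x : G) ∈ S' → Commute (q ⟨u, self_mem_adj⟩) (q x) := by
        rintro x ⟨a, ha, hax⟩
        show q ⟨u, self_mem_adj⟩ * q x = q x * q ⟨u, self_mem_adj⟩
        rw [← map_mul, ← map_mul]
        apply Eq.symm
        apply hq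
        have h5 := hmG a ha
        have h6 : (((τ ^ m) a : ↥S) : G) = u * a * u⁻¹ := hτz m a
        have h7 : u⁻¹ * ((a : G)⁻¹ * (u * a * u⁻¹)) * u ∈ N' := by
          have h8 : (a : G)⁻¹ * (u * a * u⁻¹) ∈ N' := by
            refine ⟨_, h5, ?_⟩
            rw [Subgroup.coe_subtype, Subgroup.coe_mul, h6]; rfl
          exact (Subgroup.mem_normalizer_iff''.mp huN' _).mp h8
        rw [Subgroup.coe_mul, Subgroup.coe_mul, ← hax]
        convert h7 using 1
        simp [mul_assoc]
      rw [Subgroup.commutator_le]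
      intro x hx y hy
      obtain ⟨k, hk⟩ := hx
      obtain ⟨l, hl⟩ := hy
      have hx' : x ∈ T := ⟨k, hk⟩
      have hy' : y ∈ T := ⟨l, hl⟩
      let a : ↥T := ⟨u ^ (-k) * x, le_adj hk⟩
      let b : ↥T := ⟨u ^ (-l) * y, le_adj hl⟩
      let v : ↥T := ⟨u, self_mem_adj⟩
      have ex : (⟨x, hx'⟩ : ↥T) = v ^ k * a := by apply Subtype.ext; simp [v, a]
      have ey : (⟨y, hy'⟩ : ↥T) = v ^ l * b := by apply Subtype.ext; simp [v, b]
      have hc : Commute (q ⟨x, hx'⟩) (q ⟨y, hy'⟩) := by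
        rw [ex, ey, map_mul, map_mul, map_zpow, map_zpow]
        have c1 : Commute (q v) (q a) := hcomm2 a hk
        have c2 : Commute (q v) (q b) := hcomm2 b hl
        have c3 : Commute (q a) (q b) := hcomm1 a b hk hl
        exact ((((Commute.refl (q v)).zpow_zpow k l).mul_right (c2.zpow_left k)).mul_left
          ((c1.symm.zpow_right l).mul_right c3))
      have h9 : q (⟨x, hx'⟩ * ⟨y, hy'⟩ * (⟨x, hx'⟩ : ↥T)⁻¹ * (⟨y, hy'⟩ : ↥T)⁻¹) = 1 := by
        rw [map_mul, map_mul, map_mul, map_inv, map_inv, hc.eq]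
        simp
      have h10 := (QuotientGroup.eq_one_iff _).mp h9
      rw [Subgroup.mem_subgroupOf] at h10
      exact h10

end Pool.Agent.Helper611.PcMal
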