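import Mathlib
import Pool.Agent.Helper611.PcMal

set_option autoImplicit false

namespace Pool.Agent.Helper611.PcV

open Pool.Agent.Helper611.PcGrp Pool.Agent.Helper611.PcChain Pool.Agent.Helper611.PcFit
open Pool.Agent.Helper611.PcFun Pool.Agent.Helper611.PcUni Pool.Agent.Helper611.PcGen
open Pool.Agent.Helper611.PcNil Pool.Agent.Helper611.PcAut Pool.Agent.Helper611.PcMal
open scoped commutatorElement

variable {H : Type*} [Group H]

theorem exists_V (hG : MaxC H) {C0 N : Subgroup H} (hg : Good C0 N) :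
    ∃ (M : ℕ) (V : Submodule ℚ (H → ℚ)), 1 ≤ M ∧ Module.Finite ℚ V ∧
      (∀ a, ∀ f ∈ V, (fun x => f (a * x)) ∈ V) ∧ (∀ a, ∀ f ∈ V, (fun x => f (x * a)) ∈ V) ∧
      (∀ θ : MulAut H, ∀ f ∈ V, (fun x => f (θ x)) ∈ V) ∧ V ≤ P ℚ N M ∧ Sep V := by
  obtain ⟨e, he⟩ := sep_of_chain ℚ hg.ch1 hg.nil
  set d := e + 1 with hd
  have hd1 : 1 ≤ d := by omega
  have hsep : Sep (P ℚ (⊤ : Subgroup ↥N) d) := fun x hx => he x fun f hf =>
    hx f (P_mono _ (Nat.le_succ e) hf)
  obtain ⟨F, -, hF1, hF2, hF3, hF4, -, -, hF7⟩ :=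
    chain_gen ℚ hg.ch2 le_rfl hg.hab (hG.sub N) d hd1
  have hFsep := hF7 hsep
  obtain ⟨Θ, hΘ1, hΘ2⟩ := aut_finite hG hg.le hg.hab hg.cchar hg.nchar hg.ch1 hg.ch2 hg.hfit hg.nil
  let res : MulAut H → ↥C0 → ↥C0 := fun θ x => ⟨θ x, (hg.cchar θ x).mpr x.2⟩
  let V0 : Submodule ℚ (↥C0 → ℚ) := ⨆ θ : MulAut H, F.map (LinearMap.funLeft ℚ ℚ (res θ))
  have hmemV0 : ∀ (θ : MulAut H), ∀ f ∈ F, (fun x => f (res θ x)) ∈ V0 := fun θ f hf =>
    Submodule.mem_iSup_of_mem θ ⟨f, hf, rfl⟩
  have hV0fin : Module.Finite ℚ V0 := by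
    have hfinΘ : Finite Θ := hΘ1
    have h1 : ∀ η : Θ, Module.Finite ℚ ↥(F.map (LinearMap.funLeft ℚ ℚ (res (η : MulAut H)))) :=
      fun η => inferInstance
    have h2 : Module.Finite ℚ ↥(⨆ η : Θ, F.map (LinearMap.funLeft ℚ ℚ (res (η : MulAut H)))) :=
      inferInstance
    apply Submodule.finiteDimensional_of_le (S₂ := ⨆ η : Θ, F.map (LinearMap.funLeft ℚ ℚ
      (res (η : MulAut H))))
    apply iSup_le
    rintro θ _ ⟨f, hf, rfl⟩
    obtain ⟨η, hη, hγ⟩ := hΘ2 θ
    apply Submodule.mem_iSup_of_mem (⟨η, hη⟩ : Θ)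
    refine ⟨_, hF2 1 (θ * η⁻¹) hγ f hf, ?_⟩
    funext x
    show f (tr C0 _ _ 1 (θ * η⁻¹) hγ (res η x)) = f (res θ x)
    congr 1
    apply Subtype.ext
    simp [tr, res]
  -- every element of `V0` satisfies a property closed under addition
  have hV0ind : ∀ (S : Submodule ℚ (↥C0 → ℚ)), (∀ θ : MulAut H, ∀ f ∈ F,
      (fun x => f (res θ x)) ∈ S) → V0 ≤ S := by
    intro S hS
    apply iSup_le
    rintro θ _ ⟨f, hf, rfl⟩
    exact hS θ f hf
  have hV0left : ∀ a : ↥C0, ∀ f ∈ V0, (fun x => f (a * x)) ∈ V0 := by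
    intro a
    have := hV0ind (V0.comap (LinearMap.funLeft ℚ ℚ (fun x : ↥C0 => a * x))) (by
      intro θ f hf
      show (fun x => f (res θ (a * x))) ∈ V0
      have h1 := hmemV0 θ _ (Inv.left hF2 (res θ a) hf)
      convert h1 using 1
      funext x
      congr 1
      apply Subtype.ext
      simp [res])
    exact fun f hf => this hf
  have hV0right : ∀ a : ↥C0, ∀ f ∈ V0, (fun x => f (x * a)) ∈ V0 := by
    intro a
    have := hV0ind (V0.comap (LinearMap.funLeft ℚ ℚ (fun x : ↥C0 => x * a))) (by
      intro θ f hf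
      show (fun x => f (res θ (x * a))) ∈ V0
      have h1 := hmemV0 θ _ (Inv.right hg.hab hF2 (res θ a) hf)
      convert h1 using 1
      funext x
      congr 1
      apply Subtype.ext
      simp [res])
    exact fun f hf => this hf
  have hV0aut : ∀ θ : MulAut H, ∀ f ∈ V0, (fun x => f (res θ x)) ∈ V0 := by
    intro θ
    have := hV0ind (V0.comap (LinearMap.funLeft ℚ ℚ (res θ))) (by
      intro η f hf
      show (fun x => f (res η (res θ x))) ∈ V0
      exact hmemV0 (η * θ) f hf)
    exact fun f hf => this hf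
  have hV0P : V0 ≤ P ℚ (N.subgroupOf C0) d := by
    apply hV0ind
    intro θ f hf
    apply comp_mem_P' (res θ) _ (hF3 hf)
    intro v hv
    rw [Subgroup.mem_subgroupOf] at hv
    refine ⟨res θ v, ?_, ?_⟩
    · rw [Subgroup.mem_subgroupOf]
      exact (hg.nchar θ v).mpr hv
    · intro y
      apply Subtype.ext
      simp [res]
  have hFV0 : F ≤ V0 := by
    intro f hf
    have := hmemV0 1 f hf
    exact this
  have hV0const : ∀ c : ℚ, (fun _ => c) ∈ V0 := fun c => hFV0 (hF4 c)
  have hCn : C0.Normal := char_normal hg.cchar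
  have hNn : N.Normal := char_normal hg.nchar
  -- the extended space
  let V : Submodule ℚ (H → ℚ) :=
    { carrier := {f | ∀ h : H, (fun c : ↥C0 => f (c * h)) ∈ V0}
      add_mem' := fun ha hb h => V0.add_mem (ha h) (hb h)
      zero_mem' := fun h => V0.zero_mem
      smul_mem' := fun c _ hf h => V0.smul_mem c (hf h) }
  refine ⟨d, V, hd1, ?_, ?_, ?_, ?_, ?_, ?_⟩
  · -- finite dimension
    obtain ⟨s, hs, hcov⟩ := cov_top.mpr hg.fin
    have : Finite s := hs
    let L : V →ₗ[ℚ] (s → V0) := LinearMap.pi fun x =>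
      ((LinearMap.funLeft ℚ ℚ (fun c : ↥C0 => (c : H) * (x : H))).comp
        (Submodule.subtype V)).codRestrict V0 (fun f => f.2 x)
    refine Module.Finite.of_injective L ?_
    rw [← LinearMap.ker_eq_bot, LinearMap.ker_eq_bot']
    intro f hf
    apply Subtype.ext
    funext g
    obtain ⟨x, hx, hxg⟩ := hcov g trivial
    have h1 : x * (x⁻¹ * g) * x⁻¹ ∈ C0 := hCn.conj_mem _ hxg x
    have h2 := congrFun (congrArg Subtype.val (congrFun hf ⟨x, hx⟩)) ⟨_, h1⟩
    have h3 : (f : H → ℚ) (x * (x⁻¹ * g) * x⁻¹ * x) = 0 := h2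
    simpa [mul_assoc] using h3
  · intro a f hf h
    have h1 := hV0aut (MulAut.conj a) _ (hf (a * h))
    convert h1 using 1
    funext c
    show f (a * (c * h)) = f (a * c * a⁻¹ * (a * h))
    congr 1
    simp [mul_assoc]
  · intro a f hf h
    have h1 := hf (h * a)
    convert h1 using 1
    funext c
    show f (c * h * a) = _
    rw [mul_assoc]
  · intro θ f hf h
    have h1 := hV0aut θ _ (hf (θ h))
    convert h1 using 1
    funext c
    show f (θ (c * h)) = f (θ c * θ h)
    rw [map_mul]
  · have key : ∀ (i : ℕ) (f : H → ℚ), (∀ h : H, (fun c : ↥C0 => f (c * h)) ∈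
        P ℚ (N.subgroupOf C0) i) → f ∈ P ℚ N i := by
      intro i
      induction i with
      | zero =>
        intro f hf
        rw [mem_P_zero]
        funext h
        have := hf h
        rw [mem_P_zero] at this
        have := congrFun this 1
        simpa using this
      | succ i ih =>
        intro f hf
        rw [mem_P_succ]
        intro n hn
        apply ih
        intro h
        have hn' : h * n * h⁻¹ ∈ N := hNn.conj_mem n hn h
        have := mem_P_succ.mp (hf h) ⟨h * n * h⁻¹, hg.le hn'⟩ hn'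
        convert this using 1
        funext c
        show f (c * h * n) - f (c * h) = f (c * (h * n * h⁻¹) * h) - f (c * h)
        simp [mul_assoc]
    intro f hf
    exact key d f (fun h => hV0P (hf h))
  · intro x hx
    by_cases hxC : x ∈ C0
    · -- extend a function by zero
      have h1 := hFsep ⟨x, hxC⟩ (fun f hf => by
        classical
        let g : H → ℚ := fun y => if hy : y ∈ C0 then f ⟨y, hy⟩ else 0
        have hgV : g ∈ V := by
          intro h
          by_cases hh : h ∈ C0
          · have h2 := hV0right ⟨h, hh⟩ f (hFV0 hf)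
            convert h2 using 1
            funext c
            have : (c : H) * h ∈ C0 := C0.mul_mem c.2 hh
            show (if hy : (c : H) * h ∈ C0 then f ⟨_, hy⟩ else 0) = _
            rw [dif_pos this]; rfl
          · have h2 := hV0const 0
            convert h2 using 1
            funext c
            have : (c : H) * h ∉ C0 := fun hc => hh (by
              have := C0.mul_mem (C0.inv_mem c.2) hc
              simpa using this)
            show (if hy : (c : H) * h ∈ C0 then f ⟨_, hy⟩ else 0) = _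
            rw [dif_neg this]
        have h3 := hx g hgV
        have h4 : g x = f ⟨x, hxC⟩ := dif_pos hxC
        have h5 : g 1 = f 1 := dif_pos C0.one_mem
        rw [← h4, ← h5, h3])
      exact congrArg Subtype.val h1
    · exfalso
      classical
      let g : H → ℚ := fun y => if y ∈ C0 then 1 else 0
      have hgV : g ∈ V := by
        intro h
        by_cases hh : h ∈ C0
        · convert hV0const 1 using 1
          funext c
          exact if_pos (C0.mul_mem c.2 hh)
        · convert hV0const 0 using 1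
          funext c
          exact if_neg (fun hc => hh (by
            have := C0.mul_mem (C0.inv_mem c.2) hc
            simpa using this))
      have h3 := hx g hgV
      have h4 : g x = 0 := if_neg hxC
      have h5 : g 1 = 1 := if_pos C0.one_mem
      rw [h4, h5] at h3
      exact zero_ne_one h3

end Pool.Agent.Helper611.PcV
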