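import Mathlib
import Pool.Agent.Helper611.PcV

set_option autoImplicit false

namespace Pool.Agent.Helper611.PcSet

open Pool.Agent.Helper611.PcGrp Pool.Agent.Helper611.PcChain Pool.Agent.Helper611.PcFit
open Pool.Agent.Helper611.PcFun Pool.Agent.Helper611.PcUni Pool.Agent.Helper611.PcGen
open Pool.Agent.Helper611.PcNil Pool.Agent.Helper611.PcAut Pool.Agent.Helper611.PcMal
open scoped commutatorElement Pointwise

variable {H A : Type*} [Group H] [Group A]

/-- Conjugation by an element of `A`, seen on `H`. -/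
noncomputable def conjH (φ : H →* A) (hφ : Function.Injective φ) (hn : φ.range.Normal) (a : A) :
    MulAut H :=
  ((MonoidHom.ofInjective hφ).trans (MulAut.conjNormal (H := φ.range) a)).trans
    (MonoidHom.ofInjective hφ).symm

theorem conjH_spec (φ : H →* A) (hφ : Function.Injective φ) (hn : φ.range.Normal) (a : A) (h : H) :
    φ (conjH φ hφ hn a h) = a * φ h * a⁻¹ := by
  have h1 : ∀ y : φ.range, φ ((MonoidHom.ofInjective hφ).symm y) = y := by
    intro y
    have := (MonoidHom.ofInjective hφ).apply_symm_apply y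
    exact congrArg Subtype.val this
  show φ ((MonoidHom.ofInjective hφ).symm _) = _
  rw [h1]
  show ((MulAut.conjNormal a (MonoidHom.ofInjective hφ h) : φ.range) : A) = _
  rw [MulAut.conjNormal_apply]
  rfl

theorem map_normal (φ : H →* A) (hφ : Function.Injective φ) (hn : φ.range.Normal) {C : Subgroup H}
    (hC : ∀ (θ : MulAut H) (x : H), θ x ∈ C ↔ x ∈ C) : (C.map φ).Normal := by
  constructor
  rintro _ ⟨x, hx, rfl⟩ a
  exact ⟨conjH φ hφ hn a x, (hC _ _).mpr hx, conjH_spec φ hφ hn a x⟩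

theorem torsion_cov {A0 B : Subgroup A} (hA : MaxC A)
    (hab : ∀ x ∈ A0, ∀ y ∈ A0, x * y * x⁻¹ * y⁻¹ ∈ B)
    (htor : ∀ z ∈ A0, ∃ k : ℤ, k ≠ 0 ∧ z ^ k ∈ B) : cov B A0 := by
  have hnorm : (B.subgroupOf A0).Normal := by
    constructor
    intro x hx g
    rw [Subgroup.mem_subgroupOf] at hx ⊢
    have := B.mul_mem (hab g g.2 x x.2) hx
    simpa using this
  let Q := ↥A0 ⧸ B.subgroupOf A0
  let i1 : CommGroup Q :=
    { (inferInstance : Group Q) with
      mul_comm := by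
        intro a b
        obtain ⟨x, rfl⟩ := QuotientGroup.mk_surjective a
        obtain ⟨y, rfl⟩ := QuotientGroup.mk_surjective b
        rw [← QuotientGroup.mk_mul, ← QuotientGroup.mk_mul, QuotientGroup.eq,
          Subgroup.mem_subgroupOf]
        have := hab _ (A0.inv_mem y.2) _ (A0.inv_mem x.2)
        simpa [mul_assoc] using this }
  have hfgA0 : Group.FG ↥A0 := hA.sub A0
  have hfg : Group.FG Q := Group.fg_of_surjective (f := QuotientGroup.mk' (B.subgroupOf A0))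
    (QuotientGroup.mk'_surjective _)
  have ht : IsMulTorsion Q := by
    intro a
    obtain ⟨x, rfl⟩ := QuotientGroup.mk_surjective a
    obtain ⟨k, hk, hkB⟩ := htor x x.2
    rw [isOfFinOrder_iff_zpow_eq_one]
    refine ⟨k, hk, ?_⟩
    have : ((x ^ k : ↥A0) : Q) = 1 := (QuotientGroup.eq_one_iff _).mpr (by
      rw [Subgroup.mem_subgroupOf]; simpa using hkB)
    exact this
  have hfin : Finite Q := CommGroup.finite_of_fg_isMulTorsion Q ht
  rw [cov_iff]
  exact Subgroup.index_ne_zero_of_finite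

theorem setup (hA : MaxC A) (hs : Group.IsSolvable A) (φ : H →* A) (hφ : Function.Injective φ)
    (hn : φ.range.Normal) {C0 N : Subgroup H} (hg : Good C0 N) (A' : Subgroup A)
    [hA'f : A'.FiniteIndex] (hA' : Group.IsNilpotent ↥⁅A', A'⁆) (hC0 : C0.map φ ≤ A') :
    ∃ (S M1 : Subgroup A), (∀ x ∈ S, x ∈ φ.range → x ∈ N.map φ) ∧ N.map φ ≤ S ∧
      cov (S ⊔ φ.range) ⊤ ∧ Chain (N.map φ) M1 ∧ Chain M1 S ∧ Group.IsNilpotent ↥M1 ∧
      (∀ x ∈ S, ∀ y ∈ S, x⁻¹ * (y * x * y⁻¹) ∈ M1) := by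
  set C := φ.range with hC
  set CA := C0.map φ with hCA
  set NA := N.map φ with hNA
  have hCAn : CA.Normal := map_normal φ hφ hn hg.cchar
  have hNAn : NA.Normal := map_normal φ hφ hn hg.nchar
  have hNC : NA ≤ CA := Subgroup.map_mono hg.le
  have hCC : CA ≤ C := by rintro _ ⟨x, -, rfl⟩; exact ⟨x, rfl⟩
  have hNAnil : Group.IsNilpotent ↥NA := (nil_map φ hφ N).mpr hg.nil
  let q := QuotientGroup.mk' CA
  have hqs : Function.Surjective q := QuotientGroup.mk'_surjective CA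
  have hQmax : MaxC (A ⧸ CA) := hA.of_surjective q hqs
  have hQsol : Group.IsSolvable (A ⧸ CA) := Group.isSolvable_of_surjective hqs
  -- the finite set to avoid
  have hfinr : (Set.range fun h : H => q (φ h)).Finite := by
    obtain ⟨s, hs, hcov⟩ := cov_top.mpr hg.fin
    refine (hs.image (fun h => q (φ h))).subset ?_
    rintro _ ⟨h, rfl⟩
    obtain ⟨x, hx, hxh⟩ := hcov h trivial
    refine ⟨x, hx, ?_⟩
    apply QuotientGroup.eq.mpr
    refine ⟨x⁻¹ * h, hxh, ?_⟩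
    simp
  obtain ⟨T, hTf, hTn, hT⟩ := exists_avoid_finite hQmax hQsol
    ((Set.range fun h : H => q (φ h)) \ {1}) (hfinr.subset Set.sdiff_subset) (by simp)
  set A0 := A'.normalCore ⊓ T.comap q with hA0
  have hTcf : (T.comap q).FiniteIndex := ⟨by
    rw [Subgroup.index_comap_of_surjective T hqs]; exact hTf.index_ne_zero⟩
  have hTcn : (T.comap q).Normal := hTn.comap q
  have hA0f : A0.FiniteIndex := inferInstance
  have hA0n : A0.Normal := Subgroup.normal_inf_normal _ _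
  have hqC : ∀ x ∈ CA, q x = 1 := fun x hx => (QuotientGroup.eq_one_iff x).mpr hx
  have hCA0 : CA ≤ A0 := by
    apply le_inf
    · exact (Subgroup.normal_le_normalCore).mpr hC0
    · intro x hx
      rw [Subgroup.mem_comap, hqC x hx]; exact T.one_mem
  have hA0C : ∀ x ∈ A0, x ∈ C → x ∈ CA := by
    rintro x hx ⟨h, rfl⟩
    by_contra hcon
    apply hT (q (φ h)) ⟨⟨h, rfl⟩, ?_⟩ hx.2
    intro h1
    exact hcon ((QuotientGroup.eq_one_iff _).mp h1)
  have hA0nil : Group.IsNilpotent ↥⁅A0, A0⁆ :=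
    nil_of_le (Subgroup.commutator_mono (inf_le_left.trans (Subgroup.normalCore_le A'))
      (inf_le_left.trans (Subgroup.normalCore_le A'))) hA'
  set M0 := fit A0 with hM0
  have hM0adm := fit_adm hA A0
  have hM0n : M0.Normal := ⟨fun x hx g => by
    have := (fit_map (K := A0) (MulAut.conj g) (fun y => by
      rw [MulAut.conj_apply]
      exact (Subgroup.mem_normalizer_iff.mp (normal_normalizer hA0n g) y).symm) hA x).mpr hx
    rwa [MulAut.conj_apply] at this⟩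
  have hDM : ⁅A0, A0⁆ ≤ M0 := le_fit (comm_adm hA0nil)
  have hNM0 : NA ≤ M0 := le_fit ⟨hNC.trans hCA0, fun g _ => normal_normalizer hNAn g, hNAnil⟩
  have hM0C : ∀ x ∈ M0, x ∈ CA → x ∈ NA := by
    rintro x hx ⟨c, hc, rfl⟩
    refine ⟨c, ?_, rfl⟩
    set X := (M0 ⊓ CA).comap φ with hX
    have hcX : c ∈ X := ⟨hx, c, hc, rfl⟩
    have hXn : X.Normal := Subgroup.Normal.comap (Subgroup.normal_inf_normal _ _) φ
    have hXC0 : X ≤ C0 := by
      rintro y ⟨-, z, hz, hzy⟩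
      rwa [hφ hzy] at hz
    have hXnil : Group.IsNilpotent ↥X := by
      rw [← nil_map φ hφ]
      exact nil_of_le ((Subgroup.map_comap_le φ _).trans inf_le_left) hM0adm.2.2
    rw [hg.hfit]
    exact le_fit (K := C0) ⟨hXC0, fun g _ => normal_normalizer hXn g, hXnil⟩ hcX
  obtain ⟨L, ⟨hL1, hL2, hL3⟩, hmax⟩ := hA.exists_max
    {L | M0 ≤ L ∧ L ≤ A0 ∧ ∀ x ∈ L, x ∈ CA → x ∈ NA} ⟨M0, le_rfl, hM0adm.1, hM0C⟩
  have hcomm : ∀ x ∈ A0, ∀ y ∈ A0, x * y * x⁻¹ * y⁻¹ ∈ L := fun x hx y hy =>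
    hL1 (hDM (Subgroup.commutator_mem_commutator hx hy))
  -- torsion
  have htor : ∀ z ∈ A0, ∃ k : ℤ, k ≠ 0 ∧ z ^ k ∈ L ⊔ CA := by
    intro z hz
    by_contra hcon
    push Not at hcon
    have hzn : z ∈ Subgroup.normalizer (L : Set A) := by
      rw [Subgroup.mem_normalizer_iff]
      have h1 : ∀ g ∈ A0, ∀ x ∈ L, g * x * g⁻¹ ∈ L := by
        intro g hg x hx
        have := L.mul_mem (hcomm g hg x (hL2 hx)) hx
        simpa using this
      intro x
      constructor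
      · exact h1 z hz x
      · intro hx
        have := h1 z⁻¹ (A0.inv_mem hz) _ hx
        simpa [mul_assoc] using this
    have h2 := hmax (adj L z hzn) ⟨hL1.trans le_adj, ?_, ?_⟩ le_adj
    · exact hcon 1 one_ne_zero (by
        rw [zpow_one]; exact Subgroup.mem_sup_left (h2 self_mem_adj))
    · rintro x ⟨k, hk⟩
      have := A0.mul_mem (A0.zpow_mem hz k) (hL2 hk)
      simpa using this
    · rintro x ⟨k, hk⟩ hx
      have h3 : z ^ k ∈ L ⊔ CA := by
        have := (L ⊔ CA).mul_mem (Subgroup.mem_sup_right hx)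
          (Subgroup.mem_sup_left (L.inv_mem hk) : _ ∈ L ⊔ CA)
        have e : x * (z ^ (-k) * x)⁻¹ = z ^ k := by simp
        rwa [e] at this
      have h4 : k = 0 := by
        by_contra hk0
        exact hcon k hk0 h3
      rw [h4] at hk
      exact hL3 x (by simpa using hk) hx
  have hcovL : cov (L ⊔ CA) A0 := torsion_cov hA
    (fun x hx y hy => Subgroup.mem_sup_left (hcomm x hx y hy)) htor
  -- the chains
  obtain ⟨T2, hT2f, hT2c⟩ := exists_chain hQmax hQsol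
  have hchA := hT2c.comap q
  rw [MonoidHom.comap_bot, QuotientGroup.ker_mk'] at hchA
  set Aa := T2.comap q with hAa
  have hAaf : Aa.FiniteIndex := ⟨by
    rw [hAa, Subgroup.index_comap_of_surjective T2 hqs]; exact hT2f.index_ne_zero⟩
  let q3 := QuotientGroup.mk' M0
  have hq3s : Function.Surjective q3 := QuotientGroup.mk'_surjective M0
  obtain ⟨T3, hT3f, hT3c⟩ := exists_chain (hA.of_surjective q3 hq3s)
    (Group.isSolvable_of_surjective hq3s)
  have hchB := hT3c.comap q3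
  rw [MonoidHom.comap_bot, QuotientGroup.ker_mk'] at hchB
  set Ab := T3.comap q3 with hAb
  have hAbf : Ab.FiniteIndex := ⟨by
    rw [hAb, Subgroup.index_comap_of_surjective T3 hq3s]; exact hT3f.index_ne_zero⟩
  have hCAa : CA ≤ Aa := hchA.le
  have hM0Ab : M0 ≤ Ab := hchB.le
  refine ⟨L ⊓ (Aa ⊓ Ab), M0 ⊓ Aa, ?_, ?_, ?_, ?_, ?_, ?_, ?_⟩
  · intro x hx hxC
    exact hL3 x hx.1 (hA0C x (hL2 hx.1) hxC)
  · exact le_inf (hNM0.trans hL1) (le_inf (hNC.trans hCAa) (hNM0.trans hM0Ab))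
  · have h1 : cov (Aa ⊓ Ab) L :=
      (cov_top.mpr (inferInstance : (Aa ⊓ Ab).FiniteIndex)).mono le_rfl le_top
    have h2 : cov (L ⊓ (Aa ⊓ Ab)) L := (cov_of_le le_rfl).inf h1
    have h3 : cov (L ⊓ (Aa ⊓ Ab) ⊔ C) (L ⊔ CA) := by
      obtain ⟨s, hs, h⟩ := h2
      refine ⟨s, hs, fun g hg => ?_⟩
      have hg' : g ∈ (L : Set A) * (CA : Set A) := by
        rw [← Subgroup.mul_normal]; exact hg
      obtain ⟨l, hl, c, hc, rfl⟩ := hg'
      obtain ⟨x, hx, hxl⟩ := h l hl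
      refine ⟨x, hx, ?_⟩
      rw [← mul_assoc]
      exact Subgroup.mul_mem _ (Subgroup.mem_sup_left hxl) (Subgroup.mem_sup_right (hCC hc))
    exact (h3.trans hcovL).trans (cov_top.mpr hA0f)
  · have := hchA.inf M0
    have e1 : CA ⊓ M0 = NA := le_antisymm (fun x hx => hM0C x hx.2 hx.1) (le_inf hNC hNM0)
    rw [e1, inf_comm] at this
    exact this
  · have := hchB.inf (L ⊓ Aa)
    have e1 : M0 ⊓ (L ⊓ Aa) = M0 ⊓ Aa := by
      rw [← inf_assoc, inf_eq_left.mpr hL1]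
    have e2 : Ab ⊓ (L ⊓ Aa) = L ⊓ (Aa ⊓ Ab) := by
      rw [inf_comm Ab, inf_assoc]
    rw [e1, e2] at this
    exact this
  · exact nil_of_le inf_le_left hM0adm.2.2
  · intro x hx y hy
    constructor
    · apply hDM
      have := Subgroup.commutator_mem_commutator (A0.inv_mem (hL2 hx.1)) (hL2 hy.1)
      rw [commutatorElement_def, inv_inv] at this
      simpa [mul_assoc] using this
    · exact Aa.mul_mem (Aa.inv_mem hx.2.1) (Aa.mul_mem (Aa.mul_mem hy.2.1 hx.2.1)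
        (Aa.inv_mem hy.2.1))

theorem exists_SA (hA : MaxC A) (hs : Group.IsSolvable A) (φ : H →* A)
    (hφ : Function.Injective φ)
    (hn : φ.range.Normal) {C0 N : Subgroup H} (hg : Good C0 N) (A' : Subgroup A)
    [hA'f : A'.FiniteIndex] (hA' : Group.IsNilpotent ↥⁅A', A'⁆) (hC0 : C0.map φ ≤ A') (d : ℕ) :
    ∃ (S : Subgroup A) (r : ↥S → ↥N) (F : Submodule ℚ (↥S → ℚ)),
      (∀ x ∈ S, x ∈ φ.range → x ∈ N.map φ) ∧ N.map φ ≤ S ∧
      cov (S ⊔ φ.range) ⊤ ∧ Module.Finite ℚ F ∧ (∀ a, ∀ f ∈ F, (fun x => f (x * a)) ∈ F) ∧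
      (∀ c : ℚ, (fun _ => c) ∈ F) ∧
      (∀ (x : ↥S) (n : ↥N) (hn : φ n ∈ S), r (x * ⟨φ n, hn⟩) = r x * n) ∧
      (∀ g ∈ P ℚ (⊤ : Subgroup ↥N) d, (fun x => g (r x)) ∈ F) := by
  obtain ⟨S, M1, h1, h2, h3, h4, h5, h6, h7⟩ := setup hA hs φ hφ hn hg A' hA' hC0
  obtain ⟨r1, hr1, -, hr2, -⟩ := chain_nil ℚ h4 h6
  obtain ⟨e, he⟩ := hr2 d
  obtain ⟨F, r2, hF1, hF2, hF3, hF4, hF5, hF6, -⟩ :=
    chain_gen ℚ h5 le_rfl h7 (hA.sub M1) (e + 1) (by omega)
  let ψ := (N.equivMapOfInjective φ hφ).symm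
  have hψ : ∀ y : ↥(N.map φ), φ (ψ y) = y := fun y => by
    have := (N.equivMapOfInjective φ hφ).apply_symm_apply y
    exact congrArg Subtype.val this
  refine ⟨S, fun x => ψ (r1 (r2 x)), F, h1, h2, h3, hF1, ?_, hF4, ?_, ?_⟩
  · intro a f hf
    exact Inv.right h7 hF2 a hf
  · intro x n hnS
    have hnN : φ n ∈ N.map φ := ⟨n, n.2, rfl⟩
    have e1 := hF5 x (φ n) (h4.le hnN)
    have e2 := hr1 (r2 x) (φ n) hnN
    show ψ (r1 (r2 (x * ⟨φ n, hnS⟩))) = ψ (r1 (r2 x)) * n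
    rw [e1, e2, map_mul]
    congr 1
    apply Subtype.ext
    apply hφ
    rw [hψ]
  · intro g hgd
    have e1 : (fun y => g (ψ y)) ∈ P ℚ (⊤ : Subgroup ↥(N.map φ)) d :=
      comp_mem_P (fun y => ψ y) (fun y => ψ y) (fun _ _ => Subgroup.mem_top _)
        (fun y v _ => by simp) hgd
    exact hF6 _ (P_mono _ (Nat.le_succ e) (he _ e1))

end Pool.Agent.Helper611.PcSet
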