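import Mathlib
import Pool.Agent.Helper611.PcSet

set_option autoImplicit false
set_option linter.unusedSectionVars false

namespace Pool.Agent.Helper611.PcAct

open Pool.Agent.Helper611.PcGrp Pool.Agent.Helper611.PcSet
open scoped Pointwise

section Rho

variable {H A : Type*} [Group H] [Group A]

theorem exists_rho (φ : H →* A) (hφ : Function.Injective φ) (hn : φ.range.Normal)
    {N : Subgroup H} {S : Subgroup A} (r : ↥S → ↥N)
    (h1 : ∀ x ∈ S, x ∈ φ.range → x ∈ N.map φ) (hcov : cov (S ⊔ φ.range) ⊤)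
    (hr : ∀ (x : ↥S) (n : ↥N) (hn : φ n ∈ S), r (x * ⟨φ n, hn⟩) = r x * n) :
    ∃ (ρ : A → H) (R : Set A), R.Finite ∧ (∀ x h, ρ (x * φ h) = ρ x * h) ∧
      ∀ x : A, ∃ (γ : MulAut H) (t : ↥S) (h : H), (∀ y : ↥S, ρ (y * x) = γ (r (y * t)) * h) ∧
        ∃ q ∈ R, x = t * q * φ h := by
  set T := S ⊔ φ.range with hT
  have hTf : T.FiniteIndex := cov_top.mp hcov
  have hfin : Finite (A ⧸ T) := Subgroup.finite_quotient_of_finiteIndex
  let q : A → A := fun x => ((QuotientGroup.mk x⁻¹ : A ⧸ T).out)⁻¹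
  have hqfin : (Set.range q).Finite := by
    have : Set.range q ⊆ Set.range (fun c : A ⧸ T => (c.out)⁻¹) := by
      rintro _ ⟨x, rfl⟩; exact ⟨_, rfl⟩
    exact (Set.finite_range _).subset this
  have hq1 : ∀ x, x * (q x)⁻¹ ∈ T := by
    intro x
    have h2 : (QuotientGroup.mk (QuotientGroup.mk x⁻¹ : A ⧸ T).out : A ⧸ T) =
      QuotientGroup.mk x⁻¹ := QuotientGroup.out_eq' _
    rw [eq_comm, QuotientGroup.eq] at h2
    simpa [q] using h2
  have hq2 : ∀ τ ∈ T, ∀ x, q (τ * x) = q x := by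
    intro τ hτ x
    have : (QuotientGroup.mk (τ * x)⁻¹ : A ⧸ T) = QuotientGroup.mk x⁻¹ := by
      rw [QuotientGroup.eq]
      simpa using hτ
    simp only [q, this]
  have hq3 : ∀ x, q (q x) = q x := by
    intro x
    have h2 := hq2 _ (T.inv_mem (hq1 x)) x
    have h3 : (x * (q x)⁻¹)⁻¹ * x = q x := by simp
    rw [h3] at h2
    exact h2
  have hq4 : ∀ x h, q (x * φ h) = q x := by
    intro x h
    have h2 : x * φ h * x⁻¹ ∈ T := Subgroup.mem_sup_right (hn.conj_mem _ ⟨h, rfl⟩ x)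
    have := hq2 _ h2 x
    simpa using this
  have hdec : ∀ x : A, ∃ (s : ↥S) (h : H), x = s * q x * φ h := by
    intro x
    have h2 : x * (q x)⁻¹ ∈ (S : Set A) * (φ.range : Set A) := by
      rw [← Subgroup.mul_normal]; exact hq1 x
    obtain ⟨s, hs, c, ⟨h, rfl⟩, hsc⟩ := h2
    refine ⟨⟨s, hs⟩, conjH φ hφ hn (q x)⁻¹ h, ?_⟩
    rw [conjH_spec]
    have hsc' : s * φ h = x * (q x)⁻¹ := hsc
    have h3 : x = s * φ h * q x := by
      rw [hsc']; simp
    conv_lhs => rw [h3]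
    simp [mul_assoc]
  choose s h hsh using hdec
  let ρ : A → H := fun x => conjH φ hφ hn (q x)⁻¹ (r (s x)) * h x
  have key : ∀ (x0 : A) (s' : ↥S) (h' : H),
      ρ (s' * q x0 * φ h') = conjH φ hφ hn (q x0)⁻¹ (r s') * h' := by
    intro x0 s' h'
    set x := (s' : A) * q x0 * φ h' with hx
    have hqx : q x = q x0 := by
      rw [hx, hq4, hq2 _ (Subgroup.mem_sup_left s'.2), hq3]
    have e1 : (s x : A) * q x0 * φ (h x) = s' * q x0 * φ h' := by
      have := hsh x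
      rw [hqx] at this
      rw [← this]
    have e2 : (s x : A)⁻¹ * s' = q x0 * φ (h x * h'⁻¹) * (q x0)⁻¹ := by
      rw [map_mul, map_inv]
      have : (s' : A) = s x * q x0 * φ (h x) * (φ h')⁻¹ * (q x0)⁻¹ := by
        rw [e1]; simp
      rw [this]; simp [mul_assoc]
    have e3 : (s x : A)⁻¹ * s' ∈ N.map φ := by
      apply h1
      · exact S.mul_mem (S.inv_mem (s x).2) s'.2
      · rw [e2]; exact hn.conj_mem _ ⟨_, rfl⟩ _
    obtain ⟨n, hnN, hnn⟩ := e3
    have hnS : φ n ∈ S := by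
      rw [hnn]; exact S.mul_mem (S.inv_mem (s x).2) s'.2
    have e4 : s' = s x * ⟨φ n, hnS⟩ := by
      apply Subtype.ext
      show (s' : A) = s x * φ n
      rw [hnn]; simp
    have e5 : h x = conjH φ hφ hn (q x0)⁻¹ n * h' := by
      apply hφ
      rw [map_mul, conjH_spec, hnn, e2]
      simp [mul_assoc]
    have e6 : r s' = r (s x) * ⟨n, hnN⟩ := by
      rw [e4]; exact hr (s x) ⟨n, hnN⟩ hnS
    show conjH φ hφ hn (q x)⁻¹ (r (s x)) * h x = _
    rw [hqx, e6, e5, Subgroup.coe_mul, map_mul, mul_assoc]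
  refine ⟨ρ, Set.range q, hqfin, ?_, ?_⟩
  · intro x h'
    have e1 : x * φ h' = s x * q x * φ (h x * h') := by
      rw [map_mul, ← mul_assoc, ← hsh x]
    rw [e1, key, ← mul_assoc]
  · intro x
    refine ⟨conjH φ hφ hn (q x)⁻¹, s x, h x, ?_, q x, ⟨x, rfl⟩, hsh x⟩
    intro y
    have e1 : (y : A) * x = ((y * s x : ↥S) : A) * q x * φ (h x) := by
      conv_lhs => rw [hsh x]
      simp [mul_assoc]
    rw [e1, key]

end Rho

section Action

variable {ι : Type*} [DecidableEq ι] {H : Type*} [Group H] {G : ι → Type*} [∀ i, Group (G i)]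
  (φ : ∀ i, H →* G i) (ρ : ∀ i, G i → H)

/-- Retraction fibres. -/
abbrev Tt (i : ι) := {x : G i // ρ i x = 1}

/-- The set on which everything acts. -/
abbrev Zz := (∀ i, Tt ρ i) × H

variable {ρ}

/-- The projection to the fibre. -/
def pr (hρ : ∀ i x h, ρ i (x * φ i h) = ρ i x * h) (i : ι) (x : G i) : Tt ρ i :=
  ⟨x * φ i (ρ i x)⁻¹, by rw [hρ]; simp⟩

theorem pr_mul (hρ : ∀ i x h, ρ i (x * φ i h) = ρ i x * h) (i : ι) (x : G i) (h : H) :
    pr φ hρ i (x * φ i h) = pr φ hρ i x := by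
  apply Subtype.ext
  show x * φ i h * φ i (ρ i (x * φ i h))⁻¹ = x * φ i (ρ i x)⁻¹
  rw [hρ, mul_inv_rev, map_mul, mul_assoc, ← mul_assoc (φ i h), ← map_mul, mul_inv_cancel,
    map_one, one_mul]

theorem pr_self (hρ : ∀ i x h, ρ i (x * φ i h) = ρ i x * h) (i : ι) (t : Tt ρ i) :
    pr φ hρ i t = t := by
  apply Subtype.ext
  show (t : G i) * φ i (ρ i t)⁻¹ = t
  rw [t.2]; simp

theorem pr_rec (hρ : ∀ i x h, ρ i (x * φ i h) = ρ i x * h) (i : ι) (x : G i) :
    (pr φ hρ i x : G i) * φ i (ρ i x) = x := by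
  show x * φ i (ρ i x)⁻¹ * φ i (ρ i x) = x
  rw [mul_assoc, ← map_mul]; simp

/-- Right multiplication on the `i`-th coordinate. -/
def mv (hρ : ∀ i x h, ρ i (x * φ i h) = ρ i x * h) (i : ι) (y : G i) (z : Zz ρ) : Zz ρ :=
  (Function.update z.1 i (pr φ hρ i ((z.1 i : G i) * φ i z.2 * y)),
    ρ i ((z.1 i : G i) * φ i z.2 * y))

theorem rho_mul (hρ : ∀ i x h, ρ i (x * φ i h) = ρ i x * h) (i : ι) (t : Tt ρ i) (h : H) :
    ρ i ((t : G i) * φ i h) = h := by
  rw [hρ, t.2, one_mul]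

theorem mv_base (hρ : ∀ i x h, ρ i (x * φ i h) = ρ i x * h) (i : ι) (h : H) (z : Zz ρ) :
    mv φ hρ i (φ i h) z = (z.1, z.2 * h) := by
  have e1 : (z.1 i : G i) * φ i z.2 * φ i h = (z.1 i : G i) * φ i (z.2 * h) := by
    rw [map_mul, mul_assoc]
  unfold mv
  rw [e1, rho_mul φ hρ, pr_mul φ hρ, pr_self φ hρ, Function.update_eq_self]

theorem mv_mul (hρ : ∀ i x h, ρ i (x * φ i h) = ρ i x * h) (i : ι) (y y' : G i) (z : Zz ρ) :
    mv φ hρ i y' (mv φ hρ i y z) = mv φ hρ i (y * y') z := by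
  unfold mv
  simp only [Function.update_self, Function.update_idem]
  rw [pr_rec φ hρ, mul_assoc _ y y']

theorem mv_one (hρ : ∀ i x h, ρ i (x * φ i h) = ρ i x * h) (i : ι) (z : Zz ρ) :
    mv φ hρ i 1 z = z := by
  have := mv_base φ hρ i 1 z
  rw [map_one, mul_one] at this
  exact this

/-- The action of a factor by permutations. -/
def act (hρ : ∀ i x h, ρ i (x * φ i h) = ρ i x * h) (i : ι) : G i →* Equiv.Perm (Zz ρ) where
  toFun y :=
    { toFun := mv φ hρ i y⁻¹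
      invFun := mv φ hρ i y
      left_inv := fun z => by rw [mv_mul, inv_mul_cancel, mv_one]
      right_inv := fun z => by rw [mv_mul, mul_inv_cancel, mv_one] }
  map_one' := by
    apply Equiv.ext; intro z
    show mv φ hρ i 1⁻¹ z = z
    rw [inv_one, mv_one]
  map_mul' y y' := by
    apply Equiv.ext; intro z
    show mv φ hρ i (y * y')⁻¹ z = mv φ hρ i y⁻¹ (mv φ hρ i y'⁻¹ z)
    rw [mv_mul, mul_inv_rev]

/-- The action of the base. -/
def bact : H →* Equiv.Perm (Zz ρ) where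
  toFun h :=
    { toFun := fun z => (z.1, z.2 * h⁻¹)
      invFun := fun z => (z.1, z.2 * h)
      left_inv := fun z => by simp
      right_inv := fun z => by simp }
  map_one' := by
    apply Equiv.ext; intro z
    simp
  map_mul' h h' := by
    apply Equiv.ext; intro z
    simp [mul_assoc]

theorem act_base (hρ : ∀ i x h, ρ i (x * φ i h) = ρ i x * h) (i : ι) :
    (act φ hρ i).comp (φ i) = bact := by
  ext1 h
  apply Equiv.ext; intro z
  show mv φ hρ i (φ i h)⁻¹ z = (z.1, z.2 * h⁻¹)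
  rw [← map_inv, mv_base]

/-- The action of the amalgam. -/
noncomputable def pact (hρ : ∀ i x h, ρ i (x * φ i h) = ρ i x * h) :
    Monoid.PushoutI φ →* Equiv.Perm (Zz ρ) :=
  Monoid.PushoutI.lift (act φ hρ) bact (fun i => act_base φ hρ i)

end Action

end Pool.Agent.Helper611.PcAct
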