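import Mathlib

set_option autoImplicit false
set_option linter.unusedSectionVars false

namespace Pool.Agent.Helper611.PcFree

open Matrix Polynomial Monoid

section Core

variable {ι : Type*} [DecidableEq ι] {Q : ι → Type*} [∀ i, Group (Q i)] [∀ i, DecidableEq (Q i)]
  {κ : Type*} [Fintype κ] [DecidableEq κ] {F : Type*} [Field F]

theorem conj_coeff (E B : Matrix κ κ F) :
    ((1 + C E * X) * C B * (1 - C E * X) : (Matrix κ κ F)[X]) =
      C B + C (E * B - B * E) * X - C (E * B * E) * X ^ 2 := by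
  have hX : ∀ M : Matrix κ κ F, (X : (Matrix κ κ F)[X]) * C M = C M * X := fun M => X_mul_C M
  rw [add_mul, one_mul, mul_assoc (C E), hX, mul_sub, mul_one, add_mul, ← mul_assoc (C E), ← C_mul,
    ← mul_assoc (C B), ← C_mul, mul_assoc (C (E * B)) X, ← mul_assoc X (C E) X, hX,
    ← mul_assoc (C (E * B)), ← mul_assoc (C (E * B)), ← C_mul, C_sub, sub_mul, pow_two,
    mul_assoc (C (E * B * E)) X X]
  abel

theorem conj_top (E B : Matrix κ κ F) :
    ((1 + C E * X) * C B * (1 - C E * X) : (Matrix κ κ F)[X]).natDegree ≤ 2 ∧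
    ((1 + C E * X) * C B * (1 - C E * X) : (Matrix κ κ F)[X]).coeff 2 = - (E * B * E) := by
  rw [conj_coeff]
  constructor
  · compute_degree
  · rw [coeff_sub, coeff_add, coeff_C, coeff_C_mul, coeff_X, coeff_C_mul, coeff_X_pow]
    simp

theorem unit_mul (E : Matrix κ κ F) (hE : E * E = 0) :
    ((1 - C E * X) * (1 + C E * X) : (Matrix κ κ F)[X]) = 1 := by
  have hX : ∀ M : Matrix κ κ F, (X : (Matrix κ κ F)[X]) * C M = C M * X := fun M => X_mul_C M
  rw [sub_mul, one_mul, mul_add, mul_one, mul_assoc (C E) X, ← mul_assoc X (C E) X, hX,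
    ← mul_assoc (C E), ← mul_assoc (C E), ← C_mul, hE, C_0]
  simp

theorem unit_mul' (E : Matrix κ κ F) (hE : E * E = 0) :
    ((1 + C E * X) * (1 - C E * X) : (Matrix κ κ F)[X]) = 1 := by
  have hX : ∀ M : Matrix κ κ F, (X : (Matrix κ κ F)[X]) * C M = C M * X := fun M => X_mul_C M
  rw [add_mul, one_mul, mul_sub, mul_one, mul_assoc (C E) X, ← mul_assoc X (C E) X, hX,
    ← mul_assoc (C E), ← mul_assoc (C E), ← C_mul, hE, C_0]
  simp

/-- Conjugation by a transvection with parameter. -/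
noncomputable def al (T : ∀ i, Q i →* Matrix κ κ F) (E : ι → Matrix κ κ F)
    (hE : ∀ i, E i * E i = 0) (i : ι) : Q i →* (Matrix κ κ F)[X] where
  toFun a := (1 + C (E i) * X) * C (T i a) * (1 - C (E i) * X)
  map_one' := by rw [map_one, C_1, mul_one, unit_mul' _ (hE i)]
  map_mul' a b := by
    rw [map_mul, C_mul]
    have : ((1 + C (E i) * X) * C (T i a) * (1 - C (E i) * X) *
        ((1 + C (E i) * X) * C (T i b) * (1 - C (E i) * X)) : (Matrix κ κ F)[X]) =
        (1 + C (E i) * X) * C (T i a) * ((1 - C (E i) * X) * (1 + C (E i) * X)) * C (T i b) *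
          (1 - C (E i) * X) := by simp only [mul_assoc]
    rw [this, unit_mul _ (hE i)]
    simp only [mul_assoc, mul_one]

theorem core (T : ∀ i, Q i →* Matrix κ κ F) (w f : ι → κ → F)
    (h0 : ∀ i, f i ⬝ᵥ w i = 0)
    (h1 : ∀ i (a : Q i), a ≠ 1 → f i ⬝ᵥ (T i a *ᵥ w i) ≠ 0)
    (h2 : ∀ i j, i ≠ j → f i ⬝ᵥ w j ≠ 0) (h3 : ∀ i, w i ≠ 0) (h4 : ∀ i, f i ≠ 0) :
    ∃ ρ : CoprodI Q →* (Matrix κ κ F)[X], ∀ x, ρ x = 1 → x = 1 := by
  have hE : ∀ i, vecMulVec (w i) (f i) * vecMulVec (w i) (f i) = 0 := by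
    intro i
    rw [vecMulVec_mul_vecMulVec, h0, zero_smul]
    ext a b
    simp [vecMulVec_apply]
  let α := al T (fun i => vecMulVec (w i) (f i)) hE
  have hET : ∀ i (a : Q i), vecMulVec (w i) (f i) * T i a * vecMulVec (w i) (f i) =
      (f i ⬝ᵥ (T i a *ᵥ w i)) • vecMulVec (w i) (f i) := by
    intro i a
    rw [vecMulVec_mul, vecMulVec_mul_vecMulVec, dotProduct_mulVec]
    ext x y
    simp [vecMulVec_apply]
    ring
  have key : ∀ {i j : ι} (W : CoprodI.NeWord Q i j), ∃ L : ℕ, 0 < L ∧ ∃ c : F, c ≠ 0 ∧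
      (CoprodI.lift α W.prod).natDegree ≤ 2 * L ∧
      (CoprodI.lift α W.prod).coeff (2 * L) = c • vecMulVec (w i) (f j) := by
    intro i j W
    induction W with
    | @singleton i x hx =>
      refine ⟨1, one_pos, -(f i ⬝ᵥ (T i x *ᵥ w i)), neg_ne_zero.mpr (h1 i x hx), ?_⟩
      rw [CoprodI.NeWord.prod_singleton, CoprodI.lift_of]
      have := conj_top (vecMulVec (w i) (f i)) (T i x)
      refine ⟨this.1, ?_⟩
      rw [neg_smul, ← hET]
      exact this.2
    | @append i j k l W1 hne W2 ih1 ih2 =>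
      obtain ⟨L1, hL1, c1, hc1, hd1, he1⟩ := ih1
      obtain ⟨L2, hL2, c2, hc2, hd2, he2⟩ := ih2
      refine ⟨L1 + L2, by omega, c1 * c2 * (f j ⬝ᵥ w k),
        mul_ne_zero (mul_ne_zero hc1 hc2) (h2 j k hne), ?_, ?_⟩
      · rw [CoprodI.NeWord.append_prod, map_mul, mul_add]
        exact natDegree_mul_le_of_le hd1 hd2
      · rw [CoprodI.NeWord.append_prod, map_mul, mul_add,
          coeff_mul_add_eq_of_natDegree_le hd1 hd2, he1, he2, smul_mul_smul_comm,
          vecMulVec_mul_vecMulVec]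
        ext x y
        simp [vecMulVec_apply]
        ring
  refine ⟨CoprodI.lift α, fun x hx => ?_⟩
  by_contra hne
  have hw : CoprodI.Word.equiv x ≠ CoprodI.Word.empty := by
    intro he
    apply hne
    have : x = CoprodI.Word.equiv.symm CoprodI.Word.empty := by
      rw [← he, Equiv.symm_apply_apply]
    rw [this]
    exact CoprodI.Word.prod_empty
  obtain ⟨i, j, W, hW⟩ := CoprodI.NeWord.of_word _ hw
  have hWx : W.prod = x := by
    show W.toWord.prod = x
    rw [hW]
    exact CoprodI.Word.equiv.symm_apply_apply x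
  obtain ⟨L, hL, c, hc, -, hcoef⟩ := key W
  rw [hWx, hx, coeff_one, if_neg (by omega)] at hcoef
  obtain ⟨a, ha⟩ : ∃ a, w i a ≠ 0 := by
    by_contra hcon
    push Not at hcon
    exact h3 i (funext hcon)
  obtain ⟨b, hb⟩ : ∃ b, f j b ≠ 0 := by
    by_contra hcon
    push Not at hcon
    exact h4 j (funext hcon)
  have := congrFun (congrFun hcoef a) b
  simp only [Matrix.zero_apply, Matrix.smul_apply, vecMulVec_apply, smul_eq_mul] at this
  exact mul_ne_zero hc (mul_ne_zero ha hb) this.symm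

end Core

section Generic

variable {ι : Type} [Fintype ι] [DecidableEq ι] {Q : ι → Type} [∀ i, Group (Q i)]
  {m : Type} [Fintype m] [DecidableEq m] [Nonempty m]

/-- Adding a trivial coordinate. -/
def pad (R : Type*) [CommRing R] (m : Type*) [Fintype m] [DecidableEq m] :
    Matrix m m R →* Matrix (m ⊕ Unit) (m ⊕ Unit) R where
  toFun a := fromBlocks a 0 0 1
  map_one' := fromBlocks_one
  map_mul' a b := by simp [fromBlocks_multiply]

theorem pad_injective (R : Type*) [CommRing R] (m : Type*) [Fintype m] [DecidableEq m] :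
    Function.Injective (pad R m) := by
  intro a b h
  exact (fromBlocks_inj.mp h).1

theorem free_linear (τ : ∀ i, Q i →* Matrix m m ℚ) (hτ : ∀ i, Function.Injective (τ i)) :
    ∃ (F : Type) (_ : Field F) (_ : ℚ →+* F) (κ : Type) (_ : Fintype κ) (_ : DecidableEq κ)
      (ρ : CoprodI Q →* Matrix κ κ F), ∀ x, ρ x = 1 → x = 1 := by
  classical
  let MP := MvPolynomial (ι × (m ⊕ m)) ℚ
  let F := FractionRing MP
  let g : MP →+* F := algebraMap MP F
  have hg : Function.Injective g := IsFractionRing.injective MP F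
  let Xw : ι → m → MP := fun i k => MvPolynomial.X (i, Sum.inl k)
  let Xf : ι → m → MP := fun i k => MvPolynomial.X (i, Sum.inr k)
  let w : ι → (m ⊕ Unit) → F := fun i => Sum.elim (fun k => g (Xw i k)) (fun _ => 1)
  let f : ι → (m ⊕ Unit) → F := fun i =>
    Sum.elim (fun k => g (Xf i k)) (fun _ => - ∑ k, g (Xf i k) * g (Xw i k))
  let T : ∀ i, Q i →* Matrix (m ⊕ Unit) (m ⊕ Unit) F := fun i =>
    (pad F m).comp (((algebraMap ℚ F).mapMatrix (m := m)).toMonoidHom.comp (τ i))
  have hdot : ∀ i j, f i ⬝ᵥ w j = g (∑ k, Xf i k * Xw j k - ∑ k, Xf i k * Xw i k) := by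
    intro i j
    simp only [dotProduct, Fintype.sum_sum_type, w, f, Sum.elim_inl, Sum.elim_inr, map_sub, map_sum,
      map_mul, Finset.univ_unique, Finset.sum_singleton, mul_one]
    ring
  have h0 : ∀ i, f i ⬝ᵥ w i = 0 := by
    intro i
    rw [hdot, sub_self, map_zero]
  have h1 : ∀ i (a : Q i), a ≠ 1 → f i ⬝ᵥ (T i a *ᵥ w i) ≠ 0 := by
    intro i a ha
    have hτa : τ i a ≠ 1 := fun h => ha (hτ i (by rw [h, map_one]))
    obtain ⟨k0, l0, hkl⟩ : ∃ k0 l0, τ i a k0 l0 ≠ (1 : Matrix m m ℚ) k0 l0 := by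
      by_contra hcon
      push Not at hcon
      exact hτa (Matrix.ext hcon)
    have e1 : f i ⬝ᵥ (T i a *ᵥ w i) = g (∑ k, Xf i k * (∑ l, MvPolynomial.C (τ i a k l) * Xw i l)
        - ∑ k, Xf i k * Xw i k) := by
      have hC : ∀ q : ℚ, g (MvPolynomial.C q) = algebraMap ℚ F q := by
        intro q
        rw [IsScalarTower.algebraMap_apply ℚ MP F]
        rfl
      simp only [dotProduct, Fintype.sum_sum_type, f, Sum.elim_inl, Sum.elim_inr, map_sub,
        map_sum, map_mul, Finset.univ_unique, Finset.sum_singleton, hC]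
      have e2 : ∀ k, (T i a *ᵥ w i) (Sum.inl k) = ∑ l, algebraMap ℚ F (τ i a k l) * g (Xw i l) := by
        intro k
        simp [T, pad, mulVec, dotProduct, Fintype.sum_sum_type, w]
      have e3 : (T i a *ᵥ w i) (Sum.inr default) = 1 := by
        simp [T, pad, mulVec, dotProduct, Fintype.sum_sum_type, w]
      rw [e3]
      simp only [e2]
      ring
    rw [e1]
    intro hzero
    have hz := hg (hzero.trans (map_zero g).symm)
    let v : ι × (m ⊕ m) → ℚ := fun p =>
      Sum.elim (fun l => if l = l0 then 1 else 0) (fun k => if k = k0 then 1 else 0) p.2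
    have hev := congrArg (MvPolynomial.eval v) hz
    simp only [map_sub, map_sum, map_mul, MvPolynomial.eval_C, Xf, Xw, MvPolynomial.eval_X, v,
      Sum.elim_inl, Sum.elim_inr, map_zero] at hev
    apply hkl
    rw [Matrix.one_apply]
    have h9 : (τ i) a k0 l0 = if l0 = k0 then 1 else 0 := by simpa [sub_eq_zero] using hev
    rw [h9]
    by_cases hh : l0 = k0
    · rw [if_pos hh, if_pos hh.symm]
    · rw [if_neg hh, if_neg (Ne.symm hh)]
  have h2 : ∀ i j, i ≠ j → f i ⬝ᵥ w j ≠ 0 := by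
    intro i j hij
    rw [hdot]
    intro hzero
    have hz := hg (hzero.trans (map_zero g).symm)
    obtain ⟨k0⟩ := ‹Nonempty m›
    let v : ι × (m ⊕ m) → ℚ := fun p => if p.1 = i then
      Sum.elim (fun l => if l = k0 then 1 else 0) (fun k => if k = k0 then 1 else 0) p.2 else 0
    have hev := congrArg (MvPolynomial.eval v) hz
    simp only [map_sub, map_sum, map_mul, Xf, Xw, MvPolynomial.eval_X, v,
      Sum.elim_inl, Sum.elim_inr, map_zero, if_true, if_neg hij.symm] at hev
    simp at hev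
  have h3 : ∀ i, w i ≠ 0 := by
    intro i h
    have := congrFun h (Sum.inr ())
    exact one_ne_zero this
  have h4 : ∀ i, f i ≠ 0 := by
    intro i h
    obtain ⟨k0⟩ := ‹Nonempty m›
    have := congrFun h (Sum.inl k0)
    have h5 : g (Xf i k0) = 0 := this
    have h6 := hg (h5.trans (map_zero g).symm)
    exact MvPolynomial.X_ne_zero _ h6
  obtain ⟨ρ, hρ⟩ := core T w f h0 h1 h2 h3 h4
  let F' := FractionRing (Polynomial F)
  let g' : Polynomial F →+* F' := algebraMap _ _
  have hg' : Function.Injective g' := IsFractionRing.injective (Polynomial F) F'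
  let ρ' : CoprodI Q →* Matrix (m ⊕ Unit) (m ⊕ Unit) F' :=
    ((g'.mapMatrix (m := m ⊕ Unit)).toMonoidHom.comp
      ((matPolyEquiv (R := F) (n := m ⊕ Unit)).symm :
        (Matrix (m ⊕ Unit) (m ⊕ Unit) F)[X] →* Matrix (m ⊕ Unit) (m ⊕ Unit) F[X])).comp ρ
  refine ⟨F', inferInstance, g'.comp ((Polynomial.C).comp (algebraMap ℚ F)), m ⊕ Unit,
    inferInstance, inferInstance, ρ', ?_⟩
  intro x hx
  apply hρ
  have h5 : (g'.mapMatrix (m := m ⊕ Unit)) (matPolyEquiv.symm (ρ x)) = 1 := hx
  have h6 : Function.Injective (g'.mapMatrix (m := m ⊕ Unit)) := by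
    intro a b hab
    refine Matrix.ext fun i j => ?_
    have := congrFun (congrFun hab i) j
    exact hg' this
  have h7 : matPolyEquiv.symm (ρ x) = 1 := h6 (by rw [h5, map_one])
  exact matPolyEquiv.symm.injective (by rw [h7, map_one])

end Generic

end Pool.Agent.Helper611.PcFree
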