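import Mathlib
import Pool.Agent.Helper611.PcAct

set_option autoImplicit false
set_option linter.unusedSectionVars false

namespace Pool.Agent.Helper611.PcW

open Pool.Agent.Helper611.PcGrp Pool.Agent.Helper611.PcSet Pool.Agent.Helper611.PcAct
open Pool.Agent.Helper611.PcFun Pool.Agent.Helper611.PcUni Pool.Agent.Helper611.PcGen
open Pool.Agent.Helper611.PcChain Pool.Agent.Helper611.PcMal

/-- Precomposition as an algebra homomorphism. -/
def cmpA {Y Y' : Type*} (m : Y → Y') : (Y' → ℚ) →ₐ[ℚ] (Y → ℚ) where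
  toFun f := fun y => f (m y)
  map_one' := rfl
  map_mul' _ _ := rfl
  map_zero' := rfl
  map_add' _ _ := rfl
  commutes' _ := rfl

theorem prod_mem {H : Type*} [Group H] {N : Subgroup H} {S : Type*} [Group S] (r : S → ↥N)
    (F : Submodule ℚ (S → ℚ)) (hF2 : ∀ a, ∀ f ∈ F, (fun x => f (x * a)) ∈ F) (M : ℕ)
    (hF4 : ∀ g ∈ P ℚ (⊤ : Subgroup ↥N) M, (fun x => g (r x)) ∈ F) (hfg : Group.FG ↥N)
    (α β : ↥N →* ↥N) (t t' : S) (g : ↥N → ℚ) (hg : g ∈ P ℚ (⊤ : Subgroup ↥N) M) :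
    (fun s => g (α (r (s * t')) * (β (r (s * t)))⁻¹)) ∈ F * F := by
  have hfin := finite_P (K := ℚ) hfg M
  obtain ⟨n, z, b, hb, hint⟩ := interp (P ℚ (⊤ : Subgroup ↥N) M)
  have e : (fun s => g (α (r (s * t')) * (β (r (s * t)))⁻¹)) =
      ∑ l, (fun s => b l (α (r (s * t')))) * (fun s => g (z l * (β (r (s * t)))⁻¹)) := by
    funext s
    rw [Finset.sum_apply]
    have h1 := hint (fun a => g (a * (β (r (s * t)))⁻¹)) (right_mem_P hg _) (α (r (s * t')))
    rw [h1]
    refine Finset.sum_congr rfl fun l _ => ?_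
    rw [Pi.mul_apply, mul_comm]
  rw [e]
  refine Submodule.sum_mem _ fun l _ => Submodule.mul_mem_mul ?_ ?_
  · have h1 : (fun a => b l (α a)) ∈ P ℚ (⊤ : Subgroup ↥N) M :=
      comp_mem_P (fun a => α a) (fun a => α a) (fun _ _ => Subgroup.mem_top _)
        (fun y v _ => by simp) (hb l)
    exact hF2 t' _ (hF4 _ h1)
  · have h1 : (fun a => g (z l * a)) ∈ P ℚ (⊤ : Subgroup ↥N) M := left_mem_P hg (z l)
    have h2 := inv_mem_P h1
    have h3 : (fun a => g (z l * (β a)⁻¹)) ∈ P ℚ (⊤ : Subgroup ↥N) M :=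
      comp_mem_P (fun a => β a) (fun a => β a) (fun _ _ => Subgroup.mem_top _)
        (fun y v _ => by simp) h2
    exact hF2 t _ (hF4 _ h3)

section Spaces

variable {ι : Type} [Fintype ι] [DecidableEq ι] {H : Type} [Group H] {G : ι → Type}
  [∀ i, Group (G i)] {N : Subgroup H} (M : ℕ) (V : Submodule ℚ (H → ℚ))
  (S : ∀ i, Subgroup (G i)) (F : ∀ i, Submodule ℚ (↥(S i) → ℚ))

/-- The local model. -/
abbrev Yy := (∀ i, ↥(S i)) × H

/-- Functions of the first coordinates. -/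
noncomputable def Eh : Submodule ℚ (Yy (H := H) S → ℚ) :=
  1 ⊔ ⨆ i, (F i * F i).map (cmpA (fun y : Yy (H := H) S => y.1 i)).toLinearMap

/-- Functions of the last coordinate. -/
def Vh (N : Subgroup H) (m : ℕ) : Submodule ℚ (Yy (H := H) S → ℚ) :=
  (V ⊓ P ℚ N m).map (cmpA (fun y : Yy (H := H) S => y.2)).toLinearMap

/-- The local space. -/
noncomputable def WW (N : Subgroup H) : Submodule ℚ (Yy (H := H) S → ℚ) :=
  ⨆ m : Fin (M + 1), (Eh S F) ^ (M - m) * Vh V S N m

theorem WW_fg (hV : Module.Finite ℚ V) (hF : ∀ i, Module.Finite ℚ (F i)) :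
    (WW M V S F N).FG := by
  have h1 : (Eh (H := H) S F).FG := by
    apply Submodule.FG.sup (by rw [Submodule.one_eq_span]; exact Submodule.fg_span_singleton 1)
    apply Submodule.fg_iSup
    intro i
    apply Submodule.FG.map
    have := Module.Finite.iff_fg.mp (hF i)
    exact this.mul this
  apply Submodule.fg_iSup
  intro m
  apply Submodule.FG.mul (h1.pow _)
  apply Submodule.FG.map
  have : Module.Finite ℚ ↥(V ⊓ P ℚ N m) := Submodule.finiteDimensional_of_le inf_le_left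
  exact Module.Finite.iff_fg.mp this

theorem WW_inv (hV : Module.Finite ℚ V) (hM : 1 ≤ M)
    (hNchar : ∀ (θ : MulAut H) (x : H), θ x ∈ N ↔ x ∈ N)
    (hVl : ∀ a, ∀ f ∈ V, (fun x => f (a * x)) ∈ V)
    (hVa : ∀ θ : MulAut H, ∀ f ∈ V, (fun x => f (θ x)) ∈ V)
    (i : ι) (n : ↥(S i) → ↥N)
    (hn : ∀ g ∈ P ℚ (⊤ : Subgroup ↥N) M, (fun s => g (n s)) ∈ F i * F i)
    (ω : H) (θ : MulAut H) {Ψ : Yy (H := H) S → ℚ} (hΨ : Ψ ∈ WW M V S F N) :
    (fun y => Ψ (y.1, (n (y.1 i) : H) * (ω * θ y.2))) ∈ WW M V S F N := by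
  have hNn : N.Normal := char_normal hNchar
  set m0 : Yy (H := H) S → Yy (H := H) S := fun y => (y.1, (n (y.1 i) : H) * (ω * θ y.2)) with hm0
  set a := (cmpA m0).toLinearMap with ha
  set E := Eh (H := H) S F with hE
  have hEinv : E.map a ≤ E := by
    rw [Submodule.map_le_iff_le_comap]
    apply sup_le
    · rw [Submodule.one_le]
      exact Submodule.mem_sup_left (Submodule.one_le.mp le_rfl)
    · apply iSup_le
      rintro j _ ⟨f, hf, rfl⟩
      exact Submodule.mem_sup_right (Submodule.mem_iSup_of_mem j ⟨f, hf, rfl⟩)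
  have hEk : ∀ k : ℕ, (E ^ k).map a ≤ E ^ k := by
    intro k
    rw [ha, Submodule.map_pow]
    exact pow_le_pow_left' hEinv k
  have hVinv : ∀ m : ℕ, m + 1 ≤ M →
      (Vh V S N (m + 1)).map a ≤ Vh V S N (m + 1) ⊔ E * Vh V S N m := by
    intro m hm
    rw [Submodule.map_le_iff_le_comap]
    rintro _ ⟨f, ⟨hfV, hfP⟩, rfl⟩
    have hfin : Module.Finite ℚ ↥(V ⊓ P ℚ N m) := Submodule.finiteDimensional_of_le inf_le_left
    obtain ⟨k, z, b, hb, hint⟩ := interp (V ⊓ P ℚ N m)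
    have hdiff : ∀ x : ↥N, (fun h => f (x * h) - f h) ∈ V ⊓ P ℚ N m := fun x =>
      ⟨V.sub_mem (hVl x f hfV) hfV, leftD_mem_P hfP x.2⟩
    have haff : ∀ l : ℕ, ∀ g ∈ V ⊓ P ℚ N l, (fun h => g (ω * θ h)) ∈ V ⊓ P ℚ N l := by
      intro l g hg
      refine ⟨hVa θ _ (hVl ω g hg.1), ?_⟩
      have h1 : (fun h => g (ω * h)) ∈ P ℚ N l := left_mem_P hg.2 ω
      exact comp_mem_P (fun h => θ h) (fun h => θ h) (fun v hv => (hNchar θ v).mpr hv)
        (fun y v _ => by simp) h1
    have e : a ((cmpA (fun y : Yy (H := H) S => y.2)).toLinearMap f) =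
        (cmpA (fun y : Yy (H := H) S => y.2)).toLinearMap (fun h => f (ω * θ h)) +
        ∑ l, ((cmpA (fun y : Yy (H := H) S => y.1 i)).toLinearMap
            (fun s => f (n s * z l) - f (z l))) *
          ((cmpA (fun y : Yy (H := H) S => y.2)).toLinearMap (fun h => b l (ω * θ h))) := by
      funext y
      show f ((n (y.1 i) : H) * (ω * θ y.2)) = _
      have h1 := hint _ (hdiff (n (y.1 i))) (ω * θ y.2)
      rw [Pi.add_apply, Finset.sum_apply]
      show f ((n (y.1 i) : H) * (ω * θ y.2)) = f (ω * θ y.2) +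
        ∑ l, (f ((n (y.1 i) : H) * z l) - f (z l)) * b l (ω * θ y.2)
      rw [← h1]; ring
    show a ((cmpA (fun y : Yy (H := H) S => y.2)).toLinearMap f) ∈
      Vh V S N (m + 1) ⊔ E * Vh V S N m
    rw [e]
    apply Submodule.add_mem
    · exact Submodule.mem_sup_left (Submodule.mem_map_of_mem (haff (m + 1) f ⟨hfV, hfP⟩))
    · refine Submodule.sum_mem _ fun l _ => ?_
      apply Submodule.mem_sup_right
      apply Submodule.mul_mem_mul
      · apply Submodule.mem_sup_right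
        apply Submodule.mem_iSup_of_mem i
        apply Submodule.mem_map_of_mem
        have h1 : (fun x : ↥N => f (x * z l)) ∈ P ℚ (⊤ : Subgroup ↥N) M := by
          apply P_mono _ hm
          refine comp_mem_P' (U := N) (V := (⊤ : Subgroup ↥N)) (fun x : ↥N => (x : H) * z l) ?_ hfP
          intro v _
          refine ⟨(z l)⁻¹ * v * z l, ?_, ?_⟩
          · simpa using hNn.conj_mem v v.2 (z l)⁻¹
          · intro y
            simp [mul_assoc]
        have h2 : (fun _ : ↥N => f (z l)) ∈ P ℚ (⊤ : Subgroup ↥N) M :=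
          P_mono _ hM (const_mem_P_one _ _)
        exact hn _ ((P ℚ (⊤ : Subgroup ↥N) M).sub_mem h1 h2)
      · exact Submodule.mem_map_of_mem (haff m (b l) (hb l))
  have hV0 : Vh V S N 0 = ⊥ := by
    rw [eq_bot_iff]
    rintro _ ⟨f, ⟨-, hf⟩, rfl⟩
    rw [Submodule.mem_bot]
    have : f = 0 := mem_P_zero.mp hf
    rw [this, map_zero]
  have key : (WW M V S F N).map a ≤ WW M V S F N := by
    rw [WW, Submodule.map_iSup]
    apply iSup_le
    rintro ⟨m, hm⟩
    rw [ha, Submodule.map_mul, ← ha]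
    show (E ^ (M - m)).map a * (Vh V S N m).map a ≤ _
    cases m with
    | zero =>
      rw [hV0, Submodule.map_bot, Submodule.mul_bot]
      exact bot_le
    | succ m =>
      refine (mul_le_mul' (hEk _) (hVinv m (by omega))).trans ?_
      rw [Submodule.mul_sup]
      apply sup_le
      · exact le_iSup (fun m : Fin (M + 1) => E ^ (M - m) * Vh V S N m) ⟨m + 1, hm⟩
      · rw [← mul_assoc, ← pow_succ]
        have : M - (m + 1) + 1 = M - m := by omega
        rw [this]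
        exact le_iSup (fun m : Fin (M + 1) => E ^ (M - m) * Vh V S N m) ⟨m, by omega⟩
  exact key ⟨Ψ, hΨ, rfl⟩

theorem mem_WW {f : H → ℚ} (hf : f ∈ V) (hfP : V ≤ P ℚ N M) :
    (fun y => f y.2) ∈ WW M V S F N := by
  apply Submodule.mem_iSup_of_mem (⟨M, Nat.lt_succ_self M⟩ : Fin (M + 1))
  show (fun y => f y.2) ∈ (Eh (H := H) S F) ^ (M - M) * Vh V S N M
  rw [Nat.sub_self, pow_zero, one_mul]
  exact ⟨f, ⟨hf, hfP hf⟩, rfl⟩

end Spaces

end Pool.Agent.Helper611.PcW
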