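import Mathlib
import Pool.Agent.Helper611.PcW

set_option autoImplicit false
set_option linter.unusedSectionVars false

namespace Pool.Agent.Helper611.PcRep

open Pool.Agent.Helper611.PcGrp Pool.Agent.Helper611.PcSet Pool.Agent.Helper611.PcAct
open Pool.Agent.Helper611.PcFun Pool.Agent.Helper611.PcUni Pool.Agent.Helper611.PcGen
open Pool.Agent.Helper611.PcChain Pool.Agent.Helper611.PcMal Pool.Agent.Helper611.PcW

/-- Restriction of an automorphism to an invariant subgroup. -/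
def resN {H : Type*} [Group H] {N : Subgroup H}
    (hNchar : ∀ (θ : MulAut H) (x : H), θ x ∈ N ↔ x ∈ N) (θ : MulAut H) : ↥N →* ↥N where
  toFun n := ⟨θ n, (hNchar θ n).mpr n.2⟩
  map_one' := by apply Subtype.ext; simp
  map_mul' a b := by apply Subtype.ext; simp

theorem main_rep {ι : Type} [Fintype ι] [DecidableEq ι] [hne : Nonempty ι] {H : Type} [Group H] {G : ι → Type}
    [∀ i, Group (G i)] (φ : ∀ i, H →* G i) (hφ : ∀ i, Function.Injective (φ i))
    (hn : ∀ i, (φ i).range.Normal) {N : Subgroup H}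
    (hNchar : ∀ (θ : MulAut H) (x : H), θ x ∈ N ↔ x ∈ N) (hNfg : Group.FG ↥N)
    (M : ℕ) (hM : 1 ≤ M) (V : Submodule ℚ (H → ℚ)) (hV : Module.Finite ℚ V)
    (hVl : ∀ a, ∀ f ∈ V, (fun x => f (a * x)) ∈ V)
    (hVa : ∀ θ : MulAut H, ∀ f ∈ V, (fun x => f (θ x)) ∈ V) (hVP : V ≤ P ℚ N M) (hVsep : Sep V)
    (S : ∀ i, Subgroup (G i)) (r : ∀ i, ↥(S i) → ↥N) (F : ∀ i, Submodule ℚ (↥(S i) → ℚ))
    (h1 : ∀ i, ∀ x ∈ S i, x ∈ (φ i).range → x ∈ N.map (φ i))
    (h3 : ∀ i, cov (S i ⊔ (φ i).range) ⊤) (hF1 : ∀ i, Module.Finite ℚ (F i))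
    (hF2 : ∀ i, ∀ a, ∀ f ∈ F i, (fun x => f (x * a)) ∈ F i)
    (hr : ∀ i, ∀ (x : ↥(S i)) (n : ↥N) (hn : φ i n ∈ S i), r i (x * ⟨φ i n, hn⟩) = r i x * n)
    (hF4 : ∀ i, ∀ g ∈ P ℚ (⊤ : Subgroup ↥N) M, (fun x => g (r i x)) ∈ F i) :
    ∃ (Z : Type) (act : Monoid.PushoutI φ →* Equiv.Perm Z) (W : Submodule ℚ (Z → ℚ)),
      Module.Finite ℚ W ∧ (∀ g, ∀ Φ ∈ W, (fun z => Φ (act g z)) ∈ W) ∧
      ∀ h : H, (∀ Φ ∈ W, ∀ z, Φ (act (Monoid.PushoutI.base φ h) z) = Φ z) → h = 1 := by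
  choose ρ R hR hρ hloc using fun i => exists_rho (φ i) (hφ i) (hn i) (r i) (h1 i) (h3 i) (hr i)
  let jx : (∀ i, G i) → Yy (H := H) S → Zz ρ := fun x p =>
    (fun i => pr φ hρ i ((p.1 i : G i) * x i), p.2)
  let W : Submodule ℚ (Zz ρ → ℚ) := ⨅ x : ∀ i, G i,
    (WW M V S F N).comap (cmpA (jx x)).toLinearMap
  have hW : ∀ Φ : Zz ρ → ℚ, Φ ∈ W ↔ ∀ x, (fun p => Φ (jx x p)) ∈ WW M V S F N := by
    intro Φ
    rw [Submodule.mem_iInf]
    rfl
  have hWWfin : Module.Finite ℚ ↥(WW M V S F N) := Module.Finite.iff_fg.mpr (WW_fg M V S F hV hF1)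
  -- invariance under the factors
  have hmv : ∀ (i : ι) (y : G i), ∀ Φ ∈ W, (fun z => Φ (mv φ hρ i y z)) ∈ W := by
    intro i y Φ hΦ
    rw [hW] at hΦ ⊢
    intro x
    obtain ⟨γ, t, h0, hγ, -⟩ := hloc i (x i)
    obtain ⟨γ', t', h0', hγ', -⟩ := hloc i (x i * y)
    set θ : MulAut H := conjH (φ i) (hφ i) (hn i) y⁻¹ with hθ
    set ω : H := h0' * (θ h0)⁻¹ with hω
    set n : ↥(S i) → ↥N := fun s => resN hNchar γ' (r i (s * t')) *
      (resN hNchar (MulAut.conj ω * θ * γ) (r i (s * t)))⁻¹ with hndef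
    set x' : ∀ i, G i := Function.update x i (x i * y) with hx'
    have hn' : ∀ g ∈ P ℚ (⊤ : Subgroup ↥N) M, (fun s => g (n s)) ∈ F i * F i := by
      intro g hg
      exact prod_mem (r i) (F i) (hF2 i) M (hF4 i) hNfg (resN hNchar γ')
        (resN hNchar (MulAut.conj ω * θ * γ)) t t' g hg
    have h5 := WW_inv M V S F hV hM hNchar hVl hVa i n hn' ω θ (hΦ x')
    convert h5 using 1
    funext p
    congr 1
    set s := p.1 i with hs
    set X : G i := (pr φ hρ i ((s : G i) * x i) : G i) * φ i p.2 * y with hX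
    have hXe : X = (s : G i) * (x i * y) * φ i (θ ((ρ i ((s : G i) * x i))⁻¹ * p.2)) := by
      rw [hθ, conjH_spec, hX]
      show (s : G i) * x i * φ i (ρ i ((s : G i) * x i))⁻¹ * φ i p.2 * y = _
      rw [map_mul]
      simp [mul_assoc]
    have hρX : ρ i X = (n s : H) * (ω * θ p.2) := by
      rw [hXe, hρ, hγ', hγ, hndef]
      show γ' (r i (s * t')) * h0' * θ ((γ (r i (s * t)) * h0)⁻¹ * p.2) =
        γ' (r i (s * t')) * ((MulAut.conj ω * θ * γ) (r i (s * t)))⁻¹ * (ω * θ p.2)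
      rw [MulAut.mul_apply, MulAut.mul_apply, MulAut.conj_apply, hω]
      simp [mul_assoc]
    have hprX : pr φ hρ i X = pr φ hρ i ((s : G i) * (x i * y)) := by
      rw [hXe, pr_mul φ hρ]
    show (Function.update (fun i => pr φ hρ i ((p.1 i : G i) * x i)) i (pr φ hρ i X), ρ i X) =
      ((fun i => pr φ hρ i ((p.1 i : G i) * x' i)), (n s : H) * (ω * θ p.2))
    rw [hρX, hprX]
    congr 1
    funext j
    by_cases hj : j = i
    · subst hj
      rw [Function.update_self, hx', Function.update_self]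
    · rw [Function.update_of_ne hj, hx', Function.update_of_ne hj]
  refine ⟨Zz ρ, pact φ hρ, W, ?_, ?_, ?_⟩
  · -- finite dimension
    have : ∀ i, Finite (R i) := hR
    let L : W →ₗ[ℚ] ((∀ i, R i) → WW M V S F N) := LinearMap.pi fun q =>
      ((cmpA (jx fun i => (q i : G i))).toLinearMap.comp (Submodule.subtype W)).codRestrict
        (WW M V S F N) (fun Φ => (hW Φ).mp Φ.2 _)
    refine Module.Finite.of_injective L ?_
    rw [← LinearMap.ker_eq_bot, LinearMap.ker_eq_bot']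
    intro Φ hΦ
    apply Subtype.ext
    funext z
    have hz : ∀ i, ∃ (t : ↥(S i)) (q : R i) (h : H), (z.1 i : G i) = t * q * φ i h := by
      intro i
      obtain ⟨γ, t, h, -, q, hq, hx⟩ := hloc i (z.1 i)
      exact ⟨t, ⟨q, hq⟩, h, hx⟩
    choose t q h hz using hz
    have h6 := congrFun (congrArg Subtype.val (congrFun hΦ q)) (t, z.2)
    have h7 : (Φ : Zz ρ → ℚ) (jx (fun i => (q i : G i)) (t, z.2)) = 0 := h6
    have h8 : jx (fun i => (q i : G i)) (t, z.2) = z := by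
      refine Prod.ext ?_ rfl
      funext i
      show pr φ hρ i ((t i : G i) * q i) = z.1 i
      rw [← pr_self φ hρ i (z.1 i), hz i, pr_mul φ hρ]
    rw [h8] at h7
    exact h7
  · intro g
    induction g using Monoid.PushoutI.induction_on with
    | of i y =>
      intro Φ hΦ
      have e1 : pact φ hρ (Monoid.PushoutI.of i y) = act φ hρ i y := by
        unfold pact
        rw [Monoid.PushoutI.lift_of]
      rw [e1]
      exact hmv i y⁻¹ Φ hΦ
    | base h =>
      intro Φ hΦ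
      have e1 : pact φ hρ (Monoid.PushoutI.base φ h) = bact h := by
        unfold pact
        rw [Monoid.PushoutI.lift_base]
      rw [e1]
      obtain ⟨i⟩ := hne
      have e2 : (bact h : Equiv.Perm (Zz ρ)) = act φ hρ i (φ i h) := by
        rw [← act_base φ hρ i]; rfl
      rw [e2]
      exact hmv i (φ i h)⁻¹ Φ hΦ
    | mul g g' hg hg' =>
      intro Φ hΦ
      rw [map_mul]
      exact hg' _ (hg Φ hΦ)
  · intro h hh
    have e1 : pact φ hρ (Monoid.PushoutI.base φ h) = bact h := by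
      unfold pact
      rw [Monoid.PushoutI.lift_base]
    rw [e1] at hh
    have h2 : h⁻¹ = 1 := by
      apply hVsep
      intro f hf
      have hfW : (fun z : Zz ρ => f z.2) ∈ W := by
        rw [hW]
        intro x
        exact mem_WW M V S F hf hVP
      have := hh _ hfW (fun i => pr φ hρ i 1, 1)
      have h3 : f (1 * h⁻¹) = f 1 := this
      rwa [one_mul] at h3
    simpa using h2

end Pool.Agent.Helper611.PcRep
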