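import Mathlib
import Pool.Agent.Helper611.PcRep

set_option autoImplicit false

namespace Pool.Agent.Helper611.PcLin

open Pool.Agent.Helper611.PcGrp Pool.Agent.Helper611.PcSet Pool.Agent.Helper611.PcAct
open Pool.Agent.Helper611.PcFun Pool.Agent.Helper611.PcUni Pool.Agent.Helper611.PcGen
open Pool.Agent.Helper611.PcChain Pool.Agent.Helper611.PcMal Pool.Agent.Helper611.PcW
open Pool.Agent.Helper611.PcRep Pool.Agent.Helper611.PcV

theorem rep_of_action {Γ Z : Type} [Group Γ] (act : Γ →* Equiv.Perm Z)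
    (W : Submodule ℚ (Z → ℚ)) (hW : Module.Finite ℚ W)
    (hinv : ∀ g, ∀ Φ ∈ W, (fun z => Φ (act g z)) ∈ W) :
    ∃ (n : ℕ) (ρ : Γ →* Matrix.GeneralLinearGroup (Fin n) ℚ),
      ∀ g, ρ g = 1 → ∀ Φ ∈ W, ∀ z, Φ (act g z) = Φ z := by
  let op : Γ →* Module.End ℚ W :=
    { toFun := fun g => (LinearMap.funLeft ℚ ℚ (act g⁻¹)).restrict (fun Φ hΦ => hinv g⁻¹ Φ hΦ)
      map_one' := by
        apply LinearMap.ext; intro Φ
        apply Subtype.ext; funext z
        show (Φ : Z → ℚ) (act 1⁻¹ z) = (Φ : Z → ℚ) z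
        simp
      map_mul' := fun g h => by
        apply LinearMap.ext; intro Φ
        apply Subtype.ext; funext z
        show (Φ : Z → ℚ) (act (g * h)⁻¹ z) = (Φ : Z → ℚ) (act h⁻¹ (act g⁻¹ z))
        rw [mul_inv_rev, map_mul, Equiv.Perm.mul_apply] }
  let b := Module.finBasis ℚ W
  let e := LinearMap.toMatrixAlgEquiv b
  refine ⟨Module.finrank ℚ W, (Units.map (e : Module.End ℚ W →* Matrix _ _ ℚ)).comp op.toHomUnits,
    ?_⟩
  intro g hg Φ hΦ z
  have h1 : e (op g) = 1 := by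
    have := congrArg Units.val hg
    exact this
  have h2 : op g = 1 := e.injective (by rw [h1, map_one])
  have h3 := congrArg (fun T : Module.End ℚ W => ((T ⟨Φ, hΦ⟩ : W) : Z → ℚ) (act g z)) h2
  have h4 : Φ (act g⁻¹ (act g z)) = Φ (act g z) := h3
  rw [← Equiv.Perm.mul_apply, ← map_mul, inv_mul_cancel, map_one, Equiv.Perm.one_apply] at h4
  exact h4.symm

theorem rep_base {G : Fin 2 → Type} [∀ i, Group (G i)] {H : Type} [Group H]
    (φ : ∀ i, H →* G i) (hs : ∀ i, Group.IsSolvable (G i)) (hmax : ∀ i, MaxC (G i))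
    (hφ : ∀ i, Function.Injective (φ i)) (hn : ∀ i, (φ i).range.Normal) :
    ∃ (n : ℕ) (ρ : Monoid.PushoutI φ →* Matrix.GeneralLinearGroup (Fin n) ℚ),
      ∀ h : H, ρ (Monoid.PushoutI.base φ h) = 1 → h = 1 := by
  have hHmax : MaxC H := (hmax 0).of_injective (φ 0) (hφ 0)
  have hHs : Group.IsSolvable H := Group.isSolvable_of_isSolvable_injective (hφ 0)
  choose A' hA'f hA'n using fun i => malcev (hmax i) (hs i)
  set K1 : Subgroup H := ⨅ i, (A' i).comap (φ i) with hK1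
  have hcf : ∀ i, ((A' i).comap (φ i)).FiniteIndex := fun i => ⟨by
    rw [Subgroup.index_comap]
    exact cov_iff.mp ((cov_top.mpr (hA'f i)).mono le_rfl le_top)⟩
  have hK1f : K1.FiniteIndex := Subgroup.finiteIndex_iInf hcf
  have hK1le : ∀ i, K1.map (φ i) ≤ A' i := by
    intro i
    rw [Subgroup.map_le_iff_le_comap]
    exact iInf_le _ i
  have hK1n : Group.IsNilpotent ↥⁅K1, K1⁆ := by
    rw [← nil_map (φ 0) (hφ 0), Subgroup.map_commutator]
    exact nil_of_le (Subgroup.commutator_mono (hK1le 0) (hK1le 0)) (hA'n 0)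
  obtain ⟨C0, N, hC0, hg⟩ := refine_good hHmax hHs K1 hK1n
  obtain ⟨M, V, hM, hV, hVl, -, hVa, hVP, hVsep⟩ := exists_V hHmax hg
  have hSA := fun i => exists_SA (hmax i) (hs i) (φ i) (hφ i) (hn i) hg (A' i) (hA'n i)
    ((Subgroup.map_mono hC0).trans (hK1le i)) M
  choose S r F h1 _ h3 hF1 hF2 _ hr hF4 using hSA
  obtain ⟨Z, act, W, hW1, hW2, hW3⟩ := main_rep φ hφ hn hg.nchar (hHmax.sub N) M hM V hV hVl hVa
    hVP hVsep S r F h1 h3 hF1 hF2 hr hF4
  obtain ⟨n, ρ, hρ⟩ := rep_of_action act W hW1 hW2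
  exact ⟨n, ρ, fun h hh => hW3 h (hρ _ hh)⟩

theorem polycyclic_linear {Q : Type} [Group Q] (hs : Group.IsSolvable Q) (hmax : MaxC Q) :
    ∃ (n : ℕ) (ρ : Q →* Matrix.GeneralLinearGroup (Fin n) ℚ), Function.Injective ρ := by
  obtain ⟨n, ρ, hρ⟩ := rep_base (G := fun _ => Q) (fun _ => MonoidHom.id Q) (fun _ => hs)
    (fun _ => hmax) (fun _ => Function.injective_id)
    (fun _ => by rw [MonoidHom.range_eq_top.mpr Function.surjective_id]; infer_instance)
  refine ⟨n, ρ.comp (Monoid.PushoutI.base _), ?_⟩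
  rw [injective_iff_map_eq_one]
  exact hρ

end Pool.Agent.Helper611.PcLin
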