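import Mathlib
import Pool.Agent.Helper611.PcLin
import Pool.Agent.Helper611.PcFree

set_option autoImplicit false

namespace Pool.Agent.Helper611.PcFin

open Pool.Agent.Helper611.PcGrp Pool.Agent.Helper611.PcLin Pool.Agent.Helper611.PcFree
open Monoid Matrix

section Quot

variable {ι : Type} {G : ι → Type} [∀ i, Group (G i)] {H : Type} [Group H]
  (φ : ∀ i, H →* G i) [hn : ∀ i, (φ i).range.Normal]

theorem base_normal : (PushoutI.base φ).range.Normal := by
  constructor
  rintro _ ⟨h, rfl⟩ g
  induction g using PushoutI.induction_on generalizing h with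
  | of i y =>
    obtain ⟨h', hh'⟩ := (hn i).conj_mem (φ i h) ⟨h, rfl⟩ y
    refine ⟨h', ?_⟩
    rw [← PushoutI.of_apply_eq_base φ i h', ← PushoutI.of_apply_eq_base φ i h, hh', map_mul,
      map_mul, map_inv]
  | base h' =>
    exact ⟨h' * h * h'⁻¹, by simp⟩
  | mul x y hx hy =>
    obtain ⟨h1, e1⟩ := hy h
    obtain ⟨h2, e2⟩ := hx h1
    refine ⟨h2, ?_⟩
    rw [e2, e1]
    simp [mul_assoc]

/-- The projection onto the free product of the quotients. -/
noncomputable def qmap : PushoutI φ →* CoprodI (fun i => G i ⧸ (φ i).range) :=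
  PushoutI.lift (fun i => (CoprodI.of (M := fun i => G i ⧸ (φ i).range)).comp
    (QuotientGroup.mk' (φ i).range)) 1 (fun i => by
      ext1 h
      have : QuotientGroup.mk' (φ i).range (φ i h) = 1 :=
        (QuotientGroup.eq_one_iff _).mpr ⟨h, rfl⟩
      rw [MonoidHom.comp_apply, MonoidHom.comp_apply, this, map_one]
      rfl)

theorem qmap_ker (x : PushoutI φ) (hx : qmap φ x = 1) : ∃ h, PushoutI.base φ h = x := by
  have hN := base_normal φ
  let s : CoprodI (fun i => G i ⧸ (φ i).range) →* PushoutI φ ⧸ (PushoutI.base φ).range :=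
    CoprodI.lift fun i => QuotientGroup.lift (φ i).range
      ((QuotientGroup.mk' (PushoutI.base φ).range).comp (PushoutI.of i)) (by
        rintro _ ⟨h, rfl⟩
        rw [MonoidHom.mem_ker, MonoidHom.comp_apply, PushoutI.of_apply_eq_base]
        exact (QuotientGroup.eq_one_iff _).mpr ⟨h, rfl⟩)
  have hs : s.comp (qmap φ) = QuotientGroup.mk' (PushoutI.base φ).range := by
    apply PushoutI.hom_ext
    · intro i
      ext1 g
      show s (qmap φ (PushoutI.of i g)) = QuotientGroup.mk' _ (PushoutI.of i g)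
      unfold qmap
      rw [PushoutI.lift_of]
      show s (CoprodI.of (QuotientGroup.mk' (φ i).range g)) = _
      rw [CoprodI.lift_of]
      rfl
    · ext1 h
      show s (qmap φ (PushoutI.base φ h)) = QuotientGroup.mk' _ (PushoutI.base φ h)
      unfold qmap
      rw [PushoutI.lift_base]
      have : QuotientGroup.mk' (PushoutI.base φ).range (PushoutI.base φ h) = 1 :=
        (QuotientGroup.eq_one_iff _).mpr ⟨h, rfl⟩
      rw [this, MonoidHom.one_apply, map_one]
  have h1 : QuotientGroup.mk' (PushoutI.base φ).range x = 1 := by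
    rw [← hs, MonoidHom.comp_apply, hx, map_one]
  exact (QuotientGroup.eq_one_iff _).mp h1

end Quot

theorem to_GL {Γ F : Type} [Group Γ] [Field F] {κ : Type} [Fintype κ] [DecidableEq κ]
    (ρ : Γ →* Matrix κ κ F) (hρ : ∀ x, ρ x = 1 → x = 1) :
    ∃ (n : ℕ) (σ : Γ →* Matrix.GeneralLinearGroup (Fin n) F), Function.Injective σ := by
  let e := Fintype.equivFin κ
  let r := Matrix.reindexAlgEquiv F F e
  let σ0 : Γ →* Matrix (Fin (Fintype.card κ)) (Fin (Fintype.card κ)) F :=
    (r : Matrix κ κ F →* Matrix (Fin (Fintype.card κ)) (Fin (Fintype.card κ)) F).comp ρ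
  refine ⟨Fintype.card κ, σ0.toHomUnits, ?_⟩
  rw [injective_iff_map_eq_one]
  intro x hx
  apply hρ
  have h1 : r (ρ x) = 1 := congrArg Units.val hx
  exact r.injective (by rw [h1, map_one])

theorem main (G : Fin 2 → Type) [∀ i, Group (G i)] (H : Type) [Group H] (φ : ∀ i, H →* G i)
    (hG : ∀ i, Group.IsSolvable (G i) ∧ ∀ S : Subgroup (G i), S.FG)
    (hφ : ∀ i, Function.Injective (φ i)) (hn : ∀ i, (φ i).range.Normal) :
    ∃ (F : Type) (_ : Field F) (n : ℕ)
      (ρ : Monoid.PushoutI φ →* Matrix.GeneralLinearGroup (Fin n) F), Function.Injective ρ := by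
  classical
  obtain ⟨n1, ρ1, hρ1⟩ := rep_base φ (fun i => (hG i).1) (fun i => (hG i).2) hφ hn
  have hQs : ∀ i, Group.IsSolvable (G i ⧸ (φ i).range) := fun i => by
    have := (hG i).1
    exact Group.isSolvable_of_surjective (QuotientGroup.mk'_surjective (φ i).range)
  have hQm : ∀ i, MaxC (G i ⧸ (φ i).range) := fun i =>
    MaxC.of_surjective (hG i).2 (QuotientGroup.mk' (φ i).range)
      (QuotientGroup.mk'_surjective (φ i).range)
  choose n σ hσ using fun i => polycyclic_linear (hQs i) (hQm i)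
  let m := (Σ i : Fin 2, Fin (n i)) ⊕ Unit
  let τ : ∀ i, (G i ⧸ (φ i).range) →* Matrix m m ℚ := fun i =>
    (pad ℚ (Σ i : Fin 2, Fin (n i))).comp
      (((Matrix.blockDiagonal'RingHom (fun i : Fin 2 => Fin (n i)) ℚ).toMonoidHom.comp
        (MonoidHom.mulSingle (fun i : Fin 2 => Matrix (Fin (n i)) (Fin (n i)) ℚ) i)).comp
        ((Units.coeHom _).comp (σ i)))
  have hτ : ∀ i, Function.Injective (τ i) := by
    intro i a b hab
    have h1 := pad_injective ℚ _ hab
    have h2 := Matrix.blockDiagonal'_injective h1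
    have h3 := Pi.mulSingle_injective i h2
    have h4 := Units.ext h3
    exact hσ i h4
  obtain ⟨F, hF, g, κ, hκ1, hκ2, ρ2, hρ2⟩ := free_linear τ hτ
  have hg : Function.Injective g := g.injective
  let ρ : PushoutI φ →* Matrix (Fin n1 ⊕ κ) (Fin n1 ⊕ κ) F :=
    { toFun := fun x => fromBlocks (((ρ1 x : Matrix.GeneralLinearGroup (Fin n1) ℚ) :
        Matrix (Fin n1) (Fin n1) ℚ).map g) 0 0 (ρ2 (qmap φ x))
      map_one' := by
        rw [map_one, map_one, map_one, Units.val_one, Matrix.map_one g (map_zero g) (map_one g),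
          fromBlocks_one]
      map_mul' := fun x y => by
        rw [map_mul, map_mul, map_mul, Units.val_mul, Matrix.map_mul, fromBlocks_multiply]
        simp }
  obtain ⟨k, σ', hσ'⟩ := to_GL ρ (by
    intro x hx
    have h1 : fromBlocks (((ρ1 x : Matrix.GeneralLinearGroup (Fin n1) ℚ) :
        Matrix (Fin n1) (Fin n1) ℚ).map g) 0 0 (ρ2 (qmap φ x)) =
        (1 : Matrix (Fin n1 ⊕ κ) (Fin n1 ⊕ κ) F) := hx
    rw [← fromBlocks_one, fromBlocks_inj] at h1
    obtain ⟨h, rfl⟩ := qmap_ker φ x (hρ2 _ h1.2.2.2)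
    have h2 : ρ1 (PushoutI.base φ h) = 1 := by
      apply Units.ext
      rw [Units.val_one]
      ext i j
      have := congrFun (congrFun h1.1 i) j
      rw [Matrix.map_apply, Matrix.one_apply] at this
      rw [Matrix.one_apply]
      apply hg
      rw [this]
      split_ifs <;> simp
    rw [hρ1 h h2, map_one])
  exact ⟨F, hF, k, σ', hσ'⟩

end Pool.Agent.Helper611.PcFin
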