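import Pool.Agent.Helper611.Rel

set_option autoImplicit false
set_option linter.unusedSectionVars false
set_option linter.unnecessarySimpa false

namespace Pool.Agent.Helper611.Sub

open ExteriorAlgebra Pool.Agent.Helper611.Base Pool.Agent.Helper611.Rel

section gen
variable {V : Type} [Fintype V] [LinearOrder V]

lemma chainmap_gen {Q : Type*} [AddCommGroup Q] (dd : Q →+ Q) (q0 : Q) (h0 : dd q0 = 0)
    (S Z : Finset V → AddSubgroup Q)
    (h1 : ∀ σ : Finset V, ∀ x ∈ σ, σ.erase x ≠ ∅ → S (σ.erase x) ≤ Z σ)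
    (h2 : ∀ σ : Finset V, σ.card = 1 → q0 ∈ Z σ)
    (h3 : ∀ σ : Finset V, σ ≠ ∅ → ∀ z ∈ Z σ, dd z = 0 → ∃ w ∈ S σ, dd w = z) :
    ∃ lam : Finset V → Q, lam ∅ = q0 ∧ (∀ σ, σ ≠ ∅ → lam σ ∈ S σ) ∧
      ∀ σ, σ ≠ ∅ → dd (lam σ) = ∑ x ∈ σ, sgn x (σ.erase x) • lam (σ.erase x) := by
  classical
  obtain ⟨D, hD⟩ := carrier_lemma dd (Set.univ : Set (Finset V)) ∅
    (fun σ => if σ = ∅ then ⊥ else S σ) (fun σ => if σ = ∅ then ⊥ else Z σ) 1
    (fun σ => if σ.card = 1 then q0 else 0)
    (fun _ _ _ _ => Set.mem_univ _)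
    (by
      intro σ _ x hx
      rw [Finset.sdiff_empty] at hx
      have hne : σ ≠ ∅ := Finset.nonempty_iff_ne_empty.1 ⟨x, hx⟩
      by_cases h : σ.erase x = ∅
      · simp only [if_pos h]; exact bot_le
      · simp only [if_neg h, if_neg hne]
        exact h1 σ x hx h)
    (by
      intro σ _
      by_cases h : σ.card = 1
      · have hne : σ ≠ ∅ := by
          rintro rfl
          simp at h
        simp only [if_pos h, if_neg hne]
        exact h2 σ h
      · simp only [if_neg h]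
        exact AddSubgroup.zero_mem _)
    (by
      intro σ _ z hz hdz
      by_cases h : σ = ∅
      · simp only [if_pos h] at hz ⊢
        rw [AddSubgroup.mem_bot.1 hz]
        exact ⟨0, AddSubgroup.zero_mem _, map_zero _⟩
      · simp only [if_neg h] at hz ⊢
        exact h3 σ h z hz hdz)
    (by
      intro σ _
      have e1 : dd (if σ.card = 1 then q0 else 0) = 0 := by
        by_cases h : σ.card = 1
        · rw [if_pos h]
          exact h0
        · rw [if_neg h, map_zero]
      rw [e1, one_smul, Finset.sdiff_empty]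
      symm
      rw [neg_eq_zero]
      by_cases h2 : σ.card = 2
      · obtain ⟨a, b, hab, rfl⟩ := Finset.card_eq_two.1 h2
        have e2 : ({a, b} : Finset V).erase a = {b} := by
          ext x; simp only [Finset.mem_erase, Finset.mem_insert, Finset.mem_singleton]
          constructor
          · rintro ⟨h1, h | h⟩
            · exact absurd h h1
            · exact h
          · rintro rfl; exact ⟨hab.symm, Or.inr rfl⟩
        have e3 : ({a, b} : Finset V).erase b = {a} := by
          ext x; simp only [Finset.mem_erase, Finset.mem_insert, Finset.mem_singleton]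
          constructor
          · rintro ⟨h1, h | h⟩
            · exact h
            · exact absurd h h1
          · rintro rfl; exact ⟨hab, Or.inl rfl⟩
        rw [Finset.sum_pair hab, e2, e3, if_pos (Finset.card_singleton _),
          if_pos (Finset.card_singleton _), ← add_zsmul]
        have e4 := sgn_swap' a b ∅ hab (Finset.notMem_empty _) (Finset.notMem_empty _)
        rw [sgn_empty, sgn_empty, mul_one, mul_one] at e4
        have e5 : insert b (∅ : Finset V) = {b} := rfl
        have e6 : insert a (∅ : Finset V) = {a} := rfl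
        rw [e5, e6] at e4
        rw [e4, neg_add_cancel, zero_zsmul]
      · refine Finset.sum_eq_zero fun x hx => ?_
        rw [if_neg, smul_zero]
        rw [Finset.card_erase_of_mem hx]
        omega)
  refine ⟨fun σ => if σ = ∅ then q0 else D σ, if_pos rfl, ?_, ?_⟩
  · intro σ h
    have h4 := (hD σ (Set.mem_univ _)).1
    simp only [if_neg h] at h4 ⊢
    exact h4
  · intro σ hne
    have h1 := (hD σ (Set.mem_univ _)).2
    simp only [if_neg hne]
    rw [h1, one_smul, Finset.sdiff_empty]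
    by_cases h : σ.card = 1
    · obtain ⟨v, rfl⟩ := Finset.card_eq_one.1 h
      have e1 : ({v} : Finset V).erase v = ∅ := by simp
      rw [if_pos h, Finset.sum_singleton, Finset.sum_singleton, e1, if_pos rfl, sgn_empty,
        one_smul, one_smul]
      have h3 : D ∅ = 0 := by
        have h4 := (hD ∅ (Set.mem_univ _)).1
        rw [if_pos rfl] at h4
        exact AddSubgroup.mem_bot.1 h4
      rw [h3, add_zero]
    · rw [if_neg h, zero_add]
      refine Finset.sum_congr rfl fun x hx => ?_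
      rw [if_neg]
      intro h3
      have h4 := Finset.card_erase_of_mem hx
      rw [h3, Finset.card_empty] at h4
      have h5 := Finset.card_pos.2 ⟨x, hx⟩
      omega

/-- chains supported on `P` -/
def sup (P : Finset V → Prop) : AddSubgroup (Finset V → ℝ) where
  carrier := {c | ∀ σ, c σ ≠ 0 → P σ}
  add_mem' := by
    intro a b ha hb σ hσ
    by_cases h1 : a σ = 0
    · refine hb σ fun h2 => hσ ?_
      show a σ + b σ = 0
      rw [h1, h2, add_zero]
    · exact ha σ h1
  zero_mem' := fun σ hσ => absurd rfl hσ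
  neg_mem' := by
    intro a ha σ hσ
    exact ha σ fun h => hσ (by show - a σ = 0; rw [h, neg_zero])

lemma mem_sup (P : Finset V → Prop) (c : Finset V → ℝ) : c ∈ sup P ↔ ∀ σ, c σ ≠ 0 → P σ := Iff.rfl

lemma bd_single_empty : bd (Pi.single (∅ : Finset V) (1 : ℝ)) = 0 := by
  funext ρ
  unfold bd
  refine Finset.sum_eq_zero fun x _ => ?_
  rw [Pi.single_eq_of_ne (Finset.insert_ne_empty _ _), smul_zero]

/-- the boundary as an additive map -/
def bdA : (Finset V → ℝ) →+ (Finset V → ℝ) := (bdL (V := V)).toAddMonoidHom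

lemma bdA_apply (c : Finset V → ℝ) : bdA c = bd c := rfl

lemma hone (Φ : Finset V → Finset V → ℝ) (hs : ∀ σ ρ, Φ σ ρ ≠ 0 → ρ ⊆ σ) (he : Φ ∅ ∅ = 1)
    (hb : ∀ σ, σ ≠ ∅ → ∀ ρ, bd (Φ σ) ρ = ∑ x ∈ σ, sgn x (σ.erase x) • Φ (σ.erase x) ρ) :
    ∀ σ, Φ σ σ = 1 := by
  have key : ∀ m : ℕ, ∀ σ : Finset V, σ.card = m → Φ σ σ = 1 := by
    intro m
    induction m with
    | zero =>
      intro σ hc
      rw [Finset.card_eq_zero.1 hc]; exact he
    | succ m ih =>
      intro σ hc
      obtain ⟨x, hx⟩ : σ.Nonempty := Finset.card_pos.1 (by omega)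
      have hne : σ ≠ ∅ := Finset.nonempty_iff_ne_empty.1 ⟨x, hx⟩
      have e1 := hb σ hne (σ.erase x)
      have e2 : bd (Φ σ) (σ.erase x) = sgn x (σ.erase x) • Φ σ σ := by
        unfold bd
        rw [Finset.sum_eq_single_of_mem x (Finset.mem_compl.2 (Finset.notMem_erase _ _)),
          Finset.insert_erase hx]
        intro y hy hyx
        have : Φ σ (insert y (σ.erase x)) = 0 := by
          by_contra h2
          have h3 := hs σ _ h2 (Finset.mem_insert_self _ _)
          exact (Finset.mem_compl.1 hy) (Finset.mem_erase.2 ⟨hyx, h3⟩)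
        rw [this, smul_zero]
      have e3 : ∑ y ∈ σ, sgn y (σ.erase y) • Φ (σ.erase y) (σ.erase x) =
          sgn x (σ.erase x) • (1 : ℝ) := by
        rw [Finset.sum_eq_single_of_mem x hx]
        · rw [ih (σ.erase x) (by rw [Finset.card_erase_of_mem hx]; omega)]
        · intro y hy hyx
          have : Φ (σ.erase y) (σ.erase x) = 0 := by
            by_contra h2
            have h3 := hs _ _ h2 (Finset.mem_erase.2 ⟨hyx, hy⟩)
            exact Finset.notMem_erase y σ h3
          rw [this, smul_zero]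
      rw [e2, e3] at e1
      have e4 := congrArg (fun t => sgn x (σ.erase x) • t) e1
      simpa only [sgn_smul_smul] using e4
  intro σ
  exact key _ σ rfl

lemma wdg_supp (v : V) (c : Finset V → ℝ) (σ : Finset V) (h : wdg v c σ ≠ 0) :
    v ∈ σ ∧ c (σ.erase v) ≠ 0 := by
  unfold wdg at h
  by_cases hv : v ∈ σ
  · rw [if_pos hv] at h
    exact ⟨hv, fun h0 => h (by rw [h0, smul_zero])⟩
  · rw [if_neg hv] at h
    exact absurd rfl h

end gen

section labels
variable {U V : Type} [Fintype U] [LinearOrder U] [Fintype V] [LinearOrder V]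

/-- the chain map of a vertex map -/
lemma label_map (lab : U → V) :
    ∃ T : Finset U → (Finset V → ℝ), T ∅ = Pi.single ∅ 1 ∧
      (∀ G ρ, T G ρ ≠ 0 → ρ ⊆ G.image lab ∧ ρ.card = G.card) ∧
      ∀ G, bd (T G) = ∑ x ∈ G, sgn x (G.erase x) • T (G.erase x) := by
  classical
  obtain ⟨T, h0, h1, h2⟩ := chainmap_gen (V := U) (bdA (V := V)) (Pi.single ∅ 1)
    bd_single_empty
    (fun G => sup fun ρ => ρ ⊆ G.image lab ∧ ρ.card = G.card)
    (fun G => sup fun ρ => ρ ⊆ G.image lab ∧ ρ.card + 1 = G.card)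
    (by
      intro G x hx _ c hc ρ hρ
      have h3 := hc ρ hρ
      exact ⟨h3.1.trans (Finset.image_subset_image (Finset.erase_subset _ _)),
        by rw [h3.2]; exact Finset.card_erase_add_one hx⟩)
    (by
      intro G hG ρ hρ
      have : ρ = ∅ := by
        by_contra h
        exact hρ (Pi.single_eq_of_ne h _)
      subst this
      exact ⟨Finset.empty_subset _, by rw [Finset.card_empty, hG]⟩)
    (by
      intro G hG z hz hdz
      obtain ⟨x, hx⟩ := Finset.nonempty_iff_ne_empty.2 hG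
      refine ⟨wdg (lab x) z, ?_, ?_⟩
      · intro ρ hρ
        obtain ⟨h3, h4⟩ := wdg_supp _ _ _ hρ
        have h5 := hz _ h4
        refine ⟨?_, ?_⟩
        · intro y hy
          by_cases hyx : y = lab x
          · rw [hyx]; exact Finset.mem_image_of_mem _ hx
          · exact h5.1 (Finset.mem_erase.2 ⟨hyx, hy⟩)
        · rw [← h5.2]; exact (Finset.card_erase_add_one h3).symm
      · funext ρ
        rw [bdA_apply, bd_wdg]
        have h3 : bd z = 0 := hdz
        rw [h3]
        have h4 : wdg (lab x) (0 : Finset V → ℝ) ρ = 0 := by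
          unfold wdg
          simp
        rw [h4, sub_zero])
  refine ⟨T, h0, ?_, ?_⟩
  · intro G ρ hρ
    by_cases hG : G = ∅
    · subst hG
      rw [h0] at hρ
      have : ρ = ∅ := by
        by_contra h
        exact hρ (Pi.single_eq_of_ne h _)
      subst this
      exact ⟨Finset.empty_subset _, rfl⟩
    · exact h1 G hG ρ hρ
  · intro G
    by_cases hG : G = ∅
    · subst hG
      rw [h0, Finset.sum_empty]
      exact bd_single_empty
    · exact h2 G hG

/-- A Sperner lemma for chain subdivisions. -/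
lemma sperner (lab : U → V) (φ : Finset V → (Finset U → ℝ)) (h0 : φ ∅ = Pi.single ∅ 1)
    (hs : ∀ W G, φ W G ≠ 0 → G.image lab ⊆ W ∧ G.card = W.card)
    (hb : ∀ W, W ≠ ∅ → bd (φ W) = ∑ v ∈ W, sgn v (W.erase v) • φ (W.erase v)) (W : Finset V) :
    ∃ G, φ W G ≠ 0 ∧ G.image lab = W ∧ G.card = W.card := by
  classical
  obtain ⟨T, t0, t1, t2⟩ := label_map lab
  let Ξ : Finset V → Finset V → ℝ := fun W ρ => ∑ G, φ W G * T G ρ
  have e1 : ∀ W ρ, bd (Ξ W) ρ = ∑ G, bd (φ W) G * T G ρ := by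
    intro W ρ
    have a1 : bd (Ξ W) ρ = ∑ G, φ W G * bd (T G) ρ := by
      unfold bd
      simp only [Ξ]
      rw [Finset.sum_congr rfl (fun x _ => Finset.smul_sum), Finset.sum_comm]
      refine Finset.sum_congr rfl fun G _ => ?_
      rw [Finset.mul_sum]
      refine Finset.sum_congr rfl fun x _ => ?_
      rw [mul_smul_comm]
    rw [a1]
    have a2 : ∀ G, φ W G * bd (T G) ρ =
        ∑ x ∈ G, φ W G * (sgn x (G.erase x) • T (G.erase x) ρ) := by
      intro G
      rw [t2 G, Finset.sum_apply, Finset.mul_sum]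
      rfl
    rw [Finset.sum_congr rfl (fun G _ => a2 G)]
    have a3 := reidx (∅ : Finset U) (fun x π σ => φ W σ * (sgn x π • T π ρ))
    simp only [Finset.empty_subset, Finset.filter_true, Finset.sdiff_empty] at a3
    rw [a3]
    refine Finset.sum_congr rfl fun π _ => ?_
    unfold bd
    rw [Finset.sum_mul]
    refine Finset.sum_congr rfl fun x _ => ?_
    rw [zsmul_eq_mul, zsmul_eq_mul]; ring
  have h1 : Ξ W W = 1 := by
    refine hone Ξ ?_ ?_ ?_ W
    · intro σ ρ hρ
      obtain ⟨G, _, hG⟩ := Finset.exists_ne_zero_of_sum_ne_zero hρ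
      have a1 : φ σ G ≠ 0 := fun h => hG (by rw [h, zero_mul])
      have a2 : T G ρ ≠ 0 := fun h => hG (by rw [h, mul_zero])
      exact (t1 G ρ a2).1.trans (hs σ G a1).1
    · show ∑ G, φ ∅ G * T G ∅ = 1
      rw [Finset.sum_eq_single ∅]
      · rw [h0, t0, Pi.single_eq_same, Pi.single_eq_same, mul_one]
      · intro G _ hG
        rw [h0, Pi.single_eq_of_ne hG, zero_mul]
      · intro h; exact absurd (Finset.mem_univ _) h
    · intro σ hσ ρ
      rw [e1, hb σ hσ]
      simp only [Ξ, Finset.sum_apply, Finset.sum_mul, Finset.smul_sum]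
      rw [Finset.sum_comm]
      refine Finset.sum_congr rfl fun v _ => Finset.sum_congr rfl fun G _ => ?_
      rw [Pi.smul_apply, smul_mul_assoc]
  have h2 : Ξ W W ≠ 0 := by rw [h1]; exact one_ne_zero
  obtain ⟨G, _, hG⟩ := Finset.exists_ne_zero_of_sum_ne_zero h2
  have a1 : φ W G ≠ 0 := fun h => hG (by rw [h, zero_mul])
  have a2 : T G W ≠ 0 := fun h => hG (by rw [h, mul_zero])
  exact ⟨G, a1, Finset.Subset.antisymm (hs W G a1).1 (t1 G W a2).1, (hs W G a1).2⟩

end labels

section cone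
variable {V : Type} [Fintype V] [LinearOrder V] {M : Type*} [AddCommGroup M]

/-- put a vertex in front, general coefficients -/
def wdgM (x : V) (c : Finset V → M) (σ : Finset V) : M :=
  if x ∈ σ then sgn x (σ.erase x) • c (σ.erase x) else 0

lemma sgn_ss (x : V) (ρ : Finset V) (a : M) : sgn x ρ • sgn x ρ • a = a := by
  rw [smul_smul, sgn_mul_self, one_smul]

lemma sgn_prod (x y : V) (π : Finset V) (hxy : x ≠ y) (hx : x ∉ π) (hy : y ∉ π) :
    sgn y (insert x π) * sgn x (insert y π) = -(sgn x π * sgn y π) := by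
  have h4 := sgn_swap x y π hxy hx hy
  have h5 := sgn_mul_self x π
  have e1 : sgn y (insert x π) = -(sgn x π * sgn y π * sgn x (insert y π)) := by
    calc sgn y (insert x π) = (sgn x π * sgn x π) * sgn y (insert x π) := by rw [h5, one_mul]
      _ = sgn x π * (sgn x π * sgn y (insert x π)) := by ring
      _ = _ := by rw [h4]; ring
  rw [e1]
  have h8 := sgn_mul_self x (insert y π)
  calc -(sgn x π * sgn y π * sgn x (insert y π)) * sgn x (insert y π)
      = -(sgn x π * sgn y π * (sgn x (insert y π) * sgn x (insert y π))) := by ring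
    _ = _ := by rw [h8, mul_one]

lemma bd_wdgM (x : V) (c : Finset V → M) (ρ : Finset V) :
    bd (wdgM x c) ρ = c ρ - wdgM x (bd c) ρ := by
  by_cases hx : x ∈ ρ
  · obtain ⟨π, hπ, rfl⟩ : ∃ π, x ∉ π ∧ insert x π = ρ :=
      ⟨ρ.erase x, Finset.notMem_erase _ _, Finset.insert_erase hx⟩
    have h1 : wdgM x (bd c) (insert x π) = c (insert x π) +
        ∑ y ∈ (insert x π)ᶜ, (sgn x π * sgn y π) • c (insert y π) := by
      unfold wdgM
      rw [if_pos (Finset.mem_insert_self _ _), Finset.erase_insert hπ]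
      unfold bd
      rw [← Finset.add_sum_erase _ _ (Finset.mem_compl.2 hπ), smul_add, sgn_ss,
        Finset.compl_insert, Finset.smul_sum]
      congr 1
      exact Finset.sum_congr rfl fun y _ => smul_smul _ _ _
    have h2 : bd (wdgM x c) (insert x π) =
        - ∑ y ∈ (insert x π)ᶜ, (sgn x π * sgn y π) • c (insert y π) := by
      unfold bd
      rw [← Finset.sum_neg_distrib]
      refine Finset.sum_congr rfl fun y hy => ?_
      have hy' := Finset.mem_compl.1 hy
      have hyx : y ≠ x := fun h => hy' (h ▸ Finset.mem_insert_self _ _)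
      have hyπ : y ∉ π := fun h => hy' (Finset.mem_insert_of_mem h)
      unfold wdgM
      have h3 : (insert y (insert x π)).erase x = insert y π := by
        rw [Finset.insert_comm, Finset.erase_insert]
        intro h
        rcases Finset.mem_insert.1 h with h | h
        · exact hyx h.symm
        · exact hπ h
      rw [if_pos (by simp), h3, smul_smul, sgn_prod x y π hyx.symm hπ hyπ, neg_smul]
    rw [h1, h2]
    abel
  · have h1 : wdgM x (bd c) ρ = 0 := if_neg hx
    rw [h1, sub_zero]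
    unfold bd
    rw [Finset.sum_eq_single_of_mem x (Finset.mem_compl.2 hx)]
    · unfold wdgM
      rw [if_pos (Finset.mem_insert_self _ _), Finset.erase_insert hx, sgn_ss]
    · intro y _ hyx
      unfold wdgM
      rw [if_neg, smul_zero]
      intro h
      rcases Finset.mem_insert.1 h with h | h
      · exact hyx h.symm
      · exact hx h

variable {E : Type} [AddCommGroup E] [Module ℝ E]

/-- the chains of the lifting procedure -/
structure Lft (Γ : Finset V → Prop) (Q : Finset V → Prop) (F : Finset V) (p : V → E) (i : ℕ)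
    (E0 τ : Finset V) (g : Finset V → ExteriorAlgebra ℝ E) : Prop where
  supp : ∀ G, g G ≠ 0 → τ ⊆ G ∧ Γ (G ∪ F) ∧ G.card = i + τ.card
  deg : ∀ G, g G ∈ ⋀[ℝ]^(i + τ.card) E
  kil : ∀ G, ∀ x ∈ G, g G * ι ℝ (p x) = 0
  cyc : ∀ ρ, τ ⊆ ρ → Γ (ρ ∪ F) → Q (ρ ∪ F) → bd g ρ = 0
  non : g (E0 ∪ τ) ≠ 0

lemma lft_step (Γ : Finset V → Prop) (hΓ : ∀ G H, H ⊆ G → Γ G → Γ H) (Q : Finset V → Prop)
    (hQ : ∀ G H, H ⊆ G → Γ G → Q H → Q G) (F : Finset V) (p : V → E) (N i : ℕ)
    (hdual : ∀ σ, Γ σ → σ.card ≤ N → ∀ v ∈ σ, ∃ φ : Module.Dual ℝ E, φ (p v) = 1 ∧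
      ∀ x ∈ σ, x ≠ v → φ (p x) = 0)
    (E0 τ : Finset V) (f : V) (hfF : f ∈ F) (hfτ : f ∉ τ) (hfE : f ∉ E0)
    (hN : i + τ.card + 1 ≤ N) (g : Finset V → ExteriorAlgebra ℝ E)
    (hg : Lft Γ Q F p i E0 (insert f τ) g) :
    ∃ h : Finset V → ExteriorAlgebra ℝ E, Lft Γ Q F p i E0 τ h := by
  classical
  have hcard : (insert f τ).card = τ.card + 1 := Finset.card_insert_of_notMem hfτ
  have hFi : ∀ G : Finset V, insert f G ∪ F = G ∪ F := by
    intro G
    rw [Finset.insert_union, Finset.insert_eq_self]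
    exact Finset.mem_union_right _ hfF
  -- division by `p f`
  have lift : ∀ G : Finset V, ∃ η : ExteriorAlgebra ℝ E,
      (f ∉ G → η * ι ℝ (p f) = sgn f G • g (insert f G)) ∧ (f ∈ G → η = 0) ∧
      (g (insert f G) = 0 → η = 0) ∧ η ∈ ⋀[ℝ]^(i + τ.card) E ∧ ∀ x ∈ G, η * ι ℝ (p x) = 0 := by
    intro G
    by_cases hz : g (insert f G) = 0
    · refine ⟨0, fun _ => by rw [hz, smul_zero, zero_mul], fun _ => rfl, fun _ => rfl,
        Submodule.zero_mem _, fun x _ => zero_mul _⟩
    · by_cases hfG : f ∈ G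
      · exact ⟨0, fun h => absurd hfG h, fun _ => rfl, fun _ => rfl,
          Submodule.zero_mem _, fun x _ => zero_mul _⟩
      · obtain ⟨s1, s2, s3⟩ := hg.supp _ hz
        rw [hcard] at s3
        obtain ⟨φ, hφ1, hφ2⟩ := hdual (insert f G)
          (hΓ _ _ Finset.subset_union_left s2) (by omega) f (Finset.mem_insert_self _ _)
        have hdeg := hg.deg (insert f G)
        rw [hcard, ← add_assoc] at hdeg
        have hdeg2 : sgn f G • g (insert f G) ∈ ⋀[ℝ]^(i + τ.card + 1) E := zsmul_mem hdeg _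
        obtain ⟨g1, g2, g3⟩ := div_one (i + τ.card) _ hdeg2 (p f) φ hφ1 (by
          rw [smul_mul_assoc, hg.kil _ f (Finset.mem_insert_self _ _), smul_zero])
        refine ⟨ctr φ (sgn f G • g (insert f G)), fun _ => g2, fun h => absurd h hfG,
          fun h => absurd h hz, g1, ?_⟩
        intro x hx
        refine g3 (p x) (hφ2 x (Finset.mem_insert_of_mem hx) ?_) ?_
        · rintro rfl
          exact hfG hx
        · rw [smul_mul_assoc, hg.kil _ x (Finset.mem_insert_of_mem hx), smul_zero]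
  choose h0 l1 l2 l3 l4 l5 using lift
  have l3' : ∀ G, h0 G ≠ 0 → f ∉ G ∧ g (insert f G) ≠ 0 := fun G hG =>
    ⟨fun h => hG (l2 G h), fun h => hG (l3 G h)⟩
  -- support of the boundary of `h0`
  have ht : ∀ ρ, bd h0 ρ ≠ 0 → ∃ y, y ∉ ρ ∧ g (insert f (insert y ρ)) ≠ 0 ∧ f ∉ insert y ρ := by
    intro ρ hρ
    unfold bd at hρ
    obtain ⟨y, hy, hy2⟩ := Finset.exists_ne_zero_of_sum_ne_zero hρ
    have h3 := l3' (insert y ρ) fun h0 => hy2 (by rw [h0, smul_zero])
    exact ⟨y, Finset.mem_compl.1 hy, h3.2, h3.1⟩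
  have htf : ∀ ρ, f ∈ ρ → bd h0 ρ = 0 := by
    intro ρ hρ
    by_contra hne
    obtain ⟨y, _, _, h3⟩ := ht ρ hne
    exact h3 (Finset.mem_insert_of_mem hρ)
  -- the boundary of `h0` times `p f`
  have htp : ∀ π, f ∉ π → bd h0 π * ι ℝ (p f) = -(sgn f π • bd g (insert f π)) := by
    intro π hπ
    have e2 := bd_map (AddMonoidHom.mulRight (ι ℝ (p f))) h0 π
    have e3 : bd h0 π * ι ℝ (p f) = bd (fun σ => h0 σ * ι ℝ (p f)) π := e2.symm
    rw [e3]
    unfold bd
    rw [← Finset.add_sum_erase _ _ (Finset.mem_compl.2 hπ)]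
    beta_reduce
    rw [l2 _ (Finset.mem_insert_self _ _),
      zero_mul, smul_zero, zero_add, ← Finset.compl_insert, Finset.smul_sum,
      ← Finset.sum_neg_distrib]
    refine Finset.sum_congr rfl fun y hy => ?_
    have hy' := Finset.mem_compl.1 hy
    have hyx : y ≠ f := fun h => hy' (h ▸ Finset.mem_insert_self _ _)
    have hyπ : y ∉ π := fun h => hy' (Finset.mem_insert_of_mem h)
    have hf' : f ∉ insert y π := by
      intro h
      rcases Finset.mem_insert.1 h with h | h
      · exact hyx h.symm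
      · exact hπ h
    rw [l1 _ hf', smul_smul, smul_smul, Finset.insert_comm f y π, ← neg_smul]
    congr 1
    exact sgn_swap y f π hyx hyπ hπ
  let h : Finset V → ExteriorAlgebra ℝ E := fun G =>
    if f ∈ G then (if τ ⊆ G ∧ Γ (G ∪ F) ∧ Q (G ∪ F) then - wdgM f (bd h0) G else 0) else h0 G
  have hin : ∀ G, f ∈ G → τ ⊆ G → Γ (G ∪ F) → Q (G ∪ F) → h G = - wdgM f (bd h0) G := by
    intro G a1 a2 a3 a4
    simp only [h]
    rw [if_pos a1, if_pos ⟨a2, a3, a4⟩]
  have hin0 : ∀ G, f ∈ G → ¬ (τ ⊆ G ∧ Γ (G ∪ F) ∧ Q (G ∪ F)) → h G = 0 := by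
    intro G a1 a2
    simp only [h]
    rw [if_pos a1, if_neg a2]
  have hout : ∀ G, f ∉ G → h G = h0 G := by
    intro G a1
    simp only [h]
    rw [if_neg a1]
  have hwd : ∀ G, f ∈ G → wdgM f (bd h0) G = sgn f (G.erase f) • bd h0 (G.erase f) := by
    intro G a1
    unfold wdgM
    rw [if_pos a1]
  refine ⟨h, ⟨?_, ?_, ?_, ?_, ?_⟩⟩
  · intro G hG
    by_cases hf : f ∈ G
    · by_cases hc : τ ⊆ G ∧ Γ (G ∪ F) ∧ Q (G ∪ F)
      · refine ⟨hc.1, hc.2.1, ?_⟩
        rw [hin G hf hc.1 hc.2.1 hc.2.2, hwd G hf] at hG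
        have h1 : bd h0 (G.erase f) ≠ 0 := fun h2 => hG (by rw [h2, smul_zero, neg_zero])
        obtain ⟨y, hy1, hy2, hy3⟩ := ht _ h1
        have h4 := (hg.supp _ hy2).2.2
        rw [hcard, Finset.card_insert_of_notMem hy3, Finset.card_insert_of_notMem hy1,
          Finset.card_erase_add_one hf] at h4
        omega
      · exact absurd (hin0 G hf hc) hG
    · rw [hout G hf] at hG
      obtain ⟨s1, s2, s3⟩ := hg.supp _ (l3' G hG).2
      rw [hFi] at s2
      rw [hcard, Finset.card_insert_of_notMem hf] at s3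
      refine ⟨?_, s2, by omega⟩
      intro x hx
      rcases Finset.mem_insert.1 (s1 (Finset.mem_insert_of_mem hx)) with h1 | h1
      · rw [h1] at hx; exact absurd hx hfτ
      · exact h1
  · intro G
    by_cases hf : f ∈ G
    · by_cases hc : τ ⊆ G ∧ Γ (G ∪ F) ∧ Q (G ∪ F)
      · rw [hin G hf hc.1 hc.2.1 hc.2.2, hwd G hf]
        refine Submodule.neg_mem _ (zsmul_mem ?_ _)
        unfold bd
        exact Submodule.sum_mem _ fun x _ => zsmul_mem (l4 _) _
      · rw [hin0 G hf hc]
        exact Submodule.zero_mem _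
    · rw [hout G hf]
      exact l4 G
  · intro G x hx
    by_cases hf : f ∈ G
    · by_cases hc : τ ⊆ G ∧ Γ (G ∪ F) ∧ Q (G ∪ F)
      · rw [hin G hf hc.1 hc.2.1 hc.2.2, hwd G hf, neg_mul, smul_mul_assoc]
        by_cases hxf : x = f
        · subst hxf
          rw [htp _ (Finset.notMem_erase _ _), Finset.insert_erase hf]
          rw [hg.cyc G (Finset.insert_subset hf hc.1) hc.2.1 hc.2.2, smul_zero, neg_zero,
            smul_zero, neg_zero]
        · have h1 : bd h0 (G.erase f) * ι ℝ (p x) = 0 := by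
            have e2 := bd_map (AddMonoidHom.mulRight (ι ℝ (p x))) h0 (G.erase f)
            have e3 : bd h0 (G.erase f) * ι ℝ (p x) =
                bd (fun σ => h0 σ * ι ℝ (p x)) (G.erase f) := e2.symm
            rw [e3]
            have e4 := bd_congr (fun σ => h0 σ * ι ℝ (p x)) (0 : Finset V → ExteriorAlgebra ℝ E)
              (G.erase f) (fun σ hσ => l5 σ x (hσ (Finset.mem_erase.2 ⟨hxf, hx⟩)))
            rw [e4, bd_zero]
          rw [h1, smul_zero, neg_zero]
      · rw [hin0 G hf hc, zero_mul]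
    · rw [hout G hf]
      exact l5 G x hx
  · intro ρ hρ hΓρ hQρ
    -- `h` agrees with `h0 - wdg (bd h0)` above `ρ`
    have e1 : bd h ρ = bd (h0 - wdgM f (bd h0)) ρ := by
      refine bd_ext _ _ _ fun x hx => ?_
      rw [Pi.sub_apply]
      have hρx : ρ ⊆ insert x ρ := Finset.subset_insert _ _
      by_cases hf : f ∈ insert x ρ
      · rw [l2 _ hf, zero_sub]
        by_cases hΓx : Γ (insert x ρ ∪ F)
        · exact hin _ hf (hρ.trans hρx) hΓx
            (hQ _ _ (Finset.union_subset_union_left hρx) hΓx hQρ)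
        · rw [hin0 _ hf (fun h2 => hΓx h2.2.1), hwd _ hf]
          have h3 : bd h0 ((insert x ρ).erase f) = 0 := by
            by_contra hne
            obtain ⟨y, hy1, hy2, hy3⟩ := ht _ hne
            apply hΓx
            refine hΓ _ _ ?_ (hg.supp _ hy2).2.1
            refine Finset.union_subset_union_left ?_
            intro w hw
            by_cases hwf : w = f
            · rw [hwf]; exact Finset.mem_insert_self _ _
            · exact Finset.mem_insert_of_mem (Finset.mem_insert_of_mem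
                (Finset.mem_erase.2 ⟨hwf, hw⟩))
          rw [h3, smul_zero, neg_zero]
      · rw [hout _ hf]
        unfold wdgM
        rw [if_neg hf, sub_zero]
    rw [e1, bd_sub, bd_wdgM]
    have h4 : bd (bd h0) = 0 := funext fun σ => bd_bd h0 σ
    rw [h4]
    have h5 : wdgM f (0 : Finset V → ExteriorAlgebra ℝ E) ρ = 0 := by
      unfold wdgM
      simp
    rw [h5, sub_zero, sub_self]
  · have hf : f ∉ E0 ∪ τ := by
      intro h1
      rcases Finset.mem_union.1 h1 with h1 | h1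
      · exact hfE h1
      · exact hfτ h1
    rw [hout _ hf]
    intro h1
    have h2 := l1 _ hf
    rw [h1, zero_mul] at h2
    have h3 := congrArg (fun t => sgn f (E0 ∪ τ) • t) h2
    simp only [sgn_ss, smul_zero] at h3
    apply hg.non
    rw [Finset.union_insert]
    exact h3.symm

lemma lft_all (Γ : Finset V → Prop) (hΓ : ∀ G H, H ⊆ G → Γ G → Γ H) (Q : Finset V → Prop)
    (hQ : ∀ G H, H ⊆ G → Γ G → Q H → Q G) (F : Finset V) (p : V → E) (N i : ℕ)
    (hdual : ∀ σ, Γ σ → σ.card ≤ N → ∀ v ∈ σ, ∃ φ : Module.Dual ℝ E, φ (p v) = 1 ∧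
      ∀ x ∈ σ, x ≠ v → φ (p x) = 0)
    (E0 : Finset V) (hE : Disjoint E0 F) (hN : i + F.card = N)
    (g : Finset V → ExteriorAlgebra ℝ E) (hg : Lft Γ Q F p i E0 F g) :
    ∃ h : Finset V → ExteriorAlgebra ℝ E, Lft Γ Q F p i E0 ∅ h := by
  have key : ∀ m : ℕ, ∀ τ : Finset V, τ ⊆ F → τ.card + m = F.card →
      ∃ h : Finset V → ExteriorAlgebra ℝ E, Lft Γ Q F p i E0 τ h := by
    intro m
    induction m with
    | zero =>
      intro τ hτ hc
      have : τ = F := Finset.eq_of_subset_of_card_le hτ (by omega)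
      subst this
      exact ⟨g, hg⟩
    | succ m ih =>
      intro τ hτ hc
      obtain ⟨f, hfF, hfτ⟩ := Finset.exists_of_ssubset
        ((Finset.ssubset_iff_subset_ne).2 ⟨hτ, fun h => by rw [h] at hc; omega⟩)
      obtain ⟨g', hg'⟩ := ih (insert f τ) (Finset.insert_subset hfF hτ) (by
        rw [Finset.card_insert_of_notMem hfτ]; omega)
      refine lft_step Γ hΓ Q hQ F p N i hdual E0 τ f hfF hfτ ?_ (by omega) g' hg'
      intro h
      exact (Finset.disjoint_left.1 hE h) hfF
  exact key F.card ∅ (Finset.empty_subset _) (by rw [Finset.card_empty]; omega)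

end cone

section mom

/-- points on the moment curve -/
noncomputable def mom (d n : ℕ) (x : Fin n) : Fin d → ℝ := fun i => ((x : ℕ) : ℝ) ^ (i : ℕ)

lemma mom_dual (d n : ℕ) (A : Finset (Fin n)) (hA : A.card ≤ d) (v : Fin n) (hv : v ∈ A) :
    ∃ φ : Module.Dual ℝ (Fin d → ℝ), φ (mom d n v) = 1 ∧
      ∀ x ∈ A, x ≠ v → φ (mom d n x) = 0 := by
  classical
  let L := Lagrange.basis A (fun x : Fin n => ((x : ℕ) : ℝ)) v
  have hinj : Set.InjOn (fun x : Fin n => ((x : ℕ) : ℝ)) (A : Set (Fin n)) := by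
    intro x _ y _ h
    have h' : ((x : ℕ) : ℝ) = ((y : ℕ) : ℝ) := h
    exact Fin.ext (by exact_mod_cast h')
  have hpos : 0 < A.card := Finset.card_pos.2 ⟨v, hv⟩
  have hdeg : L.natDegree < d := by
    have h1 : L.degree = ((A.card - 1 : ℕ) : WithBot ℕ) := Lagrange.degree_basis hinj hv
    have h2 : L.natDegree = A.card - 1 := Polynomial.natDegree_eq_of_degree_eq_some h1
    omega
  let φ : Module.Dual ℝ (Fin d → ℝ) := ∑ i : Fin d, L.coeff i • LinearMap.proj i
  have hφ : ∀ x : Fin n, φ (mom d n x) = L.eval ((x : ℕ) : ℝ) := by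
    intro x
    rw [Polynomial.eval_eq_sum_range' hdeg, Finset.sum_range]
    simp only [φ, LinearMap.sum_apply, LinearMap.smul_apply, LinearMap.proj_apply, mom,
      smul_eq_mul]
  refine ⟨φ, ?_, ?_⟩
  · rw [hφ]
    exact Lagrange.eval_basis_self hinj hv
  · intro x hx hxv
    rw [hφ]
    exact Lagrange.eval_basis_of_ne (v := fun x : Fin n => ((x : ℕ) : ℝ)) (Ne.symm hxv) hx

end mom

section main
variable {d n : ℕ}

/-- the data of a subdivision, as used -/
structure Subd (Γ : Finset (Finset (Fin n))) (σ : Finset (Fin n) → Finset (Fin d)) : Prop where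
  down : ∀ G ∈ Γ, ∀ H : Finset (Fin n), H ⊆ G → H ∈ Γ
  emp : ∅ ∈ Γ
  σe : σ ∅ = ∅
  mono : ∀ G ∈ Γ, ∀ H : Finset (Fin n), H ⊆ G → σ H ⊆ σ G
  ball : ∀ F : Finset (Fin d), F.Nonempty →
      Nonempty (↥{x : Fin n → ℝ | (∀ j, 0 ≤ x j) ∧ ∑ j, x j = 1 ∧
              ∃ G ∈ Γ, σ G ⊆ F ∧ ∀ j, x j ≠ 0 → j ∈ G} ≃ₜ
            ↥(Metric.closedBall (0 : EuclideanSpace ℝ (Fin (F.card - 1))) 1))
  vert : ∀ x, {x} ∈ Γ → (σ {x}).Nonempty

variable {Γ : Finset (Finset (Fin n))} {σ : Finset (Fin n) → Finset (Fin d)}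

/-- restriction -/
def cxW (h : Subd Γ σ) (W : Finset (Fin d)) : Cx (Fin n) where
  faces := Γ.filter (fun G => σ G ⊆ W)
  empty_mem := Finset.mem_filter.2 ⟨h.emp, by rw [h.σe]; exact Finset.empty_subset _⟩
  down := by
    intro G hG H hH
    have h1 := Finset.mem_filter.1 hG
    exact Finset.mem_filter.2 ⟨h.down G h1.1 H hH, (h.mono G h1.1 H hH).trans h1.2⟩

lemma mem_cxW (h : Subd Γ σ) (W : Finset (Fin d)) (G : Finset (Fin n)) :
    G ∈ (cxW h W).faces ↔ G ∈ Γ ∧ σ G ⊆ W := Finset.mem_filter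

lemma cxW_ball (h : Subd Γ σ) (W : Finset (Fin d)) (hW : W.Nonempty) :
    IsBall (cxW h W) (W.card - 1) := by
  obtain ⟨φ⟩ := h.ball W hW
  have e : realization (cxW h W) = {x : Fin n → ℝ | (∀ j, 0 ≤ x j) ∧ ∑ j, x j = 1 ∧
              ∃ G ∈ Γ, σ G ⊆ W ∧ ∀ j, x j ≠ 0 → j ∈ G} := by
    ext x
    constructor
    · rintro ⟨h1, h2, G, hG, h3⟩
      have h4 := (mem_cxW h W G).1 hG
      refine ⟨h1, h2, G, h4.1, h4.2, fun j hj => ?_⟩
      by_contra h5
      exact hj (h3 j h5)
    · rintro ⟨h1, h2, G, hG, hGW, h3⟩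
      refine ⟨h1, h2, G, (mem_cxW h W G).2 ⟨hG, hGW⟩, fun j hj => ?_⟩
      by_contra h5
      exact hj (h3 j h5)
  exact ⟨(Homeomorph.setCongr e).trans φ⟩

lemma psi (h : Subd Γ σ) {M : Type*} [AddCommGroup M] [Module ℝ M] (S : Finset (Fin d)) :
    ∀ W : Finset (Fin d), S ⊆ W → W.Nonempty → ∀ (τ : Finset (Fin n)) (k : ℕ), k < W.card →
      AcyP (fun G => (G ∈ Γ ∧ σ G ⊆ W) ∧ S ⊆ σ G) M τ k := by
  classical
  induction S using Finset.induction_on with
  | empty =>
    intro W _ hW τ k hk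
    refine acyP_congr (fun G => G ∈ (cxW h W).faces) _ (fun G => ?_) τ k ?_
    · rw [mem_cxW]
      exact ⟨fun h1 => ⟨h1, Finset.empty_subset _⟩, fun h1 => h1.1⟩
    · refine acyP_of_acy (cxW h W) τ k ?_
      refine acy_change (R := ℝ) (cxW h W) τ (W.card - 1) (fun k hk => ?_) k (by omega)
      exact acy_ball (cxW h W) (W.card - 1) (cxW_ball h W hW) τ k hk
  | insert v S hv ih =>
    intro W hS hW τ k hk
    have hvW : v ∈ W := hS (Finset.mem_insert_self _ _)
    have hSW : S ⊆ W := (Finset.subset_insert _ _).trans hS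
    have h1 := acyP_mv (fun G => (G ∈ Γ ∧ σ G ⊆ W) ∧ S ⊆ σ G) (fun G => v ∉ σ G)
      (by
        intro A B C hAB hBC hA hC
        have hB : B ∈ Γ := h.down C hC.1.1 B hBC
        exact ⟨⟨hB, (h.mono C hC.1.1 B hBC).trans hC.1.2⟩, hA.2.trans (h.mono B hB A hAB)⟩)
      (by
        intro A B hAB _ hB hD hA
        exact hD (h.mono B hB.1.1 A hAB hA))
      (M := M) τ k (ih W hSW hW τ k hk)
      (by
        intro k' hk'
        have hcard := Finset.card_erase_of_mem hvW
        refine acyP_congr (fun G => (G ∈ Γ ∧ σ G ⊆ W.erase v) ∧ S ⊆ σ G) _ (fun G => ?_) τ k'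
          (ih (W.erase v) ?_ (Finset.card_pos.1 (by omega)) τ k' (by omega))
        · rw [Finset.subset_erase]
          tauto
        · intro x hx
          refine Finset.mem_erase.2 ⟨?_, hSW hx⟩
          rintro rfl
          exact hv hx)
    refine acyP_congr _ _ (fun G => ?_) τ k h1
    rw [Finset.insert_subset_iff, not_not]
    tauto

lemma exists_phi (h : Subd Γ σ) : ∃ φ : Finset (Fin d) → (Finset (Fin n) → ℝ),
    φ ∅ = Pi.single ∅ 1 ∧
      (∀ W G, φ W G ≠ 0 → G ∈ Γ ∧ σ G ⊆ W ∧ G.card = W.card) ∧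
      ∀ W, W ≠ ∅ → bd (φ W) = ∑ v ∈ W, sgn v (W.erase v) • φ (W.erase v) := by
  classical
  obtain ⟨φ, h0, h1, h2⟩ := chainmap_gen (V := Fin d) (bdA (V := Fin n)) (Pi.single ∅ 1)
    bd_single_empty
    (fun W => sup fun G => G ∈ Γ ∧ σ G ⊆ W ∧ G.card = W.card)
    (fun W => sup fun G => G ∈ Γ ∧ σ G ⊆ W ∧ G.card + 1 = W.card)
    (by
      intro W v hv _ c hc G hG
      have h3 := hc G hG
      refine ⟨h3.1, h3.2.1.trans (Finset.erase_subset _ _), ?_⟩
      rw [h3.2.2]
      exact Finset.card_erase_add_one hv)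
    (by
      intro W hW G hG
      have : G = ∅ := by
        by_contra h
        exact hG (Pi.single_eq_of_ne h _)
      subst this
      exact ⟨h.emp, by rw [h.σe]; exact Finset.empty_subset _, by rw [Finset.card_empty, hW]⟩)
    (by
      intro W hW z hz hdz
      have hWn := Finset.nonempty_iff_ne_empty.2 hW
      have hWc := Finset.card_pos.2 hWn
      obtain ⟨b, hb, hb2⟩ := acy_ball_global (cxW h W) (W.card - 1) (cxW_ball h W hWn)
        (W.card - 1) z (fun G hG => by
          have h3 := hz G hG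
          exact ⟨(mem_cxW h W G).2 ⟨h3.1, h3.2.1⟩, Finset.empty_subset _, by omega⟩)
        (fun ρ _ => congrFun hdz ρ)
      refine ⟨b, fun G hG => ?_, ?_⟩
      · have h3 := hb G hG
        have h4 := (mem_cxW h W G).1 h3.1
        exact ⟨h4.1, h4.2, by omega⟩
      · funext ρ
        exact hb2 ρ (Finset.empty_subset _))
  refine ⟨φ, h0, ?_, fun W hW => h2 W hW⟩
  intro W G hG
  by_cases hW : W = ∅
  · subst hW
    rw [h0] at hG
    have : G = ∅ := by
      by_contra h
      exact hG (Pi.single_eq_of_ne h _)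
    subst this
    exact ⟨h.emp, by rw [h.σe], rfl⟩
  · exact h1 W hW G hG

lemma exists_cycle (h : Subd Γ σ) (hd : 0 < d) (S : Finset (Fin d)) :
    ∃ c ∈ ZZ (fun G => G ∈ Γ ∧ S ⊆ σ G) (mom d n) S.card S.card, c ≠ 0 := by
  classical
  obtain ⟨φ, h0, h1, h2⟩ := exists_phi h
  have hl : ∀ x : Fin n, ∃ v : Fin d, {x} ∈ Γ → v ∈ σ {x} := by
    intro x
    by_cases hx : {x} ∈ Γ
    · obtain ⟨v, hv⟩ := h.vert x hx
      exact ⟨v, fun _ => hv⟩
    · exact ⟨⟨0, hd⟩, fun h => absurd h hx⟩
  choose lab hlab using hl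
  have hlabσ : ∀ G ∈ Γ, ∀ x ∈ G, lab x ∈ σ G := by
    intro G hG x hx
    have h3 : {x} ⊆ G := Finset.singleton_subset_iff.2 hx
    exact h.mono G hG _ h3 (hlab x (h.down G hG _ h3))
  obtain ⟨G, hG0, hGi, hGc⟩ := sperner lab φ h0 (by
    intro W G hG
    have h3 := h1 W G hG
    refine ⟨?_, h3.2.2⟩
    intro v hv
    obtain ⟨x, hx, rfl⟩ := Finset.mem_image.1 hv
    exact h3.2.1 (hlabσ G h3.1 x hx)) h2 Finset.univ
  have hGΓ := (h1 _ G hG0).1
  have hGd : G.card = d := by rw [hGc, Finset.card_univ, Fintype.card_fin]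
  let E0 := G.filter (fun x => lab x ∈ S)
  let F := G.filter (fun x => lab x ∉ S)
  have hEF : E0 ∪ F = G := Finset.filter_union_filter_not_eq _ _
  have hdisj : Disjoint E0 F := Finset.disjoint_filter_filter_not _ _ _
  have hEG : E0 ⊆ G := Finset.filter_subset _ _
  have hFG : F ⊆ G := Finset.filter_subset _ _
  have hinj : Set.InjOn lab (G : Set (Fin n)) := by
    apply Finset.injOn_of_card_image_eq
    rw [hGi, hGc]
  have hES : E0.image lab = S := by
    ext v
    constructor
    · intro hv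
      obtain ⟨x, hx, rfl⟩ := Finset.mem_image.1 hv
      exact (Finset.mem_filter.1 hx).2
    · intro hv
      have h3 : v ∈ G.image lab := by rw [hGi]; exact Finset.mem_univ _
      obtain ⟨x, hx, rfl⟩ := Finset.mem_image.1 h3
      exact Finset.mem_image_of_mem _ (Finset.mem_filter.2 ⟨hx, hv⟩)
  have hEc : E0.card = S.card := by
    rw [← hES]
    exact (Finset.card_image_of_injOn (hinj.mono (by exact_mod_cast hEG))).symm
  have hEFc : E0.card + F.card = d := by
    rw [← Finset.card_union_of_disjoint hdisj, hEF, hGd]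
  have hEσ : S ⊆ σ E0 := by
    intro v hv
    rw [← hES] at hv
    obtain ⟨x, hx, rfl⟩ := Finset.mem_image.1 hv
    exact hlabσ E0 (h.down G hGΓ _ hEG) x hx
  have hFσ : ∀ v, v ∉ S → v ∈ σ F := by
    intro v hv
    have h3 : v ∈ G.image lab := by rw [hGi]; exact Finset.mem_univ _
    obtain ⟨x, hx, rfl⟩ := Finset.mem_image.1 h3
    exact hlabσ F (h.down G hGΓ _ hFG) x (Finset.mem_filter.2 ⟨hx, hv⟩)
  -- a volume form
  have hN : Module.finrank ℝ (Fin d → ℝ) = d := by
    rw [Module.finrank_fintype_fun_eq_card, Fintype.card_fin]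
  obtain ⟨vol, hvol, hvol0⟩ : ∃ vol : ExteriorAlgebra ℝ (Fin d → ℝ),
      vol ∈ ⋀[ℝ]^d (Fin d → ℝ) ∧ vol ≠ 0 := by
    have h3 : Module.finrank ℝ (⋀[ℝ]^d (Fin d → ℝ)) = 1 := by
      rw [exteriorPower.finrank_eq, hN, Nat.choose_self]
    have h4 : Nontrivial (⋀[ℝ]^d (Fin d → ℝ)) := by
      apply Module.nontrivial_of_finrank_pos (R := ℝ)
      rw [h3]; exact one_pos
    obtain ⟨a, ha⟩ := exists_ne (0 : ⋀[ℝ]^d (Fin d → ℝ))
    exact ⟨a.1, a.2, fun h5 => ha (Subtype.ext h5)⟩
  have hdual : ∀ A : Finset (Fin n), A ∈ Γ → A.card ≤ d → ∀ v ∈ A,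
      ∃ φ : Module.Dual ℝ (Fin d → ℝ), φ (mom d n v) = 1 ∧
      ∀ x ∈ A, x ≠ v → φ (mom d n x) = 0 := fun A _ hA v hv => mom_dual d n A hA v hv
  have hFc : S.card + F.card = d := by rw [← hEc]; exact hEFc
  obtain ⟨g, hg⟩ := lft_all (fun G => G ∈ Γ) (fun G H hH hG => h.down G hG H hH)
    (fun G => ∀ v, v ∈ σ G) (fun G H hH hG hv v => h.mono G hG H hH (hv v)) F (mom d n) d S.card
    hdual E0 hdisj hFc
    (fun G' => if F ⊆ G' then φ Finset.univ G' • vol else 0)
    (by
      refine ⟨?_, ?_, ?_, ?_, ?_⟩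
      · intro G' hG'
        by_cases hF : F ⊆ G'
        · simp only [if_pos hF] at hG'
          have h3 := h1 Finset.univ G' fun h4 => hG' (by rw [h4, zero_smul])
          refine ⟨hF, ?_, ?_⟩
          · rw [Finset.union_eq_left.2 hF]; exact h3.1
          · rw [h3.2.2, Finset.card_univ, Fintype.card_fin, hFc]
        · simp only [if_neg hF] at hG'
          exact absurd rfl hG'
      · intro G'
        rw [hFc]
        by_cases hF : F ⊆ G'
        · simp only [if_pos hF]
          exact Submodule.smul_mem _ _ hvol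
        · simp only [if_neg hF]
          exact Submodule.zero_mem _
      · intro G' x _
        by_cases hF : F ⊆ G'
        · simp only [if_pos hF]
          rw [smul_mul_assoc, ext_top (d + 1) (by omega) _ (mul_ι_mem d vol hvol _), smul_zero]
        · simp only [if_neg hF]
          exact zero_mul _
      · intro ρ hρ _ hσρ
        rw [Finset.union_eq_left.2 hρ] at hσρ
        have e1 : bd (fun G' => if F ⊆ G' then φ Finset.univ G' • vol else 0) ρ =
            bd (fun G' => φ Finset.univ G' • vol) ρ :=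
          bd_congr _ _ _ fun G' hG' => if_pos (hρ.trans hG')
        have e2 : bd (fun G' => φ Finset.univ G' • vol) ρ = bd (φ Finset.univ) ρ • vol :=
          bd_map (((LinearMap.id (R := ℝ) (M := ℝ)).smulRight vol).toAddMonoidHom)
            (φ Finset.univ) ρ
        have hune : (Finset.univ : Finset (Fin d)) ≠ ∅ :=
          Finset.nonempty_iff_ne_empty.1 ⟨⟨0, hd⟩, Finset.mem_univ _⟩
        rw [e1, e2, h2 _ hune, Finset.sum_apply, Finset.sum_eq_zero, zero_smul]
        intro v _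
        rw [Pi.smul_apply]
        have : φ (Finset.univ.erase v) ρ = 0 := by
          by_contra h3
          have h4 := (h1 _ ρ h3).2.1 (hσρ v)
          exact Finset.notMem_erase _ _ h4
        rw [this, smul_zero]
      · rw [hEF]
        simp only [if_pos hFG]
        exact smul_ne_zero hG0 hvol0)
  -- restrict to the relative complex
  refine ⟨fun G' => if G' ∈ Γ ∧ S ⊆ σ G' then g G' else 0, ⟨⟨?_, ?_⟩, ?_⟩, ?_⟩
  · intro G' hG'
    by_cases hc : G' ∈ Γ ∧ S ⊆ σ G'
    · simp only [if_pos hc] at hG'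
      have h3 := (hg.supp G' hG').2.2
      rw [Finset.card_empty, add_zero] at h3
      exact ⟨hc, h3⟩
    · simp only [if_neg hc] at hG'
      exact absurd rfl hG'
  · intro G'
    by_cases hc : G' ∈ Γ ∧ S ⊆ σ G'
    · simp only [if_pos hc]
      have h3 := hg.deg G'
      rw [Finset.card_empty, add_zero] at h3
      exact ⟨h3, fun x hx => hg.kil G' x hx⟩
    · simp only [if_neg hc]
      exact Submodule.zero_mem _
  · show rbd (fun G => G ∈ Γ ∧ S ⊆ σ G) _ = 0
    funext ρ
    by_cases hc : ρ ∈ Γ ∧ S ⊆ σ ρ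
    · rw [rbd_pos _ _ ρ hc]
      have hgΓ : ∀ G', g G' ≠ 0 → G' ∪ F ∈ Γ := fun G' hG' => (hg.supp G' hG').2.1
      have e1 : bd (fun G' => if G' ∈ Γ ∧ S ⊆ σ G' then g G' else 0) ρ = bd g ρ := by
        refine bd_ext _ _ _ fun x _ => ?_
        by_cases hx : insert x ρ ∈ Γ
        · rw [if_pos ⟨hx, hc.2.trans (h.mono _ hx _ (Finset.subset_insert _ _))⟩]
        · rw [if_neg fun h3 => hx h3.1]
          by_contra h3
          exact hx (h.down _ (hgΓ _ (Ne.symm h3)) _ Finset.subset_union_left)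
      rw [e1]
      by_cases hρF : ρ ∪ F ∈ Γ
      · refine hg.cyc ρ (Finset.empty_subset _) hρF fun v => ?_
        by_cases hv : v ∈ S
        · exact h.mono _ hρF _ Finset.subset_union_left (hc.2 hv)
        · exact h.mono _ hρF _ Finset.subset_union_right (hFσ v hv)
      · refine bd_eq_zero _ _ fun x _ => ?_
        by_contra h3
        exact hρF (h.down _ (hgΓ _ h3) _
          (Finset.union_subset_union_left (Finset.subset_insert _ _)))
    · exact rbd_neg _ _ ρ hc
  · intro h3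
    have h4 := congrFun h3 E0
    have h5 : (if E0 ∈ Γ ∧ S ⊆ σ E0 then g E0 else 0) = 0 := h4
    rw [if_pos ⟨h.down G hGΓ _ hEG, hEσ⟩] at h5
    have h6 := hg.non
    rw [Finset.union_empty] at h6
    exact h6 h5

theorem main_pos (h : Subd Γ σ) (S : Finset (Fin d)) (hS : 1 ≤ S.card) :
    0 < ∑ k ∈ Finset.range (S.card + 1),
        (-1 : ℤ) ^ (S.card - k) * ((Nat.choose (d - k) (S.card - k) : ℕ) : ℤ) *
          ((Γ.filter (fun G => G.card = k ∧ S ⊆ σ G)).card : ℤ) := by
  classical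
  have hSd : S.card ≤ d := by
    have := Finset.card_le_univ S
    rwa [Fintype.card_fin] at this
  have hd : 0 < d := by omega
  have hN : Module.finrank ℝ (Fin d → ℝ) = d := by
    rw [Module.finrank_fintype_fun_eq_card, Fintype.card_fin]
  have hP : Cvx (fun G : Finset (Fin n) => G ∈ Γ ∧ S ⊆ σ G) := by
    intro A B C hAB hBC hA hC
    have hB : B ∈ Γ := h.down C hC.1 B hBC
    exact ⟨hB, hA.2.trans (h.mono B hB A hAB)⟩
  have hdual : ∀ A : Finset (Fin n), (A ∈ Γ ∧ S ⊆ σ A) → A.card ≤ d → ∀ v ∈ A,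
      ∃ φ : Module.Dual ℝ (Fin d → ℝ), φ (mom d n v) = 1 ∧
      ∀ x ∈ A, x ≠ v → φ (mom d n x) = 0 := fun A _ hA v hv => mom_dual d n A hA v hv
  have hcm : ∀ (τ : Finset (Fin n)) (k s : ℕ), k < d →
      AcyP (fun G : Finset (Fin n) => G ∈ Γ ∧ S ⊆ σ G) (⋀[ℝ]^s (Fin d → ℝ)) τ k := by
    intro τ k s hk
    have h1 := psi h (M := ⋀[ℝ]^s (Fin d → ℝ)) S Finset.univ (Finset.subset_univ _)
      ⟨⟨0, hd⟩, Finset.mem_univ _⟩ τ k (by rwa [Finset.card_univ, Fintype.card_fin])
    refine acyP_congr _ _ (fun G => ?_) τ k h1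
    exact ⟨fun h2 => ⟨h2.1.1, h2.2⟩, fun h2 => ⟨⟨h2.1, Finset.subset_univ _⟩, h2.2⟩⟩
  have hex : ∀ k, k < S.card →
      AcyV (fun G : Finset (Fin n) => G ∈ Γ ∧ S ⊆ σ G) (mom d n) S.card Finset.univ ∅ k :=
    fun k hk => acyV_main _ hP (mom d n) d hN hdual hcm (d - S.card) S.card (by omega)
      Finset.univ ∅ k hk
  have he := euler _ hP (mom d n) d S.card hN hSd hdual hex S.card le_rfl
  obtain ⟨c, hc, hc0⟩ := exists_cycle h hd S
  have hpos : 0 < Module.finrank ℝ
      (ZZ (fun G : Finset (Fin n) => G ∈ Γ ∧ S ⊆ σ G) (mom d n) S.card S.card) := by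
    have := CC_fin (V := Fin n) (E := Fin d → ℝ)
    have : Nontrivial (ZZ (fun G : Finset (Fin n) => G ∈ Γ ∧ S ⊆ σ G) (mom d n)
        S.card S.card) := ⟨⟨c, hc⟩, 0, fun h1 => hc0 (congrArg Subtype.val h1)⟩
    exact Module.finrank_pos
  have e1 : ∑ k ∈ Finset.range (S.card + 1),
        (-1 : ℤ) ^ (S.card - k) * ((Nat.choose (d - k) (S.card - k) : ℕ) : ℤ) *
          ((Γ.filter (fun G => G.card = k ∧ S ⊆ σ G)).card : ℤ) =
      (Module.finrank ℝ
      (ZZ (fun G : Finset (Fin n) => G ∈ Γ ∧ S ⊆ σ G) (mom d n) S.card S.card) : ℤ) := by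
    rw [he]
    refine Finset.sum_congr rfl fun k _ => ?_
    congr 3
    ext G
    simp only [Finset.mem_filter, Finset.mem_univ, true_and]
    tauto
  rw [e1]
  exact_mod_cast hpos

end main

end Pool.Agent.Helper611.Sub
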