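import Pool.Agent.Helper611.UTop

set_option autoImplicit false
set_option linter.unusedSectionVars false
set_option linter.unnecessarySimpa false

/-! Invariance of dimension. -/

namespace Pool.Agent.Helper611.UInv

open Pool.Agent.Helper611.ZBase Pool.Agent.Helper611.UTop

/-- the full simplex -/
def full (n : ℕ) : Cx (Fin (n + 1)) where
  faces := Finset.univ
  empty_mem := Finset.mem_univ _
  down := fun _ _ _ _ => Finset.mem_univ _

lemma not_acy_full (n : ℕ) : ¬ Acy (full n) ℤ Finset.univ (n + 1) := by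
  intro h
  obtain ⟨b, hb, hb2⟩ := h (Pi.single Finset.univ 1) (by
    intro σ hσ
    have : σ = Finset.univ := by
      by_contra hne
      exact hσ (Pi.single_eq_of_ne hne _)
    subst this
    exact ⟨Finset.mem_univ _, Finset.Subset.refl _, by simp⟩) (by
    intro ρ hρ
    have : ρ = Finset.univ := Finset.univ_subset_iff.1 hρ
    subst this
    unfold bd
    simp)
  have h1 := hb2 Finset.univ (Finset.Subset.refl _)
  unfold bd at h1
  simp at h1

lemma inv_dim (n a : ℕ) (h : n < a) (W : Set (EE a)) (hW : IsOpen W) (w0 : EE a) (hw0 : w0 ∈ W)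
    (g : EE a → EE n) (hg : ContinuousOn g W) (hinj : Set.InjOn g W)
    (hopen : ∀ O ⊆ W, IsOpen O → IsOpen (g '' O)) : False := by
  classical
  have hn : (0 : ℝ) < (n : ℝ) + 1 := by positivity
  let c : ℝ := 1 / ((n : ℝ) + 1) ^ 2
  have hc : 0 < c := by positivity
  have hcn : c * ((n : ℝ) + 1) = 1 / ((n : ℝ) + 1) := by
    show 1 / ((n : ℝ) + 1) ^ 2 * ((n : ℝ) + 1) = _
    field_simp
  -- small radius
  obtain ⟨r1, hr1, hb1⟩ := Metric.isOpen_iff.1 hW w0 hw0
  have hgc := (hg w0 hw0).continuousAt (hW.mem_nhds hw0)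
  obtain ⟨r2, hr2, hb2⟩ := Metric.continuousAt_iff.1 hgc 1 one_pos
  let r : ℝ := min r1 r2 / 2
  have hr : 0 < r := by
    have := lt_min hr1 hr2
    positivity
  have hrm : r < min r1 r2 := by
    have := lt_min hr1 hr2
    show min r1 r2 / 2 < _
    linarith
  have hrW : ∀ w ∈ Metric.closedBall w0 r, w ∈ W := by
    intro w hw
    apply hb1
    rw [Metric.mem_ball]
    exact lt_of_le_of_lt (Metric.mem_closedBall.1 hw) (lt_of_lt_of_le hrm (min_le_left _ _))
  have hrg : ∀ w ∈ Metric.closedBall w0 r, ‖g w - g w0‖ ≤ 1 := by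
    intro w hw
    have h1 : dist w w0 < r2 :=
      lt_of_le_of_lt (Metric.mem_closedBall.1 hw) (lt_of_lt_of_le hrm (min_le_right _ _))
    have := hb2 h1
    rw [dist_eq_norm] at this
    exact this.le
  -- the map to the simplex
  let z : EE a → Fin n → ℝ := fun w i => 1 / ((n : ℝ) + 1) + c * (g w - g w0) i
  let e : EE a → (Fin (n + 1) → ℝ) := fun w => Fin.cons (1 - ∑ i, z w i) (z w)
  have he0 : ∀ w, e w 0 = 1 - ∑ i, z w i := fun w => Fin.cons_zero _ _
  have hes : ∀ w i, e w (Fin.succ i) = z w i := fun w i => Fin.cons_succ _ _ _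
  have hcoord : ∀ w ∈ Metric.closedBall w0 r, ∀ i, |(g w - g w0) i| ≤ 1 := by
    intro w hw i
    have h1 := PiLp.norm_apply_le (g w - g w0) i
    rw [Real.norm_eq_abs] at h1
    exact h1.trans (hrg w hw)
  have hzpos : ∀ w ∈ Metric.closedBall w0 r, ∀ i, 0 ≤ z w i := by
    intro w hw i
    have h1 := (abs_le.1 (hcoord w hw i)).1
    show 0 ≤ 1 / ((n : ℝ) + 1) + c * (g w - g w0) i
    have h2 : c ≤ c * ((n : ℝ) + 1) := by
      have : (0 : ℝ) ≤ n := Nat.cast_nonneg n
      nlinarith
    have h3 := mul_le_mul_of_nonneg_left h1 hc.le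
    rw [← hcn]
    linarith
  have hzsum : ∀ w ∈ Metric.closedBall w0 r, ∑ i, z w i ≤ 1 := by
    intro w hw
    have h1 : ∀ i, z w i ≤ 1 / ((n : ℝ) + 1) + c := by
      intro i
      have h1 := (abs_le.1 (hcoord w hw i)).2
      have h3 := mul_le_mul_of_nonneg_left h1 hc.le
      show 1 / ((n : ℝ) + 1) + c * (g w - g w0) i ≤ _
      linarith
    have h2 : ∑ i, z w i ≤ ∑ i : Fin n, (1 / ((n : ℝ) + 1) + c) := Finset.sum_le_sum fun i _ => h1 i
    rw [Finset.sum_const, Finset.card_univ, Fintype.card_fin, nsmul_eq_mul] at h2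
    have h3 : (n : ℝ) * (1 / ((n : ℝ) + 1) + c) ≤ 1 := by
      rw [← hcn]
      have h4 : c * ((n : ℝ) + 1) * ((n : ℝ) + 1) = 1 := by
        rw [hcn]
        field_simp
      have : (0 : ℝ) ≤ n := Nat.cast_nonneg n
      nlinarith
    linarith
  let x : Fin (n + 1) → ℝ := e w0
  have hz0 : ∀ i, z w0 i = 1 / ((n : ℝ) + 1) := by
    intro i
    show 1 / ((n : ℝ) + 1) + c * (g w0 - g w0) i = _
    rw [sub_self, PiLp.zero_apply, mul_zero, add_zero]
  have hxp : ∀ v ∈ (Finset.univ : Finset (Fin (n + 1))), 0 < x v := by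
    intro v _
    refine Fin.cases ?_ (fun i => ?_) v
    · show 0 < e w0 0
      rw [he0, Finset.sum_congr rfl (fun i _ => hz0 i), Finset.sum_const, Finset.card_univ,
        Fintype.card_fin, nsmul_eq_mul]
      have : 1 - (n : ℝ) * (1 / ((n : ℝ) + 1)) = 1 / ((n : ℝ) + 1) := by
        field_simp
        ring
      rw [this]
      positivity
    · show 0 < e w0 (Fin.succ i)
      rw [hes, hz0]
      positivity
  have hreal : ∀ w ∈ Metric.closedBall w0 r, e w ∈ realization (full n) := by
    intro w hw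
    refine ⟨fun v => ?_, ?_, Finset.univ, Finset.mem_univ _, fun v hv =>
      absurd (Finset.mem_univ v) hv⟩
    · refine Fin.cases ?_ (fun i => ?_) v
      · rw [he0]
        linarith [hzsum w hw]
      · rw [hes]
        exact hzpos w hw i
    · rw [Fin.sum_univ_succ, he0, Finset.sum_congr rfl (fun i _ => hes w i)]
      ring
  have hw0c : w0 ∈ Metric.closedBall w0 r := Metric.mem_closedBall_self hr.le
  have hxcell : x ∈ cell (Finset.univ : Finset (Fin (n + 1))) := by
    have h1 := hreal w0 hw0c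
    exact ⟨h1.1, h1.2.1, fun v hv => absurd (Finset.mem_univ v) hv⟩
  have hzc : ∀ i, ContinuousOn (fun w => z w i) W := by
    intro i
    have h1 : ContinuousOn (fun w => (g w - g w0) i) W :=
      (EuclideanSpace.proj (𝕜 := ℝ) i).continuous.comp_continuousOn (hg.sub continuousOn_const)
    exact continuousOn_const.add (continuousOn_const.mul h1)
  have hec : ContinuousOn e (Metric.closedBall w0 r) := by
    refine ContinuousOn.mono ?_ (fun w hw => hrW w hw)
    rw [continuousOn_pi]
    intro v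
    refine Fin.cases ?_ (fun i => ?_) v
    · have : (fun w => e w 0) = fun w => 1 - ∑ i, z w i := funext fun w => he0 w
      rw [this]
      exact continuousOn_const.sub (continuousOn_finsetSum _ fun i _ => hzc i)
    · have : (fun w => e w (Fin.succ i)) = fun w => z w i := funext fun w => hes w i
      rw [this]
      exact hzc i
  have hgz : ∀ w w', e w = e w' → g w = g w' := by
    intro w w' hww
    ext i
    have h1 := congrFun hww (Fin.succ i)
    rw [hes, hes] at h1
    have h2 : c * (g w - g w0) i = c * (g w' - g w0) i := add_left_cancel h1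
    have h3 := mul_left_cancel₀ hc.ne' h2
    rw [PiLp.sub_apply, PiLp.sub_apply] at h3
    exact sub_left_injective h3
  let Q : (Fin (n + 1) → ℝ) → EE n := fun u =>
    WithLp.toLp 2 (fun i => (u (Fin.succ i) - 1 / ((n : ℝ) + 1)) / c + g w0 i)
  have hQc : Continuous Q := by
    refine (PiLp.continuous_toLp 2 _).comp ?_
    refine continuous_pi fun i => ?_
    fun_prop
  have hQe : ∀ w, Q (e w) = g w := by
    intro w
    ext i
    show (e w (Fin.succ i) - 1 / ((n : ℝ) + 1)) / c + g w0 i = g w i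
    rw [hes]
    show (1 / ((n : ℝ) + 1) + c * (g w - g w0) i - 1 / ((n : ℝ) + 1)) / c + g w0 i = g w i
    rw [PiLp.sub_apply]
    field_simp
    ring
  have hQi : ∀ u u' : Fin (n + 1) → ℝ, ∑ v, u v = 1 → ∑ v, u' v = 1 → Q u = Q u' → u = u' := by
    intro u u' hu hu' hQ
    have h1 : ∀ i : Fin n, u (Fin.succ i) = u' (Fin.succ i) := by
      intro i
      have h2 : Q u i = Q u' i := by rw [hQ]
      have h3 : (u (Fin.succ i) - 1 / ((n : ℝ) + 1)) / c + g w0 i =
        (u' (Fin.succ i) - 1 / ((n : ℝ) + 1)) / c + g w0 i := h2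
      have h4 := add_right_cancel h3
      rw [div_left_inj' hc.ne'] at h4
      linarith
    funext v
    refine Fin.cases ?_ (fun i => h1 i) v
    rw [Fin.sum_univ_succ] at hu hu'
    rw [Finset.sum_congr rfl (fun i _ => h1 i)] at hu
    linarith
  have hO : IsOpen (Q ⁻¹' (g '' Metric.ball w0 r)) :=
    (hopen _ (fun w hw => hrW w (Metric.ball_subset_closedBall hw)) Metric.isOpen_ball).preimage hQc
  have key := acy_int (n := a) (full n) (by omega) Finset.univ (Finset.mem_univ _)
    (Finset.univ_nonempty) x hxcell hxp w0 r hr e hec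
    (fun w hw w' hw' hww => hinj (hrW w hw) (hrW w' hw') (hgz w w' hww)) hreal rfl
    (Q ⁻¹' (g '' Metric.ball w0 r)) hO
    (by
      intro u hu
      constructor
      · rintro ⟨w, hw, hwu⟩
        refine ⟨w, hw, ?_⟩
        refine hQi _ _ (hreal w (Metric.ball_subset_closedBall hw)).2.1 hu.2.1 ?_
        rw [hQe, hwu]
      · rintro ⟨w, hw, rfl⟩
        exact ⟨w, hw, (hQe w).symm⟩) (n + 1) (by omega)
  exact not_acy_full n key

end Pool.Agent.Helper611.UInv
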