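import Mathlib

set_option autoImplicit false
set_option linter.unusedSectionVars false
set_option linter.unnecessarySimpa false

/-! Leading monomials of spaces with commuting lowering operators. -/

namespace Pool.Agent.Helper611.ULead

section lead
variable {K : Type} [Field K] {E : Type*} [AddCommGroup E] [Module K E] {M : Type*}
  {L : Type*} [LinearOrder L]

/-- the leading indices of the space `W` with respect to the functionals `F m`, `m ∈ S` -/
def Lead (F : M → (E →ₗ[K] K)) (key : M → L) (S : Finset M) (W : Submodule K E) : Set M :=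
  {m | m ∈ S ∧ ∃ w ∈ W, F m w ≠ 0 ∧ ∀ m' ∈ S, key m < key m' → F m' w = 0}

lemma finrank_le_lead [FiniteDimensional K E] (F : M → (E →ₗ[K] K)) (key : M → L)
    (S : Finset M)
    (W : Submodule K E) (hinj : ∀ w ∈ W, (∀ m ∈ S, F m w = 0) → w = 0)
    (T : Finset M) (hT : ∀ m, m ∈ T ↔ m ∈ Lead F key S W) :
    Module.finrank K W ≤ T.card := by
  classical
  let G : W →ₗ[K] (T → K) := LinearMap.pi fun m => (F m.1).comp W.subtype
  have hG : Function.Injective G := by
    rw [← LinearMap.ker_eq_bot, LinearMap.ker_eq_bot']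
    intro w hw
    have hw' : ∀ m ∈ T, F m w.1 = 0 := fun m hm => congrFun hw ⟨m, hm⟩
    apply Subtype.ext
    apply hinj w.1 w.2
    by_contra hne
    push Not at hne
    obtain ⟨m0, hm0, hm1⟩ := hne
    obtain ⟨m, hm, hmax⟩ := Finset.exists_max_image (S.filter fun m => F m w.1 ≠ 0) key
      ⟨m0, Finset.mem_filter.2 ⟨hm0, hm1⟩⟩
    rw [Finset.mem_filter] at hm
    refine hm.2 (hw' m ((hT m).2 ⟨hm.1, w.1, w.2, hm.2, fun m' hm' hlt => ?_⟩))
    by_contra h
    exact absurd (hmax m' (Finset.mem_filter.2 ⟨hm', h⟩)) (not_le.2 hlt)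
  have h1 := LinearMap.finrank_le_finrank_of_injective hG
  rwa [Module.finrank_fintype_fun_eq_card, Fintype.card_coe] at h1

lemma lead_le_finrank [FiniteDimensional K E] (F : M → (E →ₗ[K] K)) (key : M → L)
    (hkey : Function.Injective key) (S : Finset M)
    (W : Submodule K E)
    (T : Finset M) (hT : ∀ m ∈ T, m ∈ Lead F key S W) :
    T.card ≤ Module.finrank K W := by
  classical
  choose! w hw using fun m (hm : m ∈ T) => (hT m hm).2
  let v : T → W := fun m => ⟨w m.1, (hw m.1 m.2).1⟩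
  have hv : LinearIndependent K v := by
    rw [Fintype.linearIndependent_iff]
    intro g hg
    by_contra hne
    push Not at hne
    obtain ⟨i0, hi0⟩ := hne
    obtain ⟨i, hi, hmax⟩ := Finset.exists_max_image
      ((Finset.univ : Finset T).filter fun m => g m ≠ 0) (fun m => key m.1)
      ⟨i0, Finset.mem_filter.2 ⟨Finset.mem_univ _, hi0⟩⟩
    rw [Finset.mem_filter] at hi
    have h1 := congrArg (fun u : W => F i.1 u.1) hg
    simp only [Submodule.coe_sum, map_sum, Submodule.coe_smul, map_smul, Submodule.coe_zero,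
      map_zero] at h1
    rw [Finset.sum_eq_single i] at h1
    · have h2 : F i.1 (w i.1) ≠ 0 := (hw i.1 i.2).2.1
      rcases smul_eq_zero.1 h1 with h3 | h3
      · exact hi.2 h3
      · exact h2 h3
    · intro j _ hj
      by_cases hgj : g j = 0
      · rw [hgj, zero_smul]
      · have h2 := hmax j (Finset.mem_filter.2 ⟨Finset.mem_univ _, hgj⟩)
        have h3 : key j.1 < key i.1 := lt_of_le_of_ne h2 fun h => hj (Subtype.ext (hkey h))
        have h4 : F i.1 (w j.1) = 0 := (hw j.1 j.2).2.2 i.1 (hT i.1 i.2).1 h3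
        show g j • F i.1 (w j.1) = 0
        rw [h4, smul_zero]
    · intro h
      exact absurd (Finset.mem_univ _) h
  have h1 := hv.fintype_card_le_finrank
  rwa [Fintype.card_coe] at h1

end lead

section mult
variable {V : Type} [Fintype V] [LinearOrder V]

/-- the ordering of multisets -/
def key (m : Multiset V) : Lex (V → ℕ) := toLex fun v => m.count v

lemma key_inj : Function.Injective (key (V := V)) := by
  intro a b h
  ext v
  exact congrFun (toLex.injective h) v

lemma key_cons (x : V) (a b : Multiset V) (h : key a < key b) : key (x ::ₘ a) < key (x ::ₘ b) := by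
  obtain ⟨i, h1, h2⟩ := h
  refine ⟨i, fun j hj => ?_, ?_⟩
  · show (x ::ₘ a).count j = (x ::ₘ b).count j
    rw [Multiset.count_cons, Multiset.count_cons]
    have := h1 j hj
    have h3 : a.count j = b.count j := this
    rw [h3]
  · show (x ::ₘ a).count i < (x ::ₘ b).count i
    rw [Multiset.count_cons, Multiset.count_cons]
    have h3 : a.count i < b.count i := h2
    omega

lemma sum_count (X : Finset V) (m : Multiset V) (h : ∀ v ∈ m, v ∈ X) :
    ∑ x ∈ X, m.count x = m.card := by
  classical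
  induction m using Multiset.induction_on with
  | empty => simp
  | cons a m ih =>
    have h1 := ih fun v hv => h v (Multiset.mem_cons_of_mem hv)
    have h2 : ∑ x ∈ X, (a ::ₘ m).count x = ∑ x ∈ X, (m.count x + if x = a then 1 else 0) :=
      Finset.sum_congr rfl fun x _ => by rw [Multiset.count_cons]
    rw [h2, Finset.sum_add_distrib, h1, Finset.sum_ite_eq', if_pos (h a (Multiset.mem_cons_self _ _)),
      Multiset.card_cons]

/-- normalised matching for multisets -/
lemma matching (X : Finset V) (i : ℕ) (A B : Finset (Multiset V))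
    (hA : ∀ a ∈ A, a.card = i + 1 ∧ ∀ v ∈ a, v ∈ X) (hB : ∀ b ∈ B, b.card = i ∧ ∀ v ∈ b, v ∈ X)
    (h : ∀ a ∈ A, ∀ x ∈ a, a.erase x ∈ B) : (i + 1) * A.card ≤ (X.card + i) * B.card := by
  classical
  have h1 : (i + 1) * A.card = ∑ x ∈ X, ∑ a ∈ A, a.count x := by
    rw [Finset.sum_comm, Finset.sum_congr rfl (fun a ha => sum_count X a (hA a ha).2),
      Finset.sum_congr rfl (fun a ha => (hA a ha).1), Finset.sum_const, smul_eq_mul, mul_comm]
  have h2 : (X.card + i) * B.card = ∑ x ∈ X, ∑ b ∈ B, (b.count x + 1) := by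
    rw [Finset.sum_comm]
    have : ∀ b ∈ B, ∑ x ∈ X, (b.count x + 1) = X.card + i := by
      intro b hb
      rw [Finset.sum_add_distrib, sum_count X b (hB b hb).2, (hB b hb).1, Finset.sum_const,
        smul_eq_mul, mul_one, add_comm]
    rw [Finset.sum_congr rfl this, Finset.sum_const, smul_eq_mul, mul_comm]
  rw [h1, h2]
  refine Finset.sum_le_sum fun x _ => ?_
  have h3 : ∑ a ∈ A, a.count x = ∑ a ∈ A.filter (fun a => x ∈ a), a.count x := by
    rw [Finset.sum_filter]
    refine Finset.sum_congr rfl fun a _ => ?_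
    split_ifs with h
    · rfl
    · exact Multiset.count_eq_zero.2 h
  have h4 : ∑ a ∈ A.filter (fun a => x ∈ a), a.count x =
      ∑ b ∈ (A.filter (fun a => x ∈ a)).image (fun a => a.erase x), (b.count x + 1) := by
    rw [Finset.sum_image]
    · refine Finset.sum_congr rfl fun a ha => ?_
      have hx := (Finset.mem_filter.1 ha).2
      have := Multiset.count_pos.2 hx
      rw [Multiset.count_erase_self]
      omega
    · intro a ha b hb hab
      have hxa := (Finset.mem_filter.1 (Finset.mem_coe.1 ha)).2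
      have hxb := (Finset.mem_filter.1 (Finset.mem_coe.1 hb)).2
      have hab' : a.erase x = b.erase x := hab
      rw [← Multiset.cons_erase hxa, ← Multiset.cons_erase hxb, hab']
  rw [h3, h4]
  refine Finset.sum_le_sum_of_subset fun b hb => ?_
  obtain ⟨a, ha, rfl⟩ := Finset.mem_image.1 hb
  exact h a (Finset.mem_filter.1 ha).1 x (Finset.mem_filter.1 ha).2

end mult

section growth
variable {V : Type} [Fintype V] [LinearOrder V] {K : Type} [Field K] {E : Type*} [AddCommGroup E]
  [Module K E]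

/-- iterated operators -/
def evl (D : V → (E →ₗ[K] E)) : List V → (E →ₗ[K] E)
  | [] => LinearMap.id
  | x :: l => (evl D l).comp (D x)

lemma evl_nil (D : V → (E →ₗ[K] E)) (t : E) : evl D [] t = t := rfl

lemma evl_cons (D : V → (E →ₗ[K] E)) (x : V) (l : List V) (t : E) :
    evl D (x :: l) t = evl D l (D x t) := rfl

variable (D : V → (E →ₗ[K] E)) (T : ℕ → Submodule K E)

lemma evl_perm (hD : ∀ s, ∀ t ∈ T (s + 1), ∀ x, D x t ∈ T s)
    (hc : ∀ s, ∀ t ∈ T (s + 2), ∀ x y, D x (D y t) = D y (D x t)) (l l' : List V)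
    (h : l.Perm l') : ∀ s, l.length ≤ s → ∀ t ∈ T s, evl D l t = evl D l' t := by
  induction h with
  | nil => exact fun s _ t _ => rfl
  | cons x _ ih =>
    intro s hs t ht
    rw [evl_cons, evl_cons]
    obtain ⟨r, rfl⟩ : ∃ r, s = r + 1 := ⟨s - 1, by rw [List.length_cons] at hs; omega⟩
    exact ih r (by rw [List.length_cons] at hs; omega) _ (hD r t ht x)
  | swap x y l =>
    intro s hs t ht
    rw [evl_cons, evl_cons, evl_cons, evl_cons]
    rw [List.length_cons, List.length_cons] at hs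
    obtain ⟨r, rfl⟩ : ∃ r, s = r + 2 := ⟨s - 2, by omega⟩
    rw [hc r t ht x y]
  | trans h1 _ ih1 ih2 =>
    intro s hs t ht
    rw [ih1 s hs t ht, ih2 s (by rw [← h1.length_eq]; exact hs) t ht]

/-- the functional of a multiset -/
noncomputable def FF (ε : E →ₗ[K] K) (m : Multiset V) : E →ₗ[K] K := ε.comp (evl D (m.sort (· ≤ ·)))

lemma FF_cons (hD : ∀ s, ∀ t ∈ T (s + 1), ∀ x, D x t ∈ T s)
    (hc : ∀ s, ∀ t ∈ T (s + 2), ∀ x y, D x (D y t) = D y (D x t)) (ε : E →ₗ[K] K)
    (x : V) (m : Multiset V) (s : ℕ) (hs : m.card + 1 ≤ s) (t : E) (ht : t ∈ T s) :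
    FF D ε (x ::ₘ m) t = FF D ε m (D x t) := by
  unfold FF
  rw [LinearMap.comp_apply, LinearMap.comp_apply, ← evl_cons]
  congr 1
  refine evl_perm D T hD hc _ _ ?_ s ?_ t ht
  · rw [← Multiset.coe_eq_coe, Multiset.sort_eq, ← Multiset.cons_coe, Multiset.sort_eq]
  · rw [Multiset.length_sort, Multiset.card_cons]
    exact hs

lemma FF_inj (hD : ∀ s, ∀ t ∈ T (s + 1), ∀ x, D x t ∈ T s)
    (hc : ∀ s, ∀ t ∈ T (s + 2), ∀ x y, D x (D y t) = D y (D x t)) (ε : E →ₗ[K] K)
    (X : Finset V) (hX : ∀ s, ∀ t ∈ T (s + 1), (∀ x ∈ X, D x t = 0) → t = 0)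
    (h0 : ∀ t ∈ T 0, ε t = 0 → t = 0) :
    ∀ s, ∀ t ∈ T s, (∀ m : Multiset V, m.card = s → (∀ v ∈ m, v ∈ X) → FF D ε m t = 0) →
      t = 0 := by
  intro s
  induction s with
  | zero =>
    intro t ht h
    apply h0 t ht
    have := h 0 rfl (fun v hv => absurd hv (Multiset.notMem_zero v))
    have h2 : FF D ε 0 t = ε t := by
      unfold FF
      rw [LinearMap.comp_apply, Multiset.sort_zero, evl_nil]
    rwa [h2] at this
  | succ s ih =>
    intro t ht h
    refine hX s t ht fun x hx => ih _ (hD s t ht x) fun m hm hm2 => ?_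
    rw [← FF_cons D T hD hc ε x m (s + 1) (by omega) t ht]
    refine h _ (by rw [Multiset.card_cons, hm]) fun v hv => ?_
    rcases Multiset.mem_cons.1 hv with rfl | hv
    · exact hx
    · exact hm2 v hv

/-- the growth inequality -/
lemma growth [FiniteDimensional K E] (hD : ∀ s, ∀ t ∈ T (s + 1), ∀ x, D x t ∈ T s)
    (hc : ∀ s, ∀ t ∈ T (s + 2), ∀ x y, D x (D y t) = D y (D x t)) (ε : E →ₗ[K] K)
    (X : Finset V) (hX : ∀ s, ∀ t ∈ T (s + 1), (∀ x ∈ X, D x t = 0) → t = 0)
    (h0 : ∀ t ∈ T 0, ε t = 0 → t = 0) (i : ℕ) (N : Submodule K E)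
    (hN : ∀ t ∈ T (i + 1), ∀ x ∈ X, D x t ∈ N) :
    (i + 1) * Module.finrank K (T (i + 1)) ≤ (X.card + i) * Module.finrank K N := by
  classical
  -- the multisets of size `i` over `X`
  have hfin : ∀ j : ℕ, ∃ S : Finset (Multiset V), ∀ m, m ∈ S ↔ m.card = j ∧ ∀ v ∈ m, v ∈ X := by
    intro j
    refine ⟨(X.sym j).image (fun m : Sym V j => (m : Multiset V)), fun m => ?_⟩
    rw [Finset.mem_image]
    constructor
    · rintro ⟨a, ha, rfl⟩
      exact ⟨a.2, fun v hv => Finset.mem_sym_iff.1 ha v hv⟩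
    · rintro ⟨h1, h2⟩
      exact ⟨Sym.mk m h1, Finset.mem_sym_iff.2 fun v hv => h2 v hv, rfl⟩
  obtain ⟨S1, hS1⟩ := hfin (i + 1)
  obtain ⟨S0, hS0⟩ := hfin i
  let A : Finset (Multiset V) := S1.filter fun m => m ∈ Lead (FF D ε) key S1 (T (i + 1))
  let B : Finset (Multiset V) := S0.filter fun m => m ∈ Lead (FF D ε) key S0 N
  have h1 : Module.finrank K (T (i + 1)) ≤ A.card := by
    refine finrank_le_lead (FF D ε) key S1 (T (i + 1)) ?_ A fun m => ?_
    · intro w hw h
      refine FF_inj D T hD hc ε X hX h0 (i + 1) w hw fun m hm hm2 => h m ((hS1 m).2 ⟨hm, hm2⟩)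
    · rw [Finset.mem_filter]
      exact ⟨fun h => h.2, fun h => ⟨h.1, h⟩⟩
  have h2 : B.card ≤ Module.finrank K N :=
    lead_le_finrank (FF D ε) key key_inj S0 N B fun m hm => (Finset.mem_filter.1 hm).2
  have h3 : (i + 1) * A.card ≤ (X.card + i) * B.card := by
    refine matching X i A B (fun a ha => (hS1 a).1 (Finset.mem_filter.1 ha).1)
      (fun b hb => (hS0 b).1 (Finset.mem_filter.1 hb).1) ?_
    intro a ha x hx
    obtain ⟨ha1, _, w, hw, hw1, hw2⟩ := Finset.mem_filter.1 ha
    obtain ⟨ha3, ha4⟩ := (hS1 a).1 ha1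
    obtain ⟨b, rfl⟩ := Multiset.exists_cons_of_mem hx
    rw [Multiset.erase_cons_head]
    rw [Multiset.card_cons] at ha3
    have hb : b ∈ S0 := (hS0 b).2 ⟨by omega, fun v hv => ha4 v (Multiset.mem_cons_of_mem hv)⟩
    have hxX := ha4 x hx
    refine Finset.mem_filter.2 ⟨hb, hb, D x w, hN w hw x hxX, ?_, ?_⟩
    · rw [← FF_cons D T hD hc ε x b (i + 1) (by omega) w hw]
      exact hw1
    · intro m hm hlt
      obtain ⟨hm1, hm2⟩ := (hS0 m).1 hm
      rw [← FF_cons D T hD hc ε x m (i + 1) (by omega) w hw]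
      refine hw2 _ ((hS1 _).2 ⟨by rw [Multiset.card_cons, hm1], fun v hv => ?_⟩)
        (key_cons x b m hlt)
      rcases Multiset.mem_cons.1 hv with rfl | hv
      · exact hxX
      · exact hm2 v hv
  calc (i + 1) * Module.finrank K (T (i + 1)) ≤ (i + 1) * A.card := Nat.mul_le_mul_left _ h1
    _ ≤ (X.card + i) * B.card := h3
    _ ≤ (X.card + i) * Module.finrank K N := Nat.mul_le_mul_left _ h2

end growth

end Pool.Agent.Helper611.ULead
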