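import Pool.Agent.Helper611.KDim

set_option autoImplicit false
set_option linter.unusedSectionVars false
set_option linter.unnecessarySimpa false

/-! Squarefree stresses of a simplicial complex and their derivatives. -/

namespace Pool.Agent.Helper611.UStr

open Pool.Agent.Helper611.ZBase

section stress
variable {V : Type} [Fintype V] [LinearOrder V] {K : Type} [Field K] {d : ℕ}

/-- squarefree stresses of degree `s` -/
def St (Γ : Cx V) (p : V → (Fin d → K)) (s : ℕ) : Submodule K (Finset V → K) where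
  carrier := {l | (∀ σ, l σ ≠ 0 → σ ∈ Γ.faces ∧ σ.card = s) ∧
    ∀ ρ, ρ ∈ Γ.faces → ∑ x ∈ ρᶜ, l (insert x ρ) • p x ∈ Submodule.span K (p '' (ρ : Set V))}
  add_mem' := by
    rintro a b ⟨ha, ha2⟩ ⟨hb, hb2⟩
    refine ⟨fun σ hσ => ?_, fun ρ hρ => ?_⟩
    · by_cases h : a σ = 0
      · exact hb σ fun h2 => hσ (by rw [Pi.add_apply, h, h2, add_zero])
      · exact ha σ h
    · have := Submodule.add_mem _ (ha2 ρ hρ) (hb2 ρ hρ)
      rw [← Finset.sum_add_distrib] at this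
      convert this using 2 with x _
      rw [Pi.add_apply, add_smul]
  zero_mem' := by
    refine ⟨fun σ hσ => absurd rfl hσ, fun ρ _ => ?_⟩
    rw [Finset.sum_eq_zero fun x _ => by rw [Pi.zero_apply, zero_smul]]
    exact Submodule.zero_mem _
  smul_mem' := by
    rintro r a ⟨ha, ha2⟩
    refine ⟨fun σ hσ => ha σ fun h2 => hσ (by rw [Pi.smul_apply, h2, smul_zero]),
      fun ρ hρ => ?_⟩
    have := Submodule.smul_mem _ r (ha2 ρ hρ)
    rw [Finset.smul_sum] at this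
    convert this using 2 with x _
    rw [Pi.smul_apply, smul_assoc]

/-- dual coordinates on the faces -/
structure Coord (Γ : Cx V) (p : V → (Fin d → K))
    (φ : Finset V → V → Module.Dual K (Fin d → K)) : Prop where
  one : ∀ σ ∈ Γ.faces, ∀ x ∈ σ, φ σ x (p x) = 1
  zero : ∀ σ ∈ Γ.faces, ∀ x ∈ σ, ∀ y ∈ σ, y ≠ x → φ σ x (p y) = 0

variable (Γ : Cx V) (p : V → (Fin d → K)) (φ : Finset V → V → Module.Dual K (Fin d → K))

/-- the coefficients of the derivative -/
noncomputable def mu (l : Finset V → K) (σ : Finset V) (x : V) : K :=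
  if x ∈ σ then (if σ ∈ Γ.faces then - φ σ x (∑ y ∈ σᶜ, l (insert y σ) • p y) else 0)
  else l (insert x σ)

lemma mu_out (l : Finset V → K) (σ : Finset V) (x : V) (hx : x ∉ σ) :
    mu Γ p φ l σ x = l (insert x σ) := if_neg hx

lemma mu_in (l : Finset V → K) (σ : Finset V) (x : V) (hx : x ∈ σ) (hσ : σ ∈ Γ.faces) :
    mu Γ p φ l σ x = - φ σ x (∑ y ∈ σᶜ, l (insert y σ) • p y) := by
  unfold mu
  rw [if_pos hx, if_pos hσ]

lemma mu_not (l : Finset V → K) (hl : ∀ σ, l σ ≠ 0 → σ ∈ Γ.faces) (σ : Finset V) (x : V)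
    (hσ : σ ∉ Γ.faces) : mu Γ p φ l σ x = 0 := by
  unfold mu
  by_cases hx : x ∈ σ
  · rw [if_pos hx, if_neg hσ]
  · rw [if_neg hx]
    by_contra h
    exact hσ (Γ.down _ (hl _ h) _ (Finset.subset_insert _ _))

variable {Γ p φ}

lemma expand (hφ : Coord Γ p φ) (σ : Finset V) (hσ : σ ∈ Γ.faces) (w : Fin d → K)
    (hw : w ∈ Submodule.span K (p '' (σ : Set V))) : ∑ x ∈ σ, φ σ x w • p x = w := by
  induction hw using Submodule.span_induction with
  | mem w hw =>
    obtain ⟨y, hy, rfl⟩ := hw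
    rw [Finset.sum_eq_single_of_mem y hy, hφ.one σ hσ y hy, one_smul]
    intro x hx hxy
    rw [hφ.zero σ hσ x hx y hy (Ne.symm hxy), zero_smul]
  | zero => exact Finset.sum_eq_zero fun x _ => by rw [map_zero, zero_smul]
  | add a b _ _ ha hb =>
    nth_rewrite 2 [← ha]
    nth_rewrite 2 [← hb]
    rw [← Finset.sum_add_distrib]
    exact Finset.sum_congr rfl fun x _ => by rw [map_add, add_smul]
  | smul r a _ ha =>
    nth_rewrite 2 [← ha]
    rw [Finset.smul_sum]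
    exact Finset.sum_congr rfl fun x _ => by rw [map_smul, smul_assoc]

lemma uniq (hφ : Coord Γ p φ) (σ : Finset V) (hσ : σ ∈ Γ.faces) (a : V → K)
    (h : ∑ x ∈ σ, a x • p x = 0) (x : V) (hx : x ∈ σ) : a x = 0 := by
  have h1 := congrArg (φ σ x) h
  rw [map_zero, map_sum, Finset.sum_eq_single_of_mem x hx, map_smul, hφ.one σ hσ x hx,
    smul_eq_mul, mul_one] at h1
  · exact h1
  · intro y hy hyx
    rw [map_smul, hφ.zero σ hσ x hx y hy hyx, smul_zero]

lemma mem_span_of (hφ : Coord Γ p φ) (σ : Finset V) (hσ : σ ∈ Γ.faces) (w : Fin d → K)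
    (h : ∀ ψ : Module.Dual K (Fin d → K), (∀ x ∈ σ, ψ (p x) = 0) → ψ w = 0) :
    w ∈ Submodule.span K (p '' (σ : Set V)) := by
  have h1 : w = ∑ x ∈ σ, φ σ x w • p x := by
    rw [← sub_eq_zero]
    rw [← Module.forall_dual_apply_eq_zero_iff K]
    intro η
    have h2 := h (η - ∑ x ∈ σ, η (p x) • φ σ x) (by
      intro y hy
      rw [LinearMap.sub_apply, LinearMap.sum_apply, Finset.sum_eq_single_of_mem y hy,
        LinearMap.smul_apply, hφ.one σ hσ y hy, smul_eq_mul, mul_one, sub_self]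
      intro x hx hxy
      rw [LinearMap.smul_apply, hφ.zero σ hσ x hx y hy (Ne.symm hxy), smul_zero])
    rw [LinearMap.sub_apply, LinearMap.sum_apply] at h2
    rw [map_sub, map_sum, ← h2]
    congr 1
    refine Finset.sum_congr rfl fun x _ => ?_
    rw [map_smul, LinearMap.smul_apply, smul_eq_mul, smul_eq_mul, mul_comm]
  rw [h1]
  refine Submodule.sum_mem _ fun x hx => Submodule.smul_mem _ _ (Submodule.subset_span ?_)
  exact ⟨x, hx, rfl⟩

lemma rel (hφ : Coord Γ p φ) (s : ℕ) (l : Finset V → K) (hl : l ∈ St Γ p s) (σ : Finset V) :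
    ∑ x, mu Γ p φ l σ x • p x = 0 := by
  by_cases hσ : σ ∈ Γ.faces
  · rw [← Finset.sum_add_sum_compl σ]
    have h1 : ∑ x ∈ σᶜ, mu Γ p φ l σ x • p x = ∑ x ∈ σᶜ, l (insert x σ) • p x :=
      Finset.sum_congr rfl fun x hx => by rw [mu_out Γ p φ l σ x (Finset.mem_compl.1 hx)]
    have h2 : ∑ x ∈ σ, mu Γ p φ l σ x • p x =
        - ∑ x ∈ σ, φ σ x (∑ y ∈ σᶜ, l (insert y σ) • p y) • p x := by
      rw [← Finset.sum_neg_distrib]
      exact Finset.sum_congr rfl fun x hx => by rw [mu_in Γ p φ l σ x hx hσ, neg_smul]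
    rw [h1, h2, expand hφ σ hσ _ (hl.2 σ hσ), neg_add_cancel]
  · exact Finset.sum_eq_zero fun x _ => by
      rw [mu_not Γ p φ l (fun σ h => (hl.1 σ h).1) σ x hσ, zero_smul]

lemma mu_sym (l : Finset V → K) (ρ : Finset V) (x y : V) (hx : x ∉ ρ) (hy : y ∉ ρ) :
    mu Γ p φ l (insert y ρ) x = mu Γ p φ l (insert x ρ) y := by
  by_cases hxy : x = y
  · rw [hxy]
  · rw [mu_out, mu_out, Finset.insert_comm]
    · simp [hy, Ne.symm hxy]
    · simp [hx, hxy]

lemma rel_out (hφ : Coord Γ p φ) (s : ℕ) (l : Finset V → K) (hl : l ∈ St Γ p s) (ρ : Finset V)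
    (x : V) (hx : x ∉ ρ) :
    ∑ z ∈ ρ, mu Γ p φ l (insert x ρ) z • p z + ∑ z ∈ ρᶜ, mu Γ p φ l (insert z ρ) x • p z = 0 := by
  rw [← rel hφ s l hl (insert x ρ), ← Finset.sum_add_sum_compl ρ]
  congr 1
  exact Finset.sum_congr rfl fun z hz => by
    rw [mu_sym l ρ x z hx (Finset.mem_compl.1 hz)]

lemma rel_two (hφ : Coord Γ p φ) (s : ℕ) (l : Finset V → K) (hl : l ∈ St Γ p s) (ρ : Finset V)
    (ψ η : Module.Dual K (Fin d → K)) :
    ∑ w ∈ ρ, η (p w) * ψ (∑ y ∈ ρᶜ, mu Γ p φ l (insert y ρ) w • p y) =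
    ∑ w ∈ ρ, ψ (p w) * η (∑ y ∈ ρᶜ, mu Γ p φ l (insert y ρ) w • p y) := by
  have key : ∀ ψ η : Module.Dual K (Fin d → K),
      ∑ w ∈ ρ, η (p w) * ψ (∑ y ∈ ρᶜ, mu Γ p φ l (insert y ρ) w • p y) =
      - ∑ y ∈ ρᶜ, ∑ z ∈ ρᶜ, ψ (p y) * η (p z) * mu Γ p φ l (insert y ρ) z := by
    intro ψ η
    have h1 : ∑ y ∈ ρᶜ, ψ (p y) * ∑ z, mu Γ p φ l (insert y ρ) z * η (p z) = 0 := by
      refine Finset.sum_eq_zero fun y _ => ?_
      have h2 := congrArg η (rel hφ s l hl (insert y ρ))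
      rw [map_zero, map_sum] at h2
      have h3 : ∑ z, mu Γ p φ l (insert y ρ) z * η (p z) = 0 := by
        rw [← h2]
        exact Finset.sum_congr rfl fun z _ => by rw [map_smul, smul_eq_mul]
      rw [h3, mul_zero]
    have h4 : ∑ y ∈ ρᶜ, ψ (p y) * ∑ z, mu Γ p φ l (insert y ρ) z * η (p z) =
        ∑ y ∈ ρᶜ, ∑ z ∈ ρ, ψ (p y) * (mu Γ p φ l (insert y ρ) z * η (p z)) +
        ∑ y ∈ ρᶜ, ∑ z ∈ ρᶜ, ψ (p y) * η (p z) * mu Γ p φ l (insert y ρ) z := by
      rw [← Finset.sum_add_distrib]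
      refine Finset.sum_congr rfl fun y _ => ?_
      rw [← Finset.sum_add_sum_compl ρ, mul_add, Finset.mul_sum, Finset.mul_sum]
      congr 1
      exact Finset.sum_congr rfl fun z _ => by ring
    rw [h1] at h4
    have h5 : ∑ y ∈ ρᶜ, ∑ z ∈ ρ, ψ (p y) * (mu Γ p φ l (insert y ρ) z * η (p z)) =
        ∑ w ∈ ρ, η (p w) * ψ (∑ y ∈ ρᶜ, mu Γ p φ l (insert y ρ) w • p y) := by
      rw [Finset.sum_comm]
      refine Finset.sum_congr rfl fun w _ => ?_
      rw [map_sum, Finset.mul_sum]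
      refine Finset.sum_congr rfl fun y _ => ?_
      rw [map_smul, smul_eq_mul]
      ring
    rw [h5] at h4
    linear_combination -h4
  rw [key ψ η, key η ψ, Finset.sum_comm]
  congr 1
  refine Finset.sum_congr rfl fun y hy => Finset.sum_congr rfl fun z hz => ?_
  rw [mu_sym l ρ y z (Finset.mem_compl.1 hy) (Finset.mem_compl.1 hz)]
  ring

variable (Γ p φ)

/-- the derivative in the direction of the vertex `x` -/
noncomputable def D (x : V) : (Finset V → K) →ₗ[K] (Finset V → K) where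
  toFun := fun l σ => mu Γ p φ l σ x
  map_add' := by
    intro a b
    funext σ
    simp only [mu, Pi.add_apply]
    by_cases h1 : x ∈ σ
    · rw [if_pos h1, if_pos h1, if_pos h1]
      by_cases h2 : σ ∈ Γ.faces
      · rw [if_pos h2, if_pos h2, if_pos h2, ← neg_add, ← map_add, ← Finset.sum_add_distrib]
        congr 2
        exact Finset.sum_congr rfl fun y _ => by rw [add_smul]
      · rw [if_neg h2, if_neg h2, if_neg h2, add_zero]
    · rw [if_neg h1, if_neg h1, if_neg h1]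
  map_smul' := by
    intro r a
    funext σ
    simp only [mu, Pi.smul_apply, RingHom.id_apply]
    by_cases h1 : x ∈ σ
    · rw [if_pos h1, if_pos h1]
      by_cases h2 : σ ∈ Γ.faces
      · rw [if_pos h2, if_pos h2, smul_neg, ← map_smul, Finset.smul_sum]
        congr 2
        exact Finset.sum_congr rfl fun y _ => by rw [smul_assoc]
      · rw [if_neg h2, if_neg h2, smul_zero]
    · rw [if_neg h1, if_neg h1]

lemma D_apply (x : V) (l : Finset V → K) (σ : Finset V) : D Γ p φ x l σ = mu Γ p φ l σ x := rfl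

variable {Γ p φ}

lemma D_mem (hφ : Coord Γ p φ) (s : ℕ) (l : Finset V → K) (hl : l ∈ St Γ p (s + 1)) (x : V) :
    D Γ p φ x l ∈ St Γ p s := by
  refine ⟨fun σ hσ => ?_, fun ρ hρ => ?_⟩
  · rw [D_apply] at hσ
    have h1 : σ ∈ Γ.faces := by
      by_contra h
      exact hσ (mu_not Γ p φ l (fun σ h => (hl.1 σ h).1) σ x h)
    refine ⟨h1, ?_⟩
    by_cases hx : x ∈ σ
    · rw [mu_in Γ p φ l σ x hx h1] at hσ
      have h2 : ∑ y ∈ σᶜ, l (insert y σ) • p y ≠ 0 := by
        intro h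
        rw [h, map_zero, neg_zero] at hσ
        exact hσ rfl
      obtain ⟨y, hy, hy2⟩ := Finset.exists_ne_zero_of_sum_ne_zero h2
      have h3 : l (insert y σ) ≠ 0 := fun h => hy2 (by rw [h, zero_smul])
      have h4 := (hl.1 _ h3).2
      rw [Finset.card_insert_of_notMem (Finset.mem_compl.1 hy)] at h4
      omega
    · rw [mu_out Γ p φ l σ x hx] at hσ
      have h4 := (hl.1 _ hσ).2
      rw [Finset.card_insert_of_notMem hx] at h4
      omega
  · show ∑ z ∈ ρᶜ, mu Γ p φ l (insert z ρ) x • p z ∈ _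
    by_cases hx : x ∈ ρ
    · refine mem_span_of hφ ρ hρ _ fun ψ hψ => ?_
      have h1 := rel_two hφ (s + 1) l hl ρ ψ (φ ρ x)
      rw [Finset.sum_eq_single_of_mem x hx, hφ.one ρ hρ x hx, one_mul] at h1
      · rw [h1]
        exact Finset.sum_eq_zero fun w hw => by rw [hψ w hw, zero_mul]
      · intro w hw hwx
        rw [hφ.zero ρ hρ x hx w hw hwx, zero_mul]
    · have h1 := rel_out hφ (s + 1) l hl ρ x hx
      rw [eq_neg_of_add_eq_zero_right h1]
      refine Submodule.neg_mem _ (Submodule.sum_mem _ fun z hz => Submodule.smul_mem _ _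
        (Submodule.subset_span ⟨z, hz, rfl⟩))

lemma D_comm_aux (hφ : Coord Γ p φ) (s : ℕ) (l : Finset V → K) (hl : l ∈ St Γ p (s + 2))
    (x y : V) (σ : Finset V) (hσ : σ ∈ Γ.faces) (hx : x ∈ σ) (hy : y ∉ σ) :
    mu Γ p φ (D Γ p φ y l) σ x = mu Γ p φ (D Γ p φ x l) σ y := by
  have hy1 := D_mem hφ (s + 1) l hl y
  rw [mu_out Γ p φ _ σ y hy, D_apply]
  have h1 := rel hφ (s + 1) _ hy1 σ
  rw [← Finset.sum_add_sum_compl σ] at h1
  have h2 : ∑ z ∈ σᶜ, mu Γ p φ (D Γ p φ y l) σ z • p z =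
      ∑ z ∈ σᶜ, mu Γ p φ l (insert z σ) y • p z :=
    Finset.sum_congr rfl fun z hz => by
      rw [mu_out Γ p φ _ σ z (Finset.mem_compl.1 hz), D_apply]
  have h3 := rel_out hφ (s + 2) l hl σ y hy
  rw [h2, ← h3, add_left_inj, ← sub_eq_zero, ← Finset.sum_sub_distrib] at h1
  have h4 := uniq hφ σ hσ
    (fun z => mu Γ p φ (D Γ p φ y l) σ z - mu Γ p φ l (insert y σ) z) (by
      rw [← h1]
      exact Finset.sum_congr rfl fun z _ => by rw [sub_smul]) x hx
  exact sub_eq_zero.1 h4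

lemma D_comm (hφ : Coord Γ p φ) (s : ℕ) (l : Finset V → K) (hl : l ∈ St Γ p (s + 2))
    (x y : V) : D Γ p φ x (D Γ p φ y l) = D Γ p φ y (D Γ p φ x l) := by
  funext σ
  rw [D_apply, D_apply]
  have hy1 := D_mem hφ (s + 1) l hl y
  have hx1 := D_mem hφ (s + 1) l hl x
  by_cases hσ : σ ∈ Γ.faces
  · by_cases hx : x ∈ σ
    · by_cases hy : y ∈ σ
      · have h1 := rel_two hφ (s + 2) l hl σ (φ σ y) (φ σ x)
        rw [Finset.sum_eq_single_of_mem x hx, hφ.one σ hσ x hx, one_mul,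
          Finset.sum_eq_single_of_mem y hy, hφ.one σ hσ y hy, one_mul] at h1
        · have h2 : ∀ u v : V, v ∈ σ → D Γ p φ u l ∈ St Γ p (s + 1) →
              mu Γ p φ (D Γ p φ u l) σ v =
              - φ σ v (∑ z ∈ σᶜ, mu Γ p φ l (insert z σ) u • p z) := by
            intro u v hv _
            rw [mu_in Γ p φ _ σ v hv hσ]
            rfl
          rw [h2 y x hx hy1, h2 x y hy hx1, h1]
        · intro w hw hwy
          rw [hφ.zero σ hσ y hy w hw hwy, zero_mul]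
        · intro w hw hwx
          rw [hφ.zero σ hσ x hx w hw hwx, zero_mul]
      · exact D_comm_aux hφ s l hl x y σ hσ hx hy
    · by_cases hy : y ∈ σ
      · exact (D_comm_aux hφ s l hl y x σ hσ hy hx).symm
      · rw [mu_out Γ p φ _ σ x hx, mu_out Γ p φ _ σ y hy, D_apply, D_apply]
        exact (mu_sym l σ x y hx hy).symm
  · rw [mu_not Γ p φ _ (fun σ h => (hy1.1 σ h).1) σ x hσ,
      mu_not Γ p φ _ (fun σ h => (hx1.1 σ h).1) σ y hσ]

lemma D_rel (hφ : Coord Γ p φ) (s : ℕ) (l : Finset V → K) (hl : l ∈ St Γ p s)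
    (η : Module.Dual K (Fin d → K)) : ∑ x, η (p x) • D Γ p φ x l = 0 := by
  funext σ
  rw [Finset.sum_apply, Pi.zero_apply, ← map_zero η, ← rel hφ s l hl σ, map_sum]
  refine Finset.sum_congr rfl fun x _ => ?_
  rw [Pi.smul_apply, D_apply, map_smul, smul_eq_mul, smul_eq_mul, mul_comm]

lemma D_inj (s : ℕ) (l : Finset V → K) (hl : l ∈ St Γ p (s + 1))
    (h : ∀ x, D Γ p φ x l = 0) : l = 0 := by
  funext σ
  by_contra hσ
  have h1 := (hl.1 σ hσ).2
  obtain ⟨x, hx⟩ : σ.Nonempty := Finset.card_pos.1 (by omega)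
  have h2 := congrFun (h x) (σ.erase x)
  rw [D_apply, mu_out Γ p φ _ _ x (Finset.notMem_erase _ _), Finset.insert_erase hx] at h2
  exact hσ h2

lemma D_inj' (hφ : Coord Γ p φ) (s : ℕ) (l : Finset V → K) (hl : l ∈ St Γ p (s + 1))
    (B : Finset V) (hB : B ∈ Γ.faces) (h : ∀ x, x ∉ B → D Γ p φ x l = 0) : l = 0 := by
  refine D_inj (φ := φ) s l hl fun b => ?_
  by_cases hb : b ∈ B
  · have h1 := D_rel hφ (s + 1) l hl (φ B b)
    rw [Finset.sum_eq_single_of_mem b (Finset.mem_univ _), hφ.one B hB b hb, one_smul] at h1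
    · exact h1
    · intro x _ hxb
      by_cases hx : x ∈ B
      · rw [hφ.zero B hB b hb x hx hxb, zero_smul]
      · rw [h x hx, smul_zero]
  · exact h b hb

end stress

end Pool.Agent.Helper611.UStr
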