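import Pool.Agent.Helper611.ZBase

set_option autoImplicit false
set_option linter.unusedSectionVars false
set_option linter.unnecessarySimpa false

/-! Local acyclicity at the points with Euclidean or half-space charts; invariance of dimension. -/

namespace Pool.Agent.Helper611.UTop

open Pool.Agent.Helper611.ZBase

section local_charts
variable {V : Type} [Fintype V] [LinearOrder V] {n : ℕ}

abbrev EE (n : ℕ) := EuclideanSpace ℝ (Fin n)

lemma inverse_ext (S : Set (EE n)) (hS : IsCompact S) (e : EE n → (V → ℝ))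
    (he : ContinuousOn e S) (hinj : Set.InjOn e S) :
    ∃ f : (V → ℝ) → EE n, Continuous f ∧ ∀ w ∈ S, f (e w) = w := by
  classical
  haveI : CompactSpace S := isCompact_iff_compactSpace.1 hS
  have he' : Continuous (S.domRestrict e) := continuousOn_iff_continuous_domRestrict.1 he
  have hinj' : Function.Injective (S.domRestrict e) := Set.injOn_iff_injective.1 hinj
  have hemb := he'.isClosedEmbedding hinj'
  let h := hemb.isEmbedding.toHomeomorph
  have hcl : IsClosed (Set.range (S.domRestrict e)) := hemb.isClosed_range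
  let g : C(Set.range (S.domRestrict e), EE n) :=
    ⟨fun u => (h.symm u).1, continuous_subtype_val.comp h.symm.continuous⟩
  obtain ⟨F, hF⟩ := ContinuousMap.exists_restrict_eq hcl g
  refine ⟨F, F.continuous, fun w hw => ?_⟩
  have h1 : h ⟨w, hw⟩ = ⟨e w, ⟨⟨w, hw⟩, rfl⟩⟩ := rfl
  have h2 := congrArg (fun G : C(Set.range (S.domRestrict e), EE n) => G (h ⟨w, hw⟩)) hF
  have h3 : F (e w) = g (h ⟨w, hw⟩) := h2
  rw [h3]
  show (h.symm (h ⟨w, hw⟩)).1 = w
  rw [h.symm_apply_apply]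

lemma glue (Δ : Cx V) (S S' : Set (EE n)) (hS : IsCompact S) (hSS : S' ⊆ S)
    (e : EE n → (V → ℝ)) (he : ContinuousOn e S) (hinj : Set.InjOn e S)
    (hX : ∀ w ∈ S, e w ∈ realization Δ)
    (O : Set (V → ℝ)) (hO : IsOpen O) (hOX : ∀ u ∈ realization Δ, u ∈ O ↔ ∃ w ∈ S', e w = u)
    (f : (V → ℝ) → EE n) (hf : Continuous f) (hfe : ∀ w ∈ S, f (e w) = w)
    (D : (V → ℝ) × ℝ → EE n) (hD : Continuous D)
    (hDS : ∀ w ∈ S, ∀ t ∈ Set.Icc (0 : ℝ) 1, w + D (e w, t) ∈ S)
    (hD0 : ∀ w ∈ S, D (e w, 0) = 0)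
    (hDb : ∀ w ∈ S, w ∉ S' → ∀ t ∈ Set.Icc (0 : ℝ) 1, D (e w, t) = 0)
    (y : EE n) (hy : y ∈ S) :
    ∃ G : (V → ℝ) × ℝ → (V → ℝ),
      ContinuousOn G (realization Δ ×ˢ Set.Icc (0 : ℝ) 1) ∧
      (∀ p ∈ realization Δ ×ˢ Set.Icc (0 : ℝ) 1, G p ∈ realization Δ) ∧
      (∀ u ∈ realization Δ, G (u, 0) = u) ∧
      (∀ u ∈ realization Δ, ∀ t ∈ Set.Icc (0 : ℝ) 1, G (u, t) = e y →
        ∃ w ∈ S, e w = u ∧ w + D (u, t) = y) := by
  classical
  let N : Set (V → ℝ) := e '' S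
  have hN : IsClosed N := (hS.image_of_continuousOn he).isClosed
  let C : Set (V → ℝ) := realization Δ ∩ Oᶜ
  have hC : IsClosed C := (realization_compact Δ).isClosed.inter hO.isClosed_compl
  let G : (V → ℝ) × ℝ → (V → ℝ) := fun p => if p.1 ∈ N then e (f p.1 + D p) else p.1
  have hGN : ∀ w ∈ S, ∀ t, G (e w, t) = e (w + D (e w, t)) := by
    intro w hw t
    have h1 : (e w, t).1 ∈ N := ⟨w, hw, rfl⟩
    show (if (e w, t).1 ∈ N then e (f (e w) + D (e w, t)) else e w) = _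
    rw [if_pos h1, hfe w hw]
  have hGC : ∀ u ∈ C, ∀ t ∈ Set.Icc (0 : ℝ) 1, G (u, t) = u := by
    intro u hu t ht
    by_cases h : u ∈ N
    · obtain ⟨w, hw, rfl⟩ := h
      rw [hGN w hw t, hDb w hw ?_ t ht, add_zero]
      intro hw'
      exact hu.2 ((hOX _ hu.1).2 ⟨w, hw', rfl⟩)
    · exact if_neg h
  have hcover : ∀ u ∈ realization Δ, u ∈ N ∨ u ∈ C := by
    intro u hu
    by_cases h : u ∈ O
    · obtain ⟨w, hw, hwu⟩ := (hOX u hu).1 h
      exact Or.inl ⟨w, hSS hw, hwu⟩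
    · exact Or.inr ⟨hu, h⟩
  refine ⟨G, ?_, ?_, ?_, ?_⟩
  · have h1 : ContinuousOn G (N ×ˢ Set.Icc (0 : ℝ) 1) := by
      have h2 : ContinuousOn (fun p : (V → ℝ) × ℝ => e (f p.1 + D p)) (N ×ˢ Set.Icc (0 : ℝ) 1) := by
        refine he.comp (t := S) (f := fun p : (V → ℝ) × ℝ => f p.1 + D p) ?_ ?_
        · exact ((hf.comp continuous_fst).add hD).continuousOn
        · rintro ⟨u, t⟩ ⟨⟨w, hw, hwu⟩, ht⟩
          have hwu' : e w = u := hwu
          subst hwu'
          show f (e w) + D (e w, t) ∈ S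
          rw [hfe w hw]
          exact hDS w hw t ht
      refine h2.congr ?_
      rintro ⟨u, t⟩ ⟨hu, _⟩
      exact if_pos hu
    have h3 : ContinuousOn G (C ×ˢ Set.Icc (0 : ℝ) 1) := by
      refine (continuous_fst.continuousOn (s := C ×ˢ Set.Icc (0 : ℝ) 1)).congr ?_
      rintro ⟨u, t⟩ ⟨hu, ht⟩
      exact hGC u hu t ht
    refine (h1.union_of_isClosed h3 (hN.prod isClosed_Icc) (hC.prod isClosed_Icc)).mono ?_
    rintro ⟨u, t⟩ ⟨hu, ht⟩
    rcases hcover u hu with h | h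
    · exact Or.inl ⟨h, ht⟩
    · exact Or.inr ⟨h, ht⟩
  · rintro ⟨u, t⟩ ⟨hu, ht⟩
    rcases hcover u hu with ⟨w, hw, rfl⟩ | h
    · rw [hGN w hw t]
      exact hX _ (hDS w hw t ht)
    · rw [hGC u h t ht]
      exact hu
  · intro u hu
    rcases hcover u hu with ⟨w, hw, rfl⟩ | h
    · rw [hGN w hw 0, hD0 w hw, add_zero]
    · exact hGC u h 0 ⟨le_rfl, zero_le_one⟩
  · intro u hu t ht hG
    rcases hcover u hu with ⟨w, hw, rfl⟩ | h
    · rw [hGN w hw t] at hG
      exact ⟨w, hw, rfl, hinj (hDS w hw t ht) hy hG⟩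
    · rw [hGC u h t ht] at hG
      subst hG
      refine ⟨y, hy, rfl, ?_⟩
      have h1 : y ∉ S' := fun h2 => h.2 ((hOX _ hu).2 ⟨y, h2, rfl⟩)
      rw [hDb y hy h1 t ht, add_zero]

/-- cut-off function -/
noncomputable def cut (r : ℝ) (s : ℝ) : ℝ := max 0 (min 1 (2 - 3 * s / r))

lemma cut_cont (r : ℝ) : Continuous (cut r) := by
  unfold cut
  exact continuous_const.max (continuous_const.min (continuous_const.sub
    ((continuous_const.mul continuous_id).div_const r)))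

lemma cut_nonneg (r s : ℝ) : 0 ≤ cut r s := le_max_left _ _

lemma cut_le (r s : ℝ) : cut r s ≤ 1 := max_le zero_le_one (min_le_left _ _)

lemma cut_one (r s : ℝ) (hr : 0 < r) (h : s ≤ r / 3) : cut r s = 1 := by
  have h1 : 3 * s / r ≤ 1 := by
    rw [div_le_one hr]; linarith
  unfold cut
  rw [min_eq_left (by linarith), max_eq_right zero_le_one]

lemma cut_zero (r s : ℝ) (hr : 0 < r) (h : 2 * r / 3 ≤ s) : cut r s = 0 := by
  have h1 : 2 ≤ 3 * s / r := by
    rw [le_div_iff₀ hr]; linarith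
  unfold cut
  rw [max_eq_left]
  exact (min_le_right _ _).trans (by linarith)

/-- Local acyclicity at a point with a Euclidean chart. -/
lemma acy_int (Δ : Cx V) (hn : 1 ≤ n) (τ : Finset V) (hτ : τ ∈ Δ.faces) (hne : τ.Nonempty)
    (x : V → ℝ) (hx : x ∈ cell τ) (hxp : ∀ v ∈ τ, 0 < x v)
    (y : EE n) (r : ℝ) (hr : 0 < r) (e : EE n → (V → ℝ))
    (he : ContinuousOn e (Metric.closedBall y r)) (hinj : Set.InjOn e (Metric.closedBall y r))
    (hX : ∀ w ∈ Metric.closedBall y r, e w ∈ realization Δ) (hey : e y = x)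
    (O : Set (V → ℝ)) (hO : IsOpen O)
    (hOX : ∀ u ∈ realization Δ, u ∈ O ↔ ∃ w ∈ Metric.ball y r, e w = u)
    (k : ℕ) (hk : k ≤ n) : Acy Δ ℤ τ k := by
  classical
  have hSc : IsCompact (Metric.closedBall y r) := isCompact_closedBall y r
  obtain ⟨f, hf, hfe⟩ := inverse_ext (Metric.closedBall y r) hSc e he hinj
  have hyS : y ∈ Metric.closedBall y r := Metric.mem_closedBall_self hr.le
  have hxX := cell_sub Δ τ hτ hx
  -- the faces that do not contain `τ`
  let A : Set (V → ℝ) := ⋃ σ ∈ Δ.faces.filter (fun σ => ¬ τ ⊆ σ), cell σ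
  have hA : IsCompact A := (Δ.faces.filter (fun σ => ¬ τ ⊆ σ)).isCompact_biUnion
    fun σ _ => cell_compact σ
  have hAX : A ⊆ realization Δ := by
    refine Set.iUnion₂_subset fun σ hσ => ?_
    exact cell_sub Δ σ (Finset.mem_filter.1 hσ).1
  have hxA : x ∉ A := by
    intro h
    obtain ⟨σ, hσ, hus⟩ := Set.mem_iUnion₂.1 h
    apply (Finset.mem_filter.1 hσ).2
    intro v hv
    by_contra h3
    exact absurd (hus.2.2 v h3) (ne_of_gt (hxp v hv))
  have hNc : IsCompact (e '' Metric.closedBall y r) := hSc.image_of_continuousOn he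
  have hfA : IsClosed (f '' (A ∩ e '' Metric.closedBall y r)) :=
    ((hA.inter hNc).image hf).isClosed
  have hyA : y ∉ f '' (A ∩ e '' Metric.closedBall y r) := by
    rintro ⟨u, ⟨hu, ⟨w, hw, rfl⟩⟩, hux⟩
    rw [hfe w hw] at hux
    subst hux
    rw [hey] at hu
    exact hxA hu
  obtain ⟨ε0, hε0, hball0⟩ := Metric.isOpen_iff.1 hfA.isOpen_compl y hyA
  let ε : ℝ := min ε0 (r / 3)
  have hε : 0 < ε := lt_min hε0 (by positivity)
  have hεr : ε ≤ r / 3 := min_le_right _ _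
  have hεε : ε ≤ ε0 := min_le_left _ _
  obtain ⟨P, hP, hPf, _⟩ := Continuous.exists_contDiff_approx (f := f) (ε := fun _ => ε / 4) 1 hf
    continuous_const (fun _ => by positivity)
  obtain ⟨y', hy', hyy⟩ := (image_dense Δ n hn P hP).exists_dist_lt y (ε := ε / 4) (by positivity)
  let q : (V → ℝ) → EE n := fun u => P u + (y - y') - f u
  have hqc : Continuous q := ((hP.continuous).add continuous_const).sub hf
  have hqn : ∀ u, ‖q u‖ < ε := by
    intro u
    have h3 : q u = (P u - f u) + (y - y') := by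
      show P u + (y - y') - f u = _
      abel
    rw [h3]
    have h4 := norm_add_le (P u - f u) (y - y')
    have h5 := hPf u
    rw [dist_eq_norm] at h5 hyy
    linarith
  let D : (V → ℝ) × ℝ → EE n := fun p => (p.2 * cut r ‖f p.1 - y‖) • q p.1
  have hDc : Continuous D :=
    (continuous_snd.mul ((cut_cont r).comp (((hf.comp continuous_fst).sub
      continuous_const).norm))).smul (hqc.comp continuous_fst)
  have hDn : ∀ u, ∀ t ∈ Set.Icc (0 : ℝ) 1, ‖D (u, t)‖ < ε := by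
    intro u t ht
    show ‖(t * cut r ‖f u - y‖) • q u‖ < ε
    have h0 : 0 ≤ t * cut r ‖f u - y‖ := mul_nonneg ht.1 (cut_nonneg _ _)
    have h1 : t * cut r ‖f u - y‖ ≤ 1 := by
      have := mul_le_mul ht.2 (cut_le r ‖f u - y‖) (cut_nonneg _ _) zero_le_one
      linarith
    rw [norm_smul, Real.norm_eq_abs, abs_of_nonneg h0]
    have := mul_le_mul_of_nonneg_right h1 (norm_nonneg (q u))
    linarith [hqn u]
  have hDz : ∀ w ∈ Metric.closedBall y r, 2 * r / 3 ≤ ‖w - y‖ → ∀ t, D (e w, t) = 0 := by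
    intro w hw h t
    show (t * cut r ‖f (e w) - y‖) • q (e w) = 0
    rw [hfe w hw, cut_zero r _ hr h, mul_zero, zero_smul]
  obtain ⟨G, hG, hm, hG0, hGx⟩ := glue Δ (Metric.closedBall y r) (Metric.ball y r) hSc
    Metric.ball_subset_closedBall e he hinj hX O hO hOX f hf hfe D hDc
    (by
      intro w hw t ht
      by_cases h : 2 * r / 3 ≤ ‖w - y‖
      · rw [hDz w hw h t, add_zero]
        exact hw
      · rw [Metric.mem_closedBall, dist_eq_norm]
        have h1 : w + D (e w, t) - y = (w - y) + D (e w, t) := by abel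
        rw [h1]
        have h2 := norm_add_le (w - y) (D (e w, t))
        have h3 := hDn (e w) t ht
        linarith [not_le.1 h])
    (by
      intro w _
      show ((0 : ℝ) * _) • _ = (0 : EE n)
      rw [zero_mul, zero_smul])
    (by
      intro w hw hw' t _
      refine hDz w hw ?_ t
      rw [Metric.mem_ball, dist_eq_norm, not_lt] at hw'
      linarith)
    y hyS
  rw [hey] at hGx
  refine acy_of_map Δ n τ hne x hx hxp G hG hm hG0 ?_ ?_ k hk
  · intro σ hσ hτσ u hu t ht hGu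
    obtain ⟨w, hw, hwu, hwy⟩ := hGx u (cell_sub Δ σ hσ hu) t ht hGu
    have h1 : w ∈ f '' (A ∩ e '' Metric.closedBall y r) := by
      refine ⟨u, ⟨Set.mem_biUnion (Finset.mem_coe.2 (Finset.mem_filter.2 ⟨hσ, hτσ⟩)) hu,
        ⟨w, hw, hwu⟩⟩, ?_⟩
      rw [← hwu, hfe w hw]
    refine hball0 (Metric.mem_ball.2 ?_) h1
    rw [dist_eq_norm]
    have h2 : w - y = - D (u, t) := by rw [← hwy]; abel
    rw [h2, norm_neg]
    linarith [hDn u t ht]
  · intro σ hσ hc u hu hGu
    obtain ⟨w, hw, hwu, hwy⟩ := hGx u (cell_sub Δ σ hσ hu) 1 ⟨zero_le_one, le_rfl⟩ hGu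
    have h2 : w - y = - D (u, 1) := by rw [← hwy]; abel
    have h3 : ‖w - y‖ ≤ r / 3 := by
      rw [h2, norm_neg]
      linarith [hDn u 1 ⟨zero_le_one, le_rfl⟩]
    have h4 : D (u, 1) = q u := by
      show ((1 : ℝ) * cut r ‖f u - y‖) • q u = q u
      rw [← hwu, hfe w hw, cut_one r _ hr h3, mul_one, one_smul]
    rw [h4] at hwy
    have h5 : f u = w := by rw [← hwu, hfe w hw]
    have h6 : P u = y' := by
      have h7 : w + (P u + (y - y') - f u) = y := hwy
      rw [h5] at h7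
      have h8 : P u = (w + (P u + (y - y') - w)) - y + y' := by abel
      rw [h8, h7]
      abel
    exact hy' ⟨u, Set.mem_biUnion (Finset.mem_coe.2 (Finset.mem_filter.2 ⟨hσ, hc⟩)) hu, h6⟩

/-- Local acyclicity at a boundary point of a half-space chart. -/
lemma acy_bdr (Δ : Cx V) (i0 : Fin n) (τ : Finset V) (hτ : τ ∈ Δ.faces) (hne : τ.Nonempty)
    (x : V → ℝ) (hx : x ∈ cell τ) (hxp : ∀ v ∈ τ, 0 < x v)
    (y : EE n) (hy0 : y i0 = 0) (r : ℝ) (hr : 0 < r) (e : EE n → (V → ℝ))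
    (he : ContinuousOn e (Metric.closedBall y r ∩ {w | 0 ≤ w i0}))
    (hinj : Set.InjOn e (Metric.closedBall y r ∩ {w | 0 ≤ w i0}))
    (hX : ∀ w ∈ Metric.closedBall y r ∩ {w | 0 ≤ w i0}, e w ∈ realization Δ) (hey : e y = x)
    (O : Set (V → ℝ)) (hO : IsOpen O)
    (hOX : ∀ u ∈ realization Δ, u ∈ O ↔ ∃ w ∈ Metric.ball y r ∩ {w | 0 ≤ w i0}, e w = u)
    (k : ℕ) : Acy Δ ℤ τ k := by
  classical
  have hHc : IsClosed {w : EE n | 0 ≤ w i0} :=
    isClosed_le continuous_const (by fun_prop)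
  have hSc : IsCompact (Metric.closedBall y r ∩ {w : EE n | 0 ≤ w i0}) :=
    (isCompact_closedBall y r).inter_right hHc
  obtain ⟨f, hf, hfe⟩ := inverse_ext _ hSc e he hinj
  have hyS : y ∈ Metric.closedBall y r ∩ {w : EE n | 0 ≤ w i0} :=
    ⟨Metric.mem_closedBall_self hr.le, hy0.ge⟩
  let b : EE n := EuclideanSpace.single i0 1
  have hb0 : b i0 = 1 := by simp [b]
  have hbn : ‖b‖ = 1 := by simp [b]
  let D : (V → ℝ) × ℝ → EE n := fun p => (p.2 * cut r ‖f p.1 - y‖ * (r / 3)) • b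
  have hDc : Continuous D :=
    ((continuous_snd.mul ((cut_cont r).comp (((hf.comp continuous_fst).sub
      continuous_const).norm))).mul continuous_const).smul continuous_const
  have hD0' : ∀ u, ∀ t ∈ Set.Icc (0 : ℝ) 1, 0 ≤ t * cut r ‖f u - y‖ * (r / 3) := by
    intro u t ht
    exact mul_nonneg (mul_nonneg ht.1 (cut_nonneg _ _)) (by positivity)
  have hDn : ∀ u, ∀ t ∈ Set.Icc (0 : ℝ) 1, ‖D (u, t)‖ ≤ r / 3 := by
    intro u t ht
    show ‖(t * cut r ‖f u - y‖ * (r / 3)) • b‖ ≤ r / 3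
    have h1 : t * cut r ‖f u - y‖ ≤ 1 := by
      have := mul_le_mul ht.2 (cut_le r ‖f u - y‖) (cut_nonneg _ _) zero_le_one
      linarith
    rw [norm_smul, Real.norm_eq_abs, abs_of_nonneg (hD0' u t ht), hbn, mul_one]
    have := mul_le_mul_of_nonneg_right h1 (by positivity : 0 ≤ r / 3)
    linarith
  have hDi : ∀ u t, D (u, t) i0 = t * cut r ‖f u - y‖ * (r / 3) := by
    intro u t
    show ((t * cut r ‖f u - y‖ * (r / 3)) • b) i0 = _
    rw [PiLp.smul_apply, hb0, smul_eq_mul, mul_one]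
  have hDz : ∀ w ∈ Metric.closedBall y r ∩ {w : EE n | 0 ≤ w i0}, 2 * r / 3 ≤ ‖w - y‖ →
      ∀ t, D (e w, t) = 0 := by
    intro w hw h t
    show (t * cut r ‖f (e w) - y‖ * (r / 3)) • b = 0
    rw [hfe w hw, cut_zero r _ hr h, mul_zero, zero_mul, zero_smul]
  obtain ⟨G, hG, hm, hG0, hGx⟩ := glue Δ (Metric.closedBall y r ∩ {w : EE n | 0 ≤ w i0})
    (Metric.ball y r ∩ {w : EE n | 0 ≤ w i0}) hSc
    (Set.inter_subset_inter_left _ Metric.ball_subset_closedBall) e he hinj hX O hO hOX f hf hfe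
    D hDc
    (by
      intro w hw t ht
      refine ⟨?_, ?_⟩
      · by_cases h : 2 * r / 3 ≤ ‖w - y‖
        · rw [hDz w hw h t, add_zero]
          exact hw.1
        · rw [Metric.mem_closedBall, dist_eq_norm]
          have h1 : w + D (e w, t) - y = (w - y) + D (e w, t) := by abel
          rw [h1]
          have h2 := norm_add_le (w - y) (D (e w, t))
          have h3 := hDn (e w) t ht
          linarith [not_le.1 h]
      · show 0 ≤ (w + D (e w, t)) i0
        rw [PiLp.add_apply, hDi]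
        exact add_nonneg hw.2 (hD0' _ t ht))
    (by
      intro w _
      show ((0 : ℝ) * _ * _) • _ = (0 : EE n)
      rw [zero_mul, zero_mul, zero_smul])
    (by
      intro w hw hw' t _
      refine hDz w hw ?_ t
      have h1 : w ∉ Metric.ball y r := fun h => hw' ⟨h, hw.2⟩
      rw [Metric.mem_ball, dist_eq_norm, not_lt] at h1
      linarith)
    y hyS
  rw [hey] at hGx
  refine acy_of_map Δ k τ hne x hx hxp G hG hm hG0 ?_ ?_ k le_rfl
  · intro σ hσ hτσ u hu t ht hGu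
    obtain ⟨w, hw, hwu, hwy⟩ := hGx u (cell_sub Δ σ hσ hu) t ht hGu
    have h1 : (w + D (u, t)) i0 = 0 := by rw [hwy, hy0]
    have hw0 : 0 ≤ w i0 := hw.2
    rw [PiLp.add_apply, hDi] at h1
    have h2 := hD0' u t ht
    have h3 : t * cut r ‖f u - y‖ * (r / 3) = 0 := by linarith
    have h4 : D (u, t) = 0 := by
      show (t * cut r ‖f u - y‖ * (r / 3)) • b = 0
      rw [h3, zero_smul]
    rw [h4, add_zero] at hwy
    rw [hwy, hey] at hwu
    subst hwu
    apply hτσ
    intro v hv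
    by_contra h5
    exact absurd (hu.2.2 v h5) (ne_of_gt (hxp v hv))
  · intro σ hσ hc u hu hGu
    obtain ⟨w, hw, hwu, hwy⟩ := hGx u (cell_sub Δ σ hσ hu) 1 ⟨zero_le_one, le_rfl⟩ hGu
    have h1 : (w + D (u, 1)) i0 = 0 := by rw [hwy, hy0]
    have hw0 : 0 ≤ w i0 := hw.2
    rw [PiLp.add_apply, hDi] at h1
    have h2 := hD0' u 1 ⟨zero_le_one, le_rfl⟩
    have h3 : 1 * cut r ‖f u - y‖ * (r / 3) = 0 := by linarith
    have h4 : D (u, 1) = 0 := by
      show (1 * cut r ‖f u - y‖ * (r / 3)) • b = 0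
      rw [h3, zero_smul]
    rw [h4, add_zero] at hwy
    have h5 : f u = w := by rw [← hwu, hfe w hw]
    rw [h5, hwy, sub_self, norm_zero, cut_one r 0 hr (by positivity)] at h3
    linarith

end local_charts

end Pool.Agent.Helper611.UTop
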