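import Pool.Agent.Helper611.UStr
import Pool.Agent.Helper611.ULead
import Pool.Agent.Helper611.KTop

set_option autoImplicit false
set_option linter.unusedSectionVars false
set_option linter.unnecessarySimpa false

/-! Stresses and exterior valued cycles. -/

namespace Pool.Agent.Helper611.UVal

open ExteriorAlgebra Pool.Agent.Helper611.ZBase Pool.Agent.Helper611.KRel
  Pool.Agent.Helper611.KVal Pool.Agent.Helper611.KDim Pool.Agent.Helper611.KTop
  Pool.Agent.Helper611.UStr Pool.Agent.Helper611.ULead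

section eps
variable {V : Type} [Fintype V] [LinearOrder V] {K : Type} [Field K] {d : ℕ}

/-- the product of the vectors of a face -/
noncomputable def eps (p : V → (Fin d → K)) (G : Finset V) : ExteriorAlgebra K (Fin d → K) :=
  ((G.sort (· ≤ ·)).map p).foldr (fun v a => a * ι K v) 1

variable (p : V → (Fin d → K))

lemma eps_empty : eps p ∅ = 1 := by
  unfold eps
  rw [Finset.sort_empty]
  rfl

lemma eps_min (x : V) (G : Finset V) (h1 : ∀ b ∈ G, x ≤ b) (h2 : x ∉ G) :
    eps p (insert x G) = eps p G * ι K (p x) := by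
  unfold eps
  rw [Finset.sort_insert _ h1 h2]
  rfl

lemma eps_insert (G : Finset V) (x : V) (hx : x ∉ G) :
    eps p (insert x G) = sgn x G • (eps p G * ι K (p x)) := by
  have key : ∀ m : ℕ, ∀ G : Finset V, G.card = m → ∀ x, x ∉ G →
      eps p (insert x G) = sgn x G • (eps p G * ι K (p x)) := by
    intro m
    induction m with
    | zero =>
      intro G hG x hx
      have : G = ∅ := Finset.card_eq_zero.1 hG
      subst this
      rw [eps_min p x ∅ (fun b hb => absurd hb (Finset.notMem_empty b)) hx, sgn_empty, one_smul]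
    | succ m ih =>
      intro G hG x hx
      have hne : G.Nonempty := Finset.card_pos.1 (by omega)
      have hmin : ∀ b ∈ G, G.min' hne ≤ b := fun b hb => Finset.min'_le _ _ hb
      have hmem := Finset.min'_mem G hne
      rcases le_or_gt x (G.min' hne) with h | h
      · have h1 : ∀ b ∈ G, x ≤ b := fun b hb => h.trans (hmin b hb)
        rw [eps_min p x G h1 hx]
        have : sgn x G = 1 := by
          unfold sgn
          rw [Finset.filter_false_of_mem, Finset.card_empty, pow_zero]
          intro b hb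
          exact not_lt.2 (h1 b hb)
        rw [this, one_smul]
      · generalize hy : G.min' hne = y at *
        have hxy : x ≠ y := ne_of_gt h
        have hc : (G.erase y).card = m := by
          rw [Finset.card_erase_of_mem hmem]; omega
        have hG' : G = insert y (G.erase y) := (Finset.insert_erase hmem).symm
        have hxG : x ∉ G.erase y := fun h => hx (Finset.mem_of_mem_erase h)
        have e1 : insert x G = insert y (insert x (G.erase y)) := by
          rw [Finset.insert_comm, Finset.insert_erase hmem]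
        have h2 : y ∉ insert x (G.erase y) := fun h => by
          rcases Finset.mem_insert.1 h with h | h
          · exact hxy h.symm
          · exact Finset.notMem_erase _ _ h
        have h3 : ∀ b ∈ insert x (G.erase y), y ≤ b := by
          intro b hb
          rcases Finset.mem_insert.1 hb with hb | hb
          · rw [hb]; exact h.le
          · exact hmin b (Finset.mem_of_mem_erase hb)
        rw [e1, eps_min p y _ h3 h2, ih _ hc x hxG, smul_mul_assoc]
        have h4 : eps p G = eps p (G.erase y) * ι K (p y) := by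
          conv_lhs => rw [hG']
          exact eps_min p y _ (fun b hb => hmin b (Finset.mem_of_mem_erase hb))
            (Finset.notMem_erase _ _)
        rw [h4, ι_anti, smul_neg, ← neg_smul]
        congr 1
        have h6 := sgn_insert_lt x y (G.erase y) (Finset.notMem_erase _ _) h
        rw [Finset.insert_erase hmem] at h6
        rw [h6]
  exact key _ G rfl x hx

lemma eps_mem : ∀ G : Finset V, eps p G ∈ ⋀[K]^G.card (Fin d → K) := by
  intro G
  induction G using Finset.induction_on with
  | empty =>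
    rw [eps_empty, Finset.card_empty, exteriorPower, pow_zero]
    exact Submodule.one_le.1 le_rfl
  | insert x G hx ih =>
    rw [eps_insert p G x hx, Finset.card_insert_of_notMem hx]
    exact zsmul_mem (mul_ι_mem _ _ ih _) _

lemma eps_kill (G : Finset V) (x : V) (hx : x ∈ G) : eps p G * ι K (p x) = 0 := by
  rw [← Finset.insert_erase hx, eps_insert p _ x (Finset.notMem_erase _ _), smul_mul_assoc,
    mul_assoc, ι_sq_zero, mul_zero, smul_zero]

lemma ctr_smulz (f : Module.Dual K (Fin d → K)) (n : ℤ) (a : ExteriorAlgebra K (Fin d → K)) :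
    ctr f (n • a) = n • ctr f a := by
  unfold ctr
  rw [map_zsmul]
  rfl

lemma ctr_eps (f : Module.Dual K (Fin d → K)) (G : Finset V) :
    (∀ x ∈ G, f (p x) = 0) → ctr f (eps p G) = 0 := by
  induction G using Finset.induction_on with
  | empty =>
    intro _
    rw [eps_empty]
    have := CliffordAlgebra.contractRight_algebraMap (Q := (0 : QuadraticForm K (Fin d → K))) f 1
    rw [map_one] at this
    exact this
  | insert x G hx ih =>
    intro h
    rw [eps_insert p G x hx, ctr_smulz, ctr_mul_ι, h x (Finset.mem_insert_self _ _), zero_smul,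
      ih fun y hy => h y (Finset.mem_insert_of_mem hy), zero_mul, sub_zero, smul_zero]

variable {Γ : Cx V} {φ : Finset V → V → Module.Dual K (Fin d → K)}

lemma eps_ne (hφ : Coord Γ p φ) (G : Finset V) : G ∈ Γ.faces → eps p G ≠ 0 := by
  induction G using Finset.induction_on with
  | empty =>
    intro _
    rw [eps_empty]
    exact one_ne_zero
  | insert x G hx ih =>
    intro hG h
    have hG' := Γ.down _ hG G (Finset.subset_insert _ _)
    rw [eps_insert p G x hx] at h
    have h1 : eps p G * ι K (p x) = 0 := by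
      have := congrArg (fun a => sgn x G • a) h
      simpa only [smul_smul, sgn_mul_self, one_smul, smul_zero] using this
    have h2 := ctr_mul_ι (φ (insert x G) x) (eps p G) (p x)
    rw [h1, ctr_zero, hφ.one _ hG x (Finset.mem_insert_self _ _), one_smul,
      ctr_eps p _ G (fun y hy => hφ.zero _ hG x (Finset.mem_insert_self _ _) y
        (Finset.mem_insert_of_mem hy) (fun h => hx (h ▸ hy))), zero_mul, sub_zero] at h2
    exact ih hG' h2.symm

lemma eps_span (hφ : Coord Γ p φ) (G : Finset V) : G ∈ Γ.faces → ∀ ω,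
    ω ∈ MA p G.card G → ∃ r : K, ω = r • eps p G := by
  induction G using Finset.induction_on with
  | empty =>
    intro _ ω hω
    have h1 := hω.1
    rw [Finset.card_empty, exteriorPower, pow_zero] at h1
    obtain ⟨r, rfl⟩ := Submodule.mem_one.1 h1
    refine ⟨r, ?_⟩
    rw [eps_empty, Algebra.algebraMap_eq_smul_one]
  | insert x G hx ih =>
    intro hG ω hω
    have hG' := Γ.down _ hG G (Finset.subset_insert _ _)
    rw [Finset.card_insert_of_notMem hx] at hω
    have h0 := hφ.one _ hG x (Finset.mem_insert_self _ _)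
    obtain ⟨a1, a2, a3⟩ := div_one G.card ω hω.1 (p x) (φ (insert x G) x) h0
      (hω.2 x (Finset.mem_insert_self _ _))
    obtain ⟨r, hr⟩ := ih hG' (ctr (φ (insert x G) x) ω) ⟨a1, fun y hy =>
      a3 (p y) (hφ.zero _ hG x (Finset.mem_insert_self _ _) y
        (Finset.mem_insert_of_mem hy) (fun h => hx (h ▸ hy)))
        (hω.2 y (Finset.mem_insert_of_mem hy))⟩
    refine ⟨(sgn x G : K) * r, ?_⟩
    have h7 : (sgn x G : K) * (sgn x G : K) = 1 := by
      rw [← Int.cast_mul, sgn_mul_self, Int.cast_one]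
    rw [← a2, hr, eps_insert p G x hx, smul_mul_assoc, ← Int.cast_smul_eq_zsmul K, smul_smul,
      mul_comm, ← mul_assoc, h7, one_mul]

lemma eps_wedge (hφ : Coord Γ p φ) (ρ : Finset V) (hρ : ρ ∈ Γ.faces) (v : Fin d → K) :
    eps p ρ * ι K v = 0 ↔ v ∈ Submodule.span K (p '' (ρ : Set V)) := by
  constructor
  · intro h
    refine mem_span_of hφ ρ hρ v fun ψ hψ => ?_
    have h2 := ctr_mul_ι ψ (eps p ρ) v
    rw [h, ctr_zero, ctr_eps p ψ ρ hψ, zero_mul, sub_zero] at h2
    exact (smul_eq_zero.1 h2.symm).resolve_right (eps_ne p hφ ρ hρ)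
  · intro h
    induction h using Submodule.span_induction with
    | mem w hw =>
      obtain ⟨y, hy, rfl⟩ := hw
      exact eps_kill p ρ y hy
    | zero => rw [map_zero, mul_zero]
    | add a b _ _ ha hb => rw [map_add, mul_add, ha, hb, add_zero]
    | smul r a _ ha => rw [map_smul, mul_smul_comm, ha, smul_zero]

end eps

section phi
variable {V : Type} [Fintype V] [LinearOrder V] {K : Type} [Field K] {d : ℕ}

/-- the chain of a stress -/
noncomputable def Phi (p : V → (Fin d → K)) :
    (Finset V → K) →ₗ[K] (Finset V → ExteriorAlgebra K (Fin d → K)) where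
  toFun := fun l σ => l σ • eps p σ
  map_add' := fun a b => funext fun σ => by rw [Pi.add_apply, Pi.add_apply, add_smul]
  map_smul' := fun r a => funext fun σ => by
    rw [Pi.smul_apply, Pi.smul_apply, RingHom.id_apply, smul_assoc]

variable {p : V → (Fin d → K)} {Γ : Cx V} {φ : Finset V → V → Module.Dual K (Fin d → K)}

lemma Phi_apply (l : Finset V → K) (σ : Finset V) : Phi p l σ = l σ • eps p σ := rfl

lemma bd_Phi (l : Finset V → K) (ρ : Finset V) :
    bd (Phi p l) ρ = eps p ρ * ι K (∑ x ∈ ρᶜ, l (insert x ρ) • p x) := by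
  unfold bd
  rw [map_sum, Finset.mul_sum]
  refine Finset.sum_congr rfl fun x hx => ?_
  rw [Phi_apply, eps_insert p ρ x (Finset.mem_compl.1 hx), smul_comm (sgn x ρ), smul_smul,
    sgn_mul_self, one_smul, map_smul, mul_smul_comm]

lemma Phi_CC (s : ℕ) (l : Finset V → K) (hl : ∀ σ, l σ ≠ 0 → σ ∈ Γ.faces ∧ σ.card = s) :
    Phi p l ∈ CC (fun σ => σ ∈ Γ.faces) p s s := by
  refine ⟨fun σ hσ => hl σ fun h => hσ (by rw [Phi_apply, h, zero_smul]), fun σ => ?_⟩
  rw [Phi_apply]
  by_cases h : l σ = 0
  · rw [h, zero_smul]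
    exact Submodule.zero_mem _
  · refine Submodule.smul_mem _ _ ⟨?_, fun x hx => eps_kill p σ x hx⟩
    have := eps_mem p σ
    rwa [(hl σ h).2] at this

lemma Phi_ZZ (hφ : Coord Γ p φ) (s : ℕ) (l : Finset V → K) (hl : l ∈ St Γ p s) :
    Phi p l ∈ ZZ (fun σ => σ ∈ Γ.faces) p s s := by
  refine ⟨Phi_CC s l hl.1, ?_⟩
  show rbd _ (Phi p l) = 0
  funext ρ
  by_cases h : ρ ∈ Γ.faces
  · rw [rbd_pos _ _ ρ h, bd_Phi]
    exact (eps_wedge p hφ ρ h _).2 (hl.2 ρ h)
  · exact rbd_neg _ _ ρ h

lemma ZZ_le (hφ : Coord Γ p φ) (s : ℕ) :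
    ZZ (fun σ => σ ∈ Γ.faces) p s s ≤ (St Γ p s).map (Phi p) := by
  classical
  rintro c ⟨⟨hc1, hc2⟩, hc3⟩
  have h1 : ∀ σ, ∃ r : K, c σ = r • eps p σ ∧ (r ≠ 0 → σ ∈ Γ.faces ∧ σ.card = s) := by
    intro σ
    by_cases h : c σ = 0
    · exact ⟨0, by rw [h, zero_smul], fun h => absurd rfl h⟩
    · obtain ⟨h3, h4⟩ := hc1 σ h
      have h5 := hc2 σ
      rw [← h4] at h5
      obtain ⟨r, hr⟩ := eps_span p hφ σ h3 _ h5
      exact ⟨r, hr, fun _ => ⟨h3, h4⟩⟩
  choose l hl hl2 using h1
  have hPhi : Phi p l = c := funext fun σ => (hl σ).symm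
  refine ⟨l, ⟨hl2, fun ρ hρ => ?_⟩, hPhi⟩
  rw [← eps_wedge p hφ ρ hρ, ← bd_Phi, hPhi]
  have : rbd (fun σ => σ ∈ Γ.faces) c ρ = 0 := congrFun hc3 ρ
  rwa [rbd_pos _ _ ρ hρ] at this

/-- null-homologous stresses -/
noncomputable def Nu (Γ : Cx V) (p : V → (Fin d → K)) (s : ℕ) : Submodule K (Finset V → K) :=
  St Γ p s ⊓ (BB (fun σ => σ ∈ Γ.faces) (0 : V → (Fin d → K)) s s).comap (Phi p)

lemma wdgM_zero' {M : Type*} [AddCommGroup M] (x : V) (ρ : Finset V) :
    wdgM x (0 : Finset V → M) ρ = 0 := by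
  unfold wdgM
  simp

lemma Nu_finrank (hφ : Coord Γ p φ) (s : ℕ) :
    Module.finrank K (Nu Γ p s) ≤ Module.finrank K (ZN (fun σ => σ ∈ Γ.faces) p s) := by
  have := CC_fin (V := V) (K := K) (d := d)
  have h1 : ∀ l ∈ Nu Γ p s, Phi p l ∈ ZN (fun σ => σ ∈ Γ.faces) p s :=
    fun l hl => ⟨Phi_ZZ hφ s l hl.1, hl.2⟩
  refine LinearMap.finrank_le_finrank_of_injective (f := (Phi p).restrict h1) ?_
  rw [← LinearMap.ker_eq_bot, LinearMap.ker_eq_bot']
  intro l hl
  apply Subtype.ext
  funext σ
  have h2 : Phi p l.1 σ = 0 := congrFun (congrArg Subtype.val hl) σ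
  rw [Phi_apply] at h2
  show l.1 σ = 0
  by_contra h3
  have h4 := (l.2.1.1 σ h3).1
  rcases smul_eq_zero.1 h2 with h5 | h5
  · exact h3 h5
  · exact eps_ne p hφ σ h4 h5

lemma D_Nu (hφ : Coord Γ p φ) (s : ℕ) (l : Finset V → K) (hl : l ∈ St Γ p (s + 1)) (x : V) :
    D Γ p φ x l ∈ Nu Γ p s := by
  have hm := D_mem hφ s l hl x
  have hz := Phi_ZZ hφ s _ hm
  have hb : bd (Phi p (D Γ p φ x l)) = 0 := by
    rw [← rbd_eq_bd Γ _ fun σ hσ => (hz.1.1 σ hσ).1]
    exact hz.2
  refine ⟨hm, ⟨wdgM x (Phi p (D Γ p φ x l)), ?_, ?_⟩⟩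
  · refine (mem_CC0 _ s (s + 1) _).2 ⟨fun σ hσ => ?_, fun σ => ?_⟩
    · unfold wdgM at hσ
      by_cases hx : x ∈ σ
      · rw [if_pos hx, Phi_apply, D_apply, mu_out Γ p φ _ _ x (Finset.notMem_erase _ _),
          Finset.insert_erase hx] at hσ
        refine hl.1 σ fun h => hσ ?_
        rw [h, zero_smul, smul_zero]
      · rw [if_neg hx] at hσ
        exact absurd rfl hσ
    · unfold wdgM
      by_cases hx : x ∈ σ
      · rw [if_pos hx]
        exact zsmul_mem ((hz.1.2 _).1) _
      · rw [if_neg hx]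
        exact Submodule.zero_mem _
  · funext ρ
    by_cases hρ : ρ ∈ Γ.faces
    · rw [rbd_pos _ _ ρ hρ, bd_wdgM, hb, wdgM_zero', sub_zero]
    · rw [rbd_neg _ _ ρ hρ]
      by_contra h
      exact hρ (hz.1.1 ρ (Ne.symm h)).1
end phi

end Pool.Agent.Helper611.UVal
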